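import Pool.Agent.MP_0c8446_ag.Defs

namespace Pool.Agent.MP_0c8446_ag

open scoped LinearAlgebra.Projectivization TensorProduct
open MvPolynomial Set

universe u v w

section

variable {K : Type v} [Field K] (L : Type v) [Field L] [Algebra K L]

theorem bc_ind {A : Type w} [AddCommGroup A] [Module K A] (p : Submodule K A)
    (P : L ⊗[K] A → Prop) (h0 : P 0) (hadd : ∀ x y, P x → P y → P (x + y))
    (ht : ∀ l, ∀ a ∈ p, P (l ⊗ₜ a)) : ∀ x ∈ p.baseChange L, P x := by
  rintro _ ⟨y, rfl⟩
  induction y using TensorProduct.induction_on with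
  | zero => simpa using h0
  | tmul l a => exact ht l a.1 a.2
  | add x y hx hy => rw [map_add]; exact hadd _ _ hx hy

/-- The base change of a linear form. -/
noncomputable def bcTr {A : Type w} [AddCommGroup A] [Module K A] (t : A →ₗ[K] K) :
    L ⊗[K] A →ₗ[L] L :=
  (TensorProduct.AlgebraTensorModule.rid K L L).toLinearMap ∘ₗ t.baseChange L

theorem bcTr_tmul {A : Type w} [AddCommGroup A] [Module K A] (t : A →ₗ[K] K) (l : L) (a : A) :
    bcTr L t (l ⊗ₜ a) = t a • l := by
  simp [bcTr]

theorem bc_poincare {A : Type w} [Ring A] [Algebra K A] (t : A →ₗ[K] K)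
    (h : ∀ a, (∀ b, t (a * b) = 0) → a = 0) (a : L ⊗[K] A)
    (ha : ∀ b, bcTr L t (a * b) = 0) : a = 0 := by
  classical
  let B := Module.Basis.ofVectorSpace K L
  have key : ∀ (x : L ⊗[K] A) (b : A) i, B.repr (bcTr L t (x * (1 ⊗ₜ b))) i =
      t (TensorProduct.equivFinsuppOfBasisLeft B x i * b) := by
    intro x b i
    induction x using TensorProduct.induction_on with
    | zero => simp
    | tmul l c =>
      rw [Algebra.TensorProduct.tmul_mul_tmul, bcTr_tmul,
        TensorProduct.equivFinsuppOfBasisLeft_apply_tmul_apply, smul_mul_assoc, map_smul,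
        map_smul, mul_one, Finsupp.smul_apply, smul_eq_mul, smul_eq_mul, mul_comm]
    | add x y hx hy => simp only [add_mul, map_add, Finsupp.add_apply, hx, hy]
  apply (TensorProduct.equivFinsuppOfBasisLeft B).injective
  ext i
  rw [map_zero, Finsupp.zero_apply]
  apply h
  intro b
  rw [← key, ha, map_zero, Finsupp.zero_apply]

theorem bc_kunneth {A B C : Type w} [Ring A] [Algebra K A] [Ring B] [Algebra K B] [Ring C]
    [Algebra K C] (p : A →ₐ[K] C) (q : B →ₐ[K] C)
    (h : Function.Bijective (TensorProduct.lift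
      ((LinearMap.mul K C).compl₁₂ p.toLinearMap q.toLinearMap))) :
    Function.Bijective (TensorProduct.lift
      ((LinearMap.mul L (L ⊗[K] C)).compl₁₂
        (Algebra.TensorProduct.map (AlgHom.id L L) p).toLinearMap
        (Algebra.TensorProduct.map (AlgHom.id L L) q).toLinearMap)) := by
  let e := LinearEquiv.ofBijective _ h
  let e' := (TensorProduct.AlgebraTensorModule.distribBaseChange K L A B).symm ≪≫ₗ
    e.baseChange K L _ _
  have : (TensorProduct.lift
      ((LinearMap.mul L (L ⊗[K] C)).compl₁₂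
        (Algebra.TensorProduct.map (AlgHom.id L L) p).toLinearMap
        (Algebra.TensorProduct.map (AlgHom.id L L) q).toLinearMap)) = e'.toLinearMap := by
    apply TensorProduct.ext'
    intro x y
    induction x using TensorProduct.induction_on with
    | zero => simp
    | add x x' hx hx' => rw [TensorProduct.add_tmul, map_add, map_add, hx, hx']
    | tmul l a =>
      induction y using TensorProduct.induction_on with
      | zero => simp
      | add y y' hy hy' => rw [TensorProduct.tmul_add, map_add, map_add, hy, hy']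
      | tmul l' b =>
        simp [e', e, Algebra.TensorProduct.tmul_mul_tmul]
  rw [this]
  exact e'.bijective

end

variable {k : Type u} [Field k] {K : Type v} [Field K]

/-- The base change of the data of a cohomology theory. -/
noncomputable def Coh.bc (W : Coh.{u, v, w} k K) (L : Type v) [Field L] [Algebra K L] :
    Coh.{u, v, max v w} k L where
  H X := L ⊗[K] W.H X
  gr X i := (W.gr X i).baseChange L
  pull f := Algebra.TensorProduct.map (AlgHom.id L L) (W.pull f)
  tr X := bcTr L (W.tr X)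
  cl X Z := 1 ⊗ₜ W.cl X Z

theorem bc_closure (W : Coh.{u, v, w} k K) (L : Type v) [Field L] [Algebra K L] (X : Var k)
    (a : W.H X) (ha : a ∈ AddSubgroup.closure (W.cl X '' {C | IsSub C})) :
    ((1 : L) ⊗ₜ[K] a : L ⊗[K] W.H X) ∈
      AddSubgroup.closure ((fun Z => ((1 : L) ⊗ₜ[K] W.cl X Z : L ⊗[K] W.H X)) '' {C | IsSub C}) := by
  induction ha using AddSubgroup.closure_induction with
  | mem x hx =>
    obtain ⟨Z, hZ, rfl⟩ := hx
    exact AddSubgroup.subset_closure ⟨Z, hZ, rfl⟩
  | zero => rw [TensorProduct.tmul_zero]; exact zero_mem _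
  | add x y _ _ hx hy => rw [TensorProduct.tmul_add]; exact add_mem hx hy
  | neg x _ hx => rw [TensorProduct.tmul_neg]; exact neg_mem hx

/-- The base change of a Weil cohomology theory. -/
noncomputable def Weil.bc (W : Weil.{u, v, w} k K) (L : Type v) [Field L] [Algebra K L] :
    Weil.{u, v, max v w} k L where
  toCoh := W.toCoh.bc L
  finite X := by
    have := W.finite X
    exact (inferInstance : Module.Finite L (L ⊗[K] W.H X))
  comm := by
    intro X i j a ha b hb
    revert b
    refine bc_ind L (W.gr X i) (fun a : L ⊗[K] W.H X => ∀ b ∈ (W.gr X j).baseChange L,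
      a * b = (-1) ^ (i * j) * (b * a)) ?_ ?_ ?_ a ha
    · intro b _
      simp
    · intro x y hx hy b hb
      rw [add_mul, mul_add, mul_add, hx b hb, hy b hb]
    · intro l c hc
      refine bc_ind L (W.gr X j) (fun b : L ⊗[K] W.H X =>
        (l ⊗ₜ[K] c) * b = (-1) ^ (i * j) * (b * (l ⊗ₜ[K] c))) ?_ ?_ ?_
      · simp
      · intro x y hx hy
        rw [add_mul, mul_add, mul_add, hx, hy]
      · intro l' d hd
        rw [Algebra.TensorProduct.tmul_mul_tmul, Algebra.TensorProduct.tmul_mul_tmul,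
          W.comm X i j c hc d hd, mul_comm l' l]
        rcases Nat.even_or_odd (i * j) with h' | h'
        · simp [h'.neg_one_pow]
        · simp [h'.neg_one_pow, TensorProduct.tmul_neg]
  zero X := by
    change (W.gr X 0).baseChange L = Submodule.span L {(1 : L ⊗[K] W.H X)}
    rw [W.zero X, Submodule.baseChange_span, Set.image_singleton]
    rfl
  pull_gr := by
    intro X Y f i a ha
    refine bc_ind L (W.gr Y i) (fun a : L ⊗[K] W.H Y =>
      Algebra.TensorProduct.map (AlgHom.id L L) (W.pull f) a ∈ (W.gr X i).baseChange L)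
      ?_ ?_ ?_ a ha
    · simp
    · intro x y hx hy
      rw [map_add]
      exact add_mem hx hy
    · intro l c hc
      exact Submodule.tmul_mem_baseChange_of_mem l (W.pull_gr f i c hc)
  pull_id := by
    intro X f hf a
    change Algebra.TensorProduct.map (AlgHom.id L L) (W.pull f) (a : L ⊗[K] W.H X) = a
    induction a using TensorProduct.induction_on with
    | zero => exact map_zero _
    | add x y hx hy => exact (map_add _ x y).trans (by rw [hx, hy])
    | tmul l c =>
      rw [Algebra.TensorProduct.map_tmul, W.pull_id f hf c]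
      rfl
  pull_comp := by
    intro X Y Z f g h hh a
    change Algebra.TensorProduct.map (AlgHom.id L L) (W.pull h) (a : L ⊗[K] W.H Z) =
      Algebra.TensorProduct.map (AlgHom.id L L) (W.pull f)
        (Algebra.TensorProduct.map (AlgHom.id L L) (W.pull g) (a : L ⊗[K] W.H Z))
    induction a using TensorProduct.induction_on with
    | zero => simp
    | add x y hx hy => simp only [map_add, hx, hy]
    | tmul l c =>
      simp only [Algebra.TensorProduct.map_tmul, W.pull_comp f g h hh c, AlgHom.id_apply]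
  tr_gr := by
    intro X i a ha hi
    refine bc_ind L (W.gr X i) (fun a : L ⊗[K] W.H X => bcTr L (W.tr X) a = 0) ?_ ?_ ?_ a ha
    · simp
    · intro x y hx hy
      rw [map_add, hx, hy, add_zero]
    · intro l c hc
      rw [bcTr_tmul, W.tr_gr X i c hc hi, zero_smul]
  poincare X a ha := bc_poincare L (W.tr X) (W.poincare X) a ha
  kunneth p q h := bc_kunneth L (W.pull p) (W.pull q) (W.kunneth p q h)
  cl_gr X Z hZ := Submodule.tmul_mem_baseChange_of_mem 1 (W.cl_gr X Z hZ)
  cl_univ X := by
    change ((1 : L) ⊗ₜ[K] W.cl X Set.univ : L ⊗[K] W.H X) = 1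
    rw [W.cl_univ]
    rfl
  tr_pt X x := by
    change bcTr L (W.tr X) ((1 : L) ⊗ₜ[K] W.cl X {x}) = 1
    rw [bcTr_tmul, W.tr_pt, one_smul]
  cl_prod := by
    intro P X Y p q h Z Z' hZ hZ'
    change ((1 : L) ⊗ₜ[K] W.cl P (p.1 ⁻¹' Z ∩ q.1 ⁻¹' Z') : L ⊗[K] W.H P) =
      Algebra.TensorProduct.map (AlgHom.id L L) (W.pull p) ((1 : L) ⊗ₜ[K] W.cl X Z) *
        Algebra.TensorProduct.map (AlgHom.id L L) (W.pull q) ((1 : L) ⊗ₜ[K] W.cl Y Z')
    rw [W.cl_prod p q h Z Z' hZ hZ']
    simp [Algebra.TensorProduct.tmul_mul_tmul]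
  push := by
    intro X Y f Z hZ
    obtain ⟨r, hr, h⟩ := W.push f Z hZ
    refine ⟨r, hr, ?_⟩
    change ∀ b : L ⊗[K] W.H Y, bcTr L (W.tr X) (((1 : L) ⊗ₜ[K] W.cl X Z) *
        Algebra.TensorProduct.map (AlgHom.id L L) (W.pull f) b) =
      r * bcTr L (W.tr Y) (((1 : L) ⊗ₜ[K] W.cl Y (closure (f.1 '' Z))) * b)
    intro b
    induction b using TensorProduct.induction_on with
    | zero => simp
    | add x y hx hy => simp only [map_add, mul_add, hx, hy]
    | tmul l c =>
      rw [Algebra.TensorProduct.map_tmul, Algebra.TensorProduct.tmul_mul_tmul,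
        Algebra.TensorProduct.tmul_mul_tmul, bcTr_tmul, bcTr_tmul, h c, mul_smul,
        Nat.cast_smul_eq_nsmul, nsmul_eq_mul]
      rfl
  pull_cl := by
    intro X Y f Z hZ
    exact bc_closure W.toCoh L X _ (W.pull_cl f Z hZ)
  mul_cl := by
    intro X Z Z' hZ hZ'
    have := bc_closure W.toCoh L X _ (W.mul_cl X Z Z' hZ hZ')
    change ((1 : L) ⊗ₜ[K] W.cl X Z : L ⊗[K] W.H X) * ((1 : L) ⊗ₜ[K] W.cl X Z') ∈ _
    rw [Algebra.TensorProduct.tmul_mul_tmul, mul_one]
    exact this
  proper := by
    intro X Z Z' hZ hZ' hd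
    obtain ⟨s, μ, h1, h2, h3, h4⟩ := W.proper X Z Z' hZ hZ' hd
    refine ⟨s, μ, h1, h2, h3, ?_⟩
    change ((1 : L) ⊗ₜ[K] W.cl X Z : L ⊗[K] W.H X) * ((1 : L) ⊗ₜ[K] W.cl X Z') =
      ∑ C ∈ s, μ C • ((1 : L) ⊗ₜ[K] W.cl X C : L ⊗[K] W.H X)
    rw [Algebra.TensorProduct.tmul_mul_tmul, mul_one, h4, TensorProduct.tmul_sum]
    refine Finset.sum_congr rfl fun C _ => ?_
    exact map_nsmul (TensorProduct.mk K L (W.H X) 1) (μ C) (W.cl X C)

theorem Weil.baseChange {k : Type u} [Field k] {K : Type v} [Field K] (W : Weil.{u, v, w} k K)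
    (L : Type v) [Field L] [Algebra K L] :
    ∃ (W' : Weil.{u, v, max v w} k L) (j : ∀ X, W.H X →+* W'.H X),
      (∀ X, Function.Injective (j X)) ∧ (∀ X Z, W'.cl X Z = j X (W.cl X Z)) ∧
      (∀ X a, W'.tr X (j X a) = algebraMap K L (W.tr X a)) ∧
      ∀ X (c : K) a, j X (c • a) = algebraMap K L c • j X a := by
  refine ⟨W.bc L, fun X =>
    (Algebra.TensorProduct.includeRight : W.H X →ₐ[K] L ⊗[K] W.H X).toRingHom, ?_, ?_, ?_, ?_⟩
  · intro X
    exact Algebra.TensorProduct.includeRight_injective (algebraMap K L).injective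
  · intro X Z
    rfl
  · intro X a
    change bcTr L (W.tr X) ((1 : L) ⊗ₜ[K] a) = _
    rw [bcTr_tmul, Algebra.algebraMap_eq_smul_one]
  · intro X c a
    change ((1 : L) ⊗ₜ[K] (c • a) : L ⊗[K] W.H X) = algebraMap K L c • ((1 : L) ⊗ₜ[K] a)
    rw [algebraMap_smul, TensorProduct.tmul_smul]

end Pool.Agent.MP_0c8446_ag
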