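import Pool.Agent.MP_0c8446_ag.LDefs

namespace Pool.Agent.MP_0c8446_ag

open Set
open scoped LinearAlgebra.Projectivization

universe u v w

variable {k : Type u} [Field k] [IsAlgClosed k] {q : ℕ} [IsQ k q] {K : Type v} [Field K]
  [CharZero K] {ι : Type} [Fintype ι] {τ : ι → Bool}

lemma frobFix_root (e : ℕ) [he : IsQ k e] (x : k) : ∃ y, y ^ e = x :=
  IsAlgClosed.exists_pow_nat_eq x (by have := he.one_lt; omega)

omit [IsAlgClosed k] [IsQ k q] in
lemma frobFix_cEq (e : ℕ) [IsQ k e] {b : Bool} {x y z : k} (h : CEq q b (x ^ e) (y ^ e) (z ^ e)) :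
    CEq q b x y z := by
  cases b
  · simp only [CEq, Bool.false_eq_true, if_false] at h ⊢
    apply (frobHom k e).injective
    simp only [map_sub, map_mul, map_pow (frobHom k e)]
    exact h
  · simp only [CEq, if_true] at h ⊢
    apply (frobHom k e).injective
    simp only [map_add, map_pow (frobHom k e)]
    exact h

lemma frobFix_pt (e : ℕ) [he : IsQ k e] {b : Bool} {P : P2 k} (hP : P ∈ curve k q b) :
    ∃ P' ∈ curve k q b, frob e P' = P := by
  obtain ⟨x, hx⟩ := frobFix_root e (P.rep 0)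
  obtain ⟨y, hy⟩ := frobFix_root e (P.rep 1)
  obtain ⟨z, hz⟩ := frobFix_root e (P.rep 2)
  have he0 : e ≠ 0 := by have := he.one_lt; omega
  have h0 : ![x, y, z] ≠ 0 := by
    have := vec3_ne_zero.1 (rep_ne_zero P)
    rw [← hx, ← hy, ← hz] at this
    exact vec3_ne_zero.2 (this.imp (ne_zero_pow he0) (Or.imp (ne_zero_pow he0) (ne_zero_pow he0)))
  refine ⟨pt3 x y z, (pt3_mem_curve h0).2 (frobFix_cEq e ?_), ?_⟩
  · rw [hx, hy, hz]
    exact hP
  · rw [frob_pt3 e h0, hx, hy, hz, pt3_rep]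

theorem frobY_surjective (e : ℕ) (he : IsQ k e) :
    Function.Surjective (frobY (k := k) (q := q) τ e he).1 := by
  intro x
  choose P hP h using fun i => frobFix_pt (q := q) e (co_mem x i)
  exact ⟨mkY P hP, Yv_ext fun i => h i⟩

omit [IsAlgClosed k] in
lemma frobFix_mk (e : ℕ) (v : Fin 3 → k) (h0 : v ≠ 0) :
    ∃ h : (fun s => v s ^ e) ≠ 0,
      Projectivization.mk k (fun s => v s ^ e) h = frob e (Projectivization.mk k v h0) := by
  have e2 : ![v 0, v 1, v 2] = v := by funext s; fin_cases s <;> rfl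
  have h1 : ![v 0, v 1, v 2] ≠ 0 := by rw [e2]; exact h0
  have e3 : (fun s => v s ^ e) = ![v 0 ^ e, v 1 ^ e, v 2 ^ e] := by
    funext s; fin_cases s <;> rfl
  have h2 : (fun s => v s ^ e) ≠ 0 := by rw [e3]; exact frob_ne_zero e h1
  exact ⟨h2, by rw [mk_eq_pt3 _ h0, mk_eq_pt3 _ h2, frob_pt3 e h1]⟩

lemma frobFix_isRep (e : ℕ) (he : IsQ k e) {x : (Yv k q τ).pts} {v : Vars (Yv k q τ).n → k}
    (hv : IsRep v x.1) : IsRep (fun a => v a ^ e) ((frobY τ e he).1 x).1 := by
  intro i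
  obtain ⟨h0, e0⟩ := hv i
  obtain ⟨h2, e2⟩ := frobFix_mk e (fun s : Fin 3 => v ⟨i, s⟩) h0
  exact ⟨h2, e2.trans (congrArg (frob e) e0)⟩

omit [IsAlgClosed k] in
lemma frobFix_eval {σ : Type} (e : ℕ) [IsQ k e] {f : MvPolynomial σ k}
    (hf : MvPolynomial.map (frobHom k e) f = f) (v : σ → k) :
    MvPolynomial.eval (fun a => v a ^ e) f = MvPolynomial.eval v f ^ e := by
  have := MvPolynomial.map_eval (frobHom k e) v f
  rw [hf] at this
  exact this.symm

lemma frobFix_vanish (e : ℕ) (he : IsQ k e) {f : MvPolynomial (Vars (Yv k q τ).n) k}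
    (hf : MvPolynomial.map (frobHom k e) f = f) (x : (Yv k q τ).pts) :
    Vanish f ((frobY τ e he).1 x).1 ↔ Vanish f x.1 := by
  have he0 : e ≠ 0 := by have := he.one_lt; omega
  constructor
  · intro h v hv
    have := h _ (frobFix_isRep e he hv)
    rw [frobFix_eval e hf] at this
    exact pow_eq_zero_iff he0 |>.1 this
  · intro h w hw
    obtain ⟨t, ht, rfl⟩ := (frobFix_isRep e he (isRep_rep x.1)).exists_smul hw
    choose s hs using fun i => frobFix_root e (t i)
    have hs0 : ∀ i, s i ≠ 0 := fun i => ne_zero_pow he0 (hs i ▸ ht i)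
    have h1 := h _ ((isRep_rep x.1).smul s hs0)
    have h2 := frobFix_eval e hf fun a => s a.1 * x.1.rep a
    rw [h1, zero_pow he0] at h2
    simpa only [mul_pow, hs] using h2

omit [IsAlgClosed k] [IsQ k q] in
lemma frobFix_mul {x : k} {r : ℕ} (h : x ^ q ^ r = x) (m : ℕ) : x ^ q ^ (r * m) = x := by
  induction m with
  | zero => simp
  | succ m ih => rw [Nat.mul_succ, pow_add, pow_mul, ih, h]

omit [IsAlgClosed k] [IsQ k q] in
lemma frobFix_common (hk : ∀ x : k, ∃ r, 0 < r ∧ x ^ q ^ r = x) (T : Finset k) :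
    ∃ R, 0 < R ∧ ∀ x ∈ T, x ^ q ^ R = x := by
  choose r hr h using hk
  refine ⟨∏ x ∈ T, r x, Finset.prod_pos fun x _ => hr x, fun x hx => ?_⟩
  obtain ⟨m, hm⟩ := Finset.dvd_prod_of_mem r hx
  rw [hm]
  exact frobFix_mul (h x) m

theorem exists_frob_fix (hk : ∀ x : k, ∃ r, 0 < r ∧ x ^ q ^ r = x) {Z : Set (Yv k q τ).pts}
    (hZ : IsClosed Z) : ∃ R, ∃ hR : 0 < R, (frobY τ (q ^ R) (isQ_pow k q hR)).1 '' Z = Z := by
  classical
  obtain ⟨S, hS⟩ : ∃ S : Finset (MvPolynomial (Vars (Yv k q τ).n) k),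
      Ideal.span (S : Set _) = vI (Subtype.val '' Z) :=
    IsNoetherian.noetherian (vI (Subtype.val '' Z))
  obtain ⟨R, hR, h⟩ := frobFix_common hk (S.biUnion fun f => f.coeffs)
  have he := isQ_pow k q hR
  have hmem : ∀ x : (Yv k q τ).pts, x ∈ Z ↔ ∀ f ∈ S, Vanish f x.1 := by
    intro x
    conv_lhs => rw [← hZ.closure_eq, closure_subtype, mem_closure_vI]
    constructor
    · intro h1 f hf
      exact h1 f (hS ▸ Ideal.subset_span hf)
    · intro h1 f hf
      have h2 : Ideal.span (S : Set _) ≤ vI {x.1} :=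
        Ideal.span_le.2 fun g hg y hy => by rw [mem_singleton_iff.1 hy]; exact h1 g hg
      exact h2 (hS ▸ hf) _ rfl
  have hfix : ∀ f ∈ S, MvPolynomial.map (frobHom k (q ^ R)) f = f := by
    intro f hf
    ext m
    rw [MvPolynomial.coeff_map]
    by_cases hm : MvPolynomial.coeff m f = 0
    · rw [hm, map_zero]
    · exact h _ (Finset.mem_biUnion.2 ⟨f, hf, MvPolynomial.coeff_mem_coeffs m hm⟩)
  have key : ∀ x, (frobY τ (q ^ R) he).1 x ∈ Z ↔ x ∈ Z := fun x => by
    rw [hmem, hmem]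
    exact forall₂_congr fun f hf => frobFix_vanish _ he (hfix f hf) x
  refine ⟨R, hR, Subset.antisymm ?_ fun y hy => ?_⟩
  · rintro _ ⟨x, hx, rfl⟩
    exact (key x).2 hx
  · obtain ⟨x, rfl⟩ := frobY_surjective (q := q) (τ := τ) _ he y
    exact ⟨x, (key x).1 hy, rfl⟩

omit [CharZero K] in
theorem Weil.pull_frobY_pow (W : Weil.{u, v, w} k K) {R : ℕ} (hR : 0 < R) (a : W.H (Yv k q τ)) :
    W.pull (frobY τ (q ^ R) (isQ_pow k q hR)) a =
      ((W.pull (frobY τ q inferInstance)).toLinearMap ^ R) a := by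
  induction R, hR using Nat.le_induction generalizing a with
  | base =>
    rw [pow_one (M := Module.End K _)]
    exact W.pull_congr (fun x => Yv_ext fun i => by simp) a
  | succ R hR ih =>
    rw [pow_succ (M := Module.End K _), Module.End.mul_apply, ← ih, AlgHom.toLinearMap_apply,
      W.pull_pull]
    exact W.pull_congr (fun x => Yv_ext fun i => by simp [frob_frob, pow_succ]) a

omit [CharZero K] in
theorem Weil.frob_nat (W : Weil.{u, v, w} k K) (hk : ∀ x : k, ∃ r, 0 < r ∧ x ^ q ^ r = x)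
    {a b : W.H (Yv k q τ)} (ha : a ∈ W.Alg _) (h : W.tr _ (a * b) ≠ 0) {c : K}
    (hc : W.pull (frobY τ q inferInstance) b = c • b) : ∃ R n : ℕ, 0 < R ∧ c ^ R = n := by
  obtain ⟨Z, hZ, h1⟩ := W.exists_cl_of_Alg ha h
  obtain ⟨R, hR, h2⟩ := exists_frob_fix hk hZ.2
  obtain ⟨r, -, h3⟩ := W.push (frobY τ (q ^ R) (isQ_pow k q hR)) Z hZ
  have h4 : ∀ n : ℕ, ((W.pull (frobY τ q inferInstance)).toLinearMap ^ n) b = c ^ n • b := by
    intro n
    induction n with
    | zero => simp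
    | succ n ih =>
      rw [pow_succ' (M := Module.End K _), Module.End.mul_apply, ih, map_smul,
        AlgHom.toLinearMap_apply, hc, smul_smul, pow_succ]
  have h5 := h3 b
  rw [h2, hZ.2.closure_eq, W.pull_frobY_pow hR, h4, mul_smul_comm, map_smul, smul_eq_mul] at h5
  exact ⟨R, r, hR, mul_right_cancel₀ h1 h5⟩

end Pool.Agent.MP_0c8446_ag
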