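import Pool.Agent.MP_0c8446_ag.NTStick2

/-! The Stickelberger relation for products of Gauss sums with a rational power. -/

namespace Pool.Agent.MP_0c8446_ag

open Finset Polynomial

theorem stick_prim {F M : Type*} [Field F] [Field M] {m : ℕ} {g : Fˣ}
    (hg : ∀ x, x ∈ Subgroup.zpowers g) (θ : MulChar F M) (hθ : orderOf θ = m) :
    IsPrimitiveRoot (θ g) m := by
  rw [IsPrimitiveRoot.iff_def]
  constructor
  · rw [← MulChar.pow_apply_coe, ← hθ, pow_orderOf_eq_one, MulChar.one_apply_coe]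
  · intro l hl
    rw [← hθ]
    apply orderOf_dvd_of_pow_eq_one
    rw [MulChar.eq_iff hg, MulChar.pow_apply_coe, hl, MulChar.one_apply_coe]

theorem stick_transfer {F K Ω : Type*} [Field F] [Fintype F] [Field K] [CharZero K] [Field Ω]
    [CharZero Ω] [IsAlgClosed Ω] {m : ℕ} [NeZero m]
    (ω : MulChar F K) (hω : orderOf ω = m) (ψ : AddChar F K) (hψ : ψ ≠ 1)
    (χ : MulChar F Ω) (hχ : orderOf χ = m) (s : ZMod m → ℕ) (R : ℕ) (c : ℚ)
    (h : (∏ a : ZMod m, gaussSum (ω ^ a.val) ψ ^ s a) ^ R = (c : K)) :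
    ∃ ψ' : AddChar F Ω, ψ' ≠ 1 ∧ (∏ a : ZMod m, gaussSum (χ ^ a.val) ψ' ^ s a) ^ R = (c : Ω) := by
  classical
  obtain ⟨g, hg⟩ := IsCyclic.exists_generator (α := Fˣ)
  let S : Set K := Set.range ω ∪ Set.range ψ
  have hint : ∀ x ∈ S, IsIntegral ℚ x := by
    rintro x (⟨y, rfl⟩ | ⟨y, rfl⟩)
    · rcases eq_or_ne y 0 with rfl | hy
      · rw [MulChar.map_zero]; exact isIntegral_zero
      · refine IsIntegral.of_pow (NeZero.pos m) ?_
        have : ω y ^ m = 1 := by
          rw [← hω, ← Units.val_mk0 hy, ← MulChar.pow_apply_coe, pow_orderOf_eq_one,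
            MulChar.one_apply_coe]
        rw [this]; exact isIntegral_one
    · refine IsIntegral.of_pow (Fintype.card_pos (α := F)) ?_
      rw [← AddChar.map_nsmul_eq_pow, card_nsmul_eq_zero, AddChar.map_zero_eq_one]
      exact isIntegral_one
  let L := IntermediateField.adjoin ℚ S
  have hωL : ∀ x, ω x ∈ L := fun x => IntermediateField.subset_adjoin ℚ S (Or.inl ⟨x, rfl⟩)
  have hψL : ∀ x, ψ x ∈ L := fun x => IntermediateField.subset_adjoin ℚ S (Or.inr ⟨x, rfl⟩)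
  have hroot : aeval (χ g) (minpoly ℚ (ω g)) = 0 := by
    rw [← cyclotomic_eq_minpoly_rat (stick_prim hg ω hω) (NeZero.pos m), aeval_def, eval₂_eq_eval_map,
      map_cyclotomic]
    exact (stick_prim hg χ hχ).isRoot_cyclotomic (NeZero.pos m)
  obtain ⟨σ, hσ⟩ := IntermediateField.exists_algHom_adjoin_of_splits_of_aeval
    (fun x hx => ⟨hint x hx, IsAlgClosed.splits _⟩) (hωL g) hroot
  let ωL : MulChar F L :=
    { toFun := fun x => ⟨ω x, hωL x⟩
      map_one' := Subtype.ext (map_one ω)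
      map_mul' := fun x y => Subtype.ext (map_mul ω x y)
      map_nonunit' := fun x hx => Subtype.ext (ω.map_nonunit hx) }
  let ψL : AddChar F L :=
    { toFun := fun x => ⟨ψ x, hψL x⟩
      map_zero_eq_one' := Subtype.ext ψ.map_zero_eq_one
      map_add_eq_mul' := fun x y => Subtype.ext (ψ.map_add_eq_mul x y) }
  let ι : L →+* K := algebraMap L K
  have e1 : ωL.ringHomComp ι = ω := by ext x; rfl
  have e2 : ι.toMonoidHom.compAddChar ψL = ψ := by ext x; rfl
  have e3 : ωL.ringHomComp σ.toRingHom = χ := by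
    rw [MulChar.eq_iff hg]
    exact hσ
  have hL : (∏ a : ZMod m, gaussSum (ωL ^ a.val) ψL ^ s a) ^ R = (c : L) := by
    apply ι.injective
    rw [map_ratCast, ← h, map_pow, map_prod]
    congr 1
    refine prod_congr rfl fun a _ => ?_
    rw [map_pow, stick_map, ← MulChar.ringHomComp_pow, e1, e2]
  refine ⟨σ.toRingHom.toMonoidHom.compAddChar ψL, ?_, ?_⟩
  · intro h1
    apply hψ
    ext x
    have h2 : σ (ψL x) = 1 := DFunLike.congr_fun h1 x
    have h3 : ψL x = 1 := σ.toRingHom.injective (h2.trans (map_one σ).symm)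
    exact congrArg Subtype.val h3
  · rw [← map_ratCast σ.toRingHom, ← hL, map_pow, map_prod]
    congr 1
    refine prod_congr rfl fun a _ => ?_
    rw [map_pow, stick_map, ← MulChar.ringHomComp_pow, e3]

theorem stick_saw {m : ℕ} [NeZero m] (b : ZMod m) :
    (b.val : ℚ) - ((-b).val : ℚ) = 2 * m * saw b := by
  have hm : (m : ℚ) ≠ 0 := Nat.cast_ne_zero.2 (NeZero.ne m)
  unfold saw
  split_ifs with hb
  · simp [hb]
  · rw [ZMod.neg_val, if_neg hb, Nat.cast_sub (ZMod.val_lt b).le]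
    field_simp
    ring

theorem stick {F K : Type*} [Field F] [Fintype F] [Field K] [CharZero K] {p f m : ℕ} [Fact p.Prime] [NeZero m] (hF : Fintype.card F = p ^ f) (hm : m + 1 = p ^ f) (ω : MulChar F K) (hω : orderOf ω = m) (ψ : AddChar F K) (hψ : ψ ≠ 1) (s : ZMod m → ℕ) (R : ℕ) (hR : 0 < R) (c : ℚ) (h : (∏ a : ZMod m, gaussSum (ω ^ a.val) ψ ^ s a) ^ R = (c : K)) (t : (ZMod m)ˣ) : ∑ a : ZMod m, (s a : ℚ) * ∑ i ∈ range f, saw ((t : ZMod m) * (p : ZMod m) ^ i * a) = 0 := by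
  classical
  have hpp : p.Prime := Fact.out
  have hp : ‖(p : PadicAlgCl p)‖ < 1 := by
    rw [← map_natCast (algebraMap ℚ_[p] (PadicAlgCl p))]
    exact (PadicAlgCl.norm_extends p (p : ℚ_[p])).trans_lt Padic.norm_p_lt_one
  obtain ⟨χ, ρ, h0, h1, hχ, hcore⟩ := stick_core hF hm hp
  have key : ∀ u : (ZMod m)ˣ, ∃ D : ZMod m → ℕ, ρ ^ ((∑ a, D a * s a) * R) = ‖(c : PadicAlgCl p)‖ ∧
      ∀ a, p * ∑ k ∈ range f, ((p : ZMod m) ^ k * (u * a)).val =
        m * D a + ∑ k ∈ range f, ((p : ZMod m) ^ k * (u * a)).val := by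
    intro u
    have hu : orderOf (χ ^ (u : ZMod m).val) = m := by
      rw [Nat.Coprime.orderOf_pow, hχ]
      rw [hχ]
      exact (ZMod.val_coe_unit_coprime u).symm
    obtain ⟨ψ', hψ', h2⟩ := stick_transfer ω hω ψ hψ _ hu s R c h
    choose D hD1 hD2 using hcore ψ' hψ'
    refine ⟨fun a => D (u * a), ?_, fun a => hD2 _⟩
    rw [← h2, norm_pow, norm_prod, pow_mul, ← prod_pow_eq_pow_sum]
    congr 1
    refine prod_congr rfl fun a _ => ?_
    rw [norm_pow, pow_mul, ← hD1, ← pow_mul, ZMod.val_mul]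
    congr 3
    have e := pow_mod_orderOf χ ((u : ZMod m).val * a.val)
    rwa [hχ] at e
  obtain ⟨D, hD, hD'⟩ := key t
  obtain ⟨E, hE, hE'⟩ := key (-t)
  have h3 : ∑ a, D a * s a = ∑ a, E a * s a :=
    Nat.eq_of_mul_eq_mul_right hR (pow_right_injective₀ h0 h1.ne (hD.trans hE.symm))
  have h4 : ∑ a, (D a : ℚ) * s a = ∑ a, (E a : ℚ) * s a := by exact_mod_cast h3
  have hm0 : (m : ℚ) ≠ 0 := Nat.cast_ne_zero.2 (NeZero.ne m)
  have hp0 : (p : ℚ) - 1 ≠ 0 := by
    have : (1 : ℚ) < p := by exact_mod_cast hpp.one_lt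
    linarith
  have h5 : ∀ a : ZMod m, 2 * ((p : ℚ) - 1) *
      ∑ i ∈ range f, saw ((t : ZMod m) * (p : ZMod m) ^ i * a) = D a - E a := fun a => by
    apply mul_left_cancel₀ hm0
    have e1 : (p : ℚ) * ∑ k ∈ range f, (((p : ZMod m) ^ k * (t * a)).val : ℚ) =
        m * D a + ∑ k ∈ range f, (((p : ZMod m) ^ k * (t * a)).val : ℚ) := by
      exact_mod_cast hD' a
    have e2 : (p : ℚ) * ∑ k ∈ range f, (((p : ZMod m) ^ k * ((-t : (ZMod m)ˣ) * a)).val : ℚ) =
        m * E a + ∑ k ∈ range f, (((p : ZMod m) ^ k * ((-t : (ZMod m)ˣ) * a)).val : ℚ) := by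
      exact_mod_cast hE' a
    have e3 : ∑ k ∈ range f, (((p : ZMod m) ^ k * (t * a)).val : ℚ) -
        ∑ k ∈ range f, (((p : ZMod m) ^ k * ((-t : (ZMod m)ˣ) * a)).val : ℚ) =
        2 * m * ∑ i ∈ range f, saw ((t : ZMod m) * (p : ZMod m) ^ i * a) := by
      rw [← sum_sub_distrib, mul_sum]
      refine sum_congr rfl fun k _ => ?_
      rw [← stick_saw]
      congr 3
      · ring
      · rw [Units.val_neg]; ring
    linear_combination e1 - e2 - ((p : ℚ) - 1) * e3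
  apply mul_left_cancel₀ (mul_ne_zero two_ne_zero hp0)
  rw [mul_zero, mul_sum, ← sub_eq_zero.2 h4, ← sum_sub_distrib]
  refine sum_congr rfl fun a _ => ?_
  rw [mul_left_comm, h5]
  ring

end Pool.Agent.MP_0c8446_ag
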