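import Pool.Agent.MP_0c8446_ag.Mono
import Pool.Agent.MP_0c8446_ag.NTStick
import Pool.Agent.MP_0c8446_ag.FrobFix

namespace Pool.Agent.MP_0c8446_ag

open Set

universe u v w

variable {k : Type u} [Field k] [IsAlgClosed k] {q : ℕ} [IsQ k q] {K : Type v} [Field K]
  [CharZero K] [IsAlgClosed K] {ι ι' ι₁ ι₂ : Type} [Fintype ι] [Fintype ι'] [Fintype ι₁] [Fintype ι₂]
  {τ : ι → Bool} {τ' : ι' → Bool} {τ₁ : ι₁ → Bool} {τ₂ : ι₂ → Bool}

omit [IsAlgClosed k] in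
lemma rel12_isQ (e : ℕ) [h : IsQ k e] : IsQ (Fq k q) e :=
  ⟨h.one_lt, Subtype.ext (by simpa using h.cast), fun x y => Subtype.ext (by
    simpa using h.add_pow (x : k) y)⟩

omit [IsAlgClosed k] in
lemma rel12_root (e : ℕ) [IsQ k e] : ∃ E : Fq k q ≃+* Fq k q, ∀ x, E x = x ^ e := by
  have := rel12_isQ (k := k) (q := q) e
  exact ⟨RingEquiv.ofBijective (frobHom (Fq k q) e)
    (Finite.injective_iff_bijective.1 (frobHom (Fq k q) e).injective), fun _ => rfl⟩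

namespace Weil

variable (W : Weil.{u, v, w} k K)

lemma rel12_map {g : P2 k → P2 k} (h : CMap q false false g)
    (hs : SurjOn g (curve k q false) (curve k q false)) {ω ω' : MulChar (Fq k q) K}
    {ψ ψ' : AddChar (Fq k q) K} (hω : ω ≠ 1) (hω' : ω' ≠ 1) (hψ : ψ ≠ 1) (hψ' : ψ' ≠ 1)
    (A : (Fq k q)ˣ → (Fq k q)ˣ) (C : Fq k q → Fq k q)
    (hc : ∀ α γ P, g (lin (gD α γ).1 P) = lin (gD (A α) (C γ)).1 (g P))
    (h1 : ∀ α : (Fq k q)ˣ, ω α = ω' (A α)) (h2 : ∀ γ, ψ γ = ψ' (C γ)) :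
    W.AlgM {Dl ω ψ, Dl ω'⁻¹ ψ'⁻¹} := by
  rw [← duT_Dl]
  refine W.algM_map h hs (t := .ch ω 1 ψ) (t' := .ch ω' 1 ψ') ⟨hω, rfl, hψ⟩ ⟨hω', rfl, hψ'⟩ ?_
  rintro a ⟨ha1, ha2⟩
  refine ⟨W.pull_gr _ _ _ ha1, fun g0 => ?_⟩
  obtain ⟨⟨α, γ⟩, rfl⟩ := eqD.surjective g0
  have h3 := ha2 (gD (A α) (C γ))
  rw [act_apply, ch_gD] at h3
  show W.act false (gD α γ) _ = (ch false ω 1 ψ (gD α γ) : K) • _
  rw [act_apply, ch_gD, h1, h2, ← map_smul, ← h3, pull_pull, pull_pull]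
  refine W.pull_congr (fun x => Yv_ext fun _ => ?_) a
  exact hc α γ (co x ())

theorem rel_shift {ω : MulChar (Fq k q) K} {ψ ψ' : AddChar (Fq k q) K} (hω : ω ≠ 1) (hψ : ψ ≠ 1)
    (hψ' : ψ' ≠ 1) : W.AlgM {Dl ω ψ', Dl ω⁻¹ ψ} := by
  obtain ⟨c, hc⟩ := stick_shift (inv_ne_one.2 hψ) ψ'
  have hc0 : c ≠ 0 := by
    rintro rfl
    exact hψ' (by simpa using hc)
  obtain ⟨ξ, hξ⟩ := IsAlgClosed.exists_pow_nat_eq (c : k) (IsQ.pos k q)
  have hξ0 : ξ ≠ 0 := by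
    rintro rfl
    rw [zero_pow (IsQ.pos k q).ne'] at hξ
    exact hc0 (Subtype.ext hξ.symm)
  have key : ∀ (x : kˣ) (y : (Fq k q)ˣ), x ^ (q - 1) = ofFqUnit y →
      CMap q false false (lin (x, ofFqUnit y, 1)) := fun x y hxy =>
    cMap_dh hxy (ofFqUnit_pow y) (by
      have := IsQ.one_lt (k := k) (q := q)
      simp [show q ≠ 0 by omega])
  have e1 : Units.mk0 ξ hξ0 ^ (q - 1) = ofFqUnit (Units.mk0 c hc0) := Units.ext (by simpa using hξ)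
  have e2 : (Units.mk0 ξ hξ0)⁻¹ ^ (q - 1) = ofFqUnit (Units.mk0 c hc0)⁻¹ := by
    rw [inv_pow, e1, map_inv]
  have := W.rel12_map (key _ _ e1) (fun P hP => ⟨_, (key _ _ e2).1 hP, by
      rw [lin_lin]
      convert lin_one P using 2
      simp [Prod.ext_iff]⟩) hω hω hψ' (inv_ne_one.2 hψ) id (fun γ => c * γ)
    (fun α γ P => by
      rw [gD_val, gD_val, lin_lin, lin_lin]
      congr 1
      simp [mul_comm]) (fun _ => rfl) (fun γ => by rw [hc, AddChar.mulShift_apply])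
  rwa [inv_inv] at this

theorem rel_frob (e : ℕ) [IsQ k e] {ω : MulChar (Fq k q) K} {ψ ψ' : AddChar (Fq k q) K}
    (hω : ω ≠ 1) (hψ : ψ ≠ 1) (hψ' : ψ' ≠ 1) : W.AlgM {Dl (ω ^ e) ψ', Dl ω⁻¹ ψ} := by
  obtain ⟨E, hE⟩ := rel12_root (k := k) (q := q) e
  have he : e ≠ 0 := by
    have := IsQ.one_lt (k := k) (q := e)
    omega
  let ψ₁ : AddChar (Fq k q) K := ψ'.compAddMonoidHom E.symm.toAddMonoidHom
  have h1 : ∀ γ, ψ' γ = ψ₁ (γ ^ e) := fun γ => by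
    rw [← hE]
    simp [ψ₁]
  have hψ₁ : ψ₁ ≠ 1 := fun h => hψ' (AddChar.ext _ _ fun γ => by rw [h1, h]; rfl)
  have hωe : ω ^ e ≠ 1 := fun h => hω (MulChar.ext fun x => by
    have h0 : E.symm x ≠ 0 := by simp
    rw [← E.apply_symm_apply x, hE, map_pow, ← MulChar.pow_apply' _ he, h,
      MulChar.one_apply h0.isUnit, MulChar.one_apply (pow_ne_zero e h0).isUnit])
  have h2 := W.rel12_map (cMap_frob q e false) (fun P hP => frobFix_pt e hP) hωe hω hψ' hψ₁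
    (fun α => α ^ e) (fun γ => γ ^ e) (fun α γ P => by
      rw [gD_val, gD_val, frob_lin]
      congr 1
      simp) (fun α => by rw [MulChar.pow_apply' _ he, Units.val_pow_eq_pow_val, map_pow]) h1
  have h3 := W.rel_shift (inv_ne_one.2 hω) hψ₁ hψ
  rw [inv_inv] at h3
  refine W.algM_contr (N := {Dl ω⁻¹ ψ₁⁻¹, Dl ω ψ₁}) ?_ ?_
  · convert W.algM_add h2 h3 using 1
    simp only [Multiset.insert_eq_cons, ← Multiset.singleton_add]
    abel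
  · have := W.algM_diag (t := Dl ω ψ₁) ⟨hω, rfl, hψ₁⟩
    simpa using this

end Weil

end Pool.Agent.MP_0c8446_ag
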