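import Pool.Agent.MP_0c8446_ag.Comp1

namespace Pool.Agent.MP_0c8446_ag

open Set

universe u v w

variable {k : Type u} [Field k] [IsAlgClosed k] {q : ℕ} [IsQ k q] {K : Type v} [Field K]
  [CharZero K]

section
variable {ιS ιM : Type} [Fintype ιS] [Fintype ιM]

/-- The square of `S × M`. -/
noncomputable abbrev CompP (k : Type u) [Field k] [IsAlgClosed k] (q : ℕ) [IsQ k q]
    (τS : ιS → Bool) (τM : ιM → Bool) : Var k :=
  Yv k q (Sum.elim (Sum.elim τS τM) (Sum.elim τS τM))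

/-- The first projection to `S × M`. -/
def compL (τS : ιS → Bool) (τM : ιM → Bool) : Mor (CompP k q τS τM) (Yv k q (Sum.elim τS τM)) :=
  pL _ _

/-- The second projection to `S × M`. -/
def compR (τS : ιS → Bool) (τM : ιM → Bool) : Mor (CompP k q τS τM) (Yv k q (Sum.elim τS τM)) :=
  pR _ _

/-- The projection to `S × S`. -/
def compS (τS : ιS → Bool) (τM : ιM → Bool) : Mor (CompP k q τS τM) (Yv k q (Sum.elim τS τS)) :=
  remap (Sum.elim (Sum.inl ∘ Sum.inl) (Sum.inr ∘ Sum.inl)) (by rintro (i | i) <;> rfl)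

/-- The projection to `M × M`. -/
def compM (τS : ιS → Bool) (τM : ιM → Bool) : Mor (CompP k q τS τM) (Yv k q (Sum.elim τM τM)) :=
  remap (Sum.elim (Sum.inl ∘ Sum.inr) (Sum.inr ∘ Sum.inr)) (by rintro (i | i) <;> rfl)

lemma comp_isProd (τS : ιS → Bool) (τM : ιM → Bool) :
    IsProd (compS (k := k) (q := q) τS τM) (compM τS τM) := by
  refine isProd_remap _ _ _ _ ?_
  convert (Equiv.sumSumSumComm ιS ιS ιM ιM).bijective using 1
  funext i
  rcases i with (i | i) | (i | i) <;> rfl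

/-- The diagonal in the coordinate j. -/
def compD (τS : ιS → Bool) (τM : ιM → Bool) (j : ιM) : Set (CompP k q τS τM).pts :=
  {x | co x (Sum.inl (Sum.inr j)) = co x (Sum.inr (Sum.inr j))}

/-- The boundary. -/
def compB (τM : ιM → Bool) {τS : ιS → Bool} (B : Set (Yv k q τS).pts) :
    Set (CompP k q τS τM).pts :=
  (compL τS τM).1 ⁻¹' ((pL τS τM).1 ⁻¹' B) ∪ (compR τS τM).1 ⁻¹' ((pL τS τM).1 ⁻¹' B)

/-- The class that is paired with the cycles. -/
noncomputable def Weil.compF (W : Weil.{u, v, w} k K) {τS : ιS → Bool} {τM : ιM → Bool}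
    (b₁ b₂ : W.H (Yv k q τS)) (Δ : W.H (Yv k q (Sum.elim τM τM))) : W.H (CompP k q τS τM) :=
  W.pull ((pL τS τM).comp (compL τS τM)) b₁ * W.pull (compM τS τM) Δ *
    W.pull ((pL τS τM).comp (compR τS τM)) b₂

variable {τS : ιS → Bool} {τM : ιM → Bool}

lemma comp_closed_bd {B : Set (Yv k q τS).pts} (hB : IsClosed B) : IsClosed (compB τM B) :=
  ((hB.preimage (pL τS τM).continuous).preimage (compL τS τM).continuous).union
    ((hB.preimage (pL τS τM).continuous).preimage (compR τS τM).continuous)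

lemma comp_isSub_D (j : ιM) : IsSub (compD (k := k) (q := q) τS τM j) := isSub_co_co rfl

omit [CharZero K] in
lemma Weil.comp_cl_D (W : Weil.{u, v, w} k K) (j : ιM) :
    W.cl _ (compD (k := k) (q := q) τS τM j) = W.pull (compM τS τM)
      (W.cl _ {x : (Yv k q (Sum.elim τM τM)).pts | co x (Sum.inl j) = co x (Sum.inr j)}) := by
  have h := W.cl_prod _ _ (comp_isProd (k := k) (q := q) τS τM) univ
    {x : (Yv k q (Sum.elim τM τM)).pts | co x (Sum.inl j) = co x (Sum.inr j)} (Var.isSub_univ _)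
    (isSub_co_co rfl)
  rw [W.cl_univ, map_one, one_mul, preimage_univ, univ_inter] at h
  exact h

lemma Weil.comp_ub2 [DecidableEq ιM] (W : Weil.{u, v, w} k K)
    {Z : Set (Yv k q (Sum.elim τS τM)).pts} {B : Set (Yv k q τS).pts} (hB : IsClosed B)
    (hf : ∀ μ, {y | y ∈ Z ∧ (pL τS τM).1 y ∉ B ∧ (pR τS τM).1 y = μ}.Finite) (J : Finset ιM)
    {C : Set (CompP k q τS τM).pts} (hC : IsSub C)
    (hCZ : C ⊆ (compL τS τM).1 ⁻¹' Z ∩ (compR τS τM).1 ⁻¹' Z)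
    (hCD : ∀ j ∉ J, C ⊆ compD τS τM j) (hCB : ¬ C ⊆ compB τM B) :
    dim C ≤ Fintype.card ιM + J.card := by
  classical
  obtain ⟨x, hx, hxB⟩ := not_subset.1 hCB
  have h1 := W.dim_le_of_finite
    (Finset.univ.image (Sum.inl ∘ Sum.inr) ∪ J.image (Sum.inr ∘ Sum.inr)) hC
    (comp_closed_bd hB).isOpen_compl ⟨x, hx, hxB⟩ fun x => by
      have hl : ∀ y : (CompP k q τS τM).pts, (∀ i ∈ (Finset.univ.image (Sum.inl ∘ Sum.inr) ∪
          J.image (Sum.inr ∘ Sum.inr) : Finset ((ιS ⊕ ιM) ⊕ (ιS ⊕ ιM))), co y i = co x i) →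
          ∀ j, co y (Sum.inl (Sum.inr j)) = co x (Sum.inl (Sum.inr j)) := fun y hy j =>
        hy _ (Finset.mem_union_left _ (Finset.mem_image_of_mem _ (Finset.mem_univ j)))
      let μ₂ : (Yv k q τM).pts := mkY (fun j => if j ∈ J then co x (Sum.inr (Sum.inr j)) else
        co x (Sum.inl (Sum.inr j))) fun j => by
          split_ifs
          · exact co_mem x (Sum.inr (Sum.inr j))
          · exact co_mem x (Sum.inl (Sum.inr j))
      refine ((hf ((pR τS τM).1 ((compL τS τM).1 x))).image2 mkP (hf μ₂)).subset fun y hy => ?_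
      have hyB : y ∉ compB τM B := hy.1.2
      refine ⟨(compL τS τM).1 y, ⟨(hCZ hy.1.1).1, fun h => hyB (Or.inl h),
        Yv_ext fun j => hl y hy.2 j⟩, (compR τS τM).1 y, ⟨(hCZ hy.1.1).2,
        fun h => hyB (Or.inr h), Yv_ext fun j => ?_⟩, comp_mkP_eta y⟩
      by_cases hj : j ∈ J
      · exact (hy.2 _ (Finset.mem_union_right _ (Finset.mem_image_of_mem _ hj))).trans
          (if_pos hj).symm
      · exact ((hCD j hj hy.1.1).symm.trans (hl y hy.2 j)).trans (if_neg hj).symm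
  refine h1.trans ((Finset.card_union_le _ _).trans (add_le_add ?_ Finset.card_image_le))
  exact Finset.card_image_le.trans Finset.card_univ.le

lemma Weil.comp_boundary (W : Weil.{u, v, w} k K) {A : Set (ιS × P2 k)} (hA : A.Finite)
    {B : Set (Yv k q τS).pts} (hB : ∀ s, s ∈ B ↔ ∃ a ∈ A, co s a.1 = a.2)
    {b₁ b₂ : W.H (Yv k q τS)}
    (hI : ∀ a ∈ A, ∃ γ γ' : Mor (Yv k q τS) (Yv k q τS), (∀ s, γ'.1 (γ.1 s) = s) ∧
      (∀ s, co s a.1 = a.2 → γ.1 s = s) ∧ ∃ c₁ c₂ : K, c₁ ≠ 1 ∧ c₂ ≠ 1 ∧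
      W.pull γ b₁ = c₁ • b₁ ∧ W.pull γ b₂ = c₂ • b₂)
    (Δ : W.H (Yv k q (Sum.elim τM τM))) {C : Set (CompP k q τS τM).pts} (hC : IsSub C)
    (hCB : C ⊆ compB τM B) : W.tr _ (W.cl _ C * W.compF b₁ b₂ Δ) = 0 := by
  have hBc := (comp_closed_B hA hB).preimage (pL τS τM).continuous
  have key : ∀ p : Mor (CompP k q τS τM) (Yv k q τS), C ⊆ p.1 ⁻¹' B →
      ∃ a ∈ A, ∀ x ∈ C, co (p.1 x) a.1 = a.2 := fun p hp => by
    obtain ⟨a, ha, h⟩ := hC.subset_of_finite hA (F := fun a => p.1 ⁻¹' {s | co s a.1 = a.2})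
      (fun a _ => (isClosed_co_const a.1 a.2).preimage p.continuous) fun x hx => by
        obtain ⟨a, ha, e⟩ := (hB _).1 (hp hx)
        exact mem_iUnion₂.2 ⟨a, ha, e⟩
    exact ⟨a, ha, fun x hx => h hx⟩
  rcases isPreirreducible_iff_isClosed_union_isClosed.1 hC.1.2 _ _
    (hBc.preimage (compL τS τM).continuous) (hBc.preimage (compR τS τM).continuous) hCB with h | h
  · obtain ⟨a, ha, h1⟩ := key ((pL τS τM).comp (compL τS τM)) h
    obtain ⟨γ, γ', h2, h3, c₁, c₂, h4, -, h5, -⟩ := hI a ha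
    let G : Mor (Yv k q τS) (Yv k q τS) → Mor (CompP k q τS τM) (CompP k q τS τM) := fun g =>
      pair (pair (g.comp ((pL τS τM).comp (compL τS τM))) ((pR τS τM).comp (compL τS τM)))
        (compR τS τM)
    refine W.comp_fix (G γ) (G γ') (fun x => sum_ext (sum_ext (h2 _) rfl) rfl) hC
      (fun x hx => sum_ext (sum_ext (h3 _ (h1 x hx)) rfl) rfl) h4 ?_
    rw [Weil.compF, map_mul, map_mul, W.pull_pull, W.pull_pull, W.pull_pull,
      W.pull_congr (f := (compM τS τM).comp (G γ)) (g := compM τS τM)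
        (fun _ => sum_ext rfl rfl),
      W.pull_congr (f := ((pL τS τM).comp (compR τS τM)).comp (G γ))
        (g := (pL τS τM).comp (compR τS τM)) (fun _ => rfl),
      W.pull_congr (f := ((pL τS τM).comp (compL τS τM)).comp (G γ))
        (g := γ.comp ((pL τS τM).comp (compL τS τM))) (fun _ => rfl),
      ← W.pull_pull _ γ, h5, map_smul, smul_mul_assoc, smul_mul_assoc]
  · obtain ⟨a, ha, h1⟩ := key ((pL τS τM).comp (compR τS τM)) h
    obtain ⟨γ, γ', h2, h3, c₁, c₂, -, h4, -, h5⟩ := hI a ha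
    let G : Mor (Yv k q τS) (Yv k q τS) → Mor (CompP k q τS τM) (CompP k q τS τM) := fun g =>
      pair (compL τS τM)
        (pair (g.comp ((pL τS τM).comp (compR τS τM))) ((pR τS τM).comp (compR τS τM)))
    refine W.comp_fix (G γ) (G γ') (fun x => sum_ext rfl (sum_ext (h2 _) rfl)) hC
      (fun x hx => sum_ext rfl (sum_ext (h3 _ (h1 x hx)) rfl)) h4 ?_
    rw [Weil.compF, map_mul, map_mul, W.pull_pull, W.pull_pull, W.pull_pull,
      W.pull_congr (f := (compM τS τM).comp (G γ)) (g := compM τS τM)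
        (fun _ => sum_ext rfl rfl),
      W.pull_congr (f := ((pL τS τM).comp (compL τS τM)).comp (G γ))
        (g := (pL τS τM).comp (compL τS τM)) (fun _ => rfl),
      W.pull_congr (f := ((pL τS τM).comp (compR τS τM)).comp (G γ))
        (g := γ.comp ((pL τS τM).comp (compR τS τM))) (fun _ => rfl),
      ← W.pull_pull _ γ, h5, map_smul, mul_smul_comm]

omit [CharZero K] in
lemma Weil.compF_one (W : Weil.{u, v, w} k K) (b₁ b₂ : W.H (Yv k q τS)) :
    W.compF (τM := τM) b₁ b₂ 1 =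
      W.pull (compS τS τM) (W.pull (pL τS τS) b₁ * W.pull (pR τS τS) b₂) := by
  rw [Weil.compF, map_one, mul_one, map_mul, W.pull_pull, W.pull_pull]
  rfl

omit [CharZero K] in
lemma Weil.compF_step (W : Weil.{u, v, w} k K) (b₁ b₂ : W.H (Yv k q τS)) (j : ιM)
    (Δ : W.H (Yv k q (Sum.elim τM τM))) :
    W.compF b₁ b₂ (W.cl _ {x : (Yv k q (Sum.elim τM τM)).pts |
      co x (Sum.inl j) = co x (Sum.inr j)} * Δ) = W.cl _ (compD τS τM j) * W.compF b₁ b₂ Δ := by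
  rw [Weil.compF, Weil.compF, map_mul, ← W.comp_cl_D, ← mul_assoc,
    ← W.cl_comm (comp_isSub_D j)]
  simp only [mul_assoc]

lemma Weil.comp_claim (W : Weil.{u, v, w} k K) (hc : Fintype.card ιS = Fintype.card ιM)
    {Z : Set (Yv k q (Sum.elim τS τM)).pts} {A : Set (ιS × P2 k)} (hA : A.Finite)
    {B : Set (Yv k q τS).pts} (hB : ∀ s, s ∈ B ↔ ∃ a ∈ A, co s a.1 = a.2)
    {b₁ b₂ : W.H (Yv k q τS)} (hb₁ : b₁ ∈ W.gr _ (Fintype.card ιS))
    (hb₂ : b₂ ∈ W.gr _ (Fintype.card ιS))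
    (hI : ∀ a ∈ A, ∃ γ γ' : Mor (Yv k q τS) (Yv k q τS), (∀ s, γ'.1 (γ.1 s) = s) ∧
      (∀ s, co s a.1 = a.2 → γ.1 s = s) ∧ ∃ c₁ c₂ : K, c₁ ≠ 1 ∧ c₂ ≠ 1 ∧
      W.pull γ b₁ = c₁ • b₁ ∧ W.pull γ b₂ = c₂ • b₂)
    {Γ : Set (Mor (Yv k q τS) (Yv k q τS))} (hΓ : Γ.Finite)
    (hfib : ∀ s s' μ, s ∉ B → s' ∉ B → mkP s μ ∈ Z → mkP s' μ ∈ Z → ∃ γ ∈ Γ, s' = γ.1 s)
    (hgood : ∀ γ ∈ Γ, W.tr _ (b₁ * W.pull γ b₂) = 0 ∨
      W.tr _ (b₁ * W.pull γ b₂) = W.tr _ (b₁ * b₂))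
    {D : Set (Yv k q (Sum.elim τS τM)).pts} (hD : IsSub D) (hDd : dim D = Fintype.card ιS)
    (hDB : ¬ D ⊆ (pL τS τM).1 ⁻¹' B) (hDu : univ ⊆ closure ((pL τS τM).1 '' D))
    (J : Finset ιM) : ∃ Δ : W.H (Yv k q (Sum.elim τM τM)), ∀ C : Set (CompP k q τS τM).pts,
      IsSub C → C ⊆ (compL τS τM).1 ⁻¹' Z ∩ (compR τS τM).1 ⁻¹' Z →
      (∀ j ∉ J, C ⊆ compD τS τM j) → dim C = Fintype.card ιM + J.card →
      ∃ n : ℕ, W.tr _ (W.cl _ C * W.compF b₁ b₂ Δ) = n * W.tr _ (b₁ * b₂) ∧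
        ((pair (Mor.id _) (Mor.id _)).1 '' D ⊆ C → 0 < n) := by
  classical
  have hBc := comp_closed_B hA hB
  have hf := comp_fib_finite hΓ hfib
  have hr := (pair (Mor.id (Yv k q (Sum.elim τS τM))) (Mor.id _)).retr (pL _ _) fun _ => rfl
  have hD0 := hr.isSub hD
  have bd : ∀ (Δ : W.H (Yv k q (Sum.elim τM τM))) (C : Set (CompP k q τS τM).pts), IsSub C →
      C ⊆ compB τM B → ∃ n : ℕ, W.tr _ (W.cl _ C * W.compF b₁ b₂ Δ) = n * W.tr _ (b₁ * b₂) ∧
        ((pair (Mor.id _) (Mor.id _)).1 '' D ⊆ C → 0 < n) := fun Δ C hC hCB => by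
    refine ⟨0, by rw [W.comp_boundary hA hB hI Δ hC hCB]; simp, fun h => absurd ?_ hDB⟩
    intro x hx
    rcases hCB (h ⟨x, hx, rfl⟩) with h1 | h1 <;> exact h1
  induction J using Finset.induction_on with
  | empty =>
    refine ⟨1, fun C hC hCZ hCD hd => ?_⟩
    by_cases hCB : C ⊆ compB τM B
    · exact bd 1 C hC hCB
    rw [Finset.card_empty, add_zero, ← hc] at hd
    rw [W.compF_one]
    by_cases h0 : (pair (Mor.id _) (Mor.id _)).1 '' D ⊆ C
    · have e := eq_of_dim_le hD0 hC h0 (by rw [hr.dim_image]; omega)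
      obtain ⟨r, h1, h2⟩ := W.comp_graph (compS τS τM) (Mor.id _) hC hd (by
        rw [← e]
        rintro _ ⟨_, ⟨x, -, rfl⟩, rfl⟩
        exact ⟨(pL τS τM).1 x, sum_ext rfl rfl⟩) hb₁ hb₂
      refine ⟨r, by rw [h1, W.pull_id (Mor.id _) rfl], fun _ => h2 ?_⟩
      rw [← image_univ]
      refine (image_mono hDu).trans ((image_closure_subset_closure_image
        (pair (Mor.id (Yv k q τS)) (Mor.id _)).continuous).trans (closure_mono ?_))
      rintro _ ⟨_, ⟨x, hx, rfl⟩, rfl⟩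
      exact ⟨_, h0 ⟨x, hx, rfl⟩, sum_ext rfl rfl⟩
    · have h1 : C ⊆ compB τM B ∪ ⋃ γ ∈ Γ, {x | ((pL τS τM).comp (compR τS τM)).1 x =
          (γ.comp ((pL τS τM).comp (compL τS τM))).1 x} := by
        intro x hx
        by_cases hx' : x ∈ compB τM B
        · exact Or.inl hx'
        have e : (pR τS τM).1 ((compL τS τM).1 x) = (pR τS τM).1 ((compR τS τM).1 x) :=
          Yv_ext fun j => hCD j (Finset.notMem_empty j) hx
        obtain ⟨γ, hγ, h2⟩ := hfib ((pL τS τM).1 ((compL τS τM).1 x))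
          ((pL τS τM).1 ((compR τS τM).1 x)) ((pR τS τM).1 ((compL τS τM).1 x))
          (fun h => hx' (Or.inl h)) (fun h => hx' (Or.inr h))
          (by rw [comp_mkP_eta]; exact (hCZ hx).1) (by rw [e, comp_mkP_eta]; exact (hCZ hx).2)
        exact Or.inr (mem_iUnion₂.2 ⟨γ, hγ, h2⟩)
      have hcl : ∀ γ ∈ Γ, IsClosed {x | ((pL τS τM).comp (compR τS τM)).1 x =
          (γ.comp ((pL τS τM).comp (compL τS τM))).1 x} := fun γ _ =>
        isClosed_eq_mor ((pL τS τM).comp (compR τS τM)).2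
          (γ.comp ((pL τS τM).comp (compL τS τM))).2
      obtain ⟨γ, hγ, h2⟩ := hC.subset_of_finite hΓ hcl
        ((isPreirreducible_iff_isClosed_union_isClosed.1 hC.1.2 _ _ (comp_closed_bd hBc)
          (hΓ.isClosed_biUnion hcl) h1).resolve_left hCB)
      obtain ⟨r, h3, -⟩ := W.comp_graph (compS τS τM) γ hC hd (by
        rintro _ ⟨x, hx, rfl⟩
        exact ⟨(pL τS τM).1 ((compL τS τM).1 x), sum_ext rfl (h2 hx).symm⟩) hb₁ hb₂
      rcases hgood γ hγ with h4 | h4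
      · exact ⟨0, by rw [h3, h4]; simp, fun h => absurd h h0⟩
      · exact ⟨r, by rw [h3, h4], fun h => absurd h h0⟩
  | insert j J hj ih =>
    obtain ⟨Δ, ih⟩ := ih
    refine ⟨W.cl _ {x : (Yv k q (Sum.elim τM τM)).pts | co x (Sum.inl j) = co x (Sum.inr j)} * Δ,
      fun C hC hCZ hCD hd => ?_⟩
    by_cases hCB : C ⊆ compB τM B
    · exact bd _ C hC hCB
    rw [Finset.card_insert_of_notMem hj] at hd
    have hCj : ¬ C ⊆ compD τS τM j := fun h => by
      have := W.comp_ub2 hBc hf J hC hCZ (fun i hi => by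
        by_cases hij : i = j
        · exact hij ▸ h
        · exact hCD i (by simp [hij, hi])) hCB
      omega
    have d1 : dim (compD (k := k) (q := q) τS τM j) + 1 = Fintype.card ((ιS ⊕ ιM) ⊕ (ιS ⊕ ιM)) :=
      W.dim_co_co (by simp) rfl
    have d2 : (CompP k q τS τM).d = Fintype.card ((ιS ⊕ ιM) ⊕ (ιS ⊕ ιM)) := W.d_Yv _
    have hp : ∀ E, IsSub E → E ⊆ C ∩ compD τS τM j →
        dim E + (CompP k q τS τM).d ≤ dim C + dim (compD (k := k) (q := q) τS τM j) :=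
      fun E hE hEC => by
        have := dim_lt hE hC ⟨hEC.trans inter_subset_left,
          fun h => hCj (h.trans (hEC.trans inter_subset_right))⟩
        omega
    obtain ⟨s, μ, h1, h2, -, h3⟩ := W.proper _ C _ hC (comp_isSub_D j) hp
    obtain ⟨n, h4, h5⟩ := comp_sum s (fun E => W.tr _ (μ E • W.cl _ E * W.compF b₁ b₂ Δ))
      (fun E => (pair (Mor.id _) (Mor.id _)).1 '' D ⊆ E) (W.tr _ (b₁ * b₂)) fun E hE => by
        have hE' := (h1 E).1 hE
        have d3 : dim E + (CompP k q τS τM).d =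
            dim C + dim (compD (k := k) (q := q) τS τM j) :=
          W.proper_dim hC (comp_isSub_D j) hp hE'
        obtain ⟨n, h4, h5⟩ := ih E hE'.1.1 ((hE'.1.2.trans inter_subset_left).trans hCZ)
          (fun i hi => by
            by_cases hij : i = j
            · exact hij ▸ hE'.1.2.trans inter_subset_right
            · exact (hE'.1.2.trans inter_subset_left).trans (hCD i (by simp [hij, hi])))
          (by omega)
        refine ⟨μ E * n, ?_, fun h => Nat.mul_pos (h2 E hE) (h5 h)⟩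
        rw [smul_mul_assoc, map_nsmul, h4, nsmul_eq_mul, Nat.cast_mul, mul_assoc]
    refine ⟨n, ?_, fun h => h5 ?_⟩
    · rw [W.compF_step, ← mul_assoc, h3, Finset.sum_mul, map_sum, h4]
    · obtain ⟨E, hE, h6⟩ := exists_isComp (S := C ∩ compD τS τM j) hD0 (subset_inter h (by
        rintro _ ⟨x, -, rfl⟩
        rfl))
      exact ⟨E, (h1 E).2 hE, h6⟩

end

theorem Weil.composition (W : Weil.{u, v, w} k K) {ιS ιM : Type} [Fintype ιS] [Fintype ιM] {τS : ιS → Bool} {τM : ιM → Bool} (hc : Fintype.card ιS = Fintype.card ιM) (Z : Set (Yv k q (Sum.elim τS τM)).pts) (hZ : IsClosed Z) (A : Set (ιS × P2 k)) (hA : A.Finite) (B : Set (Yv k q τS).pts) (hB : ∀ s, s ∈ B ↔ ∃ a ∈ A, co s a.1 = a.2) (b₁ b₂ : W.H (Yv k q τS)) (hb₁ : b₁ ∈ W.gr _ (Fintype.card ιS)) (hb₂ : b₂ ∈ W.gr _ (Fintype.card ιS)) (hb : W.tr _ (b₁ * b₂) ≠ 0) (hI : ∀ a ∈ A, ∃ γ γ' : Mor (Yv k q τS) (Yv k q τS), (∀ s, γ'.1 (γ.1 s) = s) ∧ (∀ s, co s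 a.1 = a.2 → γ.1 s = s) ∧ ∃ c₁ c₂ : K, c₁ ≠ 1 ∧ c₂ ≠ 1 ∧ W.pull γ b₁ = c₁ • b₁ ∧ W.pull γ b₂ = c₂ • b₂) (Γ : Set (Mor (Yv k q τS) (Yv k q τS))) (hΓ : Γ.Finite) (hfib : ∀ s s' μ, s ∉ B → s' ∉ B → mkP s μ ∈ Z → mkP s' μ ∈ Z → ∃ γ ∈ Γ, s' = γ.1 s) (hgood : ∀ γ ∈ Γ, W.tr _ (b₁ * W.pull γ b₂) = 0 ∨ W.tr _ (b₁ * W.pull γ b₂) = W.tr _ (b₁ * b₂)) (hsurj : ∀ s, s ∉ B → ∃ μ, mkP s μ ∈ Z) : ∃ ζ ∈ W.Alg (Yv k q (Sum.elim τS τM)), (∀ γ γ' : Mor (Yv k q (Sum.elim τS τM)) (Yv k q (Sum.elim τS τM)), (∀ x, γ'.1 (γ.1 x) = x) → (∀ x, γ.1 (γ'.1 x) = x) → (∀ x, γ.1 x ∈ Z ↔ x ∈ Z) → (∀ x, (pL τS τM).1 (γ.1 x) ∈ B ↔ (pL τS τM).1 x ∈ B) → ∀ y, W.tr _ (ζ * W.pull γ y) = W.tr _ (ζ * y)) ∧ ∃ c, W.tr _ (ζ * (W.pull (pL τS τM) b₁ * W.pull (pR τS τM) c)) ≠ 0 := by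
  classical
  have hBc := comp_closed_B hA hB
  have hf := comp_fib_finite hΓ hfib
  have hfin : {C | IsSub C ∧ C ⊆ Z ∧ dim C = Fintype.card ιM ∧
      ¬ C ⊆ (pL τS τM).1 ⁻¹' B}.Finite := by
    refine (finite_isComp hZ).subset fun C hC => ⟨⟨hC.1, hC.2.1⟩, fun E hE hCE => ?_⟩
    have h1 := W.comp_ub1 hBc hf hE.1 hE.2 fun h => hC.2.2.2 (Subset.trans hCE h)
    exact (eq_of_dim_le hC.1 hE.1 hCE (hC.2.2.1 ▸ h1)).ge
  obtain ⟨T, hT⟩ : ∃ T : Finset (Set (Yv k q (Sum.elim τS τM)).pts), ∀ C, C ∈ T ↔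
      IsSub C ∧ C ⊆ Z ∧ dim C = Fintype.card ιM ∧ ¬ C ⊆ (pL τS τM).1 ⁻¹' B :=
    ⟨hfin.toFinset, fun C => hfin.mem_toFinset⟩
  have hζ : ∑ C ∈ T, W.cl _ C ∈ W.Alg (Yv k q (Sum.elim τS τM)) :=
    sum_mem fun C hC => W.cl_mem_Alg ((hT C).1 hC).1
  refine ⟨∑ C ∈ T, W.cl _ C, hζ, fun γ γ' h1 h2 h3 h4 y => ?_, ?_⟩
  · have key : ∀ g g' : Mor (Yv k q (Sum.elim τS τM)) (Yv k q (Sum.elim τS τM)),
        (∀ x, g'.1 (g.1 x) = x) → (∀ x, x ∈ Z → g.1 x ∈ Z) →
        (∀ x, (pL τS τM).1 (g.1 x) ∈ B → (pL τS τM).1 x ∈ B) → ∀ C ∈ T, g.1 '' C ∈ T := by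
      intro g g' e1 e2 e3 C hC
      obtain ⟨c1, c2, c3, c4⟩ := (hT C).1 hC
      have hr := g.retr g' e1
      refine (hT _).2 ⟨hr.isSub c1, ?_, (hr.dim_image C).trans c3,
        fun h => c4 fun x hx => e3 x (h ⟨x, hx, rfl⟩)⟩
      rintro _ ⟨x, hx, rfl⟩
      exact e2 x (c2 hx)
    rw [Finset.sum_mul, Finset.sum_mul, map_sum, map_sum]
    refine Finset.sum_nbij' (fun C => γ.1 '' C) (fun C => γ'.1 '' C)
      (key γ γ' h1 (fun x => (h3 x).2) fun x => (h4 x).1)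
      (key γ' γ h2 (fun x hx => (h3 _).1 (by rw [h2]; exact hx))
        fun x hx => by have := (h4 _).2 hx; rwa [h2] at this)
      (fun C _ => by simp [image_image, h1]) (fun C _ => by simp [image_image, h2])
      fun C hC => W.push_retr γ γ' h1 ((hT C).1 hC).1 y
  · obtain ⟨D, hD, hDZ, hDd, hDB, hDu⟩ := W.comp_dominant hc hZ hBc (comp_B_ne hA hB) hf hsurj
    have hDT : D ∈ T := (hT D).2 ⟨hD, hDZ, hDd.trans hc, hDB⟩
    obtain ⟨Δ, hΔ⟩ := W.comp_claim hc hA hB hb₁ hb₂ hI hΓ hfib hgood hD hDd hDB hDu Finset.univ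
    obtain ⟨n, h1, h2⟩ := comp_sum (T ×ˢ T) (fun p => W.tr _ (W.pull (compL τS τM) (W.cl _ p.1) *
      W.pull (compR τS τM) (W.cl _ p.2) * W.compF b₁ b₂ Δ)) (fun p => p = (D, D))
      (W.tr _ (b₁ * b₂)) fun p hp => by
        obtain ⟨c1, c2, c3, -⟩ := (hT p.1).1 (Finset.mem_product.1 hp).1
        obtain ⟨e1, e2, e3, -⟩ := (hT p.2).1 (Finset.mem_product.1 hp).2
        obtain ⟨n, h1, h2⟩ := hΔ _ (isSub_prod c1 e1)
          (inter_subset_inter (preimage_mono c2) (preimage_mono e2))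
          (fun j hj => absurd (Finset.mem_univ j) hj)
          (by rw [W.dim_prod c1 e1, c3, e3, Finset.card_univ])
        rw [W.cl_prod _ _ (isProd_sum _ _) _ _ c1 e1] at h1
        refine ⟨n, h1, fun h => h2 ?_⟩
        rw [h]
        rintro _ ⟨x, hx, rfl⟩
        exact ⟨hx, hx⟩
    have h3 := h2 ⟨(D, D), Finset.mk_mem_product hDT hDT, rfl⟩
    have h4 : W.tr _ (W.pull (compL τS τM) (∑ C ∈ T, W.cl _ C) *
        W.pull (compR τS τM) (∑ C ∈ T, W.cl _ C) * W.compF b₁ b₂ Δ) ≠ 0 := by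
      rw [map_sum, map_sum, Finset.sum_mul_sum, ← Finset.sum_product', Finset.sum_mul, map_sum, h1]
      exact mul_ne_zero (by exact_mod_cast h3.ne') hb
    generalize ∑ C ∈ T, W.cl _ C = ζ at hζ h4 ⊢
    by_contra hne
    push Not at hne
    have h5 := W.prod_span (isProd_sum τM τM) (LinearMap.ker (W.tr _ ∘ₗ
      LinearMap.mulLeft K (W.pull (compL τS τM) ζ * W.pull (compR τS τM) ζ) ∘ₗ
      LinearMap.mulRight K (W.pull ((pL τS τM).comp (compR τS τM)) b₂) ∘ₗ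
      LinearMap.mulLeft K (W.pull ((pL τS τM).comp (compL τS τM)) b₁) ∘ₗ
      (W.pull (compM τS τM)).toLinearMap)) fun c c' => by
        have e := W.tr_prod (isProd_sum (Sum.elim τS τM) (Sum.elim τS τM))
          (ζ * (W.pull (pL τS τM) b₁ * W.pull (pR τS τM) c))
          (ζ * (W.pull (pR τS τM) c' * W.pull (pL τS τM) b₂))
        rw [hne, zero_mul] at e
        refine Eq.trans ?_ e
        show W.tr _ (W.pull (compL τS τM) ζ * W.pull (compR τS τM) ζ *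
          (W.pull ((pL τS τM).comp (compL τS τM)) b₁ * W.pull (compM τS τM)
            (W.pull (pL τM τM) c * W.pull (pR τM τM) c') *
          W.pull ((pL τS τM).comp (compR τS τM)) b₂)) = W.tr _ (W.pull (compL τS τM)
            (ζ * (W.pull (pL τS τM) b₁ * W.pull (pR τS τM) c)) * W.pull (compR τS τM)
            (ζ * (W.pull (pR τS τM) c' * W.pull (pL τS τM) b₂)))
        have hcm := W.Alg_comm (W.pull_mem_Alg (compR τS τM) hζ)
          (W.pull ((pL τS τM).comp (compL τS τM)) b₁ * W.pull ((pR τS τM).comp (compL τS τM)) c)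
        simp only [map_mul, W.pull_pull]
        rw [W.pull_congr (f := (pL τM τM).comp (compM τS τM))
          (g := (pR τS τM).comp (compL τS τM)) (fun _ => rfl),
          W.pull_congr (f := (pR τM τM).comp (compM τS τM))
          (g := (pR τS τM).comp (compR τS τM)) (fun _ => rfl)]
        have key : ∀ x y a a' e e' : W.H (CompP k q τS τM), y * (a * a') = a * a' * y →
            x * y * (a * (a' * e) * e') = x * (a * a') * (y * (e * e')) := by
          intro x y a a' e e' h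
          calc x * y * (a * (a' * e) * e') = x * (y * (a * a')) * (e * e') := by
                simp only [mul_assoc]
            _ = _ := by rw [h]; simp only [mul_assoc]
        exact congrArg _ (key _ _ _ _ _ _ hcm)
    have h6 : Δ ∈ (⊤ : Submodule K _) := Submodule.mem_top
    rw [← h5] at h6
    exact h4 h6

end Pool.Agent.MP_0c8446_ag
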