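import Pool.Agent.MP_0c8446_ag.RDefs

namespace Pool.Agent.MP_0c8446_ag

open Set MvPolynomial

universe u v w

variable {k : Type u} [Field k] [IsAlgClosed k] {q : ℕ} [IsQ k q] {K : Type v} [Field K]
  [CharZero K] [IsAlgClosed K] {ι ι' ι₁ ι₂ : Type} [Fintype ι] [Fintype ι'] [Fintype ι₁] [Fintype ι₂]
  {τ : ι → Bool} {τ' : ι' → Bool} {τ₁ : ι₁ → Bool} {τ₂ : ι₂ → Bool}

lemma hdc_rep {x : (Yv k q τ).pts} {v : Vars (fun _ : ι => 2) → k} (hv : IsRep v x.1) (i : ι) :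
    ∃ t : k, t ≠ 0 ∧ ∀ s : Fin 3, v ⟨i, s⟩ = t * (co x i).rep s := by
  obtain ⟨t, ht, rfl⟩ := (isRep_rep x.1).exists_smul hv
  exact ⟨t i, ht i, fun _ => rfl⟩

lemma hdc_fin {x : (Yv k q τ).pts} {v : Vars (fun _ : ι => 2) → k} (hv : IsRep v x.1) {i : ι}
    (h : IsFin (co x i)) : v ⟨i, 2⟩ ≠ 0 ∧ v ⟨i, 0⟩ = ax (co x i) * v ⟨i, 2⟩ ∧
      v ⟨i, 1⟩ = ay (co x i) * v ⟨i, 2⟩ := by
  obtain ⟨t, ht, e⟩ := hdc_rep hv i
  have h' : (co x i).rep 2 ≠ 0 := h
  rw [e, e, e, ax, ay]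
  exact ⟨mul_ne_zero ht h', by field_simp, by field_simp⟩

lemma hdc_inf {x : (Yv k q τ).pts} {v : Vars (fun _ : ι => 2) → k} (hv : IsRep v x.1) {i : ι}
    (hi : τ i = false) (h : ¬ IsFin (co x i)) : v ⟨i, 2⟩ = 0 ∧ v ⟨i, 0⟩ ≠ 0 := by
  obtain ⟨t, ht, e⟩ := hdc_rep hv i
  obtain ⟨c, hc, e0, -, e2⟩ := rep_pt3 (x := (1 : k)) (y := 0) (z := 0) (by simp)
  rw [e, e, eq_inf_of_dh (hi ▸ co_mem x i) h, e0, e2]
  simp [ht, hc]

lemma hdc_ex (x : (Yv k q τ).pts) : ∃ v : Vars (fun _ : ι => 2) → k, IsRep v x.1 :=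
  ⟨_, isRep_rep x.1⟩

lemma hdc_z {x : (Yv k q τ).pts} {v : Vars (fun _ : ι => 2) → k} (hv : IsRep v x.1) {i : ι}
    (h : ¬ IsFin (co x i)) : v ⟨i, 2⟩ = 0 := by
  obtain ⟨t, -, e⟩ := hdc_rep hv i
  rw [e, not_not.1 h, mul_zero]

/-- The polynomial vanishes at the point. -/
def HdV (f : MvPolynomial (Vars fun _ : ι => 2) k) (x : (Yv k q τ).pts) : Prop :=
  ∀ v : Vars (fun _ : ι => 2) → k, IsRep v x.1 → eval v f = 0

lemma hdc_closed (f : MvPolynomial (Vars fun _ : ι => 2) k) :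
    IsClosed {x : (Yv k q τ).pts | HdV f x} :=
  (isClosed_vanish f).preimage continuous_subtype_val

lemma hdc_of {P : (Yv k q τ).pts → Prop} (f : MvPolynomial (Vars fun _ : ι => 2) k)
    (h : ∀ x, P x ↔ HdV f x) : IsClosed {x | P x} := by
  rw [show P = HdV f from funext fun x => propext (h x)]
  exact hdc_closed f

/-- Functions that are polynomial in the affine coordinates. -/
def HdReg (h : (Yv k q τ).pts → k) : Prop :=
  ∃ (f : MvPolynomial (Vars fun _ : ι => 2) k) (N : ℕ), ∀ x, (∀ i, IsFin (co x i)) →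
    ∀ v : Vars (fun _ : ι => 2) → k, IsRep v x.1 → eval v f = (∏ i, v ⟨i, 2⟩) ^ N * h x

namespace HdReg

variable {g h : (Yv k q τ).pts → k}

lemma const (c : k) : HdReg fun _ : (Yv k q τ).pts => c := ⟨C c, 0, fun _ _ _ _ => by simp⟩

lemma mul (hg : HdReg g) (hh : HdReg h) : HdReg fun x => g x * h x := by
  obtain ⟨f, N, e⟩ := hg
  obtain ⟨f', N', e'⟩ := hh
  exact ⟨f * f', N + N', fun x hx v hv => by rw [map_mul, e x hx v hv, e' x hx v hv]; ring⟩

lemma add (hg : HdReg g) (hh : HdReg h) : HdReg fun x => g x + h x := by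
  obtain ⟨f, N, e⟩ := hg
  obtain ⟨f', N', e'⟩ := hh
  refine ⟨(∏ i, X ⟨i, 2⟩) ^ N' * f + (∏ i, X ⟨i, 2⟩) ^ N * f', N + N', fun x hx v hv => ?_⟩
  simp only [map_add, map_mul, map_pow, map_prod, eval_X, e x hx v hv, e' x hx v hv]
  ring

lemma neg (hg : HdReg g) : HdReg fun x => -g x := by simpa using (const (-1)).mul hg

lemma sub (hg : HdReg g) (hh : HdReg h) : HdReg fun x => g x - h x := by
  simpa only [sub_eq_add_neg] using hg.add hh.neg

lemma pow (hg : HdReg g) (n : ℕ) : HdReg fun x => g x ^ n := by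
  induction n with
  | zero => simpa using const 1
  | succ n ih => simpa only [pow_succ] using ih.mul hg

lemma prod {α : Type} (s : Finset α) {F : α → (Yv k q τ).pts → k} (hF : ∀ a, HdReg (F a)) :
    HdReg fun x => ∏ a ∈ s, F a x := by
  classical
  induction s using Finset.induction_on with
  | empty => simpa using const 1
  | insert a s ha ih => simpa only [Finset.prod_insert ha] using (hF a).mul ih

lemma sum {α : Type} (s : Finset α) {F : α → (Yv k q τ).pts → k} (hF : ∀ a, HdReg (F a)) :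
    HdReg fun x => ∑ a ∈ s, F a x := by
  classical
  induction s using Finset.induction_on with
  | empty => simpa using const 0
  | insert a s ha ih => simpa only [Finset.sum_insert ha] using (hF a).add ih

lemma ax (i : ι) : HdReg fun x : (Yv k q τ).pts => ax (co x i) := by
  classical
  refine ⟨X ⟨i, 0⟩ * ∏ j ∈ Finset.univ.erase i, X ⟨j, 2⟩, 1, fun x hx v hv => ?_⟩
  simp only [map_mul, map_prod, eval_X, (hdc_fin hv (hx i)).2.1]
  rw [← Finset.mul_prod_erase _ _ (Finset.mem_univ i)]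
  ring

lemma ay (i : ι) : HdReg fun x : (Yv k q τ).pts => ay (co x i) := by
  classical
  refine ⟨X ⟨i, 1⟩ * ∏ j ∈ Finset.univ.erase i, X ⟨j, 2⟩, 1, fun x hx v hv => ?_⟩
  simp only [map_mul, map_prod, eval_X, (hdc_fin hv (hx i)).2.2]
  rw [← Finset.mul_prod_erase _ _ (Finset.mem_univ i)]
  ring

lemma closed (hg : HdReg g) (hh : HdReg h) :
    IsClosed {x : (Yv k q τ).pts | (∀ i, IsFin (co x i)) → g x = h x} := by
  obtain ⟨f, N, e⟩ := hg.sub hh
  refine hdc_of (f * ∏ i, X ⟨i, 2⟩) fun x => ⟨fun H v hv => ?_, fun H hx => ?_⟩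
  · simp only [map_mul, map_prod, eval_X]
    by_cases hx : ∀ i, IsFin (co x i)
    · simp only [e x hx v hv, H hx, sub_self, mul_zero, zero_mul]
    · obtain ⟨i, hi⟩ := not_forall.1 hx
      rw [Finset.prod_eq_zero (Finset.mem_univ i) (hdc_z hv hi), mul_zero]
  · obtain ⟨v, hv⟩ := hdc_ex x
    have := H _ hv
    simp only [map_mul, map_prod, eval_X] at this
    have p : ∏ i, v ⟨i, 2⟩ ≠ 0 := Finset.prod_ne_zero_iff.2 fun i _ => (hdc_fin hv (hx i)).1
    rw [e x hx _ hv] at this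
    simpa [p, sub_eq_zero] using this

end HdReg

/-- The equation that keeps the `j`-th second coordinate finite. -/
noncomputable def hdG (d e : ℕ) [NeZero d] (c : k) (j : Fin d) :
    MvPolynomial (Vars fun _ : Fin d ⊕ Fin d => 2) k :=
  if j = 0 then (∏ i, X ⟨.inl i, 0⟩) * X ⟨.inr 0, 2⟩ ^ d -
    C c * X ⟨.inr 0, 0⟩ ^ d * ∏ i, X ⟨.inl i, 2⟩
  else ∏ i, (X ⟨.inr j, 0⟩ ^ e * X ⟨.inl i, 2⟩ ^ e - X ⟨.inl i, 0⟩ ^ e * X ⟨.inr j, 2⟩ ^ e) -
    ∏ i, -(X ⟨.inl i, 0⟩ ^ e * X ⟨.inr j, 2⟩ ^ e)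

lemma hdG_fin {d e : ℕ} [NeZero d] {c : k} {σ : Fin d ⊕ Fin d → Bool} {x : (Yv k q σ).pts}
    (fs : ∀ i, IsFin (co x (.inl i))) (fm : ∀ i, IsFin (co x (.inr i)))
    (e1 : ∀ t : k, ∏ i, (t - ax (co x (.inl i)) ^ e) =
      ∏ j, (t - if j = 0 then 0 else ax (co x (.inr j)) ^ e) + ∏ i, (-ax (co x (.inl i)) ^ e))
    (e2 : ∏ i, ax (co x (.inl i)) = c * ax (co x (.inr 0)) ^ d) (j : Fin d) :
    HdV (hdG d e c j) x := by
  intro v hv
  have r := fun i => (hdc_fin hv (fs i)).2.1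
  have r' := fun i => (hdc_fin hv (fm i)).2.1
  by_cases hj : j = 0
  · simp only [hdG, if_pos hj, map_sub, map_mul, map_pow, map_prod, eval_X, eval_C, r, r',
      Finset.prod_mul_distrib, e2]
    ring
  · have e4 := e1 (ax (co x (.inr j)) ^ e)
    rw [Finset.prod_eq_zero (f := fun i => ax (co x (.inr j)) ^ e -
      if i = 0 then 0 else ax (co x (.inr i)) ^ e) (Finset.mem_univ j) (by simp [hj]),
      zero_add] at e4
    simp only [hdG, if_neg hj, map_sub, map_mul, map_pow, map_prod, map_neg, eval_X, r, r']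
    have s1 : ∀ i, (ax (co x (.inr j)) * v ⟨.inr j, 2⟩) ^ e * v ⟨.inl i, 2⟩ ^ e -
        (ax (co x (.inl i)) * v ⟨.inl i, 2⟩) ^ e * v ⟨.inr j, 2⟩ ^ e =
        (ax (co x (.inr j)) ^ e - ax (co x (.inl i)) ^ e) *
          (v ⟨.inl i, 2⟩ * v ⟨.inr j, 2⟩) ^ e := fun i => by ring
    have s2 : ∀ i, -((ax (co x (.inl i)) * v ⟨.inl i, 2⟩) ^ e * v ⟨.inr j, 2⟩ ^ e) =
        -ax (co x (.inl i)) ^ e * (v ⟨.inl i, 2⟩ * v ⟨.inr j, 2⟩) ^ e := fun i => by ring
    simp only [s1, s2, Finset.prod_mul_distrib, e4, sub_self]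

lemma hdG_inf {d e : ℕ} [NeZero d] (he : 0 < e) {c : k} (hc : c ≠ 0) {σ : Fin d ⊕ Fin d → Bool}
    {x : (Yv k q σ).pts} (fs : ∀ i, IsFin (co x (.inl i))) {j : Fin d} (hσ : σ (.inr j) = false)
    (hg : HdV (hdG d e c j) x) : IsFin (co x (.inr j)) := by
  by_contra h
  obtain ⟨v, hv⟩ := hdc_ex x
  obtain ⟨z, nz⟩ := hdc_inf hv hσ h
  have p := fun i => (hdc_fin hv (fs i)).1
  have := hg _ hv
  by_cases hj : j = 0
  · subst hj
    simp [hdG, z, nz, hc, NeZero.ne d, Finset.prod_eq_zero_iff, p] at this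
  · simp [hdG, hj, z, nz, he.ne', NeZero.ne d, Finset.prod_eq_zero_iff, p] at this

lemma hdZ_aux {d e : ℕ} [NeZero d] (he : 0 < e) {c : k} (hc : c ≠ 0) {σ : Fin d ⊕ Fin d → Bool}
    (hσ : ∀ i, σ i = false) : IsClosed {x : (Yv k q σ).pts |
    (∃ i, co x (.inl i) = pt3 1 0 0) ∨ ((∀ j, IsFin (co x (.inr j))) ∧
    (∀ t : k, ∏ i, (t - ax (co x (.inl i)) ^ e) =
      ∏ j, (t - if j = 0 then 0 else ax (co x (.inr j)) ^ e) + ∏ i, (-ax (co x (.inl i)) ^ e)) ∧
    ∏ i, ax (co x (.inl i)) = c * ax (co x (.inr 0)) ^ d ∧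
    ∑ i, ay (co x (.inl i)) = ∑ j, ay (co x (.inr j)))} := by
  have cB : IsClosed {x : (Yv k q σ).pts | ∃ i, co x (.inl i) = pt3 1 0 0} := by
    rw [ofPred_exists]; exact isClosed_iUnion_of_finite fun i => isClosed_co_const _ _
  have a := fun i => HdReg.ax (k := k) (q := q) (τ := σ) i
  have b := fun i => HdReg.ay (k := k) (q := q) (τ := σ) i
  have a' : ∀ j : Fin d, HdReg fun x : (Yv k q σ).pts =>
      if j = 0 then 0 else ax (co x (.inr j)) ^ e := fun j => by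
    split_ifs
    exacts [HdReg.const 0, (a (.inr j)).pow e]
  have c1 := isClosed_iInter fun t : k => HdReg.closed
    (HdReg.prod Finset.univ fun i => (HdReg.const t).sub ((a (.inl i)).pow e))
    ((HdReg.prod Finset.univ fun j => (HdReg.const t).sub (a' j)).add
      (HdReg.prod Finset.univ fun i => ((a (.inl i)).pow e).neg))
  have c2 := HdReg.closed (HdReg.prod Finset.univ fun i => a (.inl i))
    ((HdReg.const c).mul ((a (.inr 0)).pow d))
  have c3 := HdReg.closed (HdReg.sum Finset.univ fun i => b (.inl i))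
    (HdReg.sum Finset.univ fun i => b (.inr i))
  convert (cB.union (isClosed_iInter fun j => hdc_closed (q := q) (τ := σ) (hdG d e c j))).inter
    (c1.inter (c2.inter c3)) using 1
  ext x
  simp only [mem_ofPred_eq, mem_inter_iff, mem_union, mem_iInter]
  by_cases hB : ∃ i, co x (.inl i) = pt3 1 0 0
  · have n : ¬ ∀ i, IsFin (co x i) := fun h => by
      obtain ⟨i, hi⟩ := hB
      exact not_isFin_inf (hi ▸ h (.inl i))
    simp only [hB, n, true_or, false_imp_iff, implies_true, and_self]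
  have fs : ∀ i, IsFin (co x (.inl i)) := fun i => by
    by_contra h
    exact hB ⟨i, eq_inf_of_dh (hσ (.inl i) ▸ co_mem x (.inl i)) h⟩
  simp only [hB, false_or]
  constructor
  · rintro ⟨fm, e1, e2, e3⟩
    exact ⟨hdG_fin fs fm e1 e2, fun t _ => e1 t, fun _ => e2, fun _ => e3⟩
  · rintro ⟨hg, e1, e2, e3⟩
    have fm := fun j => hdG_inf he hc fs (hσ _) (hg j)
    have al : ∀ i, IsFin (co x i) := by rintro (i | i); exacts [fs i, fm i]
    exact ⟨fm, fun t => e1 t al, e2 al, e3 al⟩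

theorem isClosed_hdZ {d e : ℕ} [NeZero d] (he : 0 < e) {c : k} (hc : c ≠ 0) :
    IsClosed (hdZ k q d e c) := hdZ_aux he hc (by rintro (i | i) <;> rfl)

theorem isClosed_jZ : IsClosed (jZ k q) := by
  let σ : Bool ⊕ Bool → Bool := Sum.elim (fun b : Bool => b) fun _ : Bool => false
  let g : Bool → MvPolynomial (Vars fun _ : Bool ⊕ Bool => 2) k := fun j =>
    X ⟨.inr j, 0⟩ * X ⟨.inl false, 2⟩ * X ⟨.inl true, 2⟩ -
      X ⟨.inl false, 0⟩ * X ⟨.inl true, if j then 0 else 1⟩ * X ⟨.inr j, 2⟩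
  have a := fun i => HdReg.ax (k := k) (q := q) (τ := σ) i
  have b := fun i => HdReg.ay (k := k) (q := q) (τ := σ) i
  have c1 := HdReg.closed (a (.inr true)) ((a (.inl false)).mul (a (.inl true)))
  have c2 := HdReg.closed (a (.inr false)) ((a (.inl false)).mul (b (.inl true)))
  have c3 := HdReg.closed ((b (.inr true)).add (b (.inr false))) (b (.inl false))
  have cB : IsClosed {x : (Yv k q σ).pts | (pL _ _).1 x ∈ jB k q} := by
    refine hdc_of (X ⟨.inl true, 2⟩ * (X ⟨.inl false, 2⟩ * X ⟨.inl false, 0⟩)) fun x =>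
      ⟨fun H v hv => ?_, fun H => ?_⟩
    · simp only [map_mul, eval_X]
      by_cases f2 : IsFin (co x (.inl false))
      · rcases H with H | H | H
        · rw [hdc_z hv H, zero_mul]
        · exact absurd f2 H
        · rw [(hdc_fin hv f2).2.1, show ax (co x (.inl false)) = 0 from H]; ring
      · rw [hdc_z hv f2]; ring
    · obtain ⟨v, hv⟩ := hdc_ex x
      by_contra n
      simp only [jB, mem_ofPred_eq, co_pL, not_or, not_not] at n
      have := H v hv
      simp [(hdc_fin hv n.1).1, (hdc_fin hv n.2.1).1, (hdc_fin hv n.2.1).2.1, n.2.2] at this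
  convert cB.union ((isClosed_iInter fun j => hdc_closed (q := q) (τ := σ) (g j)).inter
    (c1.inter (c2.inter c3))) using 1
  ext x
  simp only [jZ, mem_ofPred_eq, mem_inter_iff, mem_union, mem_iInter]
  refine or_congr_right' fun hB => ?_
  simp only [jB, mem_ofPred_eq, co_pL, not_or, not_not] at hB
  obtain ⟨f1, f2, -⟩ := hB
  constructor
  · rintro ⟨fm, e1, e2, e3⟩
    refine ⟨fun j v hv => ?_, fun _ => e1, fun _ => e2, fun _ => e3⟩
    cases j
    · simp only [g, map_sub, map_mul, eval_X, Bool.false_eq_true, if_false,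
        (hdc_fin hv (fm false)).2.1, (hdc_fin hv f2).2.1, (hdc_fin hv f1).2.2, e2]
      ring
    · simp only [g, map_sub, map_mul, eval_X, if_true, (hdc_fin hv (fm true)).2.1,
        (hdc_fin hv f2).2.1, (hdc_fin hv f1).2.1, e1]
      ring
  · rintro ⟨hg, e1, e2, e3⟩
    have fm : ∀ j, IsFin (co x (.inr j)) := fun j => by
      by_contra h
      obtain ⟨v, hv⟩ := hdc_ex x
      obtain ⟨z, nz⟩ := hdc_inf hv rfl h
      have := hg j _ hv
      simp [g, z, nz, (hdc_fin hv f1).1, (hdc_fin hv f2).1] at this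
    have al : ∀ i, IsFin (co x i) := by rintro ((_ | _) | i); exacts [f2, f1, fm i]
    exact ⟨fm, e1 al, e2 al, e3 al⟩

end Pool.Agent.MP_0c8446_ag
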