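import Pool.Agent.MP_0c8446_ag.LinAlg2

namespace Pool.Agent.MP_0c8446_ag

open Polynomial Finset

universe u

variable {k : Type u} [Field k]

lemma hdGeo_newton {d : ℕ} (u : Fin d → k) {n : ℕ} (hn : 0 < n) :
    ∑ i, u i ^ n = -(n * ((-1) ^ n * (univ.val.map u).esymm n)) -
      ∑ a ∈ antidiagonal n with a.1 ∈ Set.Ioo 0 n,
        (-1) ^ a.1 * (univ.val.map u).esymm a.1 * ∑ i, u i ^ a.2 := by
  have h := congrArg (MvPolynomial.aeval (R := k) u)
    (MvPolynomial.psum_eq_mul_esymm_sub_sum (Fin d) k n hn)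
  simp only [MvPolynomial.psum, map_sum, map_pow, MvPolynomial.aeval_X, map_sub, map_mul, map_neg,
    map_one, map_natCast, MvPolynomial.aeval_esymm_eq_multiset_esymm] at h
  rw [h]
  ring

lemma hdGeo_coeff {d : ℕ} (u : Fin d → k) {m : ℕ} (hm : m ≤ d) :
    (∏ i, (X - C (u i))).coeff (d - m) = (-1) ^ m * (univ.val.map u).esymm m := by
  have h := Multiset.prod_X_sub_C_coeff (univ.val.map u) (k := d - m) (by simp)
  simp only [Multiset.map_map, Multiset.card_map, card_val, card_univ, Fintype.card_fin,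
    Nat.sub_sub_self hm] at h
  exact h

/-- Two monic split polynomials that differ by a constant: the difference of the power sums. -/
lemma hdGeo_psum {d : ℕ} (hd : 0 < d) (u v : Fin d → k) (a : k)
    (h : ∏ i, (X - C (u i)) = ∏ i, (X - C (v i)) + C a) :
    ∑ i, u i ^ d = ∑ i, v i ^ d - d * a := by
  have h1 : ∀ m, m < d →
      (-1) ^ m * (univ.val.map u).esymm m = (-1) ^ m * (univ.val.map v).esymm m := by
    intro m hm
    rw [← hdGeo_coeff u hm.le, ← hdGeo_coeff v hm.le, h, coeff_add,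
      coeff_C_of_ne_zero (by omega), add_zero]
  have h2 : (-1) ^ d * (univ.val.map u).esymm d = (-1) ^ d * (univ.val.map v).esymm d + a := by
    rw [← hdGeo_coeff u le_rfl, ← hdGeo_coeff v le_rfl, h, coeff_add, Nat.sub_self, coeff_C_zero]
  have h4 : ∀ n, n ≤ d → (∀ m, 0 < m → m < n → ∑ i, u i ^ m = ∑ i, v i ^ m) →
      ∑ a ∈ antidiagonal n with a.1 ∈ Set.Ioo 0 n,
        (-1) ^ a.1 * (univ.val.map u).esymm a.1 * ∑ i, u i ^ a.2 =
      ∑ a ∈ antidiagonal n with a.1 ∈ Set.Ioo 0 n,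
        (-1) ^ a.1 * (univ.val.map v).esymm a.1 * ∑ i, v i ^ a.2 := by
    intro n hn ih
    refine sum_congr rfl fun a ha => ?_
    simp only [mem_filter, HasAntidiagonal.mem_antidiagonal, Set.mem_Ioo] at ha
    rw [h1 a.1 (by omega), ih a.2 (by omega) (by omega)]
  have h3 : ∀ n, 0 < n → n < d → ∑ i, u i ^ n = ∑ i, v i ^ n := by
    intro n
    induction n using Nat.strong_induction_on with
    | _ n ih =>
      intro hn hnd
      rw [hdGeo_newton u hn, hdGeo_newton v hn, h1 n hnd,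
        h4 n hnd.le fun m hm hmn => ih m hmn hm (by omega)]
  rw [hdGeo_newton u hd, hdGeo_newton v hd, h2, h4 d le_rfl h3]
  ring

lemma hdGeo_roots [IsAlgClosed k] (P : k[X]) (hP : P.Monic) {d : ℕ} (hd : P.natDegree = d) :
    ∃ w : Fin d → k, P = ∏ j, (X - C (w j)) := by
  have h1 := (IsAlgClosed.splits P).eq_prod_roots_of_monic hP
  have h2 : P.roots.card = d := by rw [← hd]; exact IsAlgClosed.card_roots_eq_natDegree
  obtain ⟨l, hl⟩ := Quot.exists_rep P.roots
  have hl' : (l : Multiset k) = P.roots := hl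
  have h3 : l.length = d := by rw [← h2, ← hl', Multiset.coe_card]
  subst h3
  refine ⟨l.get, ?_⟩
  have h4 : univ.val.map l.get = P.roots := by rw [Fin.univ_val_map, List.ofFn_get, hl']
  rw [prod_eq_multiset_prod, h1, ← h4, Multiset.map_map]
  rfl

lemma hdGeo_split [IsAlgClosed k] {d : ℕ} [NeZero d] (u : Fin d → k) :
    ∃ v : Fin d → k, v 0 = 0 ∧
      ∏ i, (X - C (u i)) = ∏ j, (X - C (v j)) + C (∏ i, (-u i)) := by
  have hd : 0 < d := Nat.pos_of_ne_zero (NeZero.ne d)
  have hm : (∏ i, (X - C (u i))).Monic := monic_prod_of_monic _ _ fun i _ => monic_X_sub_C _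
  have hn : (∏ i, (X - C (u i))).natDegree = d := by
    rw [natDegree_prod_of_monic _ _ fun i _ => monic_X_sub_C _]
    simp
  have hlt : (C (∏ i, (-u i))).degree < (∏ i, (X - C (u i))).degree := by
    rw [degree_eq_natDegree hm.ne_zero, hn]
    exact degree_C_le.trans_lt (by exact_mod_cast hd)
  obtain ⟨w, hw⟩ := hdGeo_roots _ (hm.sub_of_left hlt) (d := d) (by rw [natDegree_sub_C, hn])
  have h0 : ∏ j, (-w j) = 0 := by
    have := congrArg (eval 0) hw
    simpa [eval_prod] using this.symm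
  obtain ⟨j, -, hj⟩ := prod_eq_zero_iff.1 h0
  refine ⟨w ∘ Equiv.swap 0 j, by simpa using hj, ?_⟩
  have := Equiv.prod_comp (Equiv.swap 0 j) fun j => X - C (w j)
  simp only [Function.comp_apply]
  rw [this, ← hw]
  ring

lemma hdGeo_perm [Infinite k] {d : ℕ} (u u' : Fin d → k)
    (h : ∀ t, ∏ i, (t - u i) = ∏ i, (t - u' i)) :
    ∃ σ : Equiv.Perm (Fin d), ∀ i, u (σ i) = u' i := by
  have h1 : ∏ i, (X - C (u i)) = ∏ i, (X - C (u' i)) :=
    Polynomial.funext fun t => by simpa [eval_prod] using h t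
  have h2 : ∀ w : Fin d → k, (∏ i, (X - C (w i))).roots = univ.val.map w := fun w => by
    rw [← roots_multiset_prod_X_sub_C (univ.val.map w), Multiset.map_map]
    rfl
  exact exists_equiv_of_map_eq u' u (by rw [← h2, ← h2, h1])

lemma hdGeo_alpha {d e : ℕ} (he : e ≠ 0) (x x' : Fin d → k) (h : ∀ i, x' i ^ e = x i ^ e)
    (hp : ∏ i, x' i = ∏ i, x i) :
    ∃ α : Fin d → k, (∀ i, α i ^ e = 1) ∧ ∏ i, α i = 1 ∧ ∀ i, x' i = α i * x i := by
  classical
  obtain ⟨β, hβ, hx⟩ : ∃ β : Fin d → k, (∀ i, β i ^ e = 1) ∧ ∀ i, x' i = β i * x i := by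
    refine ⟨fun i => if x i = 0 then 1 else x' i / x i, fun i => ?_, fun i => ?_⟩
    · by_cases h0 : x i = 0
      · simp [h0]
      · simp only [if_neg h0]
        rw [div_pow, h, div_self (pow_ne_zero _ h0)]
    · by_cases h0 : x i = 0
      · have := h i
        rw [h0, zero_pow he] at this
        simp [h0, (pow_eq_zero_iff he).1 this]
      · simp only [if_neg h0]
        rw [div_mul_cancel₀ _ h0]
  by_cases h0 : ∃ i, x i = 0
  · obtain ⟨i₀, h0⟩ := h0
    have hb : (∏ i, β i) ^ e = 1 := by rw [← prod_pow]; simp [hβ]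
    have hb0 : ∏ i, β i ≠ 0 := ne_zero_pow he (by rw [hb]; exact one_ne_zero)
    refine ⟨fun i => β i * if i = i₀ then (∏ i, β i)⁻¹ else 1, fun i => ?_, ?_, fun i => ?_⟩
    · by_cases hi : i = i₀
      · simp only [if_pos hi]
        rw [mul_pow, hβ, inv_pow, hb, inv_one, one_mul]
      · simp only [if_neg hi]
        rw [mul_one, hβ]
    · rw [prod_mul_distrib, prod_ite_eq', if_pos (mem_univ _), mul_inv_cancel₀ hb0]
    · by_cases hi : i = i₀
      · rw [hx, hi, h0, mul_zero, mul_zero]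
      · simp only [if_neg hi]
        rw [mul_one, hx]
  · push Not at h0
    refine ⟨β, hβ, ?_, hx⟩
    have h1 : ∏ i, x i ≠ 0 := prod_ne_zero_iff.2 fun i _ => h0 i
    refine mul_right_cancel₀ h1 ?_
    rw [one_mul, ← prod_mul_distrib, ← hp]
    exact prod_congr rfl fun i _ => (hx i).symm

lemma hdGeo_scale {d : ℕ} (u v : Fin d → k) {ε : k} (hε : ε ≠ 0) :
    (∀ t, ∏ i, (t - ε * u i) = ∏ j, (t - ε * v j) + ∏ i, (-(ε * u i))) ↔
      ∀ t, ∏ i, (t - u i) = ∏ j, (t - v j) + ∏ i, (-u i) := by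
  have key : ∀ (t : k) (w : Fin d → k), ∏ i, (ε * t - ε * w i) = ε ^ d * ∏ i, (t - w i) := by
    intro t w
    simp only [← mul_sub, prod_mul_distrib, prod_const, card_univ, Fintype.card_fin]
  have key' : ∏ i, (-(ε * u i)) = ε ^ d * ∏ i, (-u i) := by
    simp only [← mul_neg, prod_mul_distrib, prod_const, card_univ, Fintype.card_fin]
  constructor
  · intro h t
    have := h (ε * t)
    rw [key, key, key', ← mul_add] at this
    exact mul_left_cancel₀ (pow_ne_zero _ hε) this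
  · intro h t
    obtain ⟨t, rfl⟩ : ∃ t', t = ε * t' := ⟨ε⁻¹ * t, by rw [mul_inv_cancel_left₀ hε]⟩
    rw [key, key, key', ← mul_add, h]

lemma hdGeo_as [IsAlgClosed k] {q : ℕ} (hq : 1 < q) (a : k) : ∃ y : k, y ^ q - y = a := by
  have h1 : (X ^ q - X - C a : k[X]).natDegree = q := by
    rw [natDegree_sub_C, FiniteField.X_pow_card_sub_X_natDegree_eq k hq]
  obtain ⟨y, hy⟩ := IsAlgClosed.exists_root (X ^ q - X - C a : k[X])
    (natDegree_pos_iff_degree_pos.1 (by omega)).ne'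
  exact ⟨y, by simpa [sub_eq_zero] using hy⟩

end Pool.Agent.MP_0c8446_ag
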