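import Pool.Agent.MP_0c8446_ag.RDefs
import Pool.Agent.MP_0c8446_ag.HdGeoA

namespace Pool.Agent.MP_0c8446_ag

open Set

universe u v w

variable {k : Type u} [Field k] [IsAlgClosed k] {q : ℕ} [IsQ k q] {K : Type v} [Field K]
  [CharZero K] [IsAlgClosed K] {ι ι' ι₁ ι₂ : Type} [Fintype ι] [Fintype ι'] [Fintype ι₁] [Fintype ι₂]
  {τ : ι → Bool} {τ' : ι' → Bool} {τ₁ : ι₁ → Bool} {τ₂ : ι₂ → Bool}

omit [IsAlgClosed k] in
lemma hdGeo_inf_iff {P : P2 k} (hP : P ∈ curve k q false) : P = pt3 1 0 0 ↔ ¬ IsFin P :=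
  ⟨fun h => h ▸ not_isFin_inf, eq_inf_of_dh hP⟩

omit [IsAlgClosed k] in
lemma hdGeo_eqn {P : P2 k} (hP : P ∈ curve k q false) (h : IsFin P) :
    ay P ^ q - ay P = ax P ^ (q - 1) := aff_mem_dh.1 (h.eq_aff.symm ▸ hP)

lemma hdGeo_pos (k : Type u) [Field k] {q : ℕ} [IsQ k q] {d e : ℕ} (hde : d * e = q - 1) :
    e ≠ 0 := by
  rintro rfl
  have := IsQ.pos k q
  omega

omit [IsAlgClosed k] in
lemma hdGeo_sum {α : Type} [Fintype α] (y : α → k) :
    (∑ i, y i) ^ q - ∑ i, y i = ∑ i, (y i ^ q - y i) := by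
  rw [Finset.sum_sub_distrib]
  congr 1
  exact map_sum (frobHom k q) y _

theorem hdZ_surj {d e : ℕ} [NeZero d] (hde : d * e = q - 1) {c : k}
    (hc : (-1) ^ (d - 1) * d * c ^ e = 1) (s : (Yv k q fun _ : Fin d => false).pts) :
    ∃ μ, mkP s μ ∈ hdZ k q d e c := by
  by_cases hs : ∃ i, co s i = pt3 1 0 0
  · exact ⟨s, Or.inl hs⟩
  have hd : 0 < d := Nat.pos_of_ne_zero (NeZero.ne d)
  have he : e ≠ 0 := hdGeo_pos k hde
  have hq := IsQ.one_lt (k := k) (q := q)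
  have hfin : ∀ i, IsFin (co s i) := fun i => by
    by_contra h
    exact hs ⟨i, eq_inf_of_dh (co_mem s i) h⟩
  have hc0 : c ≠ 0 := by
    rintro rfl
    rw [zero_pow he, mul_zero] at hc
    exact zero_ne_one hc
  obtain ⟨v, hv0, hv⟩ := hdGeo_split fun i => ax (co s i) ^ e
  have hN := hdGeo_psum hd _ _ _ hv
  choose x hx using fun j => IsAlgClosed.exists_pow_nat_eq (v j) (Nat.pos_of_ne_zero he)
  choose y hy using fun j => hdGeo_as hq (v j ^ d)
  obtain ⟨m, hm⟩ := IsAlgClosed.exists_pow_nat_eq ((∏ i, ax (co s i)) / c) hd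
  have hm' : ∏ i, ax (co s i) = c * m ^ d := by rw [hm, mul_div_cancel₀ _ hc0]
  have hsum : (∑ i, ay (co s i)) ^ q - ∑ i, ay (co s i) = ∑ i, (ax (co s i) ^ e) ^ d := by
    rw [hdGeo_sum]
    refine Finset.sum_congr rfl fun i _ => ?_
    rw [hdGeo_eqn (co_mem s i) (hfin i), ← pow_mul, mul_comm e, hde]
  have hsum' : (∑ j, y j) ^ q - ∑ j, y j = ∑ j, v j ^ d := by
    rw [hdGeo_sum]
    exact Finset.sum_congr rfl fun j _ => hy j
  have hprod : ∏ i, (-ax (co s i) ^ e) = (-1) ^ d * (c ^ e * m ^ (q - 1)) := by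
    rw [Finset.prod_neg, Finset.prod_pow, hm', mul_pow, ← pow_mul, hde]
    simp
  have hsg : (-1 : k) ^ d = -(-1) ^ (d - 1) := by
    conv_lhs => rw [← Nat.sub_add_cancel hd, pow_succ]
    ring
  refine ⟨mkY (fun j => pt3 (if j = 0 then m else x j)
    (y j + if j = 0 then ∑ i, ay (co s i) - ∑ j, y j else 0) 1) fun j => ?_, Or.inr ?_⟩
  · rw [aff_mem_dh]
    by_cases hj : j = 0
    · subst hj
      have h0 := hy 0
      rw [hv0, zero_pow hd.ne'] at h0
      rw [if_pos rfl, if_pos rfl, IsQ.add_pow, IsQ.sub_pow]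
      rw [hprod, hsg] at hN
      linear_combination h0 + hsum - hsum' + hN + m ^ (q - 1) * hc
    · rw [if_neg hj, if_neg hj, add_zero, hy, ← hx, ← pow_mul, mul_comm e, hde]
  · simp only [co_mkP_inl, co_mkP_inr, co_mkY, isFin_aff, ax_aff, ay_aff]
    refine ⟨fun _ => trivial, fun t => ?_, by simpa using hm', ?_⟩
    · have h1 := congrArg (Polynomial.eval t) hv
      simp only [Polynomial.eval_prod, Polynomial.eval_add, Polynomial.eval_sub,
        Polynomial.eval_X, Polynomial.eval_C] at h1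
      rw [h1]
      congr 1
      refine Finset.prod_congr rfl fun j _ => ?_
      by_cases hj : j = 0
      · rw [if_pos hj, hj, hv0]
      · rw [if_neg hj, if_neg hj, hx]
    · rw [Finset.sum_add_distrib, Finset.sum_ite_eq', if_pos (Finset.mem_univ _)]
      ring

theorem hdZ_fib {d e : ℕ} [NeZero d] (hde : d * e = q - 1) {c : k}
    {s s' μ : (Yv k q fun _ : Fin d => false).pts} (hs : ∀ i, co s i ≠ pt3 1 0 0)
    (hs' : ∀ i, co s' i ≠ pt3 1 0 0) (h : mkP s μ ∈ hdZ k q d e c) (h' : mkP s' μ ∈ hdZ k q d e c) :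
    ∃ (σ : Equiv.Perm (Fin d)) (α : Fin d → (Fq k q)ˣ) (γ : Fin d → Fq k q), (∀ i, α i ^ e = 1) ∧
      ∏ i, α i = 1 ∧ ∑ i, γ i = 0 ∧ ∀ i, co s' i = lin (gD (α i) (γ i)).1 (co s (σ i)) := by
  have he : e ≠ 0 := hdGeo_pos k hde
  have hfin : ∀ i, IsFin (co s i) := fun i => by
    by_contra h
    exact hs i (eq_inf_of_dh (co_mem s i) h)
  have hfin' : ∀ i, IsFin (co s' i) := fun i => by
    by_contra h
    exact hs' i (eq_inf_of_dh (co_mem s' i) h)
  obtain ⟨-, h1, h2, h3⟩ := h.resolve_left fun ⟨i, hi⟩ => hs i hi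
  obtain ⟨-, h1', h2', h3'⟩ := h'.resolve_left fun ⟨i, hi⟩ => hs' i hi
  simp only [co_mkP_inl, co_mkP_inr] at h1 h2 h3 h1' h2' h3'
  have hp : ∏ i, ax (co s' i) = ∏ i, ax (co s i) := h2'.trans h2.symm
  have hp' : ∏ i, (-ax (co s i) ^ e) = ∏ i, (-ax (co s' i) ^ e) := by
    rw [Finset.prod_neg, Finset.prod_neg, Finset.prod_pow, Finset.prod_pow, hp]
  obtain ⟨σ, hσ⟩ := hdGeo_perm (fun i => ax (co s i) ^ e) (fun i => ax (co s' i) ^ e)
    fun t => by rw [h1, h1', hp']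
  obtain ⟨α, ha1, ha2, ha3⟩ := hdGeo_alpha he (fun i => ax (co s (σ i))) (fun i => ax (co s' i))
    (fun i => (hσ i).symm) (hp.trans (Equiv.prod_comp σ fun i => ax (co s i)).symm)
  have ha4 : ∀ i, α i ^ (q - 1) = 1 := fun i => by rw [← hde, mul_comm, pow_mul, ha1, one_pow]
  have hγ : ∀ i, ay (co s' i) - ay (co s (σ i)) ∈ Fq k q := fun i => by
    have e1 := hdGeo_eqn (co_mem s' i) (hfin' i)
    have e2 := hdGeo_eqn (co_mem s (σ i)) (hfin (σ i))
    have e3 : ax (co s' i) = α i * ax (co s (σ i)) := ha3 i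
    rw [e3, mul_pow, ha4, one_mul] at e1
    rw [mem_Fq, IsQ.sub_pow]
    linear_combination e1 - e2
  refine ⟨σ, fun i => toFqUnit (α i) (ha4 i), fun i => ⟨_, hγ i⟩, fun i => ?_, ?_, ?_, fun i => ?_⟩
  · ext
    simpa using ha1 i
  · ext
    simpa using ha2
  · ext
    have := Equiv.sum_comp σ fun i => ay (co s i)
    simp only [AddSubmonoidClass.coe_finsetSum, Finset.sum_sub_distrib, this, h3, h3', sub_self,
      ZeroMemClass.coe_zero]
  · refine (hfin' i).ext ((isFin_lin _ _).2 (hfin _)) ?_ ?_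
    · rw [ax_lin]
      simpa using ha3 i
    · rw [ay_lin _ (hfin _)]
      simp

theorem hdZ_act {d e : ℕ} [NeZero d] (hde : d * e = q - 1) {c : k} (α α' : Fin d → (Fq k q)ˣ) (γ γ' : Fin d → Fq k q)
    (ε : (Fq k q)ˣ) (h1 : ∀ i, α i ^ e = ε) (h2 : ∀ j, j ≠ 0 → α' j ^ e = ε)
    (h3 : ∏ i, α i = α' 0 ^ d) (h4 : ∑ i, γ i = ∑ j, γ' j)
    {x y : (Yv k q (Sum.elim (fun _ : Fin d => false) fun _ : Fin d => false)).pts}
    (h5 : ∀ i, co y (.inl i) = lin (gD (α i) (γ i)).1 (co x (.inl i)))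
    (h6 : ∀ j, co y (.inr j) = lin (gD (α' j) (γ' j)).1 (co x (.inr j))) :
    y ∈ hdZ k q d e c ↔ x ∈ hdZ k q d e c := by
  have hinf : (∃ i, co y (.inl i) = pt3 1 0 0) ↔ ∃ i, co x (.inl i) = pt3 1 0 0 :=
    exists_congr fun i => by
      rw [hdGeo_inf_iff (q := q) (co_mem y (.inl i)), hdGeo_inf_iff (q := q) (co_mem x (.inl i)),
        h5, isFin_lin]
  by_cases hx : ∃ i, co x (.inl i) = pt3 1 0 0
  · exact iff_of_true (Or.inl (hinf.2 hx)) (Or.inl hx)
  have hfin : ∀ i, IsFin (co x (.inl i)) := fun i => by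
    by_contra h
    exact hx ⟨i, eq_inf_of_dh (q := q) (co_mem x (.inl i)) h⟩
  have hfy : (∀ j, IsFin (co y (.inr j))) ↔ ∀ j, IsFin (co x (.inr j)) :=
    forall_congr' fun j => by rw [h6, isFin_lin]
  simp only [hdZ, mem_ofPred_eq]
  rw [hinf, hfy]
  refine or_congr Iff.rfl (and_congr_right fun hfin' => ?_)
  have hε : ((ε : Fq k q) : k) ≠ 0 := by simp
  have a1 : ∀ i, ax (co y (.inl i)) = ((α i : Fq k q) : k) * ax (co x (.inl i)) := fun i => by
    rw [h5, ax_lin]; rfl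
  have a2 : ∀ j, ax (co y (.inr j)) = ((α' j : Fq k q) : k) * ax (co x (.inr j)) := fun j => by
    rw [h6, ax_lin]; rfl
  have a3 : ∀ i, ay (co y (.inl i)) = ay (co x (.inl i)) + γ i := fun i => by
    rw [h5, ay_lin _ (hfin i)]; simp
  have a4 : ∀ j, ay (co y (.inr j)) = ay (co x (.inr j)) + γ' j := fun j => by
    rw [h6, ay_lin _ (hfin' j)]; simp
  have b1 : ∀ i, ax (co y (.inl i)) ^ e = ((ε : Fq k q) : k) * ax (co x (.inl i)) ^ e := fun i => by
    rw [a1, mul_pow, ← h1 i]; simp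
  have b2 : ∀ j : Fin d, (if j = 0 then 0 else ax (co y (.inr j)) ^ e) =
      ((ε : Fq k q) : k) * if j = 0 then 0 else ax (co x (.inr j)) ^ e := fun j => by
    by_cases hj : j = 0
    · simp [hj]
    · rw [if_neg hj, if_neg hj, a2, mul_pow, ← h2 j hj]; simp
  have b3 : ∏ i, ((α i : Fq k q) : k) = ((α' 0 : Fq k q) : k) ^ d := by
    simpa using congrArg (fun a : (Fq k q)ˣ => ((a : Fq k q) : k)) h3
  have b4 : ∑ i, (γ i : k) = ∑ j, (γ' j : k) := by
    simpa using congrArg (fun a : Fq k q => (a : k)) h4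
  have b5 : ((α' 0 : Fq k q) : k) ^ d ≠ 0 := pow_ne_zero _ (by simp)
  refine and_congr ?_ (and_congr ?_ ?_)
  · simp only [b1, b2]
    exact hdGeo_scale _ _ hε
  · simp only [a1, a2, Finset.prod_mul_distrib, b3, mul_pow]
    rw [mul_left_comm, mul_right_inj' b5]
  · simp only [a3, a4, Finset.sum_add_distrib, b4, add_left_inj]

theorem hdZ_perm {d e : ℕ} [NeZero d] {c : k} (σ : Equiv.Perm (Fin d)) (h0 : σ 0 = 0)
    {x y : (Yv k q (Sum.elim (fun _ : Fin d => false) fun _ : Fin d => false)).pts}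
    (h5 : ∀ i, co y (.inl i) = co x (.inl i)) (h6 : ∀ j, co y (.inr j) = co x (.inr (σ j))) :
    y ∈ hdZ k q d e c ↔ x ∈ hdZ k q d e c := by
  have h1 : ∀ j, σ j = 0 ↔ j = 0 := fun j => by rw [← h0, σ.apply_eq_iff_eq, h0]
  have h2 : ∀ t : k, ∏ j, (t - if j = 0 then 0 else ax (co x (.inr (σ j))) ^ e) =
      ∏ j, (t - if j = 0 then 0 else ax (co x (.inr j)) ^ e) := fun t => by
    rw [← Equiv.prod_comp σ fun j => t - if j = 0 then 0 else ax (co x (.inr j)) ^ e]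
    simp only [h1]
  have h3 := Equiv.sum_comp σ fun j => ay (co x (.inr j))
  have h4 : (∀ j, IsFin (co x (.inr (σ j)))) ↔ ∀ j, IsFin (co x (.inr j)) :=
    ⟨fun h j => by simpa using h (σ.symm j), fun h j => h _⟩
  simp only [hdZ, mem_ofPred_eq, h5, h6, h2, h3, h4, h0]

end Pool.Agent.MP_0c8446_ag
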