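import Pool.Agent.MP_0c8446_ag.RDefs

namespace Pool.Agent.MP_0c8446_ag

open Set

universe u v w

variable {k : Type u} [Field k] [IsAlgClosed k] {q : ℕ} [IsQ k q] {K : Type v} [Field K]

lemma Rel3_card_units : Nat.card (Fq k q)ˣ = q - 1 := by
  rw [Nat.card_units, Nat.card_eq_fintype_card, card_Fq]

omit [IsAlgClosed k] in
lemma Rel3_unit_pow (a : (Fq k q)ˣ) : a ^ (q - 1) = 1 := by
  ext
  simpa using Fq_unit_pow a

/-- A character of order dividing `d` kills the `e`-th roots of unity. -/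
lemma Rel3_kill {d e : ℕ} (hde : d * e = q - 1) {ρ : MulChar (Fq k q) K} (hρ : ρ ^ d = 1)
    {a : (Fq k q)ˣ} (ha : a ^ e = 1) : ρ a = 1 := by
  obtain ⟨g, hg⟩ := IsCyclic.exists_generator (α := (Fq k q)ˣ)
  have ho : orderOf g = d * e := by
    rw [orderOf_eq_card_of_forall_mem_zpowers hg, Rel3_card_units, hde]
  have he : 0 < e := Nat.pos_of_mul_pos_left (hde ▸ IsQ.pos k q)
  obtain ⟨m, rfl⟩ := (mem_powers_iff_mem_zpowers.2 (hg a))
  simp only at ha ⊢
  rw [← pow_mul, ← orderOf_dvd_iff_pow_eq_one, ho] at ha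
  obtain ⟨r, rfl⟩ := Nat.dvd_of_mul_dvd_mul_right he ha
  rw [mul_comm, pow_mul, Units.val_pow_eq_pow_val, map_pow, ← MulChar.pow_apply_coe, hρ,
    MulChar.one_apply_coe]

omit [IsAlgClosed k] in
/-- A character that kills the `e`-th roots of unity has order dividing `d`. -/
lemma Rel3_pow_eq_one {d e : ℕ} (hde : d * e = q - 1) {χ : MulChar (Fq k q) K}
    (h : ∀ a : (Fq k q)ˣ, a ^ e = 1 → χ a = 1) : χ ^ d = 1 := by
  refine MulChar.ext fun a => ?_
  rw [MulChar.pow_apply_coe, MulChar.one_apply_coe, ← map_pow, ← Units.val_pow_eq_pow_val]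
  exact h _ (by rw [← pow_mul, hde, Rel3_unit_pow])

omit [IsAlgClosed k] in
/-- The characters of order dividing `d` are the powers of a character of order `d`. -/
lemma Rel3_eq_pow {d : ℕ} [NeZero d] {ρ χ : MulChar (Fq k q) K} (hρ : orderOf ρ = d)
    (hχ : χ ^ d = 1) : ∃ n < d, ρ ^ n = χ := by
  obtain ⟨g, hg⟩ := IsCyclic.exists_generator (α := (Fq k q)ˣ)
  have key : ∀ (η : MulChar (Fq k q) K) (n : ℕ), η ^ n = 1 ↔ η g ^ n = 1 := fun η n => by
    rw [MulChar.eq_iff hg, MulChar.pow_apply_coe, MulChar.one_apply_coe]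
  have hp : IsPrimitiveRoot (ρ g) d :=
    ⟨(key ρ d).1 (hρ ▸ pow_orderOf_eq_one ρ), fun l hl => hρ ▸ orderOf_dvd_of_pow_eq_one
      ((key ρ l).2 hl)⟩
  obtain ⟨n, hn, h⟩ := hp.eq_pow_of_pow_eq_one ((key χ d).1 hχ)
  exact ⟨n, hn, (MulChar.eq_iff hg _ _).2 (by rw [MulChar.pow_apply_coe, h])⟩

omit [IsAlgClosed k] in
lemma Rel3_prod_apply {ι : Type} (s : Finset ι) (χ : ι → MulChar (Fq k q) K) (a : (Fq k q)ˣ) :
    (∏ i ∈ s, χ i) a = ∏ i ∈ s, χ i a := by
  classical
  induction s using Finset.induction_on with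
  | empty => simp
  | insert i s hi ih => rw [Finset.prod_insert hi, Finset.prod_insert hi, MulChar.mul_apply, ih]

omit [IsAlgClosed k] in
lemma Rel3_add_sum {ι : Type} (s : Finset ι) (ψ : AddChar (Fq k q) K) (γ : ι → Fq k q) :
    ∏ i ∈ s, ψ (γ i) = ψ (∑ i ∈ s, γ i) := by
  classical
  induction s using Finset.induction_on with
  | empty => simp
  | insert i s hi ih => rw [Finset.prod_insert hi, Finset.sum_insert hi, AddChar.map_add_eq_mul, ih]

lemma Rel3_univ_val (d : ℕ) :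
    (Finset.univ : Finset (Fin d)).val.map Fin.val = Multiset.range d := by
  rw [← Finset.range_val, ← Nat.Iio_eq_range, ← Fin.map_valEmbedding_univ]
  rfl

omit [IsAlgClosed k] in
/-- The labels on the second factor are determined by the symmetries of the correspondence. -/
lemma Rel3_alg {d e : ℕ} [NeZero d] (hde : d * e = q - 1) {ρ ω : MulChar (Fq k q) K}
    (hρ : orderOf ρ = d) {ψ : AddChar (Fq k q) K} (hψ : ψ ≠ 1) (β : Fin d → Lb k q K)
    (hok : ∀ j, (β j).Ok false)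
    (hinv : ∀ (α α' : Fin d → (Fq k q)ˣ) (γ γ' : Fin d → Fq k q) (ε : (Fq k q)ˣ),
      (∀ i, α i ^ e = ε) → (∀ j, j ≠ 0 → α' j ^ e = ε) → ∏ i, α i = α' 0 ^ d →
      ∑ i, γ i = ∑ j, γ' j →
      (∏ i : Fin d, (ω * ρ ^ (i : ℕ)) (α i) * ψ (γ i)) *
        ∏ j, ((β j).chr false (gD (α' j) (γ' j)) : K) = 1)
    (hne : ∀ i j, i ≠ 0 → j ≠ 0 → i ≠ j → (β i).deg = 1 → β i ≠ β j) :
    (Finset.univ.val.map fun j => (false, (β j).du)) =
      {Dl (ω ^ d) ψ} + ((Multiset.range d).erase 0).map fun j => Dl (ρ ^ j) ψ := by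
  classical
  have h1 : ∀ j t, ψ t * ((β j).chr false (gD 1 t) : K) = 1 := by
    intro j t
    have h := hinv 1 1 (Pi.single 0 t) (Pi.single j t) 1 (by simp) (by simp) (by simp) (by simp)
    rw [Finset.prod_eq_single j (f := fun l => (((β l).chr false (gD ((1 : Fin d → (Fq k q)ˣ) l)
      (Pi.single (M := fun _ => Fq k q) j t l)) : Kˣ) : K))] at h
    · simpa [Rel3_add_sum] using h
    · intro l _ hl
      simp [Pi.single_eq_of_ne hl, gD_one]
    · simp
  have h2 : ∀ j, ∃ χ : MulChar (Fq k q) K, χ ≠ 1 ∧ β j = .ch χ 1 ψ⁻¹ := by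
    intro j
    obtain ⟨t, ht⟩ : ∃ t, ψ t ≠ 1 := by
      by_contra h
      push Not at h
      exact hψ (AddChar.ext _ _ fun t => by simpa using h t)
    have h3 := h1 j
    have h4 := hok j
    rcases hb : β j with _ | _ | ⟨ω₁, ω₂, ψ'⟩
    · rw [hb] at h3
      exact absurd (by simpa [Lb.chr] using h3 t) ht
    · rw [hb] at h3
      exact absurd (by simpa [Lb.chr] using h3 t) ht
    · rw [hb] at h3 h4
      obtain ⟨h5, rfl, -⟩ := h4
      refine ⟨ω₁, h5, ?_⟩
      have : ψ' = ψ⁻¹ := by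
        refine AddChar.ext _ _ fun s => ?_
        have h6 := h3 s
        simp only [Lb.chr, ch_gD, Units.val_one, map_one, one_mul] at h6
        rw [AddChar.inv_apply, AddChar.map_neg_eq_inv]
        exact eq_inv_of_mul_eq_one_right h6
      rw [this]
  choose χ hχ1 hχ using h2
  have h3 : ∀ (α α' : Fin d → (Fq k q)ˣ) (ε : (Fq k q)ˣ),
      (∀ i, α i ^ e = ε) → (∀ j, j ≠ 0 → α' j ^ e = ε) → ∏ i, α i = α' 0 ^ d →
      (∏ i : Fin d, (ω * ρ ^ (i : ℕ)) (α i)) * ∏ j, χ j (α' j) = 1 := by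
    intro α α' ε a1 a2 a3
    have h := hinv α α' 0 0 ε a1 a2 a3 rfl
    simpa [hχ, Lb.chr] using h
  have h4 : ∀ j, j ≠ 0 → ∃ n < d, ρ ^ n = (χ j)⁻¹ := by
    intro j hj
    refine Rel3_eq_pow hρ ?_
    rw [inv_pow, inv_eq_one]
    refine Rel3_pow_eq_one hde fun a ha => ?_
    have h := h3 1 (Pi.mulSingle j a) 1 (by simp) (fun l _ => by
      by_cases hl : l = j
      · subst hl; simpa using ha
      · simp [Pi.mulSingle_eq_of_ne hl]) (by simp [Pi.mulSingle_eq_of_ne hj.symm])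
    rw [Finset.prod_eq_single j (f := fun l => χ l
      ((Pi.mulSingle (M := fun _ => (Fq k q)ˣ) j a l : (Fq k q)ˣ) : Fq k q))] at h
    · simpa using h
    · intro l _ hl
      simp [Pi.mulSingle_eq_of_ne hl]
    · simp
  choose! n hn hn' using h4
  let m : Fin d → Fin d := fun j => if hj : j = 0 then 0 else ⟨n j, hn j hj⟩
  have hm0 : m 0 = 0 := by simp [m]
  have hm : ∀ j, j ≠ 0 → ρ ^ (m j : ℕ) = (χ j)⁻¹ := fun j hj => by simp [m, hj, hn' j hj]
  have hm1 : ∀ j, j ≠ 0 → m j ≠ 0 := fun j hj h => by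
    have h5 := hm j hj
    rw [h] at h5
    exact hχ1 j (by simpa using h5.symm)
  have hinj : Function.Injective m := by
    intro i j hij
    by_cases hi : i = 0
    · by_contra hc
      exact hm1 j (fun h => hc (hi.trans h.symm)) (by rw [← hij, hi, hm0])
    · by_cases hj : j = 0
      · exact absurd (by rw [hij, hj, hm0]) (hm1 i hi)
      · by_contra hc
        refine hne i j hi hj hc (by rw [hχ i]; rfl) ?_
        rw [hχ i, hχ j, inv_injective ((hm i hi).symm.trans (hij ▸ hm j hj))]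
  have hbij : Function.Bijective m := Finite.injective_iff_bijective.1 hinj
  have h5 : (χ 0)⁻¹ = ω ^ d := by
    have h6 : (∏ i : Fin d, (ω * ρ ^ (i : ℕ))) * ∏ j, χ j = 1 := by
      refine MulChar.ext fun a => ?_
      rw [MulChar.mul_apply, Rel3_prod_apply, Rel3_prod_apply, MulChar.one_apply_coe]
      exact h3 (fun _ => a) (fun _ => a) (a ^ e) (fun _ => rfl) (fun _ _ => rfl) (by simp)
    have h7 : ∏ j, ρ ^ (m j : ℕ) * χ j = χ 0 := by
      rw [Finset.prod_eq_single 0]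
      · rw [hm0]; simp
      · intro j _ hj
        rw [hm j hj, inv_mul_cancel]
      · simp
    rw [Finset.prod_mul_distrib, ← hbij.prod_comp (fun i : Fin d => ρ ^ (i : ℕ)), mul_assoc,
      ← Finset.prod_mul_distrib, h7] at h6
    simp only [Finset.prod_const, Finset.card_univ, Fintype.card_fin] at h6
    exact (eq_inv_of_mul_eq_one_left h6).symm
  let F : ℕ → Bool × Lb k q K := fun i => if i = 0 then Dl (ω ^ d) ψ else Dl (ρ ^ i) ψ
  have h7 : (fun j => (false, (β j).du)) = F ∘ Fin.val ∘ m := by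
    funext j
    by_cases hj : j = 0
    · subst hj
      simp [F, hm0, hχ, Lb.du, Dl, h5]
    · have h8 : (m j : ℕ) ≠ 0 := fun h => hm1 j hj (Fin.ext (by simpa using h))
      simp [F, h8, hχ, Lb.du, Dl, hm j hj]
  have h9 : (Finset.univ : Finset (Fin d)).val.map m = Finset.univ.val :=
    Multiset.map_univ_val_equiv (Equiv.ofBijective m hbij)
  rw [h7, ← Multiset.map_map, ← Multiset.map_map, h9, Rel3_univ_val]
  have h0 : 0 ∈ Multiset.range d := Multiset.mem_range.2 (Nat.pos_of_neZero d)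
  conv_lhs => rw [← Multiset.cons_erase h0]
  rw [Multiset.map_cons, Multiset.singleton_add]
  congr 1
  refine Multiset.map_congr rfl fun j hj => ?_
  have : j ≠ 0 := ((Multiset.nodup_range d).mem_erase_iff.1 hj).1
  simp [F, this]

end Pool.Agent.MP_0c8446_ag
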