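import Pool.Agent.MP_0c8446_ag.Mono
import Pool.Agent.MP_0c8446_ag.Comp
import Pool.Agent.MP_0c8446_ag.HdClosed
import Pool.Agent.MP_0c8446_ag.HdGeo
import Pool.Agent.MP_0c8446_ag.Rel3A

namespace Pool.Agent.MP_0c8446_ag

open Set

universe u v w

variable {k : Type u} [Field k] [IsAlgClosed k] {q : ℕ} [IsQ k q] {K : Type v} [Field K]
  [CharZero K] [IsAlgClosed K] {ι ι' ι₁ ι₂ : Type} [Fintype ι] [Fintype ι'] [Fintype ι₁] [Fintype ι₂]
  {τ : ι → Bool} {τ' : ι' → Bool} {τ₁ : ι₁ → Bool} {τ₂ : ι₂ → Bool}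

omit [IsAlgClosed k] in
lemma Rel3_lin_inf {b : Bool} (g : Gp k q b) (P : P2 k) :
    lin g.1 P = pt3 1 0 0 ↔ P = pt3 1 0 0 := by
  refine ⟨fun h => ?_, fun h => by rw [h, lin_inf]⟩
  have h1 : lin (g⁻¹).1 (lin g.1 P) = P := by
    rw [← lin_mul (g⁻¹).2 g.2]
    have : (g⁻¹).1 * g.1 = 1 := congrArg Subtype.val (inv_mul_cancel g)
    rw [this, lin_one]
  rw [← h1, h, lin_inf]

/-- The labels on the first factor. -/
noncomputable def Rel3_lab (d : ℕ) (ρ ω : MulChar (Fq k q) K) (ψ : AddChar (Fq k q) K) :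
    Fin d → Lb k q K := fun i => .ch (ω * ρ ^ (i : ℕ)) 1 ψ

omit [IsAlgClosed k] [CharZero K] [IsAlgClosed K] in
lemma Rel3_lab_ok {d : ℕ} {ρ ω : MulChar (Fq k q) K} (hρ : orderOf ρ = d) (hω : ω ^ d ≠ 1)
    {ψ : AddChar (Fq k q) K} (hψ : ψ ≠ 1) (i : Fin d) : (Rel3_lab d ρ ω ψ i).Ok false := by
  refine ⟨fun h => hω ?_, rfl, hψ⟩
  have hρd : ρ ^ d = 1 := hρ ▸ pow_orderOf_eq_one ρ
  rw [eq_inv_of_mul_eq_one_left h, inv_pow, ← pow_mul, mul_comm, pow_mul, hρd, one_pow, inv_one]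

omit [IsAlgClosed k] [CharZero K] [IsAlgClosed K] in
lemma Rel3_lab_inj {d : ℕ} {ρ ω : MulChar (Fq k q) K} (hρ : orderOf ρ = d)
    (ψ : AddChar (Fq k q) K) : Function.Injective (Rel3_lab d ρ ω ψ) := by
  intro i j h
  have h1 : ω * ρ ^ (i : ℕ) = ω * ρ ^ (j : ℕ) := (Lb.ch.inj h).1
  exact Fin.ext (pow_injOn_Iio_orderOf (hρ ▸ i.2) (hρ ▸ j.2) (mul_left_cancel h1))

omit [IsAlgClosed k] [CharZero K] [IsAlgClosed K] in
lemma Rel3_lab_chr {d : ℕ} (ρ ω : MulChar (Fq k q) K) (ψ : AddChar (Fq k q) K) (i : Fin d)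
    (α : (Fq k q)ˣ) (γ : Fq k q) :
    ((Rel3_lab d ρ ω ψ i).chr false (gD α γ) : K) = (ω * ρ ^ (i : ℕ)) α * ψ γ :=
  ch_gD _ _ _ _ _

omit [IsAlgClosed k] [CharZero K] [IsAlgClosed K] in
lemma Rel3_du_chr (t : Lb k q K) (b : Bool) (g : Gp k q b) :
    (t.du.chr b g : K) = (t.chr b g : K)⁻¹ := by
  rw [Lb.chr_du, MonoidHom.inv_apply, Units.val_inv_eq_inv_val]

namespace Weil

variable (W : Weil.{u, v, w} k K)

/-- The algebraic class given by the correspondence, with its symmetries. -/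
lemma Rel3_comp {d e : ℕ} [NeZero d] (hde : d * e = q - 1) {ρ ω : MulChar (Fq k q) K}
    (hρ : orderOf ρ = d) (hω : ω ^ d ≠ 1) {ψ : AddChar (Fq k q) K} (hψ : ψ ≠ 1) {c : k}
    (hc : (-1) ^ (d - 1) * d * c ^ e = 1) :
    ∃ b₁ ∈ (W.Lin (fun _ : Fin d => false) (Rel3_lab d ρ ω ψ)).1,
    ∃ ζ ∈ W.Alg (Yv k q (Sum.elim (fun _ : Fin d => false) fun _ : Fin d => false)),
      (∀ γ γ' : Mor (Yv k q (Sum.elim (fun _ : Fin d => false) fun _ : Fin d => false))
          (Yv k q (Sum.elim (fun _ : Fin d => false) fun _ : Fin d => false)),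
        (∀ x, γ'.1 (γ.1 x) = x) → (∀ x, γ.1 (γ'.1 x) = x) →
        (∀ x, γ.1 x ∈ hdZ k q d e c ↔ x ∈ hdZ k q d e c) →
        (∀ x i, co (γ.1 x) (.inl i) = pt3 1 0 0 ↔ co x (.inl i) = pt3 1 0 0) →
        ∀ y, W.tr _ (ζ * W.pull γ y) = W.tr _ (ζ * y)) ∧
      ∃ c', W.tr _ (ζ * (W.pull (pL _ _) b₁ * W.pull (pR _ _) c')) ≠ 0 := by
  classical
  have he : 0 < e := Nat.pos_of_mul_pos_left (hde ▸ IsQ.pos k q)
  have hc0 : c ≠ 0 := by
    rintro rfl
    rw [zero_pow he.ne', mul_zero] at hc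
    exact zero_ne_one hc
  have hρd : ρ ^ d = 1 := hρ ▸ pow_orderOf_eq_one ρ
  have hok := Rel3_lab_ok hρ hω hψ
  obtain ⟨b₁, hb₁, b₂, hb₂, hb⟩ := W.exists_pair (τ := fun _ : Fin d => false) hok
  obtain ⟨t, ht⟩ : ∃ t, ψ t ≠ 1 := by
    by_contra h
    push Not at h
    exact hψ (AddChar.ext _ _ fun t => by simpa using h t)
  let act : (Fin d → (Fq k q)ˣ) → (Fin d → Fq k q) →
      Mor (Yv k q fun _ : Fin d => false) (Yv k q fun _ : Fin d => false) :=
    fun α γ => actY fun i => gD (α i) (γ i)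
  have hp₁ : ∀ α γ, W.pull (act α γ) b₁ =
      (∏ i : Fin d, (ω * ρ ^ (i : ℕ)) (α i) * ψ (γ i)) • b₁ := fun α γ => by
    rw [W.actY_Lin _ _ hb₁]
    simp only [Rel3_lab_chr]
  have hp₂ : ∀ α γ, W.pull (act α γ) b₂ =
      (∏ i : Fin d, (ω * ρ ^ (i : ℕ)) (α i) * ψ (γ i))⁻¹ • b₂ := fun α γ => by
    rw [W.actY_Lin _ _ hb₂]
    simp only [Rel3_du_chr, Rel3_lab_chr, Finset.prod_inv_distrib]
  let f : Equiv.Perm (Fin d) × (Fin d → (Fq k q)ˣ) × (Fin d → Fq k q) →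
      Mor (Yv k q fun _ : Fin d => false) (Yv k q fun _ : Fin d => false) :=
    fun p => (act p.2.1 p.2.2).comp (remap p.1 fun _ => rfl)
  obtain ⟨ζ, hζ, h1, h2⟩ := W.composition (τS := fun _ : Fin d => false)
    (τM := fun _ : Fin d => false) rfl (hdZ k q d e c) (isClosed_hdZ he hc0)
    (range fun i : Fin d => (i, pt3 (1 : k) 0 0)) (finite_range _)
    {s | ∃ i, co s i = pt3 1 0 0} (fun s => by simp) b₁ b₂
    (by simpa [Rel3_lab, Lb.deg] using W.Lin_le_gr _ hb₁)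
    (by simpa [Rel3_lab, Lb.deg, Lb.du] using W.Lin_le_gr _ hb₂) hb
    (by
      rintro _ ⟨i, rfl⟩
      have h3 : ∏ l : Fin d, (ω * ρ ^ (l : ℕ)) ((1 : Fin d → (Fq k q)ˣ) l) *
          ψ (Pi.single (M := fun _ => Fq k q) i t l) = ψ t := by
        simp [Rel3_add_sum]
      refine ⟨act 1 (Pi.single i t), actY (fun l => gD 1 (Pi.single (M := fun _ => Fq k q) i t l))⁻¹,
        fun s => actY_inv _ s, fun s hs => Yv_ext fun l => ?_, ψ t, (ψ t)⁻¹, ht,
        inv_ne_one.2 ht, by rw [hp₁, h3], by rw [hp₂, h3]⟩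
      by_cases hl : l = i
      · subst hl
        have hs' : co s l = pt3 1 0 0 := hs
        rw [hs']
        exact (Rel3_lin_inf _ _).2 hs'
      · show lin (gD 1 (Pi.single (M := fun _ => Fq k q) i t l)).1 (co s l) = co s l
        rw [Pi.single_eq_of_ne hl, gD_one]
        exact lin_one _)
    (f '' {p | (∀ i, p.2.1 i ^ e = 1) ∧ ∏ i, p.2.1 i = 1 ∧ ∑ i, p.2.2 i = 0})
    ((Set.toFinite _).image _)
    (by
      intro s s' μ hs hs' h h'
      obtain ⟨σ, α, γ, a1, a2, a3, a4⟩ := hdZ_fib hde (fun i hi => hs ⟨i, hi⟩)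
        (fun i hi => hs' ⟨i, hi⟩) h h'
      exact ⟨f (σ, α, γ), ⟨_, ⟨a1, a2, a3⟩, rfl⟩, Yv_ext a4⟩)
    (by
      rintro _ ⟨⟨σ, α, γ⟩, ⟨a1, a2, a3⟩, rfl⟩
      have h3 : ∏ i : Fin d, (ω * ρ ^ (i : ℕ)) (α i) * ψ (γ i) = 1 := by
        have h4 : ∀ i : Fin d, (ω * ρ ^ (i : ℕ)) (α i) = ω (α i) := fun i => by
          rw [MulChar.mul_apply, MulChar.pow_apply_coe, Rel3_kill hde hρd (a1 i), one_pow, mul_one]
        have a2' : ∏ i, α i = 1 := a2
        have a3' : ∑ i, γ i = 0 := a3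
        simp only [h4]
        rw [Finset.prod_mul_distrib, Rel3_add_sum, a3', AddChar.map_zero_eq_one, mul_one,
          ← map_prod, ← Units.coe_prod, a2', Units.val_one, map_one]
      have h4 : W.pull (f (σ, α, γ)) b₂ = W.pull (remap σ fun _ => rfl) b₂ := by
        rw [← W.pull_pull, hp₂, h3, inv_one, one_smul]
      rw [h4]
      by_cases hσ : σ = 1
      · subst hσ
        exact Or.inr (by rw [W.pull_id _ (funext fun x => Yv_ext fun i => rfl)])
      · refine Or.inl (W.tr_Lin_eq_zero (β' := (fun i => (Rel3_lab d ρ ω ψ i).du) ∘ σ.symm) hok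
          (fun i => (hok _).du) (fun h => hσ ?_) hb₁ ?_)
        · refine Equiv.ext fun i => ?_
          have h5 := congrArg Lb.du (congrFun h (σ i))
          simp only [Function.comp_apply, Equiv.symm_apply_apply, Lb.du_du] at h5
          exact (Rel3_lab_inj hρ ψ h5).symm
        · rw [← W.Lin_equiv (τ' := fun _ : Fin d => false) σ (fun _ => rfl), W.mem_pullS]
          refine ⟨b₂, ?_, rfl⟩
          have h5 : ((fun i => (Rel3_lab d ρ ω ψ i).du) ∘ σ.symm) ∘ σ =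
              fun i => (Rel3_lab d ρ ω ψ i).du := funext fun i => by simp
          rw [h5]
          exact hb₂)
    (fun s _ => hdZ_surj hde hc s)
  refine ⟨b₁, hb₁, ζ, hζ, fun γ γ' a1 a2 a3 a4 => h1 γ γ' a1 a2 a3 fun x => ?_, h2⟩
  exact exists_congr fun i => a4 x i

theorem rel_hd {d e : ℕ} (hd : d.Prime) (hde : d * e = q - 1) {ρ ω : MulChar (Fq k q) K}
    (hρ : orderOf ρ = d) (hω : ω ^ d ≠ 1) {ψ : AddChar (Fq k q) K} (hψ : ψ ≠ 1) :
    W.AlgM ((Multiset.range d).map (fun i => Dl (ω * ρ ^ i)⁻¹ ψ⁻¹) + {Dl (ω ^ d) ψ} +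
      ((Multiset.range d).erase 0).map fun j => Dl (ρ ^ j) ψ) := by
  classical
  have : NeZero d := ⟨hd.ne_zero⟩
  have he : 0 < e := Nat.pos_of_mul_pos_left (hde ▸ IsQ.pos k q)
  have hdk : (d : k) ≠ 0 := fun h => by
    have h1 := IsQ.cast_pred k q
    rw [← hde, Nat.cast_mul, h, zero_mul] at h1
    exact one_ne_zero (neg_eq_zero.1 h1.symm)
  obtain ⟨c, hc'⟩ := IsAlgClosed.exists_pow_nat_eq ((-1 : k) ^ (d - 1) * d)⁻¹ he
  have hc : (-1) ^ (d - 1) * d * c ^ e = 1 := by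
    rw [hc']
    exact mul_inv_cancel₀ (mul_ne_zero (pow_ne_zero _ (neg_ne_zero.2 one_ne_zero)) hdk)
  have hok := Rel3_lab_ok hρ hω hψ
  obtain ⟨b₁, hb₁, ζ, hζ, hinv, c', hc'⟩ := W.Rel3_comp hde hρ hω hψ hc
  obtain ⟨β, hβ, y, hy, hy0⟩ := W.exists_Lin_of_pair hb₁ hc'
  have hok' : ∀ s, (Sum.elim (Rel3_lab d ρ ω ψ) β s).Ok
      (Sum.elim (fun _ : Fin d => false) (fun _ : Fin d => false) s) := by
    rintro (s | s)
    · exact hok s
    · exact hβ s
  have key := Rel3_alg (ω := ω) hde hρ hψ β hβ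
    (by
      intro α α' γ γ' ε a1 a2 a3 a4
      let g : ∀ s, Gp k q (Sum.elim (fun _ : Fin d => false) (fun _ : Fin d => false) s) :=
        fun s => match s with
          | Sum.inl i => gD (α i) (γ i)
          | Sum.inr j => gD (α' j) (γ' j)
      have h1 := hinv (actY g) (actY g⁻¹) (actY_inv g) (actY_inv' g)
        (fun x => hdZ_act hde α α' γ γ' ε a1 a2 a3 a4 (fun _ => rfl) fun _ => rfl)
        (fun x i => Rel3_lin_inf (g (.inl i)) _) y
      rw [W.actY_Lin g _ hy, mul_smul_comm, map_smul, smul_eq_mul] at h1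
      have h2 := mul_right_cancel₀ hy0 (h1.trans (one_mul _).symm)
      rw [Fintype.prod_sum_type] at h2
      rw [← h2]
      congr 1
      exact Finset.prod_congr rfl fun i _ => (Rel3_lab_chr ρ ω ψ i _ _).symm)
    (by
      intro i j hi hj hij hdeg heq
      have hτ : ∀ l, Sum.elim (fun _ : Fin d => false) (fun _ : Fin d => false)
          (Equiv.swap (Sum.inr i) (Sum.inr j) l) =
          Sum.elim (fun _ : Fin d => false) (fun _ : Fin d => false) l := by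
        intro l
        rcases l with l | l <;> rcases Equiv.swap (Sum.inr i) (Sum.inr j) _ with l' | l' <;> rfl
      have hl : ∀ l : Fin d, Equiv.swap (Sum.inr i) (Sum.inr j) (Sum.inl l : Fin d ⊕ Fin d) =
          Sum.inl l := fun l => Equiv.swap_apply_of_ne_of_ne (by simp) (by simp)
      have hss : ∀ x : (Yv k q (Sum.elim (fun _ : Fin d => false) fun _ : Fin d => false)).pts,
          (remap _ hτ).1 ((remap _ hτ).1 x) = x := fun x => Yv_ext fun l => by simp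
      have h1 := hinv (remap _ hτ) (remap _ hτ) hss hss
        (fun x => hdZ_perm (Equiv.swap i j) (Equiv.swap_apply_of_ne_of_ne hi.symm hj.symm)
          (fun l => by rw [co_remap, hl])
          (fun l => by rw [co_remap, Sum.inr_injective.swap_apply]))
        (fun x l => by rw [co_remap, hl]) y
      rw [W.swap_Lin (by simpa using hij) hτ (Sum.elim (Rel3_lab d ρ ω ψ) β) heq hdeg
        (W.V_eq_span (hok' (.inr i))) hy, mul_neg, map_neg] at h1
      exact hy0 (self_eq_neg.1 h1.symm))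
  have h1 := W.algF_of_pair (β := fun s => (Sum.elim (Rel3_lab d ρ ω ψ) β s).du)
    (fun s => (hok' s).du) hζ (by simpa only [Lb.du_du] using hy) hy0
  rw [← W.algM_iff fun s => (hok' s).du] at h1
  rw [add_assoc, ← key, ← Rel3_univ_val, Multiset.map_map]
  rw [← Finset.univ_disjSum_univ, Finset.val_disjSum, Multiset.disjSum, Multiset.map_add,
    Multiset.map_map, Multiset.map_map] at h1
  have h2 : ((fun i => Dl (ω * ρ ^ i)⁻¹ ψ⁻¹) ∘ (Fin.val : Fin d → ℕ)) =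
      (fun s => (Sum.elim (fun _ : Fin d => false) (fun _ : Fin d => false) s,
        (Sum.elim (Rel3_lab d ρ ω ψ) β s).du)) ∘ Sum.inl := by
    funext i
    simp [Rel3_lab, Lb.du, Dl]
  rw [h2]
  exact h1

end Weil

end Pool.Agent.MP_0c8446_ag
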