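import Pool.Agent.MP_0c8446_ag.Mono
import Pool.Agent.MP_0c8446_ag.Comp
import Pool.Agent.MP_0c8446_ag.HdClosed

namespace Pool.Agent.MP_0c8446_ag

open Set

universe u v w

section aux

variable {k : Type u} [Field k] {q : ℕ} [IsQ k q]

/-- The points at infinity of the Fermat curve. -/
lemma r4_fermat_inf {P : P2 k} (hP : P ∈ curve k q true) (h : ¬ IsFin P) :
    ∃ t : k, t ^ (q - 1) = -1 ∧ P = pt3 t 1 0 := by
  have h2 : P.rep 2 = 0 := not_not.1 h
  have h0 := IsQ.pos k q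
  rw [mem_curve, h2] at hP
  simp only [CEq, if_true, zero_pow h0.ne'] at hP
  have h1 : P.rep 1 ≠ 0 := by
    intro h1
    have h3 := vec3_ne_zero.1 (rep_ne_zero P)
    rw [h1, zero_pow h0.ne', add_zero] at hP
    have h4 : P.rep 0 = 0 := pow_eq_zero_iff h0.ne' |>.1 hP
    simp [h1, h2, h4] at h3
  refine ⟨P.rep 0 / P.rep 1, ?_, ?_⟩
  · rw [div_pow, div_eq_iff (pow_ne_zero _ h1)]
    linear_combination hP
  · rw [← pt3_smul h1, mul_div_cancel₀ _ h1, mul_one, mul_zero, ← h2, pt3_rep]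

lemma r4_finite_fermat : {P : P2 k | P ∈ curve k q true ∧ ¬ IsFin P}.Finite := by
  have h0 := IsQ.pos k q
  have hf : {t : k | t ^ (q - 1) = -1}.Finite := by
    refine ((Polynomial.nthRoots (q - 1) (-1 : k)).finite_toSet).subset fun t ht => ?_
    exact (Polynomial.mem_nthRoots h0).2 ht
  refine (hf.image fun t => pt3 t 1 0).subset ?_
  rintro P ⟨hP, h⟩
  obtain ⟨t, ht, rfl⟩ := r4_fermat_inf hP h
  exact ⟨t, ht, rfl⟩

lemma r4_fermat_eq {P : P2 k} (hP : P ∈ curve k q true) (h : IsFin P) :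
    ax P ^ (q - 1) + ay P ^ (q - 1) = 1 := aff_mem_fermat.1 (by rwa [h.eq_aff])

lemma r4_dh_eq {P : P2 k} (hP : P ∈ curve k q false) (h : IsFin P) :
    ay P ^ q - ay P = ax P ^ (q - 1) := aff_mem_dh.1 (by rwa [h.eq_aff])

lemma r4_finite_dh : {P : P2 k | P ∈ curve k q false ∧ (¬ IsFin P ∨ ax P = 0)}.Finite := by
  have h0 := IsQ.pos k q
  have hf : (Fq k q : Set k).Finite := (inferInstance : Finite (Fq k q))
  refine ((hf.image fun t => pt3 0 t 1).insert (pt3 1 0 0)).subset ?_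
  rintro P ⟨hP, h⟩
  by_cases hF : IsFin P
  · have hx : ax P = 0 := h.resolve_left (not_not.2 hF)
    have e := r4_dh_eq hP hF
    rw [hx, zero_pow h0.ne', sub_eq_zero] at e
    exact Or.inr ⟨ay P, e, by rw [← hx]; exact hF.eq_aff⟩
  · exact Or.inl (eq_inf_of_dh hP hF)

/-- A pair of group elements. -/
def r4_g (a : Gp k q true) (b : Gp k q false) : ∀ i : Bool, Gp k q ((fun b : Bool => b) i)
  | true => a
  | false => b

/-- The group elements preserving the correspondence. -/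
def r4_G (α₁ α₂ : (Fq k q)ˣ) (γ₁ γ₂ : Fq k q) :
    ∀ s : Bool ⊕ Bool, Gp k q (Sum.elim (fun b : Bool => b) (fun _ : Bool => false) s)
  | .inl true => gF α₁ α₂
  | .inl false => gD 1 (γ₁ + γ₂)
  | .inr true => gD α₁ γ₁
  | .inr false => gD α₂ γ₂

/-- The boundary points. -/
def r4_A (k : Type u) [Field k] (q : ℕ) : Set (Bool × P2 k) :=
  (fun P => (true, P)) '' {P : P2 k | P ∈ curve k q true ∧ ¬ IsFin P} ∪
    (fun P => (false, P)) '' {P : P2 k | P ∈ curve k q false ∧ (¬ IsFin P ∨ ax P = 0)}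

lemma r4_A_finite : (r4_A k q).Finite := (r4_finite_fermat.image _).union (r4_finite_dh.image _)

lemma r4_fix_fermat (α : (Fq k q)ˣ) {P : P2 k} (hP : P ∈ curve k q true) (h : ¬ IsFin P) :
    lin (gF α α).1 P = P := by
  obtain ⟨t, -, rfl⟩ := r4_fermat_inf hP h
  rw [lin_pt3 _ (by simp), ← pt3_smul (ofFqUnit α).ne_zero t 1 0]
  simp

lemma r4_fix_dh (α : (Fq k q)ˣ) {P : P2 k} (hP : P ∈ curve k q false) (h : ¬ IsFin P ∨ ax P = 0) :
    lin (gD α 0).1 P = P := by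
  by_cases hF : IsFin P
  · have hx : ax P = 0 := h.resolve_left (not_not.2 hF)
    refine IsFin.ext ((isFin_lin _ _).2 hF) hF ?_ ?_
    · rw [ax_lin, hx, mul_zero]
    · rw [ay_lin _ hF]
      simp
  · rw [eq_inf_of_dh hP hF, lin_inf]

variable [IsAlgClosed k]

lemma r4_root (c : k) : ∃ y : k, y ^ q - y = c := by
  have h := IsQ.one_lt (k := k) (q := q)
  have hd : (Polynomial.X ^ q - Polynomial.X - Polynomial.C c : Polynomial k).degree ≠ 0 := by
    have h1 := FiniteField.X_pow_card_sub_X_natDegree_eq k h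
    intro h2
    have h3 := Polynomial.natDegree_eq_zero_iff_degree_le_zero.2 h2.le
    rw [Polynomial.natDegree_sub_C, h1] at h3
    omega
  obtain ⟨y, hy⟩ := IsAlgClosed.exists_root _ hd
  refine ⟨y, ?_⟩
  simpa [sub_eq_zero] using hy

lemma r4_hB (s : (Yv k q fun b : Bool => b).pts) : s ∈ jB k q ↔ ∃ a ∈ r4_A k q, co s a.1 = a.2 := by
  constructor
  · rintro (h | h)
    · exact ⟨(true, co s true), Or.inl ⟨_, ⟨co_mem s true, h⟩, rfl⟩, rfl⟩
    · exact ⟨(false, co s false), Or.inr ⟨_, ⟨co_mem s false, h⟩, rfl⟩, rfl⟩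
  · rintro ⟨_, ⟨P, hP, rfl⟩ | ⟨P, hP, rfl⟩, e⟩
    · exact Or.inl (by rw [show co s true = P from e]; exact hP.2)
    · exact Or.inr (by rw [show co s false = P from e]; exact hP.2)

lemma r4_notB {s : (Yv k q fun b : Bool => b).pts} (h : s ∉ jB k q) :
    IsFin (co s true) ∧ IsFin (co s false) ∧ ax (co s false) ≠ 0 := by
  simpa [jB, not_or] using h

lemma r4_fib {s s' : (Yv k q fun b : Bool => b).pts} {μ : (Yv k q fun _ : Bool => false).pts}
    (hs : s ∉ jB k q) (hs' : s' ∉ jB k q) (h : mkP s μ ∈ jZ k q) (h' : mkP s' μ ∈ jZ k q) :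
    ∃ ζ : (Fq k q)ˣ, s' = (actY (r4_g (gF ζ⁻¹ ζ⁻¹) (gD ζ 0))).1 s := by
  obtain ⟨f1, f2, f3⟩ := r4_notB hs
  obtain ⟨f1', f2', f3'⟩ := r4_notB hs'
  obtain ⟨-, e1, e2, e3⟩ := h.resolve_left hs
  obtain ⟨-, e1', e2', e3'⟩ := h'.resolve_left hs'
  simp only [co_mkP_inl, co_mkP_inr] at e1 e2 e3 e1' e2' e3'
  have d := r4_dh_eq (co_mem s false) f2
  have d' := r4_dh_eq (co_mem s' false) f2'
  have hY : ay (co s' false) = ay (co s false) := e3'.symm.trans e3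
  have hz : (ax (co s' false) / ax (co s false)) ^ (q - 1) = 1 := by
    rw [div_pow, ← d, ← d', hY, div_self]
    rw [d]
    exact pow_ne_zero _ f3
  have hi : ((ofFqUnit (toFqUnit _ hz)⁻¹ : kˣ) : k) = ax (co s false) / ax (co s' false) := by
    rw [map_inv, Units.val_inv_eq_inv_val, ofFqUnit_val, toFqUnit_val, inv_div]
  refine ⟨toFqUnit _ hz, Yv_ext fun i => ?_⟩
  cases i
  · show co s' false = lin (gD (toFqUnit _ hz) 0).1 (co s false)
    refine IsFin.ext f2' ((isFin_lin _ _).2 f2) ?_ ?_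
    · rw [ax_lin]
      simp [div_mul_cancel₀ _ f3]
    · rw [ay_lin _ f2, hY]
      simp
  · show co s' true = lin (gF (toFqUnit _ hz)⁻¹ (toFqUnit _ hz)⁻¹).1 (co s true)
    refine IsFin.ext f1' ((isFin_lin _ _).2 f1) ?_ ?_
    · rw [ax_lin, gF_val, hi]
      field_simp
      linear_combination e1 - e1'
    · rw [ay_lin _ f1, gF_val, hi]
      simp only [toAdd_one, add_zero]
      field_simp
      linear_combination e2 - e2'

lemma r4_surj {s : (Yv k q fun b : Bool => b).pts} (hs : s ∉ jB k q) :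
    ∃ μ : (Yv k q fun _ : Bool => false).pts, mkP s μ ∈ jZ k q := by
  obtain ⟨f1, f2, -⟩ := r4_notB hs
  have d := r4_dh_eq (co_mem s false) f2
  have e := r4_fermat_eq (co_mem s true) f1
  obtain ⟨y, hy⟩ := r4_root (q := q) ((ax (co s false) * ax (co s true)) ^ (q - 1))
  have h2 : (ay (co s false) - y) ^ q - (ay (co s false) - y) =
      (ax (co s false) * ay (co s true)) ^ (q - 1) := by
    rw [IsQ.sub_pow, mul_pow]
    rw [mul_pow] at hy
    linear_combination d - hy - ax (co s false) ^ (q - 1) * e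
  refine ⟨mkY (fun j => bif j then pt3 (ax (co s false) * ax (co s true)) y 1 else
    pt3 (ax (co s false) * ay (co s true)) (ay (co s false) - y) 1) fun j => ?_, Or.inr ?_⟩
  · cases j
    · exact aff_mem_dh.2 h2
    · exact aff_mem_dh.2 hy
  · refine ⟨fun j => ?_, ?_, ?_, ?_⟩
    · cases j <;> simp
    · simp
    · simp
    · simp

lemma r4_inv_B (α₁ α₂ : (Fq k q)ˣ) (γ₁ γ₂ : Fq k q)
    (x : (Yv k q (Sum.elim (fun b : Bool => b) fun _ : Bool => false)).pts) :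
    (pL _ _).1 ((actY (r4_G α₁ α₂ γ₁ γ₂)).1 x) ∈ jB k q ↔ (pL _ _).1 x ∈ jB k q := by
  simp [jB, r4_G]

lemma r4_inv_Z (α₁ α₂ : (Fq k q)ˣ) (γ₁ γ₂ : Fq k q)
    (x : (Yv k q (Sum.elim (fun b : Bool => b) fun _ : Bool => false)).pts) :
    (actY (r4_G α₁ α₂ γ₁ γ₂)).1 x ∈ jZ k q ↔ x ∈ jZ k q := by
  by_cases hB : (pL _ _).1 x ∈ jB k q
  · exact iff_of_true (Or.inl ((r4_inv_B _ _ _ _ x).2 hB)) (Or.inl hB)
  · obtain ⟨f1, f2, -⟩ := r4_notB hB
    simp only [co_pL] at f1 f2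
    refine or_congr (r4_inv_B _ _ _ _ x) ?_
    simp only [co_actY, isFin_lin]
    refine and_congr_right fun hf => ?_
    rw [ax_lin, ax_lin, ax_lin, ax_lin, ay_lin _ f1, ay_lin _ f2, ay_lin _ (hf true),
      ay_lin _ (hf false)]
    have h1 := (ofFqUnit α₁).ne_zero
    have h2 := (ofFqUnit α₂).ne_zero
    simp only [r4_G, gD_val, gF_val, map_one, Units.val_one, one_mul, toAdd_one, add_zero,
      toAdd_ofAdd]
    refine and_congr ?_ (and_congr ?_ ?_)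
    · rw [mul_left_comm, mul_right_inj' h1]
    · rw [mul_left_comm, mul_right_inj' h2]
    · push_cast
      constructor <;> intro h <;> linear_combination h

end aux

variable {k : Type u} [Field k] [IsAlgClosed k] {q : ℕ} [IsQ k q] {K : Type v} [Field K]
  [CharZero K] [IsAlgClosed K] {ι ι' ι₁ ι₂ : Type} [Fintype ι] [Fintype ι'] [Fintype ι₁] [Fintype ι₂]
  {τ : ι → Bool} {τ' : ι' → Bool} {τ₁ : ι₁ → Bool} {τ₂ : ι₂ → Bool}

namespace Weil

variable (W : Weil.{u, v, w} k K)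

theorem rel_jacobi {ω₁ ω₂ : MulChar (Fq k q) K} {ψ : AddChar (Fq k q) K} (h₁ : ω₁ ≠ 1)
    (h₂ : ω₂ ≠ 1) (h : ω₁ * ω₂ ≠ 1) (hψ : ψ ≠ 1) :
    W.AlgM {Fl ω₁⁻¹ ω₂⁻¹, Dl (ω₁ * ω₂)⁻¹ ψ⁻¹, Dl ω₁ ψ, Dl ω₂ ψ} := by
  let β₁ : Bool → Lb k q K := fun b => bif b then .ch ω₁ ω₂ 1 else .ch (ω₁ * ω₂) 1 ψ
  have hβ₁ : ∀ i, (β₁ i).Ok ((fun b : Bool => b) i) := by
    rintro (_ | _)
    · exact ⟨h, rfl, hψ⟩
    · exact ⟨h₁, h₂, h, rfl⟩
  obtain ⟨b₁, hb₁, b₂, hb₂, hb⟩ := W.exists_pair hβ₁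
  obtain ⟨α, hα⟩ := MulChar.ne_one_iff.1 h
  have hα' : (ω₁ * ω₂)⁻¹ α ≠ 1 := by rwa [MulChar.inv_apply_eq_inv', inv_ne_one]
  have c₁ : ∀ (a a' z : (Fq k q)ˣ), W.pull (actY (r4_g (gF a a') (gD z 0))) b₁ =
      (ω₁ a * ω₂ a' * (ω₁ * ω₂) z) • b₁ := fun a a' z => by
    rw [W.actY_Lin _ _ hb₁, Fintype.prod_bool]
    simp [β₁, Lb.chr, r4_g]
  have c₂ : ∀ (a a' z : (Fq k q)ˣ), W.pull (actY (r4_g (gF a a') (gD z 0))) b₂ =
      (ω₁⁻¹ a * ω₂⁻¹ a' * (ω₁ * ω₂)⁻¹ z) • b₂ := fun a a' z => by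
    rw [W.actY_Lin _ _ hb₂, Fintype.prod_bool]
    simp [β₁, Lb.chr, Lb.du, r4_g]
  obtain ⟨ζ, hζ, hinv, c, hc⟩ := W.composition (τS := fun b : Bool => b)
    (τM := fun _ : Bool => false) rfl (jZ k q) isClosed_jZ (r4_A k q) r4_A_finite (jB k q) r4_hB
    b₁ b₂ (by simpa [β₁, Lb.deg] using W.Lin_le_gr _ hb₁)
    (by simpa [β₁, Lb.deg, Lb.du] using W.Lin_le_gr _ hb₂) hb
    (by
      rintro _ (⟨P, hP, rfl⟩ | ⟨P, hP, rfl⟩)
      · refine ⟨actY (r4_g (gF α α) (gD 1 0)), _, actY_inv _, fun s e => Yv_ext fun i => ?_,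
          _, _, ?_, ?_, c₁ _ _ _, c₂ _ _ _⟩
        · cases i
          · show lin (gD 1 0).1 (co s false) = co s false
            rw [gD_one]
            exact lin_one _
          · show lin (gF α α).1 (co s true) = co s true
            rw [show co s true = P from e]
            exact r4_fix_fermat α hP.1 hP.2
        · simpa using hα
        · rw [mul_inv, MulChar.mul_apply] at hα'
          simpa using hα'
      · refine ⟨actY (r4_g (gF 1 1) (gD α 0)), _, actY_inv _, fun s e => Yv_ext fun i => ?_,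
          _, _, ?_, ?_, c₁ _ _ _, c₂ _ _ _⟩
        · cases i
          · show lin (gD α 0).1 (co s false) = co s false
            rw [show co s false = P from e]
            exact r4_fix_dh α hP.1 hP.2
          · show lin (gF 1 1).1 (co s true) = co s true
            rw [gF_one]
            exact lin_one _
        · simpa using hα
        · simpa using hα')
    (range fun z : (Fq k q)ˣ => actY (r4_g (gF z⁻¹ z⁻¹) (gD z 0))) (finite_range _)
    (fun s s' μ hs hs' e e' => by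
      obtain ⟨z, hz⟩ := r4_fib hs hs' e e'
      exact ⟨_, ⟨z, rfl⟩, hz⟩)
    (by
      rintro _ ⟨z, rfl⟩
      refine Or.inr ?_
      have e : ω₁⁻¹ ((z⁻¹ : (Fq k q)ˣ) : Fq k q) * ω₂⁻¹ ((z⁻¹ : (Fq k q)ˣ) : Fq k q) *
          (ω₁ * ω₂)⁻¹ z = 1 := by
        rw [← MulChar.mul_apply, ← mul_inv, ← map_mul, Units.inv_mul, map_one]
      rw [c₂, e, one_smul])
    (fun s hs => r4_surj hs)
  obtain ⟨β₂, hβ₂, y, hy, hne⟩ := W.exists_Lin_of_pair hb₁ hc
  have key : ∀ (α₁ α₂ : (Fq k q)ˣ) (γ₁ γ₂ : Fq k q), ω₁ α₁ * ω₂ α₂ * ψ (γ₁ + γ₂) *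
      (((β₂ true).chr false (gD α₁ γ₁) : K) * (β₂ false).chr false (gD α₂ γ₂)) = 1 := by
    intro α₁ α₂ γ₁ γ₂
    have e := hinv (actY (r4_G α₁ α₂ γ₁ γ₂)) _ (actY_inv _) (actY_inv' _) (r4_inv_Z _ _ _ _)
      (r4_inv_B _ _ _ _) y
    rw [W.actY_Lin _ _ hy, mul_smul_comm, map_smul, smul_eq_mul, mul_eq_right₀ hne,
      Fintype.prod_sum_type, Fintype.prod_bool, Fintype.prod_bool] at e
    have e' : ((ch true ω₁ ω₂ 1 (gF α₁ α₂) : K) * ch false (ω₁ * ω₂) 1 ψ (gD 1 (γ₁ + γ₂))) *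
      (((β₂ true).chr false (gD α₁ γ₁) : K) * (β₂ false).chr false (gD α₂ γ₂)) = 1 := e
    rwa [ch_gF, ch_gD, Units.val_one, map_one, one_mul] at e'
  have e₁ : β₂ true = .ch ω₁⁻¹ 1 ψ⁻¹ := by
    refine Lb.eq_ch_of_chr (b := false) (hβ₂ true) ⟨inv_ne_one.2 h₁, rfl, inv_ne_one.2 hψ⟩
      (chD_ext fun a g => ?_)
    have e := key a 1 g 0
    rw [gD_one, map_one, Units.val_one, Units.val_one, map_one, mul_one, mul_one, add_zero] at e
    rw [ch_gD, MulChar.inv_apply_eq_inv', AddChar.inv_apply, AddChar.map_neg_eq_inv, ← mul_inv]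
    exact eq_inv_of_mul_eq_one_right e
  have e₂ : β₂ false = .ch ω₂⁻¹ 1 ψ⁻¹ := by
    refine Lb.eq_ch_of_chr (b := false) (hβ₂ false) ⟨inv_ne_one.2 h₂, rfl, inv_ne_one.2 hψ⟩
      (chD_ext fun a g => ?_)
    have e := key 1 a 0 g
    rw [gD_one, map_one, Units.val_one, Units.val_one, map_one, one_mul, one_mul, zero_add] at e
    rw [ch_gD, MulChar.inv_apply_eq_inv', AddChar.inv_apply, AddChar.map_neg_eq_inv, ← mul_inv]
    exact eq_inv_of_mul_eq_one_right e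
  have hOk : ∀ s, ((fun s => (Sum.elim β₁ β₂ s).du) s).Ok
      (Sum.elim (fun b : Bool => b) (fun _ : Bool => false) s) := by
    rintro (s | s)
    · exact (hβ₁ s).du
    · exact (hβ₂ s).du
  have hF := W.algF_of_pair hOk hζ (by simpa only [Lb.du_du] using hy) hne
  have hM := (W.algM_iff hOk).2 hF
  convert hM using 1
  have eu : (Finset.univ : Finset (Bool ⊕ Bool)).val =
      {Sum.inl true, Sum.inl false, Sum.inr true, Sum.inr false} := by decide
  rw [eu]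
  simp [β₁, e₁, e₂, Lb.du, Fl, Dl]

end Weil

end Pool.Agent.MP_0c8446_ag
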