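import Pool.Agent.MP_0c8446_ag.MainA
import Pool.Agent.MP_0c8446_ag.Rel12
import Pool.Agent.MP_0c8446_ag.Rel3
import Pool.Agent.MP_0c8446_ag.Rel4

namespace Pool.Agent.MP_0c8446_ag

open Set

universe u v w

variable {k : Type u} [Field k] [IsAlgClosed k] {K : Type v} [Field K] [CharZero K]

namespace Weil

variable (W : Weil.{u, v, w} k K)

theorem algF_dual [IsAlgClosed K] {p f q : ℕ} [Fact p.Prime] [IsQ k p] [IsQ k q] (hf : 0 < f)
    (hq : q = p ^ f) (hk : ∀ x : k, ∃ r, 0 < r ∧ x ^ q ^ r = x) {ι : Type} [Fintype ι]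
    {τ : ι → Bool} {β : ι → Lb k q K} (hβ : ∀ i, (β i).Ok (τ i)) (h : W.AlgF τ β) :
    W.AlgF τ fun i => (β i).du := by
  obtain ⟨B, hB1, hB2⟩ := dual_of_rel duT duT_duT (W.AlgM (q := q)) W.algM_zero
    (fun _ _ => W.algM_add) fun _ _ => W.algM_contr
  let c : Bool × Lb k q K → FreeAbelianGroup (Bool × Lb k q K) ⧸ B :=
    fun t => QuotientAddGroup.mk' B (FreeAbelianGroup.of t)
  have hc : ∀ M : Multiset (Bool × Lb k q K), (M.map c).sum =
      QuotientAddGroup.mk' B (M.map FreeAbelianGroup.of).sum := fun M => by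
    rw [map_multiset_sum, Multiset.map_map]
    rfl
  have hz : ∀ M, W.AlgM M → W.AlgM (M.map duT) → (M.map c).sum = 0 := fun M h1 h2 => by
    rw [hc]
    exact (QuotientAddGroup.eq_zero_iff _).2 (hB1 M h1 h2)
  obtain ⟨a, ha, b, hb, hab⟩ := W.exists_pair hβ
  obtain ⟨R, n, hR, hn⟩ := W.frob_nat hk (h ha) hab (W.frobY_Lin (fun i => (hβ i).du) hb)
  obtain ⟨N, hN, h0⟩ := mainA hf hq c
    (fun b => by simpa using hz _ (W.algM_one b) (W.algM_pt b))
    (fun b => by simpa using hz _ (W.algM_pt b) (W.algM_one b))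
    (fun ω ψ ψ' h1 h2 h3 => by
      simpa using hz _ (W.rel_shift h1 h2 h3) (by
        simpa using W.rel_shift (inv_ne_one.2 h1) (inv_ne_one.2 h2) (inv_ne_one.2 h3)))
    (fun ω ψ h1 h2 => ⟨((W.rel_frob p h1 h2 h2).1 (Dl (ω ^ p) ψ) (by simp)).1, by
      simpa using hz _ (W.rel_frob p h1 h2 h2) (by
        simpa using W.rel_frob p (inv_ne_one.2 h1) (inv_ne_one.2 h2) (inv_ne_one.2 h2))⟩)
    (fun ω₁ ω₂ ψ h1 h2 h3 h4 => by
      simpa [add_assoc] using hz _ (W.rel_jacobi h1 h2 h3 h4) (by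
        simpa [mul_comm] using W.rel_jacobi (inv_ne_one.2 h1) (inv_ne_one.2 h2)
          (by rw [← mul_inv]; exact inv_ne_one.2 h3) (inv_ne_one.2 h4)))
    (fun d e ρ ω ψ h1 h2 h3 h4 h5 => by
      have h6 := hz _ (W.rel_hd h1 h2 h3 h4 h5) (by
        simpa [mul_comm] using W.rel_hd (ρ := ρ⁻¹) (ω := ω⁻¹) h1 h2 (by simpa using h3)
          (by simpa using h4) (inv_ne_one.2 h5))
      simp only [Multiset.map_add, Multiset.sum_add, Multiset.map_map, Multiset.map_singleton,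
        Multiset.sum_singleton] at h6
      rw [Finset.sum_eq_multiset_sum, Finset.sum_eq_multiset_sum, Finset.erase_val,
        Finset.range_val]
      exact h6)
    τ (fun i => (β i).du) (fun i => (hβ i).du) hR hn
  have h1 : ∀ i, c (τ i, (β i).du) = -c (τ i, β i) := fun i => by
    have := hz _ (W.algM_diag (t := (τ i, β i)) (hβ i)) (by
      simpa using W.algM_diag (t := duT (τ i, β i)) (hβ i).du)
    simp only [Multiset.insert_eq_cons, Multiset.map_cons, Multiset.map_singleton,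
      Multiset.sum_cons, Multiset.sum_singleton] at this
    exact eq_neg_of_add_eq_zero_right this
  simp only [h1, Finset.sum_neg_distrib, smul_neg, neg_eq_zero] at h0
  have h2 := hB2 _ N hN ((W.algM_iff hβ).2 h) (by
    rw [← QuotientAddGroup.eq_zero_iff, ← QuotientAddGroup.mk'_apply, map_nsmul, ← hc,
      Multiset.map_map]
    exact h0)
  rw [Multiset.map_map] at h2
  exact (W.algM_iff fun i => (hβ i).du).1 h2

theorem eq_zero_Yv [IsAlgClosed K] {p f q : ℕ} [Fact p.Prime] [IsQ k p] [IsQ k q] (hf : 0 < f)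
    (hq : q = p ^ f) (hk : ∀ x : k, ∃ r, 0 < r ∧ x ^ q ^ r = x) {ι : Type} [Fintype ι]
    {τ : ι → Bool} {a : W.H (Yv k q τ)} (ha : a ∈ W.Alg _)
    (h : ∀ z ∈ W.Alg _, W.tr _ (a * z) = 0) : a = 0 := by
  obtain ⟨s, c, hs, rfl⟩ := W.exists_decomp a
  refine Finset.sum_eq_zero fun β hβ => ?_
  by_contra h0
  obtain ⟨hok, hc⟩ := hs β hβ
  have h1 : W.AlgF τ β := by
    obtain ⟨u, hu⟩ := W.Lin_eq_span hok
    have h2 := W.mem_Alg_of_sum s c hs ha β hβ
    rw [AlgF, hu, Submodule.span_singleton_le_iff_mem]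
    rw [hu, Submodule.mem_span_singleton] at hc
    obtain ⟨x, hx⟩ := hc
    have hx0 : x ≠ 0 := by rintro rfl; exact h0 (by simp [← hx])
    rwa [← hx, Submodule.smul_mem_iff _ hx0] at h2
  obtain ⟨b, hb, h2⟩ := W.tr_ne_zero_of_Lin hok hc h0
  have h3 := h b (W.algF_dual hf hq hk hok h1 hb)
  rw [Finset.sum_mul, map_sum, Finset.sum_eq_single β] at h3
  · exact h2 h3
  · intro β' hβ' hne
    refine W.tr_Lin_eq_zero (hs β' hβ').1 (fun i => (hok i).du) (fun e => hne ?_) (hs β' hβ').2 hb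
    funext i
    simpa using (congrArg Lb.du (congrFun e i)).symm
  · exact fun h4 => absurd hβ h4

omit [IsAlgClosed k] [CharZero K] in
lemma cycleClass_mem {X : Var k} {j : ℕ} {α : Set X.pts →₀ ℚ} (hα : IsCycle j α) :
    W.cycleClass α ∈ W.Alg X ∧ W.cycleClass α ∈ W.gr X (2 * j) := by
  refine ⟨Submodule.sum_mem _ fun Z hZ => Submodule.smul_mem _ _ (W.cl_mem_Alg (hα Z hZ).1),
    Submodule.sum_mem _ fun Z hZ => Submodule.smul_mem _ _ ?_⟩
  have := W.cl_gr X Z (hα Z hZ).1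
  rwa [← (hα Z hZ).2, Nat.add_sub_cancel_left] at this

omit [CharZero K] in
lemma tr_cycleClass {X : Var k} {j : ℕ} {α : Set X.pts →₀ ℚ} (hα : IsCycle j α)
    (hnum : ∀ β, IsCycle (X.d - j) β → W.tr X (W.cycleClass α * W.cycleClass β) = 0)
    {Z : Set X.pts} (hZ : IsSub Z) : W.tr X (W.cl X Z * W.cycleClass α) = 0 := by
  by_cases hd : dim Z = j
  · have := hnum (Finsupp.single Z 1) fun Z' hZ' => by
      obtain rfl : Z' = Z := Finset.mem_singleton.1 (Finsupp.support_single_subset hZ')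
      have := X.dim_le Z'
      exact ⟨hZ, by omega⟩
    rw [W.cl_comm hZ]
    simpa [cycleClass, Finsupp.sum_single_index] using this
  · exact W.tr_cl_mul_gr hZ (W.cycleClass_mem hα).2 (by omega)

end Weil

omit [IsAlgClosed k] in
lemma main_iter {x : k} {e : ℕ} (hx : x ^ e = x) (f : ℕ) : x ^ e ^ f = x := by
  induction f with
  | zero => simp
  | succ f ih => rw [pow_succ, pow_mul, ih, hx]

end Pool.Agent.MP_0c8446_ag
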