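import Pool.Agent.MP_0c8446_ag.CIrr

namespace Pool.Agent.MP_0c8446_ag

open scoped LinearAlgebra.Projectivization
open MvPolynomial Set

universe u v w

section aux
variable {k : Type u} [Field k] {ι : Type}

/-- The projection to one factor. -/
def cprodProj (i : ι) (x : MP k fun _ : ι => 2) : MP k fun _ : Unit => 2 := fun _ => x i

lemma cprod_isMor_proj (i : ι) (S : Set (MP k fun _ : ι => 2)) :
    IsMor fun x : S => (⟨cprodProj i x.1, mem_univ _⟩ : (univ : Set (MP k fun _ : Unit => 2))) :=
  isMor_of_global (fun a => X ⟨i, a.2⟩) fun y v hv _ => by simpa [cprodProj] using hv i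

lemma cprod_continuous_proj (i : ι) : Continuous (cprodProj (k := k) i) :=
  continuous_subtype_val.comp ((cprod_isMor_proj i univ).continuous.comp
    (continuous_id.subtype_mk fun x => mem_univ x))

variable [DecidableEq ι] {q : ℕ} {τ : ι → Bool}

/-- Replace the `i`-th coordinate. -/
def cprodUpd (i : ι) (a : curves k q fun _ : Unit => τ i) (x : curves k q τ) : curves k q τ :=
  ⟨Function.update x.1 i (a.1 ()), fun j => by
    by_cases h : j = i
    · subst h
      simpa using a.2 ()
    · simpa [Function.update_of_ne h] using x.2 j⟩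

lemma cprod_upd_self (i : ι) (a : curves k q fun _ : Unit => τ i) (x : curves k q τ) :
    (cprodUpd i a x).1 i = a.1 () := by simp [cprodUpd]

lemma cprod_upd_ne {i j : ι} (h : j ≠ i) (a : curves k q fun _ : Unit => τ i) (x : curves k q τ) :
    (cprodUpd i a x).1 j = x.1 j := by simp [cprodUpd, Function.update_of_ne h]

lemma cprod_continuous_right (i : ι) (a : curves k q fun _ : Unit => τ i) :
    Continuous (cprodUpd i a) := by
  refine IsMor.continuous (isMor_of_global
    (fun s => if s.1 = i then C (a.1.rep ⟨(), s.2⟩) else X s) fun y v hv j => ?_)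
  by_cases h : j = i
  · subst h
    rw [cprod_upd_self]
    simpa using isRep_rep a.1 ()
  · rw [cprod_upd_ne h]
    simpa [h] using hv j

lemma cprod_continuous_left (i : ι) (x : curves k q τ) :
    Continuous fun a : curves k q fun _ : Unit => τ i => cprodUpd i a x := by
  refine IsMor.continuous (isMor_of_global
    (fun s => if s.1 = i then X ⟨(), s.2⟩ else C (x.1.rep s)) fun y v hv j => ?_)
  by_cases h : j = i
  · subst h
    rw [cprod_upd_self]
    simpa using hv ()
  · rw [cprod_upd_ne h]
    simpa [h] using isRep_rep x.1 j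

omit [DecidableEq ι] in
/-- The points that agree with `x₀` outside `J`. -/
def cprodSlice (x₀ : curves k q τ) (J : Finset ι) : Set (curves k q τ) :=
  {x | ∀ i, i ∉ J → x.1 i = x₀.1 i}

omit [DecidableEq ι] in
lemma cprod_isClosed_slice (x₀ : curves k q τ) (J : Finset ι) : IsClosed (cprodSlice x₀ J) := by
  simp only [cprodSlice, ofPred_forall]
  refine isClosed_iInter fun i => isClosed_iInter fun _ => ?_
  have := isClosed_eq_mor (cprod_isMor_proj i (curves k q τ))
    (isMor_const (⟨cprodProj i x₀.1, mem_univ _⟩ : (univ : Set (MP k fun _ : Unit => 2))))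
  convert this using 1
  ext x
  simp only [mem_ofPred_eq, Subtype.mk.injEq]
  exact ⟨fun h => funext fun _ => h, fun h => congrFun h ()⟩

omit [DecidableEq ι] in
lemma cprod_slice_empty (x₀ : curves k q τ) : cprodSlice x₀ ∅ = {x₀} := by
  ext x
  simp only [cprodSlice, Finset.notMem_empty, not_false_eq_true, forall_const, mem_ofPred_eq,
    mem_singleton_iff]
  exact ⟨fun h => Subtype.ext (funext h), fun h _ => h ▸ rfl⟩

lemma cprod_slice_insert (x₀ : curves k q τ) {J : Finset ι} {i : ι} (hi : i ∉ J) :
    cprodSlice x₀ (insert i J) = image2 (cprodUpd i) univ (cprodSlice x₀ J) := by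
  ext x
  constructor
  · intro hx
    refine ⟨⟨cprodProj i x.1, fun _ => x.2 i⟩, mem_univ _,
      cprodUpd i ⟨cprodProj i x₀.1, fun _ => x₀.2 i⟩ x, fun j hj => ?_, Subtype.ext ?_⟩
    · by_cases h : j = i
      · subst h
        exact cprod_upd_self _ _ _
      · rw [cprod_upd_ne h]
        exact hx j (by simp [h, hj])
    · funext j
      by_cases h : j = i
      · subst h
        exact cprod_upd_self _ _ _
      · rw [cprod_upd_ne h, cprod_upd_ne h]
  · rintro ⟨a, -, y, hy, rfl⟩ j hj
    rw [Finset.mem_insert, not_or] at hj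
    rw [cprod_upd_ne hj.1]
    exact hy j hj.2

end aux

variable {k : Type u} [Field k] [IsAlgClosed k] (q : ℕ) [IsQ k q]

lemma cprod_chain {ι : Type} {τ : ι → Bool} (x₀ : curves k q τ) (J : Finset ι) :
    IsSub (cprodSlice x₀ J) ∧ HasChain (cprodSlice x₀ J) J.card := by
  classical
  induction J using Finset.induction_on with
  | empty =>
    rw [cprod_slice_empty]
    exact ⟨isSub_singleton x₀, (isSub_singleton x₀).hasChain_zero subset_rfl⟩
  | @insert i J hi ih =>
    have h1 : IsSub (cprodSlice x₀ (insert i J)) := by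
      refine ⟨?_, cprod_isClosed_slice _ _⟩
      rw [cprod_slice_insert x₀ hi]
      have := Subtype.irreducibleSpace (isSub_curve (k := k) q (τ i)).1
      exact isIrreducible_image2 (cprod_continuous_right i) (cprod_continuous_left i)
        (IrreducibleSpace.isIrreducible_univ _) ih.1.1
    refine ⟨h1, ?_⟩
    rw [Finset.card_insert_of_notMem hi]
    refine ih.2.succ ⟨fun x hx j hj => hx j fun h => hj (Finset.mem_insert_of_mem h), fun h => ?_⟩ h1
    obtain ⟨P, hP, hne⟩ := (infinite_curve (k := k) q (τ i)).exists_notMem_finset {x₀.1 i}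
    have h2 : cprodUpd i ⟨fun _ => P, fun _ => hP⟩ x₀ ∈ cprodSlice x₀ (insert i J) := fun j hj =>
      cprod_upd_ne (fun e => hj (Finset.mem_insert.2 (Or.inl e))) _ _
    have h3 := h h2 i hi
    rw [cprod_upd_self] at h3
    exact hne (Finset.mem_singleton.2 h3)

lemma cprod_univ {ι : Type} [Fintype ι] (τ : ι → Bool) :
    IsSub (univ : Set (curves k q τ)) ∧ HasChain (univ : Set (curves k q τ)) (Fintype.card ι) := by
  choose P hP using fun i => (infinite_curve (k := k) q (τ i)).nonempty
  have := cprod_chain q (⟨P, hP⟩ : curves k q τ) Finset.univ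
  rwa [show cprodSlice (⟨P, hP⟩ : curves k q τ) Finset.univ = univ from
    eq_univ_of_forall fun x i hi => absurd (Finset.mem_univ i) hi] at this

theorem isSub_curves {ι : Type} [Fintype ι] (τ : ι → Bool) : IsSub (curves k q τ) := by
  refine ⟨?_, ?_⟩
  · have := (cprod_univ (k := k) q τ).1.1.image _ continuous_subtype_val.continuousOn
    rwa [image_univ, Subtype.range_coe] at this
  · have e : curves k q τ = ⋂ i, cprodProj i ⁻¹' curves k q fun _ : Unit => τ i := by
      ext x
      simp only [mem_iInter, mem_preimage]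
      exact ⟨fun h i _ => h i, fun h i => h i ()⟩
    rw [e]
    exact isClosed_iInter fun i => (isSub_curve q (τ i)).2.preimage (cprod_continuous_proj i)

theorem le_dim_curves {ι : Type} [Fintype ι] (τ : ι → Bool) :
    Fintype.card ι ≤ dim (univ : Set (curves k q τ)) :=
  (cprod_univ q τ).2.le_dim

end Pool.Agent.MP_0c8446_ag
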