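import Pool.Agent.MP_0c8446_ag.Geo2

namespace Pool.Agent.MP_0c8446_ag

open Set

universe u v w

variable {k : Type u} [Field k] [IsAlgClosed k] {q : ℕ} [IsQ k q] {K : Type v} [Field K]
  [CharZero K] {ιS ιM : Type} [Fintype ιS] [Fintype ιM] {τS : ιS → Bool} {τM : ιM → Bool}

omit [IsAlgClosed k] in
lemma Weil.comp_fix (W : Weil.{u, v, w} k K) {X : Var k} (G G' : Mor X X)
    (h : ∀ x, G'.1 (G.1 x) = x) {C : Set X.pts} (hC : IsSub C) (hfix : ∀ x ∈ C, G.1 x = x)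
    {y : W.H X} {c : K} (hc : c ≠ 1) (hy : W.pull G y = c • y) : W.tr X (W.cl X C * y) = 0 := by
  have h1 := W.push_retr G G' h hC y
  have e : G.1 '' C = C := by
    ext x
    constructor
    · rintro ⟨z, hz, rfl⟩
      rw [hfix z hz]
      exact hz
    · exact fun hx => ⟨x, hx, hfix x hx⟩
  rw [e, hy, mul_smul_comm, map_smul, smul_eq_mul] at h1
  have h2 : (c - 1) * W.tr X (W.cl X C * y) = 0 := by rw [sub_mul, h1, one_mul, sub_self]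
  exact (mul_eq_zero.1 h2).resolve_left (sub_ne_zero.2 hc)

omit [CharZero K] in
lemma comp_sum {α : Type*} (s : Finset α) (f : α → K) (p : α → Prop) (t : K)
    (h : ∀ i ∈ s, ∃ n : ℕ, f i = n * t ∧ (p i → 0 < n)) :
    ∃ n : ℕ, ∑ i ∈ s, f i = n * t ∧ ((∃ i ∈ s, p i) → 0 < n) := by
  choose! n h1 h2 using h
  refine ⟨∑ i ∈ s, n i, ?_, fun ⟨i, hi, hp⟩ => ?_⟩
  · rw [Nat.cast_sum, Finset.sum_mul]
    exact Finset.sum_congr rfl h1
  · exact lt_of_lt_of_le (h2 i hi hp) (Finset.single_le_sum (fun _ _ => Nat.zero_le _) hi)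

lemma comp_mkP_eta {ι₁ ι₂ : Type} [Fintype ι₁] [Fintype ι₂] {τ₁ : ι₁ → Bool} {τ₂ : ι₂ → Bool}
    (x : (Yv k q (Sum.elim τ₁ τ₂)).pts) : mkP ((pL τ₁ τ₂).1 x) ((pR τ₁ τ₂).1 x) = x :=
  sum_ext rfl rfl

lemma comp_closed_B {A : Set (ιS × P2 k)} (hA : A.Finite) {B : Set (Yv k q τS).pts}
    (hB : ∀ s, s ∈ B ↔ ∃ a ∈ A, co s a.1 = a.2) : IsClosed B := by
  have e : B = ⋃ a ∈ A, {s | co s a.1 = a.2} := by
    ext s
    simp [hB]
  rw [e]
  exact hA.isClosed_biUnion fun a _ => isClosed_co_const a.1 a.2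

lemma comp_B_ne {A : Set (ιS × P2 k)} (hA : A.Finite) {B : Set (Yv k q τS).pts}
    (hB : ∀ s, s ∈ B ↔ ∃ a ∈ A, co s a.1 = a.2) : ¬ univ ⊆ B := by
  intro h
  obtain ⟨a, -, ha⟩ := (Var.isSub_univ (Yv k q τS)).subset_of_finite hA
    (F := fun a => {s | co s a.1 = a.2}) (fun a _ => isClosed_co_const a.1 a.2) fun s hs => by
      obtain ⟨a, ha, e⟩ := (hB s).1 (h hs)
      exact mem_iUnion₂.2 ⟨a, ha, e⟩
  refine infinite_co_of_open (k := k) (q := q) (τ := τS) isOpen_univ univ_nonempty a.1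
    ((finite_singleton a.2).subset ?_)
  rintro _ ⟨s, hs, rfl⟩
  exact ha hs

lemma comp_fib_finite {Z : Set (Yv k q (Sum.elim τS τM)).pts} {B : Set (Yv k q τS).pts}
    {Γ : Set (Mor (Yv k q τS) (Yv k q τS))} (hΓ : Γ.Finite)
    (hfib : ∀ s s' μ, s ∉ B → s' ∉ B → mkP s μ ∈ Z → mkP s' μ ∈ Z → ∃ γ ∈ Γ, s' = γ.1 s)
    (μ : (Yv k q τM).pts) :
    {y | y ∈ Z ∧ (pL τS τM).1 y ∉ B ∧ (pR τS τM).1 y = μ}.Finite := by
  rcases {y | y ∈ Z ∧ (pL τS τM).1 y ∉ B ∧ (pR τS τM).1 y = μ}.eq_empty_or_nonempty with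
    h | ⟨y₀, h1, h2, h3⟩
  · rw [h]
    exact finite_empty
  · refine (hΓ.image fun γ => mkP (γ.1 ((pL τS τM).1 y₀)) μ).subset ?_
    rintro y ⟨h4, h5, h6⟩
    obtain ⟨γ, hγ, e⟩ := hfib _ _ μ h2 h5 (by rw [← h3, comp_mkP_eta]; exact h1)
      (by rw [← h6, comp_mkP_eta]; exact h4)
    exact ⟨γ, hγ, sum_ext e.symm h6.symm⟩

lemma Weil.comp_ub1 (W : Weil.{u, v, w} k K) {Z : Set (Yv k q (Sum.elim τS τM)).pts}
    {B : Set (Yv k q τS).pts} (hB : IsClosed B)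
    (hf : ∀ μ, {y | y ∈ Z ∧ (pL τS τM).1 y ∉ B ∧ (pR τS τM).1 y = μ}.Finite)
    {C : Set (Yv k q (Sum.elim τS τM)).pts} (hC : IsSub C) (hCZ : C ⊆ Z)
    (hCB : ¬ C ⊆ (pL τS τM).1 ⁻¹' B) : dim C ≤ Fintype.card ιM := by
  classical
  obtain ⟨x, hx, hxB⟩ := not_subset.1 hCB
  have h1 := W.dim_le_of_finite (Finset.univ.image Sum.inr) hC
    (hB.preimage (pL τS τM).continuous).isOpen_compl ⟨x, hx, hxB⟩ fun x =>
      (hf ((pR τS τM).1 x)).subset fun y hy => ⟨hCZ hy.1.1, hy.1.2,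
        Yv_ext fun i => hy.2 _ (Finset.mem_image_of_mem _ (Finset.mem_univ i))⟩
  exact h1.trans (Finset.card_image_le.trans Finset.card_univ.le)

lemma Weil.comp_dominant (W : Weil.{u, v, w} k K) (hc : Fintype.card ιS = Fintype.card ιM)
    {Z : Set (Yv k q (Sum.elim τS τM)).pts} (hZ : IsClosed Z)
    {B : Set (Yv k q τS).pts} (hB : IsClosed B) (hB' : ¬ univ ⊆ B)
    (hf : ∀ μ, {y | y ∈ Z ∧ (pL τS τM).1 y ∉ B ∧ (pR τS τM).1 y = μ}.Finite)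
    (hsurj : ∀ s, s ∉ B → ∃ μ, mkP s μ ∈ Z) :
    ∃ D, IsSub D ∧ D ⊆ Z ∧ dim D = Fintype.card ιS ∧ ¬ D ⊆ (pL τS τM).1 ⁻¹' B ∧
      univ ⊆ closure ((pL τS τM).1 '' D) := by
  classical
  have hT := finite_isComp hZ
  have hT1 : {D | IsComp D Z ∧ ¬ univ ⊆ closure ((pL τS τM).1 '' D)}.Finite :=
    hT.subset fun D hD => hD.1
  have hT2 : {D | IsComp D Z ∧ univ ⊆ closure ((pL τS τM).1 '' D)}.Finite :=
    hT.subset fun D hD => hD.1
  have hF1 : IsClosed (⋃ D ∈ {D | IsComp D Z ∧ ¬ univ ⊆ closure ((pL τS τM).1 '' D)},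
      closure ((pL τS τM).1 '' D)) := hT1.isClosed_biUnion fun _ _ => isClosed_closure
  have hF2 : ¬ univ ⊆ B ∪ ⋃ D ∈ {D | IsComp D Z ∧ ¬ univ ⊆ closure ((pL τS τM).1 '' D)},
      closure ((pL τS τM).1 '' D) := by
    intro h
    rcases isPreirreducible_iff_isClosed_union_isClosed.1 (Var.isSub_univ (Yv k q τS)).1.2 _ _
      hB hF1 h with h1 | h1
    · exact hB' h1
    · obtain ⟨D, hD, h2⟩ := (Var.isSub_univ (Yv k q τS)).subset_of_finite hT1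
        (fun _ _ => isClosed_closure) h1
      exact hD.2 h2
  obtain ⟨s₀, -, hs₀⟩ := not_subset.1 hF2
  obtain ⟨μ₀⟩ : Nonempty (Yv k q τM).pts := inferInstance
  obtain ⟨C, hC, hCZ, hd⟩ := exists_sub_of_open (τ := Sum.elim τS τM) (Finset.univ.image Sum.inl)
    (Z := ⋃ D ∈ {D | IsComp D Z ∧ univ ⊆ closure ((pL τS τM).1 '' D)}, D)
    (hT2.isClosed_biUnion fun D hD => hD.1.1.1.2)
    ((hB.union hF1).preimage (pL τS τM).continuous).isOpen_compl ⟨mkP s₀ μ₀, hs₀⟩ fun x hx => by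
      have hx' : (pL τS τM).1 x ∉ B ∪ ⋃ D ∈ {D | IsComp D Z ∧
        ¬ univ ⊆ closure ((pL τS τM).1 '' D)}, closure ((pL τS τM).1 '' D) := hx
      obtain ⟨μ, hμ⟩ := hsurj _ fun h => hx' (Or.inl h)
      obtain ⟨D, hD, hμD⟩ := exists_isComp (isSub_singleton _) (singleton_subset_iff.2 hμ)
      refine ⟨mkP ((pL τS τM).1 x) μ, mem_iUnion₂.2 ⟨D, ⟨hD, ?_⟩, hμD rfl⟩, fun i hi => ?_⟩
      · by_contra h
        exact hx' (Or.inr (mem_iUnion₂.2 ⟨D, ⟨hD, h⟩, subset_closure ⟨_, hμD rfl, rfl⟩⟩))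
      · obtain ⟨i, -, rfl⟩ := Finset.mem_image.1 hi
        rfl
  obtain ⟨D, hD, hCD⟩ := hC.subset_of_finite hT2 (F := id) (fun D hD => hD.1.1.1.2) hCZ
  have h1 : ¬ D ⊆ (pL τS τM).1 ⁻¹' B := fun h =>
    hB' (hD.2.trans (hB.closure_subset_iff.2 (image_subset_iff.2 h)))
  have h2 := W.comp_ub1 hB hf hD.1.1.1 hD.1.1.2 h1
  have h3 : dim C ≤ dim D := dim_mono hCD
  rw [Finset.card_image_of_injective _ Sum.inl_injective, Finset.card_univ] at hd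
  exact ⟨D, hD.1.1.1, hD.1.1.2, by omega, h1, hD.2⟩

/-- The graph case: a subvariety that maps into the graph of `γ`. -/
lemma Weil.comp_graph (W : Weil.{u, v, w} k K) {X : Var k}
    (π : Mor X (Yv k q (Sum.elim τS τS))) (γ : Mor (Yv k q τS) (Yv k q τS))
    {C : Set X.pts} (hC : IsSub C) (hd : dim C = Fintype.card ιS)
    (hsub : π.1 '' C ⊆ range (pair (Mor.id _) γ).1) {b₁ b₂ : W.H (Yv k q τS)}
    (hb₁ : b₁ ∈ W.gr _ (Fintype.card ιS)) (hb₂ : b₂ ∈ W.gr _ (Fintype.card ιS)) :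
    ∃ r : ℕ, W.tr X (W.cl X C * W.pull π (W.pull (pL τS τS) b₁ * W.pull (pR τS τS) b₂)) =
      r * W.tr _ (b₁ * W.pull γ b₂) ∧
      (range (pair (Mor.id _) γ).1 ⊆ closure (π.1 '' C) → 0 < r) := by
  have hr := (pair (Mor.id (Yv k q τS)) γ).retr (pL τS τS) fun _ => rfl
  have hG : IsSub (range (pair (Mor.id (Yv k q τS)) γ).1) := by
    rw [← image_univ]
    exact hr.isSub (Var.isSub_univ _)
  have hGd : dim (range (pair (Mor.id (Yv k q τS)) γ).1) = Fintype.card ιS := by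
    rw [← image_univ, hr.dim_image]
    exact W.d_Yv τS
  have hcl := hC.image_closure π.continuous
  have hsub' : closure (π.1 '' C) ⊆ range (pair (Mor.id _) γ).1 :=
    hG.2.closure_subset_iff.2 hsub
  obtain ⟨r, hr0, h1⟩ := W.push π C hC
  by_cases h : dim (closure (π.1 '' C)) = Fintype.card ιS
  · have e := eq_of_dim_le hcl hG hsub' (by omega)
    refine ⟨r, ?_, fun _ => hr0 (by omega)⟩
    rw [h1, e, ← W.tr_pull_retr (pair (Mor.id (Yv k q τS)) γ) (pL τS τS) fun _ => rfl, map_mul,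
      W.pull_pull, W.pull_pull, W.pull_id ((pL τS τS).comp _) rfl,
      W.pull_congr (f := (pR τS τS).comp _) (g := γ) fun _ => rfl]
  · refine ⟨0, ?_, fun h2 => absurd ?_ h⟩
    · rw [h1, W.tr_cl_mul_gr hcl (SetLike.mul_mem_graded (W.pull_gr (pL τS τS) _ _ hb₁)
        (W.pull_gr (pR τS τS) _ _ hb₂)) (by omega)]
      simp
    · rw [hsub'.antisymm h2, hGd]

end Pool.Agent.MP_0c8446_ag
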