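import Pool.Agent.MP_0c8446_ag.ProdApi

namespace Pool.Agent.MP_0c8446_ag

open Set

universe u v w

section aux

open MvPolynomial

lemma pv_chain {A P : Type u} [TopologicalSpace A] [TopologicalSpace P] (Φ : Set A → Set P)
    (h1 : ∀ Z, IsSub Z → IsSub (Φ Z)) (h2 : ∀ Z Z', Z ⊂ Z' → Φ Z ⊂ Φ Z') {r a : ℕ}
    {C : Fin (r + 1) → Set A} (hC : StrictMono C) (hs : ∀ i, IsSub (C i))
    (h0 : HasChain (Φ (C 0)) a) : HasChain (Φ (C (Fin.last r))) (a + r) := by
  have : ∀ (i : ℕ) (h : i < r + 1), HasChain (Φ (C ⟨i, h⟩)) (a + i) := by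
    intro i
    induction i with
    | zero => exact fun _ => h0
    | succ i ih =>
      intro h
      exact (ih (by omega)).succ (h2 _ _ (hC (Fin.mk_lt_mk.2 (Nat.lt_succ_self i)))) (h1 _ (hs _))
  exact this r (Nat.lt_succ_self r)

variable {k : Type u} [Field k] {ι κ : Type} {n : ι → ℕ} {m : κ → ℕ}

lemma pv_sum_rename {σ τ : Type} [Fintype σ] [Fintype τ] {e : σ → τ} (he : Function.Injective e)
    (v w : τ → k) (f : MvPolynomial σ k) :
    ∑ s, w (e s) * eval (fun a => v (e a)) (pderiv s f) =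
      ∑ t, w t * eval v (pderiv t (rename e f)) := by
  classical
  refine Fintype.sum_of_injective e he _ _ (fun t ht => ?_) fun s => ?_
  · rw [pderiv_eq_zero_of_notMem_vars, map_zero, mul_zero]
    intro hm
    obtain ⟨s, -, hs⟩ := Finset.mem_image.1 (vars_rename _ _ hm)
    exact ht ⟨s, hs⟩
  · rw [pderiv_rename he, eval_rename]
    rfl

lemma pv_tan_mem [Fintype ι] {S : Set (MP k n)} {v w : Vars n → k} :
    w ∈ tangent S v ↔ ∀ f : MvPolynomial (Vars n) k, (∀ x ∈ S, Vanish f x) →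
      ∑ s, w s * eval v (pderiv s f) = 0 := by
  simp only [tangent, Submodule.mem_iInf, LinearMap.mem_ker, Fintype.linearCombination_apply,
    smul_eq_mul, mem_ofPred_eq]

/-- First projection. -/
def pvFst (x : MP k (Sum.elim n m)) : MP k n := fun i => x (Sum.inl i)

/-- Second projection. -/
def pvSnd (x : MP k (Sum.elim n m)) : MP k m := fun j => x (Sum.inr j)

/-- The point with given projections. -/
def pvMk (x : MP k n) (y : MP k m) : MP k (Sum.elim n m)
  | Sum.inl i => x i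
  | Sum.inr j => y j

/-- Variables of the first factor. -/
def pvL (m : κ → ℕ) (s : Vars n) : Vars (Sum.elim n m) := ⟨Sum.inl s.1, s.2⟩

/-- Variables of the second factor. -/
def pvR (n : ι → ℕ) (s : Vars m) : Vars (Sum.elim n m) := ⟨Sum.inr s.1, s.2⟩

/-- Join two families indexed by the variables. -/
def pvJoin {α : Type*} (f : Vars n → α) (g : Vars m → α) : Vars (Sum.elim n m) → α
  | ⟨Sum.inl i, t⟩ => f ⟨i, t⟩
  | ⟨Sum.inr j, t⟩ => g ⟨j, t⟩

lemma pvL_inj : Function.Injective (pvL (n := n) m) := by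
  rintro ⟨i, s⟩ ⟨j, t⟩ h
  obtain ⟨h1, h2⟩ := Sigma.mk.inj_iff.1 h
  obtain rfl := Sum.inl_injective h1
  exact congrArg (Sigma.mk i) (eq_of_heq h2)

lemma pvR_inj : Function.Injective (pvR (m := m) n) := by
  rintro ⟨i, s⟩ ⟨j, t⟩ h
  obtain ⟨h1, h2⟩ := Sigma.mk.inj_iff.1 h
  obtain rfl := Sum.inr_injective h1
  exact congrArg (Sigma.mk i) (eq_of_heq h2)

lemma pv_rep_fst {v : Vars (Sum.elim n m) → k} {x : MP k (Sum.elim n m)} (h : IsRep v x) :
    IsRep (fun s => v (pvL m s)) (pvFst x) := fun i => h (Sum.inl i)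

lemma pv_rep_snd {v : Vars (Sum.elim n m) → k} {x : MP k (Sum.elim n m)} (h : IsRep v x) :
    IsRep (fun s => v (pvR n s)) (pvSnd x) := fun j => h (Sum.inr j)

lemma pv_ext {x y : MP k (Sum.elim n m)} (h1 : pvFst x = pvFst y) (h2 : pvSnd x = pvSnd y) :
    x = y := by
  funext i
  cases i with
  | inl i => exact congrFun h1 i
  | inr j => exact congrFun h2 j

/-- The product of two subsets. -/
def pvSet (S : Set (MP k n)) (T : Set (MP k m)) : Set (MP k (Sum.elim n m)) :=
  {x | pvFst x ∈ S ∧ pvSnd x ∈ T}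

variable {S : Set (MP k n)} {T : Set (MP k m)}

/-- First projection of the product. -/
def pvP (x : pvSet S T) : S := ⟨pvFst x.1, x.2.1⟩

/-- Second projection of the product. -/
def pvQ (x : pvSet S T) : T := ⟨pvSnd x.1, x.2.2⟩

/-- The point of the product with given projections. -/
def pvM (x : S) (y : T) : pvSet S T := ⟨pvMk x.1 y.1, x.2, y.2⟩

lemma pv_ext' {x y : pvSet S T} (h1 : pvP x = pvP y) (h2 : pvQ x = pvQ y) : x = y :=
  Subtype.ext (pv_ext (congrArg Subtype.val h1) (congrArg Subtype.val h2))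

lemma pv_isMor_P : IsMor (pvP : pvSet S T → S) :=
  isMor_of_global (fun s => X (pvL m s)) fun y v hv => by
    simp only [eval_X]
    exact pv_rep_fst hv

lemma pv_isMor_Q : IsMor (pvQ : pvSet S T → T) :=
  isMor_of_global (fun s => X (pvR n s)) fun y v hv => by
    simp only [eval_X]
    exact pv_rep_snd hv

lemma pv_isMor_M {ρ : Type} {l : ρ → ℕ} {R : Set (MP k l)} {f : R → S} {g : R → T}
    (hf : IsMor f) (hg : IsMor g) : IsMor fun x => pvM (f x) (g x) := by
  intro x
  obtain ⟨U, hU, hxU, F, hF⟩ := hf x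
  obtain ⟨V, hV, hxV, G, hG⟩ := hg x
  refine ⟨U ∩ V, hU.inter hV, ⟨hxU, hxV⟩, pvJoin F G, fun y hy v hv i => ?_⟩
  cases i with
  | inl i => exact hF y hy.1 v hv i
  | inr j => exact hG y hy.2 v hv j

variable [Infinite k] [Fintype ι] [Fintype κ]

lemma pv_isSub {A : Set S} {B : Set T} (hA : IsSub A) (hB : IsSub B) :
    IsSub (pvP ⁻¹' A ∩ pvQ ⁻¹' B : Set (pvSet S T)) := by
  refine ⟨?_, (hA.2.preimage pv_isMor_P.continuous).inter (hB.2.preimage pv_isMor_Q.continuous)⟩
  have : (pvP ⁻¹' A ∩ pvQ ⁻¹' B : Set (pvSet S T)) = image2 pvM A B := by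
    ext z
    constructor
    · exact fun hz => ⟨_, hz.1, _, hz.2, pv_ext' rfl rfl⟩
    · rintro ⟨x, hx, y, hy, rfl⟩
      exact ⟨hx, hy⟩
  rw [this]
  exact isIrreducible_image2 (fun a => (pv_isMor_M (isMor_const a) isMor_id).continuous)
    (fun b => (pv_isMor_M isMor_id (isMor_const b)).continuous) hA.1 hB.1

lemma pv_hasChain {r s : ℕ} (h1 : HasChain (univ : Set S) r) (h2 : HasChain (univ : Set T) s) :
    HasChain (univ : Set (pvSet S T)) (r + s) := by
  obtain ⟨C, hC, hC'⟩ := h1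
  obtain ⟨D, hD, hD'⟩ := h2
  have a1 := pv_chain (fun A : Set S => (pvP ⁻¹' A ∩ pvQ ⁻¹' D 0 : Set (pvSet S T)))
    (fun Z hZ => pv_isSub hZ (hD' 0).1) (fun Z Z' h => by
      obtain ⟨y, hy⟩ := (hD' 0).1.1.1
      exact ⟨fun z hz => ⟨h.1 hz.1, hz.2⟩,
        fun h' => h.2 fun x hx => (h' (show pvM x y ∈ _ from ⟨hx, hy⟩)).1⟩)
    hC (fun i => (hC' i).1) ((pv_isSub (hC' 0).1 (hD' 0).1).hasChain_zero subset_rfl)
  have a2 := pv_chain (fun B : Set T => (pvP ⁻¹' C (Fin.last r) ∩ pvQ ⁻¹' B : Set (pvSet S T)))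
    (fun Z hZ => pv_isSub (hC' _).1 hZ) (fun Z Z' h => by
      obtain ⟨x, hx⟩ := (hC' (Fin.last r)).1.1.1
      exact ⟨fun z hz => ⟨hz.1, h.1 hz.2⟩,
        fun h' => h.2 fun y hy => (h' (show pvM x y ∈ _ from ⟨hx, hy⟩)).2⟩)
    hD (fun i => (hD' i).1) a1
  rw [zero_add] at a2
  exact a2.mono (subset_univ _)

lemma pv_isClosed (hS : IsClosed S) (hT : IsClosed T) : IsClosed (pvSet S T) := by
  have j : Continuous fun x : MP k (Sum.elim n m) =>
      (⟨x, mem_univ _, mem_univ _⟩ : pvSet (univ : Set (MP k n)) (univ : Set (MP k m))) :=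
    continuous_id.subtype_mk _
  have c1 : Continuous (pvFst : MP k (Sum.elim n m) → MP k n) :=
    continuous_subtype_val.comp (pv_isMor_P.continuous.comp j)
  have c2 : Continuous (pvSnd : MP k (Sum.elim n m) → MP k m) :=
    continuous_subtype_val.comp (pv_isMor_Q.continuous.comp j)
  exact (hS.preimage c1).inter (hT.preimage c2)

omit [Infinite k] in
lemma pv_tangent (S : Set (MP k n)) (T : Set (MP k m)) (v : Vars (Sum.elim n m) → k) :
    Module.finrank k (tangent (pvSet S T) v) ≤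
      Module.finrank k (tangent S fun s => v (pvL m s)) +
        Module.finrank k (tangent T fun s => v (pvR n s)) := by
  let L : tangent (pvSet S T) v →ₗ[k]
      tangent S (fun s => v (pvL m s)) × tangent T (fun s => v (pvR n s)) :=
    { toFun := fun w => (⟨fun s => w.1 (pvL m s), pv_tan_mem.2 fun f hf => by
          rw [pv_sum_rename pvL_inj]
          refine pv_tan_mem.1 w.2 _ fun x hx a ha => ?_
          rw [eval_rename]
          exact hf _ hx.1 _ (pv_rep_fst ha)⟩,
        ⟨fun s => w.1 (pvR n s), pv_tan_mem.2 fun f hf => by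
          rw [pv_sum_rename pvR_inj]
          refine pv_tan_mem.1 w.2 _ fun x hx a ha => ?_
          rw [eval_rename]
          exact hf _ hx.2 _ (pv_rep_snd ha)⟩)
      map_add' := fun _ _ => rfl
      map_smul' := fun _ _ => rfl }
  have hL : Function.Injective L := by
    intro a b h
    refine Subtype.ext (funext ?_)
    rintro ⟨i | j, t⟩
    · exact congrFun (congrArg Subtype.val (congrArg Prod.fst h)) ⟨i, t⟩
    · exact congrFun (congrArg Subtype.val (congrArg Prod.snd h)) ⟨j, t⟩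
  rw [← Module.finrank_prod]
  exact LinearMap.finrank_le_finrank_of_injective hL

end aux

variable {k : Type u} [Field k] [IsAlgClosed k] {K : Type v} [Field K] [CharZero K]

/-- The product variety. -/
noncomputable def pvVar (X Y : Var k) : Var k where
  ι := X.ι ⊕ Y.ι
  n := Sum.elim X.n Y.n
  pts := pvSet X.pts Y.pts
  sub := by
    refine ⟨?_, pv_isClosed X.sub.2 Y.sub.2⟩
    have := (pv_isSub X.isSub_univ Y.isSub_univ).1.image _ continuous_subtype_val.continuousOn
    rwa [preimage_univ, preimage_univ, inter_self, image_univ, Subtype.range_coe] at this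
  smooth := by
    intro x hx v hv
    have h1 := pv_tangent X.pts Y.pts v
    have h2 := X.smooth _ hx.1 _ (pv_rep_fst hv)
    have h3 := Y.smooth _ hx.2 _ (pv_rep_snd hv)
    have h4 := (pv_hasChain X.isSub_univ.hasChain Y.isSub_univ.hasChain).le_dim
    rw [Fintype.card_sum]
    omega

theorem exists_prod (X Y : Var k) : ∃ (P : Var k) (p : Mor P X) (q : Mor P Y), IsProd p q :=
  ⟨pvVar X Y, ⟨pvP, pv_isMor_P⟩, ⟨pvQ, pv_isMor_Q⟩, isProd_of
    (fun _ f g => ⟨⟨fun x => pvM (f.1 x) (g.1 x), pv_isMor_M f.2 g.2⟩, fun _ => rfl, fun _ => rfl⟩)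
    fun _ _ h1 h2 => pv_ext' h1 h2⟩

end Pool.Agent.MP_0c8446_ag
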