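import Pool.Agent.MP_0c8446_ag.GeoGen2
import Pool.Agent.MP_0c8446_ag.ProdVar
import Pool.Agent.MP_0c8446_ag.Comp1

namespace Pool.Agent.MP_0c8446_ag

open Set

universe u v w

variable {k : Type u} [Field k] [IsAlgClosed k] {K : Type v} [Field K] [CharZero K]

section
variable {q : ℕ} [IsQ k q] {ι : Type} [Fintype ι] {τ : ι → Bool} {P S Q T : Var k}

/-- The projection to `M × M`. -/
noncomputable def cgM (r : Mor P (Yv k q τ)) (L R : Mor Q P) : Mor Q (Yv k q (Sum.elim τ τ)) :=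
  pair (r.comp L) (r.comp R)

/-- The diagonal in the coordinate j. -/
def cgD (r : Mor P (Yv k q τ)) (L R : Mor Q P) (j : ι) : Set Q.pts :=
  {x | co (r.1 (L.1 x)) j = co (r.1 (R.1 x)) j}

/-- The boundary. -/
def cgB (p : Mor P S) (L R : Mor Q P) (B : Set S.pts) : Set Q.pts :=
  L.1 ⁻¹' (p.1 ⁻¹' B) ∪ R.1 ⁻¹' (p.1 ⁻¹' B)

/-- The class that is paired with the cycles. -/
noncomputable def Weil.cgF (W : Weil.{u, v, w} k K) (p : Mor P S) (r : Mor P (Yv k q τ))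
    (L R : Mor Q P) (b₁ b₂ : W.H S) (Δ : W.H (Yv k q (Sum.elim τ τ))) : W.H Q :=
  W.pull (p.comp L) b₁ * W.pull (cgM r L R) Δ * W.pull (p.comp R) b₂

variable {p : Mor P S} {r : Mor P (Yv k q τ)} {L R : Mor Q P} {sL sR : Mor T S}

lemma cg_isProd (h : IsProd p r) (hP : IsProd L R) (hS : IsProd sL sR) :
    IsProd (hS.lift (p.comp L) (p.comp R)) (cgM r L R) := by
  refine isProd_of (fun V f g => ⟨hP.lift (h.lift (sL.comp f) ((pL τ τ).comp g))
    (h.lift (sR.comp f) ((pR τ τ).comp g)), fun x => hS.ext (by simp) (by simp),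
    fun x => sum_ext (by simp [cgM]) (by simp [cgM])⟩) fun x y h1 h2 => hP.ext (h.ext ?_ ?_)
    (h.ext ?_ ?_)
  · simpa using congrArg sL.1 h1
  · exact congrArg (pL τ τ).1 h2
  · simpa using congrArg sR.1 h1
  · exact congrArg (pR τ τ).1 h2

omit [IsAlgClosed k] in
lemma cg_closed_U {A : Set (Set S.pts)} (hA : A.Finite) (hA' : ∀ a ∈ A, IsClosed a) :
    IsClosed (⋃₀ A) := by
  rw [sUnion_eq_biUnion]
  exact hA.isClosed_biUnion hA'

omit [IsAlgClosed k] in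
lemma cg_closed_bd {B : Set S.pts} (hB : IsClosed B) : IsClosed (cgB p L R B) :=
  ((hB.preimage p.continuous).preimage L.continuous).union
    ((hB.preimage p.continuous).preimage R.continuous)

lemma cgD_eq (π : Mor Q T) (j : ι) : cgD r L R j = π.1 ⁻¹' univ ∩ (cgM r L R).1 ⁻¹'
    {x : (Yv k q (Sum.elim τ τ)).pts | co x (Sum.inl j) = co x (Sum.inr j)} := by
  rw [preimage_univ, univ_inter]
  rfl

lemma cg_isSub_D {π : Mor Q T} (hπ : IsProd π (cgM r L R)) (j : ι) : IsSub (cgD r L R j) := by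
  rw [cgD_eq π]
  exact hπ.isSub T.isSub_univ (isSub_co_co rfl)

lemma Weil.cg_dim_D (W : Weil.{u, v, w} k K) {π : Mor Q T} (hπ : IsProd π (cgM r L R)) (j : ι) :
    dim (cgD r L R j) + 1 = Q.d := by
  have d1 : dim {x : (Yv k q (Sum.elim τ τ)).pts | co x (Sum.inl j) = co x (Sum.inr j)} + 1 =
    Fintype.card (ι ⊕ ι) := W.dim_co_co (by simp) rfl
  have hs : IsSub {x : (Yv k q (Sum.elim τ τ)).pts | co x (Sum.inl j) = co x (Sum.inr j)} :=
    isSub_co_co rfl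
  have e := W.dim_isProd hπ T.isSub_univ hs
  rw [← cgD_eq π] at e
  rw [e, W.d_prod hπ, W.d_Yv, add_assoc, d1]
  rfl

omit [CharZero K] in
lemma Weil.cgF_step (W : Weil.{u, v, w} k K) {π : Mor Q T} (hπ : IsProd π (cgM r L R))
    (b₁ b₂ : W.H S) (j : ι) (Δ : W.H (Yv k q (Sum.elim τ τ))) :
    W.cgF p r L R b₁ b₂ (W.cl _ {x : (Yv k q (Sum.elim τ τ)).pts |
      co x (Sum.inl j) = co x (Sum.inr j)} * Δ) =
      W.cl _ (cgD r L R j) * W.cgF p r L R b₁ b₂ Δ := by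
  have e := W.cl_prod _ _ hπ univ
    {x : (Yv k q (Sum.elim τ τ)).pts | co x (Sum.inl j) = co x (Sum.inr j)} T.isSub_univ
    (isSub_co_co rfl)
  rw [W.cl_univ, map_one, one_mul, ← cgD_eq] at e
  rw [Weil.cgF, Weil.cgF, map_mul, ← e, ← mul_assoc, ← W.cl_comm (cg_isSub_D hπ j)]
  simp only [mul_assoc]

lemma cg_fib_finite (h : IsProd p r) {Z : Set P.pts} {B : Set S.pts} {Γ : Set (Mor S S)}
    (hΓ : Γ.Finite)
    (hfib : ∀ s s' μ, s ∉ B → s' ∉ B → h.mk s μ ∈ Z → h.mk s' μ ∈ Z → ∃ γ ∈ Γ, s' = γ.1 s)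
    (μ : (Yv k q τ).pts) : {y | y ∈ Z ∧ p.1 y ∉ B ∧ r.1 y = μ}.Finite := by
  rcases {y | y ∈ Z ∧ p.1 y ∉ B ∧ r.1 y = μ}.eq_empty_or_nonempty with h0 | ⟨y₀, h1, h2, h3⟩
  · rw [h0]
    exact finite_empty
  · refine (hΓ.image fun γ => h.mk (γ.1 (p.1 y₀)) μ).subset ?_
    rintro y ⟨h4, h5, h6⟩
    obtain ⟨γ, hγ, e⟩ := hfib _ _ μ h2 h5 (by rw [← h3, h.mk_eta]; exact h1)
      (by rw [← h6, h.mk_eta]; exact h4)
    exact ⟨γ, hγ, h.ext (by simp [e]) (by simp [h6])⟩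

lemma Weil.cg_ub2 [DecidableEq ι] (W : Weil.{u, v, w} k K) (hP : IsProd L R) {π : Mor Q T}
    (hπ : IsProd π (cgM r L R)) {Z : Set P.pts} {B : Set S.pts} (hB : IsClosed B)
    (hf : ∀ μ, {y | y ∈ Z ∧ p.1 y ∉ B ∧ r.1 y = μ}.Finite) (J : Finset ι)
    {C : Set Q.pts} (hC : IsSub C) (hCZ : C ⊆ L.1 ⁻¹' Z ∩ R.1 ⁻¹' Z)
    (hCD : ∀ j ∉ J, C ⊆ cgD r L R j) (hCB : ¬ C ⊆ cgB p L R B) :
    dim C ≤ Fintype.card ι + J.card := by
  obtain ⟨x, hx, hxB⟩ := not_subset.1 hCB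
  have h1 := W.dim_le_of_finite' hπ (Finset.univ.image Sum.inl ∪ J.image Sum.inr) hC
    (cg_closed_bd hB).isOpen_compl ⟨x, hx, hxB⟩ fun x => by
      have hl : ∀ y : Q.pts, (∀ i ∈ (Finset.univ.image Sum.inl ∪ J.image Sum.inr : Finset (ι ⊕ ι)),
          co ((cgM r L R).1 y) i = co ((cgM r L R).1 x) i) →
          ∀ j, co (r.1 (L.1 y)) j = co (r.1 (L.1 x)) j := fun y hy j =>
        hy _ (Finset.mem_union_left _ (Finset.mem_image_of_mem _ (Finset.mem_univ j)))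
      let μ₂ : (Yv k q τ).pts := mkY (fun j => if j ∈ J then co (r.1 (R.1 x)) j else
        co (r.1 (L.1 x)) j) fun j => by split_ifs <;> exact co_mem _ j
      refine ((hf (r.1 (L.1 x))).image2 hP.mk (hf μ₂)).subset fun y hy => ?_
      have hyB : y ∉ cgB p L R B := hy.1.2
      refine ⟨L.1 y, ⟨(hCZ hy.1.1).1, fun h => hyB (Or.inl h), Yv_ext fun j => hl y hy.2 j⟩, R.1 y,
        ⟨(hCZ hy.1.1).2, fun h => hyB (Or.inr h), Yv_ext fun j => ?_⟩, hP.mk_eta y⟩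
      by_cases hj : j ∈ J
      · exact (hy.2 _ (Finset.mem_union_right _ (Finset.mem_image_of_mem _ hj))).trans
          (if_pos hj).symm
      · exact ((hCD j hj hy.1.1).symm.trans (hl y hy.2 j)).trans (if_neg hj).symm
  refine h1.trans ((Finset.card_union_le _ _).trans (add_le_add ?_ Finset.card_image_le))
  exact Finset.card_image_le.trans Finset.card_univ.le

lemma Weil.cg_boundary (W : Weil.{u, v, w} k K) (h : IsProd p r) (hP : IsProd L R)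
    {A : Set (Set S.pts)} (hA : A.Finite) (hA' : ∀ a ∈ A, IsClosed a) {b₁ b₂ : W.H S}
    (hI : ∀ a ∈ A, ∃ γ γ' : Mor S S, (∀ s, γ'.1 (γ.1 s) = s) ∧ (∀ s ∈ a, γ.1 s = s) ∧
      ∃ c₁ c₂ : K, c₁ ≠ 1 ∧ c₂ ≠ 1 ∧ W.pull γ b₁ = c₁ • b₁ ∧ W.pull γ b₂ = c₂ • b₂)
    (Δ : W.H (Yv k q (Sum.elim τ τ))) {C : Set Q.pts} (hC : IsSub C)
    (hCB : C ⊆ cgB p L R (⋃₀ A)) : W.tr _ (W.cl _ C * W.cgF p r L R b₁ b₂ Δ) = 0 := by
  have hBc := (cg_closed_U hA hA').preimage p.continuous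
  have key : ∀ f : Mor Q S, C ⊆ f.1 ⁻¹' ⋃₀ A → ∃ a ∈ A, C ⊆ f.1 ⁻¹' a := fun f hf =>
    hC.subset_of_finite hA (F := fun a => f.1 ⁻¹' a) (fun a ha => (hA' a ha).preimage f.continuous)
      fun x hx => by
        obtain ⟨a, ha, e⟩ := hf hx
        exact mem_iUnion₂.2 ⟨a, ha, e⟩
  rcases isPreirreducible_iff_isClosed_union_isClosed.1 hC.1.2 _ _
    (hBc.preimage L.continuous) (hBc.preimage R.continuous) hCB with h0 | h0
  · obtain ⟨a, ha, h1⟩ := key (p.comp L) h0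
    obtain ⟨γ, γ', h2, h3, c₁, c₂, h4, -, h5, -⟩ := hI a ha
    let G : Mor S S → Mor Q Q := fun g => hP.lift (h.lift (g.comp (p.comp L)) (r.comp L)) R
    refine W.comp_fix (G γ) (G γ') (fun x => hP.ext (h.ext (by simp [G, h2]) (by simp [G]))
      (by simp [G])) hC (fun x hx => hP.ext (h.ext (by simpa [G] using h3 _ (h1 hx))
        (by simp [G])) (by simp [G])) h4 ?_
    rw [Weil.cgF, map_mul, map_mul, W.pull_pull, W.pull_pull, W.pull_pull,
      W.pull_congr (f := (cgM r L R).comp (G γ)) (g := cgM r L R)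
        (fun _ => sum_ext (by simp [G, cgM]) (by simp [G, cgM])),
      W.pull_congr (f := (p.comp R).comp (G γ)) (g := p.comp R) (fun _ => by simp [G]),
      W.pull_congr (f := (p.comp L).comp (G γ)) (g := γ.comp (p.comp L)) (fun _ => by simp [G]),
      ← W.pull_pull _ γ, h5, map_smul, smul_mul_assoc, smul_mul_assoc]
  · obtain ⟨a, ha, h1⟩ := key (p.comp R) h0
    obtain ⟨γ, γ', h2, h3, c₁, c₂, -, h4, -, h5⟩ := hI a ha
    let G : Mor S S → Mor Q Q := fun g => hP.lift L (h.lift (g.comp (p.comp R)) (r.comp R))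
    refine W.comp_fix (G γ) (G γ') (fun x => hP.ext (by simp [G])
      (h.ext (by simp [G, h2]) (by simp [G]))) hC (fun x hx => hP.ext (by simp [G])
        (h.ext (by simpa [G] using h3 _ (h1 hx)) (by simp [G]))) h4 ?_
    rw [Weil.cgF, map_mul, map_mul, W.pull_pull, W.pull_pull, W.pull_pull,
      W.pull_congr (f := (cgM r L R).comp (G γ)) (g := cgM r L R)
        (fun _ => sum_ext (by simp [G, cgM]) (by simp [G, cgM])),
      W.pull_congr (f := (p.comp L).comp (G γ)) (g := p.comp L) (fun _ => by simp [G]),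
      W.pull_congr (f := (p.comp R).comp (G γ)) (g := γ.comp (p.comp R)) (fun _ => by simp [G]),
      ← W.pull_pull _ γ, h5, map_smul, mul_smul_comm]

/-- The graph case: a subvariety that maps into the graph of `γ`. -/
lemma Weil.cg_graph (W : Weil.{u, v, w} k K) (hS : IsProd sL sR) (π : Mor Q T) (γ : Mor S S)
    {C : Set Q.pts} (hC : IsSub C) (hd : dim C = S.d)
    (hsub : π.1 '' C ⊆ range (hS.lift (Mor.id _) γ).1) {b₁ b₂ : W.H S} {i j : ℕ}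
    (hb₁ : b₁ ∈ W.gr S i) (hb₂ : b₂ ∈ W.gr S j) (hij : i + j = 2 * S.d) :
    ∃ n : ℕ, W.tr Q (W.cl Q C * W.pull π (W.pull sL b₁ * W.pull sR b₂)) =
      n * W.tr _ (b₁ * W.pull γ b₂) ∧
      (range (hS.lift (Mor.id _) γ).1 ⊆ closure (π.1 '' C) → 0 < n) := by
  have hr := (hS.lift (Mor.id S) γ).retr sL fun _ => by simp
  have hG : IsSub (range (hS.lift (Mor.id S) γ).1) := by
    rw [← image_univ]
    exact hr.isSub (Var.isSub_univ _)
  have hGd : dim (range (hS.lift (Mor.id S) γ).1) = S.d := by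
    rw [← image_univ, hr.dim_image]
    rfl
  have hcl := hC.image_closure π.continuous
  have hsub' : closure (π.1 '' C) ⊆ range (hS.lift (Mor.id _) γ).1 :=
    hG.2.closure_subset_iff.2 hsub
  obtain ⟨n, hr0, h1⟩ := W.push π C hC
  by_cases h : dim (closure (π.1 '' C)) = S.d
  · have e := eq_of_dim_le hcl hG hsub' (by omega)
    refine ⟨n, ?_, fun _ => hr0 (by omega)⟩
    rw [h1, e, ← W.tr_pull_retr (hS.lift (Mor.id S) γ) sL fun _ => by simp, map_mul,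
      W.pull_pull, W.pull_pull, W.pull_id (sL.comp _) (funext fun _ => by simp),
      W.pull_congr (f := sR.comp _) (g := γ) fun _ => by simp]
  · refine ⟨0, ?_, fun h2 => absurd ?_ h⟩
    · rw [h1, W.tr_cl_mul_gr hcl (SetLike.mul_mem_graded (W.pull_gr sL _ _ hb₁)
        (W.pull_gr sR _ _ hb₂)) (by omega)]
      simp
    · rw [hsub'.antisymm h2, hGd]

lemma Weil.cg_claim (W : Weil.{u, v, w} k K) (h : IsProd p r) (hP : IsProd L R)
    (hS : IsProd sL sR) (hc : S.d = Fintype.card ι) {Z : Set P.pts} {A : Set (Set S.pts)}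
    (hA : A.Finite) (hA' : ∀ a ∈ A, IsClosed a) {b₁ b₂ : W.H S} {i j : ℕ}
    (hb₁ : b₁ ∈ W.gr S i) (hb₂ : b₂ ∈ W.gr S j) (hij : i + j = 2 * S.d)
    (hI : ∀ a ∈ A, ∃ γ γ' : Mor S S, (∀ s, γ'.1 (γ.1 s) = s) ∧ (∀ s ∈ a, γ.1 s = s) ∧
      ∃ c₁ c₂ : K, c₁ ≠ 1 ∧ c₂ ≠ 1 ∧ W.pull γ b₁ = c₁ • b₁ ∧ W.pull γ b₂ = c₂ • b₂)
    {Γ : Set (Mor S S)} (hΓ : Γ.Finite)
    (hfib : ∀ s s' μ, s ∉ ⋃₀ A → s' ∉ ⋃₀ A → h.mk s μ ∈ Z → h.mk s' μ ∈ Z → ∃ γ ∈ Γ, s' = γ.1 s)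
    (hgood : ∀ γ ∈ Γ, W.pull γ b₂ = b₂) {D : Set P.pts} (hD : IsSub D) (hDd : dim D = S.d)
    (hDB : ¬ D ⊆ p.1 ⁻¹' ⋃₀ A) (hDu : univ ⊆ closure (p.1 '' D))
    (J : Finset ι) : ∃ Δ : W.H (Yv k q (Sum.elim τ τ)), ∀ C : Set Q.pts,
      IsSub C → C ⊆ L.1 ⁻¹' Z ∩ R.1 ⁻¹' Z → (∀ j ∉ J, C ⊆ cgD r L R j) →
      dim C = Fintype.card ι + J.card →
      ∃ n : ℕ, W.tr _ (W.cl _ C * W.cgF p r L R b₁ b₂ Δ) = n * W.tr _ (b₁ * b₂) ∧
        ((hP.lift (Mor.id _) (Mor.id _)).1 '' D ⊆ C → 0 < n) := by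
  classical
  have hπ := cg_isProd h hP hS
  have hBc := cg_closed_U hA hA'
  have hf := cg_fib_finite h hΓ hfib
  have hr := (hP.lift (Mor.id P) (Mor.id _)).retr L fun _ => by simp
  have hD0 := hr.isSub hD
  have bd : ∀ (Δ : W.H (Yv k q (Sum.elim τ τ))) (C : Set Q.pts), IsSub C →
      C ⊆ cgB p L R (⋃₀ A) → ∃ n : ℕ, W.tr _ (W.cl _ C * W.cgF p r L R b₁ b₂ Δ) =
        n * W.tr _ (b₁ * b₂) ∧ ((hP.lift (Mor.id _) (Mor.id _)).1 '' D ⊆ C → 0 < n) :=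
    fun Δ C hC hCB => by
      refine ⟨0, by rw [W.cg_boundary h hP hA hA' hI Δ hC hCB]; simp, fun h => absurd ?_ hDB⟩
      intro x hx
      rcases hCB (h ⟨x, hx, rfl⟩) with h1 | h1 <;> simpa using h1
  induction J using Finset.induction_on with
  | empty =>
    refine ⟨1, fun C hC hCZ hCD hd => ?_⟩
    by_cases hCB : C ⊆ cgB p L R (⋃₀ A)
    · exact bd 1 C hC hCB
    rw [Finset.card_empty, add_zero, ← hc] at hd
    have e1 : W.cgF p r L R b₁ b₂ 1 =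
        W.pull (hS.lift (p.comp L) (p.comp R)) (W.pull sL b₁ * W.pull sR b₂) := by
      rw [Weil.cgF, map_one, mul_one, map_mul, W.pull_pull, W.pull_pull,
        W.pull_congr (f := sL.comp _) (g := p.comp L) fun _ => by simp,
        W.pull_congr (f := sR.comp _) (g := p.comp R) fun _ => by simp]
    rw [e1]
    by_cases h0 : (hP.lift (Mor.id _) (Mor.id _)).1 '' D ⊆ C
    · have e := eq_of_dim_le hD0 hC h0 (by rw [hr.dim_image]; omega)
      obtain ⟨n, h1, h2⟩ := W.cg_graph hS (hS.lift (p.comp L) (p.comp R)) (Mor.id _) hC hd (by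
        rw [← e]
        rintro _ ⟨_, ⟨x, -, rfl⟩, rfl⟩
        exact ⟨p.1 x, hS.ext (by simp) (by simp)⟩) hb₁ hb₂ hij
      refine ⟨n, by rw [h1, W.pull_id (Mor.id _) rfl], fun _ => h2 ?_⟩
      rw [← image_univ]
      refine (image_mono hDu).trans ((image_closure_subset_closure_image
        (hS.lift (Mor.id S) (Mor.id _)).continuous).trans (closure_mono ?_))
      rintro _ ⟨_, ⟨x, hx, rfl⟩, rfl⟩
      exact ⟨_, h0 ⟨x, hx, rfl⟩, hS.ext (by simp) (by simp)⟩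
    · have h1 : C ⊆ cgB p L R (⋃₀ A) ∪
          ⋃ γ ∈ Γ, {x | (p.comp R).1 x = (γ.comp (p.comp L)).1 x} := by
        intro x hx
        by_cases hx' : x ∈ cgB p L R (⋃₀ A)
        · exact Or.inl hx'
        have e : r.1 (L.1 x) = r.1 (R.1 x) := Yv_ext fun j => hCD j (Finset.notMem_empty j) hx
        obtain ⟨γ, hγ, h2⟩ := hfib (p.1 (L.1 x)) (p.1 (R.1 x)) (r.1 (L.1 x))
          (fun h => hx' (Or.inl h)) (fun h => hx' (Or.inr h))
          (by rw [h.mk_eta]; exact (hCZ hx).1) (by rw [e, h.mk_eta]; exact (hCZ hx).2)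
        exact Or.inr (mem_iUnion₂.2 ⟨γ, hγ, h2⟩)
      have hcl : ∀ γ ∈ Γ, IsClosed {x | (p.comp R).1 x = (γ.comp (p.comp L)).1 x} := fun γ _ =>
        isClosed_eq_mor (p.comp R).2 (γ.comp (p.comp L)).2
      obtain ⟨γ, hγ, h2⟩ := hC.subset_of_finite hΓ hcl
        ((isPreirreducible_iff_isClosed_union_isClosed.1 hC.1.2 _ _ (cg_closed_bd hBc)
          (hΓ.isClosed_biUnion hcl) h1).resolve_left hCB)
      obtain ⟨n, h3, -⟩ := W.cg_graph hS (hS.lift (p.comp L) (p.comp R)) γ hC hd (by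
        rintro _ ⟨x, hx, rfl⟩
        exact ⟨p.1 (L.1 x), hS.ext (by simp) (by simpa using (h2 hx).symm)⟩) hb₁ hb₂ hij
      exact ⟨n, by rw [h3, hgood γ hγ], fun h => absurd h h0⟩
  | insert j J hj ih =>
    obtain ⟨Δ, ih⟩ := ih
    refine ⟨W.cl _ {x : (Yv k q (Sum.elim τ τ)).pts | co x (Sum.inl j) = co x (Sum.inr j)} * Δ,
      fun C hC hCZ hCD hd => ?_⟩
    by_cases hCB : C ⊆ cgB p L R (⋃₀ A)
    · exact bd _ C hC hCB
    rw [Finset.card_insert_of_notMem hj] at hd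
    have hCj : ¬ C ⊆ cgD r L R j := fun h => by
      have := W.cg_ub2 hP hπ hBc hf J hC hCZ (fun i hi => by
        by_cases hij : i = j
        · exact hij ▸ h
        · exact hCD i (by simp [hij, hi])) hCB
      omega
    have d1 := W.cg_dim_D hπ j
    have hp : ∀ E, IsSub E → E ⊆ C ∩ cgD r L R j → dim E + Q.d ≤ dim C + dim (cgD r L R j) :=
      fun E hE hEC => by
        have := dim_lt hE hC ⟨hEC.trans inter_subset_left,
          fun h => hCj (h.trans (hEC.trans inter_subset_right))⟩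
        omega
    obtain ⟨s, μ, h1, h2, -, h3⟩ := W.proper _ C _ hC (cg_isSub_D hπ j) hp
    obtain ⟨n, h4, h5⟩ := comp_sum s (fun E => W.tr _ (μ E • W.cl _ E * W.cgF p r L R b₁ b₂ Δ))
      (fun E => (hP.lift (Mor.id _) (Mor.id _)).1 '' D ⊆ E) (W.tr _ (b₁ * b₂)) fun E hE => by
        have hE' := (h1 E).1 hE
        have d3 := W.proper_dim' hC (cg_isSub_D hπ j) hp hE'
        obtain ⟨n, h4, h5⟩ := ih E hE'.1.1 ((hE'.1.2.trans inter_subset_left).trans hCZ)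
          (fun i hi => by
            by_cases hij : i = j
            · exact hij ▸ hE'.1.2.trans inter_subset_right
            · exact (hE'.1.2.trans inter_subset_left).trans (hCD i (by simp [hij, hi])))
          (by omega)
        refine ⟨μ E * n, ?_, fun h => Nat.mul_pos (h2 E hE) (h5 h)⟩
        rw [smul_mul_assoc, map_nsmul, h4, nsmul_eq_mul, Nat.cast_mul, mul_assoc]
    refine ⟨n, ?_, fun h => h5 ?_⟩
    · rw [W.cgF_step hπ, ← mul_assoc, h3, Finset.sum_mul, map_sum, h4]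
    · obtain ⟨E, hE, h6⟩ := exists_isComp (S := C ∩ cgD r L R j) hD0 (subset_inter h (by
        rintro _ ⟨x, -, rfl⟩
        simp [cgD]))
      exact ⟨E, (h1 E).2 hE, h6⟩

end

theorem Weil.composition' (W : Weil.{u, v, w} k K) {q : ℕ} [IsQ k q] {ι : Type} [Fintype ι]
    {τ : ι → Bool} {P S : Var k} {p : Mor P S} {r : Mor P (Yv k q τ)} (h : IsProd p r)
    (hc : S.d = Fintype.card ι) (Z : Set P.pts) (hZ : IsClosed Z)
    (A : Set (Set S.pts)) (hA : A.Finite) (hA' : ∀ a ∈ A, IsClosed a ∧ a ≠ univ)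
    {i j : ℕ} (b₁ b₂ : W.H S) (hb₁ : b₁ ∈ W.gr S i) (hb₂ : b₂ ∈ W.gr S j)
    (hb : W.tr S (b₁ * b₂) ≠ 0)
    (hI : ∀ a ∈ A, ∃ γ γ' : Mor S S, (∀ s, γ'.1 (γ.1 s) = s) ∧ (∀ s ∈ a, γ.1 s = s) ∧
      ∃ c₁ c₂ : K, c₁ ≠ 1 ∧ c₂ ≠ 1 ∧ W.pull γ b₁ = c₁ • b₁ ∧ W.pull γ b₂ = c₂ • b₂)
    (Γ : Set (Mor S S)) (hΓ : Γ.Finite)
    (hfib : ∀ s s' μ, s ∉ ⋃₀ A → s' ∉ ⋃₀ A → h.mk s μ ∈ Z → h.mk s' μ ∈ Z → ∃ γ ∈ Γ, s' = γ.1 s)
    (hgood : ∀ γ ∈ Γ, W.pull γ b₂ = b₂) (hsurj : ∀ s, s ∉ ⋃₀ A → ∃ μ, h.mk s μ ∈ Z) :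
    ∃ ζ ∈ W.Alg P, ∃ c, W.tr P (ζ * (W.pull p b₁ * W.pull r c)) ≠ 0 := by
  classical
  have hA1 : ∀ a ∈ A, IsClosed a := fun a ha => (hA' a ha).1
  have hBc := cg_closed_U hA hA1
  have hB : ¬ univ ⊆ ⋃₀ A := fun h0 => by
    obtain ⟨a, ha, h1⟩ := S.isSub_univ.subset_of_finite hA (F := id) hA1
      (by rwa [sUnion_eq_biUnion] at h0)
    exact (hA' a ha).2 (univ_subset_iff.1 h1)
  have hij : i + j = 2 * S.d := by
    by_contra h0
    exact hb (W.tr_mul_gr hb₁ hb₂ h0)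
  obtain ⟨D, hD, hDZ, hDu, hd⟩ := W.exists_sub_dominant p hZ S.isSub_univ hBc.isOpen_compl
    (not_subset.1 hB) fun s hs => by
      obtain ⟨μ, hμ⟩ := hsurj s hs.2
      exact ⟨_, hμ, h.fst_mk _ _⟩
  have hDB : ¬ D ⊆ p.1 ⁻¹' ⋃₀ A := fun h0 =>
    hB (hDu.ge.trans (hBc.closure_subset_iff.2 (image_subset_iff.2 h0)))
  have hDd : dim D = S.d := by
    obtain ⟨x, hx, hxB⟩ := not_subset.1 hDB
    have h1 := W.dim_le_of_finite' h Finset.univ hD (hBc.preimage p.continuous).isOpen_compl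
      ⟨x, hx, hxB⟩ fun x => (cg_fib_finite h hΓ hfib (r.1 x)).subset fun y hy =>
        ⟨hDZ hy.1.1, hy.1.2, Yv_ext fun i => hy.2 _ (Finset.mem_univ i)⟩
    exact le_antisymm (h1.trans (hc ▸ Finset.card_univ.le)) hd
  obtain ⟨Q, L, R, hP⟩ := exists_prod P P
  obtain ⟨T, sL, sR, hS⟩ := exists_prod S S
  obtain ⟨Δ, hΔ⟩ := W.cg_claim h hP hS hc hA hA1 hb₁ hb₂ hij hI hΓ hfib hgood hD hDd hDB hDu.ge
    Finset.univ
  obtain ⟨n, h1, h2⟩ := hΔ _ (hP.isSub hD hD)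
    (inter_subset_inter (preimage_mono hDZ) (preimage_mono hDZ))
    (fun j hj => absurd (Finset.mem_univ j) hj)
    (by rw [W.dim_isProd hP hD hD, hDd, hc, Finset.card_univ])
  have h3 := h2 (by
    rintro _ ⟨x, hx, rfl⟩
    exact ⟨by simpa using hx, by simpa using hx⟩)
  rw [W.cl_prod _ _ hP _ _ hD hD] at h1
  have h4 : W.tr _ (W.pull L (W.cl _ D) * W.pull R (W.cl _ D) * W.cgF p r L R b₁ b₂ Δ) ≠ 0 := by
    rw [h1]
    exact mul_ne_zero (by exact_mod_cast h3.ne') hb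
  have hζ := W.cl_mem_Alg hD
  generalize W.cl _ D = ζ at hζ h4
  refine ⟨ζ, hζ, ?_⟩
  by_contra hne
  push Not at hne
  have h5 := W.prod_span (isProd_sum τ τ) (LinearMap.ker (W.tr _ ∘ₗ
    LinearMap.mulLeft K (W.pull L ζ * W.pull R ζ) ∘ₗ
    LinearMap.mulRight K (W.pull (p.comp R) b₂) ∘ₗ LinearMap.mulLeft K (W.pull (p.comp L) b₁) ∘ₗ
    (W.pull (cgM r L R)).toLinearMap)) fun c c' => by
      have e := W.tr_prod hP (ζ * (W.pull p b₁ * W.pull r c)) (ζ * (W.pull r c' * W.pull p b₂))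
      rw [hne, zero_mul] at e
      refine Eq.trans ?_ e
      show W.tr _ (W.pull L ζ * W.pull R ζ * (W.pull (p.comp L) b₁ * W.pull (cgM r L R)
        (W.pull (pL τ τ) c * W.pull (pR τ τ) c') * W.pull (p.comp R) b₂)) =
        W.tr _ (W.pull L (ζ * (W.pull p b₁ * W.pull r c)) *
          W.pull R (ζ * (W.pull r c' * W.pull p b₂)))
      have hcm := W.Alg_comm (W.pull_mem_Alg R hζ) (W.pull (p.comp L) b₁ * W.pull (r.comp L) c)
      simp only [map_mul, W.pull_pull]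
      rw [W.pull_congr (f := (pL τ τ).comp (cgM r L R)) (g := r.comp L) (fun _ => rfl),
        W.pull_congr (f := (pR τ τ).comp (cgM r L R)) (g := r.comp R) (fun _ => rfl)]
      have key : ∀ x y a a' e e' : W.H Q, y * (a * a') = a * a' * y →
          x * y * (a * (a' * e) * e') = x * (a * a') * (y * (e * e')) := by
        intro x y a a' e e' h
        calc x * y * (a * (a' * e) * e') = x * (y * (a * a')) * (e * e') := by
              simp only [mul_assoc]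
          _ = _ := by rw [h]; simp only [mul_assoc]
      exact congrArg _ (key _ _ _ _ _ _ hcm)
  have h6 : Δ ∈ (⊤ : Submodule K _) := Submodule.mem_top
  rw [← h5] at h6
  exact h4 h6

end Pool.Agent.MP_0c8446_ag
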