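import Pool.Agent.MP_0c8446_ag.CountF1

namespace Pool.Agent.MP_0c8446_ag

open Set

universe u v

variable {k : Type u} [Field k] [IsAlgClosed k] {q : ℕ} [IsQ k q] {K : Type v} [Field K] [CharZero K]

lemma cf_exists_N (q r : ℕ) : ∃ N, q ^ r - 1 = (q - 1) * N := by
  have h := Nat.sub_dvd_pow_sub_pow q 1 r
  rwa [one_pow] at h

omit [CharZero K] in
lemma cf_card_G : (Fintype.card (Gp k q true) : K) = ((q - 1 : ℕ) : K) ^ 2 := by
  classical
  rw [← Fintype.card_congr eqF, Fintype.card_prod, Fintype.card_units, card_Fq, Nat.cast_mul, sq]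

omit [CharZero K] in
open Classical in
lemma cf_sum_one : ∑ α : (Fq k q)ˣ, (1 : MulChar (Fq k q) K) α = ((q - 1 : ℕ) : K) := by
  simp only [MulChar.one_apply_coe, Finset.sum_const, Finset.card_univ, Fintype.card_units, card_Fq,
    nsmul_eq_mul, mul_one]

omit [IsAlgClosed k] [CharZero K] in
open Classical in
lemma cf_sum_ne {ω : MulChar (Fq k q) K} (h : ω ≠ 1) : ∑ α : (Fq k q)ˣ, ω α = 0 := by
  have h1 : (Units.coeHom K).comp ω.toUnitHom ≠ 1 := by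
    intro h1
    refine h (MulChar.ext fun a => ?_)
    simpa using DFunLike.congr_fun h1 a
  simpa using sum_hom_units_eq_zero _ h1

omit [IsAlgClosed k] [CharZero K] in
lemma cf_ch_one : ch true (1 : MulChar (Fq k q) K) 1 1 = 1 := chF_ext fun α β => by simp

omit [CharZero K] in
lemma cf_adm {e N : ℕ} [IsQ k e] (hN : e - 1 = (q - 1) * N) {ω₁ ω₂ : MulChar (Fq k q) K}
    (h₁ : ω₁ ≠ 1) (h₂ : ω₂ ≠ 1) (h : ω₁ * ω₂ ≠ 1) :
    ∑ g, (ch true ω₁ ω₂ 1 g : K) * ((fixSet true e g).ncard : K) =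
      Fintype.card (Gp k q true) * jacobiSum (cfL hN ω₁) (cfL hN ω₂) := by
  rw [cf_master hN, cf_sum_ne h₁, cf_sum_ne h₂, cf_sum_ne h, cf_card_G]
  ring

theorem fixSumF_one {r : ℕ} (hr : 0 < r) : fixSum true r (1 : Gp k q true →* Kˣ) =
    Fintype.card (Gp k q true) * ((q : K) ^ r + 1) := by
  classical
  have := isQ_pow k q hr
  obtain ⟨N, hN⟩ := cf_exists_N q r
  rw [← cf_ch_one, fixSum, cf_master hN, mul_one, cf_sum_one, cfL_one, jacobiSum_one_one, card_Fq,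
    cf_card_G, MulChar.one_apply (by simp)]
  push_cast
  ring

theorem fixSumF_not_adm {r : ℕ} (hr : 0 < r) {χ : Gp k q true →* Kˣ} (h1 : χ ≠ 1)
    (h : ¬ Adm true χ) : fixSum true r χ = 0 := by
  have := isQ_pow k q hr
  obtain ⟨N, hN⟩ := cf_exists_N q r
  obtain ⟨ω₁, ω₂, rfl⟩ := exists_chF χ
  rw [adm_true] at h
  rw [fixSum, cf_master hN]
  by_cases h₁ : ω₁ = 1
  · subst h₁
    have h₂ : ω₂ ≠ 1 := by
      rintro rfl
      exact h1 cf_ch_one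
    rw [one_mul, cf_sum_ne h₂, cf_sum_one, cfL_one, jacobiSum_one_nontrivial (cfL_ne_one hN h₂)]
    ring
  by_cases h₂ : ω₂ = 1
  · subst h₂
    rw [mul_one, cf_sum_ne h₁, cf_sum_one, cfL_one, jacobiSum_comm,
      jacobiSum_one_nontrivial (cfL_ne_one hN h₁)]
    ring
  have h₃ : ω₁ * ω₂ = 1 := by
    by_contra h₃
    exact h ⟨h₁, h₂, h₃⟩
  rw [h₃, cf_sum_ne h₁, cf_sum_ne h₂, cf_sum_one, eq_inv_of_mul_eq_one_right h₃, cfL_inv,
    jacobiSum_nontrivial_inv (cfL_ne_one hN h₁)]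
  ring

theorem fixSumF_adm {r : ℕ} (hr : 0 < r) {χ : Gp k q true →* Kˣ} (h : Adm true χ) :
    fixSum true r χ⁻¹ * fixSum true r χ =
      (Fintype.card (Gp k q true) : K) ^ 2 * (q : K) ^ r := by
  have := isQ_pow k q hr
  obtain ⟨N, hN⟩ := cf_exists_N q r
  obtain ⟨ω₁, ω₂, h₁, h₂, h₃, rfl⟩ := h
  have hc : ringChar K ≠ ringChar (Fq k (q ^ r)) := by
    rw [ringChar.eq_zero]
    exact (CharP.ringChar_ne_zero_of_finite _).symm
  have hJ := jacobiSum_mul_jacobiSum_inv hc (cfL_ne_one hN h₁) (cfL_ne_one hN h₂)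
    (by rw [← cfL_mul]; exact cfL_ne_one hN h₃)
  rw [ch_inv, inv_one, fixSum, fixSum, cf_adm hN h₁ h₂ h₃, cf_adm hN (inv_ne_one.2 h₁)
    (inv_ne_one.2 h₂) (by rwa [← mul_inv, inv_ne_one]), cfL_inv, cfL_inv]
  rw [card_Fq] at hJ
  push_cast at hJ
  linear_combination (Fintype.card (Gp k q true) : K) ^ 2 * hJ

theorem fixSum_jacobi {ω₁ ω₂ : MulChar (Fq k q) K} (h₁ : ω₁ ≠ 1) (h₂ : ω₂ ≠ 1) (h : ω₁ * ω₂ ≠ 1) :
    fixSum true 1 (ch true ω₁ ω₂ 1)⁻¹ = Fintype.card (Gp k q true) * jacobiSum ω₁ ω₂ := by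
  rw [ch_inv, inv_one, fixSum, pow_one, cf_adm (mul_one (q - 1)).symm (inv_ne_one.2 h₁)
    (inv_ne_one.2 h₂) (by rwa [← mul_inv, inv_ne_one]), cfL_self, cfL_self, inv_inv, inv_inv]

end Pool.Agent.MP_0c8446_ag
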