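import Pool.Agent.MP_0c8446_ag.CountFin
import Pool.Agent.MP_0c8446_ag.CountF

namespace Pool.Agent.MP_0c8446_ag

open Set

universe u v w

variable {k : Type u} [Field k] [IsAlgClosed k] {q : ℕ} [IsQ k q] {K : Type v} [Field K]
  [CharZero K] {ι : Type} [Fintype ι] {τ : ι → Bool}

lemma cd_exists (q : ℕ) [IsQ k q] (u : k) : ∃ y : k, y ^ q - y = u := by
  have hq := IsQ.one_lt (k := k) (q := q)
  have hd : (Polynomial.X ^ q - Polynomial.X - Polynomial.C u : Polynomial k).degree ≠ 0 := by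
    intro h
    have h1 := Polynomial.coeff_eq_zero_of_degree_lt (n := q)
      (p := (Polynomial.X ^ q - Polynomial.X - Polynomial.C u : Polynomial k))
      (by rw [h]; exact_mod_cast (by omega : 0 < q))
    simp only [Polynomial.coeff_sub, Polynomial.coeff_X_pow, if_true, Polynomial.coeff_X,
      Polynomial.coeff_C] at h1
    rw [if_neg (by omega), if_neg (by omega)] at h1
    simp at h1
  obtain ⟨y, hy⟩ := IsAlgClosed.exists_root _ hd
  refine ⟨y, ?_⟩
  simp only [Polynomial.IsRoot.def, Polynomial.eval_sub, Polynomial.eval_pow, Polynomial.eval_X,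
    Polynomial.eval_C] at hy
  linear_combination hy

/-- A solution of `y ^ q - y = u`. -/
noncomputable def cdY (q : ℕ) [IsQ k q] (u : k) : k := (cd_exists q u).choose

lemma cdY_spec (u : k) : cdY q u ^ q - cdY q u = u := (cd_exists q u).choose_spec

/-- The solutions of `y ^ q - y = u`. -/
noncomputable def cdR (q : ℕ) [IsQ k q] (u : k) : Finset k :=
  open Classical in Finset.univ.image fun a : Fq k q => cdY q u + a

lemma cd_mem_R {u y : k} : y ∈ cdR q u ↔ y ^ q - y = u := by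
  classical
  simp only [cdR, Finset.mem_image, Finset.mem_univ, true_and]
  constructor
  · rintro ⟨a, rfl⟩
    rw [IsQ.add_pow, Fq_pow]
    linear_combination cdY_spec (q := q) u
  · intro h
    refine ⟨⟨y - cdY q u, ?_⟩, by simp⟩
    rw [mem_Fq, IsQ.sub_pow]
    linear_combination h - cdY_spec (q := q) u

lemma cd_card_R (u : k) : (cdR q u).card = q := by
  classical
  unfold cdR
  rw [Finset.card_image_of_injective _ fun a b h => Subtype.ext (add_left_cancel h),
    Finset.card_univ, card_Fq]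

variable {e N : ℕ} [IsQ k e]

omit [IsAlgClosed k] in
lemma cd_sub (hN : e - 1 = (q - 1) * N) {a : k} (ha : a ^ q = a) : a ^ e = a := by
  by_cases h : a = 0
  · have := IsQ.one_lt (k := k) (q := e)
    rw [h, zero_pow (by omega)]
  · rw [IsQ.pow_eq q] at ha
    have h1 : a ^ (q - 1) = 1 := mul_right_cancel₀ h (ha.trans (one_mul _).symm)
    rw [IsQ.pow_eq e, hN, pow_mul, h1, one_pow, one_mul]

lemma cd_indep (hN : e - 1 = (q - 1) * N) {u y : k} (h : y ^ q - y = u) :
    cdY q u - cdY q u ^ e = y - y ^ e := by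
  have h1 : (y - cdY q u) ^ q = y - cdY q u := by
    rw [IsQ.sub_pow]
    linear_combination h - cdY_spec (q := q) u
  have h2 := cd_sub hN h1
  rw [IsQ.sub_pow] at h2
  linear_combination h2

/-- Minus the trace map. -/
noncomputable def cdT (hN : e - 1 = (q - 1) * N) : Fq k e →+ Fq k q where
  toFun u := ⟨cdY q (u : k) - cdY q (u : k) ^ e, by
    have h1 := congrArg (· ^ e) (cdY_spec (q := q) (u : k))
    simp only [IsQ.sub_pow, Fq_pow] at h1
    rw [mem_Fq, IsQ.sub_pow, ← pow_mul, mul_comm, pow_mul]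
    linear_combination cdY_spec (q := q) (u : k) - h1⟩
  map_zero' := by
    have := IsQ.one_lt (k := k) (q := e)
    have h := IsQ.one_lt (k := k) (q := q)
    refine Subtype.ext ?_
    change cdY q ((0 : Fq k e) : k) - cdY q ((0 : Fq k e) : k) ^ e = 0
    rw [cd_indep hN (y := 0) (by simp [show q ≠ 0 by omega])]
    simp [show e ≠ 0 by omega]
  map_add' u w := by
    refine Subtype.ext ?_
    change cdY q ((u + w : Fq k e) : k) - cdY q ((u + w : Fq k e) : k) ^ e =
      (cdY q (u : k) - cdY q (u : k) ^ e) + (cdY q (w : k) - cdY q (w : k) ^ e)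
    rw [cd_indep hN (y := cdY q (u : k) + cdY q (w : k)), IsQ.add_pow]
    · ring
    · rw [IsQ.add_pow, Subfield.coe_add]
      linear_combination cdY_spec (q := q) (u : k) + cdY_spec (q := q) (w : k)

lemma cdT_val (hN : e - 1 = (q - 1) * N) (u : Fq k e) {y : k} (h : y ^ q - y = u) :
    (cdT hN u : k) = y - y ^ e := cd_indep hN h

lemma cdT_surj (hN : e - 1 = (q - 1) * N) (γ : Fq k q) : ∃ u : Fq k e, cdT hN u = γ := by
  obtain ⟨y, hy⟩ := cd_exists e (-(γ : k))
  refine ⟨⟨y ^ q - y, ?_⟩, Subtype.ext ?_⟩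
  · have h1 : y ^ e = y - γ := by linear_combination hy
    rw [mem_Fq, IsQ.sub_pow, ← pow_mul, mul_comm, pow_mul, h1, IsQ.sub_pow, Fq_pow]
    ring
  · rw [cdT_val hN _ (y := y) rfl]
    linear_combination -hy

/-- The additive character lifted to the larger field. -/
noncomputable def cdL (hN : e - 1 = (q - 1) * N) (ψ : AddChar (Fq k q) K) : AddChar (Fq k e) K :=
  ψ.compAddMonoidHom (cdT hN)

omit [CharZero K] in
lemma cdL_val (hN : e - 1 = (q - 1) * N) (ψ : AddChar (Fq k q) K) (u : Fq k e) :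
    cdL hN ψ u = ψ (cdT hN u) := rfl

omit [CharZero K] in
lemma cdL_one (hN : e - 1 = (q - 1) * N) : cdL hN (1 : AddChar (Fq k q) K) = 1 :=
  AddChar.ext _ _ fun u => by simp [cdL_val]

omit [CharZero K] in
lemma cdL_inv (hN : e - 1 = (q - 1) * N) (ψ : AddChar (Fq k q) K) :
    cdL hN ψ⁻¹ = (cdL hN ψ)⁻¹ :=
  AddChar.ext _ _ fun u => by
    rw [cdL_val, AddChar.inv_apply, AddChar.inv_apply, cdL_val, map_neg (cdT hN)]

omit [CharZero K] in
lemma cdL_ne_one (hN : e - 1 = (q - 1) * N) {ψ : AddChar (Fq k q) K} (h : ψ ≠ 1) :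
    cdL hN ψ ≠ 1 := by
  intro h1
  refine h (AddChar.ext _ _ fun γ => ?_)
  obtain ⟨u, rfl⟩ := cdT_surj hN γ
  rw [← cdL_val, h1, AddChar.one_apply, AddChar.one_apply]

omit [CharZero K] in
lemma cdL_self (hN : q - 1 = (q - 1) * 1) (ψ : AddChar (Fq k q) K) : cdL hN ψ = ψ⁻¹ := by
  refine AddChar.ext _ _ fun u => ?_
  have : cdT hN u = -u := by
    refine Subtype.ext ?_
    rw [cdT_val hN u (cdY_spec _), Subfield.coe_neg]
    linear_combination -cdY_spec (q := q) (u : k)
  rw [cdL_val, this, AddChar.inv_apply]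

/-- The solutions fixed by the twisted Frobenius. -/
noncomputable def cdB (e : ℕ) (γ : Fq k q) (u : k) : Finset k :=
  open Classical in (cdR q u).filter fun y => y ^ e + γ = y

omit [IsQ k e] in
lemma cd_mem_B {γ : Fq k q} {u y : k} : y ∈ cdB e γ u ↔ y ^ q - y = u ∧ y ^ e + γ = y := by
  simp [cdB, cd_mem_R]

omit [CharZero K] in
lemma cd_sumB (hN : e - 1 = (q - 1) * N) (ψ : AddChar (Fq k q) K) (u : Fq k e) :
    ∑ γ : Fq k q, ψ γ * ((cdB e γ (u : k)).card : K) = (q : K) * cdL hN ψ u := by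
  classical
  have h1 : ∀ γ : Fq k q, (cdB e γ (u : k)).card = if γ = cdT hN u then q else 0 := by
    intro γ
    have key : ∀ y : k, y ^ q - y = u → (y ^ e + γ = y ↔ γ = cdT hN u) := by
      intro y hy
      rw [Subtype.ext_iff, cdT_val hN u hy]
      constructor <;> intro h <;> linear_combination h
    split_ifs with h
    · refine Eq.trans ?_ (cd_card_R (q := q) (u : k))
      congr 1
      ext y
      rw [cd_mem_B, cd_mem_R]
      exact ⟨fun h => h.1, fun hy => ⟨hy, (key y hy).2 h⟩⟩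
    · rw [Finset.card_eq_zero, Finset.eq_empty_iff_forall_notMem]
      intro y hy
      rw [cd_mem_B] at hy
      exact h ((key y hy.1).1 hy.2)
  simp only [h1, Nat.cast_ite, Nat.cast_zero, mul_ite, mul_zero, Finset.sum_ite_eq',
    Finset.mem_univ, if_true, cdL_val]
  rw [mul_comm]

/-- The number of fixed points. -/
lemma cd_ncard (α : (Fq k q)ˣ) (γ : Fq k q) : (fixSet false e (gD α γ)).ncard =
    ∑ u : Fq k e, (cfA e α (u : k)).card * (cdB e γ (u : k)).card + 1 := by
  classical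
  have he := IsQ.one_lt (k := k) (q := e)
  let S : Finset (Σ _ : Fq k e, k × k) :=
    Finset.univ.sigma fun u => cfA e α (u : k) ×ˢ cdB e γ (u : k)
  let f : (Σ _ : Fq k e, k × k) → P2 k := fun a => pt3 a.2.1 a.2.2 1
  have haff : ∀ x y : k, pt3 x y 1 ∈ fixSet false e (gD α γ) ↔ y ^ q - y = x ^ (q - 1) ∧
      ((α : Fq k q) : k) * x ^ e = x ∧ y ^ e + γ = y := by
    intro x y
    simp only [fixSet, mem_ofPred_eq, aff_mem_dh]
    rw [frob_pt3 e (aff_ne_zero x y), one_pow, lin_pt3 _ (aff_ne_zero _ _)]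
    refine and_congr_right fun _ => ⟨fun h => ⟨?_, ?_⟩, fun h => ?_⟩
    · simpa using congrArg ax h
    · simpa using congrArg ay h
    · simp [h.1, h.2]
  have hinf : pt3 1 0 0 ∈ fixSet false e (gD α γ) := by
    refine ⟨inf_mem_dh, ?_⟩
    rw [frob_pt3 e (by simp), one_pow, zero_pow (by omega), lin_inf]
  have hset : fixSet false e (gD α γ) = ↑(insert (pt3 1 0 0) (S.image f)) := by
    ext P
    simp only [Finset.coe_insert, Finset.coe_image, mem_insert_iff, mem_image, Finset.mem_coe]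
    constructor
    · intro hP
      by_cases hfin : IsFin P
      · right
        rw [← hfin.eq_aff, haff] at hP
        obtain ⟨h1, h2, h3⟩ := hP
        have hu : ax P ^ (q - 1) ∈ Fq k e := by
          rw [mem_Fq, ← pow_mul, mul_comm, pow_mul]
          conv_rhs => rw [← h2, mul_pow, Fq_unit_pow, one_mul]
        refine ⟨⟨⟨_, hu⟩, ax P, ay P⟩, ?_, hfin.eq_aff⟩
        simp only [S, Finset.mem_sigma, Finset.mem_univ, Finset.mem_product, cf_mem_A, cd_mem_B,
          true_and]
        exact ⟨h2, h1, h3⟩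
      · exact Or.inl (eq_inf_of_dh hP.1 hfin)
    · rintro (rfl | ⟨⟨u, x, y⟩, ha, rfl⟩)
      · exact hinf
      · simp only [S, Finset.mem_sigma, Finset.mem_univ, Finset.mem_product, cf_mem_A, cd_mem_B,
          true_and] at ha
        obtain ⟨⟨h1, h2⟩, h3, h4⟩ := ha
        exact (haff x y).2 ⟨h3.trans h1.symm, h2, h4⟩
  rw [hset, ncard_coe_finset, Finset.card_insert_of_notMem, Finset.card_image_of_injOn,
    Finset.card_sigma]
  · simp only [Finset.card_product]
  · rintro ⟨u, x, y⟩ ha ⟨u', x', y'⟩ ha' hxy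
    have h1 : x = x' := by simpa [f] using congrArg ax hxy
    have h2 : y = y' := by simpa [f] using congrArg ay hxy
    subst h1 h2
    simp only [S, Finset.mem_coe, Finset.mem_sigma, Finset.mem_univ, Finset.mem_product, cf_mem_A,
      true_and] at ha ha'
    have h3 : u = u' := Subtype.ext (ha.1.1.symm.trans ha'.1.1)
    rw [h3]
  · intro h1
    obtain ⟨a, -, h2⟩ := Finset.mem_image.1 h1
    have h3 : IsFin (f a) := isFin_aff _ _
    rw [h2] at h3
    exact not_isFin_inf h3

omit [CharZero K] in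
lemma cd_card_G : (Fintype.card (Gp k q false) : K) = ((q - 1 : ℕ) : K) * q := by
  classical
  rw [← Fintype.card_congr eqD, Fintype.card_prod, Fintype.card_units, card_Fq, Nat.cast_mul]

omit [CharZero K] in
open Classical in
/-- The master formula. -/
lemma cd_master (hN : e - 1 = (q - 1) * N) (ω : MulChar (Fq k q) K) (ψ : AddChar (Fq k q) K) :
    ∑ g, (ch false ω 1 ψ g : K) * ((fixSet false e g).ncard : K) =
      Fintype.card (Gp k q false) * gaussSum (cfL hN ω) (cdL hN ψ) +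
        (∑ α : (Fq k q)ˣ, ω α) * (q + ∑ γ : Fq k q, ψ γ) := by
  rw [← eqD.sum_comp, Fintype.sum_prod_type]
  have h0 : ∀ (α : (Fq k q)ˣ) (γ : Fq k q), eqD (α, γ) = gD α γ := fun _ _ => rfl
  simp only [h0, ch_gD, cd_ncard, Nat.cast_add, Nat.cast_sum, Nat.cast_mul, mul_add,
    Finset.sum_add_distrib, Nat.cast_one, mul_one]
  have h1 : ∑ α : (Fq k q)ˣ, ∑ γ : Fq k q, ω α * ψ γ * ∑ u : Fq k e,
      ((cfA e α (u : k)).card : K) * ((cdB e γ (u : k)).card : K) =
      ∑ u : Fq k e, (∑ α : (Fq k q)ˣ, ω α * ((cfA e α (u : k)).card : K)) *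
        ∑ γ : Fq k q, ψ γ * ((cdB e γ (u : k)).card : K) := by
    simp only [Finset.mul_sum, Finset.sum_mul]
    rw [Finset.sum_comm (s := (Finset.univ : Finset (Fq k e)))]
    rw [Finset.sum_comm]
    refine Finset.sum_congr rfl fun β _ => ?_
    rw [Finset.sum_comm]
    refine Finset.sum_congr rfl fun u _ => Finset.sum_congr rfl fun α _ => by ring
  rw [h1, ← Finset.sum_mul_sum, cd_card_G]
  simp only [cf_sumA hN, cd_sumB hN]
  generalize ∑ α : (Fq k q)ˣ, ω α = s₁
  generalize ∑ γ : Fq k q, ψ γ = s₂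
  simp only [add_mul, Finset.sum_add_distrib, ite_mul, zero_mul, Finset.sum_ite_eq',
    Finset.mem_univ, if_true, AddChar.map_zero_eq_one, mul_one, gaussSum, Finset.mul_sum]
  have h3 : ∑ x : Fq k e, ((q - 1 : ℕ) : K) * cfL hN ω x * ((q : K) * cdL hN ψ x) =
      ∑ x : Fq k e, ((q - 1 : ℕ) : K) * q * (cfL hN ω x * cdL hN ψ x) :=
    Finset.sum_congr rfl fun x _ => by ring
  rw [h3]
  ring

omit [IsAlgClosed k] [CharZero K] in
lemma cd_ch_one : ch false (1 : MulChar (Fq k q) K) 1 1 = 1 := chD_ext fun α β => by simp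

theorem fixSumD_one {r : ℕ} (hr : 0 < r) : fixSum false r (1 : Gp k q false →* Kˣ) = Fintype.card (Gp k q false) * ((q : K) ^ r + 1) := by
  classical
  have := isQ_pow k q hr
  have h1 := IsQ.one_lt (k := k) (q := q ^ r)
  obtain ⟨N, hN⟩ := cf_exists_N q r
  rw [← cd_ch_one, fixSum, cd_master hN, cf_sum_one, cfL_one, cdL_one, gaussSum_one_one,
    AddChar.sum_eq_card_of_eq_one rfl, Nat.card_eq_fintype_card, Fintype.card_units, card_Fq,
    card_Fq, cd_card_G, Nat.cast_sub h1.le]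
  push_cast
  ring

theorem fixSumD_not_adm {r : ℕ} (hr : 0 < r) {χ : Gp k q false →* Kˣ} (h1 : χ ≠ 1) (h : ¬ Adm false χ) : fixSum false r χ = 0 := by
  have := isQ_pow k q hr
  obtain ⟨N, hN⟩ := cf_exists_N q r
  obtain ⟨ω, ψ, rfl⟩ := exists_chD χ
  rw [adm_false] at h
  rw [fixSum, cd_master hN]
  by_cases h₁ : ω = 1
  · subst h₁
    have h₂ : ψ ≠ 1 := by
      rintro rfl
      exact h1 cd_ch_one
    rw [cf_sum_one, cfL_one, gaussSum_one_left (cdL_ne_one hN h₂),
      AddChar.sum_eq_zero_of_ne_one h₂, cd_card_G]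
    ring
  · have h₂ : ψ = 1 := by
      by_contra h₂
      exact h ⟨h₁, h₂⟩
    subst h₂
    rw [cf_sum_ne h₁, cdL_one, gaussSum_one_right (cfL_ne_one hN h₁)]
    ring

theorem fixSumD_adm {r : ℕ} (hr : 0 < r) {χ : Gp k q false →* Kˣ} (h : Adm false χ) : fixSum false r χ⁻¹ * fixSum false r χ = (Fintype.card (Gp k q false) : K) ^ 2 * (q : K) ^ r := by
  have := isQ_pow k q hr
  obtain ⟨N, hN⟩ := cf_exists_N q r
  obtain ⟨ω, ψ, h₁, h₂, rfl⟩ := h
  have hJ := gaussSum_mul_gaussSum_eq_card (cfL_ne_one hN h₁)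
    (AddChar.IsPrimitive.of_ne_one (cdL_ne_one hN h₂))
  rw [ch_inv, inv_one, fixSum, fixSum, cd_master hN, cd_master hN, cf_sum_ne h₁,
    cf_sum_ne (inv_ne_one.2 h₁), cfL_inv, cdL_inv]
  rw [card_Fq] at hJ
  push_cast at hJ
  linear_combination (Fintype.card (Gp k q false) : K) ^ 2 * hJ

theorem fixSum_gauss {ω : MulChar (Fq k q) K} {ψ : AddChar (Fq k q) K} (hω : ω ≠ 1) (hψ : ψ ≠ 1) : fixSum false 1 (ch false ω 1 ψ)⁻¹ = Fintype.card (Gp k q false) * gaussSum ω ψ := by
  rw [ch_inv, inv_one, fixSum, pow_one, cd_master (mul_one (q - 1)).symm,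
    cf_sum_ne (inv_ne_one.2 hω), cfL_self, cdL_self, inv_inv, inv_inv, zero_mul, add_zero]

end Pool.Agent.MP_0c8446_ag
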