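import Pool.Agent.MP_0c8446_ag.GChar

namespace Pool.Agent.MP_0c8446_ag

open Set

universe u v

variable {k : Type u} [Field k] {q : ℕ} [IsQ k q] {K : Type v} [Field K]

/-- The `(q-1)`-th roots of `u`. -/
noncomputable def cfR (q : ℕ) (u : k) : Finset k :=
  open Classical in (Polynomial.nthRoots (q - 1) u).toFinset

lemma cf_mem_R {u x : k} : x ∈ cfR q u ↔ x ^ (q - 1) = u := by
  simp [cfR, Polynomial.mem_nthRoots (IsQ.pos k q)]

lemma cf_card_R [IsAlgClosed k] {u : k} (hu : u ≠ 0) : (cfR q u).card = q - 1 := by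
  classical
  have hm : ((q - 1 : ℕ) : k) ≠ 0 := by rw [IsQ.cast_pred]; simp
  have hs := Polynomial.separable_X_pow_sub_C u hm hu
  have h1 := Polynomial.nodup_roots hs
  have h2 := (IsAlgClosed.splits (Polynomial.X ^ (q - 1) - Polynomial.C u)).natDegree_eq_card_roots
  rw [Polynomial.natDegree_X_pow_sub_C] at h2
  unfold cfR Polynomial.nthRoots
  convert (Multiset.toFinset_card_of_nodup h1).trans h2.symm

/-- The roots fixed by the twisted Frobenius. -/
noncomputable def cfA (e : ℕ) (α : (Fq k q)ˣ) (u : k) : Finset k :=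
  open Classical in (cfR q u).filter fun x => ((α : Fq k q) : k) * x ^ e = x

lemma cf_mem_A {e : ℕ} {α : (Fq k q)ˣ} {u x : k} :
    x ∈ cfA e α u ↔ x ^ (q - 1) = u ∧ ((α : Fq k q) : k) * x ^ e = x := by
  simp [cfA, cf_mem_R]

variable {e N : ℕ} [IsQ k e]

/-- The norm map `u ↦ u ^ N`. -/
def cfNm (hN : e - 1 = (q - 1) * N) : (Fq k e)ˣ →* (Fq k q)ˣ where
  toFun u := toFqUnit (((u : Fq k e) : k) ^ N) (by rw [← pow_mul, mul_comm, ← hN, Fq_unit_pow])
  map_one' := by ext; simp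
  map_mul' u w := by ext; simp [mul_pow]

@[simp] lemma cfNm_val (hN : e - 1 = (q - 1) * N) (u : (Fq k e)ˣ) :
    ((cfNm hN u : Fq k q) : k) = ((u : Fq k e) : k) ^ N := rfl

lemma cfNm_surj [IsAlgClosed k] (hN : e - 1 = (q - 1) * N) (a : (Fq k q)ˣ) :
    ∃ u : (Fq k e)ˣ, cfNm hN u = a := by
  obtain ⟨x, hx⟩ := IsAlgClosed.exists_pow_nat_eq ((a : Fq k q) : k) (IsQ.pos k e)
  refine ⟨toFqUnit (x ^ (q - 1)) ?_, ?_⟩
  · rw [← pow_mul, mul_comm, pow_mul, hx, Fq_unit_pow]
  · ext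
    rw [cfNm_val, toFqUnit_val, ← pow_mul, ← hN, hx]

/-- The character `u ↦ ω(u ^ N)⁻¹`. -/
noncomputable def cfL (hN : e - 1 = (q - 1) * N) (ω : MulChar (Fq k q) K) : MulChar (Fq k e) K :=
  MulChar.ofUnitHom (ω⁻¹.toUnitHom.comp (cfNm hN))

lemma cfL_val (hN : e - 1 = (q - 1) * N) (ω : MulChar (Fq k q) K) (u : (Fq k e)ˣ) :
    cfL hN ω u = (ω (cfNm hN u))⁻¹ := by
  rw [cfL, MulChar.ofUnitHom_coe, MonoidHom.comp_apply, MulChar.coe_toUnitHom,
    MulChar.inv_apply_eq_inv']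

lemma cfL_one (hN : e - 1 = (q - 1) * N) : cfL hN (1 : MulChar (Fq k q) K) = 1 :=
  MulChar.ext fun u => by simp [cfL_val]

lemma cfL_mul (hN : e - 1 = (q - 1) * N) (ω ω' : MulChar (Fq k q) K) :
    cfL hN (ω * ω') = cfL hN ω * cfL hN ω' :=
  MulChar.ext fun u => by simp [cfL_val, mul_comm]

lemma cfL_inv (hN : e - 1 = (q - 1) * N) (ω : MulChar (Fq k q) K) :
    cfL hN ω⁻¹ = (cfL hN ω)⁻¹ :=
  MulChar.ext fun u => by simp [cfL_val, MulChar.inv_apply_eq_inv']

lemma cfL_ne_one [IsAlgClosed k] (hN : e - 1 = (q - 1) * N) {ω : MulChar (Fq k q) K} (h : ω ≠ 1) :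
    cfL hN ω ≠ 1 := by
  intro h1
  refine h (MulChar.ext fun a => ?_)
  obtain ⟨u, rfl⟩ := cfNm_surj hN a
  have h2 := cfL_val hN ω u
  rw [h1, MulChar.one_apply_coe] at h2
  rw [MulChar.one_apply_coe, ← inv_eq_one, ← h2]

lemma cfL_self (hN : q - 1 = (q - 1) * 1) (ω : MulChar (Fq k q) K) : cfL hN ω = ω⁻¹ := by
  refine MulChar.ext fun u => ?_
  have : cfNm hN u = u := by ext; simp
  rw [cfL_val, this, MulChar.inv_apply_eq_inv']

open Classical in
lemma cf_sumA [IsAlgClosed k] (hN : e - 1 = (q - 1) * N) (ω : MulChar (Fq k q) K) (u : Fq k e) :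
    ∑ α : (Fq k q)ˣ, ω α * ((cfA e α (u : k)).card : K) =
      ((q - 1 : ℕ) : K) * cfL hN ω u + if u = 0 then ∑ α : (Fq k q)ˣ, ω α else 0 := by
  by_cases hu : u = 0
  · subst hu
    have h1 : ∀ α : (Fq k q)ˣ, cfA e α ((0 : Fq k e) : k) = {0} := by
      intro α
      ext x
      have := IsQ.one_lt (k := k) (q := e)
      rw [cf_mem_A, Finset.mem_singleton]
      constructor
      · rintro ⟨h, -⟩
        exact pow_eq_zero_iff (IsQ.pos k q).ne' |>.1 h
      · rintro rfl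
        simp [(IsQ.pos k q).ne', show e ≠ 0 by omega]
    simp only [h1, Finset.card_singleton, Nat.cast_one, mul_one, MulChar.map_zero, mul_zero,
      zero_add, if_true]
  · obtain ⟨w, rfl⟩ : ∃ w : (Fq k e)ˣ, u = w := ⟨Units.mk0 u hu, rfl⟩
    have hw : ((w : Fq k e) : k) ≠ 0 := by simp
    have h1 : ∀ α : (Fq k q)ˣ, (cfA e α ((w : Fq k e) : k)).card =
        if α = (cfNm hN w)⁻¹ then q - 1 else 0 := by
      intro α
      have key : ∀ x : k, x ^ (q - 1) = ((w : Fq k e) : k) →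
          (((α : Fq k q) : k) * x ^ e = x ↔ α = (cfNm hN w)⁻¹) := by
        intro x hx
        have hx0 : x ≠ 0 := by
          rintro rfl
          rw [zero_pow (IsQ.pos k q).ne'] at hx
          exact hw hx.symm
        rw [IsQ.pow_eq e x, hN, pow_mul, hx, ← mul_assoc, mul_left_eq_self₀, or_iff_left hx0,
          eq_inv_iff_mul_eq_one]
        constructor
        · intro h; ext; simpa using h
        · intro h; simpa using congrArg (fun a : (Fq k q)ˣ => ((a : Fq k q) : k)) h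
      split_ifs with h
      · rw [← cf_card_R (q := q) hw]
        congr 1
        ext x
        rw [cf_mem_A, cf_mem_R]
        exact ⟨fun h => h.1, fun hx => ⟨hx, (key x hx).2 h⟩⟩
      · rw [Finset.card_eq_zero, Finset.eq_empty_iff_forall_notMem]
        intro x hx
        rw [cf_mem_A] at hx
        exact h ((key x hx.1).1 hx.2)
    simp only [h1, Nat.cast_ite, Nat.cast_zero, mul_ite, mul_zero, Finset.sum_ite_eq',
      Finset.mem_univ, if_true, if_neg hu, add_zero, cfL_val]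
    rw [mul_comm, ← MulChar.coe_toUnitHom, map_inv, Units.val_inv_eq_inv_val, MulChar.coe_toUnitHom]

lemma cf_neg_one_mem : (-1 : k) ∈ Fq k e := neg_mem (one_mem _)

/-- The number of fixed points. -/
lemma cf_ncard (α β : (Fq k q)ˣ) : (fixSet true e (gF α β)).ncard =
    ∑ u : Fq k e, (cfA e α (u : k)).card * (cfA e β ((1 - u : Fq k e) : k)).card +
      (cfA e (α * β⁻¹) ((-1 : Fq k e) : k)).card := by
  classical
  have he := IsQ.one_lt (k := k) (q := e)
  have hm := IsQ.pos k q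
  have hβ : ((β : Fq k q) : k) ≠ 0 := by simp
  let S : Finset (Σ _ : Fq k e, k × k) :=
    Finset.univ.sigma fun u => cfA e α (u : k) ×ˢ cfA e β ((1 - u : Fq k e) : k)
  let f : (Σ _ : Fq k e, k × k) → P2 k := fun a => pt3 a.2.1 a.2.2 1
  let T : Finset k := cfA e (α * β⁻¹) ((-1 : Fq k e) : k)
  let h : k → P2 k := fun x => pt3 x 1 0
  have hne : ∀ x : k, ![x, 1, 0] ≠ 0 := fun x => vec3_ne_zero.2 (Or.inr (Or.inl one_ne_zero))
  have haff : ∀ x y : k, pt3 x y 1 ∈ fixSet true e (gF α β) ↔ x ^ (q - 1) + y ^ (q - 1) = 1 ∧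
      ((α : Fq k q) : k) * x ^ e = x ∧ ((β : Fq k q) : k) * y ^ e = y := by
    intro x y
    simp only [fixSet, mem_ofPred_eq, aff_mem_fermat]
    rw [frob_pt3 e (aff_ne_zero x y), one_pow, lin_pt3 _ (aff_ne_zero _ _)]
    refine and_congr_right fun _ => ⟨fun h => ⟨?_, ?_⟩, fun h => ?_⟩
    · simpa using congrArg ax h
    · simpa using congrArg ay h
    · simp [h.1, h.2]
  have hinf : ∀ x : k, pt3 x 1 0 ∈ fixSet true e (gF α β) ↔ x ∈ T := by
    intro x
    simp only [fixSet, mem_ofPred_eq, T, cf_mem_A]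
    rw [pt3_mem_curve (hne x), frob_pt3 e (hne x), one_pow, zero_pow (by omega),
      lin_pt3 _ (hne _), pt3_eq_iff (lin_ne_zero _ (hne _)) (hne _)]
    refine and_congr ?_ ?_
    · simp [CEq, hm.ne', add_eq_zero_iff_eq_neg]
    · simp only [gF_val, ofFqUnit_val, toAdd_one, mul_zero, add_zero, mul_one, and_true,
        Units.val_mul, Units.val_inv_eq_inv_val, Subfield.coe_mul, Subfield.coe_inv]
      constructor
      · rintro ⟨c, -, h1, rfl⟩
        field_simp
        linear_combination h1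
      · intro h1
        refine ⟨_, hβ, ?_, rfl⟩
        field_simp at h1
        linear_combination h1
  have hset : fixSet true e (gF α β) = ↑(S.image f ∪ T.image h) := by
    ext P
    simp only [Finset.coe_union, Finset.coe_image, mem_union, mem_image, Finset.mem_coe]
    constructor
    · intro hP
      by_cases hfin : IsFin P
      · left
        rw [← hfin.eq_aff, haff] at hP
        obtain ⟨h1, h2, h3⟩ := hP
        have hu : ax P ^ (q - 1) ∈ Fq k e := by
          rw [mem_Fq, ← pow_mul, mul_comm, pow_mul]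
          conv_rhs => rw [← h2, mul_pow, Fq_unit_pow, one_mul]
        refine ⟨⟨⟨_, hu⟩, ax P, ay P⟩, ?_, hfin.eq_aff⟩
        simp only [S, Finset.mem_sigma, Finset.mem_univ, Finset.mem_product, cf_mem_A, true_and]
        refine ⟨h2, ?_, h3⟩
        simp [← h1]
      · right
        have h2 : P.rep 2 = 0 := not_not.1 hfin
        have h1 : P.rep 1 ≠ 0 := by
          intro h1
          have h3 := hP.1
          rw [mem_curve, h1, h2] at h3
          simp only [CEq, if_true, zero_pow hm.ne', add_zero, pow_eq_zero_iff hm.ne'] at h3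
          have h4 := vec3_ne_zero.1 (rep_ne_zero P)
          simp [h1, h2, h3] at h4
        have e1 : pt3 (P.rep 0 / P.rep 1) 1 0 = P := by
          rw [← pt3_smul h1, mul_div_cancel₀ _ h1, mul_one, mul_zero, ← h2, pt3_rep]
        refine ⟨P.rep 0 / P.rep 1, ?_, e1⟩
        rw [← hinf, e1]
        exact hP
    · rintro (⟨⟨u, x, y⟩, ha, rfl⟩ | ⟨x, hx, rfl⟩)
      · simp only [S, Finset.mem_sigma, Finset.mem_univ, Finset.mem_product, cf_mem_A,
          true_and] at ha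
        obtain ⟨⟨h1, h2⟩, h3, h4⟩ := ha
        refine (haff x y).2 ⟨?_, h2, h4⟩
        rw [h1, h3]
        simp
      · exact (hinf x).2 hx
  rw [hset, ncard_coe_finset, Finset.card_union_of_disjoint, Finset.card_image_of_injOn,
    Finset.card_image_of_injOn, Finset.card_sigma]
  · simp only [Finset.card_product, T]
  · intro x _ y _ hxy
    obtain ⟨c, -, h1, h2, -⟩ := (pt3_eq_iff (hne x) (hne y)).1 hxy
    rw [h1, ← mul_one c, ← h2, one_mul]
  · rintro ⟨u, x, y⟩ ha ⟨u', x', y'⟩ ha' hxy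
    have h1 : x = x' := by simpa [f] using congrArg ax hxy
    have h2 : y = y' := by simpa [f] using congrArg ay hxy
    subst h1 h2
    simp only [S, Finset.mem_coe, Finset.mem_sigma, Finset.mem_univ, Finset.mem_product, cf_mem_A,
      true_and] at ha ha'
    have h3 : u = u' := Subtype.ext (ha.1.1.symm.trans ha'.1.1)
    rw [h3]
  · rw [Finset.disjoint_left]
    intro P h1 h2
    obtain ⟨a, -, rfl⟩ := Finset.mem_image.1 h1
    obtain ⟨x, -, h3⟩ := Finset.mem_image.1 h2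
    have h4 : IsFin (h x) := h3 ▸ isFin_aff _ _
    exact (isFin_pt3 (hne x)).1 h4 rfl

open Classical in
/-- The master formula. -/
lemma cf_master [IsAlgClosed k] (hN : e - 1 = (q - 1) * N) (ω₁ ω₂ : MulChar (Fq k q) K) :
    ∑ g, (ch true ω₁ ω₂ 1 g : K) * ((fixSet true e g).ncard : K) =
      ((q - 1 : ℕ) : K) ^ 2 * jacobiSum (cfL hN ω₁) (cfL hN ω₂) +
        ((q - 1 : ℕ) : K) * (∑ α : (Fq k q)ˣ, ω₁ α + ∑ α : (Fq k q)ˣ, ω₂ α +
          cfL hN ω₁ (-1) * ∑ α : (Fq k q)ˣ, (ω₁ * ω₂) α) := by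
  rw [← eqF.sum_comp, Fintype.sum_prod_type]
  have h0 : ∀ α β : (Fq k q)ˣ, eqF (α, β) = gF α β := fun _ _ => rfl
  simp only [h0, ch_gF, cf_ncard, Nat.cast_add, Nat.cast_sum, Nat.cast_mul, mul_add,
    Finset.sum_add_distrib]
  have h1 : ∑ α : (Fq k q)ˣ, ∑ β : (Fq k q)ˣ, ω₁ α * ω₂ β * ∑ u : Fq k e,
      ((cfA e α (u : k)).card : K) * ((cfA e β ((1 - u : Fq k e) : k)).card : K) =
      ∑ u : Fq k e, (∑ α : (Fq k q)ˣ, ω₁ α * ((cfA e α (u : k)).card : K)) *
        ∑ β : (Fq k q)ˣ, ω₂ β * ((cfA e β ((1 - u : Fq k e) : k)).card : K) := by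
    simp only [Finset.mul_sum, Finset.sum_mul]
    rw [Finset.sum_comm (s := (Finset.univ : Finset (Fq k e)))]
    rw [Finset.sum_comm]
    refine Finset.sum_congr rfl fun β _ => ?_
    rw [Finset.sum_comm]
    refine Finset.sum_congr rfl fun u _ => Finset.sum_congr rfl fun α _ => by ring
  have h2 : ∑ α : (Fq k q)ˣ, ∑ β : (Fq k q)ˣ, ω₁ α * ω₂ β *
      ((cfA e (α * β⁻¹) ((-1 : Fq k e) : k)).card : K) =
      (∑ γ : (Fq k q)ˣ, ω₁ γ * ((cfA e γ ((-1 : Fq k e) : k)).card : K)) *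
        ∑ β : (Fq k q)ˣ, (ω₁ * ω₂) β := by
    rw [Finset.sum_comm, Finset.mul_sum]
    refine Finset.sum_congr rfl fun β _ => ?_
    rw [← Equiv.sum_comp (Equiv.mulRight β), Finset.sum_mul]
    refine Finset.sum_congr rfl fun γ _ => ?_
    simp only [Equiv.coe_mulRight, mul_inv_cancel_right, Units.val_mul, map_mul,
      MulChar.mul_apply]
    ring
  rw [h1, h2]
  simp only [cf_sumA hN]
  rw [if_neg (by simp), add_zero]
  generalize ∑ α : (Fq k q)ˣ, ω₁ α = s₁
  generalize ∑ α : (Fq k q)ˣ, ω₂ α = s₂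
  generalize ∑ α : (Fq k q)ˣ, (ω₁ * ω₂) α = s₃
  simp only [add_mul, mul_add, Finset.sum_add_distrib, ite_mul, mul_ite, zero_mul, mul_zero,
    sub_eq_zero, eq_comm (a := (1 : Fq k e)), Finset.sum_ite_eq', Finset.mem_univ, if_true,
    sub_zero, map_one, jacobiSum, Finset.mul_sum, zero_ne_one, if_false]
  have h3 : ∑ x : Fq k e, ((q - 1 : ℕ) : K) * cfL hN ω₁ x * (((q - 1 : ℕ) : K) * cfL hN ω₂ (1 - x)) =
      ∑ x : Fq k e, ((q - 1 : ℕ) : K) ^ 2 * (cfL hN ω₁ x * cfL hN ω₂ (1 - x)) :=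
    Finset.sum_congr rfl fun x _ => by ring
  rw [h3]
  ring

end Pool.Agent.MP_0c8446_ag
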