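import Pool.Agent.MP_0c8446_ag.GChar

namespace Pool.Agent.MP_0c8446_ag

open Set

universe u v w

variable {k : Type u} [Field k] [IsAlgClosed k] {q : ℕ} [IsQ k q] {K : Type v} [Field K]
  [CharZero K] {ι : Type} [Fintype ι] {τ : ι → Bool}

omit [IsAlgClosed k] in
lemma cfin_roots {e : ℕ} (he : 1 < e) {a : k} (ha : a ≠ 0) (b c : k) :
    {x : k | a * x ^ e + c = b * x}.Finite := by
  have hp : (Polynomial.C a * Polynomial.X ^ e - Polynomial.C b * Polynomial.X + Polynomial.C c :
      Polynomial k) ≠ 0 := by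
    intro h
    have h1 := congrArg (fun p => Polynomial.coeff p e) h
    simp only [Polynomial.coeff_add, Polynomial.coeff_sub, Polynomial.coeff_C_mul,
      Polynomial.coeff_X_pow, if_true, Polynomial.coeff_X, Polynomial.coeff_C,
      Polynomial.coeff_zero] at h1
    rw [if_neg (by omega), if_neg (by omega)] at h1
    exact ha (by simpa using h1)
  refine (Polynomial.finite_setOfPred_isRoot hp).subset fun x hx => ?_
  simp only [mem_ofPred_eq, Polynomial.IsRoot.def, Polynomial.eval_add, Polynomial.eval_sub,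
    Polynomial.eval_mul, Polynomial.eval_C, Polynomial.eval_pow, Polynomial.eval_X] at hx ⊢
  linear_combination hx

theorem finite_fixSet (b : Bool) (e : ℕ) [IsQ k e] (g : Gp k q b) : (fixSet b e g).Finite := by
  have he := IsQ.one_lt (k := k) (q := e)
  have h1 := cfin_roots he g.1.1.ne_zero 1 0
  have h2 := cfin_roots he g.1.2.1.ne_zero 1 g.1.2.2.toAdd
  have h3 := cfin_roots he g.1.1.ne_zero (g.1.2.1 : k) 0
  refine ((((h1.prod h2).image fun a => pt3 a.1 a.2 1).union
    (h3.image fun x => pt3 x 1 0)).union (finite_singleton (pt3 1 0 0))).subset ?_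
  rintro P ⟨-, hP⟩
  by_cases hfin : IsFin P
  · refine Or.inl (Or.inl ⟨(ax P, ay P), ⟨?_, ?_⟩, hfin.eq_aff⟩)
    · have := congrArg ax hP
      rw [ax_lin, ax_frob] at this
      simpa using this
    · have := congrArg ay hP
      rw [ay_lin _ ((isFin_frob e P).2 hfin), ay_frob] at this
      simpa using this
  · have h4 : P.rep 2 = 0 := not_not.1 hfin
    by_cases h5 : P.rep 1 = 0
    · right
      have h6 := vec3_ne_zero.1 (rep_ne_zero P)
      simp only [h4, h5, ne_eq, not_true, or_false] at h6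
      rw [mem_singleton_iff, ← pt3_rep P, h4, h5, ← pt3_smul h6 1 0 0]
      simp
    · have e1 : pt3 (P.rep 0 / P.rep 1) 1 0 = P := by
        rw [← pt3_smul h5, mul_div_cancel₀ _ h5, mul_one, mul_zero, ← h4, pt3_rep]
      refine Or.inl (Or.inr ⟨P.rep 0 / P.rep 1, ?_, e1⟩)
      generalize P.rep 0 / P.rep 1 = x at e1
      have hne : ∀ x : k, ![x, 1, 0] ≠ 0 := fun x => vec3_ne_zero.2 (Or.inr (Or.inl one_ne_zero))
      rw [← e1, frob_pt3 e (hne x), one_pow, zero_pow (by omega), lin_pt3 _ (hne _),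
        pt3_eq_iff (lin_ne_zero _ (hne _)) (hne _)] at hP
      obtain ⟨c, -, k1, k2, -⟩ := hP
      simp only [mem_ofPred_eq]
      linear_combination k1 - x * k2

end Pool.Agent.MP_0c8446_ag
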