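import Pool.Agent.MP_0c8446_ag.Yv

namespace Pool.Agent.MP_0c8446_ag

open Set

universe u v w

namespace Weil

section

variable {k : Type u} [Field k] {K : Type v} [Field K] (W : Weil.{u, v, w} k K)

/-- The intersection form on the first cohomology. -/
noncomputable def lef1B (X : Var k) : LinearMap.BilinForm K (W.gr X 1) :=
  LinearMap.mk₂ K (fun a c => W.tr X (a.1 * c.1))
    (fun a b c => by simp [add_mul]) (fun t a c => by simp)
    (fun a b c => by simp [mul_add]) (fun t a c => by simp)

lemma lef1B_apply {X : Var k} (a c : W.gr X 1) : W.lef1B X a c = W.tr X (a.1 * c.1) := rfl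

lemma lef1_anti {X : Var k} {a c : W.H X} (ha : a ∈ W.gr X 1) (hc : c ∈ W.gr X 1) :
    a * c = -(c * a) := by
  rw [W.comm X 1 1 a ha c hc]
  simp

lemma lef1B_sepL {X : Var k} (hX : X.d = 1) (a : W.gr X 1) (h : ∀ c, W.lef1B X a c = 0) :
    a = 0 := by
  refine Subtype.ext (W.eq_zero_of_gr fun j b hb => ?_)
  by_cases hj : j = 1
  · subst hj
    exact h ⟨b, hb⟩
  · exact W.tr_mul_gr a.2 hb (by omega)

lemma lef1B_nondeg {X : Var k} (hX : X.d = 1) : (W.lef1B X).Nondegenerate := by
  refine ⟨fun a h => W.lef1B_sepL hX a h, fun a h => W.lef1B_sepL hX a fun c => ?_⟩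
  have := h c
  rw [lef1B_apply] at this ⊢
  rw [W.lef1_anti a.2 c.2, map_neg, this, neg_zero]

lemma lef1_key {X P : Var k} (hX : X.d = 1) {p q : Mor P X} (h : IsProd p q) (x : X.pts)
    {n : Type} [Fintype n] [DecidableEq n] (b : Module.Basis n K (W.gr X 1)) (a c : W.H X) :
    W.tr P ((W.pull q (W.cl X {x}) + W.pull p (W.cl X {x}) +
      ∑ i, W.pull p (b i).1 * W.pull q ((W.lef1B X).dualBasis (W.lef1B_nondeg hX) b i).1) *
        (W.pull p a * W.pull q c)) = W.tr X (a * c) := by
  set d := (W.lef1B X).dualBasis (W.lef1B_nondeg hX) b with hd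
  have hpt : W.cl X {x} ∈ W.gr X (2 * 1) := hX ▸ W.cl_pt_gr x
  induction a using DirectSum.Decomposition.inductionOn (W.gr X) with
  | zero => simp
  | add a a' ha ha' => simp only [map_add, add_mul a, add_mul (W.pull p a), mul_add, ha, ha']
  | @homogeneous i a =>
    induction c using DirectSum.Decomposition.inductionOn (W.gr X) with
    | zero => simp
    | add c c' hc hc' => simp only [map_add, mul_add, hc, hc']
    | @homogeneous j c =>
      obtain ⟨a, ha⟩ := a
      obtain ⟨c, hc⟩ := c
      simp only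
      have e1 : W.tr P (W.pull q (W.cl X {x}) * (W.pull p a * W.pull q c)) =
          W.tr X a * W.tr X (W.cl X {x} * c) := by
        rw [← mul_assoc, W.even_comm (W.pull_gr q _ _ hpt), mul_assoc, ← map_mul, W.tr_prod h]
      have e2 : W.tr P (W.pull p (W.cl X {x}) * (W.pull p a * W.pull q c)) =
          W.tr X (W.cl X {x} * a) * W.tr X c := by
        rw [← mul_assoc, ← map_mul, W.tr_prod h]
      have e3 : ∀ s, W.tr P (W.pull p (b s).1 * W.pull q (d s).1 * (W.pull p a * W.pull q c)) =
          (-1) ^ i * (W.tr X ((b s).1 * a) * W.tr X ((d s).1 * c)) := fun s => by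
        have := W.comm P 1 i _ (W.pull_gr q _ _ (d s).2) _ (W.pull_gr p _ _ ha)
        rw [mul_assoc, ← mul_assoc (W.pull q (d s).1), this, ← W.tr_prod h, map_mul (W.pull p),
          map_mul (W.pull q), one_mul]
        rcases Nat.even_or_odd i with hi | hi
        · simp only [hi.neg_one_pow, mul_assoc, one_mul]
        · simp only [hi.neg_one_pow, mul_assoc, neg_mul, one_mul, mul_neg, map_neg]
      rw [add_mul, add_mul, Finset.sum_mul, map_add, map_add, map_sum, e1, e2,
        Finset.sum_congr rfl fun s _ => e3 s]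
      by_cases hi1 : i = 1
      · subst hi1
        rw [W.tr_gr X 1 a ha (by omega), W.tr_mul_gr hpt ha (by omega)]
        by_cases hj1 : j = 1
        · subst hj1
          have e4 : ∀ s, W.tr X ((d s).1 * c) = b.repr ⟨c, hc⟩ s := fun s => by
            have : W.lef1B X (d s) ⟨c, hc⟩ = b.repr ⟨c, hc⟩ s := by
              conv_lhs => rw [← b.sum_repr ⟨c, hc⟩, map_sum]
              simp only [hd, map_smul, LinearMap.BilinForm.apply_dualBasis_left, smul_eq_mul,
                mul_ite, mul_one, mul_zero, Finset.sum_ite_eq', Finset.mem_univ, if_true]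
            exact this
          have e5 : W.lef1B X ⟨c, hc⟩ ⟨a, ha⟩ =
              ∑ s, W.tr X ((b s).1 * a) * b.repr ⟨c, hc⟩ s := by
            conv_lhs => rw [← b.sum_repr ⟨c, hc⟩, map_sum, LinearMap.sum_apply]
            refine Finset.sum_congr rfl fun s _ => ?_
            rw [map_smul, LinearMap.smul_apply, lef1B_apply, smul_eq_mul, mul_comm]
          rw [lef1B_apply] at e5
          simp only [e4]
          rw [← Finset.mul_sum, ← e5, W.lef1_anti ha hc]
          simp
        · rw [W.tr_mul_gr ha hc (by omega),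
            Finset.sum_eq_zero fun s _ => by rw [W.tr_mul_gr (d s).2 hc (by omega)]; simp]
          simp
      · rw [Finset.sum_eq_zero fun s _ => by rw [W.tr_mul_gr (b s).2 ha (by omega)]; simp, add_zero]
        by_cases hi0 : i = 0
        · subst hi0
          rw [W.tr_gr X 0 a ha (by omega)]
          rw [W.zero, Submodule.mem_span_singleton] at ha
          obtain ⟨t, rfl⟩ := ha
          simp [W.tr_pt]
        · rw [W.tr_mul_gr hpt ha (by omega)]
          by_cases hj0 : j = 0
          · subst hj0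
            rw [W.zero, Submodule.mem_span_singleton] at hc
            obtain ⟨t, rfl⟩ := hc
            simp [W.tr_pt, mul_comm]
          · rw [W.tr_mul_gr hpt hc (by omega), W.tr_mul_gr ha hc (by omega)]
            simp

lemma lef1_diag [CharZero K] {X P : Var k} (hX : X.d = 1) {p q : Mor P X} (h : IsProd p q)
    (x : X.pts) {n : Type} [Fintype n] [DecidableEq n] (b : Module.Basis n K (W.gr X 1))
    (D : Mor X P) (hp : ∀ y, p.1 (D.1 y) = y) (hq : ∀ y, q.1 (D.1 y) = y) :
    W.cl P (range D.1) = W.pull q (W.cl X {x}) + W.pull p (W.cl X {x}) +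
      ∑ i, W.pull p (b i).1 * W.pull q ((W.lef1B X).dualBasis (W.lef1B_nondeg hX) b i).1 := by
  refine sub_eq_zero.1 (W.poincare P _ fun y => ?_)
  have := W.prod_span h (LinearMap.ker (W.tr P ∘ₗ LinearMap.mulLeft K (W.cl P (range D.1) -
    (W.pull q (W.cl X {x}) + W.pull p (W.cl X {x}) +
      ∑ i, W.pull p (b i).1 * W.pull q ((W.lef1B X).dualBasis (W.lef1B_nondeg hX) b i).1))))
    fun a c => by
      rw [LinearMap.mem_ker, LinearMap.comp_apply, LinearMap.mulLeft_apply, sub_mul, map_sub,
        W.lef1_key hX h x b a c, ← W.tr_pull_retr D p hp, map_mul, W.pull_pull, W.pull_pull,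
        W.pull_id (p.comp D) (funext hp), W.pull_id (q.comp D) (funext hq), sub_self]
  have hy : y ∈ (⊤ : Submodule K (W.H P)) := trivial
  rw [← this] at hy
  exact hy

lemma lef1_main [CharZero K] {X P : Var k} (hX : X.d = 1) {p q : Mor P X} (h : IsProd p q)
    (x : X.pts) (f : Mor X X) (D G : Mor X P) (hp : ∀ y, p.1 (D.1 y) = y)
    (hq : ∀ y, q.1 (D.1 y) = y) (gp : ∀ y, p.1 (G.1 y) = y) (gq : ∀ y, q.1 (G.1 y) = f.1 y) :
    W.tr P (W.cl P (range G.1) * W.cl P (range D.1)) = 1 + W.tr X (W.pull f (W.cl X {x})) -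
      LinearMap.trace K (W.gr X 1) ((W.pull f).toLinearMap.restrict (W.pull_gr f 1)) := by
  classical
  let b := Module.finBasis K (W.gr X 1)
  set d := (W.lef1B X).dualBasis (W.lef1B_nondeg hX) b with hd
  have e1 : ∀ a, W.pull G (W.pull p a) = a := fun a => by
    rw [W.pull_pull, W.pull_id (p.comp G) (funext gp)]
  have e2 : ∀ a, W.pull G (W.pull q a) = W.pull f a := fun a => by
    rw [W.pull_pull]
    exact W.pull_congr gq a
  rw [← W.tr_pull_retr G p gp, W.lef1_diag hX h x b D hp hq, LinearMap.trace_eq_matrix_trace K d,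
    Matrix.trace]
  simp only [map_add, map_sum, map_mul, e1, e2, W.tr_pt, Matrix.diag_apply,
    LinearMap.toMatrix_apply]
  rw [add_comm _ (1 : K), sub_eq_add_neg, ← Finset.sum_neg_distrib]
  refine congrArg _ (Finset.sum_congr rfl fun s _ => ?_)
  rw [hd, LinearMap.BilinForm.dualBasis_repr_apply, lef1B_apply, ← hd,
    W.lef1_anti (b s).2 (W.pull_gr f 1 _ (d s).2), map_neg]
  rfl

end

end Weil

variable {k : Type u} [Field k] [IsAlgClosed k] {q : ℕ} [IsQ k q] {K : Type v} [Field K]
  [CharZero K]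

theorem Weil.lefschetz (W : Weil.{u, v, w} k K) (b : Bool) (f : Mor (Cv k q b) (Cv k q b))
    (x : (Cv k q b).pts) :
    W.tr _ (W.cl _ (range (pair (Mor.id _) f).1) *
      W.cl _ (range (pair (Mor.id (Cv k q b)) (Mor.id _)).1)) =
      1 + W.tr _ (W.pull f (W.cl _ {x})) -
        LinearMap.trace K (W.gr (Cv k q b) 1) ((W.pull f).toLinearMap.restrict (W.pull_gr f 1)) :=
  W.lef1_main (d_Cv b) (isProd_sum _ _) x f _ _ (fun _ => rfl) (fun _ => rfl) (fun _ => rfl)
    fun _ => rfl

end Pool.Agent.MP_0c8446_ag
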