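import Pool.Agent.MP_0c8446_ag.CBasic

namespace Pool.Agent.MP_0c8446_ag

open Set Polynomial

universe u v

variable {k : Type u} [Field k] {q : ℕ} [IsQ k q]

lemma Fq_sub_roots : (Fq k q : Set k) = (X ^ q - X : k[X]).rootSet k := by
  have h := IsQ.one_lt (k := k) (q := q)
  ext x
  rw [SetLike.mem_coe, mem_Fq, mem_rootSet_of_ne (FiniteField.X_pow_card_sub_X_ne_zero k h)]
  simp [sub_eq_zero]

instance : Finite (Fq k q) := by
  have : (Fq k q : Set k).Finite := by rw [Fq_sub_roots]; exact rootSet_finite _ _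
  exact this

noncomputable instance : Fintype (Fq k q) := Fintype.ofFinite _

lemma card_Fq [IsAlgClosed k] : Fintype.card (Fq k q) = q := by
  have h := IsQ.one_lt (k := k) (q := q)
  have hs : (X ^ q - X : k[X]).Separable := by
    rw [separable_def, derivative_sub, derivative_X_pow, IsQ.cast (k := k) (q := q)]
    simpa using isCoprime_one_right.neg_right
  have h1 := card_rootSet_eq_natDegree (K := k) hs (IsAlgClosed.splits _)
  rw [FiniteField.X_pow_card_sub_X_natDegree_eq k h] at h1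
  refine Eq.trans ?_ h1
  rw [← Nat.card_eq_fintype_card, ← Nat.card_eq_fintype_card, ← Fq_sub_roots]
  rfl

lemma Fq_pow (x : Fq k q) : (x : k) ^ q = x := x.2

lemma Fq_unit_pow (x : (Fq k q)ˣ) : ((x : Fq k q) : k) ^ (q - 1) = 1 := by
  have h : ((x : Fq k q) : k) ≠ 0 := by simp
  have h1 := Fq_pow (x : Fq k q)
  rw [IsQ.pow_eq q] at h1
  exact mul_right_cancel₀ h (h1.trans (one_mul _).symm)

/-- A `(q-1)`-th root of unity as a unit of `F_q`. -/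
def toFqUnit (a : k) (h : a ^ (q - 1) = 1) : (Fq k q)ˣ :=
  Units.mk0 ⟨a, by rw [mem_Fq, IsQ.pow_eq q, h, one_mul]⟩ fun e => by
    have h0 : a = 0 := congrArg Subtype.val e
    rw [h0, zero_pow (IsQ.pos k q).ne'] at h
    exact zero_ne_one h

@[simp] lemma toFqUnit_val (a : k) (h : a ^ (q - 1) = 1) : ((toFqUnit a h : Fq k q) : k) = a := rfl

/-- A unit of `F_q` as a unit of `k`. -/
def ofFqUnit : (Fq k q)ˣ →* kˣ := Units.map (Fq k q).subtype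

@[simp] lemma ofFqUnit_val (a : (Fq k q)ˣ) : (ofFqUnit a : k) = (a : Fq k q) := rfl

lemma ofFqUnit_pow (a : (Fq k q)ˣ) : ofFqUnit a ^ (q - 1) = 1 := Units.ext (by simp [Fq_unit_pow])

variable {b : Bool}

lemma Gp_pow1 (g : Gp k q b) : (g.1.1 : k) ^ (q - 1) = 1 := by
  simpa using congrArg Units.val g.2.1

lemma Gp_pow2 (g : Gp k q b) : (g.1.2.1 : k) ^ (q - 1) = 1 := by
  simpa using congrArg Units.val g.2.2.1

/-- The first parameter of a group element. -/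
def gA : Gp k q b →* (Fq k q)ˣ where
  toFun g := toFqUnit g.1.1 (Gp_pow1 g)
  map_one' := by ext; simp
  map_mul' g h := by ext; simp

/-- The second parameter of a group element. -/
def gB : Gp k q b →* (Fq k q)ˣ where
  toFun g := toFqUnit g.1.2.1 (Gp_pow2 g)
  map_one' := by ext; simp
  map_mul' g h := by ext; simp

/-- The third parameter of a group element. -/
def gC : Gp k q b →* Multiplicative (Fq k q) where
  toFun g := Multiplicative.ofAdd ⟨g.1.2.2.toAdd, g.2.2.2.1⟩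
  map_one' := rfl
  map_mul' _ _ := rfl

@[simp] lemma gA_val (g : Gp k q b) : ((gA g : Fq k q) : k) = g.1.1 := rfl
@[simp] lemma gB_val (g : Gp k q b) : ((gB g : Fq k q) : k) = g.1.2.1 := rfl
@[simp] lemma gC_val (g : Gp k q b) : ((gC g).toAdd : k) = g.1.2.2.toAdd := rfl

/-- The automorphism `(x, y) ↦ (α x, y + γ)` of the Davenport-Hasse curve. -/
def gD (α : (Fq k q)ˣ) (γ : Fq k q) : Gp k q false :=
  ⟨(ofFqUnit α, 1, Multiplicative.ofAdd (γ : k)), ofFqUnit_pow α, one_pow _, γ.2, by simp⟩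

/-- The automorphism `(x, y) ↦ (α x, β y)` of the Fermat curve. -/
def gF (α β : (Fq k q)ˣ) : Gp k q true := by
  refine ⟨(ofFqUnit α, ofFqUnit β, 1), ofFqUnit_pow α, ofFqUnit_pow β, ?_, by simp⟩
  have := IsQ.one_lt (k := k) (q := q)
  simp [show q ≠ 0 by omega]

@[simp] lemma gD_val (α : (Fq k q)ˣ) (γ : Fq k q) :
    (gD α γ).1 = (ofFqUnit α, 1, Multiplicative.ofAdd (γ : k)) := rfl
@[simp] lemma gF_val (α β : (Fq k q)ˣ) : (gF α β).1 = (ofFqUnit α, ofFqUnit β, 1) := rfl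
@[simp] lemma gA_gD (α : (Fq k q)ˣ) (γ : Fq k q) : gA (gD α γ) = α := by ext; rfl
@[simp] lemma gB_gD (α : (Fq k q)ˣ) (γ : Fq k q) : gB (gD α γ) = 1 := by ext; rfl
@[simp] lemma gC_gD (α : (Fq k q)ˣ) (γ : Fq k q) : gC (gD α γ) = Multiplicative.ofAdd γ := rfl
@[simp] lemma gA_gF (α β : (Fq k q)ˣ) : gA (gF α β) = α := by ext; rfl
@[simp] lemma gB_gF (α β : (Fq k q)ˣ) : gB (gF α β) = β := by ext; rfl
@[simp] lemma gC_gF (α β : (Fq k q)ˣ) : gC (gF α β) = 1 := rfl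

lemma gD_eta (g : Gp k q false) : gD (gA g) (gC g).toAdd = g := by
  have h := g.2.2.2.2
  simp only [Bool.false_eq_true, if_false] at h
  exact Subtype.ext (Prod.ext (Units.ext rfl) (Prod.ext h.symm rfl))

lemma gF_eta (g : Gp k q true) : gF (gA g) (gB g) = g := by
  have h := g.2.2.2.2
  simp only [if_true] at h
  exact Subtype.ext (Prod.ext (Units.ext rfl) (Prod.ext (Units.ext rfl) h.symm))

lemma gD_mul (α α' : (Fq k q)ˣ) (γ γ' : Fq k q) : gD (α * α') (γ + γ') = gD α γ * gD α' γ' :=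
  Subtype.ext (Prod.ext (map_mul _ _ _) (Prod.ext (mul_one _).symm rfl))

lemma gF_mul (α α' β β' : (Fq k q)ˣ) : gF (α * α') (β * β') = gF α β * gF α' β' :=
  Subtype.ext (Prod.ext (map_mul _ _ _) (Prod.ext (map_mul _ _ _) (mul_one _).symm))

lemma gD_one : gD (1 : (Fq k q)ˣ) 0 = 1 := Subtype.ext (Prod.ext (map_one _) rfl)

lemma gF_one : gF (1 : (Fq k q)ˣ) 1 = 1 :=
  Subtype.ext (Prod.ext (map_one _) (Prod.ext (map_one _) rfl))

/-- `Gp false ≃ F_q^× × F_q`. -/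
def eqD : (Fq k q)ˣ × Fq k q ≃ Gp k q false where
  toFun a := gD a.1 a.2
  invFun g := (gA g, (gC g).toAdd)
  left_inv a := by simp
  right_inv := gD_eta

/-- `Gp true ≃ F_q^× × F_q^×`. -/
def eqF : (Fq k q)ˣ × (Fq k q)ˣ ≃ Gp k q true where
  toFun a := gF a.1 a.2
  invFun g := (gA g, gB g)
  left_inv a := by simp
  right_inv := gF_eta

instance : Finite (Gp k q b) := by
  cases b
  · exact Finite.of_equiv _ eqD
  · exact Finite.of_equiv _ eqF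

noncomputable instance : Fintype (Gp k q b) := Fintype.ofFinite _

variable {K : Type v} [Field K]

/-- The character `(α, β, γ) ↦ ω₁(α) ω₂(β) ψ(γ)`. -/
noncomputable def ch (b : Bool) (ω₁ ω₂ : MulChar (Fq k q) K) (ψ : AddChar (Fq k q) K) :
    Gp k q b →* Kˣ :=
  ω₁.toUnitHom.comp gA * ω₂.toUnitHom.comp gB * ψ.toMonoidHom.toHomUnits.comp gC

lemma ch_val (ω₁ ω₂ : MulChar (Fq k q) K) (ψ : AddChar (Fq k q) K) (g : Gp k q b) :
    (ch b ω₁ ω₂ ψ g : K) = ω₁ (gA g) * ω₂ (gB g) * ψ (gC g).toAdd := by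
  simp [ch]

@[simp] lemma ch_gD (ω₁ ω₂ : MulChar (Fq k q) K) (ψ : AddChar (Fq k q) K) (α : (Fq k q)ˣ)
    (γ : Fq k q) : (ch false ω₁ ω₂ ψ (gD α γ) : K) = ω₁ α * ψ γ := by
  simp [ch_val]

@[simp] lemma ch_gF (ω₁ ω₂ : MulChar (Fq k q) K) (ψ : AddChar (Fq k q) K) (α β : (Fq k q)ˣ) :
    (ch true ω₁ ω₂ ψ (gF α β) : K) = ω₁ α * ω₂ β := by
  simp [ch_val]

lemma chD_ext {χ χ' : Gp k q false →* Kˣ} (h : ∀ α γ, (χ (gD α γ) : K) = χ' (gD α γ)) : χ = χ' :=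
  MonoidHom.ext fun g => Units.ext (by rw [← gD_eta g]; exact h _ _)

lemma chF_ext {χ χ' : Gp k q true →* Kˣ} (h : ∀ α β, (χ (gF α β) : K) = χ' (gF α β)) : χ = χ' :=
  MonoidHom.ext fun g => Units.ext (by rw [← gF_eta g]; exact h _ _)

lemma ch_inv (ω₁ ω₂ : MulChar (Fq k q) K) (ψ : AddChar (Fq k q) K) :
    (ch b ω₁ ω₂ ψ)⁻¹ = ch b ω₁⁻¹ ω₂⁻¹ ψ⁻¹ := by
  refine MonoidHom.ext fun g => Units.ext ?_
  rw [MonoidHom.inv_apply, Units.val_inv_eq_inv_val, ch_val, ch_val, MulChar.inv_apply_eq_inv',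
    MulChar.inv_apply_eq_inv', AddChar.inv_apply, AddChar.map_neg_eq_inv, mul_inv, mul_inv]

lemma exists_chD (χ : Gp k q false →* Kˣ) : ∃ ω ψ, χ = ch false ω 1 ψ := by
  let a : (Fq k q)ˣ →* Gp k q false :=
    { toFun α := gD α 0, map_one' := gD_one, map_mul' α α' := by rw [← gD_mul, add_zero] }
  let ψ : AddChar (Fq k q) K :=
    { toFun γ := χ (gD 1 γ)
      map_zero_eq_one' := by simp [gD_one]
      map_add_eq_mul' γ γ' := by rw [← Units.val_mul, ← map_mul, ← gD_mul, mul_one] }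
  refine ⟨MulChar.ofUnitHom (χ.comp a), ψ, chD_ext fun α γ => ?_⟩
  rw [ch_gD, MulChar.ofUnitHom_coe]
  show _ = (χ (gD α 0) : K) * χ (gD 1 γ)
  rw [← Units.val_mul, ← map_mul, ← gD_mul, mul_one, zero_add]

lemma exists_chF (χ : Gp k q true →* Kˣ) : ∃ ω₁ ω₂, χ = ch true ω₁ ω₂ 1 := by
  let a : (Fq k q)ˣ →* Gp k q true :=
    { toFun α := gF α 1, map_one' := gF_one, map_mul' α α' := by rw [← gF_mul, mul_one] }
  let a' : (Fq k q)ˣ →* Gp k q true :=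
    { toFun α := gF 1 α, map_one' := gF_one, map_mul' α α' := by rw [← gF_mul, mul_one] }
  refine ⟨MulChar.ofUnitHom (χ.comp a), MulChar.ofUnitHom (χ.comp a'), chF_ext fun α β => ?_⟩
  rw [ch_gF, MulChar.ofUnitHom_coe, MulChar.ofUnitHom_coe]
  show _ = (χ (gF α 1) : K) * χ (gF 1 β)
  rw [← Units.val_mul, ← map_mul, ← gF_mul, mul_one, one_mul]

lemma chD_inj {ω ω' : MulChar (Fq k q) K} {ψ ψ' : AddChar (Fq k q) K}
    (h : ch false ω 1 ψ = ch false ω' 1 ψ') : ω = ω' ∧ ψ = ψ' := by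
  have h1 : ∀ α γ, ω (α : (Fq k q)ˣ) * ψ γ = ω' α * ψ' γ := fun α γ => by
    rw [← ch_gD ω 1, h, ch_gD]
  exact ⟨MulChar.ext fun α => by simpa using h1 α 0, AddChar.ext _ _ fun γ => by simpa using h1 1 γ⟩

lemma chF_inj {ω₁ ω₂ ω₁' ω₂' : MulChar (Fq k q) K}
    (h : ch true ω₁ ω₂ 1 = ch true ω₁' ω₂' 1) : ω₁ = ω₁' ∧ ω₂ = ω₂' := by
  have h1 : ∀ α β, ω₁ (α : (Fq k q)ˣ) * ω₂ (β : (Fq k q)ˣ) = ω₁' α * ω₂' β := fun α β => by
    rw [← ch_gF ω₁ ω₂ 1, h, ch_gF]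
  exact ⟨MulChar.ext fun α => by simpa using h1 α 1, MulChar.ext fun α => by simpa using h1 1 α⟩

/-- The characters that occur in `H^1`. -/
def Adm : (b : Bool) → (Gp k q b →* Kˣ) → Prop
  | false, χ => ∃ ω ψ, ω ≠ 1 ∧ ψ ≠ 1 ∧ χ = ch false ω 1 ψ
  | true, χ => ∃ ω₁ ω₂, ω₁ ≠ 1 ∧ ω₂ ≠ 1 ∧ ω₁ * ω₂ ≠ 1 ∧ χ = ch true ω₁ ω₂ 1

lemma adm_false {ω : MulChar (Fq k q) K} {ψ : AddChar (Fq k q) K} :
    Adm false (ch false ω 1 ψ) ↔ ω ≠ 1 ∧ ψ ≠ 1 := by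
  refine ⟨?_, fun h => ⟨ω, ψ, h.1, h.2, rfl⟩⟩
  rintro ⟨ω', ψ', h1, h2, h⟩
  obtain ⟨rfl, rfl⟩ := chD_inj h
  exact ⟨h1, h2⟩

lemma adm_true {ω₁ ω₂ : MulChar (Fq k q) K} :
    Adm true (ch true ω₁ ω₂ 1) ↔ ω₁ ≠ 1 ∧ ω₂ ≠ 1 ∧ ω₁ * ω₂ ≠ 1 := by
  refine ⟨?_, fun h => ⟨ω₁, ω₂, h.1, h.2.1, h.2.2, rfl⟩⟩
  rintro ⟨ω₁', ω₂', h1, h2, h3, h⟩
  obtain ⟨rfl, rfl⟩ := chF_inj h
  exact ⟨h1, h2, h3⟩

lemma Adm.inv {χ : Gp k q b →* Kˣ} (h : Adm b χ) : Adm b χ⁻¹ := by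
  cases b
  · obtain ⟨ω, ψ, h1, h2, rfl⟩ := h
    exact ⟨ω⁻¹, ψ⁻¹, inv_ne_one.2 h1, inv_ne_one.2 h2, by rw [ch_inv, inv_one]⟩
  · obtain ⟨ω₁, ω₂, h1, h2, h3, rfl⟩ := h
    exact ⟨ω₁⁻¹, ω₂⁻¹, inv_ne_one.2 h1, inv_ne_one.2 h2, by rwa [← mul_inv, inv_ne_one],
      by rw [ch_inv, inv_one]⟩

lemma Adm.ne_one {χ : Gp k q b →* Kˣ} (h : Adm b χ) : χ ≠ 1 := by
  rintro rfl
  cases b
  · obtain ⟨ω, ψ, h1, -, h⟩ := h
    refine h1 (MulChar.ext fun α => ?_)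
    simpa using (congrArg (fun χ : Gp k q false →* Kˣ => (χ (gD α 0) : K)) h).symm
  · obtain ⟨ω₁, ω₂, h1, -, -, h⟩ := h
    refine h1 (MulChar.ext fun α => ?_)
    simpa using (congrArg (fun χ : Gp k q true →* Kˣ => (χ (gF α 1) : K)) h).symm

/-- The fixed points of `g ∘ Frob_e` on the curve. -/
def fixSet (b : Bool) (e : ℕ) (g : Gp k q b) : Set (P2 k) :=
  {P | P ∈ curve k q b ∧ lin g.1 (frob e P) = P}

/-- The character sum `∑_g χ(g) #Fix(g Frob_(q^r))`. -/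
noncomputable def fixSum (b : Bool) (r : ℕ) (χ : Gp k q b →* Kˣ) : K :=
  ∑ g, (χ g : K) * ((fixSet b (q ^ r) g).ncard : K)

end Pool.Agent.MP_0c8446_ag
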