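import Pool.Agent.MP_0c8446_ag.Yv
import Pool.Agent.MP_0c8446_ag.GChar
import Pool.Agent.MP_0c8446_ag.CountFin

namespace Pool.Agent.MP_0c8446_ag

open scoped LinearAlgebra.Projectivization
open MvPolynomial Set

universe u v w

variable {k : Type u} [Field k]

/-- The derivative of `f` at `v` in the direction `w`. -/
noncomputable def lef2D {σ : Type} [Fintype σ] (v w : σ → k) (f : MvPolynomial σ k) : k :=
  ∑ s, w s * eval v (pderiv s f)

section deriv
variable {σ : Type} [Fintype σ] (v w : σ → k)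

lemma lef2D_add (f g : MvPolynomial σ k) : lef2D v w (f + g) = lef2D v w f + lef2D v w g := by
  simp only [lef2D, map_add, mul_add, Finset.sum_add_distrib]

lemma lef2D_sub (f g : MvPolynomial σ k) : lef2D v w (f - g) = lef2D v w f - lef2D v w g := by
  simp only [lef2D, map_sub, mul_sub, Finset.sum_sub_distrib]

lemma lef2D_mul (f g : MvPolynomial σ k) :
    lef2D v w (f * g) = eval v f * lef2D v w g + eval v g * lef2D v w f := by
  simp only [lef2D, Derivation.leibniz, smul_eq_mul, map_add, map_mul, Finset.mul_sum,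
    ← Finset.sum_add_distrib]
  exact Finset.sum_congr rfl fun s _ => by ring

lemma lef2D_C (c : k) : lef2D v w (C c) = 0 := by simp [lef2D]

lemma lef2D_X (a : σ) : lef2D v w (X a) = w a := by
  classical
  simp only [lef2D, pderiv_X]
  rw [Finset.sum_eq_single a]
  · simp
  · intro s _ hs
    simp [hs.symm]
  · simp

lemma lef2D_pow (e : ℕ) [IsQ k e] (a : σ) : lef2D v w (X a ^ e) = 0 := by
  have h : (e : k) = 0 := IsQ.cast
  simp [lef2D, Derivation.leibniz_pow, h]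

end deriv

/-- Intersection number of a finite transversal intersection. -/
lemma lef2_count [Infinite k] {K : Type v} [Field K] (W : Weil.{u, v, w} k K) {X : Var k}
    {Z Z' : Set X.pts} (hZ : IsSub Z) (hZ' : IsSub Z') (hd : X.d ≤ dim Z + dim Z')
    (hf : (Z ∩ Z').Finite) (ht : ∀ x ∈ Z ∩ Z', Transv Z Z' x) :
    W.tr X (W.cl X Z * W.cl X Z') = (Z ∩ Z').ncard := by
  classical
  have hs : ∀ C, IsSub C → C ⊆ Z ∩ Z' → ∃ x ∈ Z ∩ Z', C = {x} := by
    intro C hC h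
    obtain ⟨x, hx⟩ := hC.1.1
    exact ⟨x, h hx, hC.eq_singleton_of_finite isOpen_univ
      (hf.subset (inter_subset_left.trans h)) hx (mem_univ x)⟩
  obtain ⟨s, μ, h1, -, h3, h4⟩ := W.proper X Z Z' hZ hZ' fun C hC h => by
    obtain ⟨x, -, rfl⟩ := hs C hC h
    rw [dim_singleton]
    omega
  have h5 : s = hf.toFinset.image fun x => ({x} : Set X.pts) := by
    ext C
    rw [h1, Finset.mem_image]
    constructor
    · intro hC
      obtain ⟨x, hx, rfl⟩ := hs C hC.1.1 hC.1.2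
      exact ⟨x, hf.mem_toFinset.2 hx, rfl⟩
    · rintro ⟨x, hx, rfl⟩
      refine ⟨⟨isSub_singleton x, singleton_subset_iff.2 (hf.mem_toFinset.1 hx)⟩, ?_⟩
      intro D hD hxD
      obtain ⟨y, -, rfl⟩ := hs D hD.1 hD.2
      exact (singleton_subset_singleton.1 hxD ▸ subset_rfl : ({y} : Set X.pts) ⊆ {x})
  rw [h4, map_sum, h5, Finset.sum_image fun x _ y _ h => singleton_injective h,
    ncard_eq_toFinset_card _ hf, Finset.card_eq_sum_ones, Nat.cast_sum]
  refine Finset.sum_congr rfl fun x hx => ?_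
  rw [h3 x (h5 ▸ Finset.mem_image_of_mem _ hx) (ht x (hf.mem_toFinset.1 hx)), one_smul, W.tr_pt,
    Nat.cast_one]

variable [IsAlgClosed k] {q : ℕ} [IsQ k q]

lemma lef2_graph {b : Bool} (f : Mor (Cv k q b) (Cv k q b)) :
    IsSub (range (pair (Mor.id _) f).1) ∧ dim (range (pair (Mor.id _) f).1) = 1 := by
  have h := (pair (Mor.id (Cv k q b)) f).retr (pL _ _) fun x => rfl
  rw [← image_univ]
  exact ⟨h.isSub (Cv k q b).isSub_univ, (h.dim_image univ).trans (d_Cv b)⟩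

/-- The polynomials of the map `g ∘ Frob_e` in the first block of coordinates. -/
noncomputable def lef2F (g : G3 k) (e : ℕ) :
    Fin 3 → MvPolynomial (Vars fun _ : Unit ⊕ Unit => 2) k :=
  ![C (g.1 : k) * X ⟨Sum.inl (), 0⟩ ^ e,
    C (g.2.1 : k) * X ⟨Sum.inl (), 1⟩ ^ e + C g.2.2.toAdd * X ⟨Sum.inl (), 2⟩ ^ e,
    X ⟨Sum.inl (), 2⟩ ^ e]

omit [IsAlgClosed k] in
lemma lef2F_D (g : G3 k) (e : ℕ) [IsQ k e] (v w : (Vars fun _ : Unit ⊕ Unit => 2) → k)
    (s : Fin 3) : lef2D v w (lef2F g e s) = 0 := by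
  fin_cases s <;> simp [lef2F, lef2D_add, lef2D_mul, lef2D_C, lef2D_pow]

omit [IsAlgClosed k] in
lemma lef2F_eval (g : G3 k) (e : ℕ) (v : (Vars fun _ : Unit ⊕ Unit => 2) → k)
    (hv : (fun s : Fin 3 => v ⟨Sum.inl (), s⟩) ≠ 0) :
    ∃ h, Projectivization.mk k (fun s => eval v (lef2F g e s)) h =
      lin g (frob e (Projectivization.mk k (fun s : Fin 3 => v ⟨Sum.inl (), s⟩) hv)) := by
  have e0 : ![v ⟨Sum.inl (), 0⟩, v ⟨Sum.inl (), 1⟩, v ⟨Sum.inl (), 2⟩] =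
      fun s : Fin 3 => v ⟨Sum.inl (), s⟩ := by
    funext s; fin_cases s <;> rfl
  have hv' : ![v ⟨Sum.inl (), 0⟩, v ⟨Sum.inl (), 1⟩, v ⟨Sum.inl (), 2⟩] ≠ 0 := by rwa [e0]
  have e' : (fun s => eval v (lef2F g e s)) = ![g.1 * v ⟨Sum.inl (), 0⟩ ^ e,
      g.2.1 * v ⟨Sum.inl (), 1⟩ ^ e + g.2.2.toAdd * v ⟨Sum.inl (), 2⟩ ^ e,
      v ⟨Sum.inl (), 2⟩ ^ e] := by
    funext s; fin_cases s <;> simp [lef2F]
  rw [e', mk_eq_pt3 _ hv, frob_pt3 e hv', lin_pt3 g (frob_ne_zero e hv')]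
  exact ⟨lin_ne_zero g (frob_ne_zero e hv'), (pt3_eq _).symm⟩

lemma lef2_tangent (g : G3 k) (e : ℕ) [IsQ k e] {S S' : Set (MP k fun _ : Unit ⊕ Unit => 2)}
    (hG : ∀ y ∈ S, ∀ u, IsRep u y → ∃ h h', Projectivization.mk k (fun s => eval u (lef2F g e s)) h =
      Projectivization.mk k (fun s : Fin 3 => u ⟨Sum.inr (), s⟩) h')
    (hD : ∀ y ∈ S', ∀ u, IsRep u y → ∃ h h',
      Projectivization.mk k (fun s : Fin 3 => u ⟨Sum.inl (), s⟩) h =
        Projectivization.mk k (fun s : Fin 3 => u ⟨Sum.inr (), s⟩) h')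
    {x : MP k fun _ : Unit ⊕ Unit => 2} (hx : x ∈ S) (hx' : x ∈ S')
    (v : (Vars fun _ : Unit ⊕ Unit => 2) → k) (hv : IsRep v x) :
    tangent S v ⊓ tangent S' v ≤ tangent {x} v := by
  intro w hw
  have w1 := ctan_mem.1 (Submodule.mem_inf.1 hw).1
  have w2 := ctan_mem.1 (Submodule.mem_inf.1 hw).2
  have k2 : ∀ s t : Fin 3, w ⟨Sum.inr (), s⟩ * v ⟨Sum.inr (), t⟩ =
      w ⟨Sum.inr (), t⟩ * v ⟨Sum.inr (), s⟩ := by
    intro s t
    have h1 : lef2D v w (lef2F g e s * X ⟨Sum.inr (), t⟩ - lef2F g e t * X ⟨Sum.inr (), s⟩) =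
        0 := by
      refine w1 _ ?_
      intro y hy u hu
      obtain ⟨h, h', e1⟩ := hG y hy u hu
      have := minor_of_mk_eq e1 s t
      simpa [sub_eq_zero] using this
    rw [lef2D_sub, lef2D_mul, lef2D_mul, lef2F_D, lef2F_D, lef2D_X, lef2D_X] at h1
    obtain ⟨h, h', e1⟩ := hG x hx v hv
    obtain ⟨c, hc⟩ := (Projectivization.mk_eq_mk_iff k _ _ h h').1 e1
    have hs : (c : k) * v ⟨Sum.inr (), s⟩ = eval v (lef2F g e s) := congrFun hc s
    have ht : (c : k) * v ⟨Sum.inr (), t⟩ = eval v (lef2F g e t) := congrFun hc t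
    rw [← hs, ← ht] at h1
    refine mul_left_cancel₀ c.ne_zero ?_
    linear_combination -h1
  have k1 : ∀ s t : Fin 3, w ⟨Sum.inl (), s⟩ * v ⟨Sum.inl (), t⟩ =
      w ⟨Sum.inl (), t⟩ * v ⟨Sum.inl (), s⟩ := by
    intro s t
    have h1 : lef2D v w (X ⟨Sum.inl (), s⟩ * X ⟨Sum.inr (), t⟩ -
        X ⟨Sum.inl (), t⟩ * X ⟨Sum.inr (), s⟩) = 0 := by
      refine w2 _ ?_
      intro y hy u hu
      obtain ⟨h, h', e1⟩ := hD y hy u hu
      have := minor_of_mk_eq e1 s t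
      simpa [sub_eq_zero] using this
    rw [lef2D_sub, lef2D_mul, lef2D_mul, lef2D_X, lef2D_X, lef2D_X, lef2D_X, eval_X, eval_X,
      eval_X, eval_X] at h1
    obtain ⟨h, h', e1⟩ := hD x hx' v hv
    obtain ⟨c, hc⟩ := (Projectivization.mk_eq_mk_iff k _ _ h h').1 e1
    have hs : (c : k) * v ⟨Sum.inr (), s⟩ = v ⟨Sum.inl (), s⟩ := congrFun hc s
    have ht : (c : k) * v ⟨Sum.inr (), t⟩ = v ⟨Sum.inl (), t⟩ := congrFun hc t
    rw [← hs, ← ht] at h1 ⊢
    linear_combination (c : k) * h1 + (c : k) ^ 2 * k2 s t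
  refine mem_tangent_pt hv fun i s t => ?_
  rcases i with ⟨⟨⟩⟩ | ⟨⟨⟩⟩
  · exact k1 s t
  · exact k2 s t

lemma lef2_transv (b : Bool) (e : ℕ) [IsQ k e] (g : Gp k q b)
    (x : (Yv k q (Sum.elim (fun _ : Unit => b) fun _ : Unit => b)).pts)
    (hx : x ∈ range (pair (Mor.id _) (cm _ ((cMap_Gp g.2).comp (cMap_frob q e b)))).1 ∩
      range (pair (Mor.id (Cv k q b)) (Mor.id _)).1) :
    Transv (range (pair (Mor.id _) (cm _ ((cMap_Gp g.2).comp (cMap_frob q e b)))).1)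
      (range (pair (Mor.id (Cv k q b)) (Mor.id _)).1) x := by
  intro v hv
  refine lef2_tangent g.1 e ?_ ?_ (mem_image_of_mem _ hx.1) (mem_image_of_mem _ hx.2) v hv
  · rintro _ ⟨_, ⟨y, rfl⟩, rfl⟩ u hu
    obtain ⟨h1, e1⟩ := hu (Sum.inl ())
    obtain ⟨h2, e2⟩ := hu (Sum.inr ())
    obtain ⟨h3, e3⟩ := lef2F_eval g.1 e u h1
    exact ⟨h3, h2, e3.trans ((congrArg (fun P => lin g.1 (frob e P)) e1).trans e2.symm)⟩
  · rintro _ ⟨_, ⟨y, rfl⟩, rfl⟩ u hu
    obtain ⟨h1, e1⟩ := hu (Sum.inl ())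
    obtain ⟨h2, e2⟩ := hu (Sum.inr ())
    exact ⟨h1, h2, e1.trans e2.symm⟩

variable {K : Type v} [Field K] [CharZero K]

omit [CharZero K] in
theorem Weil.tr_graph_diag (W : Weil.{u, v, w} k K) (b : Bool) (e : ℕ) [IsQ k e] (g : Gp k q b) :
    W.tr _ (W.cl _ (range (pair (Mor.id _) (cm _ ((cMap_Gp g.2).comp (cMap_frob q e b)))).1) *
      W.cl _ (range (pair (Mor.id (Cv k q b)) (Mor.id _)).1)) = (fixSet b e g).ncard := by
  have hI : (fun x => co x (Sum.inl ())) ''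
      (range (pair (Mor.id _) (cm _ ((cMap_Gp g.2).comp (cMap_frob q e b)))).1 ∩
        range (pair (Mor.id (Cv k q b)) (Mor.id _)).1) = fixSet b e g := by
    ext P
    constructor
    · rintro ⟨x, ⟨⟨y, h1⟩, ⟨z, h2⟩⟩, rfl⟩
      refine ⟨co_mem x (Sum.inl ()), ?_⟩
      have a1 : co y () = co x (Sum.inl ()) := congrArg (fun x => co x (Sum.inl ())) h1
      have a2 : lin g.1 (frob e (co y ())) = co x (Sum.inr ()) :=
        congrArg (fun x => co x (Sum.inr ())) h1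
      have a3 : co z () = co x (Sum.inl ()) := congrArg (fun x => co x (Sum.inl ())) h2
      have a4 : co z () = co x (Sum.inr ()) := congrArg (fun x => co x (Sum.inr ())) h2
      show lin g.1 (frob e (co x (Sum.inl ()))) = co x (Sum.inl ())
      rw [← a1, a2, ← a4, a3, a1]
    · rintro ⟨h1, h2⟩
      refine ⟨(pair (Mor.id (Cv k q b)) (Mor.id _)).1 (mkY (fun _ => P) fun _ => h1),
        ⟨⟨mkY (fun _ => P) fun _ => h1, ?_⟩, ⟨_, rfl⟩⟩, rfl⟩
      refine Yv_ext fun i => ?_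
      rcases i with i | i
      · rfl
      · exact h2
  have hinj : InjOn (fun x => co x (Sum.inl ()))
      (range (pair (Mor.id _) (cm _ ((cMap_Gp g.2).comp (cMap_frob q e b)))).1 ∩
        range (pair (Mor.id (Cv k q b)) (Mor.id _)).1) := by
    rintro _ ⟨-, ⟨y, rfl⟩⟩ _ ⟨-, ⟨z, rfl⟩⟩ h
    have : y = z := Yv_ext fun _ => h
    rw [this]
  have hf := Finite.of_finite_image (hI ▸ finite_fixSet b e g) hinj
  have g1 := lef2_graph (cm _ ((cMap_Gp g.2).comp (cMap_frob q e b)))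
  have g2 := lef2_graph (Mor.id (Cv k q b))
  rw [lef2_count W g1.1 g2.1 (by rw [g1.2, g2.2, W.d_Yv]; simp) hf (lef2_transv b e g), ← hI,
    hinj.ncard_image]

end Pool.Agent.MP_0c8446_ag
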