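import Mathlib

namespace Pool.Agent.MP_0c8446_ag

open scoped LinearAlgebra.Projectivization
open MvPolynomial Set

universe u v w

variable {K : Type*} [Field K] {V V' : Type*} [AddCommGroup V] [Module K V] [AddCommGroup V']
  [Module K V']

/-- the trace identity extends linearly to polynomials without constant term -/
theorem linAlg1_poly (Φ : Module.End K V) (A B : Multiset K)
    (h : ∀ r, 0 < r →
      LinearMap.trace K V (Φ ^ r) + (A.map (· ^ r)).sum = (B.map (· ^ r)).sum)
    (s : Polynomial K) :
    LinearMap.trace K V (Polynomial.aeval Φ (Polynomial.X * s)) +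
        (A.map fun a => (Polynomial.X * s).eval a).sum =
      (B.map fun a => (Polynomial.X * s).eval a).sum := by
  induction s using Polynomial.induction_on' with
  | add p q hp hq =>
    simp only [mul_add, map_add, Polynomial.eval_add, Multiset.sum_map_add]
    linear_combination hp + hq
  | monomial n c =>
    have h1 := h (n + 1) n.succ_pos
    have h2 : (Polynomial.X * Polynomial.monomial n c : Polynomial K) =
        c • Polynomial.X ^ (n + 1) := by
      rw [← Polynomial.C_mul_X_pow_eq_monomial, Polynomial.smul_eq_C_mul]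
      ring
    simp only [h2, map_smul, map_pow, Polynomial.aeval_X, Polynomial.eval_smul,
      Polynomial.eval_pow, Polynomial.eval_X, smul_eq_mul, Multiset.sum_map_mul_left]
    linear_combination c * h1

theorem finrank_of_trace [IsAlgClosed K] [CharZero K] [FiniteDimensional K V]
    (Φ : Module.End K V) (hΦ : Function.Injective Φ) (A B : Multiset K) (hA : 0 ∉ A) (hB : 0 ∉ B)
    (h : ∀ r, 0 < r →
      LinearMap.trace K V (Φ ^ r) + (A.map (· ^ r)).sum = (B.map (· ^ r)).sum) :
    Module.finrank K V + A.card = B.card := by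
  set q : Polynomial K :=
    Φ.charpoly * ((A + B).map fun a => Polynomial.X - Polynomial.C a).prod with hq
  have hq0 : q.eval 0 ≠ 0 := by
    rw [hq, Polynomial.eval_mul]
    refine mul_ne_zero ?_ ?_
    · intro h0
      have h1 : Φ.HasEigenvalue 0 :=
        (Module.End.hasEigenvalue_iff_isRoot_charpoly Φ 0).2 h0
      obtain ⟨x, hx⟩ := h1.exists_hasEigenvector
      have h2 := hx.apply_eq_smul
      rw [zero_smul] at h2
      exact hx.2 (hΦ (by rw [h2, map_zero]))
    · rw [Polynomial.eval_multiset_prod]
      refine Multiset.prod_ne_zero fun h0 => ?_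
      simp only [Multiset.map_map, Function.comp, Polynomial.eval_sub, Polynomial.eval_X,
        Polynomial.eval_C, Multiset.mem_map, Multiset.mem_add] at h0
      obtain ⟨a, ha, h1⟩ := h0
      have : a = 0 := by linear_combination -h1
      subst this
      exact ha.elim hA hB
  have hroot : ∀ a ∈ A + B, q.eval a = 0 := by
    intro a ha
    rw [hq, Polynomial.eval_mul, Polynomial.eval_multiset_prod]
    refine mul_eq_zero_of_right _ (Multiset.prod_eq_zero ?_)
    simp only [Multiset.map_map, Function.comp, Polynomial.eval_sub, Polynomial.eval_X,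
      Polynomial.eval_C, Multiset.mem_map]
    exact ⟨a, ha, sub_self a⟩
  have hΦq : Polynomial.aeval Φ q = 0 := by
    rw [hq, map_mul, LinearMap.aeval_self_charpoly, zero_mul]
  obtain ⟨s, hs⟩ : Polynomial.X ∣ (1 - Polynomial.C (q.eval 0)⁻¹ * q : Polynomial K) := by
    rw [Polynomial.X_dvd_iff, Polynomial.coeff_zero_eq_eval_zero]
    simp [inv_mul_cancel₀ hq0]
  have h1 := linAlg1_poly Φ A B h s
  rw [← hs] at h1
  have hev : ∀ M : Multiset K, (∀ a ∈ M, a ∈ A + B) →
      (M.map fun a => (1 - Polynomial.C (q.eval 0)⁻¹ * q : Polynomial K).eval a).sum =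
        (M.card : K) := by
    intro M hM
    rw [Multiset.map_congr rfl (g := fun _ => (1 : K)) fun a ha => by simp [hroot a (hM a ha)]]
    simp
  rw [hev A fun a ha => Multiset.mem_add.2 (Or.inl ha),
    hev B fun a ha => Multiset.mem_add.2 (Or.inr ha), map_sub, map_mul, hΦq, mul_zero, sub_zero,
    map_one, LinearMap.trace_one] at h1
  exact_mod_cast h1

theorem finrank_one_of_trace [IsAlgClosed K] [CharZero K] [FiniteDimensional K V]
    [FiniteDimensional K V'] (Φ : Module.End K V) (Φ' : Module.End K V')
    (hΦ : Function.Injective Φ) (hΦ' : Function.Injective Φ') {c : K} (hc : c ≠ 0)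
    (h : ∀ r, 0 < r →
      LinearMap.trace K V (Φ ^ r) * LinearMap.trace K V' (Φ' ^ r) = c ^ r) :
    Module.finrank K V = 1 := by
  have h1 := finrank_of_trace (TensorProduct.map Φ Φ')
    (TensorProduct.map_injective_of_flat_flat Φ Φ' hΦ hΦ') 0 {c} (by simp) (by simpa using hc.symm)
    (fun r hr => by
      rw [TensorProduct.map_pow, LinearMap.trace_tensorProduct', h r hr]
      simp)
  simp only [Module.finrank_tensorProduct, Multiset.card_zero, add_zero,
    Multiset.card_singleton] at h1
  exact Nat.eq_one_of_mul_eq_one_right h1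

end Pool.Agent.MP_0c8446_ag
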