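import Pool.Agent.MP_0c8446_ag.CurveCoh1
import Pool.Agent.MP_0c8446_ag.Lef1
import Pool.Agent.MP_0c8446_ag.Lef2
import Pool.Agent.MP_0c8446_ag.CountD
import Pool.Agent.MP_0c8446_ag.CountF
import Pool.Agent.MP_0c8446_ag.LinAlg1
import Pool.Agent.MP_0c8446_ag.FrobFix

namespace Pool.Agent.MP_0c8446_ag

open Set

universe u v w

variable {k : Type u} [Field k] [IsAlgClosed k] {q : ℕ} [IsQ k q] {K : Type v} [Field K]
  [CharZero K] [IsAlgClosed K] {ι ι' ι₁ ι₂ : Type} [Fintype ι] [Fintype ι'] [Fintype ι₁] [Fintype ι₂]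
  {τ : ι → Bool} {τ' : ι' → Bool} {τ₁ : ι₁ → Bool} {τ₂ : ι₂ → Bool}

omit [IsAlgClosed K] in
lemma cc_one (b : Bool) {r : ℕ} (hr : 0 < r) : fixSum b r (1 : Gp k q b →* Kˣ) =
    Fintype.card (Gp k q b) * ((q : K) ^ r + 1) := by
  cases b
  · exact fixSumD_one hr
  · exact fixSumF_one hr

omit [IsAlgClosed K] in
lemma cc_not_adm {b : Bool} {r : ℕ} (hr : 0 < r) {χ : Gp k q b →* Kˣ} (h1 : χ ≠ 1)
    (h : ¬ Adm b χ) : fixSum b r χ = 0 := by
  cases b
  · exact fixSumD_not_adm hr h1 h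
  · exact fixSumF_not_adm hr h1 h

omit [IsAlgClosed K] in
lemma cc_adm {b : Bool} {r : ℕ} (hr : 0 < r) {χ : Gp k q b →* Kˣ} (h : Adm b χ) :
    fixSum b r χ⁻¹ * fixSum b r χ = (Fintype.card (Gp k q b) : K) ^ 2 * (q : K) ^ r := by
  cases b
  · exact fixSumD_adm hr h
  · exact fixSumF_adm hr h

omit [IsAlgClosed K] in
lemma cc_lam {b : Bool} {ω₁ ω₂ : MulChar (Fq k q) K} {ψ : AddChar (Fq k q) K}
    (h : (Lb.ch ω₁ ω₂ ψ).Ok b) :
    fixSum b 1 (ch b ω₁ ω₂ ψ)⁻¹ = -(Fintype.card (Gp k q b) * (Lb.ch ω₁ ω₂ ψ).lam b) := by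
  cases b
  · obtain ⟨h1, rfl, h2⟩ := h
    rw [fixSum_gauss h1 h2, Lb.lam]
    ring
  · obtain ⟨h1, h2, h3, rfl⟩ := h
    rw [fixSum_jacobi h1 h2 h3, Lb.lam]
    ring

omit [IsAlgClosed k] [IsAlgClosed K] [CharZero K] in
lemma cc_inv_inv {b : Bool} (χ : Gp k q b →* Kˣ) : χ⁻¹⁻¹ = χ := MonoidHom.ext fun _ => inv_inv _

omit [IsAlgClosed k] [IsAlgClosed K] [CharZero K] in
lemma cc_inv_one {b : Bool} : (1 : Gp k q b →* Kˣ)⁻¹ = 1 := MonoidHom.ext fun _ => inv_one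

omit [IsAlgClosed k] [IsAlgClosed K] [CharZero K] in
lemma cc_inv_ne {b : Bool} {χ : Gp k q b →* Kˣ} (h : χ ≠ 1) : χ⁻¹ ≠ 1 := fun e =>
  h (by rw [← cc_inv_inv χ, e, cc_inv_one])

omit [IsAlgClosed k] [IsAlgClosed K] [CharZero K] in
lemma cc_sum {b : Bool} {χ : Gp k q b →* Kˣ} (h : χ ≠ 1) : ∑ g, (χ g : K) = 0 := by
  have h1 : (Units.coeHom K).comp χ ≠ 1 := fun h1 =>
    h (MonoidHom.ext fun g => Units.ext (DFunLike.congr_fun h1 g))
  exact sum_hom_units_eq_zero _ h1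

omit [IsAlgClosed k] [IsAlgClosed K] in
lemma cc_card (b : Bool) : (Fintype.card (Gp k q b) : K) ≠ 0 :=
  Nat.cast_ne_zero.2 Fintype.card_ne_zero

omit [IsAlgClosed k] [IsAlgClosed K] in
lemma cc_q (k : Type u) [Field k] [IsQ k q] : (q : K) ≠ 0 :=
  Nat.cast_ne_zero.2 (by have := IsQ.one_lt (k := k) (q := q); omega)

omit [IsAlgClosed K] [CharZero K] in
lemma cc_line {V : Type*} [AddCommGroup V] [Module K V] (h : Module.finrank K V = 1)
    (Φ : Module.End K V) (a : V) : Φ a = LinearMap.trace K V Φ • a := by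
  have := Module.finite_of_finrank_eq_succ h
  obtain ⟨v, -, hv⟩ := finrank_eq_one_iff'.1 h
  obtain ⟨c, hc⟩ := hv (Φ v)
  obtain rfl : Φ = c • LinearMap.id := LinearMap.ext fun a => by
    obtain ⟨d, rfl⟩ := hv a
    rw [map_smul, ← hc, smul_comm]
    rfl
  simp [h]

/-- The Frobenius of the curve. -/
noncomputable abbrev ccF (k : Type u) [Field k] [IsAlgClosed k] (q : ℕ) [IsQ k q] (b : Bool) :
    Mor (Cv k q b) (Cv k q b) := frobY (fun _ => b) q inferInstance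

namespace Weil

variable (W : Weil.{u, v, w} k K)

/-- The action of the group on `H^1`. -/
noncomputable def ccT (b : Bool) : Gp k q b →* Module.End K (W.gr (Cv k q b) 1) where
  toFun g := (W.act b g).restrict (W.pull_gr _ 1)
  map_one' := LinearMap.ext fun a => Subtype.ext (by simp)
  map_mul' g h := LinearMap.ext fun a => Subtype.ext (by simp)

/-- The Frobenius on `H^1`. -/
noncomputable def ccP (q : ℕ) [IsQ k q] (b : Bool) : Module.End K (W.gr (Cv k q b) 1) :=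
  (W.pull (ccF k q b)).toLinearMap.restrict (W.pull_gr _ 1)

omit [IsAlgClosed K] [CharZero K] in
lemma ccP_mem (b : Bool) (χ : Gp k q b →* Kˣ) :
    ∀ a ∈ Eig (W.ccT b) χ, W.ccP q b a ∈ Eig (W.ccT b) χ := fun a ha g => by
  rw [← map_smul, ← ha g]
  refine Subtype.ext ?_
  show W.pull _ (W.pull _ a.1) = W.pull _ (W.pull _ a.1)
  rw [W.pull_pull, W.pull_pull]
  refine W.pull_congr (fun x => Yv_ext fun _ => ?_) _
  exact frob_lin_Gp g.2 (co x ())

/-- The Frobenius on an eigenspace. -/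
noncomputable def ccE (b : Bool) (χ : Gp k q b →* Kˣ) : Module.End K (Eig (W.ccT b) χ) :=
  (W.ccP q b).restrict (W.ccP_mem b χ)

omit [IsAlgClosed K] in
lemma ccE_inj (b : Bool) (χ : Gp k q b →* Kˣ) : Function.Injective (W.ccE b χ) := by
  have h := W.pull_injective (ccF k q b) (Cv k q b).isSub_univ rfl
    (by rw [image_univ, (frobY_surjective _ _).range_eq]; exact dense_univ)
  exact fun a a' e => Subtype.ext (Subtype.ext (h (congrArg (fun x => x.1.1) e)))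

omit [IsAlgClosed K] [CharZero K] in
lemma cc_deg (q : ℕ) [IsQ k q] (b : Bool) : ∃ δ : ℕ, 0 < δ ∧
    ∀ a, W.tr _ (W.pull (ccF k q b) a) = δ * W.tr _ a := by
  obtain ⟨δ, h0, h⟩ := W.exists_deg (ccF k q b) (Cv k q b).isSub_univ rfl
    (by rw [image_univ, (frobY_surjective _ _).range_eq]; exact dense_univ)
  exact ⟨δ, h0, fun a => by rw [← h, W.cl_univ, one_mul]⟩

omit [IsAlgClosed K] in
lemma cc_trace {b : Bool} {δ : K} (hδ : ∀ a, W.tr _ (W.pull (ccF k q b) a) = δ * W.tr _ a)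
    {r : ℕ} (hr : 0 < r) (g : Gp k q b) : LinearMap.trace K _ (W.ccP q b ^ r * W.ccT b g) =
      1 + δ ^ r - (fixSet b (q ^ r) g).ncard := by
  have := isQ_pow k q hr
  obtain ⟨x⟩ : Nonempty (Cv k q b).pts := inferInstance
  have h1 := W.lefschetz b (cm _ ((cMap_Gp g.2).comp (cMap_frob q (q ^ r) b))) x
  rw [W.tr_graph_diag] at h1
  have h2 : ∀ a, W.pull (cm _ ((cMap_Gp g.2).comp (cMap_frob q (q ^ r) b))) a =
      ((W.pull (ccF k q b)).toLinearMap ^ r) (W.act b g a) := fun a => by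
    rw [← W.pull_frobY_pow hr, act_apply, W.pull_pull]
    rfl
  have h3 : ∀ (r : ℕ) a, W.tr _ (((W.pull (ccF k q b)).toLinearMap ^ r) a) =
      δ ^ r * W.tr _ a := fun r => by
    induction r with
    | zero => simp
    | succ r ih =>
      intro a
      rw [pow_succ, Module.End.mul_apply, ih, AlgHom.toLinearMap_apply, hδ, pow_succ, mul_assoc]
  have h4 : W.tr _ (W.act b g (W.cl _ {x})) = 1 := by
    exact (W.tr_pull_aut (actY fun _ => g) (actY fun _ => g⁻¹) (actY_inv (fun _ => g))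
      (actY_inv' (fun _ => g)) _).trans (W.tr_pt _ x)
  have h5 : W.ccP q b ^ r * W.ccT b g =
      (W.pull (cm _ ((cMap_Gp g.2).comp (cMap_frob q (q ^ r) b)))).toLinearMap.restrict
        (W.pull_gr _ 1) := by
    refine LinearMap.ext fun a => Subtype.ext ?_
    rw [ccP, Module.End.pow_restrict]
    exact (h2 a).symm
  rw [h2, h3, h4] at h1
  rw [h5, h1]
  ring

omit [IsAlgClosed K] in
lemma cc_eig {b : Bool} {δ : K} (hδ : ∀ a, W.tr _ (W.pull (ccF k q b) a) = δ * W.tr _ a)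
    {r : ℕ} (hr : 0 < r) (χ : Gp k q b →* Kˣ) :
    Fintype.card (Gp k q b) * LinearMap.trace K _ (W.ccE b χ ^ r) =
      (1 + δ ^ r) * ∑ g, (χ⁻¹ g : K) - fixSum b r χ⁻¹ := by
  rw [ccE, Module.End.pow_restrict, trace_eig, fixSum, Finset.mul_sum, ← Finset.sum_sub_distrib]
  refine Finset.sum_congr rfl fun g _ => ?_
  rw [W.cc_trace hδ hr]
  ring

omit [IsAlgClosed K] in
lemma cc_eig' {b : Bool} {r : ℕ} (hr : 0 < r) {χ : Gp k q b →* Kˣ} (h : χ ≠ 1) :
    Fintype.card (Gp k q b) * LinearMap.trace K _ (W.ccE b χ ^ r) = -fixSum b r χ⁻¹ := by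
  obtain ⟨δ, -, hδ⟩ := W.cc_deg q b
  rw [W.cc_eig hδ hr, cc_sum (cc_inv_ne h), mul_zero, zero_sub]

lemma cc_triv (b : Bool) : Module.finrank K (Eig (W.ccT b) (1 : Gp k q b →* Kˣ)) = 0 ∧
    ∀ a, W.tr _ (W.pull (ccF k q b) a) = q * W.tr _ a := by
  obtain ⟨δ, h0, hδ⟩ := W.cc_deg q b
  have h1 : ∀ r, 0 < r → LinearMap.trace K _ (W.ccE b (1 : Gp k q b →* Kˣ) ^ r) + (q : K) ^ r =
      (δ : K) ^ r := fun r hr => by
    have h2 := W.cc_eig hδ hr 1
    rw [cc_inv_one, cc_one b hr] at h2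
    simp only [MonoidHom.one_apply, Units.val_one, Finset.sum_const, Finset.card_univ,
      nsmul_eq_mul, mul_one] at h2
    refine mul_left_cancel₀ (cc_card (k := k) (q := q) b) ?_
    linear_combination h2
  have h2 := finrank_of_trace (V := Eig (W.ccT b) (1 : Gp k q b →* Kˣ)) (W.ccE b 1)
    (W.ccE_inj b 1) {(q : K)} {(δ : K)} (by simpa using (cc_q (K := K) k).symm)
    (by simpa using (Nat.cast_ne_zero.2 h0.ne').symm) (by simpa using h1)
  have h3 : Module.finrank K (Eig (W.ccT b) (1 : Gp k q b →* Kˣ)) = 0 := by simpa using h2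
  refine ⟨h3, ?_⟩
  have := (Module.finrank_zero_iff (R := K) (M := Eig (W.ccT b) (1 : Gp k q b →* Kˣ))).1 h3
  have h4 := h1 1 one_pos
  rw [Subsingleton.elim (W.ccE b (1 : Gp k q b →* Kˣ) ^ 1) 0, map_zero, zero_add, pow_one,
    pow_one] at h4
  rwa [h4]

lemma cc_bot {b : Bool} {χ : Gp k q b →* Kˣ} (h : ¬ Adm b χ) : Eig (W.ccT b) χ = ⊥ := by
  rw [← Submodule.finrank_eq_zero]
  by_cases h1 : χ = 1
  · exact h1 ▸ (W.cc_triv b).1
  have h2 := finrank_of_trace (V := Eig (W.ccT b) χ) (W.ccE b χ) (W.ccE_inj b χ) 0 0 (by simp)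
    (by simp) fun r hr => by
      have h3 := W.cc_eig' hr h1
      rw [cc_not_adm hr (cc_inv_ne h1) fun h4 => h (cc_inv_inv χ ▸ h4.inv), neg_zero] at h3
      simpa using (mul_eq_zero.1 h3).resolve_left (cc_card b)
  simpa using h2

lemma cc_rank {b : Bool} {χ : Gp k q b →* Kˣ} (h : Adm b χ) :
    Module.finrank K (Eig (W.ccT b) χ) = 1 := by
  refine finrank_one_of_trace (V := Eig (W.ccT b) χ) (V' := Eig (W.ccT b) χ⁻¹) (W.ccE b χ)
    (W.ccE b χ⁻¹) (W.ccE_inj b χ) (W.ccE_inj b χ⁻¹) (cc_q (q := q) k) fun r hr => ?_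
  have h1 := W.cc_eig' hr h.ne_one
  have h2 := W.cc_eig' hr h.inv.ne_one
  rw [cc_inv_inv] at h2
  refine mul_left_cancel₀ (pow_ne_zero 2 (cc_card (k := k) (q := q) b)) ?_
  rw [← cc_adm hr h, ← neg_mul_neg (fixSum b r χ⁻¹), ← h1, ← h2]
  ring

omit [IsAlgClosed K] [CharZero K] in
lemma cc_V (b : Bool) (ω₁ ω₂ : MulChar (Fq k q) K) (ψ : AddChar (Fq k q) K) :
    (W.V b (.ch ω₁ ω₂ ψ)).1 = (Eig (W.ccT b) (ch b ω₁ ω₂ ψ)).map (Submodule.subtype _) := by
  ext a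
  constructor
  · rintro ⟨h1, h2⟩
    exact ⟨⟨a, h1⟩, fun g => Subtype.ext (h2 g), rfl⟩
  · rintro ⟨a, h, rfl⟩
    exact ⟨a.2, fun g => congrArg Subtype.val (h g)⟩

omit [IsAlgClosed K] [CharZero K] in
lemma cc_top {b : Bool} {a : W.H (Cv k q b)} (ha : a ∈ W.gr _ 2) (x : (Cv k q b).pts) :
    a = W.tr _ a • W.cl _ {x} := W.eq_smul_pt (by rwa [d_Cv]) x

theorem finrank_V {b : Bool} {t : Lb k q K} (h : t.Ok b) : Module.finrank K (W.V b t).1 = 1 := by
  obtain ⟨x⟩ : Nonempty (Cv k q b).pts := inferInstance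
  have h0 : W.cl _ {x} ≠ 0 := fun e => by simpa [e] using W.tr_pt _ x
  rcases t with _ | _ | ⟨ω₁, ω₂, ψ⟩
  · show Module.finrank K (1 : Submodule K (W.H (Cv k q b))) = 1
    rw [Submodule.one_eq_span]
    exact finrank_span_singleton fun e => h0 (by rw [← mul_one (W.cl _ _), e, mul_zero])
  · have : W.gr (Cv k q b) 2 = K ∙ W.cl _ {x} := by
      refine le_antisymm (fun a ha => Submodule.mem_span_singleton.2 ⟨_, (W.cc_top ha x).symm⟩)
        ((Submodule.span_singleton_le_iff_mem _ _).2 ?_)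
      have := W.cl_pt_gr x
      rwa [d_Cv] at this
    show Module.finrank K (W.gr (Cv k q b) 2) = 1
    rw [this]
    exact finrank_span_singleton h0
  · rw [cc_V, Submodule.finrank_map_subtype_eq]
    exact W.cc_rank h.adm

theorem iSup_V (b : Bool) : ⨆ t : {t : Lb k q K // t.Ok b}, (W.V b t.1).1 = ⊤ := by
  have key : ∀ t : Lb k q K, t.Ok b →
      (W.V b t).1 ≤ ⨆ t : {t : Lb k q K // t.Ok b}, (W.V b t.1).1 := fun t ht =>
    le_iSup (fun t : {t : Lb k q K // t.Ok b} => (W.V b t.1).1) ⟨t, ht⟩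
  refine eq_top_iff.2 fun a h => ?_
  clear h
  induction a using DirectSum.Decomposition.inductionOn (W.gr (Cv k q b)) with
  | zero => exact zero_mem _
  | add a c ha hc => exact add_mem ha hc
  | @homogeneous i a =>
    obtain ⟨a, ha⟩ := a
    match i, ha with
    | 0, ha =>
      rw [W.zero, ← Submodule.one_eq_span] at ha
      exact key .one (by cases b <;> trivial) ha
    | 1, ha =>
      have h1 : (⨆ χ, Eig (W.ccT (q := q) b) χ).map (Submodule.subtype _) ≤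
          ⨆ t : {t : Lb k q K // t.Ok b}, (W.V b t.1).1 := by
        rw [Submodule.map_iSup]
        refine iSup_le fun χ => ?_
        by_cases h : Adm b χ
        · obtain ⟨ω₁, ω₂, ψ, h2, rfl⟩ := h.exists_ok
          exact W.cc_V b ω₁ ω₂ ψ ▸ key _ h2
        · rw [W.cc_bot h, Submodule.map_bot]
          exact bot_le
      rw [iSup_eig] at h1
      exact h1 ⟨⟨a, ha⟩, trivial, rfl⟩
    | 2, ha => exact key .pt (by cases b <;> trivial) ha
    | i + 3, ha =>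
      obtain rfl := W.gr_eq_zero ha (by rw [d_Cv]; omega)
      exact zero_mem _

theorem frob_V {b : Bool} {t : Lb k q K} (h : t.Ok b) {a : W.H (Cv k q b)}
    (ha : a ∈ (W.V b t).1) : W.pull (cm (frob q) (cMap_frob q q b)) a = t.lam b • a := by
  show W.pull (ccF k q b) a = _
  obtain ⟨x⟩ : Nonempty (Cv k q b).pts := inferInstance
  rcases t with _ | _ | ⟨ω₁, ω₂, ψ⟩
  · obtain ⟨c, rfl⟩ := Submodule.mem_one.1 ha
    rw [AlgHom.commutes, show Lb.lam b (.one : Lb k q K) = 1 by cases b <;> rfl, one_smul]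
  · rw [W.cc_top (W.pull_gr _ 2 a ha) x, (W.cc_triv b).2, mul_smul, ← W.cc_top ha x,
      show Lb.lam b (.pt : Lb k q K) = q by cases b <;> rfl]
  · rw [cc_V] at ha
    obtain ⟨a, ha, rfl⟩ := ha
    have h1 := W.cc_eig' one_pos h.adm.ne_one
    rw [cc_lam h, neg_neg, pow_one] at h1
    rw [← mul_left_cancel₀ (cc_card b) h1]
    exact congrArg (fun x : Eig (W.ccT b) (ch b ω₁ ω₂ ψ) => x.1.1)
      (cc_line (V := Eig (W.ccT b) (ch b ω₁ ω₂ ψ)) (W.cc_rank h.adm) (W.ccE b _) ⟨a, ha⟩)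

theorem NZ_V {b : Bool} {t : Lb k q K} (h : t.Ok b) : W.NZ (W.V b t * W.V b t.du).1 := by
  by_contra hn
  obtain ⟨a, ha, h0⟩ := Submodule.exists_mem_ne_zero_of_ne_bot (p := (W.V b t).1) fun e => by
    have := W.finrank_V h
    rw [e, finrank_bot] at this
    exact zero_ne_one this
  refine h0 (W.poincare _ a fun c => ?_)
  have hc : c ∈ ⨆ t : {t : Lb k q K // t.Ok b}, (W.V b t.1).1 := by
    rw [W.iSup_V]
    trivial
  induction hc using Submodule.iSup_induction' with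
  | zero => simp
  | add c d _ _ hc hd => rw [mul_add, map_add, hc, hd, add_zero]
  | mem t' c hc =>
    by_contra h1
    have h2 : W.NZ (W.V b t * W.V b t'.1).1 := ⟨_, Submodule.mul_mem_mul ha hc, h1⟩
    by_cases e : t'.1 = t.du
    · exact hn (e ▸ h2)
    · exact W.not_NZ_V h t'.2 e h2

end Weil

end Pool.Agent.MP_0c8446_ag
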