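import Pool.Agent.MP_0c8446_ag.LDefs

namespace Pool.Agent.MP_0c8446_ag

open Set

universe u v w

variable {k : Type u} [Field k] [IsAlgClosed k] {q : ℕ} [IsQ k q] {K : Type v} [Field K]

namespace Weil

variable (W : Weil.{u, v, w} k K)

lemma cc1_tr_act [CharZero K] (b : Bool) (g : Gp k q b) (a : W.H (Cv k q b)) :
    W.tr _ (W.act b g a) = W.tr _ a :=
  W.tr_pull_aut (cm (lin g.1) (cMap_Gp g.2)) (cm (lin g⁻¹.1) (cMap_Gp g⁻¹.2))
    (fun x => actY_inv (τ := fun _ : Unit => b) (fun _ => g) x)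
    (fun x => actY_inv' (τ := fun _ : Unit => b) (fun _ => g) x) a

theorem act_V [CharZero K] (b : Bool) (t : Lb k q K) (g : Gp k q b) {a : W.H (Cv k q b)}
    (ha : a ∈ (W.V b t).1) : W.act b g a = (t.chr b g : K) • a := by
  cases t with
  | one =>
    obtain ⟨c, rfl⟩ := Submodule.mem_one.1 ha
    rw [act_apply, AlgHom.commutes]
    exact (one_smul K _).symm
  | pt =>
    obtain ⟨x⟩ : Nonempty (Cv k q b).pts := inferInstance
    have h1 : a ∈ W.gr _ (2 * (Cv k q b).d) := by rw [d_Cv]; exact ha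
    have h2 : W.act b g a ∈ W.gr _ (2 * (Cv k q b).d) := W.pull_gr _ _ _ h1
    rw [W.eq_smul_pt h2 x, cc1_tr_act, ← W.eq_smul_pt h1 x]
    exact (one_smul K _).symm
  | ch ω₁ ω₂ ψ => exact ha.2 g

lemma cc1_const {X Y : Var k} (y : Y.pts) (q : ℕ) [IsQ k q] {a : W.H Y} {i : ℕ} (hi : 0 < i)
    (ha : a ∈ W.gr Y i) : W.pull (Mor.const X y) a = 0 := by
  obtain ⟨o⟩ : Nonempty (Yv k q fun e : Empty => e.elim).pts := inferInstance
  have h1 : W.pull (Mor.const (Yv k q fun e : Empty => e.elim) y) a = 0 :=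
    W.gr_eq_zero (W.pull_gr _ _ _ ha) (by rw [W.d_Yv]; simpa using hi)
  rw [W.pull_congr (f := Mor.const X y) (g := (Mor.const _ y).comp (Mor.const X o))
    (fun _ => rfl), ← W.pull_pull, h1, map_zero]

theorem const_V (b : Bool) (t : Lb k q K) (x : (Cv k q b).pts) {a : W.H (Cv k q b)}
    (ha : a ∈ (W.V b t).1) : W.pull (Mor.const _ x) a = t.kap • a := by
  cases t with
  | one =>
    obtain ⟨c, rfl⟩ := Submodule.mem_one.1 ha
    rw [AlgHom.commutes, Lb.kap, if_pos rfl, one_smul]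
  | pt =>
    rw [W.cc1_const x q two_pos (W.V_le_gr b _ ha), Lb.kap, if_neg (by simp), zero_smul]
  | ch ω₁ ω₂ ψ =>
    rw [W.cc1_const x q one_pos (W.V_le_gr b _ ha), Lb.kap, if_neg (by simp), zero_smul]

theorem not_NZ_V [CharZero K] {b : Bool} {t t' : Lb k q K} (h : t.Ok b) (h' : t'.Ok b)
    (hne : t' ≠ t.du) : ¬ W.NZ (W.V b t * W.V b t').1 := by
  rintro ⟨c, hc, hc0⟩
  refine hc0 (Submodule.mul_induction_on (C := fun c => W.tr _ c = 0) hc (fun a ha a' ha' => ?_)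
    fun a a' ha ha' => by rw [map_add, ha, ha', add_zero])
  by_contra h0
  have hd : t.deg + t'.deg = 2 := by
    by_contra h1
    exact h0 (W.tr_mul_gr (W.V_le_gr b t ha) (W.V_le_gr b t' ha') (by rwa [d_Cv]))
  have hχ : t'.chr b = t.du.chr b := by
    rw [Lb.chr_du]
    refine MonoidHom.ext fun g => ?_
    have h1 := W.cc1_tr_act b g (a * a')
    rw [act_apply, map_mul, ← act_apply, ← act_apply, W.act_V b t g ha, W.act_V b t' g ha',
      smul_mul_smul_comm, map_smul, smul_eq_mul] at h1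
    have h2 := mul_right_cancel₀ h0 (h1.trans (one_mul _).symm)
    rw [MonoidHom.inv_apply]
    exact eq_inv_of_mul_eq_one_right (Units.ext h2)
  refine hne (Lb.eq_of_chr h' h.du hχ ?_)
  cases t <;> cases t' <;> simp [Lb.deg] at hd <;> simp [Lb.kap, Lb.du]

end Weil

end Pool.Agent.MP_0c8446_ag
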