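import Pool.Agent.MP_0c8446_ag.GDefs

namespace Pool.Agent.MP_0c8446_ag

open Set MvPolynomial

universe u v w

section

variable {k : Type u} [Field k] {A : Type*} [CommRing A] [Algebra k A]

lemma finHyp_add {R S T : Submodule k A} (hS : S ≤ R) (hT : T ≤ R) {a b : ℕ}
    (h1 : S ^ (a + 1) ≤ R ^ a) (h2 : T ^ (b + 1) ≤ R ^ b) : (S + T) ^ (a + b + 1) ≤ R ^ (a + b) := by
  have key : ∀ m i j, i + j + m = a + b + 1 → S ^ i * T ^ j * (S + T) ^ m ≤ R ^ (a + b) := by
    intro m
    induction m with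
    | zero =>
      intro i j h
      rw [pow_zero, mul_one]
      rcases le_or_gt (a + 1) i with hi | hi
      · obtain ⟨e, rfl⟩ := Nat.exists_eq_add_of_le hi
        rw [show a + b = a + e + j by omega, pow_add S, pow_add R, pow_add R]
        exact mul_le_mul' (mul_le_mul' h1 (pow_le_pow_left' hS _)) (pow_le_pow_left' hT _)
      · obtain ⟨e, rfl⟩ := Nat.exists_eq_add_of_le (show b + 1 ≤ j by omega)
        rw [show a + b = i + (b + e) by omega, pow_add T, pow_add R, pow_add R]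
        exact mul_le_mul' (pow_le_pow_left' hS _) (mul_le_mul' h2 (pow_le_pow_left' hT _))
    | succ m ih =>
      intro i j h
      rw [show S ^ i * T ^ j * (S + T) ^ (m + 1) =
        S ^ (i + 1) * T ^ j * (S + T) ^ m + S ^ i * T ^ (j + 1) * (S + T) ^ m by ring]
      exact sup_le (ih _ _ (by omega)) (ih _ _ (by omega))
  simpa using key _ 0 0 (by omega)

lemma finHyp_sum {T : Type*} {R : Submodule k A} (S : T → Submodule k A) (hS : ∀ t, S t ≤ R)
    (h : ∀ t, ∃ a, S t ^ (a + 1) ≤ R ^ a) (s : Finset T) :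
    ∑ t ∈ s, S t ≤ R ∧ ∃ a, (∑ t ∈ s, S t) ^ (a + 1) ≤ R ^ a := by
  classical
  induction s using Finset.induction_on with
  | empty => exact ⟨bot_le, 0, by simp⟩
  | insert t s ht ih =>
    obtain ⟨a, ha⟩ := h t
    obtain ⟨h1, b, hb⟩ := ih
    rw [Finset.sum_insert ht]
    exact ⟨sup_le (hS t) h1, a + b, finHyp_add (hS t) h1 ha hb⟩

lemma finHyp_integral {T : Type*} [Fintype T] (m : T → A) (h1 : (1 : A) ∈ Submodule.span k (range m))
    (h : ∀ t, ∃ a, m t ^ (a + 1) ∈ Submodule.span k (range m) ^ a) {x : A}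
    (hx : x ∈ Submodule.span k (range m)) : IsIntegral k x := by
  set R := Submodule.span k (range m) with hR
  have e : ∑ t, (k ∙ m t) = R := by
    rw [hR, Submodule.span_range_eq_iSup]
    refine le_antisymm (Finset.sum_induction _ (· ≤ ⨆ t, k ∙ m t) (fun _ _ => sup_le) bot_le
      fun t _ => le_iSup (fun t => k ∙ m t) t) (iSup_le fun t => ?_)
    exact Finset.single_le_sum (f := fun t => k ∙ m t) (fun _ _ => bot_le) (Finset.mem_univ t)
  obtain ⟨-, N, hN⟩ := finHyp_sum (R := R) (fun t => k ∙ m t)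
    (fun t => Submodule.span_mono (singleton_subset_iff.2 ⟨t, rfl⟩))
    (fun t => (h t).imp fun a ha => by
      rwa [Submodule.span_pow, singleton_pow, Submodule.span_singleton_le_iff_mem]) Finset.univ
  rw [e] at hN
  have h2 : ∀ d, R ^ d ≤ R ^ (d + 1) := fun d a ha => by
    rw [pow_succ, ← mul_one a]
    exact Submodule.mul_mem_mul ha h1
  have h3 : ∀ d, R ^ d ≤ R ^ N := fun d => by
    rcases le_total d N with hd | hd
    · exact monotone_nat_of_le_succ (f := fun d => R ^ d) h2 hd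
    · induction d, hd using Nat.le_induction with
      | base => exact le_rfl
      | succ d _ ih =>
        rw [pow_succ]
        exact (mul_le_mul' ih le_rfl).trans ((pow_succ R N).ge.trans hN)
  let B : Subalgebra k A := (R ^ N).toSubalgebra (h3 0 (by rw [pow_zero]; exact Submodule.one_le.1 le_rfl)) fun a b ha hb =>
    h3 (N + N) (by rw [pow_add]; exact Submodule.mul_mem_mul ha hb)
  exact IsIntegral.of_mem_of_fg B ((Submodule.fg_span (finite_range m)).pow N) x
    (h3 1 (by rwa [pow_one]))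

end

variable {k : Type u} [Field k] [IsAlgClosed k] {K : Type v} [Field K] [CharZero K]

lemma finHyp_null {ι : Type} [Fintype ι] {n : ι → ℕ} {C : Set (MP k n)} (hC : IsClosed C)
    (t : ∀ i, Fin (n i + 1)) (f : MvPolynomial (Vars n) k)
    (hf : ∀ x ∈ C, ∀ v, IsRep v x → eval v f ≠ 0) :
    ∃ b, ∀ x ∈ C, ∀ v, IsRep v x → (∀ i, v ⟨i, t i⟩ = 1) → eval v b * eval v f = 1 := by
  let Z : Set (Vars n → k) := {v | (∃ x ∈ C, IsRep v x) ∧ ∀ i, v ⟨i, t i⟩ = 1}
  have h1 : zeroLocus k (vanishingIdeal k Z ⊔ Ideal.span {f}) = ∅ := by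
    refine eq_empty_of_forall_notMem fun u hu => ?_
    have h2 : ∀ p ∈ vanishingIdeal k Z, eval u p = 0 := fun p hp => hu p (Ideal.mem_sup_left hp)
    have h3 : ∀ i, u ⟨i, t i⟩ = 1 := fun i => by
      have := h2 (X ⟨i, t i⟩ - 1) fun v hv => by simp [hv.2 i]
      simpa [sub_eq_zero] using this
    have h4 : ∀ i, (fun s => u ⟨i, s⟩) ≠ 0 := fun i e => by
      have := congrFun e (t i)
      simp [h3] at this
    have h5 : IsRep u fun i => Projectivization.mk k _ (h4 i) := fun i => ⟨h4 i, rfl⟩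
    refine hf _ ?_ u h5 (hu f (Ideal.mem_sup_right (Ideal.mem_span_singleton_self f)))
    rw [← hC.closure_eq]
    refine mem_closure_vI.2 fun g hg w hw => ?_
    obtain ⟨l, hl, rfl⟩ := h5.exists_smul hw
    have e : ∀ v : Vars n → k, eval v (aeval (fun a : Vars n => MvPolynomial.C (l a.1) * X a) g) =
        eval (fun a => l a.1 * v a) g := fun v => by
      rw [eval_comp_aeval]
      simp only [map_mul, eval_C, eval_X]
    rw [← e]
    refine h2 _ ?_
    rintro v ⟨⟨x, hx, hv⟩, -⟩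
    exact (e v).trans (hg x hx _ (hv.smul l hl))
  have h2 := vanishingIdeal_zeroLocus_eq_radical (K := k) (vanishingIdeal k Z ⊔ Ideal.span {f})
  rw [h1, vanishingIdeal_empty, eq_comm, Ideal.radical_eq_top, Ideal.eq_top_iff_one,
    Submodule.mem_sup] at h2
  obtain ⟨p, hp, _, hq, e⟩ := h2
  obtain ⟨b, rfl⟩ := Ideal.mem_span_singleton'.1 hq
  refine ⟨b, fun x hx v hv h => ?_⟩
  have h3 : eval v p = 0 := hp v ⟨⟨x, hx, hv⟩, h⟩
  have := congrArg (eval v) e
  rwa [map_add, h3, zero_add, map_mul, map_one] at this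

theorem finite_of_disjoint {ι : Type} [Fintype ι] {n : ι → ℕ} {C : Set (MP k n)}
    (hC : IsClosed C) (c : ∀ i, Fin (n i + 1) → k) (h : ∀ x ∈ C, ∀ i, x ∉ hyp i (c i)) :
    C.Finite := by
  classical
  let ℓ : ι → (Vars n → k) → k := fun i v => ∑ s, c i s * v ⟨i, s⟩
  have hℓ : ∀ i (l : ι → k) v, ℓ i (fun a => l a.1 * v a) = l i * ℓ i v := fun i l v => by
    simp only [ℓ, Finset.mul_sum, mul_left_comm]
  have h0 : ∀ x ∈ C, ∀ i, ℓ i x.rep ≠ 0 := h
  have h0' : ∀ x ∈ C, ∀ v, IsRep v x → ∀ i, ℓ i v ≠ 0 := fun x hx v hv i => by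
    obtain ⟨l, hl, rfl⟩ := (isRep_rep x).exists_smul hv
    rw [hℓ]
    exact mul_ne_zero (hl i) (h0 x hx i)
  let ρ : MP k n → Vars n → k := fun x a => (ℓ a.1 x.rep)⁻¹ * x.rep a
  have hρ : ∀ x ∈ C, IsRep (ρ x) x := fun x hx =>
    (isRep_rep x).smul (fun i => (ℓ i x.rep)⁻¹) fun i => inv_ne_zero (h0 x hx i)
  have hρ1 : ∀ x ∈ C, ∀ i, ℓ i (ρ x) = 1 := fun x hx i =>
    (hℓ i (fun i => (ℓ i x.rep)⁻¹) x.rep).trans (inv_mul_cancel₀ (h0 x hx i))
  let m : (∀ i, Fin (n i + 1)) → C → k := fun t x => ∏ i, ρ x ⟨i, t i⟩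
  set R := Submodule.span k (range m) with hR
  have hm : ∀ t, m t ∈ R := fun t => Submodule.subset_span ⟨t, rfl⟩
  have hlin : ∀ d : ∀ i, Fin (n i + 1) → k,
      (fun x : C => ∏ i, ∑ s, d i s * ρ x ⟨i, s⟩) ∈ R := fun d => by
    have : (fun x : C => ∏ i, ∑ s, d i s * ρ x ⟨i, s⟩) = ∑ t, (∏ i, d i (t i)) • m t := by
      funext x
      rw [Finset.prod_univ_sum, Fintype.piFinset_univ, Finset.sum_apply]
      exact Finset.sum_congr rfl fun t _ => Finset.prod_mul_distrib
    rw [this]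
    exact sum_mem fun t _ => Submodule.smul_mem _ _ (hm t)
  have h1 : (1 : C → k) ∈ R := by
    have : (1 : C → k) = fun x : C => ∏ i, ∑ s, c i s * ρ x ⟨i, s⟩ :=
      funext fun x => (Finset.prod_eq_one fun i _ => hρ1 x x.2 i).symm
    rw [this]
    exact hlin c
  have h2 : ∀ a, (fun x : C => ρ x a) ∈ R := fun ⟨i, s⟩ => by
    have : (fun x : C => ρ x ⟨i, s⟩) = fun x : C =>
        ∏ j, ∑ r, Function.update c i (Pi.single s 1) j r * ρ x ⟨j, r⟩ := by
      funext x
      rw [Finset.prod_eq_single i (fun j _ hj => by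
        rw [Function.update_of_ne hj]; exact hρ1 x x.2 j) (by simp), Function.update_self]
      simp [Pi.single_apply]
    rw [this]
    exact hlin _
  have h3 : ∀ t (b : MvPolynomial (Vars n) k), ∃ D, ∃ r ∈ R ^ D, ∀ x : C, m t x ≠ 0 →
      m t x ^ D * eval (fun a => (ρ x ⟨a.1, t a.1⟩)⁻¹ * ρ x a) b = r x := fun t b => by
    induction b using MvPolynomial.induction_on with
    | C a => exact ⟨0, algebraMap k _ a, by simp, fun x _ => by simp⟩
    | add p q hp hq =>
      obtain ⟨D, r, hr, e⟩ := hp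
      obtain ⟨D', r', hr', e'⟩ := hq
      refine ⟨D + D', r * m t ^ D' + m t ^ D * r', add_mem ?_ ?_, fun x hx => ?_⟩
      · rw [pow_add]
        exact Submodule.mul_mem_mul hr (Submodule.pow_mem_pow _ (hm t) _)
      · rw [pow_add]
        exact Submodule.mul_mem_mul (Submodule.pow_mem_pow _ (hm t) _) hr'
      · simp only [Pi.add_apply, Pi.mul_apply, Pi.pow_apply, map_add, ← e x hx, ← e' x hx]
        ring
    | mul_X p a hp =>
      obtain ⟨D, r, hr, e⟩ := hp
      obtain ⟨i, s⟩ := a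
      refine ⟨D + 1, r * m (Function.update t i s), ?_, fun x hx => ?_⟩
      · rw [pow_succ]
        exact Submodule.mul_mem_mul hr (hm _)
      · have h4 : ρ x ⟨i, t i⟩ ≠ 0 := Finset.prod_ne_zero_iff.1 hx i (Finset.mem_univ i)
        have h5 : m t x = ρ x ⟨i, t i⟩ * ∏ j ∈ Finset.univ.erase i, ρ x ⟨j, t j⟩ :=
          (Finset.mul_prod_erase _ (fun j => ρ x ⟨j, t j⟩) (Finset.mem_univ i)).symm
        have h6 : m (Function.update t i s) x =
            ρ x ⟨i, s⟩ * ∏ j ∈ Finset.univ.erase i, ρ x ⟨j, t j⟩ := by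
          refine (Finset.mul_prod_erase _ (fun j => ρ x ⟨j, Function.update t i s j⟩)
            (Finset.mem_univ i)).symm.trans ?_
          rw [Function.update_self]
          exact congrArg _ (Finset.prod_congr rfl fun j hj => by
            rw [Function.update_of_ne (Finset.ne_of_mem_erase hj)])
        rw [Pi.mul_apply, ← e x hx, h6, map_mul, eval_X, pow_succ]
        nth_rewrite 2 [h5]
        field_simp
  have h4 : ∀ t, ∃ a, m t ^ (a + 1) ∈ R ^ a := fun t => by
    have e : ∀ v, eval v (∏ i, ∑ s, MvPolynomial.C (c i s) * X ⟨i, s⟩ : MvPolynomial (Vars n) k) =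
        ∏ i, ℓ i v := fun v => by simp [ℓ]
    obtain ⟨b, hb⟩ := finHyp_null hC t (∏ i, ∑ s, MvPolynomial.C (c i s) * X ⟨i, s⟩)
      fun x hx v hv => by rw [e]; exact Finset.prod_ne_zero_iff.2 fun i _ => h0' x hx v hv i
    obtain ⟨D, r, hr, hD⟩ := h3 t b
    refine ⟨D + 1, ?_⟩
    have : m t ^ (D + 1 + 1) = r * m t := by
      funext x
      by_cases hx : m t x = 0
      · simp [hx]
      have h5 : ∀ i, ρ x ⟨i, t i⟩ ≠ 0 := fun i => Finset.prod_ne_zero_iff.1 hx i (Finset.mem_univ i)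
      have h6 := hb x x.2 _ ((hρ x x.2).smul (fun i => (ρ x ⟨i, t i⟩)⁻¹) fun i => inv_ne_zero (h5 i))
        fun i => inv_mul_cancel₀ (h5 i)
      rw [e, Finset.prod_congr rfl fun i _ => (hℓ i (fun i => (ρ x ⟨i, t i⟩)⁻¹) (ρ x)).trans
        (by rw [hρ1 x x.2, mul_one]), Finset.prod_inv_distrib, mul_inv_eq_one₀ hx] at h6
      rw [Pi.mul_apply, ← hD x hx, h6, Pi.pow_apply, pow_succ, pow_succ]
    rw [this, pow_succ]
    exact Submodule.mul_mem_mul hr (hm t)
  choose p hp hp0 using fun a => finHyp_integral m h1 h4 (h2 a)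
  refine Finite.of_finite_image (f := ρ) ((Finite.pi' fun a => (p a).rootSet_finite k).subset ?_)
    fun x hx y hy e => (hρ x hx).unique (e ▸ hρ y hy)
  rintro _ ⟨x, hx, rfl⟩ a
  rw [Polynomial.mem_rootSet_of_ne (hp a).ne_zero]
  have := congrArg (Pi.evalAlgHom k (fun _ : C => k) ⟨x, hx⟩) (show Polynomial.aeval _ (p a) = 0
    from hp0 a)
  rwa [← Polynomial.aeval_algHom_apply, map_zero] at this

end Pool.Agent.MP_0c8446_ag
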