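import Pool.Agent.MP_0c8446_ag.GeoGen2
import Pool.Agent.MP_0c8446_ag.FinHyp
import Pool.Agent.MP_0c8446_ag.ProdVar

namespace Pool.Agent.MP_0c8446_ag

open Set

universe u v w

variable {k : Type u} [Field k] [IsAlgClosed k] {K : Type v} [Field K] [CharZero K]

lemma dom_dim_of_finite {X : Type u} [TopologicalSpace X] [T1Space X] {C : Set X} (hC : IsSub C)
    (hf : C.Finite) : dim C = 0 := by
  obtain ⟨x, hx⟩ := hC.1.1
  rw [hC.eq_singleton_of_finite isOpen_univ (by rwa [inter_univ]) hx (mem_univ x), dim_singleton]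

/-- A subvariety of dimension at least `dim X` with a nonempty finite fibre has dimension
`dim X`. -/
lemma Weil.dom_dim (W : Weil.{u, v, w} k K) {X Y : Var k} (φ : Mor Y X) {D : Set Y.pts}
    (hD : IsSub D) (hd : X.d ≤ dim D) {z : Y.pts} (hz : z ∈ D)
    (hf : (D ∩ φ.1 ⁻¹' {φ.1 z}).Finite) : dim D = X.d := by
  obtain ⟨P, p, q, h⟩ := exists_prod Y X
  have hr : Retr (h.lift (Mor.id Y) φ).1 p.1 := Mor.retr _ p fun y => by simp
  have hΓ := hr.isSub hD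
  have hΓd := hr.dim_image D
  have hF := h.isSub Y.isSub_univ (isSub_singleton (φ.1 z))
  have hFd := W.dim_isProd h Y.isSub_univ (isSub_singleton (φ.1 z))
  rw [dim_singleton] at hFd
  have hP := W.d_prod h
  have hfin : ((h.lift (Mor.id Y) φ).1 '' D ∩ (p.1 ⁻¹' univ ∩ q.1 ⁻¹' {φ.1 z})).Finite := by
    refine (hf.image (h.lift (Mor.id Y) φ).1).subset ?_
    rintro _ ⟨⟨y, hy, rfl⟩, -, h2⟩
    refine ⟨y, ⟨hy, ?_⟩, rfl⟩
    simpa using h2
  have hYd : dim (univ : Set Y.pts) = Y.d := rfl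
  obtain ⟨C, hC, -⟩ := exists_isComp (isSub_singleton ((h.lift (Mor.id Y) φ).1 z))
    (S := (h.lift (Mor.id Y) φ).1 '' D ∩ (p.1 ⁻¹' univ ∩ q.1 ⁻¹' {φ.1 z}))
    (singleton_subset_iff.2 ⟨⟨z, hz, rfl⟩, mem_univ _, by simp⟩)
  have key := W.proper_dim' hΓ hF (fun C hC hs => by
    rw [dom_dim_of_finite hC (hfin.subset hs)]
    omega) hC
  rw [dom_dim_of_finite hC.1.1 (hfin.subset hC.1.2)] at key
  omega

theorem Weil.exists_sub_dense (W : Weil.{u, v, w} k K) {X Y : Var k} (φ : Mor Y X)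
    (h : Function.Surjective φ.1) : ∃ Z, IsSub Z ∧ dim Z = X.d ∧ Dense (φ.1 '' Z) := by
  obtain ⟨Z, ⟨U, hU, hne, hUZ⟩, hmin⟩ :=
    (wellFounded_lt (α := TopologicalSpace.Closeds Y.pts)).has_min
      {Z : TopologicalSpace.Closeds Y.pts | ∃ U, IsOpen U ∧ U.Nonempty ∧ U ⊆ φ.1 '' (Z : Set Y.pts)}
      ⟨⊤, univ, isOpen_univ, univ_nonempty, fun x _ => by
        obtain ⟨y, hy⟩ := h x
        exact ⟨y, trivial, hy⟩⟩
  have hZ : IsClosed (Z : Set Y.pts) := Z.isClosed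
  obtain ⟨C, hC, hCZ, hCd, hCdim⟩ := W.exists_sub_dominant φ hZ X.isSub_univ hU
    (by rwa [univ_inter]) fun s hs => hUZ hs.2
  obtain ⟨D₀, hD₀, hCD⟩ := exists_isComp hC hCZ
  set B : Set (Set Y.pts) :=
    {D | IsComp D (Z : Set Y.pts) ∧ ¬ (X.d ≤ dim D ∧ Dense (φ.1 '' D))} with hB
  have hBf : B.Finite := (finite_isComp hZ).subset fun D hD => hD.1
  have good₀ : X.d ≤ dim D₀ ∧ Dense (φ.1 '' D₀) :=
    ⟨le_trans hCdim (dim_mono hCD),
      (dense_iff_closure_eq.2 hCd).mono (image_mono hCD)⟩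
  obtain ⟨y, hy, hyB⟩ : ∃ y ∈ D₀, y ∉ ⋃ D ∈ B, D := by
    by_contra hcon
    push Not at hcon
    obtain ⟨D, hD, hsub⟩ := hD₀.1.1.subset_of_finite hBf (F := fun D => D)
      (fun D hD => hD.1.1.1.2) hcon
    have : D = D₀ := (hD₀.2 hD.1.1 hsub).antisymm hsub
    exact hD.2 (this ▸ good₀)
  choose c hc using fun i => exists_hyp_avoid (k := k) (n := Y.n) i (finite_singleton y.1)
  have hHy : IsClosed (⋃ i, (Subtype.val ⁻¹' hyp i (c i) : Set Y.pts)) :=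
    isClosed_iUnion_of_finite fun i => (isClosed_hyp i (c i)).preimage continuous_subtype_val
  have hZ' : IsClosed (((Z : Set Y.pts) ∩ ⋃ i, (Subtype.val ⁻¹' hyp i (c i) : Set Y.pts)) ∪
      ⋃ D ∈ B, D) :=
    (hZ.inter hHy).union (hBf.isClosed_biUnion fun D hD => hD.1.1.1.2)
  have hlt : (⟨_, hZ'⟩ : TopologicalSpace.Closeds Y.pts) < Z := by
    refine lt_of_le_of_ne ?_ fun e => ?_
    · rintro z (hz | hz)
      · exact hz.1
      · obtain ⟨D, hD, hzD⟩ := mem_iUnion₂.1 hz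
        exact hD.1.1.2 hzD
    · have hyZ : y ∈ (Z : Set Y.pts) := hD₀.1.2 hy
      rw [← e] at hyZ
      rcases hyZ with hz | hz
      · obtain ⟨i, hi⟩ := mem_iUnion.1 hz.2
        exact hc i y.1 rfl hi
      · exact hyB hz
  obtain ⟨x, hxU, hx⟩ : ∃ x ∈ U, x ∉ φ.1 '' (((Z : Set Y.pts) ∩
      ⋃ i, (Subtype.val ⁻¹' hyp i (c i) : Set Y.pts)) ∪ ⋃ D ∈ B, D) := by
    by_contra hcon
    push Not at hcon
    exact hmin ⟨_, hZ'⟩ ⟨U, hU, hne, hcon⟩ hlt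
  obtain ⟨z, hz, rfl⟩ := hUZ hxU
  obtain ⟨D, hD, hzD⟩ := exists_isComp (isSub_singleton z) (singleton_subset_iff.2 hz)
  have hzD' : z ∈ D := hzD rfl
  have good : X.d ≤ dim D ∧ Dense (φ.1 '' D) := by
    by_contra hcon
    exact hx ⟨z, Or.inr (mem_iUnion₂.2 ⟨D, ⟨hD, hcon⟩, hzD'⟩), rfl⟩
  refine ⟨D, hD.1.1, W.dom_dim φ hD.1.1 good.1 hzD' ?_, good.2⟩
  have hcl : IsClosed (D ∩ φ.1 ⁻¹' {φ.1 z}) :=
    hD.1.1.2.inter (isClosed_singleton.preimage φ.continuous)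
  refine Finite.of_finite_image (f := Subtype.val) ?_ Subtype.val_injective.injOn
  refine finite_of_disjoint (Y.sub.2.isClosedEmbedding_subtypeVal.isClosedMap _ hcl) c ?_
  rintro _ ⟨a, ⟨ha, ha'⟩, rfl⟩ i hi
  exact hx ⟨a, Or.inl ⟨hD.1.2 ha, mem_iUnion.2 ⟨i, hi⟩⟩, ha'⟩

end Pool.Agent.MP_0c8446_ag
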