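import Mathlib

namespace Pool.Agent.MP_0c8446_ag

open scoped LinearAlgebra.Projectivization
open MvPolynomial Set

universe u v w

variable {K : Type*} [Field K] {V : Type*} [AddCommGroup V] [Module K V]

/-- The joint eigenspace of a group action for the character χ. -/
def Eig {G : Type*} [Group G] (T : G →* Module.End K V) (χ : G →* Kˣ) : Submodule K V where
  carrier := {a | ∀ g, T g a = (χ g : K) • a}
  zero_mem' := fun g => by simp
  add_mem' := fun ha hb g => by rw [map_add, ha g, hb g, smul_add]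
  smul_mem' := fun c a ha g => by rw [map_smul, ha g, smul_comm]

theorem linAlg2_mem {G : Type*} [CommGroup G] [Fintype G] (T : G →* Module.End K V)
    (χ : G →* Kˣ) (a : V) : (∑ g, (χ⁻¹ g : K) • T g) a ∈ Eig T χ := by
  intro h
  rw [LinearMap.sum_apply, map_sum, Finset.smul_sum, ← Equiv.sum_comp (Equiv.mulLeft h)
    (fun g => (χ h : K) • ((χ⁻¹ g : K) • T g) a)]
  refine Finset.sum_congr rfl fun g _ => ?_
  simp only [Equiv.coe_mulLeft, LinearMap.smul_apply, map_smul, map_mul, Module.End.mul_apply,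
    MonoidHom.inv_apply, smul_smul, Units.val_mul]
  rw [← mul_assoc, Units.mul_inv, one_mul]

theorem linAlg2_eq {G : Type*} [CommGroup G] [Fintype G] (T : G →* Module.End K V)
    (χ : G →* Kˣ) {a : V} (ha : a ∈ Eig T χ) :
    (∑ g, (χ⁻¹ g : K) • T g) a = (Fintype.card G : K) • a := by
  rw [LinearMap.sum_apply, Finset.sum_congr rfl (g := fun _ => a) fun g _ => by
    rw [LinearMap.smul_apply, ha g, smul_smul, MonoidHom.inv_apply, Units.inv_mul, one_smul]]
  rw [Finset.sum_const, Finset.card_univ, Nat.cast_smul_eq_nsmul]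

theorem iSup_eig [IsAlgClosed K] [CharZero K] {G : Type*} [CommGroup G] [Finite G]
    (T : G →* Module.End K V) : ⨆ χ, Eig T χ = ⊤ := by
  classical
  have := Fintype.ofFinite G
  have : NeZero (Monoid.exponent G : K) := ⟨by exact_mod_cast Monoid.exponent_ne_zero_of_finite⟩
  have : Finite (G →* Kˣ) :=
    Finite.of_equiv G (CommGroup.monoidHom_mulEquiv_of_hasEnoughRootsOfUnity G K).some.symm.toEquiv
  have := Fintype.ofFinite (G →* Kˣ)
  have horth : ∀ g : G, g ≠ 1 → ∑ χ : G →* Kˣ, (χ⁻¹ g : K) = 0 := by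
    intro g hg
    obtain ⟨χ₀, h0⟩ := CommGroup.exists_apply_ne_one_of_hasEnoughRootsOfUnity G K hg
    have h1 : ∑ χ : G →* Kˣ, (χ⁻¹ g : K) = (χ₀ g : K) * ∑ χ : G →* Kˣ, (χ⁻¹ g : K) := by
      rw [Finset.mul_sum, ← Equiv.sum_comp (Equiv.mulLeft χ₀)
        (fun χ : G →* Kˣ => (χ₀ g : K) * (χ⁻¹ g : K))]
      refine Finset.sum_congr rfl fun χ _ => ?_
      simp only [Equiv.coe_mulLeft, MonoidHom.inv_apply, MonoidHom.mul_apply, mul_inv,
        Units.val_mul]
      rw [← mul_assoc, Units.mul_inv, one_mul]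
    have h2 : (1 - (χ₀ g : K)) * ∑ χ : G →* Kˣ, (χ⁻¹ g : K) = 0 := by linear_combination h1
    refine (mul_eq_zero.1 h2).resolve_left fun h3 => h0 (Units.ext ?_)
    rw [Units.val_one]
    linear_combination -h3
  refine eq_top_iff.2 fun a _ => ?_
  have h1 : ∑ χ : G →* Kˣ, (∑ g, (χ⁻¹ g : K) • T g) a = (Fintype.card (G →* Kˣ) : K) • a := by
    simp only [LinearMap.sum_apply, LinearMap.smul_apply]
    rw [Finset.sum_comm, Finset.sum_eq_single 1]
    · simp [Nat.cast_smul_eq_nsmul]
    · intro g _ hg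
      rw [← Finset.sum_smul, horth g hg, zero_smul]
    · simp
  have h2 : (Fintype.card (G →* Kˣ) : K) ≠ 0 := by exact_mod_cast Fintype.card_ne_zero
  rw [← Submodule.smul_mem_iff _ h2, ← h1]
  exact Submodule.sum_mem _ fun χ _ => Submodule.mem_iSup_of_mem χ (linAlg2_mem T χ a)

theorem trace_eig [CharZero K] [FiniteDimensional K V] {G : Type*} [CommGroup G] [Fintype G]
    (T : G →* Module.End K V) (χ : G →* Kˣ) (Φ : Module.End K V)
    (hΦ : ∀ a ∈ Eig T χ, Φ a ∈ Eig T χ) :
    (Fintype.card G : K) * LinearMap.trace K _ (Φ.restrict hΦ) =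
      ∑ g, (χ⁻¹ g : K) * LinearMap.trace K V (Φ * T g) := by
  have h1 := LinearMap.trace_restrict_eq_of_forall_mem (Eig T χ) (Φ * ∑ g, (χ⁻¹ g : K) • T g)
    fun x => hΦ _ (linAlg2_mem T χ x)
  have h2 : (Φ * ∑ g, (χ⁻¹ g : K) • T g).restrict (p := Eig T χ) (q := Eig T χ)
      (fun x _ => hΦ _ (linAlg2_mem T χ x)) = (Fintype.card G : K) • Φ.restrict hΦ := by
    refine LinearMap.ext fun x => Subtype.ext ?_
    rw [LinearMap.coe_restrict_apply, Module.End.mul_apply, linAlg2_eq T χ x.2, map_smul]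
    rfl
  rw [h2, map_smul, smul_eq_mul] at h1
  rw [h1, Finset.mul_sum, map_sum]
  refine Finset.sum_congr rfl fun g _ => ?_
  rw [mul_smul_comm, map_smul, smul_eq_mul]

theorem mem_of_sum_mem {ι J : Type*} (A : Submodule K V) (T : J → Module.End K V)
    (hA : ∀ j, ∀ a ∈ A, T j a ∈ A) (c : ι → J → K) (hc : Function.Injective c) (s : Finset ι)
    (a : ι → V) (ha : ∀ i ∈ s, ∀ j, T j (a i) = c i j • a i) (h : ∑ i ∈ s, a i ∈ A) :
    ∀ i ∈ s, a i ∈ A := by
  classical
  induction s using Finset.induction_on generalizing a with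
  | empty => simp
  | insert i₀ s hi₀ ih =>
    have key : ∀ i ∈ s, a i ∈ A := by
      intro i hi
      obtain ⟨j, hj⟩ := Function.ne_iff.1 (hc.ne (ne_of_mem_of_not_mem hi hi₀))
      have h1 : ∑ i' ∈ s, (c i' j - c i₀ j) • a i' ∈ A := by
        have h2 := A.sub_mem (hA j _ h) (A.smul_mem (c i₀ j) h)
        rw [map_sum, Finset.smul_sum, ← Finset.sum_sub_distrib, Finset.sum_insert hi₀,
          ha i₀ (Finset.mem_insert_self _ _), sub_self, zero_add] at h2
        rwa [Finset.sum_congr rfl fun i' hi' => by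
          rw [sub_smul, ← ha i' (Finset.mem_insert_of_mem hi') j]]
      have h3 := ih (fun i' => (c i' j - c i₀ j) • a i') (fun i' hi' j' => by
        rw [map_smul, ha i' (Finset.mem_insert_of_mem hi') j', smul_comm]) h1 i hi
      exact (A.smul_mem_iff (sub_ne_zero.2 hj)).1 h3
    intro i hi
    rcases Finset.mem_insert.1 hi with rfl | hi
    · rw [Finset.sum_insert hi₀] at h
      exact (A.add_mem_iff_left (A.sum_mem key)).1 h
    · exact key i hi

theorem linAlg2_inj {T : Type*} {M N : Multiset T}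
    (h : (M.map FreeAbelianGroup.of).sum = (N.map FreeAbelianGroup.of).sum) : M = N := by
  classical
  have key : ∀ (t : T) (M : Multiset T), FreeAbelianGroup.lift (fun s => if t = s then (1 : ℤ) else 0)
      (M.map FreeAbelianGroup.of).sum = M.count t := by
    intro t M
    induction M using Multiset.induction_on with
    | empty => simp
    | cons s M ih =>
      rw [Multiset.map_cons, Multiset.sum_cons, map_add, ih, FreeAbelianGroup.lift_apply_of,
        Multiset.count_cons]
      split_ifs <;> push_cast <;> ring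
  ext t
  have := key t M
  rw [h, key t N] at this
  exact_mod_cast this.symm

theorem dual_of_rel {T : Type*} (du : T → T) (hdu : Function.Involutive du)
    (A : Multiset T → Prop) (h0 : A 0) (hadd : ∀ M N, A M → A N → A (M + N))
    (hcontr : ∀ M N, A (M + N) → A (N.map du) → A M) :
    ∃ B : AddSubgroup (FreeAbelianGroup T),
      (∀ M, A M → A (M.map du) → (M.map FreeAbelianGroup.of).sum ∈ B) ∧
      ∀ M (N : ℕ), 0 < N → A M → N • (M.map FreeAbelianGroup.of).sum ∈ B → A (M.map du) := by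
  have hdd : ∀ M : Multiset T, (M.map du).map du = M := fun M => by
    rw [Multiset.map_map, hdu.comp_self, Multiset.map_id]
  have hsm : ∀ (n : ℕ) M, A M → A (n • M) := fun n M hM => by
    induction n with
    | zero => rwa [zero_smul]
    | succ n ih =>
      rw [succ_nsmul]
      exact hadd _ _ ih hM
  refine ⟨⟨⟨⟨{x | ∃ M N, A M ∧ A (M.map du) ∧ A N ∧ A (N.map du) ∧
    x = (M.map FreeAbelianGroup.of).sum - (N.map FreeAbelianGroup.of).sum}, ?_⟩, ?_⟩, ?_⟩, ?_, ?_⟩
  · rintro _ _ ⟨M, N, h1, h2, h3, h4, rfl⟩ ⟨M', N', h1', h2', h3', h4', rfl⟩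
    refine ⟨M + M', N + N', hadd _ _ h1 h1', ?_, hadd _ _ h3 h3', ?_, ?_⟩
    · rw [Multiset.map_add]
      exact hadd _ _ h2 h2'
    · rw [Multiset.map_add]
      exact hadd _ _ h4 h4'
    · simp only [Multiset.map_add, Multiset.sum_add]
      abel
  · exact ⟨0, 0, h0, h0, h0, h0, by simp⟩
  · rintro _ ⟨M, N, h1, h2, h3, h4, rfl⟩
    exact ⟨N, M, h3, h4, h1, h2, neg_sub _ _⟩
  · intro M h1 h2
    exact ⟨M, 0, h1, h2, h0, h0, by simp⟩
  · rintro M n hn hM ⟨M₁, M₂, h1, h2, h3, h4, h5⟩
    have h6 : n • M + M₂ = M₁ := linAlg2_inj (by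
      rw [Multiset.map_add, Multiset.sum_add, Multiset.map_nsmul, Multiset.sum_nsmul, h5,
        sub_add_cancel])
    have h7 : A ((n • M).map du) := by
      refine hcontr _ (M₂.map du) ?_ ?_
      · rwa [← Multiset.map_add, h6]
      · rwa [hdd]
    obtain ⟨n, rfl⟩ := Nat.exists_eq_succ_of_ne_zero hn.ne'
    refine hcontr _ ((n • M).map du) ?_ ?_
    · rwa [← Multiset.map_add, add_comm, ← succ_nsmul]
    · rw [hdd]
      exact hsm n M hM

theorem exists_equiv_of_map_eq {T ι κ : Type*} [Fintype ι] [Fintype κ] (β : ι → T) (γ : κ → T)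
    (h : Finset.univ.val.map β = Finset.univ.val.map γ) : ∃ e : ι ≃ κ, ∀ i, γ (e i) = β i := by
  classical
  have key : ∀ t : T, Nonempty ({i // β i = t} ≃ {j // γ j = t}) := by
    intro t
    refine Fintype.card_eq.1 ?_
    have := congrArg (Multiset.count t) h
    rw [Multiset.count_map, Multiset.count_map] at this
    rw [Fintype.card_subtype, Fintype.card_subtype]
    simpa only [Finset.card, Finset.filter_val, eq_comm] using this
  exact ⟨Equiv.ofFiberEquiv fun t => (key t).some, fun i => Equiv.ofFiberEquiv_map _ i⟩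

end Pool.Agent.MP_0c8446_ag
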