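import Pool.Agent.MP_0c8446_ag.GDefs
import Pool.Agent.MP_0c8446_ag.Dom
import Pool.Agent.MP_0c8446_ag.LinAlg2

namespace Pool.Agent.MP_0c8446_ag

open Set

universe u v w

variable {k : Type u} [Field k] [IsAlgClosed k] {K : Type v} [Field K] [CharZero K]

variable (W : Weil.{u, v, w} k K) {q : ℕ} [IsQ k q]

omit [IsAlgClosed k] [CharZero K] in
lemma Weil.genB_proj {X : Var k} (φ : W.H X →ₗ[K] K) (i : ℕ)
    (h : ∀ l, l ≠ i → ∀ x ∈ W.gr X l, φ x = 0) (a : W.H X) :
    φ (DirectSum.decompose (W.gr X) a i) = φ a := by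
  induction a using DirectSum.Decomposition.inductionOn (W.gr X) with
  | zero => simp
  | add b c hb hc => simp only [DirectSum.decompose_add, DirectSum.add_apply, Submodule.coe_add,
      map_add, hb, hc]
  | @homogeneous l b =>
    by_cases hl : l = i
    · subst hl
      rw [DirectSum.decompose_of_mem_same _ b.2]
    · rw [DirectSum.decompose_of_mem_ne _ b.2 hl, map_zero, h l hl b b.2]

omit [IsAlgClosed k] [CharZero K] in
lemma Weil.genB_pull_dec {X Y : Var k} (f : Mor X Y) (a : W.H Y) (i : ℕ) :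
    W.pull f (DirectSum.decompose (W.gr Y) a i) =
      DirectSum.decompose (W.gr X) (W.pull f a) i := by
  induction a using DirectSum.Decomposition.inductionOn (W.gr Y) with
  | zero => simp
  | add b c hb hc => simp only [DirectSum.decompose_add, DirectSum.add_apply, Submodule.coe_add,
      map_add, hb, hc]
  | @homogeneous l b =>
    by_cases hl : l = i
    · subst hl
      rw [DirectSum.decompose_of_mem_same _ b.2,
        DirectSum.decompose_of_mem_same _ (W.pull_gr f _ _ b.2)]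
    · rw [DirectSum.decompose_of_mem_ne _ b.2 hl,
        DirectSum.decompose_of_mem_ne _ (W.pull_gr f _ _ b.2) hl, map_zero]

omit [CharZero K] in
lemma Weil.genB_swap {X : Var k} {z β : W.H X} (hz : z ∈ W.Alg X) {j : ℕ} (hβ : β ∈ W.gr X j)
    (ξ : W.H X) : W.tr X (z * (β * ξ)) = (-1) ^ j * W.tr X (z * (ξ * β)) := by
  induction hz using Submodule.span_induction with
  | zero => simp
  | add x y _ _ hx hy => simp only [add_mul, map_add, hx, hy, mul_add]
  | smul c x _ hx => simp only [smul_mul_assoc, map_smul, hx, smul_eq_mul, mul_left_comm]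
  | mem x hx =>
    obtain ⟨Z, hZ, rfl⟩ := hx
    induction ξ using DirectSum.Decomposition.inductionOn (W.gr X) with
    | zero => simp
    | add b c hb hc => simp only [add_mul, map_add, hb, hc, mul_add]
    | @homogeneous l ξ =>
      by_cases hl : j + l = 2 * dim Z
      · rw [W.comm X j l β hβ ξ ξ.2]
        rcases Nat.even_or_odd j with hj | hj
        · rw [hj.neg_one_pow, (hj.mul_right l).neg_one_pow, one_mul, one_mul]
        · have hl' : Odd l := by
            obtain ⟨t, ht⟩ := hj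
            exact ⟨dim Z - t - 1, by omega⟩
          rw [hj.neg_one_pow, (hj.mul hl').neg_one_pow]
          simp
      · rw [W.tr_cl_mul_gr hZ (SetLike.mul_mem_graded hβ ξ.2) hl,
          W.tr_cl_mul_gr hZ (SetLike.mul_mem_graded ξ.2 hβ) (by omega), mul_zero]

theorem Weil.exists_push {X Y : Var k} (f : Mor X Y) {a : W.H X} (ha : a ∈ W.Alg X) :
    ∃ a' ∈ W.Alg Y, ∀ b, W.tr X (a * W.pull f b) = W.tr Y (a' * b) := by
  induction ha using Submodule.span_induction with
  | zero => exact ⟨0, zero_mem _, fun b => by simp⟩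
  | add x y _ _ hx hy =>
    obtain ⟨x', hx', h1⟩ := hx
    obtain ⟨y', hy', h2⟩ := hy
    exact ⟨x' + y', add_mem hx' hy', fun b => by simp only [add_mul, map_add, h1, h2]⟩
  | smul c x _ hx =>
    obtain ⟨x', hx', h1⟩ := hx
    exact ⟨c • x', Submodule.smul_mem _ _ hx', fun b => by
      simp only [smul_mul_assoc, map_smul, h1]⟩
  | mem x hx =>
    obtain ⟨Z, hZ, rfl⟩ := hx
    obtain ⟨r, -, h1⟩ := W.push f Z hZ
    exact ⟨(r : K) • W.cl Y (closure (f.1 '' Z)),
      Submodule.smul_mem _ _ (W.cl_mem_Alg (hZ.image_closure f.continuous)), fun b => by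
        rw [h1, smul_mul_assoc, map_smul, smul_eq_mul]⟩

theorem Weil.pull_mem_Ann {X Y : Var k} (f : Mor Y X) {a : W.H X} (ha : a ∈ W.Ann q X) :
    W.pull f a ∈ W.Ann q Y := by
  intro ι _ τ P' p' r' _ z hz b
  obtain ⟨P, p, r, h⟩ := exists_prod X (Yv k q τ)
  obtain ⟨z', hz', h1⟩ := W.exists_push (h.lift (f.comp p') r') hz
  have h2 := h1 (W.pull p a * W.pull r b)
  rw [ha ι τ P p r h z' hz' b, map_mul (W.pull _), W.pull_pull, W.pull_pull,
    W.pull_congr (g := f.comp p') (fun x => by simp) a, W.pull_congr (g := r') (fun x => by simp) b,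
    ← W.pull_pull] at h2
  exact h2

theorem Weil.decompose_mem_Ann {X : Var k} {a : W.H X} (ha : a ∈ W.Ann q X) (i : ℕ) :
    (DirectSum.decompose (W.gr X) a i : W.H X) ∈ W.Ann q X := by
  intro ι _ τ P p r h z hz b
  by_contra hne
  obtain ⟨Z, hZ, h1⟩ := W.exists_cl_of_Alg hz hne
  refine h1 ?_
  clear h1 hne
  induction b using DirectSum.Decomposition.inductionOn (W.gr _) with
  | zero => simp
  | add b c hb hc => simp only [map_add, mul_add, hb, hc, add_zero]
  | @homogeneous j b =>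
    have h2 : ∀ l, l + j ≠ 2 * dim Z → ∀ x ∈ W.gr X l,
        W.tr P (W.cl P Z * (W.pull p x * W.pull r b)) = 0 := fun l hl x hx =>
      W.tr_cl_mul_gr hZ (SetLike.mul_mem_graded (W.pull_gr p _ _ hx) (W.pull_gr r _ _ b.2)) hl
    by_cases hi : i + j = 2 * dim Z
    · exact (W.genB_proj (W.tr P ∘ₗ LinearMap.mulLeft K (W.cl P Z) ∘ₗ
        LinearMap.mulRight K (W.pull r b) ∘ₗ (W.pull p).toLinearMap) i
        (fun l hl x hx => h2 l (by omega) x hx) a).trans (ha ι τ P p r h _ (W.cl_mem_Alg hZ) b)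
    · exact h2 i hi _ (DirectSum.decompose (W.gr X) a i).2

theorem Weil.gen_Yv {ι : Type} [Fintype ι] (τ : ι → Bool) : W.Gen q (Yv k q τ) := by
  intro a ha
  refine W.poincare _ a fun b => ?_
  have hr : ∀ x, (pL τ τ).1 ((pair (Mor.id (Yv k q τ)) (Mor.id _)).1 x) = x := fun _ => rfl
  have hs := (Mor.retr _ _ hr).isSub (Yv k q τ).isSub_univ
  rw [image_univ] at hs
  have h1 := W.tr_pull_retr _ _ hr (W.pull (pL τ τ) a * W.pull (pR τ τ) b)
  rw [ha ι τ _ _ _ (isProd_sum τ τ) _ (W.cl_mem_Alg hs) b, map_mul (W.pull _), W.pull_pull,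
    W.pull_pull, W.pull_id _ rfl, W.pull_id _ rfl] at h1
  exact h1

theorem Weil.gen_image {X Y : Var k} (φ : Mor Y X) (h : Function.Surjective φ.1) (hY : W.Gen q Y) :
    W.Gen q X := by
  intro a ha
  obtain ⟨Z, hZ, hd, hD⟩ := W.exists_sub_dense φ h
  exact W.pull_injective φ hZ hd hD ((hY _ (W.pull_mem_Ann φ ha)).trans (map_zero _).symm)

lemma Weil.genB_key {P X Y : Var k} {a : Mor P X} {b : Mor P Y} (h : IsProd a b) {J : Type}
    [Fintype J] (x : J → W.H X) (e : J → W.H Y)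
    (hc : ∑ i, W.pull a (x i) * W.pull b (e i) ∈ W.Ann q P)
    {ι : Type} [Fintype ι] {τ : ι → Bool} {P₁ : Var k} {p₁ : Mor P₁ X} {r₁ : Mor P₁ (Yv k q τ)}
    (h₁ : IsProd p₁ r₁) {z₁ : W.H P₁} (hz₁ : z₁ ∈ W.Alg P₁) {j : ℕ} {b₁ : W.H (Yv k q τ)}
    (hb₁ : b₁ ∈ W.gr _ j) :
    ∑ i, W.tr P₁ (z₁ * (W.pull r₁ b₁ * W.pull p₁ (x i))) • e i ∈ W.Ann q Y := by
  intro ι' _ τ' P₂ p₂ r₂ h₂ z₂ hz₂ b₂
  obtain ⟨Q, π, R, hQ⟩ := exists_prod P (Yv k q (Sum.elim τ τ'))
  set u := h₁.lift (a.comp π) ((pL τ τ').comp R) with hu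
  set v := h₂.lift (b.comp π) ((pR τ τ').comp R) with hv
  have huv : IsProd u v := by
    refine isProd_of (fun T f g => ⟨hQ.lift (h.lift (p₁.comp f) (p₂.comp g))
      (pair (r₁.comp f) (r₂.comp g)), fun y => h₁.ext ?_ ?_, fun y => h₂.ext ?_ ?_⟩)
      fun y y' e₁ e₂ => hQ.ext (h.ext ?_ ?_) (sum_ext ?_ ?_)
    · simp [hu]
    · simp [hu]
    · simp [hv]
    · simp [hv]
    · simpa [hu] using congrArg p₁.1 e₁
    · simpa [hv] using congrArg p₂.1 e₂
    · simpa [hu] using congrArg r₁.1 e₁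
    · simpa [hv] using congrArg r₂.1 e₂
  have e₁ : ∀ y, W.pull π (W.pull a y) = W.pull u (W.pull p₁ y) := fun y => by
    rw [W.pull_pull, W.pull_pull]
    exact W.pull_congr (fun _ => by simp [hu]) y
  have e₂ : ∀ y, W.pull π (W.pull b y) = W.pull v (W.pull p₂ y) := fun y => by
    rw [W.pull_pull, W.pull_pull]
    exact W.pull_congr (fun _ => by simp [hv]) y
  have e₃ : ∀ y, W.pull R (W.pull (pL τ τ') y) = W.pull u (W.pull r₁ y) := fun y => by
    rw [W.pull_pull, W.pull_pull]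
    exact W.pull_congr (fun _ => by simp [hu]) y
  have e₄ : ∀ y, W.pull R (W.pull (pR τ τ') y) = W.pull v (W.pull r₂ y) := fun y => by
    rw [W.pull_pull, W.pull_pull]
    exact W.pull_congr (fun _ => by simp [hv]) y
  have hz := W.mul_mem_Alg (W.pull_mem_Alg u hz₁) (W.pull_mem_Alg v hz₂)
  have h1 := hc _ _ Q π R hQ _ hz (W.pull (pR τ τ') b₂ * W.pull (pL τ τ') b₁)
  rw [map_mul (W.pull R), ← mul_assoc (W.pull π _), e₃, e₄] at h1
  have h2 := W.genB_swap hz (W.pull_gr u _ _ (W.pull_gr r₁ _ _ hb₁))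
    (W.pull π (∑ i, W.pull a (x i) * W.pull b (e i)) * W.pull v (W.pull r₂ b₂))
  rw [h1, mul_zero] at h2
  rw [← h2]
  simp only [map_sum, map_smul, Finset.sum_mul, Finset.mul_sum, smul_mul_assoc, mul_smul_comm,
    smul_eq_mul]
  refine Finset.sum_congr rfl fun i _ => ?_
  rw [← W.tr_prod huv]
  congr 1
  simp only [map_mul, e₁, e₂, mul_assoc]
  congr 1
  rw [← mul_assoc, ← mul_assoc, ← W.Alg_comm (W.pull_mem_Alg v hz₂)]
  simp only [mul_assoc]

theorem Weil.gen_prod {P X Y : Var k} {a : Mor P X} {b : Mor P Y} (h : IsProd a b)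
    (hX : W.Gen q X) (hY : W.Gen q Y) : W.Gen q P := by
  intro c hc
  let e := Module.finBasis K (W.H Y)
  let L : (Fin (Module.finrank K (W.H Y)) → W.H X) →ₗ[K] W.H P :=
    ∑ i, LinearMap.mulRight K (W.pull b (e i)) ∘ₗ (W.pull a).toLinearMap ∘ₗ LinearMap.proj i
  have hL : ∀ x, L x = ∑ i, W.pull a (x i) * W.pull b (e i) := fun x => by
    simp [L]
  have h1 := W.prod_span h (LinearMap.range L) fun x y => ⟨fun i => e.repr y i • x, by
    conv_rhs => rw [← e.sum_repr y]
    simp only [hL, map_sum, map_smul, Finset.mul_sum, smul_mul_assoc, mul_smul_comm]⟩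
  obtain ⟨x, rfl⟩ : c ∈ LinearMap.range L := h1 ▸ Submodule.mem_top
  rw [hL] at hc ⊢
  refine Finset.sum_eq_zero fun i _ => ?_
  rw [hX (x i) ?_, map_zero, zero_mul]
  intro ι _ τ P₁ p₁ r₁ h₁ z₁ hz₁ b₁
  induction b₁ using DirectSum.Decomposition.inductionOn (W.gr _) with
  | zero => simp
  | add b c hb hc => simp only [map_add, mul_add, hb, hc, add_zero]
  | @homogeneous j b₁ =>
    have h2 := Fintype.linearIndependent_iff.1 e.linearIndependent _
      (hY _ (W.genB_key h x e hc h₁ hz₁ b₁.2)) i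
    rw [W.genB_swap hz₁ (W.pull_gr r₁ _ _ b₁.2)] at h2
    exact (mul_eq_zero.1 h2).resolve_left (pow_ne_zero _ (neg_ne_zero.2 one_ne_zero))

theorem Weil.eq_zero_of_gen {X : Var k} (hX : W.Gen q X)
    (hD : ∀ (ι : Type) [Fintype ι] (τ : ι → Bool), ∀ a ∈ W.Alg (Yv k q τ),
      (∀ z ∈ W.Alg _, W.tr _ (a * z) = 0) → a = 0)
    {a : W.H X} (ha : a ∈ W.Alg X) (h : ∀ z ∈ W.Alg X, W.tr X (a * z) = 0) : a = 0 := by
  refine hX a fun ι _ τ P p r _ z hz b => ?_
  obtain ⟨a', ha', h1⟩ := W.exists_push r (W.mul_mem_Alg hz (W.pull_mem_Alg p ha))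
  rw [← mul_assoc, h1, hD ι τ a' ha' fun z' hz' => ?_, zero_mul, map_zero]
  obtain ⟨a'', ha'', h2⟩ := W.exists_push p (W.mul_mem_Alg hz (W.pull_mem_Alg r hz'))
  rw [← h1, mul_assoc, ← W.Alg_comm (W.pull_mem_Alg r hz'), ← mul_assoc, h2, W.Alg_comm ha'',
    h a'' ha'']

theorem Weil.gen_of_eig [IsAlgClosed K] {X : Var k} {G : Type*} [CommGroup G] [Finite G]
    (g : G → Mor X X) (h1 : ∀ x, (g 1).1 x = x) (hm : ∀ s t x, (g (s * t)).1 x = (g s).1 ((g t).1 x))
    (h : ∀ (χ : G →* Kˣ) (i j : ℕ), ∀ a ∈ W.gr X i, ∀ a' ∈ W.gr X j,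
      (∀ s, W.pull (g s) a = (χ s : K) • a) → (∀ s, W.pull (g s) a' = (χ⁻¹ s : K) • a') →
      W.tr X (a * a') ≠ 0 → a ∉ W.Ann q X) : W.Gen q X := by
  classical
  let T : G →* Module.End K (W.H X) :=
    { toFun := fun s => (W.pull (g s)).toLinearMap
      map_one' := LinearMap.ext fun a => W.pull_id _ (funext h1) a
      map_mul' := fun s t => LinearMap.ext fun a =>
        W.pull_comp (g s) (g t) _ (funext fun x => by rw [mul_comm]; exact hm t s x) a }
  have hdec : ∀ (χ : G →* Kˣ), ∀ a ∈ Eig T χ, ∀ i s,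
      W.pull (g s) (DirectSum.decompose (W.gr X) a i) =
        (χ s : K) • (DirectSum.decompose (W.gr X) a i : W.H X) := by
    intro χ a ha i s
    have h2 : W.pull (g s) a = (χ s : K) • a := ha s
    rw [W.genB_pull_dec, h2, DirectSum.decompose_smul]
    rfl
  have key : ∀ (χ : G →* Kˣ), ∀ a ∈ Eig T χ, a ∈ W.Ann q X → a = 0 := by
    intro χ a ha ha'
    rw [← DirectSum.sum_support_decompose (W.gr X) a]
    refine Finset.sum_eq_zero fun i _ => W.poincare X _ fun b => ?_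
    have hb : b ∈ ⨆ ψ, Eig T ψ := iSup_eig T ▸ Submodule.mem_top
    induction hb using Submodule.iSup_induction' with
    | zero => simp
    | add b c _ _ hb hc => rw [mul_add, map_add, hb, hc, add_zero]
    | mem ψ b hb =>
      rw [← DirectSum.sum_support_decompose (W.gr X) b, Finset.mul_sum, map_sum]
      refine Finset.sum_eq_zero fun j _ => ?_
      by_contra hne
      refine h χ i j _ (DirectSum.decompose (W.gr X) a i).2 _ (DirectSum.decompose (W.gr X) b j).2
        (hdec χ a ha i) (fun s => ?_) hne (W.decompose_mem_Ann ha' i)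
      have h2 := W.tr_pull_aut (g s) (g s⁻¹) (fun x => by rw [← hm, inv_mul_cancel, h1])
        (fun x => by rw [← hm, mul_inv_cancel, h1])
        ((DirectSum.decompose (W.gr X) a i : W.H X) * DirectSum.decompose (W.gr X) b j)
      rw [map_mul (W.pull _), hdec χ a ha, hdec ψ b hb, smul_mul_smul_comm, map_smul,
        smul_eq_mul] at h2
      have h3 : (χ s : K) * ψ s = 1 := mul_right_cancel₀ hne (h2.trans (one_mul _).symm)
      rw [hdec ψ b hb, MonoidHom.inv_apply, Units.val_inv_eq_inv_val, eq_inv_of_mul_eq_one_right h3]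
  intro a ha
  obtain ⟨f, hf, rfl⟩ := (Submodule.mem_iSup_iff_exists_finsupp _ a).1
    (iSup_eig T ▸ Submodule.mem_top : a ∈ ⨆ ψ, Eig T ψ)
  refine Finset.sum_eq_zero fun χ hχ => key χ _ (hf χ) ?_
  exact mem_of_sum_mem (W.Ann q X) (fun s => T s) (fun s a ha => W.pull_mem_Ann (g s) ha)
    (fun (χ : G →* Kˣ) s => (χ s : K))
    (fun χ ψ e => MonoidHom.ext fun s => Units.ext (congrFun e s)) f.support f
    (fun χ _ s => hf χ s) ha χ hχ

end Pool.Agent.MP_0c8446_ag
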