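import Mathlib

namespace Pool.Agent.MP_0c8446_ag

open scoped LinearAlgebra.Projectivization TensorProduct
open MvPolynomial

universe u v w

/-- The product of projective spaces `∏ i, P^(n i)` over `k` (its `k`-points). -/
def MP (k : Type u) [Field k] {ι : Type} (n : ι → ℕ) : Type u :=
  ∀ i, ℙ k (Fin (n i + 1) → k)

/-- The homogeneous coordinates of `MP k n`. -/
abbrev Vars {ι : Type} (n : ι → ℕ) : Type := Σ i, Fin (n i + 1)

variable {k : Type u} [Field k] {ι κ : Type} {n : ι → ℕ} {m : κ → ℕ}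

/-- `v` is a vector of homogeneous coordinates of the point `x`. -/
def IsRep (v : Vars n → k) (x : MP k n) : Prop :=
  ∀ i, ∃ h : (fun s => v ⟨i, s⟩) ≠ 0, Projectivization.mk k (fun s => v ⟨i, s⟩) h = x i

/-- The polynomial `f` vanishes at all coordinate vectors of `x`. -/
def Vanish (f : MvPolynomial (Vars n) k) (x : MP k n) : Prop :=
  ∀ v, IsRep v x → eval v f = 0

/-- The Zariski topology. -/
instance zariski : TopologicalSpace (MP k n) :=
  TopologicalSpace.generateFrom {U | ∃ f, U = {x | ¬ Vanish f x}}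

/-- A subvariety: an irreducible closed subset. -/
def IsSub {X : Type u} [TopologicalSpace X] (Z : Set X) : Prop := IsIrreducible Z ∧ IsClosed Z

/-- Krull dimension: the largest length of a chain of irreducible closed subsets inside `Z`. -/
noncomputable def dim {X : Type u} [TopologicalSpace X] (Z : Set X) : ℕ :=
  sSup {r | ∃ C : Fin (r + 1) → Set X, StrictMono C ∧ ∀ i, IsSub (C i) ∧ C i ⊆ Z}

/-- `C` is an irreducible component of `S`. -/
def IsComp {X : Type u} [TopologicalSpace X] (C S : Set X) : Prop :=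
  Maximal (fun D => IsSub D ∧ D ⊆ S) C

/-- The Zariski tangent space at `v` of the multicone over `S`. -/
noncomputable def tangent [Fintype ι] (S : Set (MP k n)) (v : Vars n → k) :
    Submodule k (Vars n → k) :=
  ⨅ f ∈ {f | ∀ x ∈ S, Vanish f x},
    LinearMap.ker (Fintype.linearCombination k fun s => eval v (pderiv s f))

/-- Morphisms: maps that are locally given by polynomials in the homogeneous coordinates. -/
def IsMor {S : Set (MP k n)} {T : Set (MP k m)} (φ : S → T) : Prop :=
  ∀ x : S, ∃ U : Set S, IsOpen U ∧ x ∈ U ∧ ∃ F : Vars m → MvPolynomial (Vars n) k,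
    ∀ y ∈ U, ∀ v, IsRep v y.1 → IsRep (fun s => eval v (F s)) (φ y).1

/-- Smooth projective (irreducible) varieties over `k`. -/
structure Var (k : Type u) [Field k] where
  ι : Type
  [fin : Fintype ι]
  n : ι → ℕ
  pts : Set (MP k n)
  sub : IsSub pts
  smooth : ∀ x ∈ pts, ∀ v, IsRep v x →
    Module.finrank k (tangent pts v) ≤ dim (Set.univ : Set pts) + Fintype.card ι

attribute [instance] Var.fin

/-- The dimension of a variety. -/
noncomputable def Var.d (X : Var k) : ℕ := dim (Set.univ : Set X.pts)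

/-- Morphisms of varieties. -/
def Mor (X Y : Var k) : Type u := {φ : X.pts → Y.pts // IsMor φ}

/-- `P` with the projections `p`, `q` is the product `X × Y`. -/
def IsProd {P X Y : Var k} (p : Mor P X) (q : Mor P Y) : Prop :=
  ∀ (T : Var k) (f : Mor T X) (g : Mor T Y), ∃! h : Mor T P, p.1 ∘ h.1 = f.1 ∧ q.1 ∘ h.1 = g.1

/-- `Z` and `Z'` are transversal at `x`: their tangent spaces at `x` meet only in `0`. -/
def Transv {X : Var k} (Z Z' : Set X.pts) (x : X.pts) : Prop :=
  ∀ v, IsRep v x.1 →
    tangent (Subtype.val '' Z) v ⊓ tangent (Subtype.val '' Z') v ≤ tangent {x.1} v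

/-- The data of a cohomology theory on smooth projective varieties over `k` with coefficients in
`K`: graded algebras, pull-backs, trace maps and classes of subvarieties. -/
structure Coh (k : Type u) [Field k] (K : Type v) [Field K] where
  H : Var k → Type w
  [ring : ∀ X, Ring (H X)]
  [alg : ∀ X, Algebra K (H X)]
  gr : ∀ X, ℕ → Submodule K (H X)
  [graded : ∀ X, GradedAlgebra (gr X)]
  pull : ∀ {X Y}, Mor X Y → H Y →ₐ[K] H X
  tr : ∀ X, H X →ₗ[K] K
  cl : ∀ X : Var k, Set X.pts → H X

attribute [instance] Coh.ring Coh.alg Coh.graded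

namespace Coh

variable {K : Type v} [Field K] (W : Coh.{u, v, w} k K)

/-- The cup product is graded commutative. -/
def Comm : Prop :=
  ∀ X i j, ∀ a ∈ W.gr X i, ∀ b ∈ W.gr X j, a * b = (-1) ^ (i * j) * (b * a)

/-- Pull-backs preserve degrees. -/
def PullGr : Prop := ∀ {X Y} (f : Mor X Y) i, ∀ a ∈ W.gr Y i, W.pull f a ∈ W.gr X i

/-- Functoriality for identities. -/
def PullId : Prop := ∀ {X} (f : Mor X X), f.1 = id → ∀ a, W.pull f a = a

/-- Functoriality for compositions. -/
def PullComp : Prop :=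
  ∀ {X Y Z} (f : Mor X Y) (g : Mor Y Z) (h : Mor X Z), h.1 = g.1 ∘ f.1 →
    ∀ a, W.pull h a = W.pull f (W.pull g a)

/-- The trace is concentrated in degree `2 dim X`. -/
def TrGr : Prop := ∀ X i, ∀ a ∈ W.gr X i, i ≠ 2 * X.d → W.tr X a = 0

/-- Poincaré duality. -/
def Poincare : Prop := ∀ X a, (∀ b, W.tr X (a * b) = 0) → a = 0

/-- The Künneth formula. -/
def Kunneth : Prop :=
  ∀ {P X Y} (p : Mor P X) (q : Mor P Y), IsProd p q → Function.Bijective (TensorProduct.lift
    ((LinearMap.mul K (W.H P)).compl₁₂ (W.pull p).toLinearMap (W.pull q).toLinearMap))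

/-- A subvariety of codimension `j` has its class in degree `2 j`. -/
def ClGr : Prop := ∀ X Z, IsSub Z → W.cl X Z ∈ W.gr X (2 * (X.d - dim Z))

/-- The class of `Z × Z'` is the exterior product of the classes. -/
def ClProd : Prop :=
  ∀ {P X Y} (p : Mor P X) (q : Mor P Y), IsProd p q → ∀ Z Z', IsSub Z → IsSub Z' →
    W.cl P (p.1 ⁻¹' Z ∩ q.1 ⁻¹' Z') = W.pull p (W.cl X Z) * W.pull q (W.cl Y Z')

/-- The push-forward of the class of `Z` is `r` times the class of `f(Z)`, where `r > 0` if the
dimensions agree. -/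
def Push : Prop :=
  ∀ {X Y} (f : Mor X Y) Z, IsSub Z → ∃ r : ℕ, (dim (closure (f.1 '' Z)) = dim Z → 0 < r) ∧
    ∀ b, W.tr X (W.cl X Z * W.pull f b) = r * W.tr Y (W.cl Y (closure (f.1 '' Z)) * b)

/-- Pull-backs of algebraic classes are algebraic. -/
def PullCl : Prop :=
  ∀ {X Y} (f : Mor X Y) Z, IsSub Z →
    W.pull f (W.cl Y Z) ∈ AddSubgroup.closure (W.cl X '' {C | IsSub C})

/-- Products of algebraic classes are algebraic. -/
def MulCl : Prop :=
  ∀ X Z Z', IsSub Z → IsSub Z' →
    W.cl X Z * W.cl X Z' ∈ AddSubgroup.closure (W.cl X '' {C | IsSub C})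

/-- For a proper intersection the product of the classes is the sum of the classes of the
components with positive multiplicities, equal to `1` at transversal points. -/
def Proper : Prop :=
  ∀ X Z Z', IsSub Z → IsSub Z' → (∀ C, IsSub C → C ⊆ Z ∩ Z' → dim C + X.d ≤ dim Z + dim Z') →
    ∃ (s : Finset (Set X.pts)) (μ : Set X.pts → ℕ), (∀ C, C ∈ s ↔ IsComp C (Z ∩ Z')) ∧
      (∀ C ∈ s, 0 < μ C) ∧ (∀ x, {x} ∈ s → Transv Z Z' x → μ {x} = 1) ∧
      W.cl X Z * W.cl X Z' = ∑ C ∈ s, μ C • W.cl X C

end Coh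

/-- A Weil cohomology theory on smooth projective varieties over `k` with coefficients in `K`. -/
structure Weil (k : Type u) [Field k] (K : Type v) [Field K] extends Coh.{u, v, w} k K where
  finite : ∀ X, Module.Finite K (H X)
  comm : toCoh.Comm
  zero : ∀ X, gr X 0 = K ∙ 1
  pull_gr : toCoh.PullGr
  pull_id : toCoh.PullId
  pull_comp : toCoh.PullComp
  tr_gr : toCoh.TrGr
  poincare : toCoh.Poincare
  kunneth : toCoh.Kunneth
  cl_gr : toCoh.ClGr
  cl_univ : ∀ X, cl X Set.univ = 1
  tr_pt : ∀ X x, tr X (cl X {x}) = 1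
  cl_prod : toCoh.ClProd
  push : toCoh.Push
  pull_cl : toCoh.PullCl
  mul_cl : toCoh.MulCl
  proper : toCoh.Proper

/-- Rational algebraic cycles of codimension `j`. -/
def IsCycle {X : Var k} (j : ℕ) (α : Set X.pts →₀ ℚ) : Prop :=
  ∀ Z ∈ α.support, IsSub Z ∧ dim Z + j = X.d

/-- The cohomology class of a cycle. -/
noncomputable def Weil.cycleClass {K : Type v} [Field K] (W : Weil.{u, v, w} k K) {X : Var k}
    (α : Set X.pts →₀ ℚ) : W.H X :=
  α.sum fun Z c => (c : K) • W.cl X Z

end Pool.Agent.MP_0c8446_ag
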