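import Pool.Agent.MP_0c8446_ag.Defs

namespace Pool.Agent.MP_0c8446_ag

universe u v w

/-- The Fermat hypersurface `∑ x_s ^ m = 0` in `P^(n+2)`, of dimension `n + 1`. -/
def fermat (k : Type u) [Field k] (m n : ℕ) : Set (MP k fun _ : Unit => n + 2) :=
  {x | ∑ s, (x ()).rep s ^ m = 0}

/-- The plane curve `y^q - y z^(q-1) = x^(q-1) z`. -/
def artinSchreier (k : Type u) [Field k] (q : ℕ) : Set (MP k fun _ : Unit => 2) :=
  {x | (x ()).rep 1 ^ q - (x ()).rep 1 * (x ()).rep 2 ^ (q - 1) =
    (x ()).rep 0 ^ (q - 1) * (x ()).rep 2}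

/-- The smallest class of smooth projective varieties that contains the images of a
Fermat hypersurface of degree prime to `p` or of a curve `y^q - y = x^(q-1)`, `q = p^f`, and is
closed under products and surjective images. -/
inductive FermatType (k : Type u) [Field k] (p : ℕ) : Var k → Prop
  | ofFermat {X : Var k} (m n : ℕ) (φ : fermat k m n → X.pts) :
      (m : k) ≠ 0 → IsMor φ → Function.Surjective φ → FermatType k p X
  | ofCurve {X : Var k} (f : ℕ) (φ : artinSchreier k (p ^ f) → X.pts) :
      0 < f → IsMor φ → Function.Surjective φ → FermatType k p X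
  | prod {P X Y : Var k} (a : Mor P X) (b : Mor P Y) :
      IsProd a b → FermatType k p X → FermatType k p Y → FermatType k p P
  | image {X Y : Var k} (φ : Mor Y X) : Function.Surjective φ.1 → FermatType k p Y → FermatType k p X

/-- `X` is motivated by varieties of Fermat type: no nonzero cohomology class of `X` is killed by
all algebraic correspondences from `X` to varieties of Fermat type. -/
def Weil.Motivated {k : Type u} [Field k] {K : Type v} [Field K] (W : Weil.{u, v, w} k K) (p : ℕ)
    (X : Var k) : Prop :=
  ∀ a : W.H X, a ≠ 0 → ∃ (Y T : Var k) (f : Mor T X) (g : Mor T Y) (Z : Set T.pts) (b : W.H Y),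
    FermatType k p Y ∧ IsSub Z ∧ W.tr T (W.cl T Z * (W.pull f a * W.pull g b)) ≠ 0

end Pool.Agent.MP_0c8446_ag
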