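import Pool.Agent.MP_0c8446_ag.Top

namespace Pool.Agent.MP_0c8446_ag

open scoped LinearAlgebra.Projectivization
open MvPolynomial Set TopologicalSpace Topology

universe u

section general
variable {X Y : Type u} [TopologicalSpace X] [TopologicalSpace Y]

/-- Chains of subvarieties have bounded length. -/
class FinDim (X : Type u) [TopologicalSpace X] : Prop where
  bdd : ∃ N, ∀ r (C : Fin (r + 1) → Set X), StrictMono C → (∀ i, IsSub (C i)) → r ≤ N

def HasChain (Z : Set X) (r : ℕ) : Prop :=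
  ∃ C : Fin (r + 1) → Set X, StrictMono C ∧ ∀ i, IsSub (C i) ∧ C i ⊆ Z

lemma bdd_chain [FinDim X] (Z : Set X) : BddAbove {r | HasChain Z r} := by
  obtain ⟨N, hN⟩ := FinDim.bdd (X := X)
  exact ⟨N, fun r ⟨C, h1, h2⟩ => hN r C h1 fun i => (h2 i).1⟩

lemma HasChain.le_dim [FinDim X] {Z : Set X} {r : ℕ} (h : HasChain Z r) : r ≤ dim Z :=
  le_csSup (bdd_chain Z) h

lemma IsSub.hasChain_zero {Z C : Set X} (h : IsSub C) (hC : C ⊆ Z) : HasChain Z 0 :=
  ⟨fun _ => C, fun a b hab => absurd hab (by omega), fun _ => ⟨h, hC⟩⟩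

lemma hasChain_dim [FinDim X] {Z : Set X} {r : ℕ} (h : HasChain Z r) : HasChain Z (dim Z) :=
  Nat.sSup_mem (s := {r | HasChain Z r}) ⟨r, h⟩ (bdd_chain Z)

lemma IsSub.hasChain [FinDim X] {Z : Set X} (h : IsSub Z) : HasChain Z (dim Z) :=
  hasChain_dim (h.hasChain_zero subset_rfl)

lemma dim_le_of {Z : Set X} {N : ℕ} (h : ∀ r, HasChain Z r → r ≤ N) : dim Z ≤ N :=
  csSup_le' (s := {r | HasChain Z r}) fun r hr => h r hr

lemma HasChain.mono {Z Z' : Set X} {r : ℕ} (h : HasChain Z r) (hZ : Z ⊆ Z') : HasChain Z' r := by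
  obtain ⟨C, h1, h2⟩ := h
  exact ⟨C, h1, fun i => ⟨(h2 i).1, (h2 i).2.trans hZ⟩⟩

lemma dim_mono [FinDim X] {Z Z' : Set X} (hZ : Z ⊆ Z') : dim Z ≤ dim Z' :=
  dim_le_of fun _ h => (h.mono hZ).le_dim

lemma HasChain.succ {Z Z' : Set X} {r : ℕ} (h : HasChain Z r) (hZ : Z ⊂ Z') (h' : IsSub Z') :
    HasChain Z' (r + 1) := by
  obtain ⟨C, h1, h2⟩ := h
  refine ⟨Fin.snoc C Z', ?_, fun i => ?_⟩
  · rw [Fin.strictMono_iff_lt_succ]
    intro i
    refine Fin.lastCases ?_ (fun j => ?_) i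
    · simp only [Fin.succ_last, Fin.snoc_last, Fin.snoc_castSucc]
      exact lt_of_le_of_lt (h2 _).2 hZ
    · rw [Fin.snoc_castSucc, ← Fin.castSucc_succ, Fin.snoc_castSucc]
      exact h1 Fin.castSucc_lt_succ
  · refine Fin.lastCases ?_ (fun j => ?_) i
    · simp only [Fin.snoc_last]
      exact ⟨h', subset_rfl⟩
    · simp only [Fin.snoc_castSucc]
      exact ⟨(h2 j).1, (h2 j).2.trans hZ.1⟩

lemma dim_lt [FinDim X] {Z Z' : Set X} (h : IsSub Z) (h' : IsSub Z') (hZ : Z ⊂ Z') :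
    dim Z < dim Z' :=
  (h.hasChain.succ hZ h').le_dim

lemma eq_of_dim_le [FinDim X] {Z Z' : Set X} (h : IsSub Z) (h' : IsSub Z') (hZ : Z ⊆ Z')
    (hd : dim Z' ≤ dim Z) : Z = Z' := by
  by_contra hne
  exact absurd (dim_lt h h' (hZ.ssubset_of_ne hne)) (not_lt.2 hd)

lemma isSub_singleton [T1Space X] (x : X) : IsSub ({x} : Set X) :=
  ⟨isIrreducible_singleton, isClosed_singleton⟩

lemma dim_singleton (x : X) : dim ({x} : Set X) = 0 := by
  refine Nat.le_zero.1 (dim_le_of fun r ⟨C, h1, h2⟩ => ?_)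
  by_contra hr
  have e : ∀ i, C i = {x} := fun i => (h2 i).1.1.1.subset_singleton_iff.1 (h2 i).2
  have : (0 : Fin (r + 1)) < Fin.last r := by
    rw [Fin.lt_def]; simp; omega
  have h3 := h1 this
  rw [e, e] at h3
  exact lt_irrefl _ h3

lemma IsSub.eq_singleton [FinDim X] [T1Space X] {Z : Set X} (h : IsSub Z) (h0 : dim Z = 0) {x : X}
    (hx : x ∈ Z) : Z = {x} :=
  (eq_of_dim_le (isSub_singleton x) h (singleton_subset_iff.2 hx) (by omega)).symm

lemma IsSub.eq_singleton_of_finite [T1Space X] {Z : Set X} (h : IsSub Z) {U : Set X}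
    (hU : IsOpen U) (hf : (Z ∩ U).Finite) {x : X} (hx : x ∈ Z) (hxU : x ∈ U) : Z = {x} := by
  have h1 : IsClosed ((Z ∩ U) \ {x}) := (hf.subset sdiff_subset).isClosed
  have h2 : Z ⊆ {x} ∪ (Uᶜ ∪ (Z ∩ U) \ {x}) := by
    intro y hy
    by_cases h3 : y = x
    · exact Or.inl h3
    · by_cases h4 : y ∈ U
      · exact Or.inr (Or.inr ⟨⟨hy, h4⟩, h3⟩)
      · exact Or.inr (Or.inl h4)
  rcases (isPreirreducible_iff_isClosed_union_isClosed.1 h.1.2) _ _ isClosed_singleton
    (hU.isClosed_compl.union h1) h2 with h3 | h3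
  · exact h3.antisymm (singleton_subset_iff.2 hx)
  · rcases h3 hx with h4 | h4
    · exact absurd hxU h4
    · exact absurd rfl h4.2

lemma IsSub.image_closure {Z : Set X} (h : IsSub Z) {f : X → Y} (hf : Continuous f) :
    IsSub (closure (f '' Z)) :=
  ⟨(h.1.image f hf.continuousOn).closure, isClosed_closure⟩

/-- A continuous map with a continuous left inverse and closed range. -/
structure Retr (f : X → Y) (g : Y → X) : Prop where
  cf : Continuous f
  cg : Continuous g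
  inv : Function.LeftInverse g f
  closed : IsClosed (range f)

lemma Retr.image_eq {f : X → Y} {g : Y → X} (h : Retr f g) (Z : Set X) :
    f '' Z = range f ∩ g ⁻¹' Z := by
  ext y
  constructor
  · rintro ⟨x, hx, rfl⟩
    exact ⟨⟨x, rfl⟩, by simpa [h.inv x] using hx⟩
  · rintro ⟨⟨x, rfl⟩, hx⟩
    exact ⟨x, by simpa [h.inv x] using hx, rfl⟩

lemma Retr.isClosed_image {f : X → Y} {g : Y → X} (h : Retr f g) {Z : Set X} (hZ : IsClosed Z) :
    IsClosed (f '' Z) := by
  rw [h.image_eq]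
  exact h.closed.inter (hZ.preimage h.cg)

lemma Retr.isSub {f : X → Y} {g : Y → X} (h : Retr f g) {Z : Set X} (hZ : IsSub Z) :
    IsSub (f '' Z) :=
  ⟨hZ.1.image f h.cf.continuousOn, h.isClosed_image hZ.2⟩

lemma Retr.dim_image {f : X → Y} {g : Y → X} (h : Retr f g) (Z : Set X) :
    dim (f '' Z) = dim Z := by
  unfold dim
  congr 1
  ext r
  constructor
  · rintro ⟨C, h1, h2⟩
    have e : ∀ i, f '' (f ⁻¹' C i) = C i := fun i =>
      image_preimage_eq_of_subset ((h2 i).2.trans (image_subset_range _ _))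
    have e' : ∀ i, f ⁻¹' C i = g '' C i := fun i => by
      conv_rhs => rw [← e i, image_image]
      simp [h.inv _]
    refine ⟨fun i => f ⁻¹' C i, fun i j hij => ?_, fun i => ⟨⟨?_, (h2 i).1.2.preimage h.cf⟩, ?_⟩⟩
    · refine lt_of_le_of_ne (preimage_mono (h1 hij).le) fun e2 => (h1 hij).ne ?_
      rw [← e i, ← e j]
      exact congrArg _ e2
    · show IsIrreducible (f ⁻¹' C i)
      rw [e']
      exact (h2 i).1.1.image g h.cg.continuousOn
    · intro x hx
      obtain ⟨y, hy, e3⟩ := (h2 i).2 hx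
      rwa [← h.inv.injective e3]
  · rintro ⟨C, h1, h2⟩
    refine ⟨fun i => f '' C i, fun i j hij => ?_, fun i => ⟨h.isSub (h2 i).1, image_mono (h2 i).2⟩⟩
    exact lt_of_le_of_ne (image_mono (h1 hij).le) fun e =>
      (h1 hij).ne (h.inv.injective.image_injective e)

lemma isIrreducible_image2 {A B : Type*} [TopologicalSpace A] [TopologicalSpace B]
    {g : A → B → X} (h1 : ∀ a, Continuous (g a)) (h2 : ∀ b, Continuous fun a => g a b)
    {Z : Set A} {Z' : Set B} (hZ : IsIrreducible Z) (hZ' : IsIrreducible Z') :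
    IsIrreducible (image2 g Z Z') := by
  refine ⟨hZ.1.image2 hZ'.1, isPreirreducible_iff_isClosed_union_isClosed.2 fun F G hF hG h => ?_⟩
  have key : Z' ⊆ (⋂ a ∈ Z, g a ⁻¹' F) ∪ (⋂ a ∈ Z, g a ⁻¹' G) := by
    intro b hb
    have := isPreirreducible_iff_isClosed_union_isClosed.1 hZ.2 _ _ (hF.preimage (h2 b))
      (hG.preimage (h2 b)) fun a ha => h (mem_image2_of_mem ha hb)
    exact this.imp (fun h => mem_iInter₂.2 fun a ha => h ha) fun h => mem_iInter₂.2 fun a ha => h ha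
  have := isPreirreducible_iff_isClosed_union_isClosed.1 hZ'.2 _ _
    (isClosed_biInter fun a _ => hF.preimage (h1 a))
    (isClosed_biInter fun a _ => hG.preimage (h1 a)) key
  refine this.imp (fun h => ?_) fun h => ?_ <;>
  · rintro _ ⟨a, ha, b, hb, rfl⟩
    exact mem_iInter₂.1 (h hb) a ha

lemma IsSub.subset_of_finite {Z : Set X} (h : IsSub Z) {α : Type*} {s : Set α} (hs : s.Finite)
    {F : α → Set X} (hF : ∀ a ∈ s, IsClosed (F a)) (hZ : Z ⊆ ⋃ a ∈ s, F a) :
    ∃ a ∈ s, Z ⊆ F a := by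
  induction s, hs using Set.Finite.induction_on with
  | empty => simp [h.1.1.ne_empty] at hZ
  | @insert a s _ hs ih =>
    rw [biUnion_insert] at hZ
    rcases isPreirreducible_iff_isClosed_union_isClosed.1 h.1.2 _ _ (hF a (mem_insert _ _))
      (hs.isClosed_biUnion fun b hb => hF b (mem_insert_of_mem _ hb)) hZ with h1 | h1
    · exact ⟨a, mem_insert _ _, h1⟩
    · obtain ⟨b, hb, h2⟩ := ih (fun b hb => hF b (mem_insert_of_mem _ hb)) h1
      exact ⟨b, mem_insert_of_mem _ hb, h2⟩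

lemma exists_isComp [FinDim X] {D S : Set X} (hD : IsSub D) (hS : D ⊆ S) :
    ∃ C, IsComp C S ∧ D ⊆ C := by
  obtain ⟨N, hN⟩ : ∃ N, ∀ C : Set X, dim C ≤ N := ⟨dim (univ : Set X), fun C => dim_mono (subset_univ C)⟩
  induction h : N - dim D using Nat.strong_induction_on generalizing D with
  | _ r ih =>
    by_cases hm : IsComp D S
    · exact ⟨D, hm, subset_rfl⟩
    · obtain ⟨E, hE, hDE⟩ : ∃ E, (IsSub E ∧ E ⊆ S) ∧ D ⊂ E := by
        by_contra hne
        push Not at hne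
        exact hm ⟨⟨hD, hS⟩, fun E hE hDE => by
          by_contra h3
          exact hne E hE ⟨hDE, h3⟩⟩
      have h1 := dim_lt hD hE.1 hDE
      have h2 := hN E
      obtain ⟨C, hC, hEC⟩ := ih (N - dim E) (by omega) hE.1 hE.2 rfl
      exact ⟨C, hC, hDE.1.trans hEC⟩

lemma finite_isComp [NoetherianSpace X] {S : Set X} (hS : IsClosed S) :
    {C | IsComp C S}.Finite := by
  obtain ⟨T, hT, h1, h2, h3⟩ := NoetherianSpace.exists_finite_set_isClosed_irreducible hS
  refine hT.subset fun C hC => ?_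
  obtain ⟨D, hD, hCD⟩ := hC.1.1.subset_of_finite hT (F := id) h1
    (by simpa [← sUnion_eq_biUnion, ← h3] using hC.1.2)
  have : D ⊆ C := hC.2 ⟨⟨h2 D hD, h1 D hD⟩, h3 ▸ subset_sUnion_of_mem hD⟩ hCD
  rwa [show C = D from hCD.antisymm this]

end general

variable {k : Type u} [Field k] [Infinite k] {ι : Type} [Fintype ι] {n : ι → ℕ}

lemma chain_primes {S : Set (MP k n)} {r : ℕ} (C : Fin (r + 1) → Set S) (h1 : StrictMono C)
    (h2 : ∀ i, IsSub (C i)) : ∃ P : Fin (r + 1) → PrimeSpectrum (MvPolynomial (Vars n) k),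
      StrictAnti P ∧ ∀ i, (P i).asIdeal = vI (Subtype.val '' C i) := by
  refine ⟨fun i => ⟨vI (Subtype.val '' C i),
    vI_isPrime ((h2 i).1.image _ continuous_subtype_val.continuousOn)⟩, fun i j hij => ?_,
    fun _ => rfl⟩
  refine lt_of_le_of_ne (vI_anti (image_mono (h1 hij).le)) fun e => (h1 hij).not_ge fun x hx => ?_
  have e' : vI (Subtype.val '' C j) = vI (Subtype.val '' C i) := congrArg PrimeSpectrum.asIdeal e
  have : x.1 ∈ closure (Subtype.val '' C i) := by
    rw [mem_closure_vI, ← e']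
    exact fun f hf => hf _ ⟨x, hx, rfl⟩
  rw [← (h2 i).2.closure_eq]
  exact closure_subtype.2 this

omit [Infinite k] in
lemma strictAnti_le {σ : Type} [Fintype σ] {r : ℕ}
    (P : Fin (r + 1) → PrimeSpectrum (MvPolynomial σ k)) (h : StrictAnti P) :
    r ≤ Fintype.card σ := by
  have h1 := Order.LTSeries.length_le_krullDim
    (LTSeries.mk r (fun i => P i.rev) fun i j hij => h (Fin.rev_lt_rev.2 hij))
  have h2 : ringKrullDim (MvPolynomial σ k) = Fintype.card σ := by
    rw [MvPolynomial.ringKrullDim_of_isNoetherianRing, ringKrullDim_eq_zero_of_field]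
    simp
  rw [show Order.krullDim (PrimeSpectrum (MvPolynomial σ k)) = _ from h2] at h1
  exact_mod_cast h1

instance (S : Set (MP k n)) : FinDim S :=
  ⟨⟨Fintype.card (Vars n), fun _ C h1 h2 => by
    obtain ⟨P, hP, -⟩ := chain_primes C h1 h2
    exact strictAnti_le P hP⟩⟩

end Pool.Agent.MP_0c8446_ag
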