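import Pool.Agent.MP_0c8446_ag.FermatVar
import Pool.Agent.MP_0c8446_ag.GChar

namespace Pool.Agent.MP_0c8446_ag

open Set

universe u v w

variable {k : Type u} [Field k] [IsAlgClosed k] {K : Type v} [Field K] [CharZero K]

variable {q : ℕ} [IsQ k q]

lemma predQ_ne (k : Type u) [Field k] (q : ℕ) [IsQ k q] : ((q - 1 : ℕ) : k) ≠ 0 := by
  rw [IsQ.cast_pred]; simp

/-- The Fermat hypersurface of degree `q - 1`. -/
noncomputable abbrev Fq1 (k : Type u) [Field k] [IsAlgClosed k] (q : ℕ) [IsQ k q] (n : ℕ) : Var k :=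
  Fv k (q - 1) n (predQ_ne k q)

/-- The coordinates of a point of the Fermat hypersurface. -/
noncomputable def fx {n : ℕ} (x : (Fq1 k q n).pts) : Fin (n + 3) → k := (x.1 ()).rep

theorem fx_sum {n : ℕ} (x : (Fq1 k q n).pts) : ∑ s, fx x s ^ (q - 1) = 0 := x.2

theorem fx_ne {n : ℕ} (x : (Fq1 k q n).pts) : fx x ≠ 0 := (x.1 ()).rep_nonzero

theorem fx_ext {n : ℕ} {x y : (Fq1 k q n).pts} (c : k) (h : ∀ s, fx y s = c * fx x s) : y = x := by
  refine Subtype.ext (funext fun u => ?_)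
  cases u
  refine (y.1 ()).mk_rep.symm.trans (Eq.trans ?_ (x.1 ()).mk_rep)
  rw [Projectivization.mk_eq_mk_iff']
  exact ⟨c, funext fun s => (h s).symm⟩

theorem exists_fx {n : ℕ} (v : Fin (n + 3) → k) (hv : v ≠ 0) (h : ∑ s, v s ^ (q - 1) = 0) :
    ∃ (x : (Fq1 k q n).pts) (c : k), c ≠ 0 ∧ ∀ s, fx x s = c * v s := by
  obtain ⟨c, hc⟩ := Projectivization.exists_smul_eq_mk_rep k v hv
  have e : ∀ s, (Projectivization.mk k v hv).rep s = c * v s := fun s => (congrFun hc s).symm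
  refine ⟨⟨fun _ => Projectivization.mk k v hv, ?_⟩, c, c.ne_zero, e⟩
  show ∑ s, (Projectivization.mk k v hv).rep s ^ (q - 1) = 0
  simp only [e, mul_pow, ← Finset.mul_sum, h, mul_zero]

omit [IsAlgClosed k] in
lemma FAct_unit_ne (a : (Fq k q)ˣ) : ((a : Fq k q) : k) ≠ 0 := by simp

lemma FAct_exists {n : ℕ} (t : Fin (n + 3) → (Fq k q)ˣ) (x : (Fq1 k q n).pts) :
    ∃ (y : (Fq1 k q n).pts) (c : k), c ≠ 0 ∧
      ∀ s, fx y s = c * (((t s : Fq k q) : k) * fx x s) := by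
  refine exists_fx _ (fun h => fx_ne x (funext fun s => ?_)) ?_
  · exact (mul_eq_zero.1 (congrFun h s)).resolve_left (FAct_unit_ne _)
  · simp only [mul_pow, Fq_unit_pow, one_mul]
    exact fx_sum x

lemma FAct_isMor {n : ℕ} (t : Fin (n + 3) → (Fq k q)ˣ) (φ : (Fq1 k q n).pts → (Fq1 k q n).pts)
    (h : ∀ x, ∃ c : k, c ≠ 0 ∧ ∀ s, fx (φ x) s = c * (((t s : Fq k q) : k) * fx x s)) :
    IsMor φ := by
  refine isMor_of_global
    (fun a => MvPolynomial.C ((t a.2 : Fq k q) : k) * MvPolynomial.X a) fun y v hv => ?_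
  obtain ⟨c, hc, e⟩ := h y
  obtain ⟨d, hd, rfl⟩ := (isRep_rep y.1).exists_smul hv
  have h1 := (isRep_rep (φ y).1).smul (fun _ => d () / c) fun _ => div_ne_zero (hd ()) hc
  convert h1 using 2 with a
  obtain ⟨⟨⟩, s⟩ := a
  have e1 : MP.rep (φ y).1 ⟨(), s⟩ = c * (((t s : Fq k q) : k) * MP.rep y.1 ⟨(), s⟩) := e s
  simp only [map_mul, MvPolynomial.eval_C, MvPolynomial.eval_X, e1]
  field_simp

theorem exists_fact (n : ℕ) : ∃ g : (Fin (n + 3) → (Fq k q)ˣ) → Mor (Fq1 k q n) (Fq1 k q n),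
    (∀ x, (g 1).1 x = x) ∧ (∀ s t x, (g (s * t)).1 x = (g s).1 ((g t).1 x)) ∧
    ∀ t x, ∃ c : k, c ≠ 0 ∧ ∀ s, fx ((g t).1 x) s = c * (((t s : Fq k q) : k) * fx x s) := by
  choose φ hφ using fun (t : Fin (n + 3) → (Fq k q)ˣ) (x : (Fq1 k q n).pts) => FAct_exists t x
  refine ⟨fun t => ⟨φ t, FAct_isMor t (φ t) (hφ t)⟩, fun x => ?_, fun s t x => ?_, hφ⟩
  · obtain ⟨c, -, e⟩ := hφ 1 x
    exact fx_ext c fun s => by simpa using e s
  · obtain ⟨c, -, e⟩ := hφ (s * t) x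
    obtain ⟨c₁, h₁, e₁⟩ := hφ s (φ t x)
    obtain ⟨c₂, h₂, e₂⟩ := hφ t x
    refine fx_ext (x := φ s (φ t x)) (y := φ (s * t) x) (c / (c₁ * c₂)) fun i => ?_
    rw [e, e₁, e₂]
    simp only [Pi.mul_apply, Units.val_mul, Subfield.coe_mul]
    field_simp

end Pool.Agent.MP_0c8446_ag
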