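import Pool.Agent.MP_0c8446_ag.FAct
import Pool.Agent.MP_0c8446_ag.CompGen
import Pool.Agent.MP_0c8446_ag.GenBasic

namespace Pool.Agent.MP_0c8446_ag

open Set

universe u v w

section poly

open Polynomial

/-- The coefficients of a polynomial, completed to a vector with sum zero. -/
noncomputable def FGen1_cv {R : Type*} [CommRing R] (n : ℕ) (f : R[X]) (s : Fin (n + 3)) : R :=
  if (s : ℕ) < n + 2 then f.coeff s else -∑ i ∈ Finset.range (n + 2), f.coeff i

lemma FGen1_cv_map {R S : Type*} [CommRing R] [CommRing S] (φ : R →+* S) (n : ℕ) (f : R[X])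
    (s : Fin (n + 3)) : φ (FGen1_cv n f s) = FGen1_cv n (f.map φ) s := by
  unfold FGen1_cv
  split_ifs <;> simp [coeff_map]

lemma FGen1_cv_mul {R : Type*} [CommRing R] (n : ℕ) (c : R) (f : R[X]) (s : Fin (n + 3)) :
    FGen1_cv n (C c * f) s = c * FGen1_cv n f s := by
  unfold FGen1_cv
  split_ifs <;> simp [Finset.mul_sum]

lemma FGen1_cv_ne {R : Type*} [CommRing R] {n : ℕ} {f : R[X]} (hf : f ≠ 0)
    (hd : f.natDegree ≤ n + 1) : FGen1_cv n f ≠ 0 := by
  intro h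
  have h1 := congrFun h ⟨f.natDegree, by omega⟩
  rw [FGen1_cv, if_pos (by show f.natDegree < n + 2; omega)] at h1
  exact hf (leadingCoeff_eq_zero.1 h1)

lemma FGen1_cv_surj {R : Type*} [CommRing R] {n : ℕ} (u : Fin (n + 3) → R) (hu : u ≠ 0)
    (h : ∑ s, u s = 0) : ∃ f : R[X], f ≠ 0 ∧ f.natDegree ≤ n + 1 ∧ FGen1_cv n f = u := by
  classical
  have key : FGen1_cv n (ofFn (n + 2) fun i => u i.castSucc) = u := by
    funext s
    unfold FGen1_cv
    split_ifs with hs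
    · rw [ofFn_coeff_eq_val_of_lt _ hs]
      rfl
    · have e : s = Fin.last (n + 2) := Fin.ext (by have := s.2; simp; omega)
      rw [Fin.sum_univ_castSucc] at h
      rw [e, Finset.sum_range, eq_neg_of_add_eq_zero_right h]
      congr 1
      exact Finset.sum_congr rfl fun i _ => ofFn_coeff_eq_val_of_lt _ i.2
  refine ⟨_, fun e => hu ?_, Nat.lt_succ_iff.1 (ofFn_natDegree_lt (by omega) _), key⟩
  rw [← key, e]
  funext s
  simp [FGen1_cv]

variable {k : Type u} [Field k] [IsAlgClosed k] {q : ℕ} [IsQ k q]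

lemma FGen1_dh (x : k) : ∃ y : k, y ^ q - y = x := by
  have hq := IsQ.one_lt (k := k) (q := q)
  have hd : (X ^ q - (X + C x) : k[X]).degree = q := by
    rw [degree_sub_eq_left_of_degree_lt] <;> rw [degree_X_pow]
    rw [degree_X_add_C]
    exact_mod_cast hq
  obtain ⟨y, hy⟩ := IsAlgClosed.exists_root (X ^ q - (X + C x) : k[X]) (by
    rw [hd]; exact_mod_cast (by omega : q ≠ 0))
  refine ⟨y, ?_⟩
  simp only [IsRoot.def, eval_sub, eval_pow, eval_X, eval_add, eval_C] at hy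
  linear_combination hy

/-- The linear form attached to a point of the plane. -/
noncomputable def FGen1_lin (P : P2 k) : k[X] := C (P.rep 0) * X + C (P.rep 2)

lemma FGen1_pt (a b : k) (h : a ≠ 0 ∨ b ≠ 0) : ∃ P ∈ curve k q false, ∃ c : k, c ≠ 0 ∧
    C a * X + C b = C c * FGen1_lin P := by
  by_cases hb : b = 0
  · have ha : a ≠ 0 := h.resolve_right (not_not.2 hb)
    obtain ⟨c, hc, e0, -, e2⟩ := rep_pt3 (x := (1 : k)) (y := 0) (z := 0) (by simp)
    refine ⟨_, inf_mem_dh, a / c, div_ne_zero ha hc, ?_⟩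
    rw [FGen1_lin, e0, e2, mul_add, ← mul_assoc, ← C_mul, ← C_mul, hb]
    congr 3
    · field_simp
    · simp
  · obtain ⟨y, hy⟩ := FGen1_dh (q := q) ((a / b) ^ (q - 1))
    obtain ⟨c, hc, e0, -, e2⟩ := rep_pt3 (aff_ne_zero (a / b) y)
    refine ⟨_, aff_mem_dh.2 hy, b / c, div_ne_zero hb hc, ?_⟩
    rw [FGen1_lin, e0, e2, mul_add, ← mul_assoc, ← C_mul, ← C_mul]
    congr 3 <;> field_simp

omit [IsAlgClosed k] in
lemma FGen1_lin_ne {P : P2 k} (hP : P ∈ curve k q false) : FGen1_lin P ≠ 0 := by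
  intro h
  have h0 : P.rep 0 = 0 := by simpa [FGen1_lin] using congrArg (coeff · 1) h
  have h2 : P.rep 2 = 0 := by simpa [FGen1_lin] using congrArg (coeff · 0) h
  have e := eq_inf_of_dh hP (not_not.2 h2)
  obtain ⟨c, hc, e0, -, -⟩ := rep_pt3 (x := (1 : k)) (y := 0) (z := 0) (by simp)
  rw [← e, h0, mul_one] at e0
  exact hc e0.symm

omit [IsAlgClosed k] in
lemma FGen1_deg {m : ℕ} (P : Fin m → P2 k) : (∏ j, FGen1_lin (P j)).natDegree ≤ m := by
  refine (natDegree_prod_le _ _).trans ?_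
  refine (Finset.sum_le_card_nsmul _ _ 1 fun j _ => natDegree_linear_le).trans ?_
  simp

lemma FGen1_factor (m : ℕ) (f : k[X]) (hf : f ≠ 0) (hd : f.natDegree ≤ m) :
    ∃ (c : k) (P : Fin m → P2 k), c ≠ 0 ∧ (∀ j, P j ∈ curve k q false) ∧
      f = C c * ∏ j, FGen1_lin (P j) := by
  induction m generalizing f with
  | zero =>
    have e := eq_C_of_natDegree_le_zero hd
    refine ⟨f.coeff 0, Fin.elim0, fun h => hf (by rw [e, h, C_0]), fun j => j.elim0, ?_⟩
    simpa using e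
  | succ m ih =>
    obtain ⟨a, b, g, hab, hg, hgd, e⟩ : ∃ (a b : k) (g : k[X]), (a ≠ 0 ∨ b ≠ 0) ∧ g ≠ 0 ∧
        g.natDegree ≤ m ∧ f = (C a * X + C b) * g := by
      by_cases h : f.natDegree ≤ m
      · exact ⟨0, 1, f, Or.inr one_ne_zero, hf, h, by simp⟩
      · obtain ⟨r, hr⟩ := IsAlgClosed.exists_root f (by
          rw [degree_eq_natDegree hf]; exact_mod_cast (by omega : f.natDegree ≠ 0))
        obtain ⟨g, hg⟩ := dvd_iff_isRoot.2 hr
        have hg0 : g ≠ 0 := fun h0 => hf (by rw [hg, h0, mul_zero])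
        refine ⟨1, -r, g, Or.inl one_ne_zero, hg0, ?_, by rw [hg]; simp [sub_eq_add_neg]⟩
        rw [hg, natDegree_mul (X_sub_C_ne_zero r) hg0, natDegree_X_sub_C] at hd
        omega
    obtain ⟨c, P, hc, hP, e1⟩ := ih g hg hgd
    obtain ⟨Q, hQ, c', hc', e2⟩ := FGen1_pt (q := q) a b hab
    refine ⟨c' * c, Fin.cons Q P, mul_ne_zero hc' hc, fun j => ?_, ?_⟩
    · refine Fin.cases ?_ (fun j => ?_) j
      · exact hQ
      · exact hP j
    · rw [e, e2, e1, Fin.prod_univ_succ, C_mul]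
      simp only [Fin.cons_zero, Fin.cons_succ]
      ring

end poly

variable {k : Type u} [Field k] [IsAlgClosed k] {K : Type v} [Field K] [CharZero K]

/-- A point of projective space. -/
noncomputable def FGen1_mk {n : ℕ} (u : Fin (n + 3) → k) (hu : u ≠ 0) :
    (amb k fun _ : Unit => n + 2).pts := ⟨fun _ => Projectivization.mk k u hu, trivial⟩

lemma FGen1_mk_eq {n : ℕ} {u u' : Fin (n + 3) → k} {hu : u ≠ 0} {hu' : u' ≠ 0} :
    FGen1_mk u hu = FGen1_mk u' hu' ↔ ∃ c : k, ∀ s, u s = c * u' s := by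
  constructor
  · intro h
    obtain ⟨c, hc⟩ := (Projectivization.mk_eq_mk_iff' k _ _ hu hu').1
      (congrFun (congrArg Subtype.val h) ())
    exact ⟨c, fun s => (congrFun hc s).symm⟩
  · rintro ⟨c, hc⟩
    exact Subtype.ext (funext fun _ => (Projectivization.mk_eq_mk_iff' k _ _ hu hu').2
      ⟨c, funext fun s => (hc s).symm⟩)

lemma FGen1_isRep {n : ℕ} {u : Fin (n + 3) → k} (hu : u ≠ 0) {c : k} (hc : c ≠ 0)
    {w : Vars (fun _ : Unit => n + 2) → k} (h : ∀ s, w ⟨(), s⟩ = c * u s) :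
    IsRep w (FGen1_mk u hu).1 := by
  have h1 : IsRep (fun a : Vars (fun _ : Unit => n + 2) => u a.2) (FGen1_mk u hu).1 :=
    fun _ => ⟨hu, rfl⟩
  have h2 : w = fun a => c * u a.2 := funext fun a => h a.2
  rw [h2]
  exact h1.smul (fun _ => c) fun _ => hc

variable {q : ℕ} [IsQ k q] {n : ℕ}

lemma FGen1_pow_ne (x : (Fq1 k q n).pts) : (fun s => fx x s ^ (q - 1)) ≠ 0 := fun h =>
  fx_ne x (funext fun s => pow_eq_zero_iff (IsQ.pos k q).ne' |>.1 (congrFun h s))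

omit [IsAlgClosed k] in
lemma FGen1_eval_pow {σ : Type} (v : σ → k) (a : σ) (m : ℕ) :
    MvPolynomial.eval v (MvPolynomial.X a ^ m) = v a ^ m := by
  rw [map_pow, MvPolynomial.eval_X]

omit [IsAlgClosed k] in
lemma FGen1_eval_cv {σ : Type} {m : ℕ} (v : σ → k) (A B : Fin m → σ) (d : Fin m → k)
    (P : Fin m → P2 k) (hA : ∀ j, v (A j) = d j * (P j).rep 0)
    (hB : ∀ j, v (B j) = d j * (P j).rep 2) (n : ℕ) (s : Fin (n + 3)) :
    MvPolynomial.eval v (FGen1_cv n (∏ j, (Polynomial.C (MvPolynomial.X (A j)) * Polynomial.X +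
      Polynomial.C (MvPolynomial.X (B j)))) s) =
      (∏ j, d j) * FGen1_cv n (∏ j, FGen1_lin (P j)) s := by
  rw [FGen1_cv_map, ← FGen1_cv_mul, Polynomial.map_prod, map_prod, ← Finset.prod_mul_distrib]
  congr 1
  refine Finset.prod_congr rfl fun j _ => ?_
  simp only [Polynomial.map_add, Polynomial.map_mul, Polynomial.map_C, Polynomial.map_X,
    MvPolynomial.eval_X, FGen1_lin, mul_add, ← mul_assoc, ← Polynomial.C_mul, hA, hB]

/-- The quotient map of the Fermat hypersurface. -/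
noncomputable def FGen1_pi (k : Type u) [Field k] [IsAlgClosed k] (q : ℕ) [IsQ k q] (n : ℕ) :
    Mor (Fq1 k q n) (amb k fun _ : Unit => n + 2) :=
  ⟨fun x => FGen1_mk _ (FGen1_pow_ne x), isMor_of_global
    (fun a => MvPolynomial.X a ^ (q - 1)) fun y v hv => by
      obtain ⟨d, hd, rfl⟩ := (isRep_rep y.1).exists_smul hv
      refine FGen1_isRep _ (pow_ne_zero (q - 1) (hd ())) fun s => ?_
      exact (FGen1_eval_pow _ _ _).trans (mul_pow _ _ _)⟩

lemma FGen1_cv_ne' (μ : (Yv k q fun _ : Fin (n + 1) => false).pts) :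
    FGen1_cv n (∏ j, FGen1_lin (co μ j)) ≠ 0 :=
  FGen1_cv_ne (Finset.prod_ne_zero_iff.2 fun j _ => FGen1_lin_ne (co_mem μ j)) (FGen1_deg _)

/-- The map from the product of curves to the hyperplane. -/
noncomputable def FGen1_rho (k : Type u) [Field k] [IsAlgClosed k] (q : ℕ) [IsQ k q] (n : ℕ) :
    Mor (Yv k q fun _ : Fin (n + 1) => false) (amb k fun _ : Unit => n + 2) :=
  ⟨fun μ => FGen1_mk _ (FGen1_cv_ne' μ), isMor_of_global
    (fun a => FGen1_cv n (∏ j : Fin (n + 1),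
      (Polynomial.C (MvPolynomial.X ⟨j, (0 : Fin 3)⟩) * Polynomial.X +
        Polynomial.C (MvPolynomial.X ⟨j, (2 : Fin 3)⟩))) a.2) fun y v hv => by
      obtain ⟨d, hd, rfl⟩ := (isRep_rep y.1).exists_smul hv
      refine FGen1_isRep _ (c := ∏ j : Fin (n + 1), d j)
        (Finset.prod_ne_zero_iff.2 fun j _ => hd j) fun s => ?_
      exact FGen1_eval_cv _ _ _ d (co y) (fun _ => rfl) (fun _ => rfl) n s⟩

lemma FGen1_surj (x : (Fq1 k q n).pts) : ∃ μ, (FGen1_pi k q n).1 x = (FGen1_rho k q n).1 μ := by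
  obtain ⟨f, hf, hd, e⟩ := FGen1_cv_surj _ (FGen1_pow_ne x) (fx_sum x)
  obtain ⟨c, P, -, hP, e1⟩ := FGen1_factor (q := q) (n + 1) f hf hd
  refine ⟨mkY P hP, FGen1_mk_eq.2 ⟨c, fun s => ?_⟩⟩
  rw [← congrFun e s, e1, FGen1_cv_mul]
  rfl

lemma FGen1_fib {x y : (Fq1 k q n).pts} (h : (FGen1_pi k q n).1 y = (FGen1_pi k q n).1 x) :
    ∃ (δ : k) (t : Fin (n + 3) → (Fq k q)ˣ), ∀ s,
      fx y s = δ * (((t s : Fq k q) : k) * fx x s) := by
  obtain ⟨c, hc⟩ := FGen1_mk_eq.1 h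
  have hq := IsQ.pos k q
  obtain ⟨δ, hδ⟩ := IsAlgClosed.exists_pow_nat_eq c hq
  have key : ∀ s, ∃ t : (Fq k q)ˣ, fx y s = δ * (((t : Fq k q) : k) * fx x s) := by
    intro s
    have e : fx y s ^ (q - 1) = (δ * fx x s) ^ (q - 1) := by rw [mul_pow, hδ]; exact hc s
    by_cases h0 : δ * fx x s = 0
    · rw [h0, zero_pow hq.ne', pow_eq_zero_iff hq.ne'] at e
      exact ⟨1, by rw [e, mul_left_comm, h0, mul_zero]⟩
    · refine ⟨toFqUnit (fx y s / (δ * fx x s)) (by rw [div_pow, e, div_self (pow_ne_zero _ h0)]), ?_⟩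
      rw [toFqUnit_val, mul_left_comm, div_mul_cancel₀ _ h0]
  choose t ht using key
  exact ⟨δ, t, ht⟩

theorem Weil.fgen_one (W : Weil.{u, v, w} k K) {q : ℕ} [IsQ k q] {n : ℕ}
    (g : (Fin (n + 3) → (Fq k q)ˣ) → Mor (Fq1 k q n) (Fq1 k q n))
    (hg : ∀ t x, ∃ c : k, c ≠ 0 ∧ ∀ s, fx ((g t).1 x) s = c * (((t s : Fq k q) : k) * fx x s))
    {i j : ℕ} {a a' : W.H (Fq1 k q n)} (ha : a ∈ W.gr _ i) (ha' : a' ∈ W.gr _ j)
    (h' : ∀ t, W.pull (g t) a' = a') (h : W.tr _ (a * a') ≠ 0) : a ∉ W.Ann q _ := by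
  intro hA
  obtain ⟨P, p, r, hP⟩ := exists_prod (Fq1 k q n) (Yv k q fun _ : Fin (n + 1) => false)
  obtain ⟨ζ, hζ, c, hc⟩ := W.composition' hP (by rw [d_Fv, Fintype.card_fin])
    {z | ((FGen1_pi k q n).comp p).1 z = ((FGen1_rho k q n).comp r).1 z}
    (isClosed_eq_mor ((FGen1_pi k q n).comp p).2 ((FGen1_rho k q n).comp r).2)
    ∅ finite_empty (fun _ h => h.elim) a a' ha ha' h (fun _ h => h.elim) (range g) (finite_range g)
    (fun s s' μ _ _ h1 h2 => by
      simp only [mem_ofPred_eq, Mor.comp_apply, IsProd.fst_mk, IsProd.snd_mk] at h1 h2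
      obtain ⟨δ, t, ht⟩ := FGen1_fib (h2.trans h1.symm)
      obtain ⟨c, hc, e⟩ := hg t s
      refine ⟨g t, mem_range_self t, fx_ext (δ / c) fun i => ?_⟩
      rw [ht, e]
      field_simp)
    (by rintro _ ⟨t, rfl⟩; exact h' t)
    (fun s _ => by
      obtain ⟨μ, hμ⟩ := FGen1_surj s
      exact ⟨μ, by simpa only [mem_ofPred_eq, Mor.comp_apply, IsProd.fst_mk, IsProd.snd_mk]⟩)
  exact hc (hA _ _ P p r hP ζ hζ c)

end Pool.Agent.MP_0c8446_ag
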