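import Pool.Agent.MP_0c8446_ag.Lines1
import Pool.Agent.MP_0c8446_ag.CurveCoh

namespace Pool.Agent.MP_0c8446_ag

open Set

universe u v w

variable {k : Type u} [Field k] [IsAlgClosed k] {q : ℕ} [IsQ k q] {K : Type v} [Field K]
  [CharZero K] [IsAlgClosed K] {ι ι' ι₁ ι₂ : Type} [Fintype ι] [Fintype ι'] [Fintype ι₁] [Fintype ι₂]
  {τ : ι → Bool} {τ' : ι' → Bool} {τ₁ : ι₁ → Bool} {τ₂ : ι₂ → Bool}

namespace Weil

variable (W : Weil.{u, v, w} k K)

theorem actY_Lin (g : ∀ i, Gp k q (τ i)) (β : ι → Lb k q K) {a : W.H (Yv k q τ)}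
    (ha : a ∈ (W.Lin τ β).1) : W.pull (actY g) a = (∏ i, ((β i).chr (τ i) (g i) : K)) • a :=
  W.cw_smul (fun i => lin (g i).1) (fun i => cMap_Gp (g i).2) (fun i => W.V (τ i) (β i)) _
    (fun i _ hb => W.act_V (τ i) (β i) (g i) hb) ha

theorem frobY_Lin {β : ι → Lb k q K} (hβ : ∀ i, (β i).Ok (τ i)) {a : W.H (Yv k q τ)}
    (ha : a ∈ (W.Lin τ β).1) :
    W.pull (frobY τ q inferInstance) a = (∏ i, (β i).lam (τ i)) • a :=
  W.cw_smul (fun _ => frob q) (fun i => cMap_frob q q (τ i)) (fun i => W.V (τ i) (β i)) _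
    (fun i _ hb => W.frob_V (hβ i) hb) ha

theorem V_eq_span {b : Bool} {t : Lb k q K} (h : t.Ok b) : ∃ u, (W.V b t).1 = K ∙ u := by
  obtain ⟨v, -, hv⟩ := finrank_eq_one_iff'.1 (W.finrank_V h)
  refine ⟨v.1, le_antisymm (fun a ha => ?_) ((Submodule.span_singleton_le_iff_mem _ _).2 v.2)⟩
  obtain ⟨c, hc⟩ := hv ⟨a, ha⟩
  exact Submodule.mem_span_singleton.2 ⟨c, congrArg Subtype.val hc⟩

theorem Lin_eq_span {β : ι → Lb k q K} (hβ : ∀ i, (β i).Ok (τ i)) :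
    ∃ u, (W.Lin τ β).1 = K ∙ u :=
  W.LinS_eq_span _ fun i => W.V_eq_span (hβ i)

omit [CharZero K] [IsAlgClosed K] in
lemma lines2_mul (β β' : ι → Lb k q K) :
    W.Lin τ β * W.Lin τ β' = W.LinS τ fun i => W.V (τ i) (β i) * W.V (τ i) (β' i) := by
  simp only [Lin, LinS, map_mul, Finset.prod_mul_distrib]

theorem exists_pair {β : ι → Lb k q K} (hβ : ∀ i, (β i).Ok (τ i)) :
    ∃ a ∈ (W.Lin τ β).1, ∃ b ∈ (W.Lin τ fun i => (β i).du).1, W.tr _ (a * b) ≠ 0 := by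
  have h := (W.NZ_LinS fun i => W.V (τ i) (β i) * W.V (τ i) (β i).du).2 fun i => W.NZ_V (hβ i)
  rw [← W.lines2_mul β fun i => (β i).du] at h
  obtain ⟨c, hc, h0⟩ := h
  by_contra hne
  push Not at hne
  have hle : (W.Lin τ β).1 * (W.Lin τ fun i => (β i).du).1 ≤ LinearMap.ker (W.tr _) :=
    Submodule.mul_le.2 fun a ha b hb => hne a ha b hb
  exact h0 (hle hc)

theorem tr_ne_zero_of_Lin {β : ι → Lb k q K} (hβ : ∀ i, (β i).Ok (τ i)) {a : W.H (Yv k q τ)}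
    (ha : a ∈ (W.Lin τ β).1) (h0 : a ≠ 0) :
    ∃ b ∈ (W.Lin τ fun i => (β i).du).1, W.tr _ (a * b) ≠ 0 := by
  obtain ⟨u, hu⟩ := W.Lin_eq_span hβ
  obtain ⟨a', ha', b, hb, h⟩ := W.exists_pair hβ
  rw [hu, Submodule.mem_span_singleton] at ha ha'
  obtain ⟨c, rfl⟩ := ha
  obtain ⟨c', rfl⟩ := ha'
  refine ⟨b, hb, ?_⟩
  rw [smul_mul_assoc, map_smul, smul_eq_mul] at h ⊢
  exact mul_ne_zero (left_ne_zero_of_smul h0) (right_ne_zero_of_mul h)

theorem tr_Lin_eq_zero {β β' : ι → Lb k q K} (hβ : ∀ i, (β i).Ok (τ i))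
    (hβ' : ∀ i, (β' i).Ok (τ i)) (hne : β' ≠ fun i => (β i).du) {a b : W.H (Yv k q τ)}
    (ha : a ∈ (W.Lin τ β).1) (hb : b ∈ (W.Lin τ β').1) : W.tr _ (a * b) = 0 := by
  obtain ⟨i, hi⟩ := Function.ne_iff.1 hne
  by_contra h0
  have h : W.NZ (W.Lin τ β * W.Lin τ β').1 := ⟨a * b, Submodule.mul_mem_mul ha hb, h0⟩
  rw [W.lines2_mul, W.NZ_LinS] at h
  exact W.not_NZ_V (hβ i) (hβ' i) hi (h i)

theorem exists_decomp (a : W.H (Yv k q τ)) : ∃ (s : Finset (ι → Lb k q K))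
    (c : (ι → Lb k q K) → W.H (Yv k q τ)),
    (∀ β ∈ s, (∀ i, (β i).Ok (τ i)) ∧ c β ∈ (W.Lin τ β).1) ∧ a = ∑ β ∈ s, c β := by
  have h := W.iSup_LinS (τ := τ) (L := fun b => {t : Lb k q K // t.Ok b})
    (fun b t => W.V b t.1) W.iSup_V
  have h2 : ⨆ β : ι → Lb k q K, (⨆ _ : ∀ i, (β i).Ok (τ i), (W.Lin τ β).1) = ⊤ := by
    refine top_unique (h.ge.trans (iSup_le fun β => ?_))
    exact le_iSup₂_of_le (f := fun (β : ι → Lb k q K) (_ : ∀ i, (β i).Ok (τ i)) => (W.Lin τ β).1)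
      (fun i => (β i).1) (fun i => (β i).2) le_rfl
  have ha : a ∈ ⨆ β : ι → Lb k q K, (⨆ _ : ∀ i, (β i).Ok (τ i), (W.Lin τ β).1) :=
    h2 ▸ Submodule.mem_top
  obtain ⟨f, hf, hs⟩ := (Submodule.mem_iSup_iff_exists_finsupp _ _).1 ha
  refine ⟨f.support, f, fun β hβ => ?_, hs.symm⟩
  have h3 := hf β
  by_cases hO : ∀ i, (β i).Ok (τ i)
  · rw [iSup_pos hO] at h3
    exact ⟨hO, h3⟩
  · rw [iSup_neg hO, Submodule.mem_bot] at h3
    exact absurd h3 (Finsupp.mem_support_iff.1 hβ)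

open Classical in
/-- The map that is constant in the coordinate `i` and the identity in the others. -/
noncomputable def lines2_cst (x : (Yv k q τ).pts) (i : ι) : Mor (Yv k q τ) (Yv k q τ) :=
  cw id (fun j => if j = i then fun _ => co x j else id) fun j => by
    split_ifs
    · exact cMap_const _ (co_mem x j)
    · exact cMap_id rfl

lemma lines2_cst_Lin (x : (Yv k q τ).pts) (i : ι) (β : ι → Lb k q K) {a : W.H (Yv k q τ)}
    (ha : a ∈ (W.Lin τ β).1) : W.pull (lines2_cst x i) a = (β i).kap • a := by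
  classical
  have h := W.cw_smul (τ := τ) (fun j => if j = i then fun _ => co x j else id) (fun j => by
    split_ifs
    · exact cMap_const _ (co_mem x j)
    · exact cMap_id rfl) (fun j => W.V (τ j) (β j)) (fun j => if j = i then (β j).kap else 1)
    (fun j b hb => by
      by_cases hj : j = i
      · rw [show (if j = i then (β j).kap else 1) = (β j).kap from if_pos hj,
          ← W.const_V (τ j) (β j) ((pr τ j).1 x) hb]
        exact W.pull_congr (fun y => Yv_ext fun _ => by simp [hj]) b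
      · rw [show (if j = i then (β j).kap else 1) = 1 from if_neg hj, one_smul]
        exact W.pull_id _ (funext fun y => Yv_ext fun _ => by simp [hj]) b) ha
  rw [Finset.prod_ite_eq' Finset.univ i, if_pos (Finset.mem_univ i)] at h
  rw [← h]
  exact W.pull_congr (fun y => Yv_ext fun j => by
    by_cases hj : j = i <;> simp [lines2_cst, hj]) a

theorem mem_Alg_of_sum (s : Finset (ι → Lb k q K)) (c : (ι → Lb k q K) → W.H (Yv k q τ))
    (hs : ∀ β ∈ s, (∀ i, (β i).Ok (τ i)) ∧ c β ∈ (W.Lin τ β).1) (h : ∑ β ∈ s, c β ∈ W.Alg _) :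
    ∀ β ∈ s, c β ∈ W.Alg _ := by
  classical
  obtain ⟨x⟩ : Nonempty (Yv k q τ).pts := inferInstance
  have key := mem_of_sum_mem (ι := {β // β ∈ s}) (J := (∀ i, Gp k q (τ i)) ⊕ ι) (W.Alg _)
    (Sum.elim (fun g => (W.pull (actY g)).toLinearMap)
      fun i => (W.pull (lines2_cst x i)).toLinearMap)
    (by rintro (g | i) a ha <;> exact W.pull_mem_Alg _ ha)
    (fun β => Sum.elim (fun g => ∏ i, ((β.1 i).chr (τ i) (g i) : K)) fun i => (β.1 i).kap)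
    (by
      intro β β' e
      refine Subtype.ext (funext fun i => Lb.eq_of_chr ((hs _ β.2).1 i) ((hs _ β'.2).1 i) ?_
        (congrFun e (Sum.inr i)))
      refine MonoidHom.ext fun g => Units.ext ?_
      have e1 := congrFun e (Sum.inl (Pi.mulSingle i g))
      have e2 : ∀ γ : ι → Lb k q K,
          ∏ j, ((γ j).chr (τ j) (Pi.mulSingle (M := fun j => Gp k q (τ j)) i g j) : K) =
            (γ i).chr (τ i) g := fun γ => by
        rw [Finset.prod_eq_single i (fun j _ hj => by rw [Pi.mulSingle_eq_of_ne hj]; simp)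
          (fun hi => absurd (Finset.mem_univ i) hi), Pi.mulSingle_eq_same]
      exact (e2 β.1).symm.trans (e1.trans (e2 β'.1)))
    s.attach (fun β => c β.1)
    (by
      rintro β - (g | i)
      · exact W.actY_Lin g β.1 (hs _ β.2).2
      · exact W.lines2_cst_Lin x i β.1 (hs _ β.2).2)
    (by rw [Finset.sum_attach s c]; exact h)
  exact fun β hβ => key ⟨β, hβ⟩ (Finset.mem_attach _ _)

theorem algF_of_pair {β : ι → Lb k q K} (hβ : ∀ i, (β i).Ok (τ i)) {z b : W.H (Yv k q τ)}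
    (hz : z ∈ W.Alg _) (hb : b ∈ (W.Lin τ fun i => (β i).du).1) (h : W.tr _ (z * b) ≠ 0) :
    W.AlgF τ β := by
  obtain ⟨s, c, hs, rfl⟩ := W.exists_decomp z
  rw [Finset.sum_mul, map_sum] at h
  obtain ⟨γ, hγ, h1⟩ := Finset.exists_ne_zero_of_sum_ne_zero h
  have e : (fun i => (β i).du) = fun i => (γ i).du := by
    by_contra hne
    exact h1 (W.tr_Lin_eq_zero (hs γ hγ).1 (fun i => (hβ i).du) hne (hs γ hγ).2 hb)
  obtain rfl : β = γ := funext fun i => by simpa using congrArg Lb.du (congrFun e i)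
  have h2 := W.mem_Alg_of_sum s c hs hz β hγ
  obtain ⟨u, hu⟩ := W.Lin_eq_span hβ
  have h3 := (hs β hγ).2
  rw [hu, Submodule.mem_span_singleton] at h3
  obtain ⟨t, ht⟩ := h3
  have ht0 : t ≠ 0 := by
    rintro rfl
    rw [← ht] at h1
    simp at h1
  unfold AlgF
  rw [hu, Submodule.span_singleton_le_iff_mem]
  rw [← ht] at h2
  exact (Submodule.smul_mem_iff _ ht0).1 h2

theorem exists_Lin_of_pair {β₁ : ι₁ → Lb k q K} {ζ : W.H (Yv k q (Sum.elim τ₁ τ₂))}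
    {b₁ : W.H (Yv k q τ₁)} (hb : b₁ ∈ (W.Lin τ₁ β₁).1) {c : W.H (Yv k q τ₂)}
    (h : W.tr _ (ζ * (W.pull (pL τ₁ τ₂) b₁ * W.pull (pR τ₁ τ₂) c)) ≠ 0) :
    ∃ β₂ : ι₂ → Lb k q K, (∀ i, (β₂ i).Ok (τ₂ i)) ∧
      ∃ y ∈ (W.Lin (Sum.elim τ₁ τ₂) (Sum.elim β₁ β₂)).1, W.tr _ (ζ * y) ≠ 0 := by
  obtain ⟨s, d, hs, rfl⟩ := W.exists_decomp c
  rw [map_sum, Finset.mul_sum, Finset.mul_sum, map_sum] at h
  obtain ⟨γ, hγ, h1⟩ := Finset.exists_ne_zero_of_sum_ne_zero h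
  refine ⟨γ, (hs γ hγ).1, _, ?_, h1⟩
  rw [W.Lin_sum]
  exact Submodule.mul_mem_mul (W.mem_pullS.2 ⟨_, hb, rfl⟩) (W.mem_pullS.2 ⟨_, (hs γ hγ).2, rfl⟩)

end Weil

end Pool.Agent.MP_0c8446_ag
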