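import Pool.Agent.MP_0c8446_ag.FAct
import Pool.Agent.MP_0c8446_ag.CompGen
import Pool.Agent.MP_0c8446_ag.GenBasic
import Pool.Agent.MP_0c8446_ag.Lines2
import Pool.Agent.MP_0c8446_ag.Rel4

namespace Pool.Agent.MP_0c8446_ag

open Set MvPolynomial

universe u v w

variable {k : Type u} [Field k] [IsAlgClosed k] {K : Type v} [Field K] [CharZero K]

section geo

variable {q : ℕ} [IsQ k q] {n : ℕ}

lemma fg3_closed {ι : Type} [Fintype ι] {σ : ι → Bool} {T : Var k} (f : Mor T (Fq1 k q n))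
    (g : Mor T (Yv k q σ)) (i j : ι) (s t : Fin (n + 3)) (ε : k) :
    IsClosed {z | (co (g.1 z) i).rep 0 * (co (g.1 z) j).rep 2 * (ε * fx (f.1 z) s) =
      (co (g.1 z) j).rep 0 * (co (g.1 z) i).rep 2 * fx (f.1 z) t} := by
  let N : Unit → ℕ := fun _ => n + 2
  let M : ι → ℕ := fun _ => 2
  let F : MvPolynomial (Vars (Sum.elim N M)) k :=
    X (pvR N ⟨i, 0⟩) * X (pvR N ⟨j, 2⟩) * (C ε * X (pvL M ⟨(), s⟩)) -
      X (pvR N ⟨j, 0⟩) * X (pvR N ⟨i, 2⟩) * X (pvL M ⟨(), t⟩)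
  convert (isClosed_vanish F).preimage
    (continuous_subtype_val.comp (pv_isMor_M f.2 g.2).continuous) using 1
  ext z
  constructor
  · intro h v hv
    obtain ⟨c, -, rfl⟩ := (isRep_rep _).exists_smul hv
    simp only [F, map_sub, map_mul, eval_X, eval_C]
    have h' : (co (g.1 z) i).rep 0 * (co (g.1 z) j).rep 2 * (ε * fx (f.1 z) s) =
      (co (g.1 z) j).rep 0 * (co (g.1 z) i).rep 2 * fx (f.1 z) t := h
    show c (.inr i) * (co (g.1 z) i).rep 0 * (c (.inr j) * (co (g.1 z) j).rep 2) *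
      (ε * (c (.inl ()) * fx (f.1 z) s)) - c (.inr j) * (co (g.1 z) j).rep 0 *
      (c (.inr i) * (co (g.1 z) i).rep 2) * (c (.inl ()) * fx (f.1 z) t) = 0
    linear_combination c (.inr i) * c (.inr j) * c (.inl ()) * h'
  · intro h
    have := h _ (isRep_rep _)
    simp only [F, map_sub, map_mul, eval_X, eval_C] at this
    exact sub_eq_zero.1 this

lemma fg3_closed_fx (s : Fin (n + 3)) : IsClosed {x : (Fq1 k q n).pts | fx x s = 0} := by
  convert (isClosed_vanish (X ⟨(), s⟩ : MvPolynomial (Vars fun _ : Unit => n + 2) k)).preimage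
    (continuous_subtype_val (p := (· ∈ (Fq1 k q n).pts))) using 1
  ext x
  constructor
  · intro h v hv
    obtain ⟨c, -, rfl⟩ := (isRep_rep _).exists_smul hv
    rw [eval_X]
    exact mul_eq_zero_of_right _ h
  · intro h
    have := h _ (isRep_rep _)
    rw [eval_X] at this
    exact this

lemma fg3_closed_bd : IsClosed {y : (Cv k q false).pts | ¬ IsFin (co y ()) ∨ ax (co y ()) = 0} := by
  refine hdc_of (X ⟨(), 2⟩ * X ⟨(), 0⟩) fun x => ⟨fun H v hv => ?_, fun H => ?_⟩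
  · simp only [map_mul, eval_X]
    by_cases f2 : IsFin (co x ())
    · rw [(hdc_fin hv f2).2.1, H.resolve_left (not_not.2 f2)]; ring
    · rw [hdc_z hv f2]; ring
  · obtain ⟨v, hv⟩ := hdc_ex x
    by_contra h
    simp only [not_or, not_not] at h
    have := H v hv
    simp [(hdc_fin hv h.1).1, (hdc_fin hv h.1).2.1, h.2] at this

/-- The boundary. -/
def fg3B (s₀ : Fin (n + 3)) (x : (Fq1 k q n).pts) (y : (Cv k q false).pts) : Prop :=
  fx x s₀ = 0 ∨ ¬ IsFin (co y ()) ∨ ax (co y ()) = 0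

/-- The correspondence. -/
def fg3Z (s₀ : Fin (n + 3)) (ε : k) (x : (Fq1 k q n).pts) (y : (Cv k q false).pts)
    (μ : (Yv k q fun _ : {s // s ≠ s₀} => false).pts) : Prop :=
  (∀ s, IsFin (co μ s)) ∧ (∀ s, ax (co μ s) * (ε * fx x s₀) = ax (co y ()) * fx x s) ∧
    ∑ s, ay (co μ s) = ay (co y ())

lemma fg3_isClosed {T : Var k} (s₀ : Fin (n + 3)) {ε : k} (hε : ε ≠ 0) (f : Mor T (Fq1 k q n))
    (a : Mor T (Cv k q false)) (r : Mor T (Yv k q fun _ : {s // s ≠ s₀} => false)) :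
    IsClosed {z | fg3B s₀ (f.1 z) (a.1 z) ∨ fg3Z s₀ ε (f.1 z) (a.1 z) (r.1 z)} := by
  have cB : IsClosed {z | fg3B s₀ (f.1 z) (a.1 z)} :=
    ((fg3_closed_fx s₀).preimage f.continuous).union (fg3_closed_bd.preimage a.continuous)
  have c1 := isClosed_iInter fun s : {s // s ≠ s₀} =>
    fg3_closed f (pair a r) (.inr s) (.inl ()) s₀ s ε
  have c2 := (HdReg.closed (HdReg.sum Finset.univ fun s : {s // s ≠ s₀} => HdReg.ay (k := k) (q := q)
    (τ := Sum.elim (fun _ : Unit => false) fun _ : {s // s ≠ s₀} => false) (.inr s))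
    (HdReg.ay (.inl ()))).preimage (pair a r).continuous
  convert cB.union (c1.inter c2) using 1
  ext z
  simp only [mem_ofPred_eq, mem_union, mem_inter_iff, mem_iInter, mem_preimage, co_pair_inl,
    co_pair_inr]
  refine or_congr_right' fun hB => ?_
  simp only [fg3B, not_or, not_not] at hB
  obtain ⟨h1, h2, h3⟩ := hB
  have h2' : (co (a.1 z) ()).rep 2 ≠ 0 := h2
  constructor
  · rintro ⟨e1, e2, e3⟩
    refine ⟨fun s => ?_, fun _ => e3⟩
    have h4 : (co (r.1 z) s).rep 2 ≠ 0 := e1 s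
    have h5 := e2 s
    rw [ax, ax] at h5
    field_simp at h5
    linear_combination h5
  · rintro ⟨e1, e2⟩
    have fm : ∀ s, IsFin (co (r.1 z) s) := fun s => by
      by_contra h
      obtain ⟨c, hc, e0, -, e3⟩ := rep_pt3 (x := (1 : k)) (y := 0) (z := 0) (by simp)
      have := e1 s
      rw [eq_inf_of_dh (co_mem (r.1 z) s) h, e0, e3] at this
      simp [hc, hε, h1, h2'] at this
    refine ⟨fm, fun s => ?_, e2 (by rintro (i | i); exacts [h2, fm i])⟩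
    have h4 : (co (r.1 z) s).rep 2 ≠ 0 := fm s
    rw [ax, ax]
    field_simp
    linear_combination e1 s

lemma fg3_surj (s₀ : Fin (n + 3)) {ε : k} (hε : ε ^ (q - 1) = -1) {x : (Fq1 k q n).pts}
    {y : (Cv k q false).pts} (h : ¬ fg3B s₀ x y) : ∃ μ, fg3Z s₀ ε x y μ := by
  classical
  simp only [fg3B, not_or, not_not] at h
  obtain ⟨h1, h2, -⟩ := h
  have hε0 : ε ≠ 0 := by
    rintro rfl
    simp [zero_pow (IsQ.pos k q).ne'] at hε
  have d := r4_dh_eq (co_mem y ()) h2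
  let w : {s // s ≠ s₀} → k := fun s => ax (co y ()) * fx x s / (ε * fx x s₀)
  have hw : ∑ s, w s ^ (q - 1) = ax (co y ()) ^ (q - 1) := by
    have e := fx_sum x
    rw [← Finset.add_sum_erase _ _ (Finset.mem_univ s₀), Finset.sum_subtype (p := (· ≠ s₀)) _
      (by simp)] at e
    simp only [w, div_pow, mul_pow, hε, ← Finset.sum_div, ← Finset.mul_sum]
    rw [div_eq_iff (by simpa using pow_ne_zero (q - 1) h1)]
    linear_combination ax (co y ()) ^ (q - 1) * e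
  choose t ht using fun s => r4_root (q := q) (w s ^ (q - 1))
  obtain ⟨s₁, hs₁⟩ := exists_ne s₀
  let δ := ay (co y ()) - ∑ s, t s
  have hδ : δ ^ q = δ := by
    have e : (∑ s, t s) ^ q = ∑ s, t s ^ q := map_sum (frobHom k q) _ _
    have e' : ∑ s, t s ^ q - ∑ s, t s = ∑ s, w s ^ (q - 1) := by
      rw [← Finset.sum_sub_distrib]
      exact Finset.sum_congr rfl fun s _ => ht s
    simp only [δ, IsQ.sub_pow, e]
    linear_combination d - e' - hw
  refine ⟨mkY (fun s => pt3 (w s) (t s + if s = ⟨s₁, hs₁⟩ then δ else 0) 1) fun s =>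
    aff_mem_dh.2 ?_, fun s => by simp, fun s => ?_, ?_⟩
  · rw [IsQ.add_pow, ← ht s]
    split_ifs
    · rw [hδ]; ring
    · rw [zero_pow (by have := IsQ.one_lt (k := k) (q := q); omega)]; ring
  · simp only [co_mkY, ax_aff, w]
    field_simp
  · simp [Finset.sum_add_distrib, δ]

lemma fg3_fib (s₀ : Fin (n + 3)) {ε : k} {x x' : (Fq1 k q n).pts} {y y' : (Cv k q false).pts}
    (h : ¬ fg3B s₀ x y) (h' : ¬ fg3B s₀ x' y') {μ} (e : fg3Z s₀ ε x y μ) (e' : fg3Z s₀ ε x' y' μ) :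
    ∃ ζ : (Fq k q)ˣ, y' = (actY fun _ => gD ζ 0).1 y ∧ ∃ c : k, ∀ s,
      fx x' s = c * ((((Pi.mulSingle s₀ ζ : Fin (n + 3) → (Fq k q)ˣ) s : Fq k q) : k) * fx x s) := by
  simp only [fg3B, not_or, not_not] at h h'
  obtain ⟨h1, f2, f3⟩ := h
  obtain ⟨h1', f2', f3'⟩ := h'
  have d := r4_dh_eq (co_mem y ()) f2
  have d' := r4_dh_eq (co_mem y' ()) f2'
  have hY : ay (co y' ()) = ay (co y ()) := e'.2.2.symm.trans e.2.2
  have hz : (ax (co y' ()) / ax (co y ())) ^ (q - 1) = 1 := by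
    rw [div_pow, ← d, ← d', hY, div_self]
    rw [d]
    exact pow_ne_zero _ f3
  refine ⟨toFqUnit _ hz, Yv_ext fun i => ?_, fx x' s₀ * ax (co y ()) / (fx x s₀ * ax (co y' ())),
    fun s => ?_⟩
  · show co y' () = lin (gD (toFqUnit _ hz) 0).1 (co y ())
    refine IsFin.ext f2' ((isFin_lin _ _).2 f2) ?_ ?_
    · rw [ax_lin]
      simp [div_mul_cancel₀ _ f3]
    · rw [ay_lin _ f2, hY]
      simp
  · by_cases hs : s = s₀
    · subst hs
      rw [Pi.mulSingle_eq_same, toFqUnit_val]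
      field_simp
    · rw [Pi.mulSingle_eq_of_ne hs]
      have e1 := e.2.1 ⟨s, hs⟩
      have e2 := e'.2.1 ⟨s, hs⟩
      simp only at e1 e2
      simp only [Units.val_one, OneMemClass.coe_one, one_mul]
      field_simp
      linear_combination fx x' s₀ * e1 - fx x s₀ * e2

end geo

omit [CharZero K] in
lemma Weil.fg3_tr (W : Weil.{u, v, w} k K) {q : ℕ} [IsQ k q] {X T : Var k} {a : W.H X}
    (ha : a ∈ W.Ann q X) {ι : Type} [Fintype ι] {τ : ι → Bool} (p : Mor T X)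
    (r : Mor T (Yv k q τ)) {z : W.H T} (hz : z ∈ W.Alg T) (b : W.H (Yv k q τ)) :
    W.tr T (z * (W.pull p a * W.pull r b)) = 0 := by
  obtain ⟨P, p', r', h⟩ := exists_prod X (Yv k q τ)
  by_contra hne
  rw [← W.pull_congr (f := p'.comp _) (g := p) (fun x => h.fst_lift p r x),
    ← W.pull_congr (f := r'.comp _) (g := r) (fun x => h.snd_lift p r x), ← W.pull_pull,
    ← W.pull_pull, ← map_mul (W.pull _)] at hne
  obtain ⟨z', hz', h1⟩ := W.exists_Alg_push _ hz hne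
  exact h1 (ha ι τ P p' r' h z' hz' b)

theorem Weil.fgen_ne_one' [IsAlgClosed K] (W : Weil.{u, v, w} k K) {q : ℕ} [IsQ k q] {n : ℕ}
    (g : (Fin (n + 3) → (Fq k q)ˣ) → Mor (Fq1 k q n) (Fq1 k q n)) (h1 : ∀ x, (g 1).1 x = x)
    (hm : ∀ s t x, (g (s * t)).1 x = (g s).1 ((g t).1 x))
    (hg : ∀ t x, ∃ c : k, c ≠ 0 ∧ ∀ s, fx ((g t).1 x) s = c * (((t s : Fq k q) : k) * fx x s))
    {χ : (Fin (n + 3) → (Fq k q)ˣ) →* Kˣ} (hχ : χ ≠ 1)
    {i j : ℕ} {a a' : W.H (Fq1 k q n)} (ha : a ∈ W.gr _ i) (ha' : a' ∈ W.gr _ j)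
    (h2 : ∀ t, W.pull (g t) a = (χ t : K) • a) (h3 : ∀ t, W.pull (g t) a' = (χ⁻¹ t : K) • a')
    (h : W.tr _ (a * a') ≠ 0) : a ∉ W.Ann q _ := by
  classical
  intro hA
  obtain ⟨s₀, ζ₀, h0⟩ : ∃ s₀ ζ₀, χ (Pi.mulSingle s₀ ζ₀) ≠ 1 := by
    by_contra hne
    push Not at hne
    refine hχ (MonoidHom.ext fun t => ?_)
    rw [← Finset.univ_prod_mulSingle t, map_prod]
    simp [hne]
  obtain ⟨ψ, hψ⟩ : ∃ ψ : AddChar (Fq k q) K, ψ ≠ 1 := by
    obtain ⟨φ, hφ⟩ := CommGroup.exists_apply_ne_one_of_hasEnoughRootsOfUnity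
      (Multiplicative (Fq k q)) K (a := Multiplicative.ofAdd 1) (by simp)
    refine ⟨AddChar.toMonoidHomEquiv.symm ((Units.coeHom K).comp φ), fun e => hφ (Units.ext ?_)⟩
    simpa using DFunLike.congr_fun e 1
  let ω : MulChar (Fq k q) K := MulChar.ofUnitHom (χ.comp (MonoidHom.mulSingle (fun _ => (Fq k q)ˣ) s₀))
  have hω : ∀ ζ : (Fq k q)ˣ, ω ζ = χ (Pi.mulSingle s₀ ζ) := fun ζ => MulChar.ofUnitHom_coe _ _
  have h0' : (χ (Pi.mulSingle s₀ ζ₀) : K) ≠ 1 := fun e => h0 (Units.ext e)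
  have hω1 : ω⁻¹ ≠ 1 := inv_ne_one.2 (MulChar.ne_one_iff.2 ⟨ζ₀, by rwa [hω]⟩)
  obtain ⟨ε, hε⟩ := IsAlgClosed.exists_pow_nat_eq (-1 : k) (IsQ.pos k q)
  have hε0 : ε ≠ 0 := by
    rintro rfl
    simp [zero_pow (IsQ.pos k q).ne'] at hε
  obtain ⟨S, f, b, hS⟩ := exists_prod (Fq1 k q n) (Cv k q false)
  obtain ⟨P, p, r, hP⟩ := exists_prod S (Yv k q fun _ : {s // s ≠ s₀} => false)
  obtain ⟨v, hv, v', hv', hvv⟩ := W.exists_pair (τ := fun _ : Unit => false)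
    (β := fun _ => Lb.ch ω⁻¹ 1 ψ) fun _ => ⟨hω1, rfl, hψ⟩
  let Γ : (Fin (n + 3) → (Fq k q)ˣ) → (Fq k q)ˣ → Mor S S := fun t ζ =>
    hS.lift ((g t).comp f) ((actY fun _ => gD ζ 0).comp b)
  have hΓ : ∀ t ζ x u, W.pull (Γ t ζ) (W.pull f x * W.pull b u) =
      W.pull f (W.pull (g t) x) * W.pull b (W.pull (actY fun _ => gD ζ 0) u) := fun t ζ x u => by
    rw [map_mul, W.pull_pull, W.pull_pull, W.pull_pull, W.pull_pull,
      W.pull_congr (f := f.comp _) (hS.fst_lift _ _), W.pull_congr (f := b.comp _) (hS.snd_lift _ _)]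
  have c₁ : ∀ t ζ, W.pull (Γ t ζ) (W.pull f a * W.pull b v) =
      ((χ t : K) * (ω ζ)⁻¹) • (W.pull f a * W.pull b v) := fun t ζ => by
    rw [hΓ, h2, W.actY_Lin _ _ hv]
    simp [Lb.chr, smul_smul, MulChar.inv_apply_eq_inv', mul_comm]
  have c₂ : ∀ t ζ, W.pull (Γ t ζ) (W.pull f a' * W.pull b v') =
      ((χ t : K)⁻¹ * ω ζ) • (W.pull f a' * W.pull b v') := fun t ζ => by
    rw [hΓ, h3, W.actY_Lin _ _ hv']
    simp [Lb.chr, Lb.du, smul_smul, mul_comm]
  have hinv : ∀ t ζ s, (Γ t⁻¹ ζ⁻¹).1 ((Γ t ζ).1 s) = s := fun t ζ s => by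
    refine hS.ext ?_ ?_
    · simp only [Γ, IsProd.fst_lift, Mor.comp_apply]
      rw [← hm, inv_mul_cancel, h1]
    · simp only [Γ, IsProd.snd_lift, Mor.comp_apply]
      rw [← actY_mul]
      refine (congrArg (fun u => (actY u).1 (b.1 s)) (funext fun u => ?_)).trans (actY_one _)
      show gD ζ⁻¹ 0 * gD ζ 0 = 1
      rw [← gD_mul, inv_mul_cancel, add_zero, gD_one]
  have g1 := W.Lin_le_gr _ hv
  have g2 := W.Lin_le_gr _ hv'
  let A : Set (Set S.pts) := {{s | fx (f.1 s) s₀ = 0},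
    {s | ¬ IsFin (co (b.1 s) ()) ∨ ax (co (b.1 s) ()) = 0}}
  have hAU : ∀ s, s ∉ ⋃₀ A ↔ ¬ fg3B s₀ (f.1 s) (b.1 s) := fun s => by simp [A, fg3B]
  obtain ⟨x₀, hx₀⟩ : ∃ x : (Fq1 k q n).pts, fx x s₀ ≠ 0 := by
    obtain ⟨x, hx⟩ := fv_exists_pt (predQ_ne k q) n s₀
    refine ⟨x, fun e => hx fun v hv => ?_⟩
    obtain ⟨c, -, rfl⟩ := (isRep_rep _).exists_smul hv
    rw [eval_X]
    exact mul_eq_zero_of_right _ e
  obtain ⟨y₀, hy₀⟩ := r4_root (q := q) (1 : k)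
  let s₁ := hS.mk x₀ (mkY (fun _ => pt3 1 y₀ 1) fun _ => aff_mem_dh.2 (by simpa using hy₀))
  obtain ⟨ζ, hζ, c, hc⟩ := W.composition' hP
    (by rw [W.d_prod hS, d_Fv, d_Cv]; simp)
    {z | fg3B s₀ ((f.comp p).1 z) ((b.comp p).1 z) ∨
      fg3Z s₀ ε ((f.comp p).1 z) ((b.comp p).1 z) (r.1 z)} (fg3_isClosed s₀ hε0 _ _ _) A
    (toFinite _)
    (by
      rintro _ (rfl | rfl)
      · exact ⟨(fg3_closed_fx s₀).preimage f.continuous, fun e => hx₀ (by
          simpa [s₁] using (e ▸ mem_univ s₁ : s₁ ∈ {s | fx (f.1 s) s₀ = 0}))⟩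
      · exact ⟨fg3_closed_bd.preimage b.continuous, fun e => by
          simpa [s₁] using (e ▸ mem_univ s₁ :
            s₁ ∈ {s | ¬ IsFin (co (b.1 s) ()) ∨ ax (co (b.1 s) ()) = 0})⟩)
    (W.pull f a * W.pull b v) (W.pull f a' * W.pull b v')
    (SetLike.mul_mem_graded (W.pull_gr _ _ _ ha) (W.pull_gr _ _ _ g1))
    (SetLike.mul_mem_graded (W.pull_gr _ _ _ ha') (W.pull_gr _ _ _ g2))
    (by
      rw [mul_assoc, ← mul_assoc (W.pull b v),
        W.comm _ _ _ _ (W.pull_gr _ _ _ g1) _ (W.pull_gr _ _ _ ha')]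
      rcases neg_one_pow_eq_or (W.H S) ((∑ _u : Unit, (Lb.ch ω⁻¹ 1 ψ).deg) * j) with e | e <;>
        rw [e]
      · rw [one_mul, mul_assoc, ← mul_assoc, ← map_mul, ← map_mul, W.tr_prod hS]
        exact mul_ne_zero h hvv
      · rw [neg_one_mul, neg_mul, mul_neg, map_neg, mul_assoc, ← mul_assoc, ← map_mul, ← map_mul,
          W.tr_prod hS]
        exact neg_ne_zero.2 (mul_ne_zero h hvv))
    (by
      rintro _ (rfl | rfl)
      · refine ⟨Γ (Pi.mulSingle s₀ ζ₀) 1, _, hinv _ _, fun s e => hS.ext ?_ ?_, _, _, ?_, ?_,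
          c₁ _ _, c₂ _ _⟩
        · simp only [Γ, IsProd.fst_lift, Mor.comp_apply]
          obtain ⟨c, -, hc⟩ := hg (Pi.mulSingle s₀ ζ₀) (f.1 s)
          refine fx_ext c fun t => (hc t).trans ?_
          by_cases ht : t = s₀
          · rw [ht, show fx (f.1 s) s₀ = 0 from e, mul_zero]
          · simp [Pi.mulSingle_eq_of_ne ht]
        · simp only [Γ, IsProd.snd_lift, Mor.comp_apply, gD_one]
          exact actY_one _
        · simpa using h0'
        · simpa using h0'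
      · refine ⟨Γ 1 ζ₀, _, hinv _ _, fun s e => hS.ext ?_ ?_, _, _, ?_, ?_, c₁ _ _, c₂ _ _⟩
        · simp only [Γ, IsProd.fst_lift, Mor.comp_apply, h1]
        · simp only [Γ, IsProd.snd_lift, Mor.comp_apply]
          exact Yv_ext fun _ => r4_fix_dh ζ₀ (co_mem (b.1 s) ()) e
        · simpa [hω] using h0'
        · simpa [hω] using h0')
    (range fun z => Γ (Pi.mulSingle s₀ z) z) (finite_range _)
    (fun s s' μ hs hs' e e' => by
      rw [hAU] at hs hs'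
      simp only [mem_ofPred_eq, Mor.comp_apply, IsProd.fst_mk, IsProd.snd_mk] at e e'
      obtain ⟨z, e1, c, e2⟩ := fg3_fib s₀ hs hs' (e.resolve_left hs) (e'.resolve_left hs')
      refine ⟨_, ⟨z, rfl⟩, hS.ext ?_ ?_⟩
      · simp only [Γ, IsProd.fst_lift, Mor.comp_apply]
        obtain ⟨c', hc', e3⟩ := hg (Pi.mulSingle s₀ z) (f.1 s)
        exact fx_ext (c / c') fun t => by rw [e2, e3]; field_simp
      · simpa only [Γ, IsProd.snd_lift, Mor.comp_apply] using e1)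
    (by
      rintro _ ⟨z, rfl⟩
      rw [c₂, hω, inv_mul_cancel₀ (Units.ne_zero _), one_smul])
    (fun s hs => by
      obtain ⟨μ, hμ⟩ := fg3_surj s₀ hε ((hAU s).1 hs)
      exact ⟨μ, Or.inr (by simpa using hμ)⟩)
  refine hc ?_
  have := W.fg3_tr hA (f.comp p) (pair (b.comp p) r) hζ (W.pull (pL _ _) v * W.pull (pR _ _) c)
  rw [map_mul (W.pull _), W.pull_pull, W.pull_pull, W.pull_congr (f := (pL _ _).comp _) (pL_pair _ _),
    W.pull_congr (f := (pR _ _).comp _) (pR_pair _ _)] at this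
  rwa [map_mul (W.pull _), W.pull_pull, W.pull_pull, mul_assoc]

end Pool.Agent.MP_0c8446_ag
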