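import Pool.Agent.MP_0c8446_ag.Amb

namespace Pool.Agent.MP_0c8446_ag

open Set

universe u v w

set_option linter.unusedSectionVars false

section aux

open MvPolynomial Topology

lemma fv_chain_push {X Y : Type u} [TopologicalSpace X] [TopologicalSpace Y] {j : X → Y}
    (hj : Continuous j) (hc : ∀ C, IsClosed C → j ⁻¹' closure (j '' C) ⊆ C) {r : ℕ}
    (h : HasChain (univ : Set X) r) : HasChain (closure (range j)) r := by
  obtain ⟨C, h1, h2⟩ := h
  refine ⟨fun i => closure (j '' C i), fun a b hab => ?_, fun i =>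
    ⟨(h2 i).1.image_closure hj, closure_mono (image_subset_range _ _)⟩⟩
  refine lt_of_le_of_ne (closure_mono (image_mono (h1 hab).le)) fun e => (h1 hab).not_ge ?_
  intro x hx
  refine hc _ (h2 a).1.2 ?_
  have e' : closure (j '' C a) = closure (j '' C b) := e
  rw [mem_preimage, e']
  exact subset_closure (mem_image_of_mem j hx)

variable {k : Type u} [Field k]

/-- A surjective morphism given by forms of one degree. -/
lemma fv_exists_mor {N N' : ℕ} {S : Set (MP k fun _ : Unit => N)}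
    {T : Set (MP k fun _ : Unit => N')}
    (F : Vars (fun _ : Unit => N') → MvPolynomial (Vars fun _ : Unit => N) k) (d : ℕ)
    (hh : ∀ a (t : k) v, eval (fun b => t * v b) (F a) = t ^ d * eval v (F a))
    (h0 : ∀ x ∈ S, ∃ v, IsRep v x ∧ ∃ y ∈ T, IsRep (fun a => eval v (F a)) y) :
    ∃ φ : S → T, IsMor φ ∧ ∀ (x : S) v, IsRep v x.1 → IsRep (fun a => eval v (F a)) (φ x).1 := by
  choose v hv y hy hr using h0
  have key : ∀ (x : S) w, IsRep w x.1 → IsRep (fun a => eval w (F a)) (y x.1 x.2) := by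
    intro x w hw
    obtain ⟨t, ht, rfl⟩ := (hv x.1 x.2).exists_smul hw
    have := (hr x.1 x.2).smul (fun _ => t () ^ d) fun _ => pow_ne_zero _ (ht ())
    simpa only [← hh] using this
  exact ⟨fun x => ⟨y x.1 x.2, hy x.1 x.2⟩, isMor_of_global F key, key⟩

/-- The coordinates of a projective space. -/
def fvE (N : ℕ) : Fin (N + 1) ≃ Vars fun _ : Unit => N where
  toFun s := ⟨(), s⟩
  invFun a := a.2
  left_inv _ := rfl
  right_inv _ := rfl

/-- The equation of the Fermat hypersurface. -/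
noncomputable def fvG (k : Type u) [Field k] (m n : ℕ) :
    MvPolynomial (Vars fun _ : Unit => n + 2) k := ∑ s : Fin (n + 3), X ⟨(), s⟩ ^ m

lemma fvG_eval (m n : ℕ) (v : (Vars fun _ : Unit => n + 2) → k) :
    eval v (fvG k m n) = ∑ s : Fin (n + 3), v ⟨(), s⟩ ^ m := by
  simp [fvG]

lemma fv_mem {m n : ℕ} {v : (Vars fun _ : Unit => n + 2) → k} {x : MP k fun _ : Unit => n + 2}
    (hv : IsRep v x) : x ∈ fermat k m n ↔ ∑ s : Fin (n + 3), v ⟨(), s⟩ ^ m = 0 := by
  obtain ⟨t, ht, rfl⟩ := (isRep_rep x).exists_smul hv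
  simp only [mul_pow, ← Finset.mul_sum, mul_eq_zero, pow_eq_zero_iff', ht (), false_and, false_or]
  rfl

lemma fv_eq (m n : ℕ) : fermat k m n = {x | Vanish (fvG k m n) x} := by
  ext x
  exact ⟨fun h v hv => (fvG_eval m n v).trans ((fv_mem hv).1 h), fun h =>
    (fv_mem (isRep_rep x)).2 ((fvG_eval m n _).symm.trans (h _ (isRep_rep x)))⟩

lemma fv_isClosed (m n : ℕ) : IsClosed (fermat k m n) := fv_eq (k := k) m n ▸ isClosed_vanish _

lemma fv_pos {m : ℕ} (hm : (m : k) ≠ 0) : 0 < m :=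
  Nat.pos_of_ne_zero fun e => hm (by rw [e, Nat.cast_zero])

lemma fv_sum_pt {m : ℕ} (hm : 0 < m) {ε : k} (hε : ε ^ m = -1) (n : ℕ) :
    ∑ s : Fin (n + 2), (Fin.cons 1 (Fin.cons ε 0) : Fin (n + 2) → k) s ^ m = 0 := by
  simp [Fin.sum_univ_succ, hε, hm.ne']

lemma fv_rep {N : ℕ} {w : Fin (N + 1) → k} (h : w ≠ 0) :
    IsRep (fun a : Vars fun _ : Unit => N => w a.2)
      (ambPt (fun a : Vars fun _ : Unit => N => w a.2) fun _ => h) := amb_isRep _ _

variable [IsAlgClosed k]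

lemma fvG_prime {m : ℕ} (hm : (m : k) ≠ 0) (n : ℕ) : Prime (fvG k m n) := by
  have h0 := fv_pos hm
  obtain ⟨ε, hε⟩ := IsAlgClosed.exists_pow_nat_eq (-1 : k) h0
  have e0 : fvG k m n = renameEquiv k (fvE (n + 2)) (∑ s : Fin (n + 3), X s ^ m) := by
    simp [fvG, fvE]
  rw [e0]
  refine ((MulEquiv.irreducible_iff (renameEquiv k (fvE (n + 2)))).2 ?_).prime
  rw [← MulEquiv.irreducible_iff (finSuccEquiv k (n + 2))]
  have e : finSuccEquiv k (n + 2) (∑ s : Fin (n + 3), X s ^ m) =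
      Polynomial.C 1 * Polynomial.X ^ m + Polynomial.C (∑ s : Fin (n + 2), X s ^ m) := by
    rw [Fin.sum_univ_succ]
    simp only [map_add, map_pow, map_sum, finSuccEquiv_X_zero, finSuccEquiv_X_succ, map_one,
      one_mul]
  rw [e]
  refine cirr_eis (Fin.cons 1 (Fin.cons ε 0)) 0 h0 (by simp) ?_ ?_ fun r h1 _ =>
    isUnit_of_dvd_one h1
  · simpa only [map_sum, map_pow, eval_X] using fv_sum_pt h0 hε n
  · rw [Fin.sum_univ_succ]
    simp [Derivation.leibniz_pow, pderiv_X, hm, Fin.succ_ne_zero]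

lemma fv_vI {m : ℕ} (hm : (m : k) ≠ 0) (n : ℕ) : vI (fermat k m n) = Ideal.span {fvG k m n} := by
  have hp : (Ideal.span {fvG k m n}).IsPrime :=
    (Ideal.span_singleton_prime (fvG_prime hm n).ne_zero).2 (fvG_prime hm n)
  refine le_antisymm (fun g hg => ?_) ?_
  · have h1 : g * X ⟨(), 0⟩ ∈ vanishingIdeal k (zeroLocus k (Ideal.span {fvG k m n})) := by
      intro v hv
      have hv' : eval v (fvG k m n) = 0 := hv _ (Ideal.mem_span_singleton_self _)
      show eval v _ = 0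
      rw [map_mul, eval_X]
      by_cases h2 : v ⟨(), 0⟩ = 0
      · rw [h2, mul_zero]
      · have hr := amb_isRep v fun _ h => h2 (congrFun h 0)
        rw [hg _ ((fv_mem hr).2 ((fvG_eval m n v).symm.trans hv')) v hr, zero_mul]
    rw [vanishingIdeal_zeroLocus_eq_radical, hp.radical] at h1
    refine (hp.mem_or_mem h1).resolve_right fun h2 => ?_
    obtain ⟨ε, hε⟩ := IsAlgClosed.exists_pow_nat_eq (-1 : k) (fv_pos hm)
    have h3 := map_dvd (eval fun a : Vars fun _ : Unit => n + 2 =>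
      (Fin.cons 1 (Fin.cons ε 0) : Fin (n + 3) → k) a.2) (Ideal.mem_span_singleton.1 h2)
    rw [fvG_eval, fv_sum_pt (fv_pos hm) hε (n + 1), eval_X, zero_dvd_iff] at h3
    exact one_ne_zero h3
  · rw [Ideal.span_le, singleton_subset_iff, fv_eq]
    exact fun x hx => hx

lemma fv_isSub {m : ℕ} (hm : (m : k) ≠ 0) (n : ℕ) : IsSub (fermat k m n) := by
  refine ⟨isIrreducible_of_prime ?_, fv_isClosed m n⟩
  rw [fv_vI hm]
  exact (Ideal.span_singleton_prime (fvG_prime hm n).ne_zero).2 (fvG_prime hm n)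

lemma fv_isSub_univ {m : ℕ} (hm : (m : k) ≠ 0) (n : ℕ) : IsSub (univ : Set (fermat k m n)) := by
  refine ⟨?_, isClosed_univ⟩
  have := Subtype.irreducibleSpace (fv_isSub hm n).1
  exact IrreducibleSpace.isIrreducible_univ _

lemma fv_dim_le {m : ℕ} (hm : (m : k) ≠ 0) (n : ℕ) :
    dim (univ : Set (fermat k m n)) ≤ n + 1 := by
  have h1 := IsClosedEmbedding.inclusion (subset_univ (fermat k m n))
    ((fv_isClosed m n).preimage continuous_subtype_val)
  rw [← amb_dim_image h1, image_univ, range_inclusion]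
  have h2 : dim (Subtype.val ⁻¹' fermat k m n : Set (amb k fun _ : Unit => n + 2).pts) <
      (amb k fun _ : Unit => n + 2).d := by
    refine dim_lt (amb_isSub_preimage (fv_isSub hm n)) (amb k _).isSub_univ
      ⟨subset_univ _, fun h => ?_⟩
    have h0 : (Fin.cons 1 0 : Fin (n + 3) → k) ≠ 0 := fun e => one_ne_zero (congrFun e 0)
    have h4 : ∀ x, x ∈ fermat k m n := fun x => h (a := ⟨x, trivial⟩) trivial
    have h3 := (fv_mem (fv_rep h0)).1 (h4 _)
    simp [Fin.sum_univ_succ, (fv_pos hm).ne'] at h3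
  rw [d_amb] at h2
  simp only [Finset.univ_unique, Finset.sum_singleton] at h2
  exact Nat.lt_succ_iff.1 h2

/-- a point of the hypersurface on which a given coordinate does not vanish -/
lemma fv_exists_pt {m : ℕ} (hm : (m : k) ≠ 0) (n : ℕ) (s : Fin (n + 3)) :
    ∃ x : fermat k m n, ¬ Vanish (X ⟨(), s⟩) x.1 := by
  obtain ⟨ε, hε⟩ := IsAlgClosed.exists_pow_nat_eq (-1 : k) (fv_pos hm)
  have h1 : (Fin.cons 1 (Fin.cons ε 0) : Fin (n + 3) → k) ∘ Equiv.swap 0 s ≠ 0 := fun e => by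
    simpa using congrFun e s
  refine ⟨⟨_, (fv_mem (fv_rep h1)).2 ?_⟩, fun h => ?_⟩
  · exact (Equiv.sum_comp (Equiv.swap 0 s) fun t =>
      (Fin.cons 1 (Fin.cons ε 0) : Fin (n + 3) → k) t ^ m).trans (fv_sum_pt (fv_pos hm) hε (n + 1))
  · simpa using h _ (fv_rep h1)

lemma fv_chain_zero {m : ℕ} (hm : (m : k) ≠ 0) : HasChain (univ : Set (fermat k m 0)) 1 := by
  obtain ⟨ε, hε⟩ := IsAlgClosed.exists_pow_nat_eq (-1 : k) (fv_pos hm)
  have h1 : (Fin.cons 1 (Fin.cons ε 0) : Fin 3 → k) ≠ 0 := fun e => one_ne_zero (congrFun e 0)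
  let x : fermat k m 0 := ⟨_, (fv_mem (fv_rep h1)).2 (fv_sum_pt (fv_pos hm) hε 1)⟩
  refine ((isSub_singleton x).hasChain_zero subset_rfl).succ ⟨subset_univ _, fun h => ?_⟩
    (fv_isSub_univ hm 0)
  obtain ⟨y, hy⟩ := fv_exists_pt hm 0 2
  have e : y = x := h (mem_univ y)
  refine hy fun v hv => ?_
  rw [e] at hv
  obtain ⟨t, -, rfl⟩ := (fv_rep h1).exists_smul hv
  rw [eval_X]
  exact mul_zero _

lemma fv_chain_succ {m : ℕ} (hm : (m : k) ≠ 0) {n r : ℕ}
    (h : HasChain (univ : Set (fermat k m n)) r) :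
    HasChain (univ : Set (fermat k m (n + 1))) (r + 1) := by
  let F : Vars (fun _ : Unit => n + 1 + 2) → MvPolynomial (Vars fun _ : Unit => n + 2) k :=
    fun a => (Fin.snoc (fun s : Fin (n + 3) => X ⟨(), s⟩) 0 :
      Fin (n + 4) → MvPolynomial (Vars fun _ : Unit => n + 2) k) a.2
  have F1 : ∀ s : Fin (n + 3), F ⟨(), s.castSucc⟩ = X ⟨(), s⟩ := fun s => Fin.snoc_castSucc ..
  have F2 : F ⟨(), Fin.last (n + 3)⟩ = 0 := Fin.snoc_last ..
  obtain ⟨j, hj, hr⟩ := fv_exists_mor (S := fermat k m n) (T := fermat k m (n + 1)) F 1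
    (fun a t v => by
      obtain ⟨⟨⟩, s⟩ := a
      refine Fin.lastCases (motive := fun s : Fin (n + 4) =>
        eval (fun b => t * v b) (F ⟨(), s⟩) = t ^ 1 * eval v (F ⟨(), s⟩)) ?_ (fun s => ?_) s
      · rw [F2, map_zero, map_zero, mul_zero]
      · rw [F1, eval_X, eval_X, pow_one])
    (fun x hx => by
      have h0 : ∀ i : Unit, (fun s => eval x.rep (F ⟨i, s⟩)) ≠ 0 := fun _ e =>
        (x ()).rep_nonzero (funext fun s => by
          have := congrFun e (Fin.castSucc s)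
          rwa [F1, eval_X] at this)
      refine ⟨_, isRep_rep x, _, (fv_mem (amb_isRep (fun a => eval x.rep (F a)) h0)).2 ?_,
        amb_isRep _ h0⟩
      rw [Fin.sum_univ_castSucc]
      simp only [F1, F2, eval_X, map_zero, zero_pow (fv_pos hm).ne', add_zero]
      exact hx)
  have hc : ∀ C, IsClosed C → j ⁻¹' closure (j '' C) ⊆ C := by
    intro C hC x hx
    rw [← hC.closure_eq]
    refine closure_subtype.2 (mem_closure_vI.2 fun f hf v hv => ?_)
    let g : MvPolynomial (Vars fun _ : Unit => n + 1 + 2) k :=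
      rename (fun a => ⟨(), Fin.castSucc a.2⟩) f
    have hg : ∀ w : (Vars fun _ : Unit => n + 2) → k, eval (fun a => eval w (F a)) g = eval w f := by
      intro w
      rw [eval_rename]
      congr 2
      funext a
      exact (congrArg (eval w) (F1 a.2)).trans (eval_X _)
    have h1 := mem_closure_vI.1 (closure_subtype.1 hx) g (by
      rintro _ ⟨_, ⟨y, hy, rfl⟩, rfl⟩
      rw [vanish_iff_orb (hr y _ (isRep_rep y.1))]
      have h2 := (vanish_iff_orb (isRep_rep y.1) f).1 (hf _ ⟨y, hy, rfl⟩)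
      refine MvPolynomial.funext fun t => ?_
      have h3 := eval_orb y.1.rep t f
      rw [h2] at h3
      rw [eval_orb, h3, eval_rename]
      congr 2
      funext a
      exact congrArg (t () * ·) ((congrArg (eval y.1.rep) (F1 a.2)).trans (eval_X _)))
    rw [← hg]
    exact h1 _ (hr x v hv)
  refine (fv_chain_push hj.continuous hc h).succ ⟨subset_univ _, fun h1 => ?_⟩
    (fv_isSub_univ hm (n + 1))
  obtain ⟨y, hy⟩ := fv_exists_pt hm (n + 1) (Fin.last (n + 3))
  have h2 : closure (range j) ⊆ Subtype.val ⁻¹' {x | Vanish (X ⟨(), Fin.last (n + 3)⟩) x} := by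
    refine closure_minimal ?_ ((isClosed_vanish _).preimage continuous_subtype_val)
    rintro _ ⟨x, rfl⟩ v hv
    obtain ⟨t, -, rfl⟩ := (hr x _ (isRep_rep x.1)).exists_smul hv
    rw [eval_X, F2, map_zero, mul_zero]
  exact hy (h2 (h1 (mem_univ y)))

lemma fv_chain {m : ℕ} (hm : (m : k) ≠ 0) (n : ℕ) :
    HasChain (univ : Set (fermat k m n)) (n + 1) := by
  induction n with
  | zero => exact fv_chain_zero hm
  | succ n ih => exact fv_chain_succ hm ih

omit [IsAlgClosed k] in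
lemma fv_tangent {m : ℕ} (hm : (m : k) ≠ 0) {n : ℕ} {x : MP k fun _ : Unit => n + 2}
    {v : (Vars fun _ : Unit => n + 2) → k} (hv : IsRep v x) :
    Module.finrank k (tangent (fermat k m n) v) ≤ n + 2 := by
  classical
  let L := Fintype.linearCombination k fun s => eval v (pderiv s (fvG k m n))
  have h1 : tangent (fermat k m n) v ≤ LinearMap.ker L :=
    iInf₂_le_of_le (fvG k m n) (fun y hy => (fv_eq m n).subset hy) le_rfl
  have h2 : L ≠ 0 := by
    obtain ⟨s, hs⟩ := Function.ne_iff.1 (hv ()).1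
    have hs' : v ⟨(), s⟩ ≠ 0 := hs
    intro e
    have h3 := LinearMap.congr_fun e (Pi.single ⟨(), s⟩ 1)
    rw [Fintype.linearCombination_apply_single, one_smul, fvG, map_sum, map_sum,
      Finset.sum_eq_single s] at h3
    · simp [Derivation.leibniz_pow, hm, hs'] at h3
    · intro t _ ht
      have : (⟨(), t⟩ : Vars fun _ : Unit => n + 2) ≠ ⟨(), s⟩ := fun e =>
        ht ((fvE (n + 2)).injective e)
      simp [Derivation.leibniz_pow, pderiv_X, this]
    · exact fun h => absurd (Finset.mem_univ s) h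
  have h3 := Module.Dual.finrank_ker_add_one_of_ne_zero h2
  rw [Module.finrank_fintype_fun_eq_card, amb_card] at h3
  simp only [Finset.univ_unique, Finset.sum_singleton, Fintype.card_unique] at h3
  have h4 := Submodule.finrank_mono h1
  omega

omit [IsAlgClosed k] in
lemma fv_rep3 {x y z : k} (h : ![x, y, z] ≠ 0) :
    IsRep (fun a : Vars fun _ : Unit => 2 => (![x, y, z] : Fin 3 → k) a.2) fun _ => pt3 x y z :=
  fun _ => ⟨h, (pt3_eq h).symm⟩

omit [IsAlgClosed k] in
lemma fv_trace (q r : ℕ) [IsQ k q] (y : k) :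
    (∑ i ∈ Finset.range r, y ^ q ^ i) ^ q - ∑ i ∈ Finset.range r, y ^ q ^ i = y ^ q ^ r - y := by
  have h := map_sum (frobHom k q) (fun i => y ^ q ^ i) (Finset.range r)
  simp only [frobHom_apply, ← pow_mul, ← pow_succ] at h
  rw [h, ← Finset.sum_sub_distrib, Finset.sum_range_sub (fun i => y ^ q ^ i), pow_zero, pow_one]

lemma fv_trace_surj (q : ℕ) [h : IsQ k q] {r : ℕ} (hr : r ≠ 0) (y : k) :
    ∃ b : k, ∑ i ∈ Finset.range r, b ^ q ^ i = y := by
  obtain ⟨r, rfl⟩ := Nat.exists_eq_succ_of_ne_zero hr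
  let p : Polynomial k := ∑ i ∈ Finset.range (r + 1), Polynomial.X ^ q ^ i - Polynomial.C y
  have hd : Polynomial.derivative p = 1 := by
    simp [p, Finset.sum_range_succ', Polynomial.derivative_X_pow, h.cast]
  obtain ⟨b, hb⟩ := IsAlgClosed.exists_root p fun e => by
    rw [Polynomial.eq_C_of_degree_eq_zero e, Polynomial.derivative_C] at hd
    exact zero_ne_one hd
  refine ⟨b, ?_⟩
  simpa [p, Polynomial.eval_finsetSum, sub_eq_zero] using hb

end aux

variable {k : Type u} [Field k] [IsAlgClosed k] {K : Type v} [Field K] [CharZero K]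

theorem isSub_fermat {m : ℕ} (hm : (m : k) ≠ 0) (n : ℕ) : IsSub (fermat k m n) := fv_isSub hm n

theorem dim_fermat {m : ℕ} (hm : (m : k) ≠ 0) (n : ℕ) :
    dim (univ : Set (fermat k m n)) = n + 1 :=
  le_antisymm (fv_dim_le hm n) (fv_chain hm n).le_dim

/-- The Fermat hypersurface as a variety. -/
noncomputable def Fv (k : Type u) [Field k] [IsAlgClosed k] (m n : ℕ) (hm : (m : k) ≠ 0) :
    Var k where
  ι := Unit
  n := fun _ => n + 2
  pts := fermat k m n
  sub := isSub_fermat hm n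
  smooth := fun _ _ _ hv => (fv_tangent hm hv).trans (by
    rw [dim_fermat hm n, Fintype.card_unique])

theorem d_Fv {m : ℕ} (hm : (m : k) ≠ 0) (n : ℕ) : (Fv k m n hm).d = n + 1 := dim_fermat hm n

theorem exists_dom_fermat {m m' : ℕ} (hm : (m : k) ≠ 0) (hm' : (m' : k) ≠ 0) (h : m ∣ m') (n : ℕ) :
    ∃ φ : Mor (Fv k m' n hm') (Fv k m n hm), Function.Surjective φ.1 := by
  obtain ⟨c, rfl⟩ := h
  have hc : 0 < c := Nat.pos_of_ne_zero fun e => hm' (by rw [e, mul_zero, Nat.cast_zero])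
  obtain ⟨φ, h1, h2⟩ := fv_exists_mor (S := fermat k (m * c) n) (T := fermat k m n)
    (fun a => MvPolynomial.X a ^ c) c (fun a t v => by simp [mul_pow]) fun x hx => by
      have h0 : ∀ i : Unit, (fun s => MvPolynomial.eval x.rep
          (MvPolynomial.X (⟨i, s⟩ : Vars fun _ : Unit => n + 2) ^ c)) ≠ 0 := fun _ e =>
        (x ()).rep_nonzero (funext fun s => by
          have := congrFun e s
          rw [map_pow, MvPolynomial.eval_X] at this
          exact pow_eq_zero_iff hc.ne' |>.1 this)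
      refine ⟨_, isRep_rep x, _, (fv_mem (amb_isRep
        (fun a => MvPolynomial.eval x.rep (MvPolynomial.X a ^ c)) h0)).2 ?_, amb_isRep _ h0⟩
      simp only [map_pow, MvPolynomial.eval_X, ← pow_mul, mul_comm c]
      exact hx
  refine ⟨⟨φ, h1⟩, fun y => ?_⟩
  choose w hw using fun a => IsAlgClosed.exists_pow_nat_eq (MP.rep y.1 a) hc
  have h0 : ∀ i : Unit, (fun s => w ⟨i, s⟩) ≠ 0 := fun _ e =>
    (y.1 ()).rep_nonzero (funext fun s => by
      have h3 : w ⟨(), s⟩ = 0 := congrFun e s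
      have h4 := hw ⟨(), s⟩
      rw [h3, zero_pow hc.ne'] at h4
      exact h4.symm)
  have h3 : ambPt w h0 ∈ fermat k (m * c) n := by
    refine (fv_mem (amb_isRep w h0)).2 ?_
    simp only [mul_comm m, pow_mul, hw]
    exact y.2
  refine ⟨⟨_, h3⟩, Subtype.ext ((h2 ⟨_, h3⟩ w (amb_isRep w h0)).unique ?_)⟩
  simp only [map_pow, MvPolynomial.eval_X, hw]
  exact isRep_rep y.1

theorem exists_dom_dh (q r : ℕ) [IsQ k q] [IsQ k (q ^ r)] :
    ∃ φ : Mor (Cv k (q ^ r) false) (Cv k q false), Function.Surjective φ.1 := by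
  have hq := IsQ.one_lt (k := k) (q := q)
  have hr : r ≠ 0 := fun e => by
    have := IsQ.one_lt (k := k) (q := q ^ r)
    rw [e, pow_zero] at this
    exact lt_irrefl _ this
  obtain ⟨N, hN⟩ : ∃ N, N = ∑ i ∈ Finset.range r, q ^ i := ⟨_, rfl⟩
  have hle : ∀ i ∈ Finset.range r, q ^ i ≤ N := fun i hi =>
    hN ▸ Finset.single_le_sum (f := fun i => q ^ i) (fun _ _ => Nat.zero_le _) hi
  have hN0 : 0 < N := lt_of_lt_of_le (by simp) (hle 0 (Finset.mem_range.2 (Nat.pos_of_ne_zero hr)))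
  have hNq : N * (q - 1) = q ^ r - 1 := by
    have := geom_sum_mul_add (q - 1) r
    rw [Nat.sub_add_cancel hq.le, ← hN] at this
    omega
  let F : Vars (fun _ : Unit => 2) → MvPolynomial (Vars fun _ : Unit => 2) k := fun a =>
    (![MvPolynomial.X ⟨(), 0⟩ ^ N,
      ∑ i ∈ Finset.range r, MvPolynomial.X ⟨(), 1⟩ ^ q ^ i * MvPolynomial.X ⟨(), 2⟩ ^ (N - q ^ i),
      MvPolynomial.X ⟨(), 2⟩ ^ N] : Fin 3 → MvPolynomial (Vars fun _ : Unit => 2) k) a.2
  have hF : ∀ v : Vars (fun _ : Unit => 2) → k, (fun a => MvPolynomial.eval v (F a)) = fun a =>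
      (![v ⟨(), 0⟩ ^ N, ∑ i ∈ Finset.range r, v ⟨(), 1⟩ ^ q ^ i * v ⟨(), 2⟩ ^ (N - q ^ i),
        v ⟨(), 2⟩ ^ N] : Fin 3 → k) a.2 := by
    intro v
    funext a
    obtain ⟨⟨⟩, s⟩ := a
    fin_cases s <;> simp [F]
  have haff : ∀ x y : k, IsRep (fun a => MvPolynomial.eval
      (fun a : Vars fun _ : Unit => 2 => (![x, y, 1] : Fin 3 → k) a.2) (F a))
      fun _ => pt3 (x ^ N) (∑ i ∈ Finset.range r, y ^ q ^ i) 1 := by
    intro x y
    rw [hF]
    simpa using fv_rep3 (aff_ne_zero (x ^ N) (∑ i ∈ Finset.range r, y ^ q ^ i))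
  have hinf : IsRep (fun a => MvPolynomial.eval
      (fun a : Vars fun _ : Unit => 2 => (![1, 0, 0] : Fin 3 → k) a.2) (F a))
      fun _ => pt3 1 0 0 := by
    rw [hF]
    simpa [hN0.ne', show q ≠ 0 by omega] using fv_rep3 (x := (1 : k)) (y := 0) (z := 0) (by simp)
  have hiff : ∀ x y : k, pt3 (x ^ N) (∑ i ∈ Finset.range r, y ^ q ^ i) 1 ∈ curve k q false ↔
      pt3 x y 1 ∈ curve k (q ^ r) false := fun x y => by
    rw [aff_mem_dh, aff_mem_dh, fv_trace, ← pow_mul, hNq]
  obtain ⟨φ, h1, h2⟩ := fv_exists_mor (S := curves k (q ^ r) fun _ : Unit => false)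
    (T := curves k q fun _ : Unit => false) F N (fun a t v => by
      rw [congrFun (hF _) a, congrFun (hF _) a]
      obtain ⟨⟨⟩, s⟩ := a
      fin_cases s
      · exact mul_pow _ _ _
      · change ∑ i ∈ Finset.range r, _ = t ^ N * ∑ i ∈ Finset.range r, _
        rw [Finset.mul_sum]
        refine Finset.sum_congr rfl fun i hi => ?_
        rw [mul_pow, mul_pow, mul_mul_mul_comm, ← pow_add, Nat.add_sub_cancel' (hle i hi)]
      · exact mul_pow _ _ _) fun x hx => by
      by_cases hf : IsFin (x ())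
      · have e : x = fun _ => pt3 (ax (x ())) (ay (x ())) 1 := funext fun _ => hf.eq_aff.symm
        have h3 := fv_rep3 (aff_ne_zero (ax (x ())) (ay (x ())))
        rw [← e] at h3
        refine ⟨_, h3, _, fun _ => ?_, haff _ _⟩
        rw [hiff, hf.eq_aff]
        exact hx ()
      · have e : x = fun _ => pt3 1 0 0 := funext fun _ => eq_inf_of_dh (hx ()) hf
        exact ⟨_, e ▸ fv_rep3 (by simp), _, fun _ => inf_mem_dh, hinf⟩
  refine ⟨⟨φ, h1⟩, fun y => ?_⟩
  by_cases hf : IsFin (co y ())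
  · obtain ⟨a, ha⟩ := IsAlgClosed.exists_pow_nat_eq (ax (co y ())) hN0
    obtain ⟨b, hb⟩ := fv_trace_surj q hr (ay (co y ()))
    have e : pt3 (a ^ N) (∑ i ∈ Finset.range r, b ^ q ^ i) 1 = co y () := by
      rw [ha, hb, hf.eq_aff]
    have h3 : pt3 a b 1 ∈ curve k (q ^ r) false := (hiff a b).1 (e ▸ co_mem y ())
    refine ⟨⟨fun _ => pt3 a b 1, fun _ => h3⟩, Subtype.ext
      (((h2 ⟨fun _ => pt3 a b 1, fun _ => h3⟩ _ (fv_rep3 (aff_ne_zero a b))).unique
        (haff a b)).trans (funext fun _ => e))⟩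
  · refine ⟨⟨fun _ => pt3 1 0 0, fun _ => inf_mem_dh⟩, Subtype.ext
      (((h2 ⟨fun _ => pt3 1 0 0, fun _ => inf_mem_dh⟩ _ (fv_rep3 (by simp))).unique
        hinf).trans (funext fun _ => (eq_inf_of_dh (co_mem y ()) hf).symm))⟩

end Pool.Agent.MP_0c8446_ag
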