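import Pool.Agent.MP_0c8446_ag.Main
import Pool.Agent.MP_0c8446_ag.BaseChange
import Pool.Agent.MP_0c8446_ag.FGen1
import Pool.Agent.MP_0c8446_ag.FGen3

namespace Pool.Agent.MP_0c8446_ag

open Set

universe u v w

variable {k : Type u} [Field k] [IsAlgClosed k] {K : Type v} [Field K] [CharZero K]

theorem Weil.gen_Fq1 [IsAlgClosed K] (W : Weil.{u, v, w} k K) (q : ℕ) [IsQ k q] (n : ℕ) :
    W.Gen q (Fq1 k q n) := by
  obtain ⟨g, h1, hm, hg⟩ := exists_fact (k := k) (q := q) n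
  refine W.gen_of_eig g h1 hm fun χ i j a ha a' ha' h2 h3 h => ?_
  by_cases hχ : χ = 1
  · subst hχ
    exact W.fgen_one g hg ha ha' (fun t => by simpa using h3 t) h
  · exact W.fgen_ne_one' g h1 hm hg hχ ha ha' h2 h3 h

theorem Weil.gen_of_fermatType [IsAlgClosed K] (W : Weil.{u, v, w} k K) {p : ℕ} [hp : Fact p.Prime]
    [CharP k p] {X : Var k} (h : FermatType k p X) :
    ∃ f, 0 < f ∧ ∀ (q : ℕ) [IsQ k q] (r : ℕ), q = p ^ (f * r) → W.Gen q X := by
  induction h with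
  | @ofFermat X m n φ hm hφ hs =>
    have hm0 : 0 < m := Nat.pos_of_ne_zero fun e => hm (by simp [e])
    have hc : p.Coprime m := (Nat.Prime.coprime_iff_not_dvd hp.out).2 fun e =>
      hm ((CharP.cast_eq_zero_iff k p m).2 e)
    refine ⟨m.totient, Nat.totient_pos.2 hm0, fun q _ r hq => ?_⟩
    have hd : m ∣ q - 1 := by
      have h1 : 1 ≡ q [MOD m] := by
        rw [hq, pow_mul]
        simpa using ((Nat.ModEq.pow_totient hc).pow r).symm
      exact (Nat.modEq_iff_dvd' (IsQ.one_lt (k := k)).le).1 h1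
    obtain ⟨ψ, hψ⟩ := exists_dom_fermat hm (predQ_ne k q) hd n
    exact W.gen_image (Y := Fv k m n hm) ⟨φ, hφ⟩ hs (W.gen_image ψ hψ (W.gen_Fq1 q n))
  | @ofCurve X f φ hf hφ hs =>
    refine ⟨f, hf, fun q _ r hq => ?_⟩
    have := isQ_prime k p
    have := isQ_pow k p hf
    rw [pow_mul] at hq
    subst hq
    obtain ⟨ψ, hψ⟩ := exists_dom_dh (k := k) (p ^ f) r
    let e : (Cv k (p ^ f) false).pts → artinSchreier k (p ^ f) := fun x => ⟨x.1, x.2 ()⟩
    have he : IsMor e := fun x => isMor_id (S := (Cv k (p ^ f) false).pts) x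
    have hs' : Function.Surjective e := fun y => ⟨⟨y.1, fun _ => y.2⟩, rfl⟩
    exact W.gen_image (Y := Cv k (p ^ f) false) ⟨φ ∘ e, hφ.comp he⟩ (hs.comp hs')
      (W.gen_image ψ hψ (W.gen_Yv _))
  | prod a b h _ _ h1 h2 =>
    obtain ⟨f, hf, h1⟩ := h1
    obtain ⟨f', hf', h2⟩ := h2
    exact ⟨f * f', mul_pos hf hf', fun q _ r hq => W.gen_prod h
      (h1 q (f' * r) (by rw [hq, mul_assoc])) (h2 q (f * r) (by rw [hq]; ring))⟩
  | image φ hs _ h1 =>
    obtain ⟨f, hf, h1⟩ := h1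
    exact ⟨f, hf, fun q _ r hq => W.gen_image φ hs (h1 q r hq)⟩

theorem final_D {p : ℕ} [Fact p.Prime] [CharP k p] (hk : ∀ x : k, ∃ r, 0 < r ∧ x ^ p ^ r = x)
    (W : Weil.{u, v, w} k K) {X : Var k} (hX : FermatType k p X) {a : W.H X} (ha : a ∈ W.Alg X)
    (h : ∀ Z, IsSub Z → W.tr X (W.cl X Z * a) = 0) : a = 0 := by
  have := isQ_prime k p
  obtain ⟨W', j, hj, h1, h2, h3⟩ := W.baseChange (AlgebraicClosure K)
  obtain ⟨f, hf, hg⟩ := W'.gen_of_fermatType hX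
  have := isQ_pow k p hf
  have hk' : ∀ x : k, ∃ r, 0 < r ∧ x ^ (p ^ f) ^ r = x := fun x => by
    obtain ⟨r, hr, hx⟩ := hk x
    refine ⟨r, hr, ?_⟩
    rw [← pow_mul, mul_comm, pow_mul]
    exact main_iter hx f
  refine hj _ ((W'.eq_zero_of_gen (hg (p ^ f) 1 (by rw [mul_one]))
    (fun ι _ τ b hb h => W'.eq_zero_Yv hf rfl hk' hb h) ?_ fun z hz => ?_).trans (map_zero _).symm)
  · clear h
    induction ha using Submodule.span_induction with
    | mem x hx => obtain ⟨Z, hZ, rfl⟩ := hx; exact h1 _ Z ▸ W'.cl_mem_Alg hZ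
    | zero => simp
    | add x y _ _ hx hy => rw [map_add]; exact add_mem hx hy
    | smul c x _ hx => rw [h3]; exact Submodule.smul_mem _ _ hx
  · by_contra hne
    rw [← W'.Alg_comm hz] at hne
    obtain ⟨Z, hZ, h4⟩ := W'.exists_cl_of_Alg hz hne
    rw [h1, ← map_mul, h2, h Z hZ, map_zero] at h4
    exact h4 rfl

theorem final_D' {p : ℕ} [Fact p.Prime] [CharP k p] (hk : ∀ x : k, ∃ r, 0 < r ∧ x ^ p ^ r = x)
    (W : Weil.{u, v, w} k K) {X : Var k} (hX : W.Motivated p X) {a : W.H X} (ha : a ∈ W.Alg X)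
    (h : ∀ Z, IsSub Z → W.tr X (W.cl X Z * a) = 0) : a = 0 := by
  by_contra h0
  obtain ⟨Y, T, f, g, Z, b, hY, hZ, hne⟩ := hX a h0
  have hZ' := W.cl_mem_Alg hZ
  obtain ⟨a', ha', h1⟩ := W.exists_push g (W.mul_mem_Alg hZ' (W.pull_mem_Alg f ha))
  have h2 : a' = 0 := final_D hk W hY ha' fun C hC => by
    have hC' := W.pull_mem_Alg g (W.cl_mem_Alg hC)
    obtain ⟨z, hz, h3⟩ := W.exists_push f (W.mul_mem_Alg hZ' hC')
    rw [W.cl_comm hC, ← h1, mul_assoc, ← W.Alg_comm hC', ← mul_assoc, h3]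
    by_contra h4
    obtain ⟨D, hD, h5⟩ := W.exists_cl_of_Alg hz h4
    exact h5 (h D hD)
  rw [← mul_assoc, h1, h2, zero_mul, map_zero] at hne
  exact hne rfl

end Pool.Agent.MP_0c8446_ag
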