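import Pool.Agent.MP_0c8446_ag.WDefs

namespace Pool.Agent.MP_0c8446_ag

open Set

universe u v w

variable {k : Type u} [Field k] [Infinite k] {K : Type v} [Field K]

omit [Infinite k] in
lemma IsProd.exists_fiber {P X Y : Var k} {p : Mor P X} {q : Mor P Y} (h : IsProd p q)
    (x : X.pts) (y : Y.pts) : ∃ z, p.1 ⁻¹' {x} ∩ q.1 ⁻¹' {y} = {z} := by
  obtain ⟨g, ⟨h1, h2⟩, hu⟩ := h X (Mor.const X x) (Mor.const X y)
  refine ⟨g.1 x, Subset.antisymm ?_ ?_⟩
  · rintro z ⟨hz1, hz2⟩
    have := hu (Mor.const X z) ⟨funext fun _ => hz1, funext fun _ => hz2⟩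
    rw [← this]
    rfl
  · rintro _ rfl
    exact ⟨congrFun h1 x, congrFun h2 x⟩

namespace Weil

variable (W : Weil.{u, v, w} k K)

omit [Infinite k] in
lemma tr_eq_zero_of_forall {X : Var k} {a : W.H X}
    (h : ∀ j, ∀ b ∈ W.gr X j, W.tr X (a * b) = 0) (b : W.H X) : W.tr X (a * b) = 0 := by
  induction b using DirectSum.Decomposition.inductionOn (W.gr X) with
  | zero => simp
  | homogeneous b => exact h _ _ b.2
  | add b c hb hc => rw [mul_add, map_add, hb, hc, add_zero]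

omit [Infinite k] in
lemma eq_zero_of_gr {X : Var k} {a : W.H X} (h : ∀ j, ∀ b ∈ W.gr X j, W.tr X (a * b) = 0) :
    a = 0 := W.poincare X a (W.tr_eq_zero_of_forall h)

omit [Infinite k] in
lemma tr_mul_gr {X : Var k} {a b : W.H X} {i j : ℕ} (ha : a ∈ W.gr X i) (hb : b ∈ W.gr X j)
    (h : i + j ≠ 2 * X.d) : W.tr X (a * b) = 0 :=
  W.tr_gr X _ _ (SetLike.mul_mem_graded ha hb) h

omit [Infinite k] in
lemma gr_eq_zero {X : Var k} {a : W.H X} {i : ℕ} (ha : a ∈ W.gr X i) (h : 2 * X.d < i) : a = 0 :=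
  W.eq_zero_of_gr fun j b hb => W.tr_mul_gr ha hb (by omega)

lemma tr_cl_mul_gr {X : Var k} {Z : Set X.pts} (hZ : IsSub Z) {b : W.H X} {j : ℕ}
    (hb : b ∈ W.gr X j) (h : j ≠ 2 * dim Z) : W.tr X (W.cl X Z * b) = 0 := by
  have := X.dim_le Z
  exact W.tr_mul_gr (W.cl_gr X Z hZ) hb (by omega)

omit [Infinite k] in
lemma cl_pt_gr {X : Var k} (x : X.pts) : W.cl X {x} ∈ W.gr X (2 * X.d) := by
  simpa [dim_singleton] using W.cl_gr X {x} (isSub_singleton x)

omit [Infinite k] in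
lemma eq_zero_of_top {X : Var k} {a : W.H X} (ha : a ∈ W.gr X (2 * X.d)) (h : W.tr X a = 0) :
    a = 0 := by
  refine W.eq_zero_of_gr fun j b hb => ?_
  by_cases hj : j = 0
  · subst hj
    rw [W.zero, Submodule.mem_span_singleton] at hb
    obtain ⟨c, rfl⟩ := hb
    simp [h]
  · exact W.tr_mul_gr ha hb (by omega)

omit [Infinite k] in
lemma eq_smul_pt {X : Var k} {a : W.H X} (ha : a ∈ W.gr X (2 * X.d)) (x : X.pts) :
    a = W.tr X a • W.cl X {x} := by
  refine sub_eq_zero.1 (W.eq_zero_of_top (sub_mem ha (Submodule.smul_mem _ _ (W.cl_pt_gr x))) ?_)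
  simp [W.tr_pt]

omit [Infinite k] in
lemma even_comm {X : Var k} {a : W.H X} {i : ℕ} (ha : a ∈ W.gr X (2 * i)) (b : W.H X) :
    a * b = b * a := by
  induction b using DirectSum.Decomposition.inductionOn (W.gr X) with
  | zero => simp
  | @homogeneous j b => rw [W.comm X _ _ a ha b b.2, mul_assoc, pow_mul]; simp
  | add b c hb hc => rw [mul_add, add_mul, hb, hc]

omit [Infinite k] in
lemma cl_comm {X : Var k} {Z : Set X.pts} (hZ : IsSub Z) (b : W.H X) :
    W.cl X Z * b = b * W.cl X Z := W.even_comm (W.cl_gr X Z hZ) b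

omit [Infinite k] in
lemma Alg_comm {X : Var k} {a : W.H X} (ha : a ∈ W.Alg X) (b : W.H X) : a * b = b * a := by
  induction ha using Submodule.span_induction with
  | mem x hx => obtain ⟨Z, hZ, rfl⟩ := hx; exact W.cl_comm hZ b
  | zero => simp
  | add x y _ _ hx hy => rw [mul_add, add_mul, hx, hy]
  | smul c x _ hx => rw [smul_mul_assoc, hx, mul_smul_comm]

omit [Infinite k] in
lemma tr_prod_pt {P X Y : Var k} {p : Mor P X} {q : Mor P Y} (h : IsProd p q) (x : X.pts)
    (y : Y.pts) : W.tr P (W.pull p (W.cl X {x}) * W.pull q (W.cl Y {y})) = 1 := by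
  obtain ⟨z, hz⟩ := h.exists_fiber x y
  rw [← W.cl_prod p q h _ _ (isSub_singleton x) (isSub_singleton y), hz, W.tr_pt]

include W in
omit [Infinite k] in
lemma d_prod {P X Y : Var k} {p : Mor P X} {q : Mor P Y} (h : IsProd p q) : P.d = X.d + Y.d := by
  obtain ⟨x⟩ : Nonempty X.pts := inferInstance
  obtain ⟨y⟩ : Nonempty Y.pts := inferInstance
  by_contra hne
  have := W.tr_mul_gr (W.pull_gr p _ _ (W.cl_pt_gr x)) (W.pull_gr q _ _ (W.cl_pt_gr y)) (by omega)
  rw [W.tr_prod_pt h] at this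
  exact one_ne_zero this

omit [Infinite k] in
lemma tr_prod {P X Y : Var k} {p : Mor P X} {q : Mor P Y} (h : IsProd p q) (a : W.H X)
    (b : W.H Y) : W.tr P (W.pull p a * W.pull q b) = W.tr X a * W.tr Y b := by
  obtain ⟨x⟩ : Nonempty X.pts := inferInstance
  obtain ⟨y⟩ : Nonempty Y.pts := inferInstance
  have hd := W.d_prod h
  induction a using DirectSum.Decomposition.inductionOn (W.gr X) with
  | zero => simp
  | add a c ha hc => simp only [map_add, add_mul, ha, hc]
  | @homogeneous i a =>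
    induction b using DirectSum.Decomposition.inductionOn (W.gr Y) with
    | zero => simp
    | add b c hb hc => simp only [map_add, mul_add, hb, hc]
    | @homogeneous j b =>
      obtain ⟨a, ha⟩ := a
      obtain ⟨b, hb⟩ := b
      simp only
      rcases lt_or_ge (2 * X.d) i with hi | hi
      · simp [W.gr_eq_zero ha hi]
      rcases lt_or_ge (2 * Y.d) j with hj | hj
      · simp [W.gr_eq_zero hb hj]
      by_cases hij : i + j = 2 * P.d
      · obtain rfl : i = 2 * X.d := by omega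
        obtain rfl : j = 2 * Y.d := by omega
        conv_lhs => rw [W.eq_smul_pt ha x, W.eq_smul_pt hb y]
        simp [W.tr_prod_pt h, mul_comm]
      · rw [W.tr_mul_gr (W.pull_gr p _ _ ha) (W.pull_gr q _ _ hb) hij]
        by_cases hi' : i = 2 * X.d
        · rw [W.tr_gr Y j b hb (by omega), mul_zero]
        · rw [W.tr_gr X i a ha hi', zero_mul]

omit [Infinite k] in
lemma prod_span {P X Y : Var k} {p : Mor P X} {q : Mor P Y} (h : IsProd p q) (S : Submodule K (W.H P))
    (hS : ∀ a b, W.pull p a * W.pull q b ∈ S) : S = ⊤ := by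
  refine eq_top_iff.2 fun c _ => ?_
  obtain ⟨t, rfl⟩ := (W.kunneth p q h).2 c
  induction t using TensorProduct.induction_on with
  | zero => simp
  | tmul a b => simpa using hS a b
  | add s t hs ht => rw [map_add]; exact add_mem (hs trivial) (ht trivial)

omit [Infinite k] in
/-- Push-forward along a morphism with a left inverse. -/
lemma push_retr [CharZero K] {X Y : Var k} (f : Mor X Y) (g : Mor Y X) (h : ∀ x, g.1 (f.1 x) = x)
    {Z : Set X.pts} (hZ : IsSub Z) (b : W.H Y) :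
    W.tr X (W.cl X Z * W.pull f b) = W.tr Y (W.cl Y (f.1 '' Z) * b) := by
  have hr := f.retr g h
  obtain ⟨r, hr0, h1⟩ := W.push f Z hZ
  rw [(hr.isSub hZ).2.closure_eq] at hr0 h1
  have hr1 := hr0 (hr.dim_image Z)
  obtain ⟨s, -, h2⟩ := W.push g _ (hr.isSub hZ)
  have e : g.1 '' (f.1 '' Z) = Z := by rw [image_image]; simp [h]
  rw [e, hZ.2.closure_eq] at h2
  have h3 : ∀ c, W.tr X (W.cl X Z * c) = (r * s : ℕ) * W.tr X (W.cl X Z * c) := fun c => by
    conv_lhs => rw [← W.pull_id (g.comp f) (funext h) c, ← W.pull_pull, h1, h2]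
    push_cast
    ring
  by_cases h4 : ∀ c, W.tr X (W.cl X Z * c) = 0
  · have := h1 b
    rw [h4] at this ⊢
    exact ((mul_eq_zero.1 this.symm).resolve_left (by exact_mod_cast hr1.ne')).symm
  · push Not at h4
    obtain ⟨c, hc⟩ := h4
    have h5 : ((r * s : ℕ) : K) = 1 := mul_right_cancel₀ hc ((h3 c).symm.trans (one_mul _).symm)
    have h6 : r = 1 := Nat.eq_one_of_mul_eq_one_right (by exact_mod_cast h5)
    rw [h1, h6, Nat.cast_one, one_mul]

omit [Infinite k] in
lemma tr_pull_retr [CharZero K] {X Y : Var k} (f : Mor X Y) (g : Mor Y X)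
    (h : ∀ x, g.1 (f.1 x) = x) (b : W.H Y) :
    W.tr X (W.pull f b) = W.tr Y (W.cl Y (range f.1) * b) := by
  rw [← image_univ, ← W.push_retr f g h X.isSub_univ, W.cl_univ, one_mul]

omit [Infinite k] in
lemma tr_pull_aut [CharZero K] {X Y : Var k} (f : Mor X Y) (g : Mor Y X)
    (h : ∀ x, g.1 (f.1 x) = x) (h' : ∀ y, f.1 (g.1 y) = y) (b : W.H Y) :
    W.tr X (W.pull f b) = W.tr Y b := by
  rw [W.tr_pull_retr f g h, range_eq_univ.2 fun y => ⟨_, h' y⟩, W.cl_univ, one_mul]

omit [Infinite k] in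
/-- The degree of a generically finite dominant map. -/
lemma exists_deg {X Y : Var k} (f : Mor X Y) {Z : Set X.pts} (hZ : IsSub Z) (hd : dim Z = Y.d)
    (h : Dense (f.1 '' Z)) : ∃ r : ℕ, 0 < r ∧ ∀ b, W.tr X (W.cl X Z * W.pull f b) = r * W.tr Y b := by
  obtain ⟨r, hr0, h1⟩ := W.push f Z hZ
  rw [h.closure_eq] at hr0 h1
  exact ⟨r, hr0 hd.symm, fun b => by rw [h1, W.cl_univ, one_mul]⟩

omit [Infinite k] in
lemma pull_injective [CharZero K] {X Y : Var k} (f : Mor X Y) {Z : Set X.pts} (hZ : IsSub Z)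
    (hd : dim Z = Y.d) (h : Dense (f.1 '' Z)) : Function.Injective (W.pull f) := by
  obtain ⟨r, hr, h1⟩ := W.exists_deg f hZ hd h
  refine (injective_iff_map_eq_zero _).2 fun a ha => W.poincare Y a fun b => ?_
  have := h1 (a * b)
  rw [map_mul (W.pull f), ha, zero_mul, mul_zero, map_zero] at this
  exact (mul_eq_zero.1 this.symm).resolve_left (by exact_mod_cast hr.ne')

omit [Infinite k] in
/-- Push-forward of an algebraic class, in dual form. -/
lemma exists_Alg_push {X Y : Var k} (f : Mor X Y) {a : W.H X} (ha : a ∈ W.Alg X) {b : W.H Y}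
    (h : W.tr X (a * W.pull f b) ≠ 0) : ∃ a' ∈ W.Alg Y, W.tr Y (a' * b) ≠ 0 := by
  obtain ⟨Z, hZ, h1⟩ := W.exists_cl_of_Alg ha h
  obtain ⟨r, -, h2⟩ := W.push f Z hZ
  rw [h2] at h1
  exact ⟨_, W.cl_mem_Alg (hZ.image_closure f.continuous), right_ne_zero_of_mul h1⟩

end Weil

end Pool.Agent.MP_0c8446_ag
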