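import Pool.Agent.MP_0c8446_ag.ProdApi
import Pool.Agent.MP_0c8446_ag.Yv
import Pool.Agent.MP_0c8446_ag.Defs2

namespace Pool.Agent.MP_0c8446_ag

open Set

universe u v w

variable {k : Type u} [Field k] {K : Type v} [Field K]

/-- The hyperplane `∑ c_s x_s = 0` in the `i`-th factor. -/
def hyp {ι : Type} {n : ι → ℕ} (i : ι) (c : Fin (n i + 1) → k) : Set (MP k n) :=
  {x | ∑ s, c s * (x i).rep s = 0}

variable [IsAlgClosed k]

/-- Classes killed by all algebraic correspondences to products of curves. -/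
def Weil.Ann (W : Weil.{u, v, w} k K) (q : ℕ) [IsQ k q] (X : Var k) : Submodule K (W.H X) where
  carrier := {a | ∀ (ι : Type) [Fintype ι] (τ : ι → Bool) (P : Var k) (p : Mor P X)
    (r : Mor P (Yv k q τ)), IsProd p r → ∀ z ∈ W.Alg P, ∀ b,
      W.tr P (z * (W.pull p a * W.pull r b)) = 0}
  zero_mem' := fun _ _ _ _ _ _ _ _ _ _ => by simp
  add_mem' := fun ha hb ι _ τ P p r h z hz c => by
    rw [map_add, add_mul, mul_add, map_add, ha ι τ P p r h z hz c, hb ι τ P p r h z hz c, add_zero]
  smul_mem' := fun c a ha ι _ τ P p r h z hz b => by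
    rw [map_smul, smul_mul_assoc, mul_smul_comm, map_smul, ha ι τ P p r h z hz b, smul_zero]

/-- The cohomology is generated by correspondences from products of curves. -/
def Weil.Gen (W : Weil.{u, v, w} k K) (q : ℕ) [IsQ k q] (X : Var k) : Prop :=
  ∀ a ∈ W.Ann q X, a = 0

end Pool.Agent.MP_0c8446_ag
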