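import Pool.Agent.MP_0c8446_ag.Yv

namespace Pool.Agent.MP_0c8446_ag

open Set

universe u v w

variable {k : Type u} [Field k] [IsAlgClosed k] {q : ℕ} [IsQ k q] {K : Type v} [Field K]
  {ι : Type} [Fintype ι] {τ : ι → Bool}

lemma geo1_retr [DecidableEq ι] (i : ι)
    (f : Mor (Yv k q fun j : {j // j ≠ i} => τ j) (Yv k q τ))
    (h : ∀ x (j : {j // j ≠ i}), co (f.1 x) j = co x j) :
    Retr f.1 (remap (τ := τ) (τ' := fun j : {j // j ≠ i} => τ j) Subtype.val fun _ => rfl).1 :=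
  f.retr _ fun x => Yv_ext fun j => h x j

lemma geo1_sub [DecidableEq ι] (i : ι)
    (f : Mor (Yv k q fun j : {j // j ≠ i} => τ j) (Yv k q τ))
    (h : ∀ x (j : {j // j ≠ i}), co (f.1 x) j = co x j) : IsSub (range f.1) := by
  rw [← image_univ]
  exact (geo1_retr i f h).isSub (Var.isSub_univ _)

lemma geo1_dim [DecidableEq ι] (W : Weil.{u, v, w} k K) (i : ι)
    (f : Mor (Yv k q fun j : {j // j ≠ i} => τ j) (Yv k q τ))
    (h : ∀ x (j : {j // j ≠ i}), co (f.1 x) j = co x j) :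
    dim (range f.1) + 1 = Fintype.card ι := by
  rw [← image_univ, (geo1_retr i f h).dim_image]
  have h1 := W.d_Yv (q := q) fun j : {j // j ≠ i} => τ j
  rw [Var.d] at h1
  rw [h1, Fintype.card_subtype_compl, Fintype.card_subtype_eq]
  have : 0 < Fintype.card ι := Fintype.card_pos_iff.2 ⟨i⟩
  omega

lemma geo1_const [DecidableEq ι] (i : ι) {P : P2 k} (hP : P ∈ curve k q (τ i)) :
    ∃ f : Mor (Yv k q fun j : {j // j ≠ i} => τ j) (Yv k q τ),
      (∀ x (j : {j // j ≠ i}), co (f.1 x) j = co x j) ∧ range f.1 = {x | co x i = P} := by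
  refine ⟨⟨fun x => mkY (fun j => if h : j = i then P else co x ⟨j, h⟩) fun j => ?_,
    isMor_of_co _ fun j => ?_⟩, fun x j => ?_, ?_⟩
  · by_cases h : j = i
    · rw [dif_pos h, h]; exact hP
    · rw [dif_neg h]; exact co_mem x ⟨j, h⟩
  · by_cases h : j = i
    · exact Or.inl ⟨P, fun x => dif_pos h⟩
    · exact Or.inr ⟨⟨j, h⟩, id, cMap_id rfl, fun x => dif_neg h⟩
  · exact dif_neg j.2
  · ext y
    constructor
    · rintro ⟨x, rfl⟩
      exact dif_pos rfl
    · intro hy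
      refine ⟨(remap (τ := τ) Subtype.val fun _ => rfl).1 y, Yv_ext fun j => ?_⟩
      by_cases h : j = i
      · refine (dif_pos h).trans ?_
        rw [h]; exact hy.symm
      · exact dif_neg h

lemma geo1_diag [DecidableEq ι] {i j : ι} (hij : i ≠ j) (h : τ i = τ j) :
    ∃ f : Mor (Yv k q fun l : {l // l ≠ i} => τ l) (Yv k q τ),
      (∀ x (l : {l // l ≠ i}), co (f.1 x) l = co x l) ∧ range f.1 = {x | co x i = co x j} := by
  refine ⟨remap (fun l => if hl : l = i then ⟨j, hij.symm⟩ else ⟨l, hl⟩) fun l => ?_,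
    fun x l => ?_, ?_⟩
  · by_cases hl : l = i
    · rw [dif_pos hl, hl]; exact h.symm
    · rw [dif_neg hl]
  · rw [co_remap, dif_neg l.2]
  · ext y
    constructor
    · rintro ⟨x, rfl⟩
      show co _ i = co _ j
      rw [co_remap, co_remap, dif_pos rfl, dif_neg hij.symm]
    · intro hy
      refine ⟨(remap (τ := τ) Subtype.val fun _ => rfl).1 y, Yv_ext fun l => ?_⟩
      rw [co_remap, co_remap]
      by_cases hl : l = i
      · rw [dif_pos hl, hl]; exact hy.symm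
      · rw [dif_neg hl]

theorem isSub_co_const (i : ι) {P : P2 k} (hP : P ∈ curve k q (τ i)) :
    IsSub {x : (Yv k q τ).pts | co x i = P} := by
  classical
  obtain ⟨f, h1, h2⟩ := geo1_const i hP
  exact h2 ▸ geo1_sub i f h1

theorem Weil.dim_co_const (W : Weil.{u, v, w} k K) (i : ι) {P : P2 k}
    (hP : P ∈ curve k q (τ i)) :
    dim {x : (Yv k q τ).pts | co x i = P} + 1 = Fintype.card ι := by
  classical
  obtain ⟨f, h1, h2⟩ := geo1_const i hP
  exact h2 ▸ geo1_dim W i f h1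

theorem isSub_co_co {i j : ι} (h : τ i = τ j) :
    IsSub {x : (Yv k q τ).pts | co x i = co x j} := by
  classical
  by_cases hij : i = j
  · subst hij
    simpa using Var.isSub_univ (Yv k q τ)
  · obtain ⟨f, h1, h2⟩ := geo1_diag (k := k) (q := q) hij h
    exact h2 ▸ geo1_sub i f h1

theorem Weil.dim_co_co (W : Weil.{u, v, w} k K) {i j : ι} (hij : i ≠ j) (h : τ i = τ j) :
    dim {x : (Yv k q τ).pts | co x i = co x j} + 1 = Fintype.card ι := by
  classical
  obtain ⟨f, h1, h2⟩ := geo1_diag (k := k) (q := q) hij h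
  exact h2 ▸ geo1_dim W i f h1

theorem infinite_co_of_open {U : Set (Yv k q τ).pts} (hU : IsOpen U) (hne : U.Nonempty) (i : ι) :
    ((fun x => co x i) '' U).Infinite := by
  classical
  intro hf
  obtain ⟨x, hx⟩ := hne
  let g : (Cv k q (τ i)).pts → (Yv k q τ).pts := fun a => cprodUpd i a x
  have hg : Continuous g := cprod_continuous_left i x
  have e : ∀ a, co (g a) i = co a () := fun a => cprod_upd_self i a x
  have inj : Function.Injective fun a : (Cv k q (τ i)).pts => co a () :=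
    fun a b hab => Yv_ext fun _ => hab
  have h1 : (univ ∩ g ⁻¹' U).Finite :=
    (hf.preimage inj.injOn).subset fun a ha => ⟨g a, ha.2, e a⟩
  have h2 : (pr τ i).1 x ∈ g ⁻¹' U := by
    have : g ((pr τ i).1 x) = x := Yv_ext fun j => by
      by_cases h : j = i
      · rw [h, e]; rfl
      · exact cprod_upd_ne h _ _
    rw [mem_preimage, this]
    exact hx
  have h3 := (Var.isSub_univ (Cv k q (τ i))).eq_singleton_of_finite (hU.preimage hg) h1
    (mem_univ _) h2
  refine infinite_curve (k := k) q (τ i) ((finite_singleton (co x i)).subset fun P hP => ?_)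
  have h4 : (mkY (fun _ => P) fun _ => hP : (Cv k q (τ i)).pts) ∈ ({(pr τ i).1 x} : Set _) :=
    h3 ▸ mem_univ _
  exact congrArg (fun y => co y ()) h4

theorem IsSub.infinite_co {Z : Set (Yv k q τ).pts} (hZ : IsSub Z) {i : ι}
    {x y : (Yv k q τ).pts} (hx : x ∈ Z) (hy : y ∈ Z) (h : co x i ≠ co y i) :
    ((fun x => co x i) '' Z).Infinite := by
  intro hf
  obtain ⟨P, -, hP⟩ := hZ.subset_of_finite hf (F := fun P => {x | co x i = P})
    (fun P _ => isClosed_co_const i P) fun z hz => mem_iUnion₂.2 ⟨_, ⟨z, hz, rfl⟩, rfl⟩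
  exact h ((hP hx).trans (hP hy).symm)

theorem exists_sub_of_open (I : Finset ι) {Z U : Set (Yv k q τ).pts} (hZ : IsClosed Z)
    (hU : IsOpen U) (hne : U.Nonempty) (h : ∀ x ∈ U, ∃ z ∈ Z, ∀ i ∈ I, co z i = co x i) :
    ∃ C, IsSub C ∧ C ⊆ Z ∧ I.card ≤ dim C := by
  classical
  induction I using Finset.induction_on generalizing Z U with
  | empty =>
    obtain ⟨x, hx⟩ := hne
    obtain ⟨z, hz, -⟩ := h x hx
    exact ⟨{z}, isSub_singleton z, singleton_subset_iff.2 hz, Nat.zero_le _⟩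
  | @insert i I hi ih =>
    have key : ∀ P ∈ (fun x => co x i) '' U, ∃ D C : Set (Yv k q τ).pts, IsComp D Z ∧ IsSub C ∧
        C ⊆ D ∧ (∀ z ∈ C, co z i = P) ∧ I.card ≤ dim C := by
      rintro _ ⟨x, hx, rfl⟩
      let g : (Yv k q τ).pts → (Yv k q τ).pts := cprodUpd i ((pr τ i).1 x)
      have hg : Continuous g := cprod_continuous_right i _
      have e1 : ∀ y, co (g y) i = co x i := fun y => cprod_upd_self i _ y
      have e2 : ∀ y j, j ≠ i → co (g y) j = co y j := fun y j hj => cprod_upd_ne hj _ y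
      have e3 : g x = x := Yv_ext fun j => by
        by_cases hj : j = i
        · rw [hj, e1]
        · exact e2 x j hj
      obtain ⟨C, h1, h2, h3⟩ := ih (hZ.inter (isClosed_co_const i (co x i))) (hU.preimage hg)
        ⟨x, by rw [mem_preimage, e3]; exact hx⟩ fun y hy => by
          obtain ⟨z, hz, h4⟩ := h _ hy
          refine ⟨z, ⟨hz, (h4 i (Finset.mem_insert_self _ _)).trans (e1 y)⟩, fun j hj => ?_⟩
          exact (h4 j (Finset.mem_insert_of_mem hj)).trans (e2 y j fun e => hi (e ▸ hj))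
      obtain ⟨D, hD, hCD⟩ := exists_isComp h1 (h2.trans inter_subset_left)
      exact ⟨D, C, hD, h1, hCD, fun z hz => (h2 hz).2, h3⟩
    choose! D C h1 h2 h3 h4 h5 using key
    obtain ⟨P, hP, Q, hQ, hne', e⟩ := (infinite_co_of_open hU hne i).exists_ne_map_eq_of_mapsTo
      (f := D) (t := {C | IsComp C Z}) (fun P hP => h1 P hP) (finite_isComp hZ)
    refine ⟨D P, (h1 P hP).1.1, (h1 P hP).1.2, ?_⟩
    have h6 : C P ⊂ D P := ⟨h3 P hP, fun h7 => by
      obtain ⟨z, hz⟩ := (h2 Q hQ).1.1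
      exact hne' ((h4 P hP z (h7 (e ▸ h3 Q hQ hz))).symm.trans (h4 Q hQ z hz))⟩
    have h7 := dim_lt (h2 P hP) (h1 P hP).1.1 h6
    have h8 := h5 P hP
    rw [Finset.card_insert_of_notMem hi]
    omega

theorem isSub_prod {ι₁ ι₂ : Type} [Fintype ι₁] [Fintype ι₂] {τ₁ : ι₁ → Bool} {τ₂ : ι₂ → Bool}
    {Z₁ : Set (Yv k q τ₁).pts} {Z₂ : Set (Yv k q τ₂).pts} (h₁ : IsSub Z₁) (h₂ : IsSub Z₂) :
    IsSub ((pL τ₁ τ₂).1 ⁻¹' Z₁ ∩ (pR τ₁ τ₂).1 ⁻¹' Z₂) := by
  refine ⟨?_, (h₁.2.preimage (pL τ₁ τ₂).continuous).inter (h₂.2.preimage (pR τ₁ τ₂).continuous)⟩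
  have e : (pL τ₁ τ₂).1 ⁻¹' Z₁ ∩ (pR τ₁ τ₂).1 ⁻¹' Z₂ = image2 mkP Z₁ Z₂ := by
    ext x
    constructor
    · exact fun hx => ⟨_, hx.1, _, hx.2, sum_ext rfl rfl⟩
    · rintro ⟨a, ha, b, hb, rfl⟩
      exact ⟨ha, hb⟩
  rw [e]
  refine isIrreducible_image2 (fun a => ?_) (fun b => ?_) h₁.1 h₂.1
  · exact (pair (Mor.const _ a) (Mor.id (Yv k q τ₂))).continuous.congr fun b =>
      sum_ext (τ₁ := τ₁) (τ₂ := τ₂) rfl rfl
  · exact (pair (Mor.id (Yv k q τ₁)) (Mor.const _ b)).continuous.congr fun a =>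
      sum_ext (τ₁ := τ₁) (τ₂ := τ₂) rfl rfl

end Pool.Agent.MP_0c8446_ag
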