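import Pool.Agent.MP_0c8446_ag.Geo1

namespace Pool.Agent.MP_0c8446_ag

open Set

universe u v w

variable {k : Type u} [Field k] [IsAlgClosed k] {q : ℕ} [IsQ k q] {K : Type v} [Field K]
  [CharZero K] {ι : Type} [Fintype ι] {τ : ι → Bool}

/-- The sum of the classes of a multiset of subvarieties. -/
noncomputable def Weil.geo2S (W : Weil.{u, v, w} k K) (X : Var k) : Multiset (Set X.pts) →+ W.H X :=
  Multiset.sumAddMonoidHom.comp (Multiset.mapAddMonoidHom (W.cl X))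

omit [IsAlgClosed k] [CharZero K] in
lemma Weil.geo2S_singleton (W : Weil.{u, v, w} k K) {X : Var k} (C : Set X.pts) :
    W.geo2S X {C} = W.cl X C := by simp [Weil.geo2S]

omit [IsAlgClosed k] [CharZero K] in
lemma Weil.geo2S_cons (W : Weil.{u, v, w} k K) {X : Var k} (C : Set X.pts)
    (M : Multiset (Set X.pts)) : W.geo2S X (C ::ₘ M) = W.cl X C + W.geo2S X M := by
  simp [Weil.geo2S]

omit [IsAlgClosed k] [CharZero K] in
lemma Weil.geo2_fin (W : Weil.{u, v, w} k K) {X : Var k} (s : Finset (Set X.pts))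
    (μ : Set X.pts → ℕ) (hμ : ∀ C ∈ s, 0 < μ C) :
    ∃ M : Multiset (Set X.pts), (∀ C, C ∈ M ↔ C ∈ s) ∧
      W.geo2S X M = ∑ C ∈ s, μ C • W.cl X C := by
  refine ⟨∑ C ∈ s, μ C • {C}, fun C => ?_, ?_⟩
  · simp only [Multiset.mem_sum, Multiset.mem_nsmul, Multiset.mem_singleton]
    exact ⟨fun ⟨D, hD, _, h⟩ => h ▸ hD, fun h => ⟨C, h, (hμ C h).ne', rfl⟩⟩
  · simp only [map_sum, map_nsmul, W.geo2S_singleton]

omit [CharZero K] in
open Classical in
lemma Weil.geo2_proj (W : Weil.{u, v, w} k K) {X : Var k} (M : Multiset (Set X.pts))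
    (hM : ∀ C ∈ M, IsSub C) {e : ℕ} (he : e ≤ X.d) :
    GradedAlgebra.proj (W.gr X) (2 * (X.d - e)) (W.geo2S X M) =
      W.geo2S X (M.filter fun C => dim C = e) := by
  induction M using Multiset.induction_on with
  | empty => simp
  | cons C M ih =>
    have hC := hM C (Multiset.mem_cons_self _ _)
    have h1 := W.cl_gr X C hC
    have h2 := X.dim_le C
    rw [W.geo2S_cons, map_add, ih fun D hD => hM D (Multiset.mem_cons_of_mem hD),
      GradedAlgebra.proj_apply]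
    by_cases h : dim C = e
    · rw [Multiset.filter_cons_of_pos (p := fun C => dim C = e) _ h, W.geo2S_cons, ← h,
        DirectSum.decompose_of_mem_same _ h1]
    · rw [Multiset.filter_cons_of_neg (p := fun C => dim C = e) _ h,
        DirectSum.decompose_of_mem_ne _ h1 (by omega), zero_add]

omit [IsAlgClosed k] [CharZero K] in
lemma Weil.geo2_mul (W : Weil.{u, v, w} k K) {X : Var k} {H : Set X.pts} (hH : IsSub H)
    (M : Multiset (Set X.pts)) (hM : ∀ C ∈ M, IsSub C)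
    (h : ∀ C ∈ M, ∀ D, IsSub D → D ⊆ C ∩ H → dim D + X.d ≤ dim C + dim H) :
    ∃ M' : Multiset (Set X.pts), (∀ D, D ∈ M' ↔ ∃ C ∈ M, IsComp D (C ∩ H)) ∧
      W.geo2S X M * W.cl X H = W.geo2S X M' := by
  induction M using Multiset.induction_on with
  | empty => exact ⟨0, by simp, by simp⟩
  | cons C M ih =>
    obtain ⟨M', h1, h2⟩ := ih (fun D hD => hM D (Multiset.mem_cons_of_mem hD))
      fun D hD => h D (Multiset.mem_cons_of_mem hD)
    obtain ⟨s, μ, h3, h4, -, h5⟩ := W.proper X C H (hM C (Multiset.mem_cons_self _ _)) hH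
      (h C (Multiset.mem_cons_self _ _))
    obtain ⟨N, h6, h7⟩ := W.geo2_fin s μ h4
    refine ⟨N + M', fun D => ?_, ?_⟩
    · simp only [Multiset.mem_add, h6, h3, h1, Multiset.mem_cons, exists_eq_or_imp]
    · rw [W.geo2S_cons, add_mul, h2, h5, map_add, h7]

omit [CharZero K] in
lemma Weil.geo2_tr (W : Weil.{u, v, w} k K) {X : Var k} (M : Multiset (Set X.pts))
    (hM : ∀ C ∈ M, IsSub C ∧ dim C = 0) : W.tr X (W.geo2S X M) = M.card := by
  induction M using Multiset.induction_on with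
  | empty => simp
  | cons C M ih =>
    obtain ⟨hC, h0⟩ := hM C (Multiset.mem_cons_self _ _)
    obtain ⟨x, hx⟩ := hC.1.1
    rw [W.geo2S_cons, map_add, ih fun D hD => hM D (Multiset.mem_cons_of_mem hD),
      hC.eq_singleton h0 hx, W.tr_pt, Multiset.card_cons]
    push_cast
    ring

lemma Weil.geo2_hyp (W : Weil.{u, v, w} k K) {i : ι} {P : P2 k} (hP : P ∈ curve k q (τ i))
    {C : Set (Yv k q τ).pts} (hC : IsSub C) (h : ¬ C ⊆ {x | co x i = P}) (D : Set (Yv k q τ).pts)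
    (hD : IsSub D) (hDC : D ⊆ C ∩ {x | co x i = P}) :
    dim D < dim C ∧ dim D + (Yv k q τ).d ≤ dim C + dim {x : (Yv k q τ).pts | co x i = P} := by
  have h1 : dim D < dim C :=
    dim_lt hD hC ⟨hDC.trans inter_subset_left, fun h2 => h (h2.trans (hDC.trans inter_subset_right))⟩
  have h2 := W.dim_co_const i hP
  have h3 := W.d_Yv (q := q) τ
  omega

lemma Weil.geo2_ne (W : Weil.{u, v, w} k K) (e : ℕ) (M : Multiset (Set (Yv k q τ).pts))
    (hM : ∀ C ∈ M, IsSub C ∧ dim C < e) (hne : M ≠ 0) : W.geo2S _ M ≠ 0 := by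
  classical
  induction e generalizing M with
  | zero =>
    obtain ⟨C, hC⟩ := Multiset.exists_mem_of_ne_zero hne
    exact absurd (hM C hC).2 (Nat.not_lt_zero _)
  | succ e ih =>
    by_cases hex : ∃ C ∈ M, dim C = e
    swap
    · push Not at hex
      exact ih M (fun C hC => ⟨(hM C hC).1, by have := (hM C hC).2; have := hex C hC; omega⟩) hne
    obtain ⟨C₀, hC₀, hd⟩ := hex
    intro h0
    have h1 := W.geo2_proj M (fun C hC => (hM C hC).1) (hd ▸ (Yv k q τ).dim_le C₀)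
    rw [h0, map_zero] at h1
    set N := M.filter fun C => dim C = e with hN
    have hN0 : C₀ ∈ N := Multiset.mem_filter.2 ⟨hC₀, hd⟩
    have hN1 : ∀ C ∈ N, IsSub C ∧ dim C = e := fun C hC =>
      ⟨(hM C (Multiset.mem_filter.1 hC).1).1, (Multiset.mem_filter.1 hC).2⟩
    have hs := (hN1 C₀ hN0).1
    obtain ⟨x, hx⟩ := hs.1.1
    by_cases he : e = 0
    · have h2 := W.geo2_tr N (he ▸ hN1)
      rw [← h1, map_zero] at h2
      have h3 : N.card = 0 := by exact_mod_cast h2.symm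
      rw [Multiset.card_eq_zero.1 h3] at hN0
      exact Multiset.notMem_zero _ hN0
    obtain ⟨y, hy, hxy⟩ : ∃ y ∈ C₀, x ≠ y := by
      by_contra hcon
      push Not at hcon
      have : C₀ = {x} := eq_singleton_iff_unique_mem.2 ⟨hx, fun y hy => (hcon y hy).symm⟩
      rw [this, dim_singleton] at hd
      exact he hd.symm
    obtain ⟨i, hi⟩ : ∃ i, co x i ≠ co y i := by
      by_contra hcon
      push Not at hcon
      exact hxy (Yv_ext hcon)
    let f : Set (Yv k q τ).pts → P2 k := fun C => if h : C.Nonempty then co h.some i else co x i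
    obtain ⟨_, ⟨z, hz, rfl⟩, hzf⟩ :=
      (hs.infinite_co hx hy hi).exists_notMem_finite (N.finite_toSet.image f)
    have hns : ∀ C ∈ N, ¬ C ⊆ {x | co x i = co z i} := fun C hC hsub => by
      have h2 : C.Nonempty := (hN1 C hC).1.1.1
      exact hzf ⟨C, hC, by simp only [f, dif_pos h2]; exact hsub h2.some_mem⟩
    obtain ⟨N', h2, h3⟩ := W.geo2_mul (isSub_co_const i (co_mem z i)) N (fun C hC => (hN1 C hC).1)
      fun C hC D hD hDC => (W.geo2_hyp (co_mem z i) (hN1 C hC).1 (hns C hC) D hD hDC).2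
    rw [← h1, zero_mul] at h3
    obtain ⟨D₀, hD₀, -⟩ := exists_isComp (S := C₀ ∩ {x | co x i = co z i}) (isSub_singleton z)
      (singleton_subset_iff.2 ⟨hz, rfl⟩)
    refine ih N' (fun D hD => ?_) (fun h4 => ?_) h3.symm
    · obtain ⟨C, hC, hDC⟩ := (h2 D).1 hD
      have := (W.geo2_hyp (co_mem z i) (hN1 C hC).1 (hns C hC) D hDC.1.1 hDC.1.2).1
      exact ⟨hDC.1.1, (hN1 C hC).2 ▸ this⟩
    · have := (h2 D₀).2 ⟨C₀, hN0, hD₀⟩
      rw [h4] at this
      exact Multiset.notMem_zero _ this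

lemma Weil.geo2_ne' (W : Weil.{u, v, w} k K) (M : Multiset (Set (Yv k q τ).pts))
    (hM : ∀ C ∈ M, IsSub C) (hne : M ≠ 0) : W.geo2S _ M ≠ 0 :=
  W.geo2_ne ((Yv k q τ).d + 1) M
    (fun C hC => ⟨hM C hC, Nat.lt_succ_of_le ((Yv k q τ).dim_le C)⟩) hne

theorem Weil.eff_ne_zero (W : Weil.{u, v, w} k K) (s : Finset (Set (Yv k q τ).pts))
    (μ : Set (Yv k q τ).pts → ℕ) (hs : ∀ C ∈ s, IsSub C) (hμ : ∀ C ∈ s, 0 < μ C)
    (hne : s.Nonempty) : ∑ C ∈ s, μ C • W.cl _ C ≠ 0 := by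
  obtain ⟨M, h1, h2⟩ := W.geo2_fin s μ hμ
  obtain ⟨C, hC⟩ := hne
  rw [← h2]
  refine W.geo2_ne' M (fun D hD => hs D ((h1 D).1 hD)) fun h3 => ?_
  have := (h1 C).2 hC
  rw [h3] at this
  exact Multiset.notMem_zero _ this

theorem Weil.proper_dim (W : Weil.{u, v, w} k K) {Z Z' : Set (Yv k q τ).pts} (hZ : IsSub Z)
    (hZ' : IsSub Z')
    (h : ∀ C, IsSub C → C ⊆ Z ∩ Z' → dim C + (Yv k q τ).d ≤ dim Z + dim Z')
    {C : Set (Yv k q τ).pts} (hC : IsComp C (Z ∩ Z')) :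
    dim C + (Yv k q τ).d = dim Z + dim Z' := by
  classical
  obtain ⟨s, μ, h3, h4, -, h5⟩ := W.proper _ Z Z' hZ hZ' h
  obtain ⟨M, h6, h7⟩ := W.geo2_fin s μ h4
  have hM : ∀ D ∈ M, IsSub D := fun D hD => ((h3 D).1 ((h6 D).1 hD)).1.1
  have d1 := (Yv k q τ).dim_le C
  have d2 := (Yv k q τ).dim_le Z
  have d3 := (Yv k q τ).dim_le Z'
  have h1 := W.geo2_proj M hM d1
  by_contra hne
  rw [h7, ← h5, GradedAlgebra.proj_apply, DirectSum.decompose_of_mem_ne _
    (SetLike.mul_mem_graded (W.cl_gr _ Z hZ) (W.cl_gr _ Z' hZ')) (by omega)] at h1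
  refine W.geo2_ne' _ (fun D hD => hM D (Multiset.mem_filter.1 hD).1) (fun h2 => ?_) h1.symm
  have : C ∈ M.filter fun D => dim D = dim C :=
    Multiset.mem_filter.2 ⟨(h6 C).2 ((h3 C).2 hC), rfl⟩
  rw [h2] at this
  exact Multiset.notMem_zero _ this

theorem Weil.dim_le_of_finite (W : Weil.{u, v, w} k K) (I : Finset ι)
    {Z U : Set (Yv k q τ).pts} (hZ : IsSub Z) (hU : IsOpen U) (hne : (Z ∩ U).Nonempty)
    (hf : ∀ x : (Yv k q τ).pts, {y ∈ Z ∩ U | ∀ i ∈ I, co y i = co x i}.Finite) :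
    dim Z ≤ I.card := by
  classical
  induction I using Finset.induction_on generalizing Z with
  | empty =>
    obtain ⟨x, hx, hxU⟩ := hne
    rw [hZ.eq_singleton_of_finite hU (by simpa using hf x) hx hxU, dim_singleton]
    exact Nat.zero_le _
  | insert i I hi ih =>
    obtain ⟨x, hx, hxU⟩ := hne
    have key : ∀ C, IsSub C → C ⊆ Z ∩ {y | co y i = co x i} → x ∈ C → dim C ≤ I.card := by
      intro C hC hsub hxC
      refine ih hC ⟨x, hxC, hxU⟩ fun x' => ?_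
      rcases ({y ∈ C ∩ U | ∀ j ∈ I, co y j = co x' j}).eq_empty_or_nonempty with h | ⟨y₀, hy₀⟩
      · rw [h]; exact finite_empty
      · refine (hf y₀).subset fun y hy => ⟨⟨(hsub hy.1.1).1, hy.1.2⟩, fun j hj => ?_⟩
        rcases Finset.mem_insert.1 hj with rfl | hj
        · exact (hsub hy.1.1).2.trans (hsub hy₀.1.1).2.symm
        · exact (hy.2 j hj).trans (hy₀.2 j hj).symm
    rw [Finset.card_insert_of_notMem hi]
    by_cases h : Z ⊆ {y | co y i = co x i}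
    · exact (key Z hZ (subset_inter subset_rfl h) hx).trans (Nat.le_succ _)
    · obtain ⟨C, hC, hxC⟩ := exists_isComp (S := Z ∩ {y | co y i = co x i}) (isSub_singleton x)
        (singleton_subset_iff.2 ⟨hx, rfl⟩)
      have h1 := W.proper_dim hZ (isSub_co_const i (co_mem x i))
        (fun D hD hDC => (W.geo2_hyp (co_mem x i) hZ h D hD hDC).2) hC
      have h2 := key C hC.1.1 hC.1.2 (hxC rfl)
      have h3 := W.dim_co_const i (co_mem x i)
      have h4 := W.d_Yv (q := q) τ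
      omega

theorem Weil.dim_prod (W : Weil.{u, v, w} k K) {ι₁ ι₂ : Type} [Fintype ι₁] [Fintype ι₂]
    {τ₁ : ι₁ → Bool} {τ₂ : ι₂ → Bool} {Z₁ : Set (Yv k q τ₁).pts} {Z₂ : Set (Yv k q τ₂).pts}
    (h₁ : IsSub Z₁) (h₂ : IsSub Z₂) :
    dim ((pL τ₁ τ₂).1 ⁻¹' Z₁ ∩ (pR τ₁ τ₂).1 ⁻¹' Z₂) = dim Z₁ + dim Z₂ := by
  have hZ := isSub_prod h₁ h₂
  have h1 := W.cl_gr _ _ hZ
  have h2 := SetLike.mul_mem_graded (W.pull_gr (pL τ₁ τ₂) _ _ (W.cl_gr _ _ h₁))
    (W.pull_gr (pR τ₁ τ₂) _ _ (W.cl_gr _ _ h₂))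
  rw [← W.cl_prod _ _ (isProd_sum τ₁ τ₂) _ _ h₁ h₂] at h2
  have h3 := W.geo2_ne' {(pL τ₁ τ₂).1 ⁻¹' Z₁ ∩ (pR τ₁ τ₂).1 ⁻¹' Z₂}
    (fun C hC => Multiset.mem_singleton.1 hC ▸ hZ) (Multiset.singleton_ne_zero _)
  rw [W.geo2S_singleton] at h3
  have d0 := W.d_prod (isProd_sum (k := k) (q := q) τ₁ τ₂)
  have d1 := (Yv k q τ₁).dim_le Z₁
  have d2 := (Yv k q τ₂).dim_le Z₂
  have d3 := (Yv k q (Sum.elim τ₁ τ₂)).dim_le ((pL τ₁ τ₂).1 ⁻¹' Z₁ ∩ (pR τ₁ τ₂).1 ⁻¹' Z₂)
  by_contra hne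
  exact h3 ((DirectSum.decompose_of_mem_same _ h1).symm.trans
    (DirectSum.decompose_of_mem_ne _ h2 (by omega)))

end Pool.Agent.MP_0c8446_ag
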