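import Pool.Agent.MP_0c8446_ag.Amb
import Pool.Agent.MP_0c8446_ag.Geo1
import Pool.Agent.MP_0c8446_ag.Geo2

namespace Pool.Agent.MP_0c8446_ag

open Set

universe u v w

variable {k : Type u} [Field k] [IsAlgClosed k] {K : Type v} [Field K] [CharZero K]

lemma geoGen_hyp {X : Var k} {H C : Set X.pts} (hH : dim H + 1 = X.d) (hC : IsSub C)
    (h : ¬ C ⊆ H) (D : Set X.pts) (hD : IsSub D) (hDC : D ⊆ C ∩ H) :
    dim D < dim C ∧ dim D + X.d ≤ dim C + dim H := by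
  have h1 : dim D < dim C :=
    dim_lt hD hC ⟨hDC.trans inter_subset_left, fun h2 => h (h2.trans (hDC.trans inter_subset_right))⟩
  omega

lemma geoGen_cut {ι : Type} [Fintype ι] {n : ι → ℕ} {N : Set (Set (amb k n).pts)} (hN : N.Finite)
    (hne : ∀ C ∈ N, C.Nonempty) {C₀ : Set (amb k n).pts} (hs : IsSub C₀) {x y : (amb k n).pts}
    (hx : x ∈ C₀) (hy : y ∈ C₀) (hxy : x ≠ y) : ∃ H : Set (amb k n).pts,
      IsSub H ∧ dim H + 1 = (amb k n).d ∧ (C₀ ∩ H).Nonempty ∧ ∀ C ∈ N, ¬ C ⊆ H := by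
  obtain ⟨i, hi⟩ : ∃ i : ι, x.1 i ≠ y.1 i := Function.ne_iff.1 fun e => hxy (Subtype.ext e)
  have hn : 0 < n i := by
    by_contra h0
    refine hi ((x.1 i).mk_rep.symm.trans ((mk_eq_of_minor (r := n i) _ _ fun s t => ?_).trans
      (y.1 i).mk_rep))
    rw [show s = t from Fin.ext (by omega)]
  have hinf : ((fun z : (amb k n).pts => z.1 i) '' C₀).Infinite := fun hf => by
    obtain ⟨P, -, hP⟩ := hs.subset_of_finite hf (F := fun P => {z | z.1 i = P})
      (by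
        rintro _ ⟨z, -, rfl⟩
        exact (isClosed_apply_eq (n := n) i z.1).preimage
          (continuous_subtype_val (p := fun y : MP k n => y ∈ univ)))
      fun z hz => mem_iUnion₂.2 ⟨_, ⟨z, hz, rfl⟩, rfl⟩
    exact hi ((hP hx).trans (hP hy).symm)
  choose! g hg using hne
  obtain ⟨_, ⟨z, hz, rfl⟩, hzf⟩ := hinf.exists_notMem_finite (hN.image fun C => (g C).1 i)
  obtain ⟨c, hc, h1, h2⟩ := exists_hyp_through i hn z.1 (hN.image fun C => (g C).1) (by
    rintro _ ⟨C, hC, rfl⟩ e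
    exact hzf ⟨C, hC, e⟩)
  exact ⟨_, isSub_hyp hc hn, (dim_hyp hc hn).trans (d_amb n).symm, ⟨z, hz, h1⟩,
    fun C hC h => h2 _ ⟨C, hC, rfl⟩ (h (hg C hC))⟩

lemma Weil.geoGen_amb (W : Weil.{u, v, w} k K) {ι : Type} [Fintype ι] {n : ι → ℕ} (e : ℕ)
    (M : Multiset (Set (amb k n).pts)) (hM : ∀ C ∈ M, IsSub C ∧ dim C < e) (hne : M ≠ 0) :
    W.geo2S _ M ≠ 0 := by
  classical
  induction e generalizing M with
  | zero =>
    obtain ⟨C, hC⟩ := Multiset.exists_mem_of_ne_zero hne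
    exact absurd (hM C hC).2 (Nat.not_lt_zero _)
  | succ e ih =>
    by_cases hex : ∃ C ∈ M, dim C = e
    swap
    · push Not at hex
      exact ih M (fun C hC => ⟨(hM C hC).1, by have := (hM C hC).2; have := hex C hC; omega⟩) hne
    obtain ⟨C₀, hC₀, hd⟩ := hex
    intro h0
    have h1 := W.geo2_proj M (fun C hC => (hM C hC).1) (hd ▸ (amb k n).dim_le C₀)
    rw [h0, map_zero] at h1
    set N := M.filter fun C => dim C = e with hN
    have hN0 : C₀ ∈ N := Multiset.mem_filter.2 ⟨hC₀, hd⟩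
    have hN1 : ∀ C ∈ N, IsSub C ∧ dim C = e := fun C hC =>
      ⟨(hM C (Multiset.mem_filter.1 hC).1).1, (Multiset.mem_filter.1 hC).2⟩
    have hs := (hN1 C₀ hN0).1
    obtain ⟨x, hx⟩ := hs.1.1
    by_cases he : e = 0
    · have h2 := W.geo2_tr N (he ▸ hN1)
      rw [← h1, map_zero] at h2
      have h3 : N.card = 0 := by exact_mod_cast h2.symm
      rw [Multiset.card_eq_zero.1 h3] at hN0
      exact Multiset.notMem_zero _ hN0
    obtain ⟨y, hy, hxy⟩ : ∃ y ∈ C₀, x ≠ y := by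
      by_contra hcon
      push Not at hcon
      have : C₀ = {x} := eq_singleton_iff_unique_mem.2 ⟨hx, fun y hy => (hcon y hy).symm⟩
      rw [this, dim_singleton] at hd
      exact he hd.symm
    obtain ⟨H, hH, hHd, ⟨z, hz⟩, hns⟩ := geoGen_cut N.finite_toSet
      (fun C hC => (hN1 C hC).1.1.1) hs hx hy hxy
    obtain ⟨N', h2, h3⟩ := W.geo2_mul hH N (fun C hC => (hN1 C hC).1)
      fun C hC D hD hDC => (geoGen_hyp hHd (hN1 C hC).1 (hns C hC) D hD hDC).2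
    rw [← h1, zero_mul] at h3
    obtain ⟨D₀, hD₀, -⟩ := exists_isComp (isSub_singleton z) (singleton_subset_iff.2 hz)
    refine ih N' (fun D hD => ?_) (fun h4 => ?_) h3.symm
    · obtain ⟨C, hC, hDC⟩ := (h2 D).1 hD
      have := (geoGen_hyp hHd (hN1 C hC).1 (hns C hC) D hDC.1.1 hDC.1.2).1
      exact ⟨hDC.1.1, (hN1 C hC).2 ▸ this⟩
    · have := (h2 D₀).2 ⟨C₀, hN0, hD₀⟩
      rw [h4] at this
      exact Multiset.notMem_zero _ this

omit [CharZero K] in
lemma Weil.geoGen_push (W : Weil.{u, v, w} k K) {X : Var k} (M : Multiset (Set X.pts))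
    (hM : ∀ C ∈ M, IsSub C) : ∃ M' : Multiset (Set (amb k X.n).pts), (∀ C ∈ M', IsSub C) ∧
      (M' = 0 → M = 0) ∧ ∀ b, W.tr X (W.geo2S X M * W.pull X.incl b) = W.tr _ (W.geo2S _ M' * b) := by
  induction M using Multiset.induction_on with
  | empty => exact ⟨0, by simp, fun _ => rfl, by simp⟩
  | cons C M ih =>
    obtain ⟨M', h1, -, h2⟩ := ih fun D hD => hM D (Multiset.mem_cons_of_mem hD)
    have hC := hM C (Multiset.mem_cons_self _ _)
    obtain ⟨r, hr, h3⟩ := W.push X.incl C hC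
    rw [(X.isSub_incl hC).2.closure_eq] at hr h3
    have hr0 := hr (X.dim_incl C)
    refine ⟨r • {X.incl.1 '' C} + M', fun D hD => ?_, fun h => ?_, fun b => ?_⟩
    · rcases Multiset.mem_add.1 hD with h | h
      · rw [Multiset.mem_singleton.1 (Multiset.mem_of_mem_nsmul h)]
        exact X.isSub_incl hC
      · exact h1 D h
    · have := congrArg Multiset.card h
      simp only [Multiset.card_add, Multiset.card_nsmul, Multiset.card_singleton,
        Multiset.card_zero] at this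
      omega
    · rw [W.geo2S_cons, add_mul, map_add, h2, h3, map_add, map_nsmul, W.geo2S_singleton, add_mul,
        map_add, smul_mul_assoc, map_nsmul, nsmul_eq_mul]

lemma Weil.geoGen_ne (W : Weil.{u, v, w} k K) {X : Var k} (M : Multiset (Set X.pts))
    (hM : ∀ C ∈ M, IsSub C) (hne : M ≠ 0) : W.geo2S X M ≠ 0 := fun h0 => by
  obtain ⟨M', h1, h2, h3⟩ := W.geoGen_push M hM
  refine W.geoGen_amb ((amb k X.n).d + 1) M'
    (fun C hC => ⟨h1 C hC, Nat.lt_succ_of_le ((amb k X.n).dim_le C)⟩) (fun h => hne (h2 h))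
    (W.poincare _ _ fun b => ?_)
  rw [← h3, h0, zero_mul, map_zero]

theorem Weil.eff_ne_zero' (W : Weil.{u, v, w} k K) {X : Var k} (s : Finset (Set X.pts))
    (μ : Set X.pts → ℕ) (hs : ∀ C ∈ s, IsSub C) (hμ : ∀ C ∈ s, 0 < μ C) (hne : s.Nonempty) :
    ∑ C ∈ s, μ C • W.cl X C ≠ 0 := by
  obtain ⟨M, h1, h2⟩ := W.geo2_fin s μ hμ
  obtain ⟨C, hC⟩ := hne
  rw [← h2]
  refine W.geoGen_ne M (fun D hD => hs D ((h1 D).1 hD)) fun h3 => ?_
  have := (h1 C).2 hC
  rw [h3] at this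
  exact Multiset.notMem_zero _ this

theorem Weil.proper_dim' (W : Weil.{u, v, w} k K) {X : Var k} {Z Z' : Set X.pts} (hZ : IsSub Z)
    (hZ' : IsSub Z') (h : ∀ C, IsSub C → C ⊆ Z ∩ Z' → dim C + X.d ≤ dim Z + dim Z')
    {C : Set X.pts} (hC : IsComp C (Z ∩ Z')) : dim C + X.d = dim Z + dim Z' := by
  classical
  obtain ⟨s, μ, h3, h4, -, h5⟩ := W.proper _ Z Z' hZ hZ' h
  obtain ⟨M, h6, h7⟩ := W.geo2_fin s μ h4
  have hM : ∀ D ∈ M, IsSub D := fun D hD => ((h3 D).1 ((h6 D).1 hD)).1.1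
  have d1 := X.dim_le C
  have d2 := X.dim_le Z
  have d3 := X.dim_le Z'
  have h1 := W.geo2_proj M hM d1
  by_contra hne
  rw [h7, ← h5, GradedAlgebra.proj_apply, DirectSum.decompose_of_mem_ne _
    (SetLike.mul_mem_graded (W.cl_gr _ Z hZ) (W.cl_gr _ Z' hZ')) (by omega)] at h1
  refine W.geoGen_ne _ (fun D hD => hM D (Multiset.mem_filter.1 hD).1) (fun h2 => ?_) h1.symm
  have : C ∈ M.filter fun D => dim D = dim C :=
    Multiset.mem_filter.2 ⟨(h6 C).2 ((h3 C).2 hC), rfl⟩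
  rw [h2] at this
  exact Multiset.notMem_zero _ this

theorem Weil.dim_isProd (W : Weil.{u, v, w} k K) {P X Y : Var k} {p : Mor P X} {q : Mor P Y}
    (h : IsProd p q) {Z₁ : Set X.pts} {Z₂ : Set Y.pts} (h₁ : IsSub Z₁) (h₂ : IsSub Z₂) :
    dim (p.1 ⁻¹' Z₁ ∩ q.1 ⁻¹' Z₂) = dim Z₁ + dim Z₂ := by
  have hZ := h.isSub h₁ h₂
  have h1 := W.cl_gr _ _ hZ
  have h2 := SetLike.mul_mem_graded (W.pull_gr p _ _ (W.cl_gr _ _ h₁))
    (W.pull_gr q _ _ (W.cl_gr _ _ h₂))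
  rw [← W.cl_prod _ _ h _ _ h₁ h₂] at h2
  have h3 := W.geoGen_ne {p.1 ⁻¹' Z₁ ∩ q.1 ⁻¹' Z₂}
    (fun C hC => Multiset.mem_singleton.1 hC ▸ hZ) (Multiset.singleton_ne_zero _)
  rw [W.geo2S_singleton] at h3
  have d0 := W.d_prod h
  have d1 := X.dim_le Z₁
  have d2 := Y.dim_le Z₂
  have d3 := P.dim_le (p.1 ⁻¹' Z₁ ∩ q.1 ⁻¹' Z₂)
  by_contra hne
  exact h3 ((DirectSum.decompose_of_mem_same _ h1).symm.trans
    (DirectSum.decompose_of_mem_ne _ h2 (by omega)))

theorem Weil.dim_le_of_finite' (W : Weil.{u, v, w} k K) {q : ℕ} [IsQ k q] {ι : Type} [Fintype ι]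
    {τ : ι → Bool} {P T : Var k} {s : Mor P T} {m : Mor P (Yv k q τ)} (h : IsProd s m)
    (I : Finset ι) {Z U : Set P.pts} (hZ : IsSub Z) (hU : IsOpen U) (hne : (Z ∩ U).Nonempty)
    (hf : ∀ x : P.pts, {y ∈ Z ∩ U | ∀ i ∈ I, co (m.1 y) i = co (m.1 x) i}.Finite) :
    dim Z ≤ I.card := by
  classical
  induction I using Finset.induction_on generalizing Z with
  | empty =>
    obtain ⟨x, hx, hxU⟩ := hne
    rw [hZ.eq_singleton_of_finite hU (by simpa using hf x) hx hxU, dim_singleton]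
    exact Nat.zero_le _
  | insert i I hi ih =>
    obtain ⟨x, hx, hxU⟩ := hne
    have hs := isSub_co_const i (co_mem (m.1 x) i)
    have hH := h.isSub T.isSub_univ hs
    have hd := W.dim_isProd h T.isSub_univ hs
    rw [preimage_univ, univ_inter] at hH hd
    have hd' : dim (m.1 ⁻¹' {y | co y i = co (m.1 x) i}) + 1 = P.d := by
      rw [hd, add_assoc, W.dim_co_const i (co_mem (m.1 x) i), W.d_prod h, W.d_Yv, Var.d]
    have key : ∀ C, IsSub C → C ⊆ Z ∩ m.1 ⁻¹' {y | co y i = co (m.1 x) i} → x ∈ C →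
        dim C ≤ I.card := by
      intro C hC hsub hxC
      refine ih hC ⟨x, hxC, hxU⟩ fun x' => ?_
      rcases ({y ∈ C ∩ U | ∀ j ∈ I, co (m.1 y) j = co (m.1 x') j}).eq_empty_or_nonempty with
        h0 | ⟨y₀, hy₀⟩
      · rw [h0]; exact finite_empty
      · refine (hf y₀).subset fun y hy => ⟨⟨(hsub hy.1.1).1, hy.1.2⟩, fun j hj => ?_⟩
        rcases Finset.mem_insert.1 hj with rfl | hj
        · exact Eq.trans (hsub hy.1.1).2 (Eq.symm (hsub hy₀.1.1).2)
        · exact (hy.2 j hj).trans (hy₀.2 j hj).symm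
    rw [Finset.card_insert_of_notMem hi]
    by_cases h0 : Z ⊆ m.1 ⁻¹' {y | co y i = co (m.1 x) i}
    · exact (key Z hZ (subset_inter subset_rfl h0) hx).trans (Nat.le_succ _)
    · obtain ⟨C, hC, hxC⟩ := exists_isComp (S := Z ∩ m.1 ⁻¹' {y | co y i = co (m.1 x) i})
        (isSub_singleton x) (singleton_subset_iff.2 ⟨hx, rfl⟩)
      have h1 := W.proper_dim' hZ hH (fun D hD hDC => (geoGen_hyp hd' hZ h0 D hD hDC).2) hC
      have h2 := key C hC.1.1 hC.1.2 (hxC rfl)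
      omega

end Pool.Agent.MP_0c8446_ag
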