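import Pool.Agent.MP_0c8446_ag.GeoGen

namespace Pool.Agent.MP_0c8446_ag

open Set Topology
open scoped LinearAlgebra.Projectivization

universe u v w

variable {k : Type u} [Field k] [IsAlgClosed k] {K : Type v} [Field K] [CharZero K]

omit [IsAlgClosed k] in
lemma geoGen2_pos {r : ℕ} {a b : ℙ k (Fin (r + 1) → k)} (h : a ≠ b) : 0 < r := by
  by_contra h0
  obtain rfl : r = 0 := by omega
  refine h ?_
  rw [← a.mk_rep, ← b.mk_rep]
  refine mk_eq_of_minor _ _ fun s t => ?_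
  rw [show s = t from Fin.ext (by omega)]

lemma geoGen2_preimage {X Y : Type u} [TopologicalSpace X] [TopologicalSpace Y] {f : X → Y}
    (hf : IsInducing f) {D : Set Y} (hD : IsSub D) (h : D ⊆ range f) : IsSub (f ⁻¹' D) := by
  refine ⟨⟨?_, ?_⟩, hD.2.preimage hf.continuous⟩
  · obtain ⟨y, hy⟩ := hD.1.1
    obtain ⟨x, rfl⟩ := h hy
    exact ⟨x, hy⟩
  · rintro u v hu hv ⟨a, ha, hau⟩ ⟨b, hb, hbv⟩
    obtain ⟨u', hu', rfl⟩ := hf.isOpen_iff.1 hu
    obtain ⟨v', hv', rfl⟩ := hf.isOpen_iff.1 hv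
    obtain ⟨y, hy, hyu, hyv⟩ := hD.1.2 u' v' hu' hv' ⟨_, ha, hau⟩ ⟨_, hb, hbv⟩
    obtain ⟨x, rfl⟩ := h hy
    exact ⟨x, hy, hyu, hyv⟩

lemma geoGen2_inducing (X : Var k) : IsInducing X.incl.1 :=
  IsInducing.of_comp X.incl.continuous continuous_subtype_val IsInducing.subtypeVal

theorem Weil.exists_hyp_section (W : Weil.{u, v, w} k K) {X : Var k} {Z : Set X.pts}
    (hZ : IsSub Z) {x : X.pts} (hx : x ∈ Z) (h0 : 0 < dim Z) :
    ∃ C, IsSub C ∧ x ∈ C ∧ C ⊆ Z ∧ dim C + 1 = dim Z := by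
  obtain ⟨y, hy, hyx⟩ : ∃ y ∈ Z, y ≠ x := by
    by_contra hne
    push Not at hne
    have := dim_mono (Z := Z) (Z' := {x}) hne
    rw [dim_singleton] at this
    omega
  obtain ⟨i, hi⟩ : ∃ i, y.1 i ≠ x.1 i := Function.ne_iff.1 fun e => hyx (Subtype.ext e)
  have hn := geoGen2_pos hi
  obtain ⟨c, hc, hxc, hyc⟩ := exists_hyp_through i hn x.1 (finite_singleton y.1)
    (by rintro _ rfl; exact hi)
  have hA := X.isSub_incl hZ
  have hH := isSub_hyp hc hn
  have hdH := dim_hyp hc hn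
  have hdA := X.dim_incl Z
  have hd := d_amb (k := k) X.n
  obtain ⟨D, hD, hxD⟩ := exists_isComp (S := X.incl.1 '' Z ∩ Subtype.val ⁻¹' hyp i c)
    (isSub_singleton (X.incl.1 x)) (singleton_subset_iff.2 ⟨mem_image_of_mem _ hx, hxc⟩)
  have h1 := W.proper_dim' hA hH (fun C hC hCs => by
    have := dim_lt hC hA ((hCs.trans inter_subset_left).ssubset_of_ne fun e =>
      hyc y.1 rfl (hCs (e ▸ mem_image_of_mem _ hy)).2)
    omega) hD
  have hr : D ⊆ range X.incl.1 := (hD.1.2.trans inter_subset_left).trans (image_subset_range _ _)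
  refine ⟨X.incl.1 ⁻¹' D, geoGen2_preimage (geoGen2_inducing X) hD.1.1 hr, hxD rfl,
    fun a ha => ?_, ?_⟩
  · obtain ⟨b, hb, e⟩ := (hD.1.2 ha).1
    have : b = a := Subtype.ext (congrArg (fun y : (amb k X.n).pts => y.1) e)
    exact this ▸ hb
  · have h2 := X.dim_incl (X.incl.1 ⁻¹' D)
    rw [image_preimage_eq_of_subset hr] at h2
    omega

theorem Weil.exists_sub_dominant (W : Weil.{u, v, w} k K) {T S : Var k} (f : Mor T S)
    {Z : Set T.pts} (hZ : IsClosed Z) {S' U : Set S.pts} (hS' : IsSub S') (hU : IsOpen U)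
    (hne : (S' ∩ U).Nonempty) (h : ∀ s ∈ S' ∩ U, ∃ z ∈ Z, f.1 z = s) :
    ∃ C, IsSub C ∧ C ⊆ Z ∧ closure (f.1 '' C) = S' ∧ dim S' ≤ dim C := by
  induction hd : dim S' generalizing S' Z U with
  | zero =>
    obtain ⟨s, hs⟩ := hne
    obtain ⟨z, hz, rfl⟩ := h s hs
    refine ⟨{z}, isSub_singleton z, singleton_subset_iff.2 hz, ?_, Nat.zero_le _⟩
    rw [image_singleton, closure_singleton, ← hS'.eq_singleton hd hs.1]
  | succ d ih =>
    have hZ₁ : IsClosed (Z ∩ f.1 ⁻¹' S') := hZ.inter (hS'.2.preimage f.continuous)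
    have hfin := finite_isComp hZ₁
    have hB : {D | IsComp D (Z ∩ f.1 ⁻¹' S') ∧ closure (f.1 '' D) ≠ S'}.Finite :=
      hfin.subset fun _ hD => hD.1
    have hG : {D | IsComp D (Z ∩ f.1 ⁻¹' S') ∧ closure (f.1 '' D) = S'}.Finite :=
      hfin.subset fun _ hD => hD.1
    have hBc := hB.isClosed_biUnion (f := fun D => closure (f.1 '' D)) fun _ _ => isClosed_closure
    have hGc := hG.isClosed_biUnion (f := fun D => D) fun _ hD => hD.1.1.1.2
    obtain ⟨x, hx, hxU⟩ : (S' ∩ (U \ ⋃ D ∈ {D | IsComp D (Z ∩ f.1 ⁻¹' S') ∧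
        closure (f.1 '' D) ≠ S'}, closure (f.1 '' D))).Nonempty := by
      refine hS'.1.2 U _ hU hBc.isOpen_compl hne (inter_compl_nonempty_iff.2 fun hsub => ?_)
      obtain ⟨D, hD, hSD⟩ := hS'.subset_of_finite hB (F := fun D => closure (f.1 '' D))
        (fun _ _ => isClosed_closure) hsub
      exact hD.2 (Subset.antisymm (closure_minimal
        (image_subset_iff.2 (hD.1.1.2.trans inter_subset_right)) hS'.2) hSD)
    obtain ⟨S'', h1, h2, h3, h4⟩ := W.exists_hyp_section hS' hx (by omega)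
    obtain ⟨C, hC, hCZ, hCS, hCd⟩ := ih hGc h1 (hU.sdiff hBc) ⟨x, h2, hxU⟩ (fun s hs => by
      obtain ⟨z, hz, rfl⟩ := h s ⟨h3 hs.1, hs.2.1⟩
      obtain ⟨D, hD, hzD⟩ := exists_isComp (S := Z ∩ f.1 ⁻¹' S') (isSub_singleton z)
        (singleton_subset_iff.2 ⟨hz, h3 hs.1⟩)
      refine ⟨z, mem_biUnion (x := D) ⟨hD, ?_⟩ (hzD rfl), rfl⟩
      by_contra hn
      exact hs.2.2 (mem_biUnion (x := D) ⟨hD, hn⟩ (subset_closure (mem_image_of_mem _ (hzD rfl)))))
      (by omega)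
    obtain ⟨D, hD, hCD⟩ := hC.subset_of_finite hG (F := fun D => D) (fun _ hD => hD.1.1.1.2) hCZ
    refine ⟨D, hD.1.1.1, hD.1.1.2.trans inter_subset_left, hD.2, ?_⟩
    have := dim_lt hC hD.1.1.1 (hCD.ssubset_of_ne fun e => by
      have h5 : S'' = S' := by rw [← hCS, e, hD.2]
      rw [h5] at h4
      omega)
    omega

end Pool.Agent.MP_0c8446_ag
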