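import Pool.Agent.MP_0c8446_ag.Yv
import Pool.Agent.MP_0c8446_ag.GChar
import Pool.Agent.MP_0c8446_ag.LinAlg2

namespace Pool.Agent.MP_0c8446_ag

open Set

universe u v w

variable {k : Type u} [Field k] {q : ℕ} [IsQ k q] {K : Type v} [Field K]

/-- Labels of the eigenlines in the cohomology of a curve: `H^0`, `H^2` and characters. -/
inductive Lb (k : Type u) [Field k] (q : ℕ) [IsQ k q] (K : Type v) [Field K] : Type (max u v)
  | one : Lb k q K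
  | pt : Lb k q K
  | ch (ω₁ ω₂ : MulChar (Fq k q) K) (ψ : AddChar (Fq k q) K) : Lb k q K

/-- The dual label. -/
noncomputable def Lb.du : Lb k q K → Lb k q K
  | .one => .pt
  | .pt => .one
  | .ch ω₁ ω₂ ψ => .ch ω₁⁻¹ ω₂⁻¹ ψ⁻¹

@[simp] lemma Lb.du_du (t : Lb k q K) : t.du.du = t := by cases t <;> simp [Lb.du]

/-- The character of a label. -/
noncomputable def Lb.chr (b : Bool) : Lb k q K → (Gp k q b →* Kˣ)
  | .ch ω₁ ω₂ ψ => Pool.Agent.MP_0c8446_ag.ch b ω₁ ω₂ ψ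
  | _ => 1

lemma Lb.chr_du (b : Bool) (t : Lb k q K) : t.du.chr b = (t.chr b)⁻¹ := by
  cases t
  · exact (inv_one (G := Gp k q b →* Kˣ)).symm
  · exact (inv_one (G := Gp k q b →* Kˣ)).symm
  · exact (ch_inv _ _ _).symm

/-- The labels that occur for the curve `b`. -/
def Lb.Ok : Bool → Lb k q K → Prop
  | false, .ch ω₁ ω₂ ψ => ω₁ ≠ 1 ∧ ω₂ = 1 ∧ ψ ≠ 1
  | true, .ch ω₁ ω₂ ψ => ω₁ ≠ 1 ∧ ω₂ ≠ 1 ∧ ω₁ * ω₂ ≠ 1 ∧ ψ = 1
  | _, _ => True

lemma Lb.Ok.du {b : Bool} {t : Lb k q K} (h : t.Ok b) : t.du.Ok b := by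
  cases b <;> cases t <;> try trivial
  · exact ⟨inv_ne_one.2 h.1, inv_eq_one.2 h.2.1, inv_ne_one.2 h.2.2⟩
  · exact ⟨inv_ne_one.2 h.1, inv_ne_one.2 h.2.1, by rw [← mul_inv]; exact inv_ne_one.2 h.2.2.1,
      inv_eq_one.2 h.2.2.2⟩

lemma Lb.Ok.adm {b : Bool} {ω₁ ω₂ : MulChar (Fq k q) K} {ψ : AddChar (Fq k q) K}
    (h : (Lb.ch ω₁ ω₂ ψ).Ok b) : Adm b (Pool.Agent.MP_0c8446_ag.ch b ω₁ ω₂ ψ) := by
  cases b
  · obtain ⟨h1, rfl, h2⟩ := h
    exact ⟨ω₁, ψ, h1, h2, rfl⟩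
  · obtain ⟨h1, h2, h3, rfl⟩ := h
    exact ⟨ω₁, ω₂, h1, h2, h3, rfl⟩

lemma Adm.exists_ok {b : Bool} {χ : Gp k q b →* Kˣ} (h : Adm b χ) :
    ∃ ω₁ ω₂ ψ, (Lb.ch ω₁ ω₂ ψ).Ok b ∧ χ = ch b ω₁ ω₂ ψ := by
  cases b
  · obtain ⟨ω, ψ, h1, h2, rfl⟩ := h
    exact ⟨ω, 1, ψ, ⟨h1, rfl, h2⟩, rfl⟩
  · obtain ⟨ω₁, ω₂, h1, h2, h3, rfl⟩ := h
    exact ⟨ω₁, ω₂, 1, ⟨h1, h2, h3, rfl⟩, rfl⟩

open Classical in
/-- The eigenvalue of a constant map. -/
noncomputable def Lb.kap (t : Lb k q K) : K := if t = .one then 1 else 0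

lemma Lb.eq_of_chr {b : Bool} {t t' : Lb k q K} (h : t.Ok b) (h' : t'.Ok b)
    (hc : t.chr b = t'.chr b) (hk : t.kap = t'.kap) : t = t' := by
  rcases t with _ | _ | ⟨ω₁, ω₂, ψ⟩ <;> rcases t' with _ | _ | ⟨ω₁', ω₂', ψ'⟩
  · rfl
  · simp [Lb.kap] at hk
  · exact absurd hc.symm h'.adm.ne_one
  · simp [Lb.kap] at hk
  · rfl
  · exact absurd hc.symm h'.adm.ne_one
  · exact absurd hc h.adm.ne_one
  · exact absurd hc h.adm.ne_one
  · cases b
    · obtain ⟨-, rfl, -⟩ := h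
      obtain ⟨-, rfl, -⟩ := h'
      obtain ⟨rfl, rfl⟩ := chD_inj hc
      rfl
    · obtain ⟨-, -, -, rfl⟩ := h
      obtain ⟨-, -, -, rfl⟩ := h'
      obtain ⟨rfl, rfl⟩ := chF_inj hc
      rfl

lemma Lb.eq_ch_of_chr {b : Bool} {t : Lb k q K} {ω₁ ω₂ : MulChar (Fq k q) K}
    {ψ : AddChar (Fq k q) K} (h : t.Ok b) (h' : (Lb.ch ω₁ ω₂ ψ).Ok b)
    (hc : t.chr b = Pool.Agent.MP_0c8446_ag.ch b ω₁ ω₂ ψ) : t = .ch ω₁ ω₂ ψ := by
  refine Lb.eq_of_chr h h' hc ?_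
  cases t
  · exact absurd hc.symm h'.adm.ne_one
  · simp [Lb.kap]
  · simp [Lb.kap]

/-- The eigenvalue of the `q`-Frobenius. -/
noncomputable def Lb.lam : Bool → Lb k q K → K
  | _, .one => 1
  | _, .pt => q
  | false, .ch ω₁ _ ψ => -gaussSum ω₁ ψ
  | true, .ch ω₁ ω₂ _ => -jacobiSum ω₁ ω₂

/-- The degree of a label. -/
def Lb.deg : Lb k q K → ℕ
  | .one => 0
  | .pt => 2
  | .ch _ _ _ => 1

variable [IsAlgClosed k]
variable {ι ι' : Type} [Fintype ι] [Fintype ι'] {τ : ι → Bool} {τ' : ι' → Bool}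

/-- The Frobenius of a product of curves. -/
noncomputable def frobY (τ : ι → Bool) (e : ℕ) (he : IsQ k e) : Mor (Yv k q τ) (Yv k q τ) :=
  cw id (fun _ => frob e) fun i => cMap_frob q e (τ i)

@[simp] lemma co_frobY (e : ℕ) (he : IsQ k e) (x : (Yv k q τ).pts) (i : ι) :
    co ((frobY τ e he).1 x) i = frob e (co x i) := rfl

/-- The action of a tuple of group elements on a product of curves. -/
noncomputable def actY (g : ∀ i, Gp k q (τ i)) : Mor (Yv k q τ) (Yv k q τ) :=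
  cw id (fun i => lin (g i).1) fun i => cMap_Gp (g i).2

@[simp] lemma co_actY (g : ∀ i, Gp k q (τ i)) (x : (Yv k q τ).pts) (i : ι) :
    co ((actY g).1 x) i = lin (g i).1 (co x i) := rfl

lemma actY_mul (g h : ∀ i, Gp k q (τ i)) (x : (Yv k q τ).pts) :
    (actY (g * h)).1 x = (actY g).1 ((actY h).1 x) :=
  Yv_ext fun i => lin_mul (g i).2 (h i).2 _

lemma actY_one (x : (Yv k q τ).pts) : (actY 1).1 x = x := Yv_ext fun _ => lin_one _

lemma actY_inv (g : ∀ i, Gp k q (τ i)) (x : (Yv k q τ).pts) :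
    (actY g⁻¹).1 ((actY g).1 x) = x := by rw [← actY_mul, inv_mul_cancel, actY_one]

lemma actY_inv' (g : ∀ i, Gp k q (τ i)) (x : (Yv k q τ).pts) :
    (actY g).1 ((actY g⁻¹).1 x) = x := by rw [← actY_mul, mul_inv_cancel, actY_one]

namespace Weil

variable (W : Weil.{u, v, w} k K)

/-- The action of the group on the cohomology of the curve. -/
noncomputable def act (b : Bool) : Gp k q b →* Module.End K (W.H (Cv k q b)) where
  toFun g := (W.pull (cm (lin g.1) (cMap_Gp g.2))).toLinearMap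
  map_one' := LinearMap.ext fun a =>
    W.pull_id (cm (lin (1 : Gp k q b).1) (cMap_Gp (1 : Gp k q b).2))
      (funext fun x => Yv_ext fun _ => lin_one (co x ())) a
  map_mul' g h := LinearMap.ext fun a => by
    refine W.pull_comp (cm (lin g.1) (cMap_Gp g.2)) (cm (lin h.1) (cMap_Gp h.2))
      (cm (lin (g * h).1) (cMap_Gp (g * h).2)) (funext fun x => Yv_ext fun _ => ?_) a
    rw [mul_comm]
    exact lin_mul h.2 g.2 _

lemma act_apply (b : Bool) (g : Gp k q b) (a : W.H (Cv k q b)) :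
    W.act b g a = W.pull (cm (lin g.1) (cMap_Gp g.2)) a := rfl

/-- The eigenline of a label in the cohomology of the curve. -/
noncomputable def V (b : Bool) : Lb k q K → W.HS (Cv k q b)
  | .one => 1
  | .pt => ⟨W.gr _ 2, 2, le_rfl⟩
  | .ch ω₁ ω₂ ψ => ⟨W.gr _ 1 ⊓ Eig (W.act b) (ch b ω₁ ω₂ ψ), 1, inf_le_left⟩

lemma V_le_gr (b : Bool) (t : Lb k q K) : (W.V b t).1 ≤ W.gr _ t.deg := by
  cases t
  · show (1 : Submodule K _) ≤ W.gr _ 0
    rw [W.zero, Submodule.one_eq_span]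
  · exact le_rfl
  · exact inf_le_left

/-- The exterior product of homogeneous subspaces. -/
noncomputable def LinS (τ : ι → Bool) (S : ∀ i, W.HS (Cv k q (τ i))) : W.HS (Yv k q τ) :=
  ∏ i, W.pullS (pr τ i) (S i)

/-- The eigenline of a family of labels. -/
noncomputable def Lin (τ : ι → Bool) (β : ι → Lb k q K) : W.HS (Yv k q τ) :=
  W.LinS τ fun i => W.V (τ i) (β i)

/-- The eigenline of the family is algebraic. -/
def AlgF (τ : ι → Bool) (β : ι → Lb k q K) : Prop := (W.Lin τ β).1 ≤ W.Alg _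

/-- The eigenline of the multiset of labels is algebraic. -/
def AlgM (M : Multiset (Bool × Lb k q K)) : Prop :=
  (∀ t ∈ M, t.2.Ok t.1) ∧ ∃ (ι : Type) (_ : Fintype ι) (τ : ι → Bool) (β : ι → Lb k q K),
    (Finset.univ.val.map fun i => (τ i, β i)) = M ∧ W.AlgF τ β

end Weil

/-- Duality on labelled curves. -/
noncomputable def duT (t : Bool × Lb k q K) : Bool × Lb k q K := (t.1, t.2.du)

end Pool.Agent.MP_0c8446_ag
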