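import Pool.Agent.MP_0c8446_ag.LDefs

namespace Pool.Agent.MP_0c8446_ag

open Set

universe u v w

namespace Weil

section

variable {k : Type u} [Field k] {K : Type v} [Field K] (W : Weil.{u, v, w} k K)

lemma lines1_mul_smul {X : Var k} (φ : W.H X →ₐ[K] W.H X) {S T : Submodule K (W.H X)} {c d : K}
    (hS : ∀ a ∈ S, φ a = c • a) (hT : ∀ a ∈ T, φ a = d • a) :
    ∀ a ∈ S * T, φ a = (c * d) • a := by
  intro a ha
  refine Submodule.mul_induction_on ha (fun m hm n hn => ?_) fun x y hx hy => ?_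
  · rw [map_mul, hS m hm, hT n hn, smul_mul_smul_comm]
  · rw [map_add, hx, hy, smul_add]

lemma lines1_prod_smul {X : Var k} (φ : W.H X →ₐ[K] W.H X) {ι : Type} (s : Finset ι)
    (T : ι → W.HS X) (c : ι → K) (h : ∀ i ∈ s, ∀ a ∈ (T i).1, φ a = c i • a) :
    ∀ a ∈ (∏ i ∈ s, T i).1, φ a = (∏ i ∈ s, c i) • a := by
  classical
  induction s using Finset.induction_on with
  | empty =>
    intro a ha
    obtain ⟨t, rfl⟩ := Submodule.mem_one.1 ha
    simp
  | insert i s hi ih =>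
    rw [Finset.prod_insert hi, Finset.prod_insert hi]
    exact W.lines1_mul_smul φ (h i (Finset.mem_insert_self _ _))
      (ih fun j hj => h j (Finset.mem_insert_of_mem hj))

lemma lines1_prod_gr {X : Var k} {ι : Type} (s : Finset ι) (T : ι → W.HS X) (d : ι → ℕ)
    (h : ∀ i, (T i).1 ≤ W.gr X (d i)) : (∏ i ∈ s, T i).1 ≤ W.gr X (∑ i ∈ s, d i) := by
  classical
  induction s using Finset.induction_on with
  | empty =>
    show (1 : Submodule K _) ≤ W.gr _ 0
    rw [W.zero, Submodule.one_eq_span]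
  | insert i s hi ih =>
    rw [Finset.prod_insert hi, Finset.sum_insert hi]
    exact Submodule.mul_le.2 fun a ha b hb => SetLike.mul_mem_graded (h i ha) (ih hb)

lemma lines1_prod_span {X : Var k} {ι : Type} (s : Finset ι) (T : ι → W.HS X)
    (h : ∀ i, ∃ u, (T i).1 = K ∙ u) : ∃ u, (∏ i ∈ s, T i).1 = K ∙ u := by
  classical
  induction s using Finset.induction_on with
  | empty => exact ⟨1, Submodule.one_eq_span⟩
  | insert i s hi ih =>
    obtain ⟨u, hu⟩ := h i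
    obtain ⟨u', hu'⟩ := ih
    refine ⟨u * u', ?_⟩
    rw [Finset.prod_insert hi, Submonoid.coe_mul, hu, hu', Submodule.span_mul_span,
      singleton_mul_singleton]

lemma lines1_NZ_prod {P X Y : Var k} {p : Mor P X} {q : Mor P Y} (h : IsProd p q) (S : W.HS X)
    (T : W.HS Y) : W.NZ (W.pullS p S * W.pullS q T).1 ↔ W.NZ S.1 ∧ W.NZ T.1 := by
  constructor
  · rintro ⟨a, ha, h0⟩
    by_contra hn
    refine h0 (Submodule.mul_induction_on ha ?_ fun x y hx hy => by rw [map_add, hx, hy, add_zero])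
    rintro _ ⟨m, hm, rfl⟩ _ ⟨n, hn', rfl⟩
    by_contra h1
    have h2 : W.tr X m * W.tr Y n ≠ 0 := by rw [← W.tr_prod h]; exact h1
    exact hn ⟨⟨m, hm, left_ne_zero_of_mul h2⟩, ⟨n, hn', right_ne_zero_of_mul h2⟩⟩
  · rintro ⟨⟨m, hm, h1⟩, ⟨n, hn, h2⟩⟩
    refine ⟨W.pull p m * W.pull q n, Submodule.mul_mem_mul ⟨m, hm, rfl⟩ ⟨n, hn, rfl⟩, ?_⟩
    rw [W.tr_prod h]
    exact mul_ne_zero h1 h2

lemma lines1_NZ_aut [CharZero K] {X Y : Var k} (f : Mor X Y) (g : Mor Y X)
    (h : ∀ x, g.1 (f.1 x) = x) (h' : ∀ y, f.1 (g.1 y) = y) (S : W.HS Y) :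
    W.NZ (W.pullS f S).1 ↔ W.NZ S.1 := by
  constructor
  · rintro ⟨_, ⟨m, hm, rfl⟩, h0⟩
    exact ⟨m, hm, by rw [← W.tr_pull_aut f g h h']; exact h0⟩
  · rintro ⟨m, hm, h0⟩
    exact ⟨W.pull f m, ⟨m, hm, rfl⟩, by rwa [W.tr_pull_aut f g h h']⟩

end

section

variable {k : Type u} [Field k] [IsAlgClosed k] {q : ℕ} [IsQ k q] {K : Type v} [Field K]
  {ι ι' : Type} [Fintype ι] [Fintype ι'] {τ : ι → Bool} (W : Weil.{u, v, w} k K)

lemma lines1_cast (j : ι) {b : Bool} (h : τ j = b) (f : Mor (Yv k q τ) (Cv k q b))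
    (hf : ∀ x, co (f.1 x) () = co x j) (t : Lb k q K) :
    W.pullS f (W.V b t) = W.pullS (pr τ j) (W.V (τ j) t) := by
  subst h
  rw [show f = pr τ j from Mor.ext' fun x => Yv_ext fun _ => hf x]

lemma lines1_equiv (e : ι' ≃ ι) (S : ∀ i, W.HS (Cv k q (τ i))) :
    W.pullS (remap (τ := τ) (τ' := τ ∘ e) e fun _ => rfl) (W.LinS (τ ∘ e) fun i => S (e i)) =
      W.LinS τ S := by
  rw [LinS, LinS, map_prod, ← Equiv.prod_comp e]
  refine Finset.prod_congr rfl fun i _ => ?_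
  rw [pullS_pullS]
  rfl

lemma lines1_option {τ : Option ι → Bool} (S : ∀ i, W.HS (Cv k q (τ i))) :
    W.LinS τ S = W.pullS (remap (τ := τ) (τ' := τ ∘ some) some fun _ => rfl)
      (W.LinS (τ ∘ some) fun i => S (some i)) * W.pullS (pr τ none) (S none) := by
  rw [LinS, LinS, map_prod, Fintype.prod_option, mul_comm]
  refine congrArg (· * _) (Finset.prod_congr rfl fun i _ => ?_)
  rw [pullS_pullS]
  rfl

lemma lines1_isProd (τ : Option ι → Bool) :
    IsProd (remap (k := k) (q := q) (τ := τ) (τ' := τ ∘ some) some fun _ => rfl) (pr τ none) :=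
  isProd_remap (τ₂ := fun _ : Unit => τ none) some (fun _ => none) (fun _ => rfl) (fun _ => rfl)
    (Equiv.optionEquivSumPUnit.{0, 0} ι).symm.bijective

end

end Weil

variable {k : Type u} [Field k] [IsAlgClosed k] {q : ℕ} [IsQ k q] {K : Type v} [Field K]
  [CharZero K] [IsAlgClosed K] {ι ι' ι₁ ι₂ : Type} [Fintype ι] [Fintype ι'] [Fintype ι₁] [Fintype ι₂]
  {τ : ι → Bool} {τ' : ι' → Bool} {τ₁ : ι₁ → Bool} {τ₂ : ι₂ → Bool}

namespace Weil

variable (W : Weil.{u, v, w} k K)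

omit [CharZero K] [IsAlgClosed K] in
theorem pullS_cw_LinS (r : ι' → ι) (g : ι' → P2 k → P2 k) (h : ∀ i, CMap q (τ (r i)) (τ' i) (g i))
    (S : ∀ i, W.HS (Cv k q (τ' i))) : W.pullS (cw r g h) (W.LinS τ' S) =
      ∏ i, W.pullS (pr τ (r i)) (W.pullS (cm (g i) (h i)) (S i)) := by
  rw [LinS, map_prod]
  refine Finset.prod_congr rfl fun i _ => ?_
  rw [pullS_pullS, pullS_pullS]
  rfl

omit [CharZero K] [IsAlgClosed K] in
theorem pullS_remap_Lin (r : ι' → ι) (h : ∀ i, τ (r i) = τ' i) (β : ι' → Lb k q K) :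
    W.pullS (remap r h) (W.Lin τ' β) = ∏ i, W.pullS (pr τ (r i)) (W.V (τ (r i)) (β i)) := by
  rw [Lin, LinS, map_prod]
  refine Finset.prod_congr rfl fun i _ => ?_
  rw [pullS_pullS]
  exact W.lines1_cast (r i) (h i) _ (fun _ => rfl) _

omit [CharZero K] [IsAlgClosed K] in
theorem Lin_equiv (e : ι' ≃ ι) (h : ∀ i, τ (e i) = τ' i) (β : ι → Lb k q K) :
    W.pullS (remap e h) (W.Lin τ' (β ∘ e)) = W.Lin τ β := by
  rw [pullS_remap_Lin]
  exact Equiv.prod_comp e fun i => W.pullS (pr τ i) (W.V (τ i) (β i))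

omit [CharZero K] [IsAlgClosed K] in
theorem Lin_split (r₁ : ι₁ → ι) (r₂ : ι₂ → ι) (h₁ : ∀ i, τ (r₁ i) = τ₁ i)
    (h₂ : ∀ i, τ (r₂ i) = τ₂ i) (hb : Function.Bijective (Sum.elim r₁ r₂)) (β : ι → Lb k q K) :
    W.Lin τ β = W.pullS (remap r₁ h₁) (W.Lin τ₁ (β ∘ r₁)) *
      W.pullS (remap r₂ h₂) (W.Lin τ₂ (β ∘ r₂)) := by
  rw [pullS_remap_Lin, pullS_remap_Lin, Lin, LinS, ← hb.prod_comp, Fintype.prod_sum_type]
  rfl

omit [CharZero K] [IsAlgClosed K] in
theorem Lin_sum (β₁ : ι₁ → Lb k q K) (β₂ : ι₂ → Lb k q K) :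
    W.Lin (Sum.elim τ₁ τ₂) (Sum.elim β₁ β₂) =
      W.pullS (pL τ₁ τ₂) (W.Lin τ₁ β₁) * W.pullS (pR τ₁ τ₂) (W.Lin τ₂ β₂) :=
  W.Lin_split Sum.inl Sum.inr (fun _ => rfl) (fun _ => rfl) (by simp) _

omit [CharZero K] [IsAlgClosed K] in
theorem cw_smul (g : ι → P2 k → P2 k) (h : ∀ i, CMap q (τ i) (τ i) (g i))
    (S : ∀ i, W.HS (Cv k q (τ i))) (c : ι → K)
    (hc : ∀ i, ∀ a ∈ (S i).1, W.pull (cm (g i) (h i)) a = c i • a) {a : W.H (Yv k q τ)}
    (ha : a ∈ (W.LinS τ S).1) : W.pull (cw id g h) a = (∏ i, c i) • a := by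
  refine W.lines1_prod_smul (W.pull (cw id g h)) _ _ c ?_ a ha
  rintro i - _ ⟨b, hb, rfl⟩
  show W.pull _ (W.pull _ b) = c i • W.pull _ b
  rw [← map_smul, ← hc i b hb, pull_pull, pull_pull]
  rfl

omit [CharZero K] [IsAlgClosed K] in
theorem Lin_le_gr (β : ι → Lb k q K) : (W.Lin τ β).1 ≤ W.gr _ (∑ i, (β i).deg) := by
  refine W.lines1_prod_gr _ _ _ fun i => ?_
  rintro _ ⟨b, hb, rfl⟩
  exact W.pull_gr _ _ _ (W.V_le_gr _ _ hb)

omit [IsAlgClosed K] in
theorem NZ_LinS (S : ∀ i, W.HS (Cv k q (τ i))) : W.NZ (W.LinS τ S).1 ↔ ∀ i, W.NZ (S i).1 := by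
  revert τ
  refine Fintype.induction_empty_option (P := fun ι _ => ∀ {τ : ι → Bool}
    (S : ∀ i, W.HS (Cv k q (τ i))), W.NZ (W.LinS τ S).1 ↔ ∀ i, W.NZ (S i).1) ?_ ?_ ?_ ι
  · intro α β _ e ih τ S
    let : Fintype α := Fintype.ofEquiv β e.symm
    rw [← W.lines1_equiv e, W.lines1_NZ_aut _ (remap e.symm fun i => by simp)
      (fun x => Yv_ext fun i => by simp) (fun x => Yv_ext fun i => by simp), ih]
    exact e.forall_congr_right (q := fun i => W.NZ (S i).1)
  · intro τ S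
    refine ⟨fun _ i => i.elim, fun _ => ⟨1, ?_, ?_⟩⟩
    · rw [LinS, Finset.univ_eq_empty, Finset.prod_empty]
      exact Submodule.one_le.1 le_rfl
    · obtain ⟨x⟩ : Nonempty (Yv k q τ).pts := inferInstance
      have : (univ : Set (Yv k q τ).pts) = {x} :=
        (eq_singleton_iff_unique_mem.2 ⟨trivial, fun y _ => Yv_ext fun i => i.elim⟩)
      rw [← W.cl_univ, this, W.tr_pt]
      exact one_ne_zero
  · intro α _ ih τ S
    rw [W.lines1_option, W.lines1_NZ_prod (lines1_isProd τ), ih, Option.forall, and_comm]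

omit [CharZero K] [IsAlgClosed K] in
theorem iSup_LinS {L : Bool → Type*} (S : ∀ b, L b → W.HS (Cv k q b))
    (hS : ∀ b, ⨆ t, (S b t).1 = ⊤) :
    ⨆ β : ∀ i, L (τ i), (W.LinS τ fun i => S (τ i) (β i)).1 = ⊤ := by
  revert τ
  refine Fintype.induction_empty_option (P := fun ι _ => ∀ {τ : ι → Bool},
    ⨆ β : ∀ i, L (τ i), (W.LinS τ fun i => S (τ i) (β i)).1 = ⊤) ?_ ?_ ?_ ι
  · intro α γ _ e ih τ
    let : Fintype α := Fintype.ofEquiv γ e.symm
    refine eq_top_iff.2 fun a _ => ?_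
    let f : Mor (Yv k q τ) (Yv k q (τ ∘ e)) := remap e fun _ => rfl
    let g : Mor (Yv k q (τ ∘ e)) (Yv k q τ) := remap e.symm fun i => by simp
    have h1 : W.pull f (W.pull g a) = a := by
      rw [pull_pull]
      exact W.pull_id _ (funext fun x => Yv_ext fun i => by simp [f, g]) a
    have h2 : W.pull g a ∈ ⨆ β : ∀ i, L ((τ ∘ e) i),
        (W.LinS (τ ∘ e) fun i => S ((τ ∘ e) i) (β i)).1 := by rw [ih]; trivial
    rw [← h1]
    generalize W.pull g a = b at h2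
    induction h2 using Submodule.iSup_induction' with
    | mem β b hb =>
      refine Submodule.mem_iSup_of_mem (Equiv.piCongrLeft (fun i => L (τ i)) e β) ?_
      rw [← W.lines1_equiv e]
      simp only [Equiv.piCongrLeft_apply_apply]
      exact ⟨b, hb, rfl⟩
    | zero => simp
    | add x y _ _ hx hy => rw [map_add]; exact add_mem hx hy
  · intro τ
    refine eq_top_iff.2 fun a _ => Submodule.mem_iSup_of_mem (fun i => i.elim) ?_
    rw [LinS, Finset.univ_eq_empty, Finset.prod_empty]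
    show a ∈ (1 : Submodule K _)
    rw [Submodule.one_eq_span, ← W.zero]
    induction a using DirectSum.Decomposition.inductionOn (W.gr (Yv k q τ)) with
    | zero => exact zero_mem _
    | @homogeneous j b =>
      rcases Nat.eq_zero_or_pos j with rfl | hj
      · exact b.2
      · rw [W.gr_eq_zero b.2 (by rw [W.d_Yv]; simpa using hj)]
        exact zero_mem _
    | add b c hb hc => exact add_mem (hb trivial) (hc trivial)
  · intro α _ ih τ
    refine W.prod_span (lines1_isProd τ) _ fun a b => ?_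
    have ha : a ∈ ⨆ β : ∀ i, L ((τ ∘ some) i),
        (W.LinS (τ ∘ some) fun i => S ((τ ∘ some) i) (β i)).1 := by rw [ih]; trivial
    have hb : b ∈ ⨆ t, (S (τ none) t).1 := by rw [hS]; trivial
    induction ha using Submodule.iSup_induction' with
    | zero => simp
    | add x y _ _ hx hy => rw [map_add, add_mul]; exact add_mem hx hy
    | mem β a ha =>
      induction hb using Submodule.iSup_induction' with
      | zero => simp
      | add x y _ _ hx hy => rw [map_add, mul_add]; exact add_mem hx hy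
      | mem t b hb =>
        refine Submodule.mem_iSup_of_mem (fun o => Option.rec (motive := fun o => L (τ o)) t β o) ?_
        rw [W.lines1_option]
        exact Submodule.mul_mem_mul ⟨a, ha, rfl⟩ ⟨b, hb, rfl⟩

omit [CharZero K] [IsAlgClosed K] in
theorem LinS_eq_span (S : ∀ i, W.HS (Cv k q (τ i))) (hS : ∀ i, ∃ u, (S i).1 = K ∙ u) :
    ∃ u, (W.LinS τ S).1 = K ∙ u := by
  refine W.lines1_prod_span _ _ fun i => ?_
  obtain ⟨u, hu⟩ := hS i
  exact ⟨W.pull (pr τ i) u, by rw [pullS_val, hu, Submodule.map_span, image_singleton]; rfl⟩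

omit [CharZero K] [IsAlgClosed K] in
theorem swap_Lin [DecidableEq ι] {i j : ι} (hij : i ≠ j) (h : ∀ l, τ (Equiv.swap i j l) = τ l)
    (β : ι → Lb k q K) (hβ : β i = β j) (hd : (β i).deg = 1) (hu : ∃ u, (W.V (τ i) (β i)).1 = K ∙ u)
    {a : W.H (Yv k q τ)} (ha : a ∈ (W.Lin τ β).1) :
    W.pull (remap (Equiv.swap i j) h) a = -a := by
  obtain ⟨u, hu⟩ := hu
  have hτ : τ j = τ i := by simpa using h i
  have hg : u ∈ W.gr _ 1 := hd ▸ W.V_le_gr _ _ (hu ▸ Submodule.mem_span_singleton_self u)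
  let f : Mor (Yv k q τ) (Cv k q (τ i)) := remap (fun _ => j) fun _ => hτ
  have e1 : W.pull (remap (Equiv.swap i j) h) (W.pull (pr τ i) u) = W.pull f u := by
    rw [pull_pull]
    exact W.pull_congr (fun x => Yv_ext fun _ => by simp [f]) u
  have e2 : W.pull (remap (Equiv.swap i j) h) (W.pull f u) = W.pull (pr τ i) u := by
    rw [pull_pull]
    exact W.pull_congr (fun x => Yv_ext fun _ => by simp [f]) u
  rw [Lin, LinS, ← Finset.mul_prod_erase _ _ (Finset.mem_univ i),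
    ← Finset.mul_prod_erase _ _ (Finset.mem_erase.2 ⟨hij.symm, Finset.mem_univ j⟩), ← mul_assoc,
    ← hβ, ← W.lines1_cast j hτ f (fun _ => rfl)] at ha
  have := W.lines1_mul_smul (W.pull (remap (Equiv.swap i j) h)) (c := -1) ?_
    (W.lines1_prod_smul _ _ _ (fun _ => 1) ?_) a ha
  · simpa using this
  · intro b hb
    rw [Submonoid.coe_mul, pullS_val, pullS_val, hu, Submodule.map_span, Submodule.map_span,
      image_singleton, image_singleton, Submodule.span_mul_span, singleton_mul_singleton,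
      Submodule.mem_span_singleton] at hb
    obtain ⟨t, rfl⟩ := hb
    simp only [AlgHom.toLinearMap_apply, map_smul, map_mul, e1, e2]
    rw [W.comm _ 1 1 _ (W.pull_gr f 1 u hg) _ (W.pull_gr (pr τ i) 1 u hg)]
    simp
  · rintro l hl _ ⟨b, -, rfl⟩
    simp only [Finset.mem_erase] at hl
    show W.pull _ (W.pull _ b) = (1 : K) • W.pull _ b
    rw [pull_pull, one_smul]
    exact W.pull_congr (fun x => Yv_ext fun _ => by
      simp [Equiv.swap_apply_of_ne_of_ne hl.2.1 hl.1]) b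

end Weil

end Pool.Agent.MP_0c8446_ag
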