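import Pool.Agent.MP_0c8446_ag.NTBern

namespace Pool.Agent.MP_0c8446_ag

open Finset

variable {m : ℕ} [NeZero m]

/-- The d-torsion of `ZMod m`. -/
def span_T (m : ℕ) [NeZero m] (d : ℕ) : Finset (ZMod m) :=
  univ.filter fun x => (d : ZMod m) * x = 0

/-- The distribution relation. -/
def span_Dist (ψ : ZMod m → ℂ) : Prop :=
  ∀ d : ℕ, d.Prime → d ∣ m → ∀ a : ZMod m, (d : ZMod m) * a ≠ 0 →
    ∑ x ∈ span_T m d, ψ (a + x) = ψ ((d : ZMod m) * a)

/-- The eigencomponent of a function. -/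
noncomputable def span_tw (χ : DirichletCharacter ℂ m) (F : ZMod m → ℂ) (a : ZMod m) : ℂ :=
  ∑ t : (ZMod m)ˣ, χ ((t⁻¹ : (ZMod m)ˣ) : ZMod m) * F ((t : ZMod m) * a)

theorem span_range {M : Type*} [AddCommMonoid M] {d e : ℕ} (h : d * e = m) (F : ZMod m → M) :
    ∑ i ∈ range d, F ((i : ZMod m) * e) = ∑ x ∈ span_T m d, F x := by
  have hm := NeZero.pos m
  have hd : 0 < d := Nat.pos_of_ne_zero fun h0 => by simp [h0] at h; omega
  have he : 0 < e := Nat.pos_of_ne_zero fun h0 => by simp [h0] at h; omega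
  have hv : ∀ i ∈ range d, ((i : ZMod m) * e).val = i * e := fun i hi => by
    rw [← Nat.cast_mul, ZMod.val_cast_of_lt]
    rw [← h]
    exact Nat.mul_lt_mul_of_pos_right (mem_range.1 hi) he
  refine sum_bij (fun i _ => (i : ZMod m) * e) (fun i _ => ?_) (fun i hi j hj hij => ?_)
    (fun x hx => ?_) fun _ _ => rfl
  · simp only [span_T, mem_filter, mem_univ, true_and]
    rw [mul_left_comm, ← Nat.cast_mul d e, h, ZMod.natCast_self, mul_zero]
  · have := congrArg ZMod.val hij
    rw [hv i hi, hv j hj] at this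
    exact Nat.eq_of_mul_eq_mul_right he this
  · simp only [span_T, mem_filter, mem_univ, true_and] at hx
    rw [← ZMod.natCast_zmod_val x, ← Nat.cast_mul, ZMod.natCast_eq_zero_iff] at hx
    have h2 : d * e ∣ d * x.val := h ▸ hx
    obtain ⟨i, hi⟩ := Nat.dvd_of_mul_dvd_mul_left hd h2
    have h3 : e * i < d * e := by rw [h, ← hi]; exact ZMod.val_lt x
    refine ⟨i, mem_range.2 (by nlinarith), ?_⟩
    rw [← Nat.cast_mul, mul_comm, ← hi, ZMod.natCast_zmod_val]

theorem span_perm (d : ℕ) (F : ZMod m → ℂ) (σ : ZMod m ≃ ZMod m)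
    (h : ∀ x, (d : ZMod m) * x = 0 ↔ (d : ZMod m) * σ x = 0) :
    ∑ x ∈ span_T m d, F (σ x) = ∑ x ∈ span_T m d, F x :=
  sum_equiv σ (fun x => by simpa [span_T] using h x) fun _ _ => rfl

theorem span_odd (d : ℕ) {F : ZMod m → ℂ} (hF : ∀ a, F (-a) = -F a) :
    ∑ x ∈ span_T m d, F x = 0 := by
  have := span_perm d F (Equiv.neg _) (by simp)
  simp only [Equiv.neg_apply, hF, sum_neg_distrib] at this
  linear_combination (-1 / 2 : ℂ) * this

theorem span_tw_eig (χ : DirichletCharacter ℂ m) (F : ZMod m → ℂ) (u : (ZMod m)ˣ) (a : ZMod m) :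
    span_tw χ F (u * a) = χ u * span_tw χ F a := by
  unfold span_tw
  rw [mul_sum, ← Equiv.sum_comp (Equiv.mulRight u) fun t : (ZMod m)ˣ =>
    χ u * (χ ((t⁻¹ : (ZMod m)ˣ) : ZMod m) * F ((t : ZMod m) * a))]
  refine sum_congr rfl fun t _ => ?_
  have e : (u : ZMod m) * (((t * u)⁻¹ : (ZMod m)ˣ) : ZMod m) = ((t⁻¹ : (ZMod m)ˣ) : ZMod m) := by
    rw [← Units.val_mul, mul_inv_rev, mul_inv_cancel_left]
  rw [Equiv.coe_mulRight, ← mul_assoc (χ u), ← map_mul, e, Units.val_mul t u, mul_assoc]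

theorem span_tw_dist (χ : DirichletCharacter ℂ m) {F : ZMod m → ℂ} (hF : span_Dist F) :
    span_Dist (span_tw χ F) := by
  intro d hd hdm a ha
  unfold span_tw
  rw [sum_comm]
  refine sum_congr rfl fun t _ => ?_
  rw [← mul_sum, mul_left_comm, ← hF d hd hdm ((t : ZMod m) * a)
    (by rw [mul_left_comm]; exact fun h => ha ((Units.mul_right_eq_zero t).1 h)),
    ← span_perm d (fun x => F ((t : ZMod m) * a + x)) t.mulLeft
      (fun x => by simp [mul_left_comm (d : ZMod m)])]
  simp [mul_add]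

theorem span_inv (F : ZMod m → ℂ) (a : ZMod m) :
    ∑ χ : DirichletCharacter ℂ m, span_tw χ F a = m.totient * F a := by
  unfold span_tw
  rw [sum_comm]
  simp only [← sum_mul, DirichletCharacter.sum_characters_eq]
  rw [sum_eq_single 1]
  · simp
  · intro t _ ht
    rw [if_neg (by simpa using ht), zero_mul]
  · simp

omit [NeZero m] in
theorem span_mul {n g : ℕ} (h : n * g = m) {x y : ℕ} (hxy : (x : ZMod n) = y) :
    (x : ZMod m) * g = y * g := by
  rw [← Nat.cast_mul, ← Nat.cast_mul, ZMod.natCast_eq_natCast_iff, ← h]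
  exact ((ZMod.natCast_eq_natCast_iff _ _ _).1 hxy).mul_right' g

theorem span_map {n : ℕ} (h : n ∣ m) (t : (ZMod m)ˣ) :
    ((ZMod.unitsMap h t : (ZMod n)ˣ) : ZMod n) = ((t : ZMod m).val : ℕ) := by
  rw [ZMod.unitsMap_val, ZMod.natCast_val]

theorem span_unique (χ : DirichletCharacter ℂ m) (hc : χ.conductor ≠ 1) {ψ : ZMod m → ℂ}
    (he : ∀ (u : (ZMod m)ˣ) a, ψ (u * a) = χ u * ψ a) (hD : span_Dist ψ)
    (h0 : ∀ g : ℕ, χ.conductor * g = m → ψ g = 0) (a : ZMod m) : ψ a = 0 := by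
  suffices H : ∀ n g : ℕ, n * g = m → ∀ w : ℕ, ψ ((w : ZMod m) * g) = 0 by
    simpa using H m 1 (mul_one m) a.val
  intro n
  induction n using Nat.strong_induction_on with
  | _ n IH =>
  intro g hg
  have hm := NeZero.pos m
  have hn : 0 < n := Nat.pos_of_ne_zero fun h => by simp [h] at hg; omega
  have hg0 : 0 < g := Nat.pos_of_ne_zero fun h => by simp [h] at hg; omega
  have hnm : n ∣ m := ⟨g, hg.symm⟩
  have k1 : ∀ w : ℕ, w.Coprime n → ∃ t : (ZMod m)ˣ, (w : ZMod m) * g = t * g ∧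
      (((t : ZMod m).val : ℕ) : ZMod n) = w := fun w hw => by
    obtain ⟨t, ht⟩ := ZMod.unitsMap_surjective hnm (ZMod.unitOfCoprime w hw)
    have h1 : (((t : ZMod m).val : ℕ) : ZMod n) = w := by
      rw [← span_map hnm, ht, ZMod.coe_unitOfCoprime]
    exact ⟨t, by rw [← span_mul hg h1, ZMod.natCast_zmod_val], h1⟩
  have k2 : ∀ w : ℕ, ¬ w.Coprime n → ψ ((w : ZMod m) * g) = 0 := fun w hw => by
    obtain ⟨w', hw'⟩ := Nat.gcd_dvd_left w n
    obtain ⟨n', hn'⟩ := Nat.gcd_dvd_right w n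
    have hq : 0 < w.gcd n := Nat.gcd_pos_of_pos_right _ hn
    have hq1 : w.gcd n ≠ 1 := hw
    have hn0 : 0 < n' := Nat.pos_of_ne_zero fun h => by simp [h] at hn'; omega
    have := IH n' (by nlinarith [show 2 ≤ w.gcd n by omega]) (w.gcd n * g)
      (by rw [← hg]; conv_rhs => rw [hn']
          ring) w'
    rwa [Nat.cast_mul, ← mul_assoc, ← Nat.cast_mul, mul_comm w', ← hw'] at this
  suffices hψ : ψ g = 0 by
    intro w
    by_cases hw : w.Coprime n
    · obtain ⟨t, ht, -⟩ := k1 w hw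
      rw [ht, he, hψ, mul_zero]
    · exact k2 w hw
  by_cases hcn : χ.conductor ∣ n
  swap
  · have h1 : ¬ χ.FactorsThrough n := fun h => hcn (χ.conductor_dvd_of_mem_conductorSet h)
    rw [DirichletCharacter.factorsThrough_iff_ker_unitsMap hnm, SetLike.not_le_iff_exists] at h1
    obtain ⟨t, ht, ht'⟩ := h1
    have h2 : (((t : ZMod m).val : ℕ) : ZMod n) = (1 : ℕ) := by
      rw [← span_map hnm, MonoidHom.mem_ker.1 ht]; simp
    have h3 := span_mul hg h2
    rw [ZMod.natCast_zmod_val, Nat.cast_one, one_mul] at h3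
    have h4 := he t g
    rw [h3] at h4
    have h5 : χ t ≠ 1 := fun h => ht' (MonoidHom.mem_ker.2 (Units.ext (by simpa using h)))
    by_contra h6
    exact h5 (mul_right_cancel₀ h6 (h4.symm.trans (one_mul _).symm))
  obtain ⟨k, hk⟩ := hcn
  by_cases hk1 : k = 1
  · exact h0 g (by rw [hk, hk1, mul_one] at hg; exact hg)
  obtain ⟨d, hd, k', rfl⟩ := Nat.exists_prime_and_dvd hk1
  set n' := χ.conductor * k' with hn'
  have hnn : n = d * n' := by rw [hk, hn']; ring
  have hk0 : 0 < k' := Nat.pos_of_ne_zero fun h => by simp [h] at hk; omega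
  have hc2 : 2 ≤ χ.conductor := by have := χ.conductor_ne_zero; omega
  have hn2 : 2 ≤ n' := by nlinarith
  have hdm : d * (n' * g) = m := by rw [← hg, hnn]; ring
  have hn'm : n' ∣ m := ⟨d * g, by rw [← hdm]; ring⟩
  have hdg : (d : ZMod m) * g ≠ 0 := by
    rw [← Nat.cast_mul, Ne, ZMod.natCast_eq_zero_iff]
    intro h
    have h1 := Nat.le_of_dvd (Nat.mul_pos hd.pos hg0) h
    nlinarith [Nat.mul_pos hd.pos hg0]
  have h1 := hD d hd ⟨_, hdm.symm⟩ g hdg
  have h2 : ψ ((d : ZMod m) * g) = 0 := by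
    simpa using IH n' (by nlinarith [hd.two_le]) (d * g) (by rw [← hdm]; ring) 1
  rw [h2, ← span_range hdm fun x => ψ (g + x)] at h1
  have h3 : ∀ i ∈ range d, ψ (g + (i : ZMod m) * (n' * g : ℕ)) =
      if (1 + i * n').Coprime n then ψ g else 0 := fun i _ => by
    have e : (g : ZMod m) + (i : ZMod m) * (n' * g : ℕ) = ((1 + i * n' : ℕ) : ZMod m) * g := by
      push_cast; ring
    rw [e]
    split_ifs with hw
    · obtain ⟨t, ht, ht'⟩ := k1 _ hw
      have h4 : ZMod.unitsMap hn'm t = 1 := by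
        refine Units.ext ?_
        rw [span_map, Units.val_one]
        have := ((ZMod.natCast_eq_natCast_iff _ _ _).1 ht').of_dvd ⟨d, hnn.trans (mul_comm _ _)⟩
        rw [(ZMod.natCast_eq_natCast_iff _ _ _).2 this]
        simp
      have h5 := (DirichletCharacter.factorsThrough_iff_ker_unitsMap hn'm).1
        ((χ.mem_conductorSet_iff_conductor_dvd hn'm).2 ⟨k', hn'⟩) (MonoidHom.mem_ker.2 h4)
      have h6 : χ t = 1 := by simpa using congrArg Units.val (MonoidHom.mem_ker.1 h5)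
      rw [ht, he, h6, one_mul]
    · exact k2 _ hw
  rw [sum_congr rfl h3, ← sum_filter, sum_const, nsmul_eq_mul, mul_eq_zero] at h1
  refine h1.resolve_left (Nat.cast_ne_zero.2 (card_ne_zero.2 ⟨0, ?_⟩))
  simp [hd.pos]

theorem span_saw_dist : span_Dist fun a : ZMod m => (saw a : ℂ) := by
  intro d hd hdm a ha
  obtain ⟨e, he⟩ := hdm
  have hm := NeZero.pos m
  have he0 : 0 < e := Nat.pos_of_ne_zero fun h => by simp [h] at he; omega
  have hde : (d : ZMod m) * e = 0 := by rw [← Nat.cast_mul, ← he, ZMod.natCast_self]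
  set r := a.val % e with hr
  have hre : r < e := Nat.mod_lt _ he0
  have ha' : a = (r : ZMod m) + (e : ZMod m) * ((a.val / e : ℕ) : ZMod m) := by
    rw [← Nat.cast_mul, ← Nat.cast_add, hr, Nat.mod_add_div, ZMod.natCast_zmod_val]
  have hda : (d : ZMod m) * a = (d * r : ℕ) := by
    rw [ha', mul_add, ← mul_assoc, hde]; simp
  have h1 := span_perm d (fun x => (saw ((r : ZMod m) + x) : ℂ))
    (Equiv.addLeft ((e : ZMod m) * ((a.val / e : ℕ) : ZMod m)))
    (fun x => by rw [Equiv.coe_addLeft, mul_add, ← mul_assoc, hde]; simp)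
  simp only [Equiv.coe_addLeft, ← add_assoc, ← ha'] at h1
  simp only
  rw [h1, ← span_range he.symm fun x => (saw ((r : ZMod m) + x) : ℂ)]
  have h2 : ∀ i ∈ range d, (saw ((r : ZMod m) + (i : ZMod m) * (e : ZMod m)) : ℂ) =
      (r : ℂ) / m - 1 / 2 + i * (e / m) := fun i hi => by
    have hne : (r : ZMod m) + (i : ZMod m) * e ≠ 0 := fun h => ha (by
      have := congrArg (fun x => (d : ZMod m) * x) h
      simp only [mul_add, mul_left_comm (d : ZMod m), hde, mul_zero, add_zero] at this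
      rw [hda, Nat.cast_mul, this])
    rw [saw, if_neg hne, ← Nat.cast_mul, ← Nat.cast_add, ZMod.val_cast_of_lt
      (by have := mem_range.1 hi; nlinarith)]
    push_cast
    ring
  have h3 : ∑ i ∈ range d, (i : ℂ) = d * (d - 1) / 2 := by
    clear * -
    induction d with
    | zero => simp
    | succ d ih => rw [sum_range_succ, ih]; push_cast; ring
  rw [sum_congr rfl h2, sum_add_distrib, ← sum_mul, h3, sum_const, card_range, nsmul_eq_mul, saw,
    if_neg ha, hda, ZMod.val_cast_of_lt (by nlinarith [hd.pos])]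
  have hd0 : (d : ℂ) ≠ 0 := Nat.cast_ne_zero.2 hd.ne_zero
  have he1 : (e : ℂ) ≠ 0 := Nat.cast_ne_zero.2 he0.ne'
  have hm' : (m : ℂ) = d * e := by rw [he]; push_cast; rfl
  push_cast
  rw [hm']
  field_simp
  ring

theorem span_beta {c g : ℕ} [NeZero c] (hg : c * g = m) (χ : DirichletCharacter ℂ c)
    (hχ : χ.IsPrimitive) (hodd : χ (-1) = -1) :
    span_tw (DirichletCharacter.changeLevel (Dvd.intro g hg) χ)
      (fun a : ZMod m => (saw a : ℂ)) g ≠ 0 := by
  have hcm : c ∣ m := Dvd.intro g hg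
  have hm := NeZero.pos m
  have hg0 : 0 < g := Nat.pos_of_ne_zero fun h => by simp [h] at hg; omega
  have : Nontrivial (ZMod c) := by
    by_contra h
    rw [not_nontrivial_iff_subsingleton] at h
    rw [Subsingleton.elim (-1 : ZMod c) 1, map_one] at hodd
    norm_num at hodd
  have ho : χ⁻¹ (-1) = -1 := by rw [MulChar.inv_apply_eq_inv', hodd]; norm_num
  have hp : (χ⁻¹).IsPrimitive := by
    rw [DirichletCharacter.isPrimitive_def, DirichletCharacter.conductor_inv]; exact hχ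
  have hne : χ⁻¹ ≠ 1 := by
    intro h
    rw [h, MulChar.one_apply (isUnit_one.neg)] at ho
    norm_num at ho
  let G : ZMod c → ℂ := fun a => χ⁻¹ a * ((a.val : ℂ) / c - 1 / 2)
  have h1 : ∀ t : (ZMod m)ˣ, DirichletCharacter.changeLevel hcm χ ((t⁻¹ : (ZMod m)ˣ) : ZMod m) *
      (saw ((t : ZMod m) * (g : ZMod m)) : ℂ) = G (ZMod.unitsMap hcm t) := fun t => by
    set u := ZMod.unitsMap hcm t with hu
    have h2 : (t : ZMod m) * g = (((u : ZMod c).val * g : ℕ) : ZMod m) := by
      rw [Nat.cast_mul, span_mul hg (x := (u : ZMod c).val) (y := (t : ZMod m).val)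
        (by rw [ZMod.natCast_zmod_val, hu, span_map]), ZMod.natCast_zmod_val]
    have h3 : (u : ZMod c).val * g < m := by
      rw [← hg]; exact Nat.mul_lt_mul_of_pos_right (ZMod.val_lt _) hg0
    have h4 : 0 < (u : ZMod c).val := Nat.pos_of_ne_zero ((ZMod.val_ne_zero _).2 u.ne_zero)
    have h5 : (((u : ZMod c).val * g : ℕ) : ZMod m) ≠ 0 := by
      rw [Ne, ZMod.natCast_eq_zero_iff]
      exact Nat.not_dvd_of_pos_of_lt (Nat.mul_pos h4 hg0) h3
    rw [DirichletCharacter.changeLevel_eq_cast_of_dvd, ← ZMod.unitsMap_val hcm, map_inv, ← hu, h2,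
      saw, if_neg h5, ZMod.val_cast_of_lt h3]
    have hm' : (m : ℂ) = c * g := by rw [← hg]; push_cast; rfl
    have hg1 : (g : ℂ) ≠ 0 := Nat.cast_ne_zero.2 hg0.ne'
    simp only [G]
    rw [MulChar.inv_apply χ, Ring.inverse_unit]
    push_cast
    rw [hm', mul_div_mul_right _ _ hg1]
  unfold span_tw
  rw [sum_congr rfl fun t _ => h1 t, ← sum_fiberwise univ (ZMod.unitsMap hcm)]
  have h6 : ∀ u : (ZMod c)ˣ, ∑ t ∈ univ.filter (fun t => ZMod.unitsMap hcm t = u),
      G (ZMod.unitsMap hcm t) =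
        (univ.filter fun t => ZMod.unitsMap hcm t = 1).card * G u := fun u => by
    rw [sum_congr rfl fun t ht => by rw [(mem_filter.1 ht).2], sum_const, nsmul_eq_mul,
      MonoidHom.card_fiber_eq_of_mem_range (ZMod.unitsMap hcm)
        (ZMod.unitsMap_surjective hcm u) (ZMod.unitsMap_surjective hcm 1)]
  rw [sum_congr rfl fun u _ => h6 u, ← mul_sum]
  refine mul_ne_zero (Nat.cast_ne_zero.2 (card_ne_zero.2 ⟨1, by simp⟩)) ?_
  rw [Fintype.sum_of_injective Units.val Units.val_injective _ G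
    (fun a ha => by
      simp only [G]
      rw [MulChar.map_nonunit _ (by rintro ⟨u, rfl⟩; exact ha ⟨u, rfl⟩), zero_mul])
    fun _ => rfl]
  have h7 : ∑ a, G a = (∑ a : ZMod c, χ⁻¹ a * (a.val : ℂ)) / c - (∑ a : ZMod c, χ⁻¹ a) / 2 := by
    rw [sum_div, sum_div, ← sum_sub_distrib]
    exact sum_congr rfl fun a _ => by simp only [G]; ring
  rw [h7, MulChar.sum_eq_zero_of_ne_one hne, zero_div, sub_zero]
  exact div_ne_zero (bern_ne_zero χ⁻¹ hp ho) (Nat.cast_ne_zero.2 (NeZero.ne c))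

theorem span_main {p : ℕ} (hp : p.Coprime m) (f : ℕ) (hf : 0 < f) (F : ZMod m → ℂ)
    (hodd : ∀ a, F (-a) = -F a) (hfr : ∀ a, F ((p : ZMod m) * a) = F a) (hD : span_Dist F)
    (s : ZMod m → ℂ) (hs : ∀ t : (ZMod m)ˣ, ∑ a : ZMod m, s a *
      ∑ i ∈ range f, (saw ((t : ZMod m) * (p : ZMod m) ^ i * a) : ℂ) = 0) :
    ∑ a, s a * F a = 0 := by
  suffices H : ∀ χ : DirichletCharacter ℂ m, ∑ a, s a * span_tw χ F a = 0 by
    have h1 : ∑ χ : DirichletCharacter ℂ m, ∑ a, s a * span_tw χ F a = 0 :=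
      sum_eq_zero fun χ _ => H χ
    rw [sum_comm] at h1
    simp only [← mul_sum, span_inv, mul_left_comm (s _)] at h1
    exact (mul_eq_zero.1 h1).resolve_left
      (Nat.cast_ne_zero.2 (Nat.totient_pos.2 (NeZero.pos m)).ne')
  intro χ
  have hP : ((ZMod.unitOfCoprime p hp : (ZMod m)ˣ) : ZMod m) = p := ZMod.coe_unitOfCoprime p hp
  by_cases h1 : χ (-1) = -1
  swap
  · refine sum_eq_zero fun a _ => mul_eq_zero_of_right _ ?_
    have h2 := span_tw_eig χ F (-1) a
    have h3 : span_tw χ F (-1 * a) = -span_tw χ F a := by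
      simp [span_tw, hodd]
    rw [Units.val_neg, Units.val_one, h3] at h2
    by_contra h4
    exact h1 (mul_right_cancel₀ h4 (by linear_combination -h2))
  by_cases h2 : χ p = 1
  swap
  · refine sum_eq_zero fun a _ => mul_eq_zero_of_right _ ?_
    have h3 := span_tw_eig χ F (ZMod.unitOfCoprime p hp) a
    have h4 : span_tw χ F (p * a) = span_tw χ F a := by
      simp only [span_tw, mul_left_comm _ (p : ZMod m), hfr]
    rw [hP, h4] at h3
    by_contra h5
    exact h2 (mul_right_cancel₀ h5 (by linear_combination -h3))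
  set β := span_tw χ fun a : ZMod m => (saw a : ℂ) with hβ
  have : NeZero χ.conductor := ⟨χ.conductor_ne_zero⟩
  obtain ⟨g, hg⟩ := χ.conductor_dvd_level
  have hb : β g ≠ 0 := by
    have h3 := span_beta hg.symm χ.primitiveCharacter χ.primitiveCharacter_isPrimitive
      (by
        simpa [h1] using χ.primitiveCharacter_apply_of_isCoprime (a := -1)
          (isCoprime_one_left (R := ℤ)).neg_left)
    rwa [χ.changeLevel_primitiveCharacter] at h3
  have hc : χ.conductor ≠ 1 := fun h => by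
    rw [← DirichletCharacter.eq_one_iff_conductor_eq_one] at h
    rw [h, MulChar.one_apply (isUnit_one.neg)] at h1
    norm_num at h1
  have h3 : ∀ a, span_tw χ F a = span_tw χ F g / β g * β a := fun a => by
    refine sub_eq_zero.1 (span_unique χ hc
      (ψ := fun a => span_tw χ F a - span_tw χ F g / β g * β a) (fun u a => ?_)
      (fun d hd hdm a ha => ?_) (fun g' hg' => ?_) a)
    · rw [hβ, span_tw_eig, span_tw_eig]; ring
    · simp only
      rw [sum_sub_distrib, ← mul_sum, span_tw_dist χ hD d hd hdm a ha,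
        span_tw_dist χ span_saw_dist d hd hdm a ha]
    · obtain rfl : g' = g := Nat.eq_of_mul_eq_mul_left (NeZero.pos _) (hg'.trans hg)
      rw [div_mul_cancel₀ _ hb, sub_self]
  have h4 : ∀ (i : ℕ) a, β ((p : ZMod m) ^ i * a) = β a := fun i a => by
    have := span_tw_eig χ (fun a : ZMod m => (saw a : ℂ)) (ZMod.unitOfCoprime p hp ^ i) a
    rwa [Units.val_pow_eq_pow_val, hP, map_pow, h2, one_pow, one_mul] at this
  have h5 : (f : ℂ) * ∑ a, s a * β a = 0 := by
    calc (f : ℂ) * ∑ a, s a * β a = ∑ a, s a * ∑ i ∈ range f, β ((p : ZMod m) ^ i * a) := by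
          rw [mul_sum]
          refine sum_congr rfl fun a _ => ?_
          rw [sum_congr rfl fun i _ => h4 i a, sum_const, card_range, nsmul_eq_mul, mul_left_comm]
      _ = ∑ t : (ZMod m)ˣ, χ ((t⁻¹ : (ZMod m)ˣ) : ZMod m) * ∑ a : ZMod m, s a *
          ∑ i ∈ range f, (saw ((t : ZMod m) * (p : ZMod m) ^ i * a) : ℂ) := by
          simp only [hβ, span_tw, mul_sum, mul_assoc]
          rw [sum_comm (s := univ (α := (ZMod m)ˣ))]
          refine sum_congr rfl fun a _ => ?_
          rw [sum_comm]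
          exact sum_congr rfl fun t _ => sum_congr rfl fun i _ => by ring
      _ = 0 := by simp only [hs, mul_zero, sum_const_zero]
  have h6 := (mul_eq_zero.1 h5).resolve_left (Nat.cast_ne_zero.2 hf.ne')
  rw [sum_congr rfl fun a _ => by rw [h3 a, mul_left_comm], ← mul_sum, h6, mul_zero]

theorem span_rel {m p : ℕ} [NeZero m] (hp : p.Coprime m) (f : ℕ) (hf : 0 < f) (B : AddSubgroup (ZMod m → ℤ)) (h0 : Pi.single 0 1 ∈ B) (hrefl : ∀ a : ZMod m, Pi.single a 1 + Pi.single (-a) 1 ∈ B) (hfrob : ∀ a : ZMod m, Pi.single ((p : ZMod m) * a) 1 - Pi.single a 1 ∈ B) (hdist : ∀ d e : ℕ, d.Prime → d * e = m → ∀ a : ZMod m, (d : ZMod m) * a ≠ 0 → ∑ i ∈ range d, Pi.single (a + (i : ZMod m) * e) 1 - Pi.single ((d : ZMod m) * a) 1 - ∑ j ∈ range d, Pi.single ((j : ZMod m) * e) 1 ∈ B) (s : ZMod m → ℤ) (hs : ∀ t : (ZMod m)ˣ, ∑ a : ZMod m, (s a : ℚ) * ∑ i ∈ range f, saw ((t : ZMod m) * (p : ZMod m) ^ i * a) = 0) : ∃ N : ℕ, 0 < N ∧ N • s ∈ B := by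
  let ι : (ZMod m → ℤ) →+ (ZMod m → ℚ) := (Int.castAddHom ℚ).compLeft (ZMod m)
  have hι : Function.Injective ι := fun x y h => funext fun a => by
    simpa [ι] using congrFun h a
  by_cases hmem : ι s ∈ Submodule.span ℚ (ι '' B)
  · have H : ∀ v ∈ Submodule.span ℚ (ι '' B), ∃ N : ℕ, 0 < N ∧ ∃ b ∈ B, N • v = ι b := by
      intro v hv
      induction hv using Submodule.span_induction with
      | mem x hx => obtain ⟨b, hb, rfl⟩ := hx; exact ⟨1, one_pos, b, hb, one_nsmul _⟩
      | zero => exact ⟨1, one_pos, 0, B.zero_mem, by simp⟩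
      | add x y _ _ hx hy =>
        obtain ⟨N, hN, b, hb, e⟩ := hx
        obtain ⟨N', hN', b', hb', e'⟩ := hy
        refine ⟨N * N', Nat.mul_pos hN hN', N' • b + N • b',
          B.add_mem (B.nsmul_mem hb _) (B.nsmul_mem hb' _), ?_⟩
        rw [map_add, map_nsmul, map_nsmul, ← e, ← e', smul_add, smul_smul, smul_smul, mul_comm N']
      | smul q x _ hx =>
        obtain ⟨N, hN, b, hb, e⟩ := hx
        refine ⟨q.den * N, Nat.mul_pos q.den_pos hN, q.num • b, B.zsmul_mem hb _, ?_⟩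
        rw [map_zsmul, ← e]
        funext a
        have := Rat.mul_den_eq_num q
        rw [Pi.smul_apply, Pi.smul_apply, Pi.smul_apply, Pi.smul_apply]
        simp only [smul_eq_mul, nsmul_eq_mul, zsmul_eq_mul]
        push_cast
        rw [← this]
        ring
    obtain ⟨N, hN, b, hb, e⟩ := H _ hmem
    rw [← map_nsmul] at e
    exact ⟨N, hN, hι e ▸ hb⟩
  exfalso
  obtain ⟨φ, hφ, hφ'⟩ := Submodule.exists_dual_map_eq_bot_of_notMem hmem inferInstance
  let L : (ZMod m → ℤ) →+ ℂ := (Rat.castHom ℂ).toAddMonoidHom.comp (φ.toAddMonoidHom.comp ι)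
  have hL : ∀ b ∈ B, L b = 0 := fun b hb => by
    have : φ (ι b) ∈ (Submodule.span ℚ (ι '' B)).map φ :=
      Submodule.mem_map_of_mem (Submodule.subset_span ⟨b, hb, rfl⟩)
    rw [hφ', Submodule.mem_bot] at this
    simp [L, this]
  have hodd : ∀ a : ZMod m, L (Pi.single (-a) 1) = -L (Pi.single a 1) := fun a => by
    have := hL _ (hrefl a)
    rw [map_add] at this
    linear_combination this
  have h1 := span_main hp f hf (fun a => L (Pi.single a 1)) hodd
    (fun a => by have := hL _ (hfrob a); rwa [map_sub, sub_eq_zero] at this)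
    (fun d hd ⟨e, he⟩ a ha => by
      have := hL _ (hdist d e hd he.symm a ha)
      rwa [map_sub, map_sub, map_sum, map_sum,
        span_range he.symm fun x => L (Pi.single (a + x) 1),
        span_range he.symm fun x => L (Pi.single x 1), 
        span_odd d (F := fun x => L (Pi.single x 1)) hodd, sub_zero,
        sub_eq_zero] at this)
    (fun a => (s a : ℂ)) fun t => by exact_mod_cast hs t
  have h2 : L s = 0 := by
    rw [← h1, ← univ_sum_single s, map_sum]
    refine sum_congr rfl fun a _ => ?_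
    rw [univ_sum_single, ← zsmul_eq_mul, ← map_zsmul, ← Pi.single_smul, smul_eq_mul, mul_one]
  exact hφ (by simpa [L] using h2)

end Pool.Agent.MP_0c8446_ag
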