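import Pool.Agent.MP_0c8446_ag.RDefs
import Pool.Agent.MP_0c8446_ag.NTSpan
import Pool.Agent.MP_0c8446_ag.NTStick

namespace Pool.Agent.MP_0c8446_ag

open Finset

universe u v w

variable {k : Type u} [Field k] {q : ℕ} [IsQ k q] {K : Type v} [Field K]

/-- The characters `ω ^ a` for `a` modulo the order of `ω`. -/
lemma mainA_add {m : ℕ} [NeZero m] {ω : MulChar (Fq k q) K} (hω : orderOf ω = m) (a b : ZMod m) :
    ω ^ (a + b).val = ω ^ a.val * ω ^ b.val := by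
  have := pow_mod_orderOf ω (a.val + b.val)
  rwa [hω, ← ZMod.val_add, pow_add] at this

lemma mainA_mul {m : ℕ} [NeZero m] {ω : MulChar (Fq k q) K} (hω : orderOf ω = m) (n : ℕ)
    (a : ZMod m) : ω ^ ((n : ZMod m) * a).val = (ω ^ a.val) ^ n := by
  induction n with
  | zero => simp
  | succ n ih => rw [Nat.cast_succ, add_mul, one_mul, mainA_add hω, ih, pow_succ]

lemma mainA_eq_one {m : ℕ} [NeZero m] {ω : MulChar (Fq k q) K} (hω : orderOf ω = m) {a : ZMod m} :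
    ω ^ a.val = 1 ↔ a = 0 := by
  rw [← orderOf_dvd_iff_pow_eq_one, hω, ← ZMod.natCast_eq_zero_iff, ZMod.natCast_zmod_val]

lemma mainA_neg {m : ℕ} [NeZero m] {ω : MulChar (Fq k q) K} (hω : orderOf ω = m) (a : ZMod m) :
    ω ^ (-a).val = (ω ^ a.val)⁻¹ :=
  eq_inv_of_mul_eq_one_left (by rw [← mainA_add hω, neg_add_cancel, mainA_eq_one hω])

lemma mainA_surj [IsAlgClosed k] [IsAlgClosed K] [CharZero K] {m : ℕ} [NeZero m] (hm : m = q - 1)
    {ω : MulChar (Fq k q) K} (hω : orderOf ω = m) (χ : MulChar (Fq k q) K) :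
    ∃ a : ZMod m, ω ^ a.val = χ := by
  classical
  have : Finite (MulChar (Fq k q) K) := inferInstance
  have h1 : Nat.card (MulChar (Fq k q) K) = m := by
    rw [MulChar.card_eq_card_units_of_hasEnoughRootsOfUnity, Nat.card_eq_fintype_card,
      Fintype.card_units, card_Fq, hm]
  have h2 : Subgroup.zpowers ω = ⊤ := by
    rw [← Subgroup.card_eq_iff_eq_top, Nat.card_zpowers, hω, h1]
  obtain ⟨n, rfl⟩ := (mem_powers_iff_mem_zpowers.2 (h2 ▸ Subgroup.mem_top χ) : χ ∈ Submonoid.powers ω)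
  refine ⟨n, ?_⟩
  rw [ZMod.val_natCast]
  conv_lhs => rw [← hω]
  exact pow_mod_orderOf ω _

lemma mainA_root [IsAlgClosed k] (χ : MulChar (Fq k q) K) (c : (Fq k q)ˣ) :
    χ c ^ (2 * (q - 1)) = 1 := by
  classical
  rw [mul_comm, pow_mul, ← MulChar.pow_apply_coe]
  have := χ.pow_card_eq_one
  rw [Fintype.card_units, card_Fq] at this
  simp [this]

theorem mainA [IsAlgClosed k] [IsAlgClosed K] [CharZero K] {p f : ℕ} [Fact p.Prime] (hf : 0 < f)
    (hq : q = p ^ f) {Q : Type*} [AddCommGroup Q] (c : Bool × Lb k q K → Q)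
    (hone : ∀ b, c (b, .one) = 0) (hpt : ∀ b, c (b, .pt) = 0)
    (hshift : ∀ ω ψ ψ', ω ≠ 1 → ψ ≠ 1 → ψ' ≠ 1 → c (Dl ω ψ') + c (Dl ω⁻¹ ψ) = 0)
    (hfrob : ∀ ω ψ, ω ≠ 1 → ψ ≠ 1 → ω ^ p ≠ 1 ∧ c (Dl (ω ^ p) ψ) + c (Dl ω⁻¹ ψ) = 0)
    (hjac : ∀ ω₁ ω₂ ψ, ω₁ ≠ 1 → ω₂ ≠ 1 → ω₁ * ω₂ ≠ 1 → ψ ≠ 1 →
      c (Fl ω₁⁻¹ ω₂⁻¹) + c (Dl (ω₁ * ω₂)⁻¹ ψ⁻¹) + c (Dl ω₁ ψ) + c (Dl ω₂ ψ) = 0)
    (hhd : ∀ (d e : ℕ) ρ ω ψ, d.Prime → d * e = q - 1 → orderOf ρ = d → ω ^ d ≠ 1 → ψ ≠ 1 →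
      ∑ i ∈ range d, c (Dl (ω * ρ ^ i)⁻¹ ψ⁻¹) + c (Dl (ω ^ d) ψ) +
        ∑ j ∈ (range d).erase 0, c (Dl (ρ ^ j) ψ) = 0)
    {ι : Type} [Fintype ι] (τ : ι → Bool) (β : ι → Lb k q K) (hβ : ∀ i, (β i).Ok (τ i))
    {R n : ℕ} (hR : 0 < R) (h : (∏ i, (β i).lam (τ i)) ^ R = n) :
    ∃ N : ℕ, 0 < N ∧ N • ∑ i, c (τ i, β i) = 0 := by
  classical
  obtain ⟨m, hm⟩ : ∃ m, m = q - 1 := ⟨_, rfl⟩
  have hm0 : 0 < m := hm ▸ IsQ.pos k q
  have : NeZero m := ⟨hm0.ne'⟩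
  have hm1 : m + 1 = p ^ f := by have := IsQ.one_lt (k := k) (q := q); omega
  obtain ⟨ζ, hζ⟩ := HasEnoughRootsOfUnity.exists_primitiveRoot K m
  obtain ⟨ω, hω⟩ := MulChar.exists_mulChar_orderOf (Fq k q) (by rw [card_Fq, hm]) hζ
  obtain ⟨ψ, hψ⟩ : ∃ ψ : AddChar (Fq k q) K, ψ ≠ 1 := by
    obtain ⟨φ, hφ⟩ := CommGroup.exists_apply_ne_one_of_hasEnoughRootsOfUnity
      (Multiplicative (Fq k q)) K (a := Multiplicative.ofAdd 1) (by simp)
    refine ⟨AddChar.toMonoidHomEquiv.symm ((Units.coeHom K).comp φ), fun e => hφ (Units.ext ?_)⟩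
    simpa using DFunLike.congr_fun e 1
  have hψi : ψ⁻¹ ≠ 1 := inv_ne_one.2 hψ
  let gl : MulChar (Fq k q) K → Q := fun χ => if χ = 1 then 0 else c (Dl χ ψ)
  have gl1 : gl 1 = 0 := if_pos rfl
  have glD : ∀ χ ψ', χ ≠ 1 → ψ' ≠ 1 → c (Dl χ ψ') = gl χ := fun χ ψ' h1 h2 => by
    simp only [gl, if_neg h1]
    exact add_right_cancel ((hshift χ ψ ψ' h1 hψ h2).trans (hshift χ ψ ψ h1 hψ hψ).symm)
  have gli : ∀ χ, gl χ⁻¹ = -gl χ := fun χ => by
    by_cases h1 : χ = 1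
    · simp [h1, gl1]
    · rw [← glD χ ψ h1 hψ, ← glD χ⁻¹ ψ (inv_ne_one.2 h1) hψ]
      exact eq_neg_of_add_eq_zero_right (hshift χ ψ ψ h1 hψ hψ)
  let E : (ZMod m → ℤ) →+ Q :=
    { toFun s := ∑ a, s a • gl (ω ^ a.val)
      map_zero' := by simp
      map_add' s t := by simp [add_smul, sum_add_distrib] }
  have hE : ∀ a, E (Pi.single a 1) = gl (ω ^ a.val) := fun a => by
    simp only [E, AddMonoidHom.coe_mk, ZeroHom.coe_mk]
    rw [sum_eq_single a] <;> simp +contextual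
  have hcard : (Fintype.card (Fq k q) : K) = q := by rw [card_Fq]
  have hq0 : (q : K) ≠ 0 := by
    have := IsQ.one_lt (k := k) (q := q)
    exact Nat.cast_ne_zero.2 (by omega)
  have hprim := AddChar.IsPrimitive.of_ne_one hψ
  let G : (ZMod m → ℕ) → K := fun s => ∏ a, gaussSum (ω ^ a.val) ψ ^ s a
  have G0 : G 0 = 1 := by simp [G]
  have Gadd : ∀ s t, G (s + t) = G s * G t := fun s t => by
    simp only [G, Pi.add_apply, pow_add, prod_mul_distrib]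
  have Gs : ∀ a, G (Pi.single a 1) = gaussSum (ω ^ a.val) ψ := fun a => by
    simp only [G]
    rw [prod_eq_single a] <;> simp +contextual
  have cs : ∀ a : ZMod m, (fun x => ((Pi.single a 1 : ZMod m → ℕ) x : ℤ)) = Pi.single a 1 :=
    fun a => by funext x; simp [Pi.single_apply]
  have key : ∀ b (t : Lb k q K), t.Ok b → ∃ s : ZMod m → ℕ, c (b, t) = E (fun a => s a) ∧
      ∃ r : ℚ, G s ^ (2 * (q - 1)) = r * t.lam b ^ (2 * (q - 1)) := by
    intro b t ht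
    rcases t with _ | _ | ⟨ω₁, ω₂, ψ'⟩
    · exact ⟨0, (hone b).trans (map_zero E).symm, 1, by cases b <;> simp [G0, Lb.lam]⟩
    · refine ⟨0, (hpt b).trans (map_zero E).symm, ((q : ℚ) ^ (2 * (q - 1)))⁻¹, ?_⟩
      cases b <;> simp [G0, Lb.lam, hq0]
    cases b
    · obtain ⟨h1, rfl, h2⟩ := ht
      obtain ⟨a, rfl⟩ := mainA_surj hm hω ω₁
      refine ⟨Pi.single a 1, by rw [cs, hE]; exact glD _ _ h1 h2, 1, ?_⟩
      obtain ⟨x, rfl⟩ := stick_shift hψ ψ'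
      have hx : x ≠ 0 := by rintro rfl; simp at h2
      have := gaussSum_mulShift (ω ^ a.val) ψ (Units.mk0 x hx)
      rw [Gs, ← this, mul_pow, mainA_root, Lb.lam, Even.neg_pow (by simp)]
      simp
    · obtain ⟨h1, h2, h3, rfl⟩ := ht
      obtain ⟨a₁, rfl⟩ := mainA_surj hm hω ω₁
      obtain ⟨a₂, rfl⟩ := mainA_surj hm hω ω₂
      refine ⟨Pi.single a₁ 1 + Pi.single a₂ 1 + Pi.single (-(a₁ + a₂)) 1, ?_,
        (q : ℚ) ^ (2 * (q - 1)), ?_⟩
      · have e : (fun x => ((Pi.single a₁ 1 + Pi.single a₂ 1 + Pi.single (-(a₁ + a₂)) 1 :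
            ZMod m → ℕ) x : ℤ)) = Pi.single a₁ 1 + Pi.single a₂ 1 + Pi.single (-(a₁ + a₂)) 1 := by
          rw [← cs, ← cs, ← cs]
          funext x
          simp
        have h4 := hjac _ _ ψ (inv_ne_one.2 h1) (inv_ne_one.2 h2)
          (by rw [← mul_inv]; exact inv_ne_one.2 h3) hψ
        rw [inv_inv, inv_inv, ← mul_inv, inv_inv, glD _ _ h3 hψi, glD _ _ (inv_ne_one.2 h1) hψ,
          glD _ _ (inv_ne_one.2 h2) hψ, gli, gli] at h4
        rw [e, map_add, map_add, hE, hE, hE, mainA_neg hω, mainA_add hω, gli]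
        show c (Fl _ _) = _
        linear_combination (norm := abel1) h4
      · have h4 := jacobiSum_mul_nontrivial h3 ψ
        have h5 := gaussSum_mul_gaussSum_eq_card h3 hprim
        have h6 := mul_gaussSum_inv_eq_gaussSum (ω ^ a₁.val * ω ^ a₂.val)⁻¹ ψ
        have h7 := mainA_root (ω ^ a₁.val * ω ^ a₂.val)⁻¹ (-1)
        rw [Gadd, Gadd, Gs, Gs, Gs, mainA_neg hω, mainA_add hω, ← h4, ← h6, Lb.lam,
          Even.neg_pow (by simp)]
        rw [Units.coe_neg_one] at h7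
        push_cast
        rw [← hcard, ← h5]
        simp only [mul_pow, h7]
        ring
  choose s hs r hr using fun i => key _ _ (hβ i)
  have hG : G (∑ i, s i) = ∏ i, G (s i) := by
    let G' : Multiplicative (ZMod m → ℕ) →* K :=
      { toFun s := G s.toAdd, map_one' := G0, map_mul' s t := Gadd _ _ }
    exact map_prod G' (fun i => Multiplicative.ofAdd (s i)) univ
  have hrat : G (∑ i, s i) ^ (2 * (q - 1) * R) = (((∏ i, r i) ^ R * n ^ (2 * (q - 1)) : ℚ) : K) := by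
    rw [hG, pow_mul, ← prod_pow]
    simp only [hr, prod_mul_distrib, mul_pow, prod_pow]
    push_cast
    rw [← h, ← pow_mul, ← pow_mul, mul_comm R]
  have hst := stick (card_Fq.trans hq) hm1 ω hω ψ hψ (∑ i, s i) _
    (Nat.mul_pos (by omega) hR) _ hrat
  have hcop : p.Coprime m := by
    have : (p ^ f).Coprime m := by rw [← hm1]; simp
    exact Nat.Coprime.coprime_dvd_left (dvd_pow_self p hf.ne') this
  obtain ⟨N, hN, hNs⟩ := span_rel hcop f hf E.ker (by simp [AddMonoidHom.mem_ker, hE, gl1])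
    (fun a => by simp [AddMonoidHom.mem_ker, hE, mainA_neg hω, gli])
    (fun a => by
      rw [AddMonoidHom.mem_ker, map_sub, hE, hE, mainA_mul hω]
      by_cases h1 : ω ^ a.val = 1
      · simp [h1]
      · obtain ⟨h2, h3⟩ := hfrob _ ψ h1 hψ
        rwa [glD _ _ h2 hψ, glD _ _ (inv_ne_one.2 h1) hψ, gli, ← sub_eq_add_neg] at h3)
    (fun d e hd hde a ha => by
      have he : 0 < e := Nat.pos_of_mul_pos_left (hde ▸ hm0)
      have hρ : orderOf (ω ^ e) = d := by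
        rw [orderOf_pow' _ he.ne', hω, ← hde, Nat.gcd_mul_left_left, Nat.mul_div_cancel _ he]
      have h0 : ∀ i : ℕ, ω ^ ((i : ZMod m) * e).val = (ω ^ e) ^ i := fun i => by
        rw [mainA_mul hω, ← mul_one (e : ZMod m), mainA_mul hω]
        congr 2
        rw [ZMod.val_one_eq_one_mod]
        conv_lhs => rw [← hω]
        rw [pow_mod_orderOf, pow_one]
      have h1 : (ω ^ a.val) ^ d ≠ 1 := by rwa [← mainA_mul hω, Ne, mainA_eq_one hω]
      have h2 := hhd d e _ _ ψ hd (hde.trans hm) hρ h1 hψ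
      have h3 : ∀ i, ω ^ a.val * (ω ^ e) ^ i ≠ 1 := fun i h4 => h1 (by
        have := congrArg (· ^ d) h4
        simp only [mul_pow, one_pow] at this
        have h5 : (ω ^ e) ^ d = 1 := hρ ▸ pow_orderOf_eq_one _
        rwa [pow_right_comm (ω ^ e), h5, one_pow, mul_one] at this)
      have h4 : ∑ j ∈ (range d).erase 0, c (Dl ((ω ^ e) ^ j) ψ) =
          ∑ j ∈ range d, gl ((ω ^ e) ^ j) := by
        rw [← sum_erase (range d) (a := 0) (by simp [gl1])]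
        refine sum_congr rfl fun j hj => glD _ _ ?_ hψ
        rw [mem_erase, mem_range] at hj
        exact pow_ne_one_of_lt_orderOf hj.1 (hρ ▸ hj.2)
      rw [h4, glD _ _ h1 hψ, sum_congr rfl fun i _ => glD _ _ (inv_ne_one.2 (h3 i)) hψi] at h2
      simp only [gli, sum_neg_distrib] at h2
      rw [AddMonoidHom.mem_ker, map_sub, map_sub, map_sum, map_sum]
      simp only [hE, mainA_add hω, h0]
      rw [mainA_mul hω]
      linear_combination (norm := abel1) -h2)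
    (fun a => ((∑ i, s i) a : ℕ)) (fun t => by simpa using hst t)
  refine ⟨N, hN, ?_⟩
  rw [AddMonoidHom.mem_ker, map_nsmul] at hNs
  rw [← hNs]
  congr 1
  simp only [hs, ← map_sum]
  congr 1
  funext a
  simp

end Pool.Agent.MP_0c8446_ag
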