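import Pool.Agent.MP_0c8446_ag.LDefs

namespace Pool.Agent.MP_0c8446_ag

open Set

universe u v w

variable {k : Type u} [Field k] {q : ℕ} [IsQ k q] {K : Type v} [Field K]

/-- The label of a Gauss sum. -/
noncomputable def Dl (ω : MulChar (Fq k q) K) (ψ : AddChar (Fq k q) K) : Bool × Lb k q K :=
  (false, .ch ω 1 ψ)

/-- The label of a Jacobi sum. -/
noncomputable def Fl (ω₁ ω₂ : MulChar (Fq k q) K) : Bool × Lb k q K := (true, .ch ω₁ ω₂ 1)

@[simp] lemma duT_Dl (ω : MulChar (Fq k q) K) (ψ : AddChar (Fq k q) K) :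
    duT (Dl ω ψ) = Dl ω⁻¹ ψ⁻¹ := by simp [duT, Dl, Lb.du]

@[simp] lemma duT_Fl (ω₁ ω₂ : MulChar (Fq k q) K) : duT (Fl ω₁ ω₂) = Fl ω₁⁻¹ ω₂⁻¹ := by
  simp [duT, Fl, Lb.du]

@[simp] lemma duT_duT (t : Bool × Lb k q K) : duT (duT t) = t := by simp [duT]

variable [IsAlgClosed k]

/-- The correspondence behind the Hasse-Davenport product relation. -/
def hdZ (k : Type u) [Field k] [IsAlgClosed k] (q : ℕ) [IsQ k q] (d e : ℕ) [NeZero d] (c : k) :
    Set (Yv k q (Sum.elim (fun _ : Fin d => false) fun _ : Fin d => false)).pts :=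
  {x | (∃ i, co x (.inl i) = pt3 1 0 0) ∨ ((∀ j, IsFin (co x (.inr j))) ∧
    (∀ t : k, ∏ i, (t - ax (co x (.inl i)) ^ e) =
      ∏ j, (t - if j = 0 then 0 else ax (co x (.inr j)) ^ e) + ∏ i, (-ax (co x (.inl i)) ^ e)) ∧
    ∏ i, ax (co x (.inl i)) = c * ax (co x (.inr 0)) ^ d ∧
    ∑ i, ay (co x (.inl i)) = ∑ j, ay (co x (.inr j)))}

/-- The boundary for the relation between Jacobi and Gauss sums. -/
def jB (k : Type u) [Field k] [IsAlgClosed k] (q : ℕ) [IsQ k q] :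
    Set (Yv k q fun b : Bool => b).pts :=
  {s | ¬ IsFin (co s true) ∨ ¬ IsFin (co s false) ∨ ax (co s false) = 0}

/-- The correspondence behind the relation between Jacobi and Gauss sums. -/
def jZ (k : Type u) [Field k] [IsAlgClosed k] (q : ℕ) [IsQ k q] :
    Set (Yv k q (Sum.elim (fun b : Bool => b) fun _ : Bool => false)).pts :=
  {x | (pL _ _).1 x ∈ jB k q ∨ ((∀ j, IsFin (co x (.inr j))) ∧
    ax (co x (.inr true)) = ax (co x (.inl false)) * ax (co x (.inl true)) ∧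
    ax (co x (.inr false)) = ax (co x (.inl false)) * ay (co x (.inl true)) ∧
    ay (co x (.inr true)) + ay (co x (.inr false)) = ay (co x (.inl false)))}

end Pool.Agent.MP_0c8446_ag
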