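import Pool.Agent.MP_0c8446_ag.Lines2
import Pool.Agent.MP_0c8446_ag.RDefs

namespace Pool.Agent.MP_0c8446_ag

open Set

universe u v w

variable {k : Type u} [Field k] [IsAlgClosed k] {q : ℕ} [IsQ k q] {K : Type v} [Field K]
  [CharZero K] [IsAlgClosed K] {ι ι' ι₁ ι₂ : Type} [Fintype ι] [Fintype ι'] [Fintype ι₁] [Fintype ι₂]
  {τ : ι → Bool} {τ' : ι' → Bool} {τ₁ : ι₁ → Bool} {τ₂ : ι₂ → Bool}

lemma mono_map_sum {T U : Type*} (f₁ : ι₁ → T) (f₂ : ι₂ → T) (g₁ : ι₁ → U) (g₂ : ι₂ → U) :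
    (Finset.univ.val.map fun i => (Sum.elim f₁ f₂ i, Sum.elim g₁ g₂ i)) =
      (Finset.univ.val.map fun i => (f₁ i, g₁ i)) + Finset.univ.val.map fun i => (f₂ i, g₂ i) := by
  rw [← Finset.univ_disjSum_univ, Finset.val_disjSum, Multiset.disjSum, Multiset.map_add,
    Multiset.map_map, Multiset.map_map]
  rfl

lemma mono_exists_family {T U : Type*} (M : Multiset (T × U)) :
    ∃ (n : ℕ) (f : Fin n → T) (g : Fin n → U), (Finset.univ.val.map fun i => (f i, g i)) = M := by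
  induction M using Quotient.inductionOn with
  | _ l =>
    refine ⟨l.length, fun i => (l.get i).1, fun i => (l.get i).2, ?_⟩
    rw [Fin.univ_val_map]
    simp

lemma mono_exists_mul {R A : Type*} [CommRing R] [Ring A] [Algebra R A] {S T : Submodule R A}
    (φ : A →ₗ[R] R) {y : A} (hy : y ∈ S * T) (h : φ y ≠ 0) :
    ∃ a ∈ S, ∃ b ∈ T, φ (a * b) ≠ 0 := by
  by_contra hne
  push Not at hne
  have : S * T ≤ LinearMap.ker φ := Submodule.mul_le.2 hne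
  exact h (this hy)

namespace Weil

variable (W : Weil.{u, v, w} k K)

theorem algM_iff {β : ι → Lb k q K} (hβ : ∀ i, (β i).Ok (τ i)) :
    W.AlgM (Finset.univ.val.map fun i => (τ i, β i)) ↔ W.AlgF τ β := by
  constructor
  · rintro ⟨-, κ, _, σ, γ, h, hA⟩
    obtain ⟨e, he⟩ := exists_equiv_of_map_eq _ _ h
    have h1 : ∀ i, τ (e i) = σ i := fun i => congrArg Prod.fst (he i)
    have h2 : β ∘ e = γ := funext fun i => congrArg Prod.snd (he i)
    intro a ha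
    rw [← W.Lin_equiv e h1 β, h2, mem_pullS] at ha
    obtain ⟨b, hb, rfl⟩ := ha
    exact W.pull_mem_Alg _ (hA hb)
  · intro h
    refine ⟨fun t ht => ?_, ι, inferInstance, τ, β, rfl, h⟩
    obtain ⟨i, -, rfl⟩ := Multiset.mem_map.1 ht
    exact hβ i

omit [IsAlgClosed k] [CharZero K] [IsAlgClosed K] in
lemma mono_one_le (X : Var k) : (1 : W.HS X).1 ≤ W.Alg X := by
  show (1 : Submodule K (W.H X)) ≤ _
  rw [Submodule.one_eq_span, Submodule.span_le, singleton_subset_iff]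
  exact W.one_mem_Alg X

theorem algM_zero : W.AlgM (0 : Multiset (Bool × Lb k q K)) := by
  refine ⟨fun t ht => absurd ht (Multiset.notMem_zero t), Empty, inferInstance, Empty.elim,
    Empty.elim, by simp, ?_⟩
  unfold AlgF Lin LinS
  rw [Fintype.prod_empty]
  exact W.mono_one_le _

lemma mono_algF_sum {β₁ : ι₁ → Lb k q K} {β₂ : ι₂ → Lb k q K} (h₁ : W.AlgF τ₁ β₁)
    (h₂ : W.AlgF τ₂ β₂) : W.AlgF (Sum.elim τ₁ τ₂) (Sum.elim β₁ β₂) := by
  unfold AlgF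
  rw [W.Lin_sum]
  refine Submodule.mul_le.2 ?_
  rintro _ ⟨a, ha, rfl⟩ _ ⟨b, hb, rfl⟩
  exact W.mul_mem_Alg (W.pull_mem_Alg _ (h₁ ha)) (W.pull_mem_Alg _ (h₂ hb))

theorem algM_add {M N : Multiset (Bool × Lb k q K)} (hM : W.AlgM M) (hN : W.AlgM N) :
    W.AlgM (M + N) := by
  obtain ⟨hM0, κ₁, _, σ₁, γ₁, rfl, h₁⟩ := hM
  obtain ⟨hN0, κ₂, _, σ₂, γ₂, rfl, h₂⟩ := hN
  exact ⟨fun t ht => (Multiset.mem_add.1 ht).elim (hM0 t) (hN0 t), κ₁ ⊕ κ₂, inferInstance,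
    Sum.elim σ₁ σ₂, Sum.elim γ₁ γ₂, mono_map_sum _ _ _ _, W.mono_algF_sum h₁ h₂⟩

omit [IsAlgClosed k] [CharZero K] [IsAlgClosed K] [Fintype ι₁] [Fintype ι₂] in
lemma mono_du_sum (β₁ : ι₁ → Lb k q K) (β₂ : ι₂ → Lb k q K) :
    (fun i => (Sum.elim β₁ β₂ i).du) = Sum.elim (fun i => (β₁ i).du) fun i => (β₂ i).du := by
  funext i; cases i <;> rfl

omit [IsAlgClosed k] [CharZero K] [IsAlgClosed K] [Fintype ι₁] [Fintype ι₂] in
lemma mono_ok_sum {β₁ : ι₁ → Lb k q K} {β₂ : ι₂ → Lb k q K} (h₁ : ∀ i, (β₁ i).Ok (τ₁ i))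
    (h₂ : ∀ i, (β₂ i).Ok (τ₂ i)) : ∀ i, (Sum.elim β₁ β₂ i).Ok (Sum.elim τ₁ τ₂ i) := by
  rintro (i | i)
  · exact h₁ i
  · exact h₂ i

lemma mono_algF_contr {β₁ : ι₁ → Lb k q K} {β₂ : ι₂ → Lb k q K} (h₁ : ∀ i, (β₁ i).Ok (τ₁ i))
    (h₂ : ∀ i, (β₂ i).Ok (τ₂ i)) (h : W.AlgF (Sum.elim τ₁ τ₂) (Sum.elim β₁ β₂))
    (h' : W.AlgF τ₂ fun i => (β₂ i).du) : W.AlgF τ₁ β₁ := by
  obtain ⟨a, ha, y, hy, hay⟩ := W.exists_pair (mono_ok_sum h₁ h₂)
  rw [mono_du_sum, W.Lin_sum] at hy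
  obtain ⟨_, ⟨b, hb, rfl⟩, _, ⟨c, hc, rfl⟩, h3⟩ :=
    mono_exists_mul (W.tr _ ∘ₗ LinearMap.mulLeft K a) hy hay
  have hc' : W.pull (pR τ₁ τ₂) c ∈ W.Alg _ := W.pull_mem_Alg _ (h' hc)
  have h4 : W.tr _ ((a * W.pull (pR τ₁ τ₂) c) * W.pull (pL τ₁ τ₂) b) ≠ 0 := by
    rw [mul_assoc, W.Alg_comm hc']
    exact h3
  obtain ⟨a', ha', h5⟩ := W.exists_Alg_push (pL τ₁ τ₂) (W.mul_mem_Alg (h ha) hc') h4
  exact W.algF_of_pair h₁ ha' hb h5

theorem algM_contr {M N : Multiset (Bool × Lb k q K)} (h : W.AlgM (M + N))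
    (hN : W.AlgM (N.map duT)) : W.AlgM M := by
  obtain ⟨n₁, σ₁, γ₁, rfl⟩ := mono_exists_family M
  obtain ⟨n₂, σ₂, γ₂, rfl⟩ := mono_exists_family N
  have h₁ : ∀ i, (γ₁ i).Ok (σ₁ i) := fun i => h.1 (σ₁ i, γ₁ i)
    (Multiset.mem_add.2 (Or.inl (Multiset.mem_map.2 ⟨i, Finset.mem_univ i, rfl⟩)))
  have h₂ : ∀ i, (γ₂ i).Ok (σ₂ i) := fun i => h.1 (σ₂ i, γ₂ i)
    (Multiset.mem_add.2 (Or.inr (Multiset.mem_map.2 ⟨i, Finset.mem_univ i, rfl⟩)))
  rw [← mono_map_sum, W.algM_iff (mono_ok_sum h₁ h₂)] at h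
  rw [Multiset.map_map] at hN
  exact (W.algM_iff h₁).2 (W.mono_algF_contr h₁ h₂ h ((W.algM_iff fun i => (h₂ i).du).1 hN))

omit [CharZero K] [IsAlgClosed K] in
lemma mono_Lin_unit (b : Bool) (t : Lb k q K) :
    W.Lin (fun _ : Unit => b) (fun _ => t) = W.V b t := by
  unfold Lin LinS
  rw [Fintype.prod_unique]
  exact W.pullS_id _ (fun x => Yv_ext fun _ => rfl) _

lemma mono_Lin_two (b b' : Bool) (t t' : Lb k q K) :
    W.Lin (Sum.elim (fun _ : Unit => b) fun _ : Unit => b') (Sum.elim (fun _ => t) fun _ => t') =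
      W.pullS (pL _ _) (W.V b t) * W.pullS (pR _ _) (W.V b' t') := by
  rw [W.Lin_sum, mono_Lin_unit, mono_Lin_unit]

lemma mono_algM_two {b b' : Bool} {t t' : Lb k q K} (ht : t.Ok b) (ht' : t'.Ok b')
    (h : W.AlgF (Sum.elim (fun _ : Unit => b) fun _ : Unit => b')
      (Sum.elim (fun _ => t) fun _ => t')) : W.AlgM {(b, t), (b', t')} := by
  have := (W.algM_iff (mono_ok_sum (fun _ => ht) fun _ => ht')).2 h
  rw [mono_map_sum] at this
  simpa using this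

lemma mono_algF_diag {b : Bool} {t : Lb k q K} (ht : t.Ok b) :
    W.AlgF (Sum.elim (fun _ : Unit => b) fun _ : Unit => b)
      (Sum.elim (fun _ => t) fun _ => t.du) := by
  obtain ⟨y, hy, h0⟩ := W.NZ_V ht.du
  obtain ⟨a, ha, c, hc, h1⟩ := mono_exists_mul (W.tr _) hy h0
  let D : Mor (Cv k q b) (Yv k q (Sum.elim (fun _ : Unit => b) fun _ : Unit => b)) :=
    pair (Mor.id _) (Mor.id _)
  have hD : ∀ x, (pL _ _).1 (D.1 x) = x := fun x => rfl
  have hD' : ∀ x, (pR _ _).1 (D.1 x) = x := fun x => rfl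
  have hz : IsSub (range D.1) := by
    rw [← image_univ]
    exact (D.retr _ hD).isSub (Var.isSub_univ _)
  refine W.algF_of_pair (mono_ok_sum (fun _ => ht) fun _ => ht.du) (W.cl_mem_Alg hz)
    (b := W.pull (pL _ _) a * W.pull (pR _ _) c) ?_ ?_
  · rw [mono_du_sum, mono_Lin_two]
    exact Submodule.mul_mem_mul ⟨a, ha, rfl⟩ ⟨c, hc, rfl⟩
  · rw [← W.tr_pull_retr D _ hD, map_mul, W.pull_pull, W.pull_pull,
      W.pull_id _ (funext hD), W.pull_id _ (funext hD')]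
    exact h1

theorem algM_diag {t : Bool × Lb k q K} (ht : t.2.Ok t.1) : W.AlgM {t, duT t} :=
  W.mono_algM_two ht ht.du (W.mono_algF_diag ht)

lemma mono_algM_single {b : Bool} {t : Lb k q K} (ht : t.Ok b) (h : (W.V b t).1 ≤ W.Alg _) :
    W.AlgM {(b, t)} := by
  have := (W.algM_iff (τ := fun _ : Unit => b) (β := fun _ => t) fun _ => ht).2 (by
    unfold AlgF
    rw [mono_Lin_unit]
    exact h)
  simpa using this

theorem algM_one (b : Bool) : W.AlgM {(b, (Lb.one : Lb k q K))} :=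
  W.mono_algM_single (by cases b <;> trivial) (W.mono_one_le _)

theorem algM_pt (b : Bool) : W.AlgM {(b, (Lb.pt : Lb k q K))} := by
  refine W.mono_algM_single (by cases b <;> trivial) fun a ha => ?_
  obtain ⟨x⟩ : Nonempty (Cv k q b).pts := inferInstance
  have ha' : a ∈ W.gr (Cv k q b) (2 * (Cv k q b).d) := by
    rw [d_Cv]; exact ha
  rw [W.eq_smul_pt ha' x]
  exact Submodule.smul_mem _ _ (W.cl_mem_Alg (isSub_singleton x))

theorem algM_map {b b' : Bool} {g : P2 k → P2 k} (h : CMap q b b' g)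
    (hs : SurjOn g (curve k q b) (curve k q b')) {t t' : Lb k q K} (ht : t.Ok b) (ht' : t'.Ok b')
    (hle : ∀ a ∈ (W.V b' t').1, W.pull (cm g h) a ∈ (W.V b t).1) :
    W.AlgM {(b, t), (b', t'.du)} := by
  have hinj : Function.Injective (W.pull (cm g h)) := by
    refine W.pull_injective (cm g h) (Var.isSub_univ _) ((d_Cv b).trans (d_Cv b').symm) ?_
    have : (cm g h).1 '' univ = univ := by
      refine eq_univ_of_forall fun y => ?_
      obtain ⟨P, hP, e⟩ := hs (co_mem y ())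
      exact ⟨mkY (fun _ => P) fun _ => hP, trivial, Yv_ext fun _ => e⟩
    rw [this]
    exact dense_univ
  have heq : W.pullS (cm g h) (W.V b' t') = W.V b t := by
    refine Subtype.ext (Submodule.eq_of_le_of_finrank_eq ?_ ?_)
    · rintro _ ⟨a, ha, rfl⟩
      exact hle a ha
    · rw [W.finrank_V ht, ← W.finrank_V ht', pullS_val]
      exact (Submodule.equivMapOfInjective (W.pull (cm g h)).toLinearMap hinj _).finrank_eq.symm
  refine W.mono_algM_two ht ht'.du ?_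
  let F : Mor (Yv k q (Sum.elim (fun _ : Unit => b) fun _ : Unit => b'))
      (Yv k q (Sum.elim (fun _ : Unit => b') fun _ : Unit => b')) :=
    pair ((cm g h).comp (pL _ _)) (pR _ _)
  have hF : W.pullS F (W.Lin (Sum.elim (fun _ : Unit => b') fun _ : Unit => b')
      (Sum.elim (fun _ => t') fun _ => t'.du)) =
      W.Lin (Sum.elim (fun _ : Unit => b) fun _ : Unit => b')
        (Sum.elim (fun _ => t) fun _ => t'.du) := by
    rw [mono_Lin_two, mono_Lin_two, map_mul, ← heq, pullS_pullS, pullS_pullS, pullS_pullS]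
    rfl
  intro a ha
  rw [← hF, mem_pullS] at ha
  obtain ⟨c, hc, rfl⟩ := ha
  exact W.pull_mem_Alg _ (W.mono_algF_diag ht' hc)

end Weil

end Pool.Agent.MP_0c8446_ag
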