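import Pool.Agent.MP_0c8446_ag.NTDefs
import Pool.Agent.MP_346737_nt.VL
import Pool.Agent.MP_346737_nt.VCot

namespace Pool.Agent.MP_0c8446_ag

open Finset Filter Topology Pool.Agent.MP_346737_nt

theorem bern_lim {p : ℕ} [NeZero p] [Nontrivial (ZMod p)] (χ : DirichletCharacter ℂ p)
    (hodd : χ (-1) = -1) :
    Tendsto (fun N : ℕ => ∑ n ∈ range (N * p), χ n / (n : ℂ)) atTop
      (𝓝 (Real.pi / (2 * p) * ∑ a : ZMod p, χ a * VCot_c a)) := by
  have hp : (p : ℂ) ≠ 0 := Nat.cast_ne_zero.2 (NeZero.ne p)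
  let h : ℕ → ZMod p → ℂ := fun N a => ∑ k ∈ range N, 1 / ((k : ℂ) * p + a.val)
  have h1 : ∀ N : ℕ, ∑ n ∈ range (N * p), χ n / (n : ℂ) = ∑ a : ZMod p, χ a * h N a := by
    intro N
    rw [VCot_block]
    simp only [VCot_range, h, Finset.mul_sum]
    rw [Finset.sum_comm]
    refine Finset.sum_congr rfl fun a _ => Finset.sum_congr rfl fun k _ => ?_
    push_cast
    rw [ZMod.natCast_self, mul_zero, zero_add, ZMod.natCast_zmod_val, mul_one_div]
  have h2 : ∀ N : ℕ, ∑ a : ZMod p, χ a * h N a =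
      ∑ a : ZMod p, 1 / 2 * (χ a * (h N a - h N (-a))) := by
    intro N
    have e : ∑ a : ZMod p, χ a * h N (-a) = -∑ a : ZMod p, χ a * h N a := by
      rw [← Equiv.sum_comp (Equiv.neg (ZMod p)), ← Finset.sum_neg_distrib]
      refine Finset.sum_congr rfl fun a _ => ?_
      rw [Equiv.neg_apply, neg_neg, neg_eq_neg_one_mul a, map_mul, hodd]
      ring
    simp only [mul_sub, Finset.sum_sub_distrib, ← Finset.mul_sum, e]
    ring
  simp only [h1, h2, Finset.mul_sum]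
  refine tendsto_finsetSum _ fun a _ => ?_
  by_cases ha : a = 0
  · simp [ha, MulChar.map_zero]
  have hv : a.val ≠ 0 := (ZMod.val_ne_zero a).2 ha
  have hlt := ZMod.val_lt a
  have hx : ((a.val : ℂ) / p) ∈ Complex.integerComplement := by
    rintro ⟨n, hn⟩
    rw [eq_div_iff hp] at hn
    have h3 : n * p = a.val := by exact_mod_cast hn
    have h4 : p ∣ a.val := Int.natCast_dvd_natCast.1 ⟨n, by rw [← h3, mul_comm]⟩
    exact hv (Nat.eq_zero_of_dvd_of_lt h4 hlt)
  have h3 : ∀ N, h N a - h N (-a) = 1 / p * (1 / (a.val / p) +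
      ∑ k ∈ range N, cotTerm (a.val / p) k - 1 / (a.val / p + N)) := by
    intro N
    rw [← VCot_tel hp]
    simp only [h, ZMod.neg_val, if_neg ha, Nat.cast_sub hlt.le]
  have h4 : Tendsto (fun N : ℕ => 1 / ((a.val : ℂ) / p + N)) atTop (𝓝 0) := by
    simp only [one_div]
    refine tendsto_inv₀_cobounded.comp ((tendsto_const_add_cobounded _).comp ?_)
    rw [← tendsto_norm_atTop_iff_cobounded]
    simpa using tendsto_natCast_atTop_atTop (R := ℝ)
  simp only [h3]
  convert (((((tendsto_logDeriv_euler_cot_sub hx).const_add (1 / ((a.val : ℂ) / p))).sub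
    h4).const_mul (1 / (p : ℂ))).const_mul (χ a)).const_mul (1 / 2) using 2
  rw [VCot_c]
  ring

theorem bern_approx {p : ℕ} [NeZero p] [Nontrivial (ZMod p)] (χ : DirichletCharacter ℂ p)
    (hχ : χ ≠ 1) (L : ℂ)
    (hL : Tendsto (fun N : ℕ => ∑ n ∈ range (N * p), χ n / (n : ℂ)) atTop (𝓝 L)) (s : ℝ)
    (hs : 1 < s) (N : ℕ) (hN : 1 ≤ N) :
    ‖L - LSeries (fun n => χ n) s‖ ≤ (s - 1) * (1 + Real.log N) ^ 2 + 2 * p / N := by
  have h0 : χ ((0 : ℕ) : ZMod p) = 0 := by rw [Nat.cast_zero, MulChar.map_zero]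
  have hT : Tendsto (fun K : ℕ => K * p) atTop atTop :=
    tendsto_id.atTop_mul_const' (NeZero.pos p)
  have h1 := ((χ.LSeriesSummable_of_one_lt_re (s := s) (by simpa using hs)).hasSum.tendsto_sum_nat
    ).comp hT
  refine le_of_tendsto (hL.sub h1).norm ((hT.eventually_ge_atTop (N + 1)).mono fun K hK => ?_)
  have e : ∑ n ∈ range (K * p), χ n / (n : ℂ) -
      ∑ n ∈ range (K * p), LSeries.term (fun n => χ n) s n =
      ∑ n ∈ Ico 1 (N + 1), χ n * (pw n 1 - pw n s) +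
        (∑ n ∈ Ico (N + 1) (K * p), χ n * pw n 1 - ∑ n ∈ Ico (N + 1) (K * p), χ n * pw n s) := by
    rw [← sum_sub_distrib, ← sum_sub_distrib, range_eq_Ico, sum_eq_sum_Ico_succ_bot (by omega),
      ← sum_Ico_consecutive _ (show 0 + 1 ≤ N + 1 by omega) hK]
    have e' : ∀ n : ℕ, χ n / (n : ℂ) - LSeries.term (fun n => χ n) s n =
        χ n * pw n 1 - χ n * pw n s := fun n => by
      rw [LSeries.term_def₀ h0, VL_pw, ← VL_pw n 1]
      simp [Complex.cpow_neg_one, div_eq_mul_inv]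
    simp only [e']
    simp only [h0, zero_mul, sub_self, zero_add, mul_sub]
  have hl : 0 ≤ Real.log N := Real.log_nonneg (by exact_mod_cast hN)
  have hh : ∑ n ∈ Ico 1 (N + 1), (n : ℝ)⁻¹ ≤ 1 + Real.log N := by
    have := harmonic_le_one_add_log N
    rw [harmonic_eq_sum_Icc] at this
    push_cast at this
    exact this
  have h2 : ‖∑ n ∈ Ico 1 (N + 1), χ n * (pw n 1 - pw n s)‖ ≤
      (s - 1) * Real.log N * (1 + Real.log N) := by
    refine (norm_sum_le_of_le _ (n := fun n : ℕ => (s - 1) * Real.log N * (n : ℝ)⁻¹)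
      fun n hn => ?_).trans ?_
    · rw [mem_Ico] at hn
      rw [norm_mul]
      exact (mul_le_of_le_one_left (norm_nonneg _) (χ.norm_le_one _)).trans
        (VL_diff hs hn.1 (by omega))
    · rw [← mul_sum]
      exact mul_le_mul_of_nonneg_left hh (mul_nonneg (by linarith) hl)
  change ‖∑ n ∈ range (K * p), _ - ∑ n ∈ range (K * p), _‖ ≤ _
  rw [e]
  refine (norm_add_le_of_le h2 (norm_sub_le_of_le (VL_tail χ hχ le_rfl hN hK)
    (VL_tail χ hχ hs.le hN hK))).trans ?_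
  rw [mul_div_assoc]
  nlinarith [mul_nonneg (sub_nonneg.2 hs.le) hl]

theorem bern_val {p : ℕ} [NeZero p] [Nontrivial (ZMod p)] (χ : DirichletCharacter ℂ p)
    (hχ : χ ≠ 1) (L : ℂ)
    (hL : Tendsto (fun N : ℕ => ∑ n ∈ range (N * p), χ n / (n : ℂ)) atTop (𝓝 L)) :
    L = χ.LFunction 1 := by
  have hc : Tendsto (fun s : ℝ => χ.LFunction s) (𝓝[>] 1) (𝓝 (χ.LFunction 1)) := by
    have := ((χ.differentiable_LFunction hχ).continuous.comp Complex.continuous_ofReal).tendsto 1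
    exact this.mono_left nhdsWithin_le_nhds
  have h1 : ∀ N : ℕ, 1 ≤ N → ‖L - χ.LFunction 1‖ ≤ 2 * p / N := by
    intro N hN
    have h2 : Tendsto (fun s : ℝ => (s - 1) * (1 + Real.log N) ^ 2 + 2 * p / N) (𝓝[>] 1)
        (𝓝 ((1 - 1) * (1 + Real.log N) ^ 2 + 2 * p / N)) :=
      (Continuous.tendsto (by fun_prop) 1).mono_left nhdsWithin_le_nhds
    rw [sub_self, zero_mul, zero_add] at h2
    refine le_of_tendsto_of_tendsto (hc.const_sub L).norm h2 ?_
    filter_upwards [self_mem_nhdsWithin] with s hs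
    rw [χ.LFunction_eq_LSeries (by simpa using hs)]
    exact bern_approx χ hχ L hL s hs N hN
  rw [← sub_eq_zero, ← norm_le_zero_iff]
  exact ge_of_tendsto (tendsto_const_div_atTop_nhds_zero_nat (2 * (p : ℝ)))
    ((eventually_ge_atTop 1).mono h1)

theorem bern_geom (z : ℂ) (n : ℕ) :
    (z - 1) * ∑ j ∈ range n, (j : ℂ) * z ^ j = n * z ^ n - z * ∑ j ∈ range n, z ^ j := by
  induction n with
  | zero => simp
  | succ n ih =>
    rw [sum_range_succ, sum_range_succ, mul_add, ih]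
    push_cast
    ring

theorem bern_cot {p : ℕ} [NeZero p] {a : ZMod p} (ha : a ≠ 0) :
    VCot_c a = Complex.I + 2 * Complex.I / p *
      ∑ j : ZMod p, (j.val : ℂ) * ZMod.stdAddChar (j * a) := by
  have hp : (p : ℂ) ≠ 0 := Nat.cast_ne_zero.2 (NeZero.ne p)
  set z : ℂ := ZMod.stdAddChar a with hz
  have z1 : z ≠ 1 := fun h =>
    ha (ZMod.injective_stdAddChar (by rw [← hz, h, AddChar.map_zero_eq_one]))
  have zp : z ^ p = 1 := by
    rw [hz, ← AddChar.map_nsmul_eq_pow, nsmul_eq_mul, ZMod.natCast_self, zero_mul,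
      AddChar.map_zero_eq_one]
  have e : ∑ j : ZMod p, (j.val : ℂ) * ZMod.stdAddChar (j * a) = ∑ j ∈ range p, (j : ℂ) * z ^ j := by
    rw [VCot_range]
    refine sum_congr rfl fun j _ => ?_
    rw [hz, ← AddChar.map_nsmul_eq_pow, nsmul_eq_mul, ZMod.natCast_zmod_val]
  have g := bern_geom z p
  rw [geom_sum_eq z1, zp, sub_self, zero_div, mul_zero, sub_zero, mul_one] at g
  have z2 : z - 1 ≠ 0 := sub_ne_zero.2 z1
  have z3 : 1 - z ≠ 0 := sub_ne_zero.2 z1.symm
  rw [VCot_c_eq, e, ← hz, eq_div_of_mul_eq z2 ((mul_comm _ _).trans g)]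
  have hI := Complex.I_ne_zero
  field_simp
  linear_combination (-(z + 1) * (1 - z)) * Complex.I_sq

theorem bern_ne_zero {N : ℕ} [NeZero N] (χ : DirichletCharacter ℂ N) (hχ : χ.IsPrimitive)
    (hodd : χ (-1) = -1) : ∑ a : ZMod N, χ a * (a.val : ℂ) ≠ 0 := by
  intro hB
  have hne : ∀ ψ : DirichletCharacter ℂ N, ψ (-1) = -1 → ψ ≠ 1 := by
    rintro ψ h rfl
    rw [MulChar.one_apply (isUnit_one.neg)] at h
    norm_num at h
  have : Nontrivial (ZMod N) := by
    by_contra h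
    rw [not_nontrivial_iff_subsingleton] at h
    rw [Subsingleton.elim (-1 : ZMod N) 1, map_one] at hodd
    norm_num at hodd
  have ho : χ⁻¹ (-1) = -1 := by rw [MulChar.inv_apply_eq_inv', hodd]; norm_num
  have hp : (χ⁻¹).IsPrimitive := by
    rw [DirichletCharacter.isPrimitive_def, DirichletCharacter.conductor_inv]; exact hχ
  have h1 := bern_val χ⁻¹ (hne _ ho) _ (bern_lim χ⁻¹ ho)
  refine DirichletCharacter.LFunction_apply_one_ne_zero (hne _ ho) ?_
  rw [← h1]
  have h2 : ∀ a : ZMod N, χ⁻¹ a * VCot_c a = Complex.I * χ⁻¹ a + 2 * Complex.I / N *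
      ∑ j : ZMod N, (j.val : ℂ) * (χ⁻¹ a * ZMod.stdAddChar (j * a)) := by
    intro a
    by_cases ha : a = 0
    · simp [ha, MulChar.map_zero]
    · rw [bern_cot ha, mul_add, mul_left_comm, mul_sum, mul_comm (χ⁻¹ a)]
      congr 2
      exact sum_congr rfl fun j _ => mul_left_comm _ _ _
  have h3 : ∀ j : ZMod N, ∑ a : ZMod N, χ⁻¹ a * ZMod.stdAddChar (j * a) =
      χ j * gaussSum χ⁻¹ ZMod.stdAddChar := by
    intro j
    have := gaussSum_mulShift_of_isPrimitive (ZMod.stdAddChar (N := N)) hp j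
    rw [inv_inv] at this
    rw [← this, gaussSum]
    rfl
  rw [sum_congr rfl fun a _ => h2 a, sum_add_distrib, ← mul_sum, ← mul_sum, sum_comm,
    MulChar.sum_eq_zero_of_ne_one (hne _ ho)]
  have h4 : ∑ j : ZMod N, ∑ a : ZMod N, (j.val : ℂ) * (χ⁻¹ a * ZMod.stdAddChar (j * a)) =
      (∑ j : ZMod N, χ j * (j.val : ℂ)) * gaussSum χ⁻¹ ZMod.stdAddChar := by
    rw [sum_mul]
    refine sum_congr rfl fun j _ => ?_
    rw [← mul_sum, h3]
    ring
  rw [h4, hB]
  simp

end Pool.Agent.MP_0c8446_ag
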