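import Mathlib

namespace Pool.Agent.MP_0c8446_ag

/-- The sawtooth function `((a/m))` on `ZMod m`. -/
def saw {m : ℕ} (a : ZMod m) : ℚ := if a = 0 then 0 else (a.val : ℚ) / m - 1 / 2

end Pool.Agent.MP_0c8446_ag
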