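import Pool.Agent.MP_0c8446_ag.NTDefs

/-! Absolute values of Gauss sums in an ultrametric field: the formal part. -/

namespace Pool.Agent.MP_0c8446_ag

open Finset

theorem stick_shift {F Ω : Type*} [Field F] [Fintype F] [Field Ω] {ψ : AddChar F Ω} (hψ : ψ ≠ 1)
    (ψ' : AddChar F Ω) : ∃ c : F, ψ' = ψ.mulShift c := by
  classical
  by_contra hc
  push Not at hc
  let e : Option F → (Multiplicative F →* Ω) := fun o =>
    AddChar.toMonoidHomEquiv (o.elim ψ' ψ.mulShift)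
  have he : Function.Injective e := by
    intro a b h
    have h' := AddChar.toMonoidHomEquiv.injective h
    cases a with
    | none =>
      cases b with
      | none => rfl
      | some b => exact absurd h' (hc b)
    | some a =>
      cases b with
      | none => exact absurd h'.symm (hc a)
      | some b =>
        rw [AddChar.to_mulShift_inj_of_isPrimitive (AddChar.IsPrimitive.of_ne_one hψ) h']
  have hl := ((linearIndependent_monoidHom (Multiplicative F) Ω).comp e he).fintype_card_le_finrank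
  simp at hl

theorem stick_map {F L M : Type*} [Field F] [Fintype F] [CommRing L] [CommRing M] (σ : L →+* M)
    (χ : MulChar F L) (ψ : AddChar F L) :
    σ (gaussSum χ ψ) = gaussSum (χ.ringHomComp σ) (σ.toMonoidHom.compAddChar ψ) := by
  simp [gaussSum, map_sum]

section Normed

variable {F Ω : Type*} [Field F] [Fintype F] [NormedField Ω]

theorem stick_norm_root {x : Ω} {n : ℕ} (hn : n ≠ 0) (h : x ^ n = 1) : ‖x‖ = 1 := by
  have : ‖x‖ ^ n = 1 := by rw [← norm_pow, h, norm_one]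
  exact (pow_eq_one_iff_of_nonneg (norm_nonneg x) hn).1 this

theorem stick_norm_unit (χ : MulChar F Ω) (x : Fˣ) : ‖χ x‖ = 1 := by
  classical
  apply stick_norm_root (n := Fintype.card Fˣ) Fintype.card_ne_zero
  rw [← map_pow, ← Units.val_pow_eq_pow_val, pow_card_eq_one, Units.val_one, map_one]

theorem stick_norm_mul (χ : MulChar F Ω) (x : F) : ‖χ x‖ ≤ 1 := by
  rcases eq_or_ne x 0 with rfl | hx
  · rw [MulChar.map_zero, norm_zero]; exact zero_le_one
  · exact (stick_norm_unit χ (Units.mk0 x hx)).le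

theorem stick_norm_add (ψ : AddChar F Ω) (x : F) : ‖ψ x‖ = 1 := by
  apply stick_norm_root (n := Fintype.card F) Fintype.card_ne_zero
  rw [← AddChar.map_nsmul_eq_pow, card_nsmul_eq_zero, AddChar.map_zero_eq_one]

theorem stick_norm_indep (χ : MulChar F Ω) {ψ ψ' : AddChar F Ω} (hψ : ψ ≠ 1) (hψ' : ψ' ≠ 1) :
    ‖gaussSum χ ψ'‖ = ‖gaussSum χ ψ‖ := by
  obtain ⟨c, rfl⟩ := stick_shift hψ ψ'
  have hc : c ≠ 0 := by
    rintro rfl
    exact hψ' (AddChar.mulShift_zero ψ)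
  have := gaussSum_mulShift χ ψ (Units.mk0 c hc)
  rw [← this, norm_mul, stick_norm_unit, one_mul]
  rfl

theorem stick_frob {p : ℕ} [Fact p.Prime] [CharP F p] (χ : MulChar F Ω) {ψ : AddChar F Ω}
    (hψ : ψ ≠ 1) : ‖gaussSum (χ ^ p) ψ‖ = ‖gaussSum χ ψ‖ := by
  have hp : p ≠ 0 := (Fact.out : p.Prime).ne_zero
  let e := frobeniusEquiv F p
  let ψ' : AddChar F Ω := ψ.compAddMonoidHom e.symm.toRingHom.toAddMonoidHom
  have h1 : ψ' ≠ 1 := by
    intro h
    apply hψ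
    ext x
    have := DFunLike.congr_fun h (e x)
    simpa [ψ'] using this
  rw [← stick_norm_indep χ hψ h1]
  congr 1
  unfold gaussSum
  refine Fintype.sum_equiv e.toEquiv _ _ fun x => ?_
  rw [MulChar.pow_apply' _ hp, ← map_pow]
  simp [ψ', e, frobenius_def]

variable [IsUltrametricDist Ω]

theorem stick_norm_le (χ : MulChar F Ω) (ψ : AddChar F Ω) : ‖gaussSum χ ψ‖ ≤ 1 := by
  refine IsUltrametricDist.norm_sum_le_of_forall_le_of_nonneg zero_le_one fun x _ => ?_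
  rw [norm_mul, stick_norm_add, mul_one]
  exact stick_norm_mul χ x

theorem stick_norm_jac (χ φ : MulChar F Ω) : ‖jacobiSum χ φ‖ ≤ 1 := by
  refine IsUltrametricDist.norm_sum_le_of_forall_le_of_nonneg zero_le_one fun x _ => ?_
  rw [norm_mul]
  exact mul_le_one₀ (stick_norm_mul χ x) (norm_nonneg _) (stick_norm_mul φ _)

theorem stick_submul (χ φ : MulChar F Ω) {ψ : AddChar F Ω} (hψ : ψ ≠ 1) :
    ‖gaussSum χ ψ‖ * ‖gaussSum φ ψ‖ ≤ ‖gaussSum (χ * φ) ψ‖ := by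
  by_cases h : χ * φ = 1
  · rw [h, gaussSum_one_left hψ, norm_neg, norm_one]
    exact mul_le_one₀ (stick_norm_le χ ψ) (norm_nonneg _) (stick_norm_le φ ψ)
  · rw [← norm_mul, ← jacobiSum_mul_nontrivial h, norm_mul]
    exact mul_le_of_le_one_right (norm_nonneg _) (stick_norm_jac χ φ)

theorem stick_pow_ge {χ : MulChar F Ω} {ψ : AddChar F Ω} (hψ : ψ ≠ 1) {ρ : ℝ} (h0 : 0 ≤ ρ)
    (h : ρ ≤ ‖gaussSum χ ψ‖) (d : ℕ) : ρ ^ d ≤ ‖gaussSum (χ ^ d) ψ‖ := by
  induction d with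
  | zero => rw [pow_zero, pow_zero, gaussSum_one_left hψ, norm_neg, norm_one]
  | succ d ih =>
    rw [pow_succ, pow_succ]
    exact (mul_le_mul ih h h0 (norm_nonneg _)).trans (stick_submul _ _ hψ)

theorem stick_val_step {p m : ℕ} [NeZero m] (a : ZMod m) (k : ℕ) :
    ((p : ZMod m) ^ (k + 1) * a).val = p * ((p : ZMod m) ^ k * a).val % m := by
  rw [← ZMod.val_natCast]
  push_cast
  rw [ZMod.natCast_zmod_val]
  congr 1
  ring

theorem stick_digits {p m : ℕ} [Fact p.Prime] [CharP F p] [NeZero m] {χ : MulChar F Ω}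
    {ψ : AddChar F Ω} (hψ : ψ ≠ 1) {ρ : ℝ} (h0 : 0 ≤ ρ) (h : ρ ≤ ‖gaussSum χ ψ‖) (a : ZMod m)
    (j : ℕ) : ∃ A D : ℕ, p ^ j * a.val = m * A + ((p : ZMod m) ^ j * a).val ∧
      ρ ^ D ≤ ‖gaussSum (χ ^ A) ψ‖ ∧
      p * ∑ k ∈ range j, ((p : ZMod m) ^ k * a).val + a.val =
        m * D + ∑ k ∈ range j, ((p : ZMod m) ^ k * a).val + ((p : ZMod m) ^ j * a).val := by
  induction j with
  | zero =>
    refine ⟨0, 0, by simp, ?_, by simp⟩
    rw [pow_zero, pow_zero, gaussSum_one_left hψ, norm_neg, norm_one]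
  | succ j ih =>
    obtain ⟨A, D, h1, h2, h3⟩ := ih
    have h4 := Nat.div_add_mod (p * ((p : ZMod m) ^ j * a).val) m
    rw [← stick_val_step] at h4
    generalize p * ((p : ZMod m) ^ j * a).val / m = d at h4
    refine ⟨A * p + d, D + d, ?_, ?_, ?_⟩
    · rw [pow_succ, mul_comm (p ^ j) p, mul_assoc, h1, mul_add, ← h4]
      ring
    · rw [pow_add, pow_add, pow_mul]
      refine le_trans ?_ (stick_submul _ _ hψ)
      rw [stick_frob _ hψ]
      exact mul_le_mul h2 (stick_pow_ge hψ h0 h d) (pow_nonneg h0 d) (norm_nonneg _)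
    · rw [sum_range_succ, mul_add, mul_add, ← h4]
      omega

theorem stick_lower {p f m : ℕ} [Fact p.Prime] [CharP F p] [NeZero m] (hm : m + 1 = p ^ f)
    {χ : MulChar F Ω} {ψ : AddChar F Ω} (hψ : ψ ≠ 1) {ρ : ℝ} (h0 : 0 ≤ ρ)
    (h : ρ ≤ ‖gaussSum χ ψ‖) (a : ZMod m) : ∃ D : ℕ, ρ ^ D ≤ ‖gaussSum (χ ^ a.val) ψ‖ ∧
      p * ∑ k ∈ range f, ((p : ZMod m) ^ k * a).val =
        m * D + ∑ k ∈ range f, ((p : ZMod m) ^ k * a).val := by
  obtain ⟨A, D, h1, h2, h3⟩ := stick_digits (m := m) hψ h0 h a f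
  have e : (p : ZMod m) ^ f = 1 := by
    rw [← Nat.cast_pow, ← hm]
    simp
  rw [e, one_mul] at h1 h3
  have hA : A = a.val := by
    rw [← hm, add_mul, one_mul] at h1
    exact (Nat.eq_of_mul_eq_mul_left (NeZero.pos m) (Nat.add_right_cancel h1)).symm
  exact ⟨D, hA ▸ h2, Nat.add_right_cancel h3⟩

theorem stick_unit {p f m : ℕ} [NeZero m] (hm : m + 1 = p ^ f) (k : ℕ) :
    IsUnit ((p : ZMod m) ^ k) := by
  have e : (p : ZMod m) ^ f = 1 := by
    rw [← Nat.cast_pow, ← hm]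
    simp
  have hf : f ≠ 0 := by
    rintro rfl
    have := NeZero.pos m
    rw [pow_zero] at hm
    omega
  exact (IsUnit.of_pow_eq_one e hf).pow k

theorem stick_exact {p f m : ℕ} [Fact p.Prime] [CharP F p] [NeZero m]
    (hF : Fintype.card F = p ^ f) (hm : m + 1 = p ^ f)
    {χ : MulChar F Ω} (hχ : orderOf χ = m) {ψ : AddChar F Ω} (hψ : ψ ≠ 1) {ρ : ℝ} (h0 : 0 < ρ)
    (h : ρ ≤ ‖gaussSum χ ψ‖) (hp : ‖(p : Ω)‖ = ρ ^ (p - 1)) (a : ZMod m) :
    ∃ D : ℕ, ‖gaussSum (χ ^ a.val) ψ‖ = ρ ^ D ∧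
      p * ∑ k ∈ range f, ((p : ZMod m) ^ k * a).val =
        m * D + ∑ k ∈ range f, ((p : ZMod m) ^ k * a).val := by
  rcases eq_or_ne a 0 with rfl | ha
  · refine ⟨0, ?_, by simp⟩
    rw [ZMod.val_zero, pow_zero, pow_zero, gaussSum_one_left hψ, norm_neg, norm_one]
  obtain ⟨D, h1, h2⟩ := stick_lower hm hψ h0.le h a
  obtain ⟨E, h3, h4⟩ := stick_lower hm hψ h0.le h (-a)
  refine ⟨D, ?_, h2⟩
  have hneg : ∀ b : ZMod m, b ≠ 0 → b.val + (-b).val = m := fun b hb => by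
    rw [ZMod.neg_val, if_neg hb]
    have := ZMod.val_lt b
    omega
  have hs : ∑ k ∈ range f, ((p : ZMod m) ^ k * a).val +
      ∑ k ∈ range f, ((p : ZMod m) ^ k * (-a)).val = m * f := by
    rw [← sum_add_distrib, sum_congr rfl (g := fun _ => m)]
    · simp [mul_comm]
    · intro k _
      rw [mul_neg]
      exact hneg _ fun h' => ha ((stick_unit hm k).mul_right_eq_zero.1 h')
  have hp1 : 1 ≤ p := (Fact.out : p.Prime).one_le
  have hDE : D + E = (p - 1) * f := by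
    apply Nat.eq_of_mul_eq_mul_left (NeZero.pos m)
    obtain ⟨q, rfl⟩ := Nat.exists_eq_add_of_le' hp1
    rw [Nat.add_sub_cancel]
    generalize ∑ k ∈ range f, (((q + 1 : ℕ) : ZMod m) ^ k * a).val = X at *
    generalize ∑ k ∈ range f, (((q + 1 : ℕ) : ZMod m) ^ k * (-a)).val = Y at *
    have : q * (X + Y) = m * D + m * E := by nlinarith
    rw [hs] at this
    nlinarith
  have hinv : χ ^ (-a).val = (χ ^ a.val)⁻¹ := by
    rw [eq_inv_iff_mul_eq_one, ← pow_add, add_comm, hneg a ha, ← hχ, pow_orderOf_eq_one]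
  have hne : χ ^ a.val ≠ 1 := by
    intro h'
    have := orderOf_dvd_of_pow_eq_one h'
    rw [hχ] at this
    exact ha ((ZMod.val_eq_zero a).1 (Nat.eq_zero_of_dvd_of_lt this (ZMod.val_lt a)))
  have hcard := gaussSum_mul_gaussSum_eq_card hne (AddChar.IsPrimitive.of_ne_one hψ)
  have h5 : ‖gaussSum (χ ^ a.val) ψ‖ * ‖gaussSum (χ ^ (-a).val) ψ‖ = ρ ^ D * ρ ^ E := by
    rw [hinv, ← stick_norm_indep (χ ^ a.val)⁻¹ hψ (inv_ne_one.2 hψ), ← norm_mul, hcard, hF, Nat.cast_pow,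
      norm_pow, hp, ← pow_mul, ← pow_add, hDE]
  by_contra hne'
  have h6 : ρ ^ D < ‖gaussSum (χ ^ a.val) ψ‖ := lt_of_le_of_ne h1 (Ne.symm hne')
  have := mul_lt_mul h6 h3 (pow_pos h0 E) (norm_nonneg _)
  linarith

end Normed

end Pool.Agent.MP_0c8446_ag
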