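import Pool.Agent.MP_0c8446_ag.NTStick1

/-! Absolute values of Gauss sums in an ultrametric field: the Teichmueller character. -/

namespace Pool.Agent.MP_0c8446_ag

open Finset Polynomial

theorem stick_teich {F O κ : Type*} [Field F] [Fintype F] [CommRing O] [IsDomain O] [Field κ]
    {p m : ℕ} [Fact p.Prime] [CharP F p] [CharP κ p] [NeZero m] (hF : Fintype.card F = m + 1)
    (res : O →+* κ) {ξ : O} (hξ : IsPrimitiveRoot ξ m) :
    ∃ (φ : F →+* κ) (T : MulChar F O), ∀ x, res (T x) = φ x := by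
  classical
  let _ := ZMod.algebra F p
  let _ := ZMod.algebra κ p
  have hprod : (X ^ m - 1 : κ[X]) = ∏ i ∈ range m, (X - C (res (ξ ^ i))) := by
    have := congrArg (Polynomial.map res) (X_pow_sub_C_eq_prod hξ (NeZero.pos m) (one_pow m))
    simpa [Polynomial.map_prod] using this
  have hs : ((X ^ Fintype.card F - X : (ZMod p)[X]).map (algebraMap (ZMod p) κ)).Splits := by
    have : (X ^ Fintype.card F - X : (ZMod p)[X]).map (algebraMap (ZMod p) κ) =
        X * (X ^ m - 1) := by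
      rw [Polynomial.map_sub, Polynomial.map_pow, map_X, hF]
      ring
    rw [this, hprod]
    exact Splits.mul Splits.X (Splits.prod fun _ _ => Splits.X_sub_C _)
  let φ : F →ₐ[ZMod p] κ := IsSplittingField.lift F (X ^ Fintype.card F - X) hs
  obtain ⟨g, hg⟩ := IsCyclic.exists_generator (α := Fˣ)
  have hcard : Fintype.card Fˣ = m := by
    rw [Fintype.card_units, hF, Nat.add_sub_cancel]
  have hgm : (φ g) ^ m = 1 := by
    rw [← map_pow, ← Units.val_pow_eq_pow_val, ← hcard, pow_card_eq_one, Units.val_one, map_one]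
  have h0 : ∏ i ∈ range m, (φ g - res (ξ ^ i)) = 0 := by
    have := congrArg (Polynomial.eval (φ g)) hprod
    simp only [eval_sub, eval_pow, eval_X, eval_one, eval_prod, eval_C, hgm, sub_self] at this
    exact this.symm
  obtain ⟨u, -, hu⟩ := prod_eq_zero_iff.1 h0
  have hun : IsUnit (ξ ^ u) := (hξ.isUnit (NeZero.ne m)).pow u
  have hζ : hun.unit ∈ rootsOfUnity (Fintype.card Fˣ) O := by
    rw [mem_rootsOfUnity', IsUnit.unit_spec, hcard, ← pow_mul, mul_comm, pow_mul, hξ.pow_eq_one,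
      one_pow]
  refine ⟨φ.toRingHom, MulChar.ofRootOfUnity hζ hg, fun x => ?_⟩
  rcases eq_or_ne x 0 with rfl | hx
  · rw [MulChar.map_zero, map_zero, map_zero]
  · obtain ⟨k, hk⟩ := mem_powers_iff_mem_zpowers.2 (hg (Units.mk0 x hx))
    have hk' : x = (g : F) ^ k := by
      rw [← Units.val_pow_eq_pow_val]
      exact (congrArg Units.val hk).symm
    rw [hk', map_pow, map_pow, map_pow, MulChar.ofRootOfUnity_spec, IsUnit.unit_spec,
      ← sub_eq_zero.1 hu]
    rfl

theorem stick_functional {F : Type*} [Field F] [Fintype F] (p : ℕ) [Fact p.Prime] [CharP F p] :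
    ∃ t : F →+ ZMod p, ∑ x : F, x⁻¹ * ((t x).val : F) ≠ 0 := by
  classical
  let _ := ZMod.algebra F p
  let b := Module.finBasis (ZMod p) F
  by_contra hc
  push Not at hc
  have h1 : ∑ x : F, x⁻¹ * x = 0 := by
    have e : ∀ x : F, x⁻¹ * x = ∑ j, x⁻¹ * ((b.coord j x).val : F) * b j := fun x => by
      conv_lhs => rw [← b.sum_repr x]
      rw [b.sum_repr x]
      conv_lhs => rhs; rw [← b.sum_repr x]
      rw [mul_sum]
      refine sum_congr rfl fun j _ => ?_
      rw [mul_assoc, Algebra.smul_def]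
      congr 2
      rw [Module.Basis.coord_apply]
      conv_lhs => rw [← ZMod.natCast_zmod_val (b.repr x j)]
      rw [map_natCast]
    rw [sum_congr rfl fun x _ => e x, sum_comm]
    refine sum_eq_zero fun j _ => ?_
    rw [← sum_mul]
    have := hc (b.coord j).toAddMonoidHom
    simp only [LinearMap.toAddMonoidHom_coe] at this
    rw [this, zero_mul]
  have h2 : ∑ x : F, x⁻¹ * x + 1 = ∑ _x : F, (1 : F) := by
    rw [← sum_erase_add _ _ (mem_univ (0 : F)), ← sum_erase_add _ _ (mem_univ (0 : F)), mul_zero,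
      add_zero]
    congr 1
    exact sum_congr rfl fun x hx => inv_mul_cancel₀ (ne_of_mem_erase hx)
  rw [h1] at h2
  simp at h2

theorem stick_res_geom {O κ : Type*} [CommRing O] [Field κ] (res : O →+* κ) {ζ : O}
    (h : res ζ = 1) (n : ℕ) : res (∑ i ∈ range n, ζ ^ i) = n := by
  simp [map_sum, h]

theorem stick_one {F O κ : Type*} [Field F] [Fintype F] [CommRing O] [IsDomain O] [Field κ]
    {p : ℕ} [Fact p.Prime] [CharP F p] (res : O →+* κ) (φ : F →+* κ) {T : MulChar F O}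
    (hT : ∀ x, res (T x) = φ x) (hT1 : T ≠ 1) {ζ : O} (hζ : ζ ^ p = 1) (h : res ζ = 1) :
    ∃ (ψ : AddChar F O) (w : O), gaussSum T⁻¹ ψ = (ζ - 1) * w ∧ res w ≠ 0 := by
  obtain ⟨t, ht⟩ := stick_functional (F := F) p
  refine ⟨(AddChar.zmodChar p hζ).compAddMonoidHom t,
    ∑ x, T⁻¹ x * ∑ i ∈ range (t x).val, ζ ^ i, ?_, ?_⟩
  · have h0 := MulChar.sum_eq_zero_of_ne_one (inv_ne_one.2 hT1)
    rw [← sub_zero (gaussSum _ _), ← h0, gaussSum, ← sum_sub_distrib, mul_sum]
    refine sum_congr rfl fun x _ => ?_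
    rw [AddChar.compAddMonoidHom_apply, AddChar.zmodChar_apply, mul_left_comm, mul_geom_sum]
    ring
  · rw [map_sum]
    have : ∑ x, res (T⁻¹ x * ∑ i ∈ range (t x).val, ζ ^ i) =
        φ (∑ x : F, x⁻¹ * ((t x).val : F)) := by
      rw [map_sum]
      refine sum_congr rfl fun x _ => ?_
      rw [map_mul, map_mul, stick_res_geom res h, MulChar.inv_apply', hT, map_natCast]
    rw [this]
    exact (map_ne_zero φ).2 ht

theorem stick_core {F Ω : Type*} [Field F] [Fintype F] [NormedField Ω] [IsUltrametricDist Ω]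
    [IsAlgClosed Ω] [CharZero Ω] {p f m : ℕ} [Fact p.Prime] [NeZero m]
    (hF : Fintype.card F = p ^ f) (hm : m + 1 = p ^ f) (hp : ‖(p : Ω)‖ < 1) :
    ∃ (χ : MulChar F Ω) (ρ : ℝ), 0 < ρ ∧ ρ < 1 ∧ orderOf χ = m ∧ ∀ ψ : AddChar F Ω, ψ ≠ 1 →
      ∀ a : ZMod m, ∃ D : ℕ, ‖gaussSum (χ ^ a.val) ψ‖ = ρ ^ D ∧
        p * ∑ k ∈ range f, ((p : ZMod m) ^ k * a).val =
          m * D + ∑ k ∈ range f, ((p : ZMod m) ^ k * a).val := by
  classical
  have hpp : p.Prime := Fact.out
  have : CharP F p := charP_of_card_eq_prime_pow hF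
  let O := (NormedField.valuation (K := Ω)).valuationSubring
  have hO : ∀ x : Ω, x ∈ O ↔ ‖x‖ ≤ 1 := fun x => by
    rw [Valuation.mem_valuationSubring_iff, NormedField.valuation_apply]
    exact Iff.rfl
  let ι : O →+* Ω := O.subtype
  have hι : Function.Injective ι := Subtype.val_injective
  let res := IsLocalRing.residue O
  have hunit : ∀ x : O, res x ≠ 0 → ‖ι x‖ = 1 := fun x hx => by
    obtain ⟨y, hy⟩ := ((IsLocalRing.residue_ne_zero_iff_isUnit x).1 hx).exists_right_inv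
    have h1 : ‖ι x‖ * ‖ι y‖ = 1 := by rw [← norm_mul, ← map_mul, hy, map_one, norm_one]
    have h2 : ‖ι x‖ ≤ 1 := (hO _).1 x.2
    have h3 : ‖ι y‖ ≤ 1 := (hO _).1 y.2
    nlinarith [norm_nonneg (ι x), norm_nonneg (ι y)]
  have : CharP (IsLocalRing.ResidueField O) p := by
    rw [CharP.charP_iff_prime_eq_zero hpp]
    by_contra h
    have := hunit (p : O) (by rwa [map_natCast])
    rw [map_natCast] at this
    linarith
  have hroot : ∀ n : ℕ, n ≠ 0 → ∃ ξ : O, IsPrimitiveRoot ξ n := fun n hn => by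
    have : NeZero n := ⟨hn⟩
    obtain ⟨ξ, hξ⟩ := HasEnoughRootsOfUnity.exists_primitiveRoot Ω n
    exact ⟨⟨ξ, (hO ξ).2 (stick_norm_root hn hξ.pow_eq_one).le⟩,
      IsPrimitiveRoot.of_map_of_injective (f := ι) hξ hι⟩
  obtain ⟨ξ, hξ⟩ := hroot m (NeZero.ne m)
  obtain ⟨ζ, hζ⟩ := hroot p hpp.ne_zero
  obtain ⟨φ, T, hT⟩ := stick_teich (p := p) (hF.trans hm.symm) res hξ
  have hres : res ζ = 1 := by
    have : (res ζ - 1) ^ p = 0 := by
      rw [sub_pow_char, ← map_pow, hζ.pow_eq_one, map_one, one_pow, sub_self]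
    exact sub_eq_zero.1 (pow_eq_zero_iff hpp.ne_zero |>.1 this)
  have hcard : Fintype.card Fˣ = m := by
    rw [Fintype.card_units, hF, ← hm, Nat.add_sub_cancel]
  have hord : orderOf T = m := by
    apply Nat.dvd_antisymm
    · apply orderOf_dvd_of_pow_eq_one
      rw [← hcard]
      exact MulChar.pow_card_eq_one T
    · obtain ⟨g, hg⟩ := IsCyclic.exists_generator (α := Fˣ)
      rw [← hcard, ← Nat.card_eq_fintype_card, ← orderOf_eq_card_of_forall_mem_zpowers hg]
      apply orderOf_dvd_of_pow_eq_one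
      apply Units.ext
      apply φ.injective
      rw [Units.val_pow_eq_pow_val, ← hT, map_pow, ← MulChar.pow_apply_coe, pow_orderOf_eq_one,
        MulChar.one_apply_coe, Units.val_one, map_one, map_one]
  let χ : MulChar F Ω := T⁻¹.ringHomComp ι
  have hχ : orderOf χ = m := by
    rw [← hord, ← orderOf_inv T]
    exact orderOf_injective (MulChar.ringHomCompHom ι) (MulChar.injective_ringHomComp hι) _
  have hpρ : ‖(p : Ω)‖ = ‖ι (ζ - 1)‖ ^ (p - 1) := by
    obtain ⟨q, rfl⟩ := Nat.exists_eq_add_of_le' hpp.one_le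
    have h1 := congrArg ι hζ.prod_one_sub_pow_eq_order
    rw [map_add, map_natCast, map_one, map_prod] at h1
    rw [Nat.cast_add, Nat.cast_one, ← h1, norm_prod, Nat.add_sub_cancel,
      prod_congr rfl (g := fun _ => ‖ι (ζ - 1)‖), prod_const, card_range]
    intro k hk
    rw [← neg_sub, map_neg, norm_neg, ← mul_geom_sum, map_mul, norm_mul,
      hunit (∑ i ∈ range (k + 1), ζ ^ i), mul_one]
    rw [stick_res_geom res hres, Ne, CharP.cast_eq_zero_iff _ (q + 1)]
    have := mem_range.1 hk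
    exact Nat.not_dvd_of_pos_of_lt (by omega) (by omega)
  have h0 : 0 < ‖ι (ζ - 1)‖ := by
    rw [norm_pos_iff, map_ne_zero_iff ι hι, sub_ne_zero]
    exact hζ.ne_one hpp.one_lt
  have h1 : ‖ι (ζ - 1)‖ < 1 := by
    by_contra h
    have := one_le_pow₀ (n := p - 1) (not_lt.1 h)
    linarith
  refine ⟨χ, ‖ι (ζ - 1)‖, h0, h1, hχ, fun ψ hψ a => stick_exact hF hm hχ hψ h0 ?_ hpρ a⟩
  by_cases hT1 : T = 1
  · have : χ = 1 := by simp [χ, hT1]
    rw [this, gaussSum_one_left hψ, norm_neg, norm_one]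
    exact h1.le
  · obtain ⟨ψ0, w, h2, h3⟩ := stick_one res φ hT hT1 hζ.pow_eq_one hres
    have h4 : ‖gaussSum χ (ι.toMonoidHom.compAddChar ψ0)‖ = ‖ι (ζ - 1)‖ := by
      rw [← stick_map, h2, map_mul, norm_mul, hunit w h3, mul_one]
    have h5 : ι.toMonoidHom.compAddChar ψ0 ≠ 1 := by
      intro h
      have hχ1 : χ ≠ 1 := (MulChar.ringHomComp_ne_one_iff hι).2 (inv_ne_one.2 hT1)
      rw [h, gaussSum_one_right hχ1, norm_zero] at h4
      linarith
    rw [stick_norm_indep χ h5 hψ, h4]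

end Pool.Agent.MP_0c8446_ag
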