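import Pool.Agent.MP_0c8446_ag.WBasic

namespace Pool.Agent.MP_0c8446_ag

open Set

universe u

variable {k : Type u} [Field k] {P X Y T : Var k} {p : Mor P X} {q : Mor P Y}

/-- The morphism to a product with given components. -/
noncomputable def IsProd.lift (h : IsProd p q) (f : Mor T X) (g : Mor T Y) : Mor T P :=
  (h T f g).exists.choose

@[simp] lemma IsProd.fst_lift (h : IsProd p q) (f : Mor T X) (g : Mor T Y) (x : T.pts) :
    p.1 ((h.lift f g).1 x) = f.1 x := congrFun (h T f g).exists.choose_spec.1 x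

@[simp] lemma IsProd.snd_lift (h : IsProd p q) (f : Mor T X) (g : Mor T Y) (x : T.pts) :
    q.1 ((h.lift f g).1 x) = g.1 x := congrFun (h T f g).exists.choose_spec.2 x

lemma IsProd.ext (h : IsProd p q) {x y : P.pts} (h₁ : p.1 x = p.1 y) (h₂ : q.1 x = q.1 y) :
    x = y := by
  obtain ⟨z, hz⟩ := h.exists_fiber (p.1 y) (q.1 y)
  have h3 : x ∈ ({z} : Set P.pts) := hz ▸ ⟨h₁, h₂⟩
  have h4 : y ∈ ({z} : Set P.pts) := hz ▸ ⟨rfl, rfl⟩
  exact h3.trans h4.symm

/-- The point of a product with given projections. -/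
noncomputable def IsProd.mk (h : IsProd p q) (x : X.pts) (y : Y.pts) : P.pts :=
  (h.lift (Mor.id X) (Mor.const X y)).1 x

@[simp] lemma IsProd.fst_mk (h : IsProd p q) (x : X.pts) (y : Y.pts) : p.1 (h.mk x y) = x :=
  h.fst_lift _ _ _

@[simp] lemma IsProd.snd_mk (h : IsProd p q) (x : X.pts) (y : Y.pts) : q.1 (h.mk x y) = y :=
  h.snd_lift _ _ _

@[simp] lemma IsProd.mk_eta (h : IsProd p q) (z : P.pts) : h.mk (p.1 z) (q.1 z) = z :=
  h.ext (by simp) (by simp)

lemma IsProd.lift_apply (h : IsProd p q) (f : Mor T X) (g : Mor T Y) (x : T.pts) :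
    (h.lift f g).1 x = h.mk (f.1 x) (g.1 x) := h.ext (by simp) (by simp)

lemma IsProd.symm (h : IsProd p q) : IsProd q p := fun T f g => by
  simpa only [and_comm] using h T g f

/-- A criterion for being a product. -/
lemma isProd_of (hex : ∀ (T : Var k) (f : Mor T X) (g : Mor T Y), ∃ h : Mor T P,
    (∀ x, p.1 (h.1 x) = f.1 x) ∧ ∀ x, q.1 (h.1 x) = g.1 x)
    (hext : ∀ x y, p.1 x = p.1 y → q.1 x = q.1 y → x = y) : IsProd p q := fun T f g => by
  obtain ⟨h, h1, h2⟩ := hex T f g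
  refine ⟨h, ⟨funext h1, funext h2⟩, fun h' hh => Mor.ext' fun x => hext _ _ ?_ ?_⟩
  · exact (congrFun hh.1 x).trans (h1 x).symm
  · exact (congrFun hh.2 x).trans (h2 x).symm

lemma IsProd.isSub (h : IsProd p q) {Z₁ : Set X.pts} {Z₂ : Set Y.pts} (h₁ : IsSub Z₁)
    (h₂ : IsSub Z₂) : IsSub (p.1 ⁻¹' Z₁ ∩ q.1 ⁻¹' Z₂) := by
  refine ⟨?_, (h₁.2.preimage p.continuous).inter (h₂.2.preimage q.continuous)⟩
  have : p.1 ⁻¹' Z₁ ∩ q.1 ⁻¹' Z₂ = image2 h.mk Z₁ Z₂ := by
    ext z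
    constructor
    · exact fun hz => ⟨_, hz.1, _, hz.2, h.mk_eta z⟩
    · rintro ⟨x, hx, y, hy, rfl⟩
      exact ⟨by simpa using hx, by simpa using hy⟩
  rw [this]
  refine isIrreducible_image2 (fun a => ?_) (fun b => ?_) h₁.1 h₂.1
  · convert (h.lift (Mor.const Y a) (Mor.id Y)).continuous using 1
    exact funext fun y => (h.lift_apply (Mor.const Y a) (Mor.id Y) y).symm
  · exact (h.lift (Mor.id X) (Mor.const X b)).continuous

end Pool.Agent.MP_0c8446_ag
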