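import Pool.Agent.MP_0c8446_ag.Defs

namespace Pool.Agent.MP_0c8446_ag

open scoped LinearAlgebra.Projectivization
open MvPolynomial Set TopologicalSpace Topology

universe u

variable {k : Type u} [Field k] {ι κ : Type} {n : ι → ℕ} {m : κ → ℕ}

/-- A chosen coordinate vector. -/
noncomputable def MP.rep (x : MP k n) : Vars n → k := fun a => (x a.1).rep a.2

lemma isRep_rep (x : MP k n) : IsRep x.rep x := fun i =>
  ⟨(x i).rep_nonzero, (x i).mk_rep⟩

lemma IsRep.smul {v : Vars n → k} {x : MP k n} (h : IsRep v x) (t : ι → k) (ht : ∀ i, t i ≠ 0) :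
    IsRep (fun a => t a.1 * v a) x := by
  intro i
  obtain ⟨h0, e⟩ := h i
  have h1 : (fun s => t i * v ⟨i, s⟩) ≠ 0 := by
    intro h2
    apply h0
    funext s
    have := congrFun h2 s
    simpa [ht i] using this
  refine ⟨h1, ?_⟩
  rw [← e, Projectivization.mk_eq_mk_iff']
  exact ⟨t i, rfl⟩

lemma IsRep.exists_smul {v w : Vars n → k} {x : MP k n} (h : IsRep v x) (h' : IsRep w x) :
    ∃ t : ι → k, (∀ i, t i ≠ 0) ∧ w = fun a => t a.1 * v a := by
  have : ∀ i, ∃ c : k, c ≠ 0 ∧ ∀ s, w ⟨i, s⟩ = c * v ⟨i, s⟩ := by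
    intro i
    obtain ⟨h0, e⟩ := h i
    obtain ⟨h1, e'⟩ := h' i
    obtain ⟨c, hc⟩ := (Projectivization.mk_eq_mk_iff k _ _ h1 h0).1 (e'.trans e.symm)
    exact ⟨c, c.ne_zero, fun s => (congrFun hc s).symm⟩
  choose t ht using this
  exact ⟨t, fun i => (ht i).1, funext fun a => (ht a.1).2 a.2⟩

lemma IsRep.unique {v : Vars n → k} {x y : MP k n} (h : IsRep v x) (h' : IsRep v y) : x = y :=
  funext fun i => (h i).2.symm.trans (h' i).2

/-- The restriction of a polynomial to the torus orbit of `v`. -/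
noncomputable def orb (v : Vars n → k) : MvPolynomial (Vars n) k →ₐ[k] MvPolynomial ι k :=
  aeval fun a => X a.1 * C (v a)

lemma eval_orb (v : Vars n → k) (t : ι → k) (f : MvPolynomial (Vars n) k) :
    eval t (orb v f) = eval (fun a => t a.1 * v a) f := by
  induction f using MvPolynomial.induction_on with
  | C c => simp [orb]
  | add f g hf hg => simp [hf, hg]
  | mul_X f a hf => rw [map_mul, map_mul, hf, map_mul]; simp [orb]

lemma vanish_iff_orb [Infinite k] [Finite ι] {v : Vars n → k} {x : MP k n} (h : IsRep v x)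
    (f : MvPolynomial (Vars n) k) : Vanish f x ↔ orb v f = 0 := by
  constructor
  · intro hf
    refine MvPolynomial.funext_set (fun _ => {c : k | c ≠ 0}) (fun _ => ?_) fun t ht => ?_
    · exact (Set.finite_singleton (0 : k)).infinite_compl
    · rw [eval_orb, map_zero]
      exact hf _ (h.smul t fun i => ht i (mem_univ _))
  · intro hf w hw
    obtain ⟨t, -, rfl⟩ := h.exists_smul hw
    rw [← eval_orb, hf, map_zero]

lemma vanish_mul_iff [Infinite k] [Finite ι] {f g : MvPolynomial (Vars n) k} {x : MP k n} :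
    Vanish (f * g) x ↔ Vanish f x ∨ Vanish g x := by
  simp only [vanish_iff_orb (isRep_rep x), map_mul, mul_eq_zero]

lemma not_vanish_one (x : MP k n) : ¬ Vanish 1 x := fun h => by
  simpa using h _ (isRep_rep x)

/-- The ideal of polynomials vanishing on `S`. -/
def vI (S : Set (MP k n)) : Ideal (MvPolynomial (Vars n) k) where
  carrier := {f | ∀ x ∈ S, Vanish f x}
  zero_mem' := fun _ _ _ _ => map_zero _
  add_mem' := fun hf hg x hx v hv => by rw [map_add, hf x hx v hv, hg x hx v hv, add_zero]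
  smul_mem' := fun c f hf x hx v hv => by rw [smul_eq_mul, map_mul, hf x hx v hv, mul_zero]

lemma mem_vI {S : Set (MP k n)} {f : MvPolynomial (Vars n) k} :
    f ∈ vI S ↔ ∀ x ∈ S, Vanish f x := Iff.rfl

lemma isOpen_nv (f : MvPolynomial (Vars n) k) : IsOpen {x : MP k n | ¬ Vanish f x} :=
  isOpen_generateFrom_of_mem ⟨f, rfl⟩

lemma isClosed_vanish (f : MvPolynomial (Vars n) k) : IsClosed {x : MP k n | Vanish f x} := by
  rw [← isOpen_compl_iff]; exact isOpen_nv f

lemma basis_nv [Infinite k] [Finite ι] :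
    IsTopologicalBasis {U : Set (MP k n) | ∃ f, U = {x | ¬ Vanish f x}} := by
  refine ⟨?_, ?_, rfl⟩
  · rintro _ ⟨f, rfl⟩ _ ⟨g, rfl⟩ x hx
    refine ⟨_, ⟨f * g, rfl⟩, ?_, ?_⟩
    · simpa [vanish_mul_iff] using hx
    · intro y hy
      simpa [vanish_mul_iff] using hy
  · refine eq_univ_of_forall fun x => ⟨_, ⟨1, rfl⟩, not_vanish_one x⟩

lemma mem_closure_vI [Infinite k] [Finite ι] {S : Set (MP k n)} {x : MP k n} :
    x ∈ closure S ↔ ∀ f ∈ vI S, Vanish f x := by
  rw [basis_nv.mem_closure_iff]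
  constructor
  · intro h f hf
    by_contra hx
    obtain ⟨y, hy, hyS⟩ := h _ ⟨f, rfl⟩ hx
    exact hy (hf y hyS)
  · rintro h _ ⟨f, rfl⟩ hx
    by_contra hne
    refine hx (h f fun y hy => ?_)
    by_contra hf
    exact hne ⟨y, hf, hy⟩

lemma vI_anti {S T : Set (MP k n)} (h : S ⊆ T) : vI T ≤ vI S := fun _ hf x hx => hf x (h hx)

lemma subset_of_vI_le [Infinite k] [Finite ι] {S T : Set (MP k n)} (hT : IsClosed T)
    (h : vI T ≤ vI S) : S ⊆ T := fun x hx => by
  rw [← hT.closure_eq, mem_closure_vI]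
  exact fun f hf => h hf x hx

lemma vI_lt [Infinite k] [Finite ι] {S T : Set (MP k n)} (hS : IsClosed S) (h : S ⊂ T) :
    vI T < vI S :=
  lt_of_le_of_ne (vI_anti h.1) fun e => h.2 (subset_of_vI_le hS e.ge)

lemma vI_isPrime [Infinite k] [Finite ι] {S : Set (MP k n)} (hS : IsIrreducible S) :
    (vI S).IsPrime := by
  refine ⟨?_, fun {f g} h => ?_⟩
  · obtain ⟨x, hx⟩ := hS.1
    rw [Ideal.ne_top_iff_one]
    exact fun h => not_vanish_one x (h x hx)
  · have := (isPreirreducible_iff_isClosed_union_isClosed.1 hS.2) _ _ (isClosed_vanish f)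
      (isClosed_vanish g) fun x hx => vanish_mul_iff.1 (h x hx)
    exact this.imp (fun h x hx => h hx) fun h x hx => h hx

lemma isIrreducible_of_prime [Infinite k] [Finite ι] {S : Set (MP k n)} (hS : (vI S).IsPrime) :
    IsIrreducible S := by
  refine ⟨?_, ?_⟩
  · by_contra h
    rw [not_nonempty_iff_eq_empty] at h
    exact hS.ne_top ((Ideal.eq_top_iff_one _).2 fun x hx => by simp [h] at hx)
  · rintro U V hU hV ⟨x, hxS, hxU⟩ ⟨y, hyS, hyV⟩
    obtain ⟨_, ⟨f, rfl⟩, hf, hfU⟩ := basis_nv.exists_subset_of_mem_open hxU hU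
    obtain ⟨_, ⟨g, rfl⟩, hg, hgV⟩ := basis_nv.exists_subset_of_mem_open hyV hV
    by_contra hne
    have : f * g ∈ vI S := by
      intro z hz
      rw [vanish_mul_iff]
      by_contra h
      push Not at h
      exact hne ⟨z, hz, hfU h.1, hgV h.2⟩
    rcases hS.mem_or_mem this with h | h
    · exact hf (h x hxS)
    · exact hg (h y hyS)

instance [Infinite k] [Finite ι] : NoetherianSpace (MP k n) := by
  refine ((noetherianSpace_TFAE (MP k n)).out 1 0).1 ?_
  have : StrictMono fun S : Closeds (MP k n) => OrderDual.toDual (vI (S : Set (MP k n))) :=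
    fun S T h => vI_lt S.isClosed h
  exact this.wellFoundedLT

instance [Infinite k] [Finite ι] (S : Set (MP k n)) : NoetherianSpace S :=
  IsInducing.subtypeVal.noetherianSpace

lemma mk_eq_of_minor {r : ℕ} {v w : Fin (r + 1) → k} (hv : v ≠ 0) (hw : w ≠ 0)
    (h : ∀ s t, v s * w t = v t * w s) :
    Projectivization.mk k v hv = Projectivization.mk k w hw := by
  obtain ⟨t, ht⟩ := Function.ne_iff.1 hw
  rw [Projectivization.mk_eq_mk_iff']
  refine ⟨v t / w t, funext fun s => ?_⟩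
  have ht' : w t ≠ 0 := ht
  simp only [Pi.smul_apply, smul_eq_mul]
  field_simp
  linear_combination (h s t).symm

lemma minor_of_mk_eq {r : ℕ} {v w : Fin (r + 1) → k} {hv : v ≠ 0} {hw : w ≠ 0}
    (h : Projectivization.mk k v hv = Projectivization.mk k w hw) (s t : Fin (r + 1)) :
    v s * w t = v t * w s := by
  obtain ⟨c, rfl⟩ := (Projectivization.mk_eq_mk_iff' k _ _ hv hw).1 h
  simp only [Pi.smul_apply, smul_eq_mul]
  ring

lemma eval_comp_aeval {σ σ' : Type} (v : σ → k) (F : σ' → MvPolynomial σ k)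
    (f : MvPolynomial σ' k) : eval v (aeval F f) = eval (fun s => eval v (F s)) f := by
  induction f using MvPolynomial.induction_on with
  | C c => simp
  | add f g hf hg => rw [map_add, map_add, hf, hg, map_add]
  | mul_X f a hf => rw [map_mul, map_mul, hf, map_mul]; simp

lemma continuous_to_MP {X : Type*} [TopologicalSpace X] {g : X → MP k m}
    (h : ∀ f, IsOpen {x | ¬ Vanish f (g x)}) : Continuous g := by
  refine continuous_generateFrom_iff.2 ?_
  rintro _ ⟨f, rfl⟩
  exact h f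

lemma IsMor.continuous {S : Set (MP k n)} {T : Set (MP k m)} {φ : S → T} (h : IsMor φ) :
    Continuous φ := by
  refine continuous_induced_rng.2 (continuous_to_MP fun f => ?_)
  rw [isOpen_iff_forall_mem_open]
  intro x hx
  obtain ⟨U, hU, hxU, F, hF⟩ := h x
  obtain ⟨w, hw, hw0⟩ : ∃ w, IsRep w (φ x).1 ∧ eval w f ≠ 0 := by
    by_contra hne
    push Not at hne
    exact hx hne
  obtain ⟨t, ht, hwt⟩ := (hF x hxU _ (isRep_rep x.1)).exists_smul hw
  obtain ⟨g, e⟩ : ∃ g : MvPolynomial (Vars n) k, ∀ v : Vars n → k, eval v g =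
      eval (fun a => t a.1 * eval v (F a)) f := by
    refine ⟨aeval (fun a : Vars m => C (t a.1) * F a) f, fun v => ?_⟩
    rw [eval_comp_aeval]
    simp only [map_mul, eval_C]
  refine ⟨U ∩ Subtype.val ⁻¹' {y | ¬ Vanish g y}, ?_,
    hU.inter ((isOpen_nv _).preimage continuous_subtype_val), hxU, ?_⟩
  · rintro y ⟨hyU, hy⟩ hv
    refine hy fun v hv' => ?_
    rw [e]
    exact hv _ ((hF y hyU v hv').smul t ht)
  · intro hv
    have := hv _ (isRep_rep x.1)
    rw [e, ← hwt] at this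
    exact hw0 this

lemma isClosed_eq_mor {S : Set (MP k n)} {T : Set (MP k m)} {φ ψ : S → T} (h : IsMor φ)
    (h' : IsMor ψ) : IsClosed {x | φ x = ψ x} := by
  rw [← isOpen_compl_iff, isOpen_iff_forall_mem_open]
  intro x hx
  obtain ⟨U, hU, hxU, F, hF⟩ := h x
  obtain ⟨V, hV, hxV, G, hG⟩ := h' x
  have hx' : (φ x).1 ≠ (ψ x).1 := fun e => hx (Subtype.ext e)
  obtain ⟨j, hj⟩ := Function.ne_iff.1 hx'
  obtain ⟨h1, e1⟩ := hF x hxU _ (isRep_rep x.1) j
  obtain ⟨h2, e2⟩ := hG x hxV _ (isRep_rep x.1) j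
  have : ¬ ∀ s t, eval x.1.rep (F ⟨j, s⟩) * eval x.1.rep (G ⟨j, t⟩) =
      eval x.1.rep (F ⟨j, t⟩) * eval x.1.rep (G ⟨j, s⟩) := fun hm =>
    hj (e1.symm.trans ((mk_eq_of_minor h1 h2 hm).trans e2))
  push Not at this
  obtain ⟨s, t, hst⟩ := this
  refine ⟨U ∩ V ∩ Subtype.val ⁻¹' {y | ¬ Vanish (F ⟨j, s⟩ * G ⟨j, t⟩ - F ⟨j, t⟩ * G ⟨j, s⟩) y},
    ?_, (hU.inter hV).inter ((isOpen_nv _).preimage continuous_subtype_val), ⟨hxU, hxV⟩, ?_⟩
  · rintro y ⟨⟨hyU, hyV⟩, hy⟩ e
    refine hy fun v hv => ?_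
    obtain ⟨h3, e3⟩ := hF y hyU v hv j
    obtain ⟨h4, e4⟩ := hG y hyV v hv j
    have e5 : (φ y).1 j = (ψ y).1 j := by rw [show φ y = ψ y from e]
    have := minor_of_mk_eq (e3.trans (e5.trans e4.symm)) s t
    simp only [map_sub, map_mul]
    exact sub_eq_zero.2 this
  · intro hv
    have := hv _ (isRep_rep x.1)
    simp only [map_sub, map_mul] at this
    exact hst (sub_eq_zero.1 this)

lemma isMor_of_global {S : Set (MP k n)} {T : Set (MP k m)} {φ : S → T}
    (F : Vars m → MvPolynomial (Vars n) k)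
    (h : ∀ y : S, ∀ v, IsRep v y.1 → IsRep (fun s => eval v (F s)) (φ y).1) : IsMor φ :=
  fun x => ⟨univ, isOpen_univ, mem_univ x, F, fun y _ => h y⟩

lemma isMor_id {S : Set (MP k n)} : IsMor (id : S → S) :=
  isMor_of_global X fun y v hv => by simpa using hv

lemma isMor_const {S : Set (MP k n)} {T : Set (MP k m)} (c : T) : IsMor fun _ : S => c :=
  isMor_of_global (fun a => C (c.1.rep a)) fun y v _ => by simpa using isRep_rep c.1

lemma IsMor.comp {κ' : Type} {l : κ' → ℕ} {S : Set (MP k n)} {T : Set (MP k m)} {R : Set (MP k l)}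
    {φ : S → T} {ψ : T → R} (h' : IsMor ψ) (h : IsMor φ) : IsMor (ψ ∘ φ) := by
  intro x
  obtain ⟨U, hU, hxU, F, hF⟩ := h x
  obtain ⟨V, hV, hxV, G, hG⟩ := h' (φ x)
  refine ⟨U ∩ φ ⁻¹' V, hU.inter (hV.preimage h.continuous), ⟨hxU, hxV⟩,
    fun a => aeval F (G a), fun y hy v hv => ?_⟩
  simp only [eval_comp_aeval]
  exact hG _ hy.2 _ (hF y hy.1 v hv)

instance (S : Set (MP k n)) : T1Space S :=
  ⟨fun x => isClosed_eq_mor (φ := id) isMor_id (isMor_const x)⟩

end Pool.Agent.MP_0c8446_ag
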