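import Pool.Agent.MP_0c8446_ag.Dim

namespace Pool.Agent.MP_0c8446_ag

open Set

universe u v w

variable {k : Type u} [Field k] {K : Type v} [Field K]

/-- The identity morphism. -/
def Mor.id (X : Var k) : Mor X X := ⟨_root_.id, isMor_id⟩

/-- Composition of morphisms. -/
def Mor.comp {X Y Z : Var k} (g : Mor Y Z) (f : Mor X Y) : Mor X Z := ⟨g.1 ∘ f.1, g.2.comp f.2⟩

/-- Constant morphisms. -/
def Mor.const (X : Var k) {Y : Var k} (y : Y.pts) : Mor X Y := ⟨fun _ => y, isMor_const y⟩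

@[simp] lemma Mor.id_apply (X : Var k) (x : X.pts) : (Mor.id X).1 x = x := rfl

@[simp] lemma Mor.comp_apply {X Y Z : Var k} (g : Mor Y Z) (f : Mor X Y) (x : X.pts) :
    (g.comp f).1 x = g.1 (f.1 x) := rfl

@[simp] lemma Mor.const_apply (X : Var k) {Y : Var k} (y : Y.pts) (x : X.pts) :
    (Mor.const X y).1 x = y := rfl

lemma Mor.continuous {X Y : Var k} (f : Mor X Y) : Continuous f.1 := f.2.continuous

lemma Mor.ext' {X Y : Var k} {f g : Mor X Y} (h : ∀ x, f.1 x = g.1 x) : f = g :=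
  Subtype.ext (funext h)

lemma Var.isSub_univ (X : Var k) : IsSub (univ : Set X.pts) := by
  refine ⟨?_, isClosed_univ⟩
  have := Subtype.irreducibleSpace X.sub.1
  exact IrreducibleSpace.isIrreducible_univ _

instance (X : Var k) : Nonempty X.pts := X.sub.1.1.to_subtype

lemma Var.dim_le [Infinite k] (X : Var k) (Z : Set X.pts) : dim Z ≤ X.d := dim_mono (subset_univ Z)

lemma Mor.retr {X Y : Var k} (f : Mor X Y) (g : Mor Y X) (h : ∀ x, g.1 (f.1 x) = x) :
    Retr f.1 g.1 := by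
  refine ⟨f.continuous, g.continuous, h, ?_⟩
  have : range f.1 = {y | (f.comp g).1 y = (Mor.id Y).1 y} := by
    ext y
    constructor
    · rintro ⟨x, rfl⟩
      simp [h]
    · exact fun hy => ⟨_, hy⟩
  rw [this]
  exact isClosed_eq_mor (f.comp g).2 (Mor.id Y).2

namespace Weil

variable (W : Weil.{u, v, w} k K)

instance (X : Var k) : Module.Finite K (W.H X) := W.finite X

lemma pull_pull {X Y Z : Var k} (f : Mor X Y) (g : Mor Y Z) (a : W.H Z) :
    W.pull f (W.pull g a) = W.pull (g.comp f) a := (W.pull_comp f g _ rfl a).symm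

lemma pull_congr {X Y : Var k} {f g : Mor X Y} (h : ∀ x, f.1 x = g.1 x) (a : W.H Y) :
    W.pull f a = W.pull g a := by rw [Mor.ext' h]

/-- The span of the classes of subvarieties. -/
def Alg (X : Var k) : Submodule K (W.H X) := Submodule.span K (W.cl X '' {C | IsSub C})

lemma cl_mem_Alg {X : Var k} {Z : Set X.pts} (hZ : IsSub Z) : W.cl X Z ∈ W.Alg X :=
  Submodule.subset_span ⟨Z, hZ, rfl⟩

lemma closure_le_Alg {X : Var k} {a : W.H X}
    (h : a ∈ AddSubgroup.closure (W.cl X '' {C | IsSub C})) : a ∈ W.Alg X :=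
  (AddSubgroup.closure_le (W.Alg X).toAddSubgroup).2 Submodule.subset_span h

lemma one_mem_Alg (X : Var k) : (1 : W.H X) ∈ W.Alg X :=
  W.cl_univ X ▸ W.cl_mem_Alg X.isSub_univ

lemma mul_mem_Alg {X : Var k} {a b : W.H X} (ha : a ∈ W.Alg X) (hb : b ∈ W.Alg X) :
    a * b ∈ W.Alg X := by
  have : W.Alg X * W.Alg X ≤ W.Alg X := by
    unfold Alg
    rw [Submodule.span_mul_span, Submodule.span_le]
    rintro _ ⟨_, ⟨Z, hZ, rfl⟩, _, ⟨Z', hZ', rfl⟩, rfl⟩
    exact W.closure_le_Alg (W.mul_cl X Z Z' hZ hZ')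
  exact this (Submodule.mul_mem_mul ha hb)

lemma pull_mem_Alg {X Y : Var k} (f : Mor X Y) {a : W.H Y} (ha : a ∈ W.Alg Y) :
    W.pull f a ∈ W.Alg X := by
  have : W.Alg Y ≤ (W.Alg X).comap (W.pull f).toLinearMap := by
    unfold Alg
    rw [Submodule.span_le]
    rintro _ ⟨Z, hZ, rfl⟩
    exact W.closure_le_Alg (W.pull_cl f Z hZ)
  exact this ha

lemma exists_cl_of_Alg {X : Var k} {a b : W.H X} (ha : a ∈ W.Alg X) (h : W.tr X (a * b) ≠ 0) :
    ∃ Z, IsSub Z ∧ W.tr X (W.cl X Z * b) ≠ 0 := by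
  by_contra hne
  push Not at hne
  have : W.Alg X ≤ LinearMap.ker (W.tr X ∘ₗ LinearMap.mulRight K b) := by
    unfold Alg
    rw [Submodule.span_le]
    rintro _ ⟨Z, hZ, rfl⟩
    exact hne Z hZ
  exact h (this ha)

/-- Homogeneous subspaces of the cohomology. -/
def HS (X : Var k) : Submonoid (Submodule K (W.H X)) where
  carrier := {S | ∃ i, S ≤ W.gr X i}
  one_mem' := ⟨0, by rw [W.zero, Submodule.one_eq_span]⟩
  mul_mem' := by
    rintro S T ⟨i, hi⟩ ⟨j, hj⟩
    exact ⟨i + j, Submodule.mul_le.2 fun a ha b hb => SetLike.mul_mem_graded (hi ha) (hj hb)⟩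

lemma HS_comm {X : Var k} (S T : W.HS X) : S * T = T * S := by
  have key : ∀ S T : W.HS X, S.1 * T.1 ≤ T.1 * S.1 := by
    rintro ⟨S, i, hi⟩ ⟨T, j, hj⟩
    refine Submodule.mul_le.2 fun a ha b hb => ?_
    rw [W.comm X i j a (hi ha) b (hj hb)]
    rcases neg_one_pow_eq_or (W.H X) (i * j) with h | h <;> rw [h]
    · simpa using Submodule.mul_mem_mul hb ha
    · simpa using Submodule.mul_mem_mul hb ha
  exact Subtype.ext (le_antisymm (key S T) (key T S))

noncomputable instance (X : Var k) : CommMonoid (W.HS X) :=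
  { (inferInstance : Monoid (W.HS X)) with mul_comm := W.HS_comm }

/-- Pull-back of homogeneous subspaces. -/
noncomputable def pullS {X Y : Var k} (f : Mor X Y) : W.HS Y →* W.HS X where
  toFun S := ⟨S.1.map (W.pull f).toLinearMap, S.2.imp fun i hi => by
    rintro _ ⟨a, ha, rfl⟩
    exact W.pull_gr f i a (hi ha)⟩
  map_one' := Subtype.ext (Submodule.map_one _)
  map_mul' S T := Subtype.ext (Submodule.map_mul _ _ _)

lemma pullS_val {X Y : Var k} (f : Mor X Y) (S : W.HS Y) :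
    (W.pullS f S).1 = S.1.map (W.pull f).toLinearMap := rfl

lemma mem_pullS {X Y : Var k} {f : Mor X Y} {S : W.HS Y} {a : W.H X} :
    a ∈ (W.pullS f S).1 ↔ ∃ b ∈ S.1, W.pull f b = a := Iff.rfl

lemma pullS_pullS {X Y Z : Var k} (f : Mor X Y) (g : Mor Y Z) (S : W.HS Z) :
    W.pullS f (W.pullS g S) = W.pullS (g.comp f) S := by
  refine Subtype.ext ?_
  rw [pullS_val, pullS_val, pullS_val, ← Submodule.map_comp]
  congr 1
  ext a
  exact W.pull_pull f g a

lemma pullS_id {X : Var k} (f : Mor X X) (hf : ∀ x, f.1 x = x) (S : W.HS X) : W.pullS f S = S := by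
  refine Subtype.ext ?_
  have : (W.pull f).toLinearMap = LinearMap.id := by
    ext a
    exact W.pull_id f (funext hf) a
  rw [pullS_val, this, Submodule.map_id]

/-- The trace does not vanish on the subspace. -/
def NZ {X : Var k} (S : Submodule K (W.H X)) : Prop := ∃ a ∈ S, W.tr X a ≠ 0

end Weil

end Pool.Agent.MP_0c8446_ag
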